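import Pool.Agent.Lib.MP_c5814c_pr.Nice

section

namespace Pool.Agent.Lib.MP_c5814c_pr

open MeasureTheory ProbabilityTheory Set Filter
open scoped ENNReal Topology

theorem integral_unif (g : ℝ → ℝ) : ∫ u, g u ∂unif = ∫ u in (0:ℝ)..1, g u := by
  rw [intervalIntegral.integral_of_le zero_le_one, unif, integral_Ioc_eq_integral_Ioo]

theorem Integrable.interval {g : ℝ → ℝ} (hg : Integrable g unif) {a b : ℝ} (ha : 0 ≤ a)
    (hab : a ≤ b) (hb : b ≤ 1) : IntervalIntegrable g volume a b := by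
  rw [intervalIntegrable_iff_integrableOn_Ioo_of_le hab]
  exact IntegrableOn.mono_set hg (Ioo_subset_Ioo ha hb)

theorem integral_split {g : ℝ → ℝ} (hg : Integrable g unif) {p : ℝ} (hp : p ∈ Icc (0:ℝ) 1) :
    ∫ u, g u ∂unif = (∫ u in (0:ℝ)..p, g u) + ∫ u in p..1, g u := by
  rw [integral_unif, intervalIntegral.integral_add_adjacent_intervals
    (Integrable.interval hg le_rfl hp.1 hp.2) (Integrable.interval hg hp.1 hp.2 le_rfl)]

theorem integral_nonpos_Ioo {g : ℝ → ℝ} {a b : ℝ} (hab : a ≤ b)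
    (h : ∀ u ∈ Ioo a b, g u ≤ 0) : ∫ u in a..b, g u ≤ 0 := by
  rw [intervalIntegral.integral_of_le hab, integral_Ioc_eq_integral_Ioo]
  exact setIntegral_nonpos measurableSet_Ioo h

theorem integral_nonneg_Ioo {g : ℝ → ℝ} {a b : ℝ} (hab : a ≤ b)
    (h : ∀ u ∈ Ioo a b, 0 ≤ g u) : 0 ≤ ∫ u in a..b, g u := by
  rw [intervalIntegral.integral_of_le hab, integral_Ioc_eq_integral_Ioo]
  exact setIntegral_nonneg measurableSet_Ioo h

theorem integral_mono_Ioo {f g : ℝ → ℝ} {a b : ℝ} (hab : a ≤ b)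
    (hf : IntervalIntegrable f volume a b) (hg : IntervalIntegrable g volume a b)
    (h : ∀ u ∈ Ioo a b, f u ≤ g u) : ∫ u in a..b, f u ≤ ∫ u in a..b, g u := by
  have := integral_nonpos_Ioo (g := fun u => f u - g u) hab fun u hu => by linarith [h u hu]
  rw [intervalIntegral.integral_sub hf hg] at this
  linarith

theorem integral_congr_Ioo {f g : ℝ → ℝ} {a b : ℝ} (hab : a ≤ b)
    (h : ∀ u ∈ Ioo a b, f u = g u) : ∫ u in a..b, f u = ∫ u in a..b, g u := by
  rw [intervalIntegral.integral_of_le hab, intervalIntegral.integral_of_le hab,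
    integral_Ioc_eq_integral_Ioo, integral_Ioc_eq_integral_Ioo]
  exact setIntegral_congr_fun measurableSet_Ioo h

/-- A monotone weight against a function with sign pattern `+,-` and zero integral. -/
theorem pattern_le {k ρ : ℝ → ℝ} {a b c : ℝ} (hc : c ∈ Ioo a b)
    (hk : MonotoneOn k (Ioo a b)) (h1 : ∀ u ∈ Ioo a c, 0 ≤ ρ u) (h2 : ∀ u ∈ Ioo c b, ρ u ≤ 0)
    (hρ : IntervalIntegrable ρ volume a b)
    (hkρ : IntervalIntegrable (fun u => k u * ρ u) volume a b)
    (h0 : ∫ u in a..b, ρ u = 0) : ∫ u in a..b, k u * ρ u ≤ 0 := by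
  have hab : a ≤ b := (hc.1.trans hc.2).le
  have h3 : ∫ u in a..b, (k u * ρ u - k c * ρ u) ≤ 0 := by
    refine integral_nonpos_Ioo hab fun u hu => ?_
    rcases lt_trichotomy u c with h | h | h
    · have := hk hu hc h.le
      have := h1 u ⟨hu.1, h⟩
      nlinarith
    · subst h; simp
    · have := hk hc hu h.le
      have := h2 u ⟨h, hu.2⟩
      nlinarith
  rw [intervalIntegral.integral_sub hkρ (hρ.const_mul _), intervalIntegral.integral_const_mul,
    h0] at h3
  linarith

theorem ae_zero_of {ρ : ℝ → ℝ} {a b : ℝ} (hab : a ≤ b) (h1 : ∀ u ∈ Ioo a b, 0 ≤ ρ u)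
    (hρ : IntervalIntegrable ρ volume a b) (h0 : ∫ u in a..b, ρ u = 0) :
    ∀ᵐ u ∂(volume.restrict (Ioo a b)), ρ u = 0 := by
  rw [intervalIntegral.integral_of_le hab, integral_Ioc_eq_integral_Ioo,
    setIntegral_eq_zero_iff_of_nonneg_ae] at h0
  · exact h0
  · exact (ae_restrict_mem measurableSet_Ioo).mono h1
  · exact (intervalIntegrable_iff_integrableOn_Ioo_of_le hab).1 hρ

theorem integral_mul_of_ae_zero {k ρ : ℝ → ℝ} {a b : ℝ} (hab : a ≤ b)
    (h : ∀ᵐ u ∂(volume.restrict (Ioo a b)), ρ u = 0) : ∫ u in a..b, k u * ρ u = 0 := by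
  rw [intervalIntegral.integral_of_le hab, integral_Ioc_eq_integral_Ioo]
  have : ∫ u in Ioo a b, k u * ρ u = ∫ u in Ioo a b, (0:ℝ) := by
    refine integral_congr_ae ?_
    filter_upwards [h] with u hu
    rw [hu, mul_zero]
  rw [this]; simp

/-- Chebyshev's association inequality. -/
theorem cheb {k ρ : ℝ → ℝ} {a b : ℝ} (hab : a ≤ b)
    (hk : MonotoneOn k (Ioo a b)) (hr : AntitoneOn ρ (Ioo a b))
    (hρ : IntervalIntegrable ρ volume a b)
    (hkρ : IntervalIntegrable (fun u => k u * ρ u) volume a b)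
    (h0 : ∫ u in a..b, ρ u = 0) : ∫ u in a..b, k u * ρ u ≤ 0 := by
  by_cases hA : ∀ u ∈ Ioo a b, 0 ≤ ρ u
  · exact (integral_mul_of_ae_zero hab (ae_zero_of hab hA hρ h0)).le
  by_cases hB : ∀ u ∈ Ioo a b, ρ u ≤ 0
  · have h1 := ae_zero_of (ρ := fun u => - ρ u) hab (fun u hu => by linarith [hB u hu]) hρ.neg
      (by rw [intervalIntegral.integral_neg, h0, neg_zero])
    refine (integral_mul_of_ae_zero hab ?_).le
    filter_upwards [h1] with u hu
    linarith
  push Not at hA hB
  obtain ⟨u2, hu2, hn⟩ := hA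
  obtain ⟨u1, hu1, hp⟩ := hB
  set S := {u | u ∈ Ioo a b ∧ 0 ≤ ρ u} with hS
  have hne : S.Nonempty := ⟨u1, hu1, hp.le⟩
  have hub : ∀ u ∈ S, u ≤ u2 := by
    intro u hu
    by_contra hlt
    push Not at hlt
    have := hr hu2 hu.1 hlt.le
    linarith [hu.2]
  have hbdd : BddAbove S := ⟨u2, hub⟩
  have hc1 : u1 ≤ sSup S := le_csSup hbdd ⟨hu1, hp.le⟩
  have hc2 : sSup S ≤ u2 := csSup_le hne hub
  refine pattern_le (c := sSup S) ⟨by linarith [hu1.1], by linarith [hu2.2]⟩ hk ?_ ?_ hρ hkρ h0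
  · intro u hu
    obtain ⟨v, hv, huv⟩ := exists_lt_of_lt_csSup hne hu.2
    have hu' : u ∈ Ioo a b := ⟨hu.1, by linarith [hv.1.2]⟩
    have := hr hu' hv.1 huv.le
    linarith [hv.2]
  · intro u hu
    by_contra hlt
    push Not at hlt
    have hu' : u ∈ Ioo a b := ⟨by linarith [hu1.1, hu.1], hu.2⟩
    have := le_csSup hbdd (show u ∈ S from ⟨hu', hlt.le⟩)
    linarith [hu.1]

/-- Cauchy–Schwarz with its case of equality. -/
theorem cauchy {μ : Measure ℝ} {f g : ℝ → ℝ} (hf : MemLp f 2 μ) (hg : MemLp g 2 μ)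
    (hB : 0 < ∫ u, g u ^ 2 ∂μ) :
    (∫ u, f u * g u ∂μ) ^ 2 ≤ (∫ u, f u ^ 2 ∂μ) * ∫ u, g u ^ 2 ∂μ ∧
    ((∫ u, f u * g u ∂μ) ^ 2 = (∫ u, f u ^ 2 ∂μ) * ∫ u, g u ^ 2 ∂μ →
      ∀ᵐ u ∂μ, f u = (∫ u, f u * g u ∂μ) / (∫ u, g u ^ 2 ∂μ) * g u) := by
  have hff : Integrable (fun u => f u ^ 2) μ := hf.integrable_sq
  have hgg : Integrable (fun u => g u ^ 2) μ := hg.integrable_sq
  have hfg : Integrable (fun u => f u * g u) μ := hf.integrable_mul hg
  set A := ∫ u, f u * g u ∂μ
  set B := ∫ u, g u ^ 2 ∂μ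
  have hexp : ∫ u, (B * f u - A * g u) ^ 2 ∂μ = B * (B * (∫ u, f u ^ 2 ∂μ) - A ^ 2) := by
    have h1 : ∀ u, (B * f u - A * g u) ^ 2
        = B ^ 2 * f u ^ 2 - 2 * A * B * (f u * g u) + A ^ 2 * g u ^ 2 := fun u => by ring
    simp only [h1]
    have i1 : Integrable (fun u => B ^ 2 * f u ^ 2 - 2 * A * B * (f u * g u)) μ :=
      (hff.const_mul _).sub (hfg.const_mul _)
    have i2 : Integrable (fun u => A ^ 2 * g u ^ 2) μ := hgg.const_mul _
    have i3 : Integrable (fun u => B ^ 2 * f u ^ 2) μ := hff.const_mul _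
    have i4 : Integrable (fun u => 2 * A * B * (f u * g u)) μ := hfg.const_mul _
    rw [integral_add i1 i2, integral_sub i3 i4, integral_const_mul, integral_const_mul,
      integral_const_mul]
    change B ^ 2 * (∫ u, f u ^ 2 ∂μ) - 2 * A * B * A + A ^ 2 * B = _
    ring
  have hnn : 0 ≤ ∫ u, (B * f u - A * g u) ^ 2 ∂μ := integral_nonneg fun u => sq_nonneg _
  rw [hexp] at hnn
  constructor
  · have := nonneg_of_mul_nonneg_right hnn hB
    linarith
  · intro heq
    have h0 : ∫ u, (B * f u - A * g u) ^ 2 ∂μ = 0 := by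
      rw [hexp, heq]; ring
    have hint : Integrable (fun u => (B * f u - A * g u) ^ 2) μ :=
      ((hf.const_mul B).sub (hg.const_mul A)).integrable_sq
    rw [integral_eq_zero_iff_of_nonneg (fun u => sq_nonneg _) hint] at h0
    filter_upwards [h0] with u hu
    have h2 : B * f u - A * g u = 0 := by
      have : (B * f u - A * g u) ^ 2 = 0 := hu
      exact pow_eq_zero_iff (two_ne_zero) |>.1 this
    field_simp
    linarith

end Pool.Agent.Lib.MP_c5814c_pr
end

section

namespace Pool.Agent.Lib.MP_c5814c_pr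

open MeasureTheory ProbabilityTheory Set Filter
open scoped ENNReal Topology

theorem dens_pos {n j : ℕ} (hj : j < n) {u : ℝ} (hu : u ∈ Ioo (0:ℝ) 1) : 0 < pdfU n j u := by
  have h1 : 0 < 1 - u := by linarith [hu.2]
  have h2 : 0 < u := hu.1
  have h3 : 0 < (n - 1).choose j := Nat.choose_pos (by omega)
  have h4 : 0 < n := by omega
  unfold pdfU
  positivity

theorem hasDerivAt_dens {n j : ℕ} (hj : j < n) {u : ℝ} (hu : u ∈ Ioo (0:ℝ) 1) :
    HasDerivAt (pdfU n j) (pdfU n j u * (j - (n - 1) * u) / (u * (1 - u))) u := by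
  have h1 : (1 - u) ≠ 0 := by linarith [hu.2]
  have h2 : u ≠ 0 := ne_of_gt hu.1
  obtain ⟨m, rfl⟩ : ∃ m, n = j + 1 + m := ⟨n - (j + 1), by omega⟩
  have hm : j + 1 + m - 1 - j = m := by omega
  have ha : HasDerivAt (fun u : ℝ => u ^ j) (j * u ^ j / u) u := by
    refine (hasDerivAt_pow j u).congr_deriv ?_
    rcases Nat.eq_zero_or_pos j with h | h
    · subst h; simp
    · obtain ⟨k, rfl⟩ : ∃ k, j = k + 1 := ⟨j - 1, by omega⟩
      have : k + 1 - 1 = k := by omega
      rw [this]
      field_simp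
      try ring
  have hb : HasDerivAt (fun u : ℝ => (1 - u) ^ m) (- (m * (1 - u) ^ m / (1 - u))) u := by
    have h0 : HasDerivAt (fun u : ℝ => 1 - u) (-1) u := by
      simpa using (hasDerivAt_id u).const_sub 1
    refine (h0.fun_pow m).congr_deriv ?_
    rcases Nat.eq_zero_or_pos m with h | h
    · subst h; simp
    · obtain ⟨k, rfl⟩ : ∃ k, m = k + 1 := ⟨m - 1, by omega⟩
      have : k + 1 - 1 = k := by omega
      rw [this]
      field_simp
      try ring
  have hab := (ha.fun_mul hb).const_mul (((j + 1 + m : ℕ) : ℝ) * ((j + 1 + m - 1).choose j : ℝ))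
  have heq : pdfU (j + 1 + m) j = fun u =>
      (((j + 1 + m : ℕ) : ℝ) * ((j + 1 + m - 1).choose j : ℝ)) * (u ^ j * (1 - u) ^ m) := by
    funext v
    unfold pdfU
    rw [hm]; ring
  rw [heq]
  refine hab.congr_deriv ?_
  push_cast
  field_simp
  ring

theorem dens_anti {n j : ℕ} (hj : j < n) {a : ℝ} (ha : 0 ≤ a) (haj : (j : ℝ) ≤ (n - 1) * a) :
    AntitoneOn (pdfU n j) (Icc a 1) := by
  refine antitoneOn_of_deriv_nonpos (convex_Icc a 1) (continuous_dens n j).continuousOn
    (fun u _ => ?_) fun u hu => ?_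
  · exact ((by unfold pdfU; fun_prop : Differentiable ℝ (pdfU n j)) u).differentiableWithinAt
  · rw [interior_Icc] at hu
    have hu' : u ∈ Ioo (0:ℝ) 1 := ⟨by linarith [hu.1], hu.2⟩
    rw [(hasDerivAt_dens hj hu').deriv]
    have h1 : 0 < 1 - u := by linarith [hu.2]
    have h2 := dens_pos hj hu'
    have h3 : (j : ℝ) - (n - 1) * u ≤ 0 := by
      have h4 : (0:ℝ) ≤ n - 1 := by
        have : (1:ℝ) ≤ n := by exact_mod_cast (by omega : 1 ≤ n)
        linarith
      nlinarith [hu.1]
    refine div_nonpos_of_nonpos_of_nonneg ?_ (mul_pos hu'.1 h1).le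
    exact mul_nonpos_of_nonneg_of_nonpos h2.le h3

theorem dens_mono {n j : ℕ} (hj : j < n) {a : ℝ} (ha : a ≤ 1) (haj : (n - 1) * a ≤ j) :
    MonotoneOn (pdfU n j) (Icc 0 a) := by
  refine monotoneOn_of_deriv_nonneg (convex_Icc 0 a) (continuous_dens n j).continuousOn
    (fun u _ => ?_) fun u hu => ?_
  · exact ((by unfold pdfU; fun_prop : Differentiable ℝ (pdfU n j)) u).differentiableWithinAt
  · rw [interior_Icc] at hu
    have hu' : u ∈ Ioo (0:ℝ) 1 := ⟨hu.1, by linarith [hu.2]⟩
    rw [(hasDerivAt_dens hj hu').deriv]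
    have h1 : 0 < 1 - u := by linarith [hu'.2]
    have h2 := dens_pos hj hu'
    have h3 : 0 ≤ (j : ℝ) - (n - 1) * u := by
      have h4 : (0:ℝ) ≤ n - 1 := by
        have : (1:ℝ) ≤ n := by exact_mod_cast (by omega : 1 ≤ n)
        linarith
      nlinarith [hu.2]
    exact div_nonneg (mul_nonneg h2.le h3) (mul_pos hu'.1 h1).le

theorem dist_strictMono {n j : ℕ} (hj : j < n) : StrictMonoOn (cdfU n j) (Icc 0 1) := by
  refine strictMonoOn_of_deriv_pos (convex_Icc 0 1)
    (fun u _ => (hasDerivAt_dist hj u).continuousAt.continuousWithinAt) fun u hu => ?_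
  rw [interior_Icc] at hu
  rw [(hasDerivAt_dist hj u).deriv]
  exact dens_pos hj hu

theorem dist_pos {n j : ℕ} (hj : j < n) {u : ℝ} (hu : u ∈ Ioc (0:ℝ) 1) : 0 < cdfU n j u := by
  have := dist_strictMono hj (left_mem_Icc.2 zero_le_one) ⟨hu.1.le, hu.2⟩ hu.1
  rwa [dist_zero] at this

theorem dist_lt_one {n j : ℕ} (hj : j < n) {u : ℝ} (hu : u ∈ Ico (0:ℝ) 1) : cdfU n j u < 1 := by
  have := dist_strictMono hj ⟨hu.1, hu.2.le⟩ (right_mem_Icc.2 zero_le_one) hu.2
  rwa [dist_one hj] at this

theorem continuous_dist {n j : ℕ} : Continuous (cdfU n j) := by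
  unfold cdfU; fun_prop

/-- `u f(u) - F(u)` -/
noncomputable def gap (n j : ℕ) (u : ℝ) : ℝ := u * pdfU n j u - cdfU n j u

theorem hasDerivAt_gap {n j : ℕ} (hj : j < n) {u : ℝ} (hu : u ∈ Ioo (0:ℝ) 1) :
    HasDerivAt (gap n j) (pdfU n j u * (j - (n - 1) * u) / (1 - u)) u := by
  have h1 : (1 - u) ≠ 0 := by linarith [hu.2]
  have h2 : u ≠ 0 := ne_of_gt hu.1
  refine (((hasDerivAt_id' u).fun_mul (hasDerivAt_dens hj hu)).fun_sub
    (hasDerivAt_dist hj u)).congr_deriv ?_
  field_simp
  ring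

theorem continuous_gap {n j : ℕ} : Continuous (gap n j) := by
  unfold gap
  exact (continuous_id.mul (continuous_dens n j)).sub continuous_dist

theorem gap_strictMono {n j : ℕ} (hj : j < n) {a : ℝ} (ha : a ≤ 1) (haj : (n - 1) * a ≤ j)
    (hn : 1 < n) : StrictMonoOn (gap n j) (Icc 0 a) := by
  refine strictMonoOn_of_deriv_pos (convex_Icc 0 a) continuous_gap.continuousOn fun u hu => ?_
  rw [interior_Icc] at hu
  have hu' : u ∈ Ioo (0:ℝ) 1 := ⟨hu.1, by linarith [hu.2]⟩
  rw [(hasDerivAt_gap hj hu').deriv]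
  have h1 : 0 < 1 - u := by linarith [hu'.2]
  have h2 := dens_pos hj hu'
  have h3 : 0 < (j : ℝ) - (n - 1) * u := by
    have h4 : (0:ℝ) < n - 1 := by
      have : (1:ℝ) < n := by exact_mod_cast hn
      linarith
    nlinarith [hu.2]
  exact div_pos (mul_pos h2 h3) h1

theorem gap_strictAnti {n j : ℕ} (hj : j < n) {a : ℝ} (ha : 0 ≤ a) (haj : (j : ℝ) ≤ (n - 1) * a)
    (hn : 1 < n) : StrictAntiOn (gap n j) (Icc a 1) := by
  refine strictAntiOn_of_deriv_neg (convex_Icc a 1) continuous_gap.continuousOn fun u hu => ?_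
  rw [interior_Icc] at hu
  have hu' : u ∈ Ioo (0:ℝ) 1 := ⟨by linarith [hu.1], hu.2⟩
  rw [(hasDerivAt_gap hj hu').deriv]
  have h1 : 0 < 1 - u := by linarith [hu'.2]
  have h2 := dens_pos hj hu'
  have h3 : (j : ℝ) - (n - 1) * u < 0 := by
    have h4 : (0:ℝ) < n - 1 := by
      have : (1:ℝ) < n := by exact_mod_cast hn
      linarith
    nlinarith [hu.1]
  exact div_neg_of_neg_of_pos (mul_neg_of_pos_of_neg h2 h3) h1

theorem gap_zero {n j : ℕ} : gap n j 0 = 0 := by simp [gap, dist_zero]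

theorem gap_one {n j : ℕ} (hj : j + 1 < n) : gap n j 1 = -1 := by
  have : n - 1 - j ≠ 0 := by omega
  simp [gap, dist_one (show j < n by omega), pdfU, this]

/-- The switching point. -/
theorem exists_switch {n j : ℕ} (hj : j + 1 < n) (hj0 : 0 < j) :
    ∃ s : ℝ, (j : ℝ) / (n - 1) < s ∧ s < 1 ∧ gap n j s = 0 ∧
      (∀ u ∈ Ioo 0 s, 0 < gap n j u) ∧ (∀ u ∈ Ioc s 1, gap n j u < 0) := by
  have hn : (0:ℝ) < n - 1 := by
    have : (1:ℝ) < n := by exact_mod_cast (by omega : 1 < n)
    linarith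
  have hjn : (j:ℝ) < n - 1 := by
    have : (j:ℝ) + 1 < n := by exact_mod_cast hj
    linarith
  set a := (j : ℝ) / (n - 1) with ha
  have ha0 : 0 < a := div_pos (by exact_mod_cast hj0) hn
  have ha1 : a < 1 := (div_lt_one hn).2 hjn
  have haj : (n - 1) * a = (j:ℝ) := by rw [ha]; field_simp
  have hm := gap_strictMono (show j < n by omega) ha1.le haj.le (by omega)
  have hA := gap_strictAnti (show j < n by omega) ha0.le haj.ge (by omega)
  have hpos : 0 < gap n j a := by
    have := hm (left_mem_Icc.2 ha0.le) (right_mem_Icc.2 ha0.le) ha0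
    rwa [gap_zero] at this
  have hneg : gap n j 1 < 0 := by rw [gap_one hj]; norm_num
  obtain ⟨s, hs, hs0⟩ : ∃ s ∈ Icc a 1, gap n j s = 0 := by
    have := intermediate_value_Icc' ha1.le (continuous_gap (n := n) (j := j)).continuousOn
    exact this ⟨hneg.le, hpos.le⟩
  have hsa : a < s := lt_of_le_of_ne hs.1 (by rintro rfl; linarith)
  have hs1 : s < 1 := lt_of_le_of_ne hs.2 (by rintro rfl; linarith)
  refine ⟨s, hsa, hs1, hs0, ?_, ?_⟩
  · intro u hu
    rcases le_or_gt u a with h | h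
    · have := hm (left_mem_Icc.2 ha0.le) ⟨hu.1.le, h⟩ hu.1
      rwa [gap_zero] at this
    · have := hA ⟨h.le, by linarith [hu.2]⟩ hs hu.2
      rwa [hs0] at this
  · intro u hu
    have := hA hs ⟨by linarith [hu.1], hu.2⟩ hu.1
    rwa [hs0] at this

end Pool.Agent.Lib.MP_c5814c_pr
end

section

namespace Pool.Agent.Lib.MP_c5814c_pr

open MeasureTheory ProbabilityTheory Set Filter
open scoped ENNReal Topology

/-- `E h(U_{j:n}) - h(p)` -/
noncomputable def num (n j : ℕ) (p : ℝ) (h : ℝ → ℝ) : ℝ := ∫ u, h u * pdfU n j u ∂unif - h p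

theorem dens_bdd (n j : ℕ) : ∃ M : ℝ, 0 < M ∧ ∀ u ∈ Icc (0:ℝ) 1, |pdfU n j u| ≤ M := by
  obtain ⟨M, hM⟩ := isCompact_Icc.exists_bound_of_continuousOn
    (continuous_dens n j).continuousOn (s := Icc (0:ℝ) 1)
  exact ⟨max M 1, lt_of_lt_of_le one_pos (le_max_right _ _),
    fun u hu => (hM u hu).trans (le_max_left _ _)⟩

theorem memLp_of_bdd {g : ℝ → ℝ} (hg : AEMeasurable g unif) {M : ℝ}
    (h : ∀ u ∈ Ioo (0:ℝ) 1, |g u| ≤ M) {q : ℝ≥0∞} : MemLp g q unif := by
  refine MemLp.of_bound hg.aestronglyMeasurable M ?_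
  filter_upwards [ae_unif_mem] with u hu
  exact h u hu

theorem memLp_dens (n j : ℕ) {q : ℝ≥0∞} : MemLp (pdfU n j) q unif := by
  obtain ⟨M, _, hM⟩ := dens_bdd n j
  exact memLp_of_bdd (continuous_dens n j).aemeasurable fun u hu => hM u (Ioo_subset_Icc_self hu)

theorem integrable_mul_dens {q : ℝ → ℝ} (hq : MemLp q 2 unif) (n j : ℕ) :
    Integrable (fun u => q u * pdfU n j u) unif := hq.integrable_mul (memLp_dens n j (q := 2))

theorem integral_dens_unif {n j : ℕ} (hj : j < n) : ∫ u, pdfU n j u ∂unif = 1 := by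
  rw [integral_unif, integral_dens hj, dist_one hj, dist_zero, sub_zero]

theorem interval_const (a b c : ℝ) : IntervalIntegrable (fun _ : ℝ => c) volume a b :=
  intervalIntegrable_const

/-- The abstract Cauchy–Schwarz step. -/
theorem sharp {q G : ℝ → ℝ} (hq : MemLp q 2 unif) (hG : MemLp G 2 unif) (h0 : ∫ u, G u ∂unif = 0)
    (hB : 0 < ∫ u, G u ^ 2 ∂unif) {T : ℝ} (hT : T ≤ ∫ u, q u * G u ∂unif) :
    T ≤ √(variance q unif) * √(∫ u, G u ^ 2 ∂unif) ∧
    (T = √(variance q unif) * √(∫ u, G u ^ 2 ∂unif) →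
      ∀ᵐ u ∂unif, q u = (∫ u, q u ∂unif) + T / (∫ u, G u ^ 2 ∂unif) * G u) := by
  set m := ∫ u, q u ∂unif with hm
  have hqm : MemLp (fun u => q u - m) 2 unif := hq.sub (memLp_const m)
  have hGi : Integrable G unif := hG.integrable one_le_two
  have hA : ∫ u, (q u - m) * G u ∂unif = ∫ u, q u * G u ∂unif := by
    have h1 : ∀ u, (q u - m) * G u = q u * G u - m * G u := fun u => by ring
    simp only [h1]
    have i1 : Integrable (fun u => q u * G u) unif := hq.integrable_mul hG
    have i2 : Integrable (fun u => m * G u) unif := hGi.const_mul m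
    rw [integral_sub i1 i2, integral_const_mul, h0]
    ring
  have hV : ∫ u, (q u - m) ^ 2 ∂unif = variance q unif := by
    rw [variance_eq_integral hq.1.aemeasurable]
  obtain ⟨h1, h2⟩ := cauchy hqm hG hB
  rw [hA, hV] at h1 h2
  set B := ∫ u, G u ^ 2 ∂unif
  set V := variance q unif
  set A := ∫ u, q u * G u ∂unif
  have hV0 : 0 ≤ V := variance_nonneg _ _
  have hAle : A ≤ √V * √B := by
    rw [← Real.sqrt_mul hV0]
    exact Real.le_sqrt_of_sq_le h1
  refine ⟨hT.trans hAle, fun heq => ?_⟩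
  have hAT : A = T := le_antisymm (by rw [heq]; exact hAle) hT
  have h3 : A ^ 2 = V * B := by
    rw [hAT, heq, mul_pow, Real.sq_sqrt hV0, Real.sq_sqrt hB.le]
  filter_upwards [h2 h3] with u hu
  rw [← hAT]
  linarith

section upper

variable {n j : ℕ} {p : ℝ}

noncomputable def GB (n j : ℕ) (p u : ℝ) : ℝ :=
  if u ≤ p then -((1 - cdfU n j p) / p) else (1 - cdfU n j p) / (1 - p)

theorem measurable_GB : Measurable (GB n j p) :=
  Measurable.ite measurableSet_Iic measurable_const measurable_const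

theorem memLp_GB {q : ℝ≥0∞} : MemLp (GB n j p) q unif := by
  refine memLp_of_bdd measurable_GB.aemeasurable
    (M := max |(-((1 - cdfU n j p) / p))| |((1 - cdfU n j p) / (1 - p))|) fun u _ => ?_
  unfold GB
  split_ifs
  · exact le_max_left _ _
  · exact le_max_right _ _

theorem integral_two {g : ℝ → ℝ} (hg : Integrable g unif) (hp : p ∈ Ioo (0:ℝ) 1) {a b : ℝ}
    (ha : ∀ u ∈ Ioo 0 p, g u = a) (hb : ∀ u ∈ Ioo p 1, g u = b) :
    ∫ u, g u ∂unif = p * a + (1 - p) * b := by
  rw [integral_split hg ⟨hp.1.le, hp.2.le⟩, integral_congr_Ioo hp.1.le ha,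
    integral_congr_Ioo hp.2.le hb]
  simp

theorem integral_GB (hp : p ∈ Ioo (0:ℝ) 1) : ∫ u, GB n j p u ∂unif = 0 := by
  rw [integral_two (memLp_GB.integrable (q := 1) le_rfl) hp
    (a := -((1 - cdfU n j p) / p)) (b := (1 - cdfU n j p) / (1 - p))]
  · have h1 : p ≠ 0 := ne_of_gt hp.1
    have h2 : 1 - p ≠ 0 := by linarith [hp.2]
    field_simp
    ring
  · intro u hu; simp [GB, hu.2.le]
  · intro u hu; simp [GB, not_le.2 hu.1]

theorem integral_GB_sq (hp : p ∈ Ioo (0:ℝ) 1) :
    ∫ u, GB n j p u ^ 2 ∂unif = (1 - cdfU n j p) ^ 2 / (p * (1 - p)) := by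
  have hi : Integrable (fun u => GB n j p u ^ 2) unif := (memLp_GB (q := 2)).integrable_sq
  rw [integral_two hi hp
    (a := ((1 - cdfU n j p) / p) ^ 2) (b := ((1 - cdfU n j p) / (1 - p)) ^ 2)]
  · have h1 : p ≠ 0 := ne_of_gt hp.1
    have h2 : 1 - p ≠ 0 := by linarith [hp.2]
    field_simp
    ring
  · intro u hu; simp [GB, hu.2.le]
  · intro u hu; simp [GB, not_le.2 hu.1]

theorem sqrt_GB (hj : j < n) (hp : p ∈ Ioo (0:ℝ) 1) :
    √(∫ u, GB n j p u ^ 2 ∂unif) = (1 - cdfU n j p) / √(p * (1 - p)) := by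
  have h3 : 0 < 1 - cdfU n j p := by linarith [dist_lt_one hj ⟨hp.1.le, hp.2⟩]
  rw [integral_GB_sq hp, Real.sqrt_div (sq_nonneg _), Real.sqrt_sq h3.le]

/-- The key estimate for the upper bound. -/
theorem num_le_GB (hj : j < n) (hp : p ∈ Ioo (0:ℝ) 1) (hjp : (j : ℝ) ≤ (n - 1) * p)
    {q : ℝ → ℝ} (hq : MemLp q 2 unif) (hm : MonotoneOn q (Ioo 0 1)) :
    num n j p q ≤ ∫ u, q u * GB n j p u ∂unif := by
  have hqi : Integrable q unif := hq.integrable one_le_two
  have i1 := integrable_mul_dens hq n j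
  have i2 : Integrable (fun u => q u * GB n j p u) unif := hq.integrable_mul (memLp_GB (q := 2))
  have i3 : Integrable (pdfU n j) unif := integrable_dens n j
  have i4 : Integrable (GB n j p) unif := memLp_GB.integrable (q := 1) le_rfl
  have i5 : Integrable (fun u => pdfU n j u - GB n j p u) unif := i3.sub i4
  have i6 : Integrable (fun u => (q u - q p) * (pdfU n j u - GB n j p u)) unif := by
    have : (fun u => (q u - q p) * (pdfU n j u - GB n j p u))
        = fun u => (q u * pdfU n j u - q u * GB n j p u) - q p * (pdfU n j u - GB n j p u) := by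
      funext u; ring
    rw [this]
    exact (i1.sub i2).sub (i5.const_mul _)
  have h1p : 0 < 1 - p := by linarith [hp.2]
  have hF : 0 < 1 - cdfU n j p := by linarith [dist_lt_one hj ⟨hp.1.le, hp.2⟩]
  have hkey : ∫ u, (q u - q p) * (pdfU n j u - GB n j p u) ∂unif ≤ 0 := by
    rw [integral_split i6 ⟨hp.1.le, hp.2.le⟩]
    have hA : ∫ u in (0:ℝ)..p, (q u - q p) * (pdfU n j u - GB n j p u) ≤ 0 := by
      refine integral_nonpos_Ioo hp.1.le fun u hu => ?_
      have h1 : q u - q p ≤ 0 := by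
        linarith [hm ⟨hu.1, by linarith [hu.2, hp.2]⟩ hp hu.2.le]
      have h2 : 0 ≤ pdfU n j u := dens_nonneg n j hu.1.le (by linarith [hu.2, hp.2])
      have h3 : GB n j p u ≤ 0 := by
        simp only [GB, hu.2.le, if_true]
        exact neg_nonpos.2 (div_nonneg hF.le hp.1.le)
      exact mul_nonpos_of_nonpos_of_nonneg h1 (by linarith)
    have hB : ∫ u in p..1, (q u - q p) * (pdfU n j u - GB n j p u) ≤ 0 := by
      refine cheb hp.2.le ?_ ?_ (Integrable.interval i5 hp.1.le hp.2.le le_rfl)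
        (Integrable.interval i6 hp.1.le hp.2.le le_rfl) ?_
      · intro u hu v hv huv
        have := hm ⟨by linarith [hu.1, hp.1], hu.2⟩ ⟨by linarith [hv.1, hp.1], hv.2⟩ huv
        simp only
        linarith
      · intro u hu v hv huv
        have := dens_anti hj hp.1.le hjp ⟨hu.1.le, hu.2.le⟩ ⟨hv.1.le, hv.2.le⟩ huv
        simp only [GB, not_le.2 hu.1, not_le.2 hv.1, if_false]
        linarith
      · have : ∫ u in p..1, (pdfU n j u - GB n j p u)
            = ∫ u in p..1, (pdfU n j u - (1 - cdfU n j p) / (1 - p)) := by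
          refine integral_congr_Ioo hp.2.le fun u hu => ?_
          simp only [GB, not_le.2 hu.1, if_false]
        rw [this, intervalIntegral.integral_sub ((continuous_dens n j).intervalIntegrable _ _)
          (interval_const _ _ _), integral_dens hj, dist_one hj]
        simp only [intervalIntegral.integral_const, smul_eq_mul]
        field_simp
        ring
    linarith
  have hexp : ∫ u, (q u - q p) * (pdfU n j u - GB n j p u) ∂unif
      = (∫ u, q u * pdfU n j u ∂unif) - (∫ u, q u * GB n j p u ∂unif) - q p := by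
    have : (fun u => (q u - q p) * (pdfU n j u - GB n j p u))
        = fun u => (q u * pdfU n j u - q u * GB n j p u) - q p * (pdfU n j u - GB n j p u) := by
      funext u; ring
    rw [this]
    have i7 : Integrable (fun u => q u * pdfU n j u - q u * GB n j p u) unif := i1.sub i2
    have i8 : Integrable (fun u => q p * (pdfU n j u - GB n j p u)) unif := i5.const_mul _
    rw [integral_sub i7 i8, integral_sub i1 i2, integral_const_mul, integral_sub i3 i4,
      integral_dens_unif hj, integral_GB hp]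
    ring
  unfold num
  linarith

end upper

end Pool.Agent.Lib.MP_c5814c_pr
end

section

namespace Pool.Agent.Lib.MP_c5814c_pr

open MeasureTheory ProbabilityTheory Set Filter
open scoped ENNReal Topology

theorem existsUnique_isSwitch {n j : ℕ} (hj : j + 1 < n) : ∃! s, IsSwitch n j s := by
  rcases Nat.eq_zero_or_pos j with h | h
  · refine ⟨0, Or.inl ⟨h, rfl⟩, ?_⟩
    rintro s (⟨_, hs⟩ | ⟨h', _⟩)
    · exact hs
    · omega
  · obtain ⟨s, hs1, hs2, hs0, hl, hr⟩ := exists_switch hj h
    have hn : (0:ℝ) < n - 1 := by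
      have : (1:ℝ) < n := by exact_mod_cast (by omega : 1 < n)
      linarith
    have hspos : 0 < s := lt_of_le_of_lt (div_nonneg (by positivity) hn.le) hs1
    refine ⟨s, Or.inr ⟨h, hspos, hs2, ?_⟩, ?_⟩
    · unfold gap at hs0; linarith
    · rintro t (⟨h', _⟩ | ⟨_, ht0, ht1, ht⟩)
      · omega
      · have hg : gap n j t = 0 := by unfold gap; linarith
        rcases lt_trichotomy t s with hlt | heq | hgt
        · have := hl t ⟨ht0, hlt⟩; linarith
        · exact heq
        · have := hr t ⟨hgt, ht1.le⟩; linarith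

variable {n j : ℕ} {p s m : ℝ}

/-- Sign pattern of the density minus its average over `(0,m)`. -/
theorem switch_pattern (hj : j + 1 < n) (hj0 : 0 < j) (hs : IsSwitch n j s)
    (hp : p ∈ Ioo (0:ℝ) 1) (hjp : (j : ℝ) ≤ (n - 1) * p) (hm : m = min s p) :
    0 < m ∧ ∃ c ∈ Ioo 0 m, (∀ u ∈ Ioo 0 c, pdfU n j u ≤ cdfU n j m / m) ∧
      (∀ u ∈ Ioo c m, cdfU n j m / m ≤ pdfU n j u) := by
  have hn : (0:ℝ) < n - 1 := by
    have : (1:ℝ) < n := by exact_mod_cast (by omega : 1 < n)
    linarith
  have hjn : (j:ℝ) < n - 1 := by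
    have : (j:ℝ) + 1 < n := by exact_mod_cast hj
    linarith
  obtain ⟨t, ht1, ht2, ht0, hl, hr⟩ := exists_switch hj hj0
  have htpos : 0 < t := lt_of_le_of_lt (div_nonneg (by positivity) hn.le) ht1
  have hst : s = t := by
    refine (existsUnique_isSwitch hj).unique hs (Or.inr ⟨hj0, htpos, ht2, ?_⟩)
    unfold gap at ht0; linarith
  subst hst
  set a := (j : ℝ) / (n - 1) with ha
  have ha0 : 0 < a := div_pos (by exact_mod_cast hj0) hn
  have ha1 : a < 1 := (div_lt_one hn).2 hjn
  have haj : (n - 1) * a = (j:ℝ) := by rw [ha]; field_simp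
  have hap : a ≤ p := by rw [ha, div_le_iff₀ hn]; linarith
  have ham : a ≤ m := by rw [hm]; exact le_min ht1.le hap
  have hm0 : 0 < m := lt_of_lt_of_le ha0 ham
  have hms : m ≤ s := by rw [hm]; exact min_le_left _ _
  have hgm : 0 ≤ gap n j m := by
    rcases eq_or_lt_of_le hms with h | h
    · rw [h, ht0]
    · exact (hl m ⟨hm0, h⟩).le
  have hc : cdfU n j m / m ≤ pdfU n j m := by
    rw [div_le_iff₀ hm0]; unfold gap at hgm; linarith
  have hmono := dens_mono (n := n) (j := j) (by omega) ha1.le haj.le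
  have hanti := dens_anti (n := n) (j := j) (by omega) ha0.le haj.ge
  have hm1 : m < 1 := lt_of_le_of_lt hms ht2
  have hca : cdfU n j m / m ≤ pdfU n j a := hc.trans (hanti ⟨le_rfl, ha1.le⟩ ⟨ham, hm1.le⟩ ham)
  have hcpos : 0 < cdfU n j m / m := div_pos (dist_pos (by omega) ⟨hm0, hm1.le⟩) hm0
  have hf0 : pdfU n j 0 = 0 := by
    simp [pdfU, hj0.ne']
  obtain ⟨c, hc1, hc2⟩ : ∃ c ∈ Icc 0 a, pdfU n j c = cdfU n j m / m := by
    have := intermediate_value_Icc ha0.le (continuous_dens n j).continuousOn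
    exact this ⟨by rw [hf0]; exact hcpos.le, hca⟩
  have hcpos' : 0 < c := lt_of_le_of_ne hc1.1 (by rintro rfl; rw [hf0] at hc2; linarith)
  have hcm : c < m := by
    rcases lt_or_eq_of_le (hc1.2.trans ham) with h | h
    · exact h
    · exfalso
      have hcam : c = a := le_antisymm hc1.2 (by rw [h]; exact ham)
      have h5 : m = a := by rw [← h, hcam]
      have h6 : 0 < gap n j m := hl m ⟨hm0, by rw [h5]; exact ht1⟩
      rw [h] at hc2
      unfold gap at h6
      have : cdfU n j m = m * pdfU n j m := by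
        rw [hc2]; field_simp
      linarith
  refine ⟨hm0, c, ⟨hcpos', hcm⟩, ?_, ?_⟩
  · intro u hu
    rw [← hc2]
    exact hmono ⟨hu.1.le, by linarith [hu.2, hc1.2]⟩ ⟨hcpos'.le, hc1.2⟩ hu.2.le
  · intro u hu
    rcases le_or_gt u a with h | h
    · rw [← hc2]
      exact hmono ⟨hcpos'.le, hc1.2⟩ ⟨by linarith [hu.1], h⟩ hu.1.le
    · exact hc.trans (hanti ⟨h.le, by linarith [hu.2]⟩ ⟨ham, hm1.le⟩ hu.2.le)

theorem measurable_HC : Measurable (HC n j p m) := by
  refine Measurable.ite measurableSet_Iic measurable_const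
    (Measurable.ite measurableSet_Iic (continuous_dens n j).measurable.neg measurable_const)

theorem HC_bdd : ∃ M : ℝ, ∀ u ∈ Icc (0:ℝ) 1, |HC n j p m u| ≤ M := by
  obtain ⟨M, hM0, hM⟩ := dens_bdd n j
  refine ⟨max |(-(cdfU n j m / m))| (max M |cdfU n j p / (1 - p)|), fun u hu => ?_⟩
  unfold HC
  split_ifs
  · exact le_max_left _ _
  · rw [abs_neg]
    exact (hM u hu).trans ((le_max_left _ _).trans (le_max_right _ _))
  · exact (le_max_right _ _).trans (le_max_right _ _)

theorem memLp_HC {q : ℝ≥0∞} : MemLp (HC n j p m) q unif := by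
  obtain ⟨M, hM⟩ := HC_bdd (n := n) (j := j) (p := p) (m := m)
  exact memLp_of_bdd measurable_HC.aemeasurable fun u hu => hM u (Ioo_subset_Icc_self hu)

theorem integral_split3 {g : ℝ → ℝ} (hg : Integrable g unif) (hm : 0 ≤ m) (hmp : m ≤ p)
    (hp : p ≤ 1) : ∫ u, g u ∂unif = (∫ u in (0:ℝ)..m, g u) + (∫ u in m..p, g u)
      + ∫ u in p..1, g u := by
  rw [integral_split hg ⟨hm.trans hmp, hp⟩, ← intervalIntegral.integral_add_adjacent_intervals
    (Integrable.interval hg le_rfl hm (hmp.trans hp)) (Integrable.interval hg hm hmp hp)]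

theorem integral_HC_gen {g : ℝ → ℝ} (hg : Integrable g unif) (hm : 0 ≤ m) (hmp : m ≤ p)
    (hp : p ∈ Ioo (0:ℝ) 1) {a b : ℝ} {h : ℝ → ℝ} (h1 : ∀ u ∈ Ioo 0 m, g u = a)
    (h2 : ∀ u ∈ Ioo m p, g u = h u) (h3 : ∀ u ∈ Ioo p 1, g u = b) :
    ∫ u, g u ∂unif = m * a + (∫ u in m..p, h u) + (1 - p) * b := by
  rw [integral_split3 hg hm hmp hp.2.le, integral_congr_Ioo hm h1, integral_congr_Ioo hmp h2,
    integral_congr_Ioo hp.2.le h3]
  simp

theorem dist_div_mul (hm : 0 ≤ m) : m * (cdfU n j m / m) = cdfU n j m := by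
  rcases eq_or_lt_of_le hm with h | h
  · rw [← h]; simp [dist_zero]
  · field_simp

theorem integral_HC (hj : j < n) (hm : 0 ≤ m) (hmp : m ≤ p) (hp : p ∈ Ioo (0:ℝ) 1) :
    ∫ u, HC n j p m u ∂unif = 0 := by
  rw [integral_HC_gen (memLp_HC.integrable (q := 1) le_rfl) hm hmp hp
    (a := -(cdfU n j m / m)) (h := fun u => - pdfU n j u) (b := cdfU n j p / (1 - p))]
  · rw [intervalIntegral.integral_neg, integral_dens hj, mul_neg, dist_div_mul hm]
    have h2 : 1 - p ≠ 0 := by linarith [hp.2]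
    field_simp
    ring
  · intro u hu; simp [HC, hu.2.le]
  · intro u hu; simp [HC, hu.2.le, not_le.2 hu.1]
  · intro u hu; simp [HC, not_le.2 hu.1, not_le.2 (lt_of_le_of_lt hmp hu.1)]

theorem integral_HC_sq (hm : 0 ≤ m) (hmp : m ≤ p) (hp : p ∈ Ioo (0:ℝ) 1) :
    ∫ u, HC n j p m u ^ 2 ∂unif
      = cdfU n j m ^ 2 / m + (∫ u in m..p, pdfU n j u ^ 2) + cdfU n j p ^ 2 / (1 - p) := by
  have hi : Integrable (fun u => HC n j p m u ^ 2) unif := (memLp_HC (q := 2)).integrable_sq
  rw [integral_HC_gen hi hm hmp hp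
    (a := (cdfU n j m / m) ^ 2) (h := fun u => pdfU n j u ^ 2) (b := (cdfU n j p / (1 - p)) ^ 2)]
  · have h2 : 1 - p ≠ 0 := by linarith [hp.2]
    have h3 : m * (cdfU n j m / m) ^ 2 = cdfU n j m ^ 2 / m := by
      rcases eq_or_lt_of_le hm with h | h
      · rw [← h]; simp [dist_zero]
      · field_simp
    have h4 : (1 - p) * (cdfU n j p / (1 - p)) ^ 2 = cdfU n j p ^ 2 / (1 - p) := by
      field_simp
    rw [h3, h4]
  · intro u hu; simp [HC, hu.2.le]
  · intro u hu; simp [HC, hu.2.le, not_le.2 hu.1]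
  · intro u hu; simp [HC, not_le.2 hu.1, not_le.2 (lt_of_le_of_lt hmp hu.1)]

theorem integral_HC_sq_pos (hj : j < n) (hm : 0 ≤ m) (hmp : m ≤ p) (hp : p ∈ Ioo (0:ℝ) 1) :
    0 < ∫ u, HC n j p m u ^ 2 ∂unif := by
  rw [integral_HC_sq hm hmp hp]
  have h1 : 0 ≤ cdfU n j m ^ 2 / m := div_nonneg (sq_nonneg _) hm
  have h2 : 0 ≤ ∫ u in m..p, pdfU n j u ^ 2 :=
    integral_nonneg_Ioo hmp fun u _ => sq_nonneg _
  have h3 : 0 < cdfU n j p ^ 2 / (1 - p) :=
    div_pos (pow_pos (dist_pos hj ⟨hp.1, hp.2.le⟩) 2) (by linarith [hp.2])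
  linarith

/-- The key estimate for the lower bound. -/
theorem neg_num_le_HC (hj : j + 1 < n) (hs : IsSwitch n j s) (hp : p ∈ Ioo (0:ℝ) 1)
    (hjp : (j : ℝ) ≤ (n - 1) * p) (hm : m = min s p)
    {q : ℝ → ℝ} (hq : MemLp q 2 unif) (hmo : MonotoneOn q (Ioo 0 1)) :
    -num n j p q ≤ ∫ u, q u * HC n j p m u ∂unif ∧
    (-num n j p q = ∫ u, q u * HC n j p m u ∂unif → ∀ᵐ u ∂(volume.restrict (Ioo p 1)),
      q u = q p) := by
  have hjn : j < n := by omega
  have hs0 : 0 ≤ s := by
    rcases hs with ⟨_, h⟩ | ⟨_, h, _⟩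
    · exact h.ge
    · exact h.le
  have hm0 : 0 ≤ m := by rw [hm]; exact le_min hs0 hp.1.le
  have hmp : m ≤ p := by rw [hm]; exact min_le_right _ _
  have hm1 : m ≤ 1 := by linarith [hp.2]
  have hqi : Integrable q unif := hq.integrable one_le_two
  have i1 := integrable_mul_dens hq n j
  have i2 : Integrable (fun u => q u * HC n j p m u) unif :=
    hq.integrable_mul (memLp_HC (q := 2))
  have i3 : Integrable (pdfU n j) unif := integrable_dens n j
  have i4 : Integrable (HC n j p m) unif := memLp_HC.integrable (q := 1) le_rfl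
  have i5 : Integrable (fun u => pdfU n j u + HC n j p m u) unif := i3.add i4
  have i6 : Integrable (fun u => (q p - q u) * (pdfU n j u + HC n j p m u)) unif := by
    have : (fun u => (q p - q u) * (pdfU n j u + HC n j p m u))
        = fun u => q p * (pdfU n j u + HC n j p m u) - (q u * pdfU n j u + q u * HC n j p m u) := by
      funext u; ring
    rw [this]
    exact (i5.const_mul _).sub (i1.add i2)
  have hF : 0 < cdfU n j p := dist_pos hjn ⟨hp.1, hp.2.le⟩
  have h1p : 0 < 1 - p := by linarith [hp.2]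
  have hA : ∫ u in (0:ℝ)..m, (q p - q u) * (pdfU n j u + HC n j p m u) ≤ 0 := by
    rcases Nat.eq_zero_or_pos j with hj0 | hj0
    · have : m = 0 := by
        rcases hs with ⟨_, h⟩ | ⟨h, _⟩
        · rw [hm, h]; exact min_eq_left hp.1.le
        · omega
      rw [this]; simp
    · obtain ⟨hmpos, c, hc, hc1, hc2⟩ := switch_pattern hj hj0 hs hp hjp hm
      have hρ : IntervalIntegrable (fun u => -(pdfU n j u + HC n j p m u)) volume 0 m :=
        (Integrable.interval i5 le_rfl hm0 hm1).neg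
      have h8 : ∀ u, (q p - q u) * (pdfU n j u + HC n j p m u)
          = (q u - q p) * (-(pdfU n j u + HC n j p m u)) := fun u => by ring
      simp only [h8]
      refine pattern_le hc ?_ ?_ ?_ hρ ?_ ?_
      · intro u hu v hv huv
        have := hmo ⟨hu.1, by linarith [hu.2, hp.2]⟩ ⟨hv.1, by linarith [hv.2, hp.2]⟩ huv
        simp only
        linarith
      · intro u hu
        have h9 := hc1 u hu
        have : HC n j p m u = -(cdfU n j m / m) := by
          simp [HC, (hu.2.trans hc.2).le]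
        rw [this]; linarith
      · intro u hu
        have h9 := hc2 u hu
        have : HC n j p m u = -(cdfU n j m / m) := by
          simp [HC, hu.2.le]
        rw [this]; linarith
      · simp only [← h8]
        exact Integrable.interval i6 le_rfl hm0 hm1
      · have : ∫ u in (0:ℝ)..m, -(pdfU n j u + HC n j p m u)
            = ∫ u in (0:ℝ)..m, -(pdfU n j u - cdfU n j m / m) := by
          refine integral_congr_Ioo hm0 fun u hu => ?_
          simp only [HC, hu.2.le, if_true]
          ring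
        rw [this, intervalIntegral.integral_neg,
          intervalIntegral.integral_sub ((continuous_dens n j).intervalIntegrable _ _)
          (interval_const _ _ _), integral_dens hjn, dist_zero]
        simp only [intervalIntegral.integral_const, smul_eq_mul, sub_zero]
        rw [dist_div_mul hm0]
        ring
  have hM : ∫ u in m..p, (q p - q u) * (pdfU n j u + HC n j p m u) = 0 := by
    have : ∫ u in m..p, (q p - q u) * (pdfU n j u + HC n j p m u) = ∫ u in m..p, (0:ℝ) := by
      refine integral_congr_Ioo hmp fun u hu => ?_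
      simp [HC, hu.2.le, not_le.2 hu.1]
    rw [this]; simp
  have hpt : ∀ u ∈ Ioo p 1, 0 ≤ (q u - q p) * (pdfU n j u + HC n j p m u) := by
    intro u hu
    have h1 : 0 ≤ q u - q p := by
      linarith [hmo hp ⟨by linarith [hu.1, hp.1], hu.2⟩ hu.1.le]
    have h2 : 0 ≤ pdfU n j u := dens_nonneg n j (by linarith [hu.1, hp.1]) hu.2.le
    have h3 : 0 ≤ HC n j p m u := by
      simp only [HC, not_le.2 hu.1, not_le.2 (lt_of_le_of_lt hmp hu.1), if_false]
      exact div_nonneg hF.le h1p.le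
    exact mul_nonneg h1 (by linarith)
  have hB : 0 ≤ ∫ u in p..1, (q u - q p) * (pdfU n j u + HC n j p m u) :=
    integral_nonneg_Ioo hp.2.le hpt
  have hB' : ∫ u in p..1, (q p - q u) * (pdfU n j u + HC n j p m u)
      = - ∫ u in p..1, (q u - q p) * (pdfU n j u + HC n j p m u) := by
    rw [← intervalIntegral.integral_neg]
    congr 1; funext u; ring
  have hexp : ∫ u, (q p - q u) * (pdfU n j u + HC n j p m u) ∂unif
      = q p - (∫ u, q u * pdfU n j u ∂unif) - (∫ u, q u * HC n j p m u ∂unif) := by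
    have : (fun u => (q p - q u) * (pdfU n j u + HC n j p m u))
        = fun u => q p * (pdfU n j u + HC n j p m u) - (q u * pdfU n j u + q u * HC n j p m u) := by
      funext u; ring
    rw [this]
    have i7 : Integrable (fun u => q u * pdfU n j u + q u * HC n j p m u) unif := i1.add i2
    have i8 : Integrable (fun u => q p * (pdfU n j u + HC n j p m u)) unif := i5.const_mul _
    rw [integral_sub i8 i7, integral_add i1 i2, integral_const_mul, integral_add i3 i4,
      integral_dens_unif hjn, integral_HC hjn hm0 hmp hp]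
    ring
  have htot := integral_split3 i6 hm0 hmp hp.2.le
  rw [hexp, hM, hB'] at htot
  constructor
  · unfold num; linarith
  · intro heq
    unfold num at heq
    have h10 : ∫ u in p..1, (q u - q p) * (pdfU n j u + HC n j p m u) = 0 := by linarith
    have i9 : IntervalIntegrable (fun u => (q u - q p) * (pdfU n j u + HC n j p m u)) volume p 1 := by
      have : (fun u => (q u - q p) * (pdfU n j u + HC n j p m u))
        = fun u => - ((q p - q u) * (pdfU n j u + HC n j p m u)) := by funext u; ring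
      rw [this]
      exact (Integrable.interval i6 hp.1.le hp.2.le le_rfl).neg
    have h11 := ae_zero_of hp.2.le hpt i9 h10
    filter_upwards [h11, ae_restrict_mem measurableSet_Ioo] with u hu hu2
    have h2 : 0 ≤ pdfU n j u := dens_nonneg n j (by linarith [hu2.1, hp.1]) hu2.2.le
    have h3 : 0 < HC n j p m u := by
      simp only [HC, not_le.2 hu2.1, not_le.2 (lt_of_le_of_lt hmp hu2.1), if_false]
      exact div_pos hF h1p
    rcases mul_eq_zero.1 hu with h | h
    · linarith
    · linarith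

end Pool.Agent.Lib.MP_c5814c_pr
end

section

namespace Pool.Agent.Lib.MP_c5814c_pr

open MeasureTheory ProbabilityTheory Set Filter
open scoped ENNReal Topology

namespace Nice

variable {ω : Measure ℝ} (hω : Nice ω)

include hω

/-- the law of `φ(Y)` at a level strictly between `0` and `1` -/
theorem map_level {φ : ℝ → ℝ} (hm : MonotoneOn φ {y | 0 < cdf ω y ∧ cdf ω y < 1})
    (hc : ContinuousOn φ {y | 0 < cdf ω y ∧ cdf ω y < 1}) {x : ℝ}
    (hx : 0 < cdf (Measure.map φ ω) x ∧ cdf (Measure.map φ ω) x < 1) :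
    φ (quantile ω (cdf (Measure.map φ ω) x)) = x := by
  have hpr : IsProbabilityMeasure (Measure.map φ ω) := by
    rw [hω.map_eq hm]
    exact Measure.isProbabilityMeasure_map (aemeasurable_of_monotoneOn (hω.comp_monotoneOn hm))
  set u := cdf (Measure.map φ ω) x with hu
  refine le_antisymm ?_ ?_
  · rw [← hω.quantile_map_comp hm hc hx, quantile_le_iff _ hx.1 hx.2]
  · have h1 : ContinuousAt (fun u => φ (quantile ω u)) u := hω.comp_continuousAt hc hx
    have h2 : Tendsto (fun u => φ (quantile ω u)) (𝓝[>] u) (𝓝 (φ (quantile ω u))) :=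
      h1.continuousWithinAt
    refine ge_of_tendsto h2 ?_
    filter_upwards [Ioo_mem_nhdsGT hx.2] with w hw
    have hw' : w ∈ Ioo (0:ℝ) 1 := ⟨hx.1.trans hw.1, hw.2⟩
    rw [← hω.quantile_map_comp hm hc hw']
    exact ((lt_quantile_iff _ hw'.1 hw'.2 x).2 hw.1).le

theorem pos_set_eq (hb : BddBelow {y | 0 < cdf ω y}) :
    {y | 0 < cdf ω y} = Ioi (sInf {y | 0 < cdf ω y}) := by
  have := hω.prob
  have hne : {y | 0 < cdf ω y}.Nonempty :=
    ⟨quantile ω (1/2), (hω.quantile_mem (u := 1/2) (by norm_num)).1⟩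
  apply Set.Subset.antisymm
  · intro y hy
    have h1 : sInf {y | 0 < cdf ω y} ≤ y := csInf_le hb hy
    refine lt_of_le_of_ne h1 fun h => ?_
    have hy' : 0 < cdf ω y := hy
    have h2 : ∀ᶠ z in 𝓝 y, 0 < cdf ω z := hω.cont.continuousAt.eventually (lt_mem_nhds hy')
    have h3 : ∀ᶠ z in 𝓝[<] y, 0 < cdf ω z := h2.filter_mono nhdsWithin_le_nhds
    obtain ⟨z, hz1, hz2⟩ := (h3.and (self_mem_nhdsWithin (s := Iio y))).exists
    have h4 : sInf {y | 0 < cdf ω y} ≤ z := csInf_le hb hz1
    have : z < y := hz2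
    linarith
  · intro y hy
    obtain ⟨z, hz, hzy⟩ := exists_lt_of_csInf_lt hne hy
    exact lt_of_lt_of_le (show 0 < cdf ω z from hz) (monotone_cdf ω hzy.le)

theorem inf_lt_quantile (hb : BddBelow {y | 0 < cdf ω y}) {u : ℝ} (hu : u ∈ Ioo (0:ℝ) 1) :
    sInf {y | 0 < cdf ω y} < quantile ω u := by
  have : quantile ω u ∈ {y | 0 < cdf ω y} := (hω.quantile_mem hu).1
  rw [hω.pos_set_eq hb] at this
  exact this

/-- Star-shaped functions give laws below `ω` in the star order. -/
theorem starLE_map (hb : BddBelow {y | 0 < cdf ω y}) {φ : ℝ → ℝ} (hm : Monotone φ)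
    (hc : Continuous φ)
    (hpos : ∀ y, sInf {y | 0 < cdf ω y} < y → φ (sInf {y | 0 < cdf ω y}) < φ y)
    (hstar : ∀ x y, sInf {y | 0 < cdf ω y} < x → x ≤ y →
      (φ y - φ (sInf {y | 0 < cdf ω y})) * (x - sInf {y | 0 < cdf ω y})
        ≤ (φ x - φ (sInf {y | 0 < cdf ω y})) * (y - sInf {y | 0 < cdf ω y})) :
    StarLE (Measure.map φ ω) ω := by
  have hprω := hω.prob
  set a := sInf {y | 0 < cdf ω y} with ha
  have hm' : MonotoneOn φ {y | 0 < cdf ω y ∧ cdf ω y < 1} := hm.monotoneOn _
  have hc' : ContinuousOn φ {y | 0 < cdf ω y ∧ cdf ω y < 1} := hc.continuousOn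
  have hpr : IsProbabilityMeasure (Measure.map φ ω) :=
    Measure.isProbabilityMeasure_map hm.measurable.aemeasurable
  set ν := Measure.map φ ω with hν
  have hgal : ∀ u ∈ Ioo (0:ℝ) 1, ∀ x, (φ (quantile ω u) ≤ x ↔ u ≤ cdf ν x) := by
    intro u hu x
    rw [← hω.quantile_map_comp hm' hc' hu, quantile_le_iff _ hu.1 hu.2]
  have hset : {x | 0 < cdf ν x} = Ioi (φ a) := by
    ext x
    simp only [Set.mem_ofPred_eq, mem_Ioi]
    constructor
    · intro hx
      have hu : min (cdf ν x) (1/2) ∈ Ioo (0:ℝ) 1 :=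
        ⟨lt_min hx (by norm_num), lt_of_le_of_lt (min_le_right _ _) (by norm_num)⟩
      have h1 := (hgal _ hu x).2 (min_le_left _ _)
      exact lt_of_lt_of_le (hpos _ (hω.inf_lt_quantile hb hu)) h1
    · intro hx
      have h2 : ∀ᶠ z in 𝓝 a, φ z < x := hc.continuousAt.eventually (gt_mem_nhds hx)
      have h3 : ∀ᶠ z in 𝓝[>] a, φ z < x := h2.filter_mono nhdsWithin_le_nhds
      obtain ⟨z, hz1, hz2⟩ := (h3.and (self_mem_nhdsWithin (s := Ioi a))).exists
      have hz : 0 < cdf ω z := by
        have : z ∈ {y | 0 < cdf ω y} := by rw [hω.pos_set_eq hb]; exact hz2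
        exact this
      have hu : min (cdf ω z) (1/2) ∈ Ioo (0:ℝ) 1 :=
        ⟨lt_min hz (by norm_num), lt_of_le_of_lt (min_le_right _ _) (by norm_num)⟩
      have h4 : quantile ω (min (cdf ω z) (1/2)) ≤ z :=
        (quantile_le_iff ω hu.1 hu.2 z).2 (min_le_left _ _)
      have h5 := (hgal _ hu x).1 ((hm h4).trans hz1.le)
      exact lt_of_lt_of_le hu.1 h5
  have hinf : sInf {x | 0 < cdf ν x} = φ a := by rw [hset, csInf_Ioi]
  refine ⟨hb, by rw [hset]; exact bddBelow_Ioi, ?_⟩
  rw [hinf]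
  intro x hx x' hx' hxx
  have hx0 : 0 < cdf ν x := by
    have : x ∈ {x | 0 < cdf ν x} := by rw [hset]; exact hx.1
    exact this
  have hx0' : 0 < cdf ν x' := by
    have : x' ∈ {x | 0 < cdf ν x} := by rw [hset]; exact hx'.1
    exact this
  have e1 := hω.map_level hm' hc' (x := x) ⟨hx0, hx.2⟩
  have e2 := hω.map_level hm' hc' (x := x') ⟨hx0', hx'.2⟩
  have hq : quantile ω (cdf ν x) ≤ quantile ω (cdf ν x') :=
    quantile_mono ω ⟨hx0, hx.2⟩ ⟨hx0', hx'.2⟩ (monotone_cdf ν hxx)
  have hq1 := hω.inf_lt_quantile hb (u := cdf ν x) ⟨hx0, hx.2⟩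
  have h6 := hstar _ _ hq1 hq
  rw [← hν] at e1 e2
  rw [e1, e2] at h6
  have h7 : 0 < x - φ a := sub_pos.2 hx.1
  have h8 : 0 < x' - φ a := sub_pos.2 hx'.1
  change (quantile ω (cdf ν x) - a) / (x - φ a) ≤ (quantile ω (cdf ν x') - a) / (x' - φ a)
  rw [div_le_div_iff₀ h7 h8]
  linarith

end Nice

/-- Convergence of numerator and variance. -/
theorem tendsto_num_var {n j : ℕ} {p : ℝ} {h : ℝ → ℝ} {hk : ℕ → ℝ → ℝ} {M : ℝ}
    (hmeas : ∀ k, AEMeasurable (hk k) unif) (hbd : ∀ k, ∀ u ∈ Ioo (0:ℝ) 1, |hk k u| ≤ M)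
    (hlim : ∀ᵐ u ∂unif, Tendsto (fun k => hk k u) atTop (𝓝 (h u)))
    (hp : Tendsto (fun k => hk k p) atTop (𝓝 (h p))) :
    Tendsto (fun k => ((num n j p (hk k) : ℝ), (variance (hk k) unif : ℝ))) atTop
      (𝓝 (num n j p h, variance h unif)) := by
  have hmh : AEMeasurable h unif := aemeasurable_of_tendsto_metrizable_ae atTop hmeas hlim
  have hbh : ∀ᵐ u ∂unif, |h u| ≤ M := by
    filter_upwards [hlim, ae_unif_mem] with u hu hu2
    exact le_of_tendsto (hu.abs) (Eventually.of_forall fun k => hbd k u hu2)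
  have hL : ∀ k, MemLp (hk k) 2 unif := fun k => memLp_of_bdd (hmeas k) (hbd k)
  have hLh : MemLp h 2 unif := by
    refine MemLp.of_bound hmh.aestronglyMeasurable M ?_
    exact hbh
  obtain ⟨D, hD0, hD⟩ := dens_bdd n j
  have t1 : Tendsto (fun k => ∫ u, hk k u * pdfU n j u ∂unif) atTop
      (𝓝 (∫ u, h u * pdfU n j u ∂unif)) := by
    refine tendsto_integral_of_dominated_convergence (fun _ => M * D) ?_ (integrable_const _) ?_ ?_
    · intro k
      exact ((hmeas k).mul (continuous_dens n j).aemeasurable).aestronglyMeasurable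
    · intro k
      filter_upwards [ae_unif_mem] with u hu
      rw [Real.norm_eq_abs, abs_mul]
      exact mul_le_mul (hbd k u hu) (hD u (Ioo_subset_Icc_self hu)) (abs_nonneg _)
        ((abs_nonneg _).trans (hbd k u hu))
    · filter_upwards [hlim] with u hu
      exact hu.mul_const _
  have t2 : Tendsto (fun k => ∫ u, hk k u ∂unif) atTop (𝓝 (∫ u, h u ∂unif)) := by
    refine tendsto_integral_of_dominated_convergence (fun _ => M) ?_ (integrable_const _) ?_ hlim
    · intro k; exact (hmeas k).aestronglyMeasurable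
    · intro k
      filter_upwards [ae_unif_mem] with u hu
      exact hbd k u hu
  have t3 : Tendsto (fun k => ∫ u, hk k u ^ 2 ∂unif) atTop (𝓝 (∫ u, h u ^ 2 ∂unif)) := by
    refine tendsto_integral_of_dominated_convergence (fun _ => M ^ 2) ?_ (integrable_const _) ?_ ?_
    · intro k; exact ((hmeas k).pow_const 2).aestronglyMeasurable
    · intro k
      filter_upwards [ae_unif_mem] with u hu
      rw [Real.norm_eq_abs, abs_pow]
      exact pow_le_pow_left₀ (abs_nonneg _) (hbd k u hu) 2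
    · filter_upwards [hlim] with u hu
      exact hu.pow 2
  have hv : ∀ g : ℝ → ℝ, MemLp g 2 unif → variance g unif
      = (∫ u, g u ^ 2 ∂unif) - (∫ u, g u ∂unif) ^ 2 := by
    intro g hg
    rw [variance_eq_sub hg]
    rfl
  refine Tendsto.prodMk_nhds (t1.sub hp) ?_
  rw [hv h hLh]
  simp only [fun k => hv (hk k) (hL k)]
  exact t3.sub (t2.pow 2)

end Pool.Agent.Lib.MP_c5814c_pr
end

section

namespace Pool.Agent.Lib.MP_c5814c_pr

open MeasureTheory ProbabilityTheory Set Filter
open scoped ENNReal Topology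

/-- The pairs (numerator of the bias, variance) of the laws below `ω` in the star order. -/
def starPairs (ω : Measure ℝ) (n j : ℕ) (p : ℝ) : Set (ℝ × ℝ) :=
  {z | ∃ ν : Measure ℝ, IsProbabilityMeasure ν ∧ MemLp id 2 ν ∧ StarLE ν ω ∧
    z = (num n j p (quantile ν), variance id ν)}

theorem num_congr {n j : ℕ} {p : ℝ} (hp : p ∈ Ioo (0:ℝ) 1) {h h' : ℝ → ℝ}
    (he : ∀ u ∈ Ioo (0:ℝ) 1, h u = h' u) : num n j p h = num n j p h' := by
  unfold num
  rw [he p hp]
  congr 1
  refine integral_congr_ae ?_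
  filter_upwards [ae_unif_mem] with u hu
  rw [he u hu]

theorem num_const_add {n j : ℕ} (hj : j < n) {p c : ℝ} {h : ℝ → ℝ} (hh : MemLp h 2 unif) :
    num n j p (fun u => c + h u) = num n j p h := by
  unfold num
  have h1 : ∀ u, (c + h u) * pdfU n j u = c * pdfU n j u + h u * pdfU n j u := fun u => by ring
  simp only [h1]
  have i1 : Integrable (fun u => c * pdfU n j u) unif := (integrable_dens n j).const_mul _
  rw [integral_add i1 (integrable_mul_dens hh n j), integral_const_mul, integral_dens_unif hj]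
  ring

section

variable {ω : Measure ℝ} {n j : ℕ} {p : ℝ}

theorem variance_id_eq (hω : Nice ω) {φ : ℝ → ℝ}
    (hm : MonotoneOn φ {y | 0 < cdf ω y ∧ cdf ω y < 1}) :
    variance id (Measure.map φ ω) = variance (fun u => φ (quantile ω u)) unif := by
  rw [hω.map_eq hm, variance_id_map (aemeasurable_of_monotoneOn (hω.comp_monotoneOn hm))]

theorem memLp_id_iff (hω : Nice ω) {φ : ℝ → ℝ}
    (hm : MonotoneOn φ {y | 0 < cdf ω y ∧ cdf ω y < 1}) :
    MemLp id 2 (Measure.map φ ω) ↔ MemLp (fun u => φ (quantile ω u)) 2 unif := by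
  rw [hω.map_eq hm, memLp_map_measure_iff aestronglyMeasurable_id
    (aemeasurable_of_monotoneOn (hω.comp_monotoneOn hm))]
  rfl

theorem step1 (hω : Nice ω) (hb : BddBelow {y | 0 < cdf ω y}) (hj : j < n)
    (hp : p ∈ Ioo (0:ℝ) 1) {S : ℝ → ℝ} (hS : Monotone S) {l T : ℝ} (hl : 0 ≤ l)
    (hLip : ∀ x y, x ≤ y → S y - S x ≤ l * (y - x)) (hT : ∀ y, T ≤ y → S y = S T) :
    ((num n j p (fun u => S (quantile ω u)) : ℝ), (variance (fun u => S (quantile ω u)) unif : ℝ))
      ∈ closure (starPairs ω n j p) := by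
  have hprω := hω.prob
  set a := sInf {y | 0 < cdf ω y} with ha
  set M := l * |T - a| + 1 - S a with hM
  have hSc : Continuous S := by
    have : LipschitzWith (Real.toNNReal l) S := by
      refine LipschitzWith.of_dist_le_mul fun x y => ?_
      rw [Real.coe_toNNReal l hl, Real.dist_eq, Real.dist_eq]
      rcases le_total x y with h | h
      · rw [abs_sub_comm, abs_sub_comm x y, abs_of_nonneg (sub_nonneg.2 (hS h)),
          abs_of_nonneg (sub_nonneg.2 h)]
        exact hLip x y h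
      · rw [abs_of_nonneg (sub_nonneg.2 (hS h)), abs_of_nonneg (sub_nonneg.2 h)]
        exact hLip y x h
    exact this.continuous
  have hSub : ∀ y, S y ≤ S T := by
    intro y
    rcases le_total T y with h | h
    · exact (hT y h).le
    · exact hS h
  have hMS : ∀ y, a ≤ y → l * |T - a| + 1 ≤ M + S y := by
    intro y hy
    have := hS hy
    rw [hM]; linarith
  have hlT : 0 ≤ l * |T - a| := mul_nonneg hl (abs_nonneg _)
  set φ : ℕ → ℝ → ℝ := fun k y => min (((k:ℝ) + 1) * (y - a)) (M + S (max y a)) with hφ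
  have hφc : ∀ k, Continuous (φ k) := by
    intro k
    refine Continuous.min (by fun_prop) (continuous_const.add (hSc.comp (by fun_prop)))
  have hφm : ∀ k, Monotone (φ k) := by
    intro k x y hxy
    refine min_le_min ?_ ?_
    · have : (0:ℝ) ≤ (k:ℝ) + 1 := by positivity
      nlinarith
    · have := hS (max_le_max hxy (le_refl a))
      linarith
  have hφa : ∀ k, φ k a = 0 := by
    intro k
    simp only [hφ, sub_self, mul_zero, max_self]
    exact min_eq_left (by linarith [hMS a le_rfl])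
  have hφpos : ∀ k y, a < y → 0 < φ k y := by
    intro k y hy
    refine lt_min (mul_pos (by positivity) (sub_pos.2 hy)) ?_
    rw [max_eq_left hy.le]
    linarith [hMS y hy.le]
  have hkey : ∀ x y, a < x → x ≤ y → (M + S y) * (x - a) ≤ (M + S x) * (y - a) := by
    intro x y hx hxy
    have h1 := hMS x hx.le
    rcases le_or_gt T x with h | h
    · rw [hT y (h.trans hxy), ← hT x h]
      exact mul_le_mul_of_nonneg_left (by linarith) (by linarith)
    · have h2 := hLip x y hxy
      have h3 : l * (x - a) ≤ M + S x := by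
        have h4 : l * (x - a) ≤ l * |T - a| := by
          refine mul_le_mul_of_nonneg_left ?_ hl
          exact le_trans (by linarith) (le_abs_self (T - a))
        linarith
      have h5 : (S y - S x) * (x - a) ≤ l * (y - x) * (x - a) :=
        mul_le_mul_of_nonneg_right h2 (by linarith)
      have h6 : l * (x - a) * (y - x) ≤ (M + S x) * (y - x) :=
        mul_le_mul_of_nonneg_right h3 (by linarith)
      nlinarith
  have hstar : ∀ k x y, a < x → x ≤ y → (φ k y - φ k a) * (x - a) ≤ (φ k x - φ k a) * (y - a) := by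
    intro k x y hx hxy
    rw [hφa, sub_zero, sub_zero]
    have hy : a < y := lt_of_lt_of_le hx hxy
    rcases min_choice (((k:ℝ) + 1) * (x - a)) (M + S (max x a)) with h | h
    · have h1 : φ k x = ((k:ℝ) + 1) * (x - a) := h
      rw [h1]
      have h2 : φ k y ≤ ((k:ℝ) + 1) * (y - a) := min_le_left _ _
      calc φ k y * (x - a) ≤ ((k:ℝ) + 1) * (y - a) * (x - a) :=
            mul_le_mul_of_nonneg_right h2 (by linarith)
        _ = ((k:ℝ) + 1) * (x - a) * (y - a) := by ring
    · have h1 : φ k x = M + S x := by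
        have : φ k x = M + S (max x a) := h
        rwa [max_eq_left hx.le] at this
      rw [h1]
      have h2 : φ k y ≤ M + S y := by
        have : φ k y ≤ M + S (max y a) := min_le_right _ _
        rwa [max_eq_left hy.le] at this
      exact (mul_le_mul_of_nonneg_right h2 (by linarith)).trans (hkey x y hx hxy)
  have hmem : ∀ k, ((num n j p (fun u => φ k (quantile ω u)) : ℝ),
      (variance (fun u => φ k (quantile ω u)) unif : ℝ)) ∈ starPairs ω n j p := by
    intro k
    have hm' : MonotoneOn (φ k) {y | 0 < cdf ω y ∧ cdf ω y < 1} := (hφm k).monotoneOn _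
    have hc' : ContinuousOn (φ k) {y | 0 < cdf ω y ∧ cdf ω y < 1} := (hφc k).continuousOn
    refine ⟨Measure.map (φ k) ω, Measure.isProbabilityMeasure_map (hφm k).measurable.aemeasurable,
      ?_, ?_, ?_⟩
    · rw [memLp_id_iff hω hm']
      refine memLp_of_bdd (aemeasurable_of_monotoneOn (hω.comp_monotoneOn hm'))
        (M := M + S T) fun u hu => ?_
      have h1 := hφpos k _ (hω.inf_lt_quantile hb hu)
      rw [abs_of_pos h1]
      exact (min_le_right _ _).trans (by linarith [hSub (max (quantile ω u) a)])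
    · refine hω.starLE_map hb (hφm k) (hφc k) (fun y hy => ?_) fun x y hx hxy => ?_
      · rw [← ha, hφa]; exact hφpos k y hy
      · exact hstar k x y hx hxy
    · rw [variance_id_eq hω hm']
      congr 1
      exact num_congr hp fun u hu => (hω.quantile_map_comp hm' hc' hu).symm
  have hlim : ∀ u ∈ Ioo (0:ℝ) 1, Tendsto (fun k => φ k (quantile ω u)) atTop
      (𝓝 (M + S (quantile ω u))) := by
    intro u hu
    have hy := hω.inf_lt_quantile hb hu
    set y := quantile ω u
    refine tendsto_const_nhds.congr' ?_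
    obtain ⟨k0, hk0⟩ := exists_nat_gt ((M + S y) / (y - a))
    filter_upwards [eventually_ge_atTop k0] with k hk
    have h1 : max y a = y := max_eq_left hy.le
    simp only [hφ, h1]
    symm
    refine min_eq_right ?_
    have h2 : (M + S y) / (y - a) < k + 1 := by
      have : (k0:ℝ) ≤ k := by exact_mod_cast hk
      linarith
    rw [div_lt_iff₀ (sub_pos.2 hy)] at h2
    exact h2.le
  have hconv := tendsto_num_var (n := n) (j := j) (p := p) (h := fun u => M + S (quantile ω u))
    (hk := fun k u => φ k (quantile ω u)) (M := M + S T)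
    (fun k => aemeasurable_of_monotoneOn (hω.comp_monotoneOn ((hφm k).monotoneOn _)))
    (fun k u hu => by
      have h1 := hφpos k _ (hω.inf_lt_quantile hb hu)
      rw [abs_of_pos h1]
      exact (min_le_right _ _).trans (by linarith [hSub (max (quantile ω u) a)]))
    (by filter_upwards [ae_unif_mem] with u hu using hlim u hu)
    (hlim p hp)
  have hSL : MemLp (fun u => S (quantile ω u)) 2 unif := by
    refine memLp_of_bdd (aemeasurable_of_monotoneOn (hω.comp_monotoneOn (hS.monotoneOn _)))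
      (M := max |S a| |S T|) fun u hu => ?_
    have h1 := hS (hω.inf_lt_quantile hb hu).le
    have h2 := hSub (quantile ω u)
    rw [abs_le]
    constructor
    · have := neg_abs_le (S a)
      have := le_max_left |S a| |S T|
      have h3 : S a ≤ S (quantile ω u) := h1
      linarith
    · exact h2.trans ((le_abs_self _).trans (le_max_right _ _))
  have h1 : num n j p (fun u => M + S (quantile ω u)) = num n j p (fun u => S (quantile ω u)) :=
    num_const_add hj hSL
  have h2 : variance (fun u => M + S (quantile ω u)) unif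
      = variance (fun u => S (quantile ω u)) unif := by
    exact variance_const_add hSL.1 M
  rw [h1, h2] at hconv
  exact mem_closure_of_tendsto hconv (Eventually.of_forall hmem)

end

end Pool.Agent.Lib.MP_c5814c_pr
end

section

namespace Pool.Agent.Lib.MP_c5814c_pr

open MeasureTheory ProbabilityTheory Set Filter
open scoped ENNReal Topology

/-- forward average -/
noncomputable def avg (g : ℝ → ℝ) (d y : ℝ) : ℝ := (1 / d) * ∫ t in (0:ℝ)..d, g (y + t)

section

variable {g : ℝ → ℝ} (hg : Monotone g) {d : ℝ} (hd : 0 < d)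

include hg

theorem shift_int (y a b : ℝ) : IntervalIntegrable (fun t => g (y + t)) volume a b :=
  Monotone.intervalIntegrable fun s t hst => hg (by linarith)

include hd

theorem avg_mono : Monotone (avg g d) := by
  intro x y hxy
  unfold avg
  refine mul_le_mul_of_nonneg_left ?_ (by positivity)
  exact intervalIntegral.integral_mono_on hd.le (shift_int hg x 0 d) (shift_int hg y 0 d)
    fun t _ => hg (by linarith)

theorem le_avg (y : ℝ) : g y ≤ avg g d y := by
  unfold avg
  have h1 : ∫ t in (0:ℝ)..d, g y ≤ ∫ t in (0:ℝ)..d, g (y + t) :=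
    intervalIntegral.integral_mono_on hd.le (interval_const _ _ _) (shift_int hg y 0 d)
      fun t ht => hg (by linarith [ht.1])
  simp only [intervalIntegral.integral_const, sub_zero, smul_eq_mul] at h1
  calc g y = (1 / d) * (d * g y) := by field_simp
    _ ≤ _ := mul_le_mul_of_nonneg_left h1 (by positivity)

theorem avg_le (y : ℝ) : avg g d y ≤ g (y + d) := by
  unfold avg
  have h1 : ∫ t in (0:ℝ)..d, g (y + t) ≤ ∫ t in (0:ℝ)..d, g (y + d) :=
    intervalIntegral.integral_mono_on hd.le (shift_int hg y 0 d) (interval_const _ _ _)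
      fun t ht => hg (by linarith [ht.2])
  simp only [intervalIntegral.integral_const, sub_zero, smul_eq_mul] at h1
  calc _ ≤ (1 / d) * (d * g (y + d)) := mul_le_mul_of_nonneg_left h1 (by positivity)
    _ = g (y + d) := by field_simp

theorem avg_lip {K : ℝ} (hK : ∀ y, |g y| ≤ K) (x y : ℝ) (hxy : x ≤ y) :
    avg g d y - avg g d x ≤ (2 * K / d) * (y - x) := by
  have hgi : ∀ a b, IntervalIntegrable g volume a b := fun a b => hg.intervalIntegrable
  have e : ∀ z, ∫ t in (0:ℝ)..d, g (z + t) = ∫ t in z..(z + d), g t := by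
    intro z
    rw [intervalIntegral.integral_comp_add_left (fun t => g t) z, add_zero]
  unfold avg
  rw [e, e]
  have h1 : ∫ t in y..(y + d), g t = (∫ t in x..(x + d), g t) - (∫ t in x..y, g t)
      + ∫ t in (x + d)..(y + d), g t := by
    have h2 := intervalIntegral.integral_add_adjacent_intervals (hgi x y) (hgi y (y + d))
    have h3 := intervalIntegral.integral_add_adjacent_intervals (hgi x (x + d)) (hgi (x + d) (y + d))
    linarith
  rw [h1]
  have h4 := intervalIntegral.norm_integral_le_of_norm_le_const (a := x) (b := y) (f := g)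
    (C := K) (fun t _ => by rw [Real.norm_eq_abs]; exact hK t)
  have h5 := intervalIntegral.norm_integral_le_of_norm_le_const (a := x + d) (b := y + d) (f := g)
    (C := K) (fun t _ => by rw [Real.norm_eq_abs]; exact hK t)
  rw [Real.norm_eq_abs, abs_of_nonneg (sub_nonneg.2 hxy)] at h4
  have h6 : |y + d - (x + d)| = y - x := by
    rw [show y + d - (x + d) = y - x by ring, abs_of_nonneg (sub_nonneg.2 hxy)]
  rw [Real.norm_eq_abs, h6] at h5
  have h7 := neg_le_of_abs_le h4
  have h8 := le_of_abs_le h5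
  have h9 : (1 / d) * ((∫ t in x..(x + d), g t) - (∫ t in x..y, g t)
      + ∫ t in (x + d)..(y + d), g t) - (1 / d) * (∫ t in x..(x + d), g t)
      = (1 / d) * ((∫ t in (x + d)..(y + d), g t) - (∫ t in x..y, g t)) := by ring
  rw [h9]
  calc _ ≤ (1 / d) * (K * (y - x) + K * (y - x)) :=
        mul_le_mul_of_nonneg_left (by linarith) (by positivity)
    _ = _ := by ring

end

variable {ω : Measure ℝ} {n j : ℕ} {p : ℝ}

theorem step2 (hω : Nice ω) (hb : BddBelow {y | 0 < cdf ω y}) (hj : j < n)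
    (hp : p ∈ Ioo (0:ℝ) 1) {g : ℝ → ℝ} (hg : Monotone g) {K T : ℝ} (hK : ∀ y, |g y| ≤ K)
    (hT : ∀ y, T ≤ y → g y = g T) (hcp : ContinuousAt g (quantile ω p)) :
    ((num n j p (fun u => g (quantile ω u)) : ℝ), (variance (fun u => g (quantile ω u)) unif : ℝ))
      ∈ closure (starPairs ω n j p) := by
  have hprω := hω.prob
  have hK0 : 0 ≤ K := (abs_nonneg _).trans (hK 0)
  have hd : ∀ k : ℕ, 0 < 1 / ((k:ℝ) + 1) := fun k => by positivity
  have hmem : ∀ k : ℕ, ((num n j p (fun u => avg g (1 / ((k:ℝ) + 1)) (quantile ω u)) : ℝ),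
      (variance (fun u => avg g (1 / ((k:ℝ) + 1)) (quantile ω u)) unif : ℝ))
      ∈ closure (starPairs ω n j p) := by
    intro k
    refine step1 hω hb hj hp (avg_mono hg (hd k)) (l := 2 * K / (1 / ((k:ℝ) + 1))) (T := T)
      (by positivity) (avg_lip hg (hd k) hK) ?_
    intro y hy
    have h1 : g y = g T := hT y hy
    have h2 : g (y + 1 / ((k:ℝ) + 1)) = g T := hT _ (by linarith [hd k])
    have h3 : g (T + 1 / ((k:ℝ) + 1)) = g T := hT _ (by linarith [hd k])
    have a1 := le_avg hg (hd k) y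
    have a2 := avg_le hg (hd k) y
    have a3 := le_avg hg (hd k) T
    have a4 := avg_le hg (hd k) T
    linarith
  have hlim : ∀ y, ContinuousAt g y →
      Tendsto (fun k : ℕ => avg g (1 / ((k:ℝ) + 1)) y) atTop (𝓝 (g y)) := by
    intro y hy
    have h1 : Tendsto (fun k : ℕ => y + 1 / ((k:ℝ) + 1)) atTop (𝓝 y) := by
      have := tendsto_one_div_add_atTop_nhds_zero_nat (𝕜 := ℝ)
      simpa using this.const_add y
    exact tendsto_of_tendsto_of_tendsto_of_le_of_le tendsto_const_nhds (hy.tendsto.comp h1)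
      (fun k => le_avg hg (hd k) y) (fun k => avg_le hg (hd k) y)
  have hae : ∀ᵐ u ∂unif, ContinuousAt g (quantile ω u) := by
    have hcount : {y | ¬ ContinuousAt g y}.Countable := hg.countable_not_continuousAt
    set s := {u | u ∈ Ioo (0:ℝ) 1 ∧ ¬ ContinuousAt g (quantile ω u)} with hs
    have hsc : s.Countable := by
      refine Set.countable_of_injective_of_countable_image (f := quantile ω) ?_ ?_
      · intro u hu v hv huv
        exact hω.quantile_strictMono.injOn hu.1 hv.1 huv
      · refine hcount.mono ?_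
        rintro y ⟨u, hu, rfl⟩
        exact hu.2
    have h0 : unif s = 0 := by
      have : volume s = 0 := hsc.measure_zero volume
      exact Measure.absolutelyContinuous_of_le Measure.restrict_le_self this
    have h1 : ∀ᵐ u ∂unif, u ∉ s := measure_eq_zero_iff_ae_notMem.1 h0
    filter_upwards [h1, ae_unif_mem] with u hu hu2
    by_contra hn
    exact hu ⟨hu2, hn⟩
  have hbd : ∀ k : ℕ, ∀ y, |avg g (1 / ((k:ℝ) + 1)) y| ≤ K := by
    intro k y
    rw [abs_le]
    exact ⟨(neg_le_of_abs_le (hK y)).trans (le_avg hg (hd k) y),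
      (avg_le hg (hd k) y).trans (le_of_abs_le (hK _))⟩
  have hconv := tendsto_num_var (n := n) (j := j) (p := p) (h := fun u => g (quantile ω u))
    (hk := fun k u => avg g (1 / ((k:ℝ) + 1)) (quantile ω u)) (M := K)
    (fun k => aemeasurable_of_monotoneOn
      (hω.comp_monotoneOn ((avg_mono hg (hd k)).monotoneOn _)))
    (fun k u _ => hbd k _)
    (by filter_upwards [hae] with u hu using hlim _ hu)
    (hlim _ hcp)
  have := mem_closure_of_tendsto hconv (Eventually.of_forall hmem)
  rwa [closure_closure] at this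

/-- every bounded monotone function that is constant near `1` and near `p` -/
theorem step3 (hω : Nice ω) (hb : BddBelow {y | 0 < cdf ω y}) (hj : j < n)
    (hp : p ∈ Ioo (0:ℝ) 1) {h : ℝ → ℝ} (hm : MonotoneOn h (Ioo 0 1)) {K κ t0 : ℝ}
    (hK : ∀ u ∈ Ioo (0:ℝ) 1, |h u| ≤ K) (ht0 : t0 ∈ Ioo (0:ℝ) 1)
    (hκ : ∀ u ∈ Ico t0 1, h u = κ) (hloc : ∀ᶠ u in 𝓝 p, h u = h p) :
    ((num n j p h : ℝ), (variance h unif : ℝ)) ∈ closure (starPairs ω n j p) := by
  classical
  have hprω := hω.prob
  set g : ℝ → ℝ := fun y => if cdf ω y ≤ 0 then -K else if t0 ≤ cdf ω y then κ else h (cdf ω y)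
    with hg
  have hκK : |κ| ≤ K := by
    rw [← hκ t0 ⟨le_rfl, ht0.2⟩]; exact hK t0 ht0
  have hgm : Monotone g := by
    intro x y hxy
    have hW := monotone_cdf ω hxy
    simp only [hg]
    by_cases h1 : cdf ω x ≤ 0
    · rw [if_pos h1]
      by_cases h2 : cdf ω y ≤ 0
      · rw [if_pos h2]
      · rw [if_neg h2]
        by_cases h3 : t0 ≤ cdf ω y
        · rw [if_pos h3]; exact neg_le_of_abs_le hκK
        · rw [if_neg h3]
          exact neg_le_of_abs_le (hK _ ⟨not_le.1 h2, by linarith [not_le.1 h3, ht0.2]⟩)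
    · have h2 : ¬ cdf ω y ≤ 0 := by linarith
      rw [if_neg h1, if_neg h2]
      by_cases h3 : t0 ≤ cdf ω x
      · rw [if_pos h3, if_pos (h3.trans hW)]
      · rw [if_neg h3]
        have hx1 : cdf ω x ∈ Ioo (0:ℝ) 1 := ⟨not_le.1 h1, by linarith [not_le.1 h3, ht0.2]⟩
        by_cases h4 : t0 ≤ cdf ω y
        · rw [if_pos h4, ← hκ t0 ⟨le_rfl, ht0.2⟩]
          exact hm hx1 ht0 (not_le.1 h3).le
        · rw [if_neg h4]
          exact hm hx1 ⟨not_le.1 h2, by linarith [not_le.1 h4, ht0.2]⟩ hW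
  have hgq : ∀ u ∈ Ioo (0:ℝ) 1, g (quantile ω u) = h u := by
    intro u hu
    simp only [hg, hω.cdf_quantile hu]
    rw [if_neg (not_le.2 hu.1)]
    split_ifs with h3
    · exact (hκ u ⟨h3, hu.2⟩).symm
    · rfl
  have hgK : ∀ y, |g y| ≤ K := by
    intro y
    have hK0 : 0 ≤ K := (abs_nonneg _).trans hκK
    simp only [hg]
    split_ifs with h1 h2
    · rw [abs_neg, abs_of_nonneg hK0]
    · exact hκK
    · exact hK _ ⟨not_le.1 h1, by linarith [not_le.1 h2, ht0.2]⟩
  have hgT : ∀ y, quantile ω t0 ≤ y → g y = g (quantile ω t0) := by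
    intro y hy
    have h1 : t0 ≤ cdf ω y := by
      have := monotone_cdf ω hy
      rwa [hω.cdf_quantile ht0] at this
    have h2 : g y = κ := by
      simp only [hg]
      rw [if_neg (by linarith [ht0.1]), if_pos h1]
    rw [h2, hgq t0 ht0, hκ t0 ⟨le_rfl, ht0.2⟩]
  have hcp : ContinuousAt g (quantile ω p) := by
    have h1 : ∀ᶠ y in 𝓝 (quantile ω p), h (cdf ω y) = h p := by
      have hc : Tendsto (cdf ω) (𝓝 (quantile ω p)) (𝓝 p) := by
        have := hω.cont.continuousAt (x := quantile ω p)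
        rwa [ContinuousAt, hω.cdf_quantile hp] at this
      exact hc.eventually hloc
    have h2 : ∀ᶠ y in 𝓝 (quantile ω p), cdf ω y ∈ Ioo (0:ℝ) 1 := by
      have hc := hω.cont.continuousAt (x := quantile ω p)
      refine hc.eventually (Ioo_mem_nhds ?_ ?_)
      · rw [hω.cdf_quantile hp]; exact hp.1
      · rw [hω.cdf_quantile hp]; exact hp.2
    have h3 : g =ᶠ[𝓝 (quantile ω p)] fun _ => h p := by
      filter_upwards [h1, h2] with y hy1 hy2
      have : g y = h (cdf ω y) := by
        simp only [hg]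
        rw [if_neg (not_le.2 hy2.1)]
        split_ifs with h4
        · exact (hκ _ ⟨h4, hy2.2⟩).symm
        · rfl
      rw [this, hy1]
    exact (continuousAt_const.congr h3.symm)
  have hfin := step2 hω hb hj hp hgm hgK hgT hcp
  have e1 : num n j p (fun u => g (quantile ω u)) = num n j p h := num_congr hp hgq
  have e2 : variance (fun u => g (quantile ω u)) unif = variance h unif := by
    refine variance_congr ?_
    filter_upwards [ae_unif_mem] with u hu using hgq u hu
  rwa [e1, e2] at hfin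

end Pool.Agent.Lib.MP_c5814c_pr
end
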