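import Pool.Agent.Lib.MP_c5814c_pr.Mg.G001

section

namespace Pool.Agent.Lib.MP_c5814c_pr

open MeasureTheory ProbabilityTheory Set Filter
open scoped ENNReal Topology

theorem memLp_quantile {ν : Measure ℝ} [IsProbabilityMeasure ν] (h : MemLp id 2 ν) :
    MemLp (quantile ν) 2 unif := by
  have h1 : MemLp id 2 (Measure.map (quantile ν) unif) := by rwa [map_quantile]
  rw [memLp_map_measure_iff aestronglyMeasurable_id (aemeasurable_quantile ν)] at h1
  exact h1

theorem variance_quantile (ν : Measure ℝ) [IsProbabilityMeasure ν] :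
    variance (quantile ν) unif = variance id ν := by
  conv_rhs => rw [← map_quantile ν]
  rw [variance_id_map (aemeasurable_quantile ν)]

theorem bias_eq {n : ℕ} (j : Fin n) (p : ℝ) (ν : Measure ℝ) [IsProbabilityMeasure ν] :
    bias n j p ν = num n j p (quantile ν) / √(variance (quantile ν) unif) := by
  unfold bias num
  rw [variance_quantile]
  congr 2
  have := integral_ordStat j (quantile_mono ν) measurable_id
  rw [map_quantile] at this
  simpa using this

section

variable {ω : Measure ℝ} {n j : ℕ} {p s m : ℝ}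

theorem switch_gt (hj : j + 1 < n) (hj0 : 0 < j) (hs : IsSwitch n j s) :
    (j : ℝ) / (n - 1) < s := by
  obtain ⟨t, ht1, ht2, ht0, hl, hr⟩ := exists_switch hj hj0
  have hn : (0:ℝ) < n - 1 := by
    have : (1:ℝ) < n := by exact_mod_cast (by omega : 1 < n)
    linarith
  have htpos : 0 < t := lt_of_le_of_lt (div_nonneg (by positivity) hn.le) ht1
  have hst : s = t := by
    refine (existsUnique_isSwitch hj).unique hs (Or.inr ⟨hj0, htpos, ht2, ?_⟩)
    unfold gap at ht0; linarith
  rw [hst]; exact ht1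

theorem switch_nonneg (hs : IsSwitch n j s) : 0 ≤ s := by
  rcases hs with ⟨_, h⟩ | ⟨_, h, _⟩
  · exact h.ge
  · exact h.le

theorem dens_le_of_switch (hj : j + 1 < n) (hs : IsSwitch n j s)
    (hp : p ∈ Ioo (0:ℝ) 1) (hm : m = min s p) (hm0 : 0 < m) {u : ℝ} (hu : m < u) (hup : u ≤ p) :
    pdfU n j u ≤ cdfU n j m / m := by
  have hn : (0:ℝ) < n - 1 := by
    have : (1:ℝ) < n := by exact_mod_cast (by omega : 1 < n)
    linarith
  have hms : m = s := by
    rcases min_choice s p with h | h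
    · rw [hm, h]
    · rw [h] at hm; linarith
  rcases hs with ⟨_, h⟩ | ⟨hj0, hs0, hs1, hs2⟩
  · rw [hms, h] at hm0; exact absurd hm0 (lt_irrefl _)
  · have hgt := switch_gt hj hj0 (s := s) (Or.inr ⟨hj0, hs0, hs1, hs2⟩)
    rw [div_lt_iff₀ hn] at hgt
    have h1 := dens_anti (n := n) (j := j) (by omega) hs0.le (by linarith)
      (show s ∈ Icc s 1 from ⟨le_rfl, hs1.le⟩)
      (show u ∈ Icc s 1 from ⟨by rw [← hms]; exact hu.le, by linarith [hp.2]⟩)
      (by rw [← hms]; exact hu.le)
    rw [hms, hs2]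
    rw [mul_div_assoc, mul_comm, div_mul_cancel₀ _ hs0.ne']
    exact h1

theorem HC_mono (hj : j + 1 < n) (hs : IsSwitch n j s) (hp : p ∈ Ioo (0:ℝ) 1)
    (hm : m = min s p) : MonotoneOn (HC n j p m) (Ioo 0 1) := by
  have hjn : j < n := by omega
  have hs0 := switch_nonneg hs
  have hm0 : 0 ≤ m := by rw [hm]; exact le_min hs0 hp.1.le
  have hmp : m ≤ p := by rw [hm]; exact min_le_right _ _
  have hn : (0:ℝ) < n - 1 := by
    have : (1:ℝ) < n := by exact_mod_cast (by omega : 1 < n)
    linarith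
  have hF : 0 < cdfU n j p := dist_pos hjn ⟨hp.1, hp.2.le⟩
  have hκ : 0 ≤ cdfU n j p / (1 - p) := div_nonneg hF.le (by linarith [hp.2])
  intro u hu v hv huv
  unfold HC
  by_cases h1 : v ≤ m
  · rw [if_pos h1, if_pos (huv.trans h1)]
  · rw [if_neg h1]
    by_cases h2 : v ≤ p
    · rw [if_pos h2]
      by_cases h3 : u ≤ m
      · rw [if_pos h3]
        have := dens_le_of_switch hj hs hp hm (lt_of_lt_of_le hu.1 h3) (not_le.1 h1) h2
        linarith
      · rw [if_neg h3, if_pos (huv.trans h2)]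
        have hmj : (j : ℝ) ≤ (n - 1) * m := by
          have hms : m = s := by
            rcases min_choice s p with h | h
            · rw [hm, h]
            · rw [h] at hm; linarith [not_le.1 h1]
          rcases hs with ⟨h, h'⟩ | ⟨hj0, hs0, hs1, hs2⟩
          · rw [hms, h', h]; simp
          · have hgt := switch_gt hj hj0 (s := s) (Or.inr ⟨hj0, hs0, hs1, hs2⟩)
            rw [div_lt_iff₀ hn] at hgt
            rw [hms]; linarith
        have := dens_anti hjn hm0 hmj ⟨(not_le.1 h3).le, hu.2.le⟩ ⟨(not_le.1 h1).le, hv.2.le⟩ huv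
        linarith
    · rw [if_neg h2]
      split_ifs with h3 h4
      · have : 0 ≤ cdfU n j m / m := by
          rcases eq_or_lt_of_le hm0 with h | h
          · rw [← h]; simp
          · exact div_nonneg (dist_pos hjn ⟨h, by linarith [hp.2]⟩).le h.le
        linarith
      · have := dens_nonneg n j hu.1.le hu.2.le
        linarith
      · exact le_rfl

theorem ind_num (hj : j < n) (hp : p ∈ Ioo (0:ℝ) 1) :
    num n j p (fun u => if u ≤ p then (0:ℝ) else 1) = 1 - cdfU n j p := by
  have hmeas : Measurable (fun u : ℝ => if u ≤ p then (0:ℝ) else 1) :=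
    Measurable.ite measurableSet_Iic measurable_const measurable_const
  have hL : MemLp (fun u : ℝ => if u ≤ p then (0:ℝ) else 1) 2 unif :=
    memLp_of_bdd hmeas.aemeasurable (M := 1) fun u _ => by split_ifs <;> simp
  unfold num
  rw [integral_split (integrable_mul_dens hL n j) ⟨hp.1.le, hp.2.le⟩]
  have h1 : ∫ u in (0:ℝ)..p, (if u ≤ p then (0:ℝ) else 1) * pdfU n j u = ∫ u in (0:ℝ)..p, (0:ℝ) :=
    integral_congr_Ioo hp.1.le fun u hu => by simp [hu.2.le]
  have h2 : ∫ u in p..1, (if u ≤ p then (0:ℝ) else 1) * pdfU n j u = ∫ u in p..1, pdfU n j u :=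
    integral_congr_Ioo hp.2.le fun u hu => by simp [not_le.2 hu.1]
  rw [h1, h2, integral_dens hj, dist_one hj]
  simp

theorem ind_var (hp : p ∈ Ioo (0:ℝ) 1) :
    variance (fun u : ℝ => if u ≤ p then (0:ℝ) else 1) unif = p * (1 - p) := by
  have hmeas : Measurable (fun u : ℝ => if u ≤ p then (0:ℝ) else 1) :=
    Measurable.ite measurableSet_Iic measurable_const measurable_const
  have hL : MemLp (fun u : ℝ => if u ≤ p then (0:ℝ) else 1) 2 unif :=
    memLp_of_bdd hmeas.aemeasurable (M := 1) fun u _ => by split_ifs <;> simp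
  rw [variance_eq_sub hL]
  have h1 : ∫ u, ((fun u : ℝ => if u ≤ p then (0:ℝ) else 1) ^ 2) u ∂unif = p * 0 + (1 - p) * 1 := by
    refine integral_two hL.integrable_sq hp ?_ ?_
    · intro u hu; simp [hu.2.le]
    · intro u hu; simp [not_le.2 hu.1]
  have h2 : ∫ u, (fun u : ℝ => if u ≤ p then (0:ℝ) else 1) u ∂unif = p * 0 + (1 - p) * 1 := by
    refine integral_two (hL.integrable one_le_two) hp ?_ ?_
    · intro u hu; simp [hu.2.le]
    · intro u hu; simp [not_le.2 hu.1]
  rw [h1, h2]; ring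

theorem upper_mem_closure (hω : Nice ω) (hb : BddBelow {y | 0 < cdf ω y}) (hj : j < n)
    (hp : p ∈ Ioo (0:ℝ) 1) :
    ((1 - cdfU n j p : ℝ), (p * (1 - p) : ℝ)) ∈ closure (starPairs ω n j p) := by
  have h1p : 0 < 1 - p := by linarith [hp.2]
  set c : ℕ → ℝ := fun k => p + (1 - p) * (1 / ((k:ℝ) + 2)) with hc
  have hc1 : ∀ k, p < c k := fun k => by
    have : 0 < (1 - p) * (1 / ((k:ℝ) + 2)) := by positivity
    simp only [hc]; linarith
  have hc2 : ∀ k, c k < 1 := fun k => by
    have h1 : 1 / ((k:ℝ) + 2) < 1 := by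
      rw [div_lt_one (by positivity)]
      have : (0:ℝ) ≤ k := by positivity
      linarith
    simp only [hc]; nlinarith
  have hct : Tendsto c atTop (𝓝 p) := by
    have h1 : Tendsto (fun k : ℕ => 1 / ((k:ℝ) + 2)) atTop (𝓝 0) := by
      have h2 : Tendsto (fun k : ℕ => ((k:ℝ) + 2)) atTop atTop :=
        tendsto_atTop_add_const_right _ _ tendsto_natCast_atTop_atTop
      simp only [one_div]
      exact h2.inv_tendsto_atTop
    have := (h1.const_mul (1 - p)).const_add p
    rw [mul_zero, add_zero] at this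
    exact this
  set hk : ℕ → ℝ → ℝ := fun k u => if u ≤ c k then 0 else 1 with hhk
  have hmono : ∀ k, Monotone (hk k) := by
    intro k u v huv
    simp only [hhk]
    split_ifs with h1 h2 h3
    · exact le_rfl
    · norm_num
    · linarith
    · exact le_rfl
  have hmem : ∀ k, ((num n j p (hk k) : ℝ), (variance (hk k) unif : ℝ))
      ∈ closure (starPairs ω n j p) := by
    intro k
    refine step3 hω hb hj hp ((hmono k).monotoneOn _) (K := 1) (κ := 1) (t0 := (c k + 1) / 2)
      ?_ ⟨by linarith [hc1 k, hp.1], by linarith [hc2 k]⟩ ?_ ?_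
    · intro u _; simp only [hhk]; split_ifs <;> simp
    · intro u hu
      simp only [hhk]
      rw [if_neg]
      linarith [hu.1, hc2 k]
    · filter_upwards [gt_mem_nhds (hc1 k)] with u hu
      simp only [hhk]
      rw [if_pos hu.le, if_pos (hc1 k).le]
  have hconv := tendsto_num_var (n := n) (j := j) (p := p)
    (h := fun u => if u ≤ p then (0:ℝ) else 1) (hk := hk) (M := 1)
    (fun k => (hmono k).measurable.aemeasurable)
    (fun k u _ => by simp only [hhk]; split_ifs <;> simp)
    (by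
      refine ae_of_all _ fun u => ?_
      by_cases hu : u ≤ p
      · rw [if_pos hu]
        refine tendsto_const_nhds.congr fun k => ?_
        simp only [hhk]; rw [if_pos (hu.trans (hc1 k).le)]
      · rw [if_neg hu]
        refine tendsto_const_nhds.congr' ?_
        filter_upwards [hct.eventually (gt_mem_nhds (not_le.1 hu))] with k hk2
        simp only [hhk]; rw [if_neg (not_le.2 hk2)])
    (by
      simp only [le_refl, if_true]
      refine tendsto_const_nhds.congr fun k => ?_
      simp only [hhk]; rw [if_pos (hc1 k).le])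
  rw [ind_num hj hp, ind_var hp] at hconv
  have := mem_closure_of_tendsto hconv (Eventually.of_forall hmem)
  rwa [closure_closure] at this

theorem lower_mem_closure (hω : Nice ω) (hb : BddBelow {y | 0 < cdf ω y}) (hj : j + 1 < n)
    (hs : IsSwitch n j s) (hp : p ∈ Ioo (0:ℝ) 1) (hm : m = min s p) :
    ((-(∫ u, HC n j p m u ^ 2 ∂unif) : ℝ), ((∫ u, HC n j p m u ^ 2 ∂unif) : ℝ))
      ∈ closure (starPairs ω n j p) := by
  have hjn : j < n := by omega
  have hs0 := switch_nonneg hs
  have hm0 : 0 ≤ m := by rw [hm]; exact le_min hs0 hp.1.le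
  have hmp : m ≤ p := by rw [hm]; exact min_le_right _ _
  have h1p : 0 < 1 - p := by linarith [hp.2]
  have hmo := HC_mono hj hs hp hm
  set κ := cdfU n j p / (1 - p) with hκ
  have hκ1 : ∀ u ∈ Ioo (0:ℝ) 1, HC n j p m u ≤ κ := by
    intro u hu
    rcases le_or_gt u p with h | h
    · have h2 : HC n j p m ((p + 1) / 2) = κ := by
        have h3 : ¬ (p + 1) / 2 ≤ m := by push Not; linarith [hp.2]
        have h4 : ¬ (p + 1) / 2 ≤ p := by push Not; linarith [hp.2]
        simp only [HC, h3, h4, if_false, hκ]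
      rw [← h2]
      exact hmo hu ⟨by linarith [hp.1], by linarith [hp.2]⟩ (by linarith [hp.2])
    · simp only [HC, not_le.2 (lt_of_le_of_lt hmp h), not_le.2 h, if_false, hκ]
      exact le_rfl
  set c : ℕ → ℝ := fun k => p - p * (1 / ((k:ℝ) + 2)) with hc
  have hc1 : ∀ k, c k < p := fun k => by
    have : 0 < p * (1 / ((k:ℝ) + 2)) := mul_pos hp.1 (by positivity)
    simp only [hc]; linarith
  have hc2 : ∀ k, 0 < c k := fun k => by
    have h1 : 1 / ((k:ℝ) + 2) < 1 := by
      rw [div_lt_one (by positivity)]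
      have : (0:ℝ) ≤ k := by positivity
      linarith
    have := hp.1
    simp only [hc]; nlinarith
  have hct : Tendsto c atTop (𝓝 p) := by
    have h1 : Tendsto (fun k : ℕ => 1 / ((k:ℝ) + 2)) atTop (𝓝 0) := by
      have h2 : Tendsto (fun k : ℕ => ((k:ℝ) + 2)) atTop atTop :=
        tendsto_atTop_add_const_right _ _ tendsto_natCast_atTop_atTop
      simp only [one_div]
      exact h2.inv_tendsto_atTop
    have := (h1.const_mul p).const_sub p
    rw [mul_zero, sub_zero] at this
    exact this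
  obtain ⟨M, hM⟩ := HC_bdd (n := n) (j := j) (p := p) (m := m)
  set hk : ℕ → ℝ → ℝ := fun k u => if u < c k then HC n j p m u else κ with hhk
  have hmono : ∀ k, MonotoneOn (hk k) (Ioo 0 1) := by
    intro k u hu v hv huv
    simp only [hhk]
    by_cases h1 : v < c k
    · rw [if_pos h1, if_pos (lt_of_le_of_lt huv h1)]
      exact hmo hu hv huv
    · rw [if_neg h1]
      split_ifs with h2
      · exact hκ1 u hu
      · exact le_rfl
  have hbd : ∀ k, ∀ u ∈ Ioo (0:ℝ) 1, |hk k u| ≤ max M |κ| := by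
    intro k u hu
    simp only [hhk]
    split_ifs
    · exact (hM u (Ioo_subset_Icc_self hu)).trans (le_max_left _ _)
    · exact le_max_right _ _
  have hmem : ∀ k, ((num n j p (hk k) : ℝ), (variance (hk k) unif : ℝ))
      ∈ closure (starPairs ω n j p) := by
    intro k
    refine step3 hω hb hjn hp (hmono k) (K := max M |κ|) (κ := κ) (t0 := p)
      (hbd k) hp ?_ ?_
    · intro u hu
      simp only [hhk]
      rw [if_neg (not_lt.2 (by linarith [hu.1, hc1 k]))]
    · filter_upwards [lt_mem_nhds (hc1 k)] with u hu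
      simp only [hhk]
      rw [if_neg (not_lt.2 (le_of_lt hu)), if_neg (not_lt.2 (hc1 k).le)]
  have hconv := tendsto_num_var (n := n) (j := j) (p := p)
    (h := fun u => if u < p then HC n j p m u else κ) (hk := hk) (M := max M |κ|)
    (fun k => aemeasurable_of_monotoneOn (hmono k))
    hbd
    (by
      refine ae_of_all _ fun u => ?_
      by_cases hu : u < p
      · rw [if_pos hu]
        refine tendsto_const_nhds.congr' ?_
        filter_upwards [hct.eventually (lt_mem_nhds hu)] with k hk2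
        simp only [hhk]; rw [if_pos hk2]
      · rw [if_neg hu]
        refine tendsto_const_nhds.congr fun k => ?_
        simp only [hhk]; rw [if_neg (by linarith [hc1 k, not_lt.1 hu])])
    (by
      simp only [lt_irrefl, if_false]
      refine tendsto_const_nhds.congr fun k => ?_
      simp only [hhk]; rw [if_neg (not_lt.2 (hc1 k).le)])
  have hae : (fun u => if u < p then HC n j p m u else κ) =ᵐ[unif] HC n j p m := by
    have hne : ∀ᵐ u ∂unif, u ≠ p := by
      have : unif {p} = 0 := by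
        exact Measure.absolutelyContinuous_of_le Measure.restrict_le_self (measure_singleton p)
      exact measure_eq_zero_iff_ae_notMem.1 this
    filter_upwards [hne] with u hu
    rcases lt_trichotomy u p with h | h | h
    · rw [if_pos h]
    · exact absurd h hu
    · rw [if_neg (not_lt.2 h.le)]
      simp only [HC, not_le.2 (lt_of_le_of_lt hmp h), not_le.2 h, if_false, hκ]
  have hV : variance (fun u => if u < p then HC n j p m u else κ) unif
      = ∫ u, HC n j p m u ^ 2 ∂unif := by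
    rw [variance_congr hae, variance_eq_sub (memLp_HC (q := 2)), integral_HC hjn hm0 hmp hp]
    simp
  have hN : num n j p (fun u => if u < p then HC n j p m u else κ)
      = -(∫ u, HC n j p m u ^ 2 ∂unif) := by
    unfold num
    simp only [lt_irrefl, if_false]
    have h1 : ∫ u, (if u < p then HC n j p m u else κ) * pdfU n j u ∂unif
        = ∫ u, HC n j p m u * pdfU n j u ∂unif := by
      refine integral_congr_ae ?_
      filter_upwards [hae] with u hu
      rw [hu]
    rw [h1, integral_split3 (integrable_mul_dens (memLp_HC (q := 2)) n j) hm0 hmp hp.2.le,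
      integral_HC_sq hm0 hmp hp]
    have e1 : ∫ u in (0:ℝ)..m, HC n j p m u * pdfU n j u
        = ∫ u in (0:ℝ)..m, (-(cdfU n j m / m)) * pdfU n j u :=
      integral_congr_Ioo hm0 fun u hu => by simp [HC, hu.2.le]
    have e2 : ∫ u in m..p, HC n j p m u * pdfU n j u = ∫ u in m..p, - (pdfU n j u ^ 2) :=
      integral_congr_Ioo hmp fun u hu => by simp [HC, hu.2.le, not_le.2 hu.1]; ring
    have e3 : ∫ u in p..1, HC n j p m u * pdfU n j u = ∫ u in p..1, κ * pdfU n j u :=
      integral_congr_Ioo hp.2.le fun u hu => by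
        simp only [HC, not_le.2 (lt_of_le_of_lt hmp hu.1), not_le.2 hu.1, if_false, hκ]
    rw [e1, e2, e3, intervalIntegral.integral_const_mul, intervalIntegral.integral_const_mul,
      intervalIntegral.integral_neg, integral_dens hjn, integral_dens hjn, dist_one hjn, dist_zero,
      hκ]
    field_simp
    ring
  rw [hN, hV] at hconv
  have := mem_closure_of_tendsto hconv (Eventually.of_forall hmem)
  rwa [closure_closure] at this

end

end Pool.Agent.Lib.MP_c5814c_pr
end

section

namespace Pool.Agent.Lib.MP_c5814c_pr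

open MeasureTheory ProbabilityTheory Set Filter
open scoped ENNReal Topology

theorem exists_of_ae {a b : ℝ} (hab : a < b) {P : ℝ → Prop}
    (h : ∀ᵐ u ∂(volume.restrict (Ioo a b)), P u) : ∃ u ∈ Ioo a b, P u := by
  by_contra hn
  push Not at hn
  have h1 : ∀ᵐ u ∂(volume.restrict (Ioo a b)), u ∈ Ioo a b := ae_restrict_mem measurableSet_Ioo
  have h2 : ∀ᵐ _u ∂(volume.restrict (Ioo a b)), False := by
    filter_upwards [h, h1] with u hu hu2 using hn u hu2 hu
  rw [eventually_false_iff_eq_bot, ae_eq_bot, Measure.restrict_eq_zero] at h2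
  simp at h2
  linarith

theorem ae_unif_Ioo {a b : ℝ} (ha : 0 ≤ a) (hb : b ≤ 1) {P : ℝ → Prop} (h : ∀ᵐ u ∂unif, P u) :
    ∀ᵐ u ∂(volume.restrict (Ioo a b)), P u :=
  ae_restrict_of_ae_restrict_of_subset (Ioo_subset_Ioo ha hb) h

theorem const_of_ae {q : ℝ → ℝ} {a b c : ℝ} (hm : MonotoneOn q (Ioo a b))
    (h : ∀ᵐ u ∂(volume.restrict (Ioo a b)), q u = c) : ∀ u ∈ Ioo a b, q u = c := by
  intro u hu
  obtain ⟨v, hv, hvc⟩ := exists_of_ae hu.1
    (ae_restrict_of_ae_restrict_of_subset (Ioo_subset_Ioo le_rfl hu.2.le) h)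
  obtain ⟨w, hw, hwc⟩ := exists_of_ae hu.2
    (ae_restrict_of_ae_restrict_of_subset (Ioo_subset_Ioo hu.1.le le_rfl) h)
  have h1 := hm ⟨hv.1, hv.2.trans hu.2⟩ hu hv.2.le
  have h2 := hm hu ⟨hu.1.trans hw.1, hw.2⟩ hw.1.le
  linarith

section

variable {ω : Measure ℝ} {n : ℕ} {j : Fin n} {p : ℝ}

/-- from the closure to the biases -/
theorem ratio_le_of_closure {N V b : ℝ} (hV : 0 < V)
    (hmem : ((N : ℝ), (V : ℝ)) ∈ closure (starPairs ω n j p))
    (hb : ∀ ν ∈ starFamily ω, bias n j p ν ≤ b) : N / √V ≤ b := by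
  rw [mem_closure_iff_seq_limit] at hmem
  obtain ⟨z, hz, hlim⟩ := hmem
  have h1 : Tendsto (fun k => (z k).1) atTop (𝓝 N) := (continuous_fst.tendsto _).comp hlim
  have h2 : Tendsto (fun k => (z k).2) atTop (𝓝 V) := (continuous_snd.tendsto _).comp hlim
  have h3 : Tendsto (fun k => (z k).1 / √(z k).2) atTop (𝓝 (N / √V)) :=
    h1.div ((Real.continuous_sqrt.tendsto _).comp h2) (Real.sqrt_pos.2 hV).ne'
  refine le_of_tendsto h3 ?_
  filter_upwards [h2.eventually (lt_mem_nhds hV)] with k hk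
  obtain ⟨ν, hpr, hL, hst, hzk⟩ := hz k
  have hv : 0 < variance id ν := by rw [hzk] at hk; exact hk
  have := hb ν ⟨⟨hpr, hL, hv⟩, hst⟩
  rw [bias_eq j p ν, variance_quantile] at this
  rw [hzk]
  exact this

theorem le_ratio_of_closure {N V b : ℝ} (hV : 0 < V)
    (hmem : ((N : ℝ), (V : ℝ)) ∈ closure (starPairs ω n j p))
    (hb : ∀ ν ∈ starFamily ω, b ≤ bias n j p ν) : b ≤ N / √V := by
  rw [mem_closure_iff_seq_limit] at hmem
  obtain ⟨z, hz, hlim⟩ := hmem
  have h1 : Tendsto (fun k => (z k).1) atTop (𝓝 N) := (continuous_fst.tendsto _).comp hlim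
  have h2 : Tendsto (fun k => (z k).2) atTop (𝓝 V) := (continuous_snd.tendsto _).comp hlim
  have h3 : Tendsto (fun k => (z k).1 / √(z k).2) atTop (𝓝 (N / √V)) :=
    h1.div ((Real.continuous_sqrt.tendsto _).comp h2) (Real.sqrt_pos.2 hV).ne'
  refine ge_of_tendsto h3 ?_
  filter_upwards [h2.eventually (lt_mem_nhds hV)] with k hk
  obtain ⟨ν, hpr, hL, hst, hzk⟩ := hz k
  have hv : 0 < variance id ν := by rw [hzk] at hk; exact hk
  have := hb ν ⟨⟨hpr, hL, hv⟩, hst⟩
  rw [bias_eq j p ν, variance_quantile] at this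
  rw [hzk]
  exact this

/-- distribution-free upper bound -/
theorem bias_le (hp : p ∈ Ioo (0:ℝ) 1) (hjp : ((j : ℕ) : ℝ) ≤ (n - 1) * p) {ν : Measure ℝ}
    (hν : Proper ν) : bias n j p ν ≤ (1 - cdfU n j p) / √(p * (1 - p)) := by
  have := hν.1
  have hq := memLp_quantile hν.2.1
  have hB : 0 < ∫ u, GB n j p u ^ 2 ∂unif := by
    rw [integral_GB_sq hp]
    have : 0 < 1 - cdfU n j p := by linarith [dist_lt_one j.2 ⟨hp.1.le, hp.2⟩]
    have h2 : 0 < 1 - p := by linarith [hp.2]
    have := hp.1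
    positivity
  have h := (sharp hq (memLp_GB (q := 2)) (integral_GB hp) hB
    (num_le_GB j.2 hp hjp hq (quantile_mono ν))).1
  have hV : 0 < variance (quantile ν) unif := by rw [variance_quantile]; exact hν.2.2
  rw [bias_eq, div_le_iff₀ (Real.sqrt_pos.2 hV), ← sqrt_GB j.2 hp]
  linarith

theorem bias_lt_of_star (hω : Nice ω) (hp : p ∈ Ioo (0:ℝ) 1)
    (hjp : ((j : ℕ) : ℝ) ≤ (n - 1) * p) {ν : Measure ℝ} (hν : ν ∈ starFamily ω) :
    bias n j p ν < (1 - cdfU n j p) / √(p * (1 - p)) := by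
  have hprω := hω.prob
  refine lt_of_le_of_ne (bias_le hp hjp hν.1) fun heq => ?_
  have hpr := hν.1.1
  have hq := memLp_quantile hν.1.2.1
  have hF : 0 < 1 - cdfU n j p := by linarith [dist_lt_one j.2 ⟨hp.1.le, hp.2⟩]
  have h1p : 0 < 1 - p := by linarith [hp.2]
  have hp0 := hp.1
  have hB : 0 < ∫ u, GB n j p u ^ 2 ∂unif := by
    rw [integral_GB_sq hp]
    positivity
  have hV : 0 < variance (quantile ν) unif := by rw [variance_quantile]; exact hν.1.2.2
  have hnum : num n j p (quantile ν)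
      = √(variance (quantile ν) unif) * √(∫ u, GB n j p u ^ 2 ∂unif) := by
    rw [sqrt_GB j.2 hp, ← heq, bias_eq]
    field_simp
  have hae := (sharp hq (memLp_GB (q := 2)) (integral_GB hp) hB
    (num_le_GB j.2 hp hjp hq (quantile_mono ν))).2 hnum
  set m0 := ∫ u, quantile ν u ∂unif
  set c := num n j p (quantile ν) / ∫ u, GB n j p u ^ 2 ∂unif with hc
  have hcpos : 0 < c := by
    rw [hc, hnum]
    exact div_pos (mul_pos (Real.sqrt_pos.2 hV) (Real.sqrt_pos.2 hB)) hB
  set α := m0 + c * (-((1 - cdfU n j p) / p)) with hα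
  set β := m0 + c * ((1 - cdfU n j p) / (1 - p)) with hβ
  have hαβ : α < β := by
    have h1 : 0 < c * ((1 - cdfU n j p) / p) := by positivity
    have h2 : 0 < c * ((1 - cdfU n j p) / (1 - p)) := by positivity
    rw [hα, hβ]; linarith
  have hqα : ∀ u ∈ Ioo 0 p, quantile ν u = α := by
    refine const_of_ae ((quantile_mono ν).mono (Ioo_subset_Ioo le_rfl hp.2.le)) ?_
    filter_upwards [ae_unif_Ioo (a := 0) (b := p) le_rfl hp.2.le hae,
      ae_restrict_mem measurableSet_Ioo] with u hu hu2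
    rw [hu, hα]; simp [GB, hu2.2.le]
  have hqβ : ∀ u ∈ Ioo p 1, quantile ν u = β := by
    refine const_of_ae ((quantile_mono ν).mono (Ioo_subset_Ioo hp.1.le le_rfl)) ?_
    filter_upwards [ae_unif_Ioo (a := p) (b := 1) hp.1.le le_rfl hae,
      ae_restrict_mem measurableSet_Ioo] with u hu hu2
    rw [hu, hβ]; simp [GB, not_le.2 hu2.1]
  have hFx : ∀ x, α ≤ x → x < β → cdf ν x = p := by
    intro x hx1 hx2
    refine le_antisymm ?_ ?_
    · refine le_of_forall_gt_imp_ge_of_dense fun u hu => ?_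
      rcases lt_or_ge u 1 with h | h
      · have h3 : x < quantile ν u := by rw [hqβ u ⟨hu, h⟩]; exact hx2
        exact ((lt_quantile_iff ν (hp0.trans hu) h x).1 h3).le
      · exact (cdf_le_one ν x).trans h
    · refine le_of_forall_lt_imp_le_of_dense fun u hu => ?_
      rcases le_or_gt u 0 with h | h
      · exact h.trans (cdf_nonneg ν x)
      · have h3 : quantile ν u ≤ x := by rw [hqα u ⟨h, hu⟩]; exact hx1
        exact (quantile_le_iff ν h (hu.trans hp.2) x).1 h3
  have hleast : IsLeast {x | 0 < cdf ν x} α := by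
    constructor
    · change 0 < cdf ν α
      rw [hFx α le_rfl hαβ]; exact hp0
    · intro x hx
      have hx' : 0 < cdf ν x := hx
      have hu : min (cdf ν x) (p / 2) ∈ Ioo 0 p :=
        ⟨lt_min hx' (by linarith), lt_of_le_of_lt (min_le_right _ _) (by linarith)⟩
      have h3 := (quantile_le_iff ν hu.1 (hu.2.trans hp.2) x).2 (min_le_left _ _)
      rwa [hqα _ hu] at h3
  obtain ⟨hb, -, hmon⟩ := hν.2
  rw [hleast.csInf_eq] at hmon
  have hx1 : α < α + (β - α) / 3 ∧ α + (β - α) / 3 < β := ⟨by linarith, by linarith⟩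
  have hx2 : α < α + 2 * (β - α) / 3 ∧ α + 2 * (β - α) / 3 < β := ⟨by linarith, by linarith⟩
  have e1 := hFx _ hx1.1.le hx1.2
  have e2 := hFx _ hx2.1.le hx2.2
  have h4 := hmon (show α + (β - α) / 3 ∈ {x | α < x ∧ cdf ν x < 1} from
      ⟨hx1.1, by rw [e1]; exact hp.2⟩)
    (show α + 2 * (β - α) / 3 ∈ {x | α < x ∧ cdf ν x < 1} from ⟨hx2.1, by rw [e2]; exact hp.2⟩)
    (by linarith)
  simp only [e1, e2] at h4
  have h5 : 0 < quantile ω p - sInf {y | 0 < cdf ω y} :=
    sub_pos.2 (hω.inf_lt_quantile hb hp)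
  rw [div_le_div_iff₀ (by linarith) (by linarith)] at h4
  nlinarith

/-- distribution-free lower bound, never attained -/
theorem lt_bias (hj : (j : ℕ) + 1 < n) (hp : p ∈ Ioo (0:ℝ) 1)
    (hjp : ((j : ℕ) : ℝ) ≤ (n - 1) * p) {s m : ℝ} (hs : IsSwitch n j s) (hm : m = min s p)
    {ν : Measure ℝ} (hν : Proper ν) : -√(∫ u, HC n j p m u ^ 2 ∂unif) < bias n j p ν := by
  have hpr := hν.1
  have hq := memLp_quantile hν.2.1
  have hs0 := switch_nonneg hs
  have hm0 : 0 ≤ m := by rw [hm]; exact le_min hs0 hp.1.le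
  have hmp : m ≤ p := by rw [hm]; exact min_le_right _ _
  have hB := integral_HC_sq_pos (n := n) (j := j) j.2 hm0 hmp hp
  have hkey := neg_num_le_HC hj hs hp hjp hm hq (quantile_mono ν)
  have hsh := sharp hq (memLp_HC (q := 2)) (integral_HC j.2 hm0 hmp hp) hB hkey.1
  have hV : 0 < variance (quantile ν) unif := by rw [variance_quantile]; exact hν.2.2
  have hle : -√(∫ u, HC n j p m u ^ 2 ∂unif) ≤ bias n j p ν := by
    rw [bias_eq, le_div_iff₀ (Real.sqrt_pos.2 hV)]
    linarith [hsh.1]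
  refine lt_of_le_of_ne hle fun heq => ?_
  have hnum : -num n j p (quantile ν)
      = √(variance (quantile ν) unif) * √(∫ u, HC n j p m u ^ 2 ∂unif) := by
    rw [bias_eq, eq_div_iff (Real.sqrt_pos.2 hV).ne'] at heq
    linarith
  have hae := hsh.2 hnum
  -- equality in the key estimate
  have hT : -num n j p (quantile ν) = ∫ u, quantile ν u * HC n j p m u ∂unif := by
    refine le_antisymm hkey.1 ?_
    have := (sharp hq (memLp_HC (q := 2)) (integral_HC j.2 hm0 hmp hp) hB
      (le_refl (∫ u, quantile ν u * HC n j p m u ∂unif))).1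
    rw [hnum]; exact this
  have hqp := hkey.2 hT
  set m0 := ∫ u, quantile ν u ∂unif
  set c := -num n j p (quantile ν) / ∫ u, HC n j p m u ^ 2 ∂unif with hc
  have hcpos : 0 < c := by
    rw [hc, hnum]
    exact div_pos (mul_pos (Real.sqrt_pos.2 hV) (Real.sqrt_pos.2 hB)) hB
  have hF : 0 < cdfU n j p := dist_pos j.2 ⟨hp.1, hp.2.le⟩
  have h1p : 0 < 1 - p := by linarith [hp.2]
  obtain ⟨u1, hu1, e1, e2⟩ := exists_of_ae hp.2
    (hqp.and (ae_unif_Ioo (a := p) (b := 1) hp.1.le le_rfl hae))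
  have hgt : m0 < quantile ν p := by
    have h3 : HC n j p m u1 = cdfU n j p / (1 - p) := by
      simp only [HC, not_le.2 (lt_of_le_of_lt hmp hu1.1), not_le.2 hu1.1, if_false]
    rw [← e1, e2, h3]
    have : 0 < c * (cdfU n j p / (1 - p)) := by positivity
    linarith
  obtain ⟨v, hv0, hvp, hv⟩ := exists_lt_quantile ν hp.1 hp.2 hgt
  obtain ⟨u2, hu2, e3⟩ := exists_of_ae hvp
    (ae_unif_Ioo (a := v) (b := p) hv0.le hp.2.le hae)
  have h4 := hv u2 hu2.1 (hu2.2.trans hp.2)
  have h5 : HC n j p m u2 ≤ 0 := by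
    unfold HC
    split_ifs with h6 h7
    · have : 0 ≤ cdfU n j m / m := by
        rcases eq_or_lt_of_le hm0 with h | h
        · rw [← h]; simp
        · exact div_nonneg (dist_pos j.2 ⟨h, by linarith [hp.2]⟩).le h.le
      linarith
    · have := dens_nonneg n j (show 0 ≤ u2 by linarith [hu2.1]) (show u2 ≤ 1 by
        linarith [hu2.2, hp.2])
      linarith
    · exact absurd hu2.2.le h7
  have h6 : c * HC n j p m u2 ≤ 0 := mul_nonpos_of_nonneg_of_nonpos hcpos.le h5
  linarith

/-- The bounds over the star-ordered family. -/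
theorem star_upper (hω : Nice ω) (hb : BddBelow {y | 0 < cdf ω y}) (hp : p ∈ Ioo (0:ℝ) 1)
    (hjp : ((j : ℕ) : ℝ) ≤ (n - 1) * p) :
    IsLUB (bias n j p '' starFamily ω) ((1 - cdfU n j p) / √(p * (1 - p))) ∧
    ∀ ν ∈ starFamily ω, bias n j p ν < (1 - cdfU n j p) / √(p * (1 - p)) := by
  refine ⟨⟨?_, ?_⟩, fun ν hν => bias_lt_of_star hω hp hjp hν⟩
  · rintro _ ⟨ν, hν, rfl⟩
    exact bias_le hp hjp hν.1
  · intro b hb'
    refine ratio_le_of_closure (mul_pos hp.1 (by linarith [hp.2]))
      (upper_mem_closure hω hb j.2 hp) fun ν hν => hb' ⟨ν, hν, rfl⟩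

theorem star_lower (hω : Nice ω) (hb : BddBelow {y | 0 < cdf ω y}) (hj : (j : ℕ) + 1 < n)
    (hp : p ∈ Ioo (0:ℝ) 1)
    (hjp : ((j : ℕ) : ℝ) ≤ (n - 1) * p) {s m : ℝ} (hs : IsSwitch n j s) (hm : m = min s p) :
    IsGLB (bias n j p '' starFamily ω) (-√(cdfU n j m ^ 2 / m + (∫ u in m..p, pdfU n j u ^ 2)
      + cdfU n j p ^ 2 / (1 - p))) ∧
    ∀ ν ∈ starFamily ω, -√(cdfU n j m ^ 2 / m + (∫ u in m..p, pdfU n j u ^ 2)
      + cdfU n j p ^ 2 / (1 - p)) < bias n j p ν := by
  have hs0 := switch_nonneg hs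
  have hm0 : 0 ≤ m := by rw [hm]; exact le_min hs0 hp.1.le
  have hmp : m ≤ p := by rw [hm]; exact min_le_right _ _
  have hB := integral_HC_sq_pos (n := n) (j := j) j.2 hm0 hmp hp
  rw [← integral_HC_sq hm0 hmp hp]
  refine ⟨⟨?_, ?_⟩, fun ν hν => lt_bias hj hp hjp hs hm hν.1⟩
  · rintro _ ⟨ν, hν, rfl⟩
    exact (lt_bias hj hp hjp hs hm hν.1).le
  · intro b hb'
    have h1 := le_ratio_of_closure hB
      (lower_mem_closure hω hb hj hs hp hm) fun ν hν => hb' ⟨ν, hν, rfl⟩
    have h2 : -(∫ u, HC n j p m u ^ 2 ∂unif) / √(∫ u, HC n j p m u ^ 2 ∂unif)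
        = -√(∫ u, HC n j p m u ^ 2 ∂unif) := by
      rw [neg_div, Real.div_sqrt]
    rwa [h2] at h1

end

end Pool.Agent.Lib.MP_c5814c_pr
end
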