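import Pool.Agent.Lib.MP_c5814c_pr.Conv3

section

namespace Pool.Agent.Lib.MP_c5814c_pr

open MeasureTheory ProbabilityTheory Set Filter
open scoped ENNReal Topology

/-- monotonicity from the sign of the derivative on a segment -/
theorem mono_of_deriv {F F' : ℝ → ℝ} {a b : ℝ} (hab : a ≤ b)
    (h : ∀ x ∈ Icc a b, HasDerivAt F (F' x) x) (h' : ∀ x ∈ Icc a b, 0 ≤ F' x) : F a ≤ F b := by
  have := monotoneOn_of_deriv_nonneg (convex_Icc a b)
    (fun x hx => (h x hx).continuousAt.continuousWithinAt)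
    (fun x hx => (h x (interior_subset hx)).differentiableAt.differentiableWithinAt)
    (fun x hx => by rw [(h x (interior_subset hx)).deriv]; exact h' x (interior_subset hx))
  exact this ⟨le_rfl, hab⟩ ⟨hab, le_rfl⟩ hab

theorem strictMono_of_deriv {F F' : ℝ → ℝ} {a b : ℝ} (hab : a < b)
    (h : ∀ x ∈ Icc a b, HasDerivAt F (F' x) x) (h' : ∀ x ∈ Icc a b, 0 < F' x) : F a < F b := by
  have := strictMonoOn_of_deriv_pos (convex_Icc a b)
    (fun x hx => (h x hx).continuousAt.continuousWithinAt)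
    (fun x hx => by rw [(h x (interior_subset hx)).deriv]; exact h' x (interior_subset hx))
  exact this ⟨le_rfl, hab.le⟩ ⟨hab.le, le_rfl⟩ hab

section

variable {ω : Measure ℝ} {n j : ℕ} {p : ℝ}

theorem Icc_sub {ω : Measure ℝ} {s t : ℝ} (hs : s ∈ {y | 0 < cdf ω y ∧ cdf ω y < 1})
    (ht : t ∈ {y | 0 < cdf ω y ∧ cdf ω y < 1}) :
    ∀ x ∈ Icc s t, x ∈ {y | 0 < cdf ω y ∧ cdf ω y < 1} := fun _ hx =>
  (monotone_cdf_ordConnected ω).out hs ht hx

theorem exists_left (hω : Nice ω) {t : ℝ} (ht : t ∈ {y | 0 < cdf ω y ∧ cdf ω y < 1}) :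
    ∃ s ∈ {y | 0 < cdf ω y ∧ cdf ω y < 1}, s < t := by
  have h : cdf ω t / 2 ∈ Ioo (0:ℝ) 1 := ⟨by linarith [ht.1], by linarith [ht.1, ht.2]⟩
  refine ⟨quantile ω (cdf ω t / 2), hω.quantile_mem h, ?_⟩
  have := hω.quantile_strictMono h ht (by linarith [ht.1])
  rwa [hω.quantile_cdf ht] at this

theorem gap_mono (hω : Nice ω) {t0 : ℝ} (h0 : MemLp (trunc ω t0) 2 unif) {s t : ℝ}
    (hs : s ∈ {y | 0 < cdf ω y ∧ cdf ω y < 1}) (ht : t ∈ {y | 0 < cdf ω y ∧ cdf ω y < 1})
    (hst : s < t) : s - mn ω s < t - mn ω t := by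
  refine strictMono_of_deriv (F := fun x => x - mn ω x) (F' := fun x => cdf ω x) hst
    (fun x hx => ?_) fun x hx => (Icc_sub hs ht x hx).1
  refine ((hasDerivAt_id' x).fun_sub (hasDerivAt_mn hω h0 (Icc_sub hs ht x hx))).congr_deriv ?_
  ring

theorem gap_pos (hω : Nice ω) {t0 : ℝ} (h0 : MemLp (trunc ω t0) 2 unif) {t : ℝ}
    (ht : t ∈ {y | 0 < cdf ω y ∧ cdf ω y < 1}) : 0 < t - mn ω t := by
  obtain ⟨s, hs, hst⟩ := exists_left hω ht
  refine lt_of_le_of_lt ?_ (gap_mono hω h0 hs ht hst)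
  have h1 : mn ω s ≤ ∫ _u, s ∂unif := by
    refine integral_mono ((trunc_memLp hω h0 s).integrable one_le_two) (integrable_const _) ?_
    intro u
    exact min_le_right _ _
  simp at h1
  linarith

theorem vr_mono (hω : Nice ω) {t0 : ℝ} (h0 : MemLp (trunc ω t0) 2 unif) {s t : ℝ}
    (hs : s ∈ {y | 0 < cdf ω y ∧ cdf ω y < 1}) (ht : t ∈ {y | 0 < cdf ω y ∧ cdf ω y < 1})
    (hst : s < t) : vr ω s < vr ω t := by
  refine strictMono_of_deriv (F := vr ω) (F' := fun x => 2 * (x - mn ω x) * (1 - cdf ω x)) hst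
    (fun x hx => hasDerivAt_vr hω h0 (Icc_sub hs ht x hx)) fun x hx => ?_
  have h1 := gap_pos hω h0 (Icc_sub hs ht x hx)
  have h2 : 0 < 1 - cdf ω x := by linarith [(Icc_sub hs ht x hx).2]
  positivity

theorem vr_pos (hω : Nice ω) {t0 : ℝ} (h0 : MemLp (trunc ω t0) 2 unif) {t : ℝ}
    (ht : t ∈ {y | 0 < cdf ω y ∧ cdf ω y < 1}) : 0 < vr ω t := by
  obtain ⟨s, hs, hst⟩ := exists_left hω ht
  refine lt_of_le_of_lt ?_ (vr_mono hω h0 hs ht hst)
  rw [(vr_eq hω h0 s).1]
  exact variance_nonneg _ _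

theorem mn_mono (hω : Nice ω) {t0 : ℝ} (h0 : MemLp (trunc ω t0) 2 unif) {s t : ℝ}
    (hs : s ∈ {y | 0 < cdf ω y ∧ cdf ω y < 1}) (ht : t ∈ {y | 0 < cdf ω y ∧ cdf ω y < 1})
    (hst : s < t) : mn ω s < mn ω t := by
  refine strictMono_of_deriv (F := mn ω) (F' := fun x => 1 - cdf ω x) hst
    (fun x hx => hasDerivAt_mn hω h0 (Icc_sub hs ht x hx)) fun x hx => ?_
  linarith [(Icc_sub hs ht x hx).2]

/-- `E1` : increments of the expected order statistic against increments of the mean -/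
theorem en_sub_le (hω : Nice ω) {t0 : ℝ} (h0 : MemLp (trunc ω t0) 2 unif) (hj : j < n) {s t d : ℝ}
    (hs : s ∈ {y | 0 < cdf ω y ∧ cdf ω y < 1}) (ht : t ∈ {y | 0 < cdf ω y ∧ cdf ω y < 1})
    (hst : s ≤ t) (hd : ∀ w ∈ Ico (cdf ω s) 1, 1 - cdfU n j w ≤ d * (1 - w)) :
    en ω n j t - en ω n j s ≤ d * (mn ω t - mn ω s) := by
  have h := mono_of_deriv (F := fun x => d * mn ω x - en ω n j x)
    (F' := fun x => d * (1 - cdf ω x) - (1 - cdfU n j (cdf ω x))) hst
    (fun x hx => (((hasDerivAt_mn hω h0 (Icc_sub hs ht x hx)).const_mul d).fun_sub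
      (hasDerivAt_en hω h0 hj (Icc_sub hs ht x hx))))
    (fun x hx => by
      have := hd (cdf ω x) ⟨monotone_cdf ω hx.1, (Icc_sub hs ht x hx).2⟩
      linarith)
  linarith

theorem en_mono (hω : Nice ω) {t0 : ℝ} (h0 : MemLp (trunc ω t0) 2 unif) (hj : j < n) {s t : ℝ}
    (hs : s ∈ {y | 0 < cdf ω y ∧ cdf ω y < 1}) (ht : t ∈ {y | 0 < cdf ω y ∧ cdf ω y < 1})
    (hst : s ≤ t) : en ω n j s ≤ en ω n j t :=
  mono_of_deriv (F := en ω n j) (F' := fun x => 1 - cdfU n j (cdf ω x)) hst
    (fun x hx => hasDerivAt_en hω h0 hj (Icc_sub hs ht x hx))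
    (fun x hx => by
      have h1 := Icc_sub hs ht x hx
      linarith [dist_lt_one hj ⟨h1.1.le, h1.2⟩])

/-- `E2` -/
theorem vr_sub_ge (hω : Nice ω) {t0 : ℝ} (h0 : MemLp (trunc ω t0) 2 unif) {s t : ℝ}
    (hs : s ∈ {y | 0 < cdf ω y ∧ cdf ω y < 1}) (ht : t ∈ {y | 0 < cdf ω y ∧ cdf ω y < 1})
    (hst : s ≤ t) : 2 * (s - mn ω s) * (mn ω t - mn ω s) ≤ vr ω t - vr ω s := by
  have h := mono_of_deriv (F := fun x => vr ω x - 2 * (s - mn ω s) * mn ω x)
    (F' := fun x => 2 * (x - mn ω x) * (1 - cdf ω x) - 2 * (s - mn ω s) * (1 - cdf ω x)) hst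
    (fun x hx => (hasDerivAt_vr hω h0 (Icc_sub hs ht x hx)).fun_sub
      ((hasDerivAt_mn hω h0 (Icc_sub hs ht x hx)).const_mul _))
    (fun x hx => by
      have h1 := Icc_sub hs ht x hx
      have h2 : s - mn ω s ≤ x - mn ω x := by
        rcases eq_or_lt_of_le hx.1 with h | h
        · rw [h]
        · exact (gap_mono hω h0 hs h1 h).le
      have h3 : 0 < 1 - cdf ω x := by linarith [h1.2]
      have := mul_le_mul_of_nonneg_right h2 h3.le
      linarith)
  linarith

/-- `E3` -/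
theorem vr_ge_sq (hω : Nice ω) {t0 : ℝ} (h0 : MemLp (trunc ω t0) 2 unif) {s t : ℝ}
    (hs : s ∈ {y | 0 < cdf ω y ∧ cdf ω y < 1}) (ht : t ∈ {y | 0 < cdf ω y ∧ cdf ω y < 1})
    (hst : s ≤ t) : cdf ω s / (1 - cdf ω s) * (mn ω t - mn ω s) ^ 2 ≤ vr ω t := by
  set c := cdf ω s / (1 - cdf ω s) with hc
  have hs1 : 0 < 1 - cdf ω s := by linarith [hs.2]
  have hc0 : 0 < c := div_pos hs.1 hs1
  have hin : ∀ x ∈ Icc s t, c * (mn ω x - mn ω s) ≤ x - mn ω x := by
    intro x hx
    have hxI := Icc_sub hs ht x hx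
    have h := mono_of_deriv (F := fun x => (x - mn ω x) - c * mn ω x)
      (F' := fun x => (1 - (1 - cdf ω x)) - c * (1 - cdf ω x)) hx.1
      (fun y hy => ((hasDerivAt_id' y).fun_sub (hasDerivAt_mn hω h0 (Icc_sub hs hxI y hy))).fun_sub
        ((hasDerivAt_mn hω h0 (Icc_sub hs hxI y hy)).const_mul c))
      (fun y hy => by
        have h1 := monotone_cdf ω hy.1
        have h2 : c * (1 - cdf ω y) ≤ c * (1 - cdf ω s) :=
          mul_le_mul_of_nonneg_left (by linarith) hc0.le
        have h3 : c * (1 - cdf ω s) = cdf ω s := by rw [hc]; field_simp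
        linarith)
    have := (gap_pos hω h0 hs).le
    linarith
  have h := mono_of_deriv (F := fun x => vr ω x - c * (mn ω x - mn ω s) ^ 2)
    (F' := fun x => 2 * (x - mn ω x) * (1 - cdf ω x)
      - c * (2 * (mn ω x - mn ω s) * (1 - cdf ω x))) hst
    (fun x hx => by
      refine ((hasDerivAt_vr hω h0 (Icc_sub hs ht x hx)).fun_sub
        ((((hasDerivAt_mn hω h0 (Icc_sub hs ht x hx)).sub_const (mn ω s)).fun_pow 2).const_mul c)
        ).congr_deriv ?_
      norm_num)
    (fun x hx => by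
      have h1 := Icc_sub hs ht x hx
      have h3 : 0 < 1 - cdf ω x := by linarith [h1.2]
      have := mul_le_mul_of_nonneg_right (hin x hx) h3.le
      nlinarith)
  simp only [sub_self] at h
  have := (vr_pos hω h0 hs).le
  nlinarith

theorem tail_le (hj : j < n) {d a : ℝ} (ha : 0 ≤ a) (hd : ∀ u ∈ Ioo a 1, pdfU n j u ≤ d) :
    ∀ w ∈ Ico a 1, 1 - cdfU n j w ≤ d * (1 - w) := by
  intro w hw
  have h := integral_mono_Ioo (f := pdfU n j) (g := fun _ => d) hw.2.le
    ((continuous_dens n j).intervalIntegrable _ _) (interval_const _ _ _)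
    (fun u hu => hd u ⟨by linarith [hu.1, hw.1], hu.2⟩)
  rw [integral_dens hj, dist_one hj] at h
  simp only [intervalIntegral.integral_const, smul_eq_mul] at h
  linarith

theorem dens_one (hj : j + 1 < n) : pdfU n j 1 = 0 := by
  have : n - 1 - j ≠ 0 := by omega
  simp [pdfU, this]

/-- The ratio is not monotone near the right endpoint. -/
theorem not_mono (hω : Nice ω) {t0 : ℝ} (h0 : MemLp (trunc ω t0) 2 unif) (hj : j + 1 < n)
    (hp : p ∈ Ioo (0:ℝ) 1) (hjp : (j : ℝ) ≤ (n - 1) * p) {t1 : ℝ}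
    (ht1 : t1 ∈ {y | 0 < cdf ω y ∧ cdf ω y < 1}) (hpt : quantile ω p < t1)
    (hN : 0 < en ω n j t1 - quantile ω p) :
    ∃ s ∈ {y | 0 < cdf ω y ∧ cdf ω y < 1}, ∃ t ∈ {y | 0 < cdf ω y ∧ cdf ω y < 1},
      t1 ≤ s ∧ s < t ∧ (en ω n j t - quantile ω p) / √(vr ω t)
        < (en ω n j s - quantile ω p) / √(vr ω s) := by
  have hjn : j < n := by omega
  have hprω := hω.prob
  by_contra hcon
  push Not at hcon
  set yp := quantile ω p with hyp
  set N := fun t => en ω n j t - yp with hNdef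
  have hV := fun t (ht : t ∈ {y | 0 < cdf ω y ∧ cdf ω y < 1}) => vr_pos hω h0 ht
  set r := N t1 / √(vr ω t1) with hr
  have hr0 : 0 < r := div_pos hN (Real.sqrt_pos.2 (hV t1 ht1))
  obtain ⟨M, hM0, hM⟩ := dens_bdd n j
  have hMt : ∀ a, 0 ≤ a → ∀ w ∈ Ico a 1, 1 - cdfU n j w ≤ M * (1 - w) := fun a ha =>
    tail_le hjn ha fun u hu => (le_abs_self _).trans (hM u ⟨by linarith [hu.1], hu.2.le⟩)
  -- N is at least r √V to the right of t1
  have hNr : ∀ t ∈ {y | 0 < cdf ω y ∧ cdf ω y < 1}, t1 ≤ t → r * √(vr ω t) ≤ N t := by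
    intro t ht htt
    have h1 : r ≤ N t / √(vr ω t) := by
      rcases eq_or_lt_of_le htt with h | h
      · rw [← h]
      · exact hcon t1 ht1 t ht le_rfl h
    rwa [le_div_iff₀ (Real.sqrt_pos.2 (hV t ht))] at h1
  -- choose s0
  obtain ⟨w0, hw0, hw01, hw0M⟩ : ∃ w0, cdf ω t1 < w0 ∧ w0 < 1 ∧
      M * √((1 - w0) / w0) ≤ r / 2 := by
    have h1 : Tendsto (fun w : ℝ => M * √((1 - w) / w)) (𝓝[<] 1) (𝓝 0) := by
      have h2 : ContinuousAt (fun w : ℝ => M * √((1 - w) / w)) 1 := by
        refine continuousAt_const.mul ?_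
        refine Real.continuous_sqrt.continuousAt.comp ?_
        exact (continuousAt_const.sub continuousAt_id).div continuousAt_id one_ne_zero
      have h3 := h2.tendsto
      simp only [sub_self, zero_div, Real.sqrt_zero, mul_zero] at h3
      exact h3.mono_left nhdsWithin_le_nhds
    have h2 := h1.eventually (gt_mem_nhds (show (0:ℝ) < r / 2 by linarith))
    have h3 : ∀ᶠ w in 𝓝[<] (1:ℝ), w ∈ Ioo (cdf ω t1) 1 := Ioo_mem_nhdsLT ht1.2
    obtain ⟨w, hw1, hw2⟩ := (h2.and h3).exists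
    exact ⟨w, hw2.1, hw2.2, hw1.le⟩
  have hw0' : w0 ∈ Ioo (0:ℝ) 1 := ⟨ht1.1.trans hw0, hw01⟩
  set s0 := quantile ω w0 with hs0
  have hs0I := hω.quantile_mem hw0'
  have hWs0 : cdf ω s0 = w0 := hω.cdf_quantile hw0'
  have ht1s0 : t1 < s0 := by
    have := hω.quantile_strictMono ht1 hw0' hw0
    rwa [hω.quantile_cdf ht1] at this
  have hw0p : 0 < 1 - w0 := by linarith
  -- increments of the mean are controlled by √V
  have hG : ∀ t ∈ {y | 0 < cdf ω y ∧ cdf ω y < 1}, s0 ≤ t →
      mn ω t - mn ω s0 ≤ √((1 - w0) / w0) * √(vr ω t) := by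
    intro t ht hst
    have h1 := vr_ge_sq hω h0 hs0I ht hst
    rw [hWs0] at h1
    have h2 : (mn ω t - mn ω s0) ^ 2 ≤ (1 - w0) / w0 * vr ω t := by
      have h3 : (1 - w0) / w0 * (w0 / (1 - w0) * (mn ω t - mn ω s0) ^ 2)
          = (mn ω t - mn ω s0) ^ 2 := by
        have := hw0'.1.ne'
        field_simp
      rw [← h3]
      exact mul_le_mul_of_nonneg_left h1 (div_nonneg hw0p.le hw0'.1.le)
    rw [← Real.sqrt_mul (div_nonneg hw0p.le hw0'.1.le)]
    exact Real.le_sqrt_of_sq_le h2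
  -- V is bounded
  set B := 2 * N s0 / r with hB
  have hNs0 : 0 < N s0 := by
    have := hNr s0 hs0I ht1s0.le
    exact lt_of_lt_of_le (mul_pos hr0 (Real.sqrt_pos.2 (hV s0 hs0I))) this
  have hB0 : 0 < B := by rw [hB]; positivity
  have hVB : ∀ t ∈ {y | 0 < cdf ω y ∧ cdf ω y < 1}, s0 ≤ t → √(vr ω t) ≤ B := by
    intro t ht hst
    have h1 := hNr t ht (ht1s0.le.trans hst)
    have h2 := en_sub_le (n := n) (j := j) hω h0 hjn hs0I ht hst (hMt _ hs0I.1.le)
    have h3 := hG t ht hst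
    have h4 : M * (mn ω t - mn ω s0) ≤ r / 2 * √(vr ω t) := by
      calc M * (mn ω t - mn ω s0) ≤ M * (√((1 - w0) / w0) * √(vr ω t)) :=
            mul_le_mul_of_nonneg_left h3 hM0.le
        _ = (M * √((1 - w0) / w0)) * √(vr ω t) := by ring
        _ ≤ r / 2 * √(vr ω t) := mul_le_mul_of_nonneg_right hw0M (Real.sqrt_nonneg _)
    have h5 : r * √(vr ω t) ≤ N s0 + r / 2 * √(vr ω t) := by
      have : N t = N s0 + (en ω n j t - en ω n j s0) := by simp only [hNdef]; ring
      linarith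
    rw [hB, le_div_iff₀ hr0]
    linarith
  set C := √((1 - w0) / w0) * B with hC
  have hC0 : 0 ≤ C := mul_nonneg (Real.sqrt_nonneg _) hB0.le
  have hGC : ∀ t ∈ {y | 0 < cdf ω y ∧ cdf ω y < 1}, s0 ≤ t → mn ω t - mn ω s0 ≤ C :=
    fun t ht hst => (hG t ht hst).trans
      (mul_le_mul_of_nonneg_left (hVB t ht hst) (Real.sqrt_nonneg _))
  set D := N s0 + M * C with hD
  have hND : ∀ t ∈ {y | 0 < cdf ω y ∧ cdf ω y < 1}, s0 ≤ t → N t ≤ D := by
    intro t ht hst
    have h2 := en_sub_le (n := n) (j := j) hω h0 hjn hs0I ht hst (hMt _ hs0I.1.le)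
    have h3 := mul_le_mul_of_nonneg_left (hGC t ht hst) hM0.le
    have : N t = N s0 + (en ω n j t - en ω n j s0) := by simp only [hNdef]; ring
    linarith
  -- target quantity
  have hg1 := gap_pos hω h0 ht1
  set E := 2 * (N t1) ^ 2 * (t1 - mn ω t1) with hE
  have hE0 : 0 < E := by
    rw [hE]
    have : 0 < N t1 := hN
    positivity
  set L := B ^ 2 * (2 * D + M * C) with hL
  have hD0 : 0 < D := by rw [hD]; positivity
  have hL0 : 0 < L := by rw [hL]; positivity
  obtain ⟨w1, hw1, hw11, hwf⟩ : ∃ w1, max w0 p < w1 ∧ w1 < 1 ∧ pdfU n j w1 * L < E := by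
    have h1 : Tendsto (fun w : ℝ => pdfU n j w * L) (𝓝[<] 1) (𝓝 0) := by
      have h2 : ContinuousAt (fun w : ℝ => pdfU n j w * L) 1 :=
        (continuous_dens n j).continuousAt.mul continuousAt_const
      have h3 := h2.tendsto
      simp only [dens_one hj, zero_mul] at h3
      exact h3.mono_left nhdsWithin_le_nhds
    have h2 := h1.eventually (gt_mem_nhds hE0)
    have h3 : ∀ᶠ w in 𝓝[<] (1:ℝ), w ∈ Ioo (max w0 p) 1 := Ioo_mem_nhdsLT (max_lt hw01 hp.2)
    obtain ⟨w, hw1, hw2⟩ := (h2.and h3).exists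
    exact ⟨w, hw2.1, hw2.2, hw1⟩
  have hw1' : w1 ∈ Ioo (0:ℝ) 1 := ⟨hw0'.1.trans (lt_of_le_of_lt (le_max_left _ _) hw1), hw11⟩
  set s := quantile ω w1 with hs
  have hsI := hω.quantile_mem hw1'
  have hWs : cdf ω s = w1 := hω.cdf_quantile hw1'
  have hs0s : s0 < s := hω.quantile_strictMono hw0' hw1' (lt_of_le_of_lt (le_max_left _ _) hw1)
  set w2 := (w1 + 1) / 2 with hw2
  have hw2' : w2 ∈ Ioo (0:ℝ) 1 := ⟨by linarith [hw1'.1], by linarith⟩
  set T := quantile ω w2 with hT
  have hTI := hω.quantile_mem hw2'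
  have hsT : s < T := hω.quantile_strictMono hw1' hw2' (by linarith)
  set δ := pdfU n j w1 with hδ
  have hδ0 : 0 ≤ δ := dens_nonneg n j hw1'.1.le hw1'.2.le
  have hδM : δ ≤ M := (le_abs_self _).trans (hM w1 ⟨hw1'.1.le, hw1'.2.le⟩)
  have hpw1 : p < w1 := lt_of_le_of_lt (le_max_right _ _) hw1
  have hδt : ∀ w ∈ Ico (cdf ω s) 1, 1 - cdfU n j w ≤ δ * (1 - w) := by
    rw [hWs]
    refine tail_le hjn hw1'.1.le fun u hu => ?_
    exact dens_anti hjn hp.1.le hjp ⟨hpw1.le, hw11.le⟩ ⟨by linarith [hu.1], hu.2.le⟩ hu.1.le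
  have hmono := hcon s hsI T hTI (ht1s0.trans hs0s).le hsT
  set G := mn ω T - mn ω s with hGdef
  have hG0 : 0 < G := by
    have := mn_mono hω h0 hsI hTI hsT
    rw [hGdef]; linarith
  have hGC' : G ≤ C := by
    have h1 := hGC T hTI (hs0s.trans hsT).le
    have h2 := mn_mono hω h0 hs0I hsI hs0s
    rw [hGdef]; linarith
  have e1 : N T ≤ N s + δ * G := by
    have := en_sub_le (n := n) (j := j) hω h0 hjn hsI hTI hsT.le hδt
    have h2 : N T = N s + (en ω n j T - en ω n j s) := by simp only [hNdef]; ring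
    linarith
  have e2 : vr ω s + 2 * (s - mn ω s) * G ≤ vr ω T := by
    have := vr_sub_ge hω h0 hsI hTI hsT.le
    linarith
  have hVs := hV s hsI
  have hVT := hV T hTI
  have hNs : N t1 ≤ N s := by
    have := en_mono (n := n) (j := j) hω h0 hjn ht1 hsI (ht1s0.trans hs0s).le
    simp only [hNdef]; linarith
  have hNt1 : 0 < N t1 := hN
  have hNs0' : 0 < N s := lt_of_lt_of_le hNt1 hNs
  have hNT0 : 0 ≤ N T := by
    have := hNr T hTI ((ht1s0.trans hs0s).trans hsT).le
    exact le_trans (mul_nonneg hr0.le (Real.sqrt_nonneg _)) this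
  -- squared monotonicity
  have e3 : N s ^ 2 * vr ω T ≤ N T ^ 2 * vr ω s := by
    have h1 : N s / √(vr ω s) ≤ N T / √(vr ω T) := hmono
    rw [div_le_div_iff₀ (Real.sqrt_pos.2 hVs) (Real.sqrt_pos.2 hVT)] at h1
    have h2 : (N s * √(vr ω T)) ^ 2 ≤ (N T * √(vr ω s)) ^ 2 :=
      pow_le_pow_left₀ (mul_nonneg hNs0'.le (Real.sqrt_nonneg _)) h1 2
    rwa [mul_pow, mul_pow, Real.sq_sqrt hVs.le, Real.sq_sqrt hVT.le] at h2
  have e4 : N T ^ 2 ≤ (N s + δ * G) ^ 2 := pow_le_pow_left₀ hNT0 e1 2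
  have e5 : N s ^ 2 * (vr ω s + 2 * (s - mn ω s) * G) ≤ (N s + δ * G) ^ 2 * vr ω s := by
    calc _ ≤ N s ^ 2 * vr ω T := mul_le_mul_of_nonneg_left e2 (sq_nonneg _)
      _ ≤ N T ^ 2 * vr ω s := e3
      _ ≤ _ := mul_le_mul_of_nonneg_right e4 hVs.le
  have e6 : (2 * N s ^ 2 * (s - mn ω s)) * G ≤ (δ * vr ω s * (2 * N s + δ * G)) * G := by
    nlinarith
  have e7 : 2 * N s ^ 2 * (s - mn ω s) ≤ δ * vr ω s * (2 * N s + δ * G) :=
    le_of_mul_le_mul_right e6 hG0
  have hgs : t1 - mn ω t1 ≤ s - mn ω s := (gap_mono hω h0 ht1 hsI (ht1s0.trans hs0s)).le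
  have e8 : E ≤ 2 * N s ^ 2 * (s - mn ω s) := by
    rw [hE]
    have h1 : N t1 ^ 2 ≤ N s ^ 2 := pow_le_pow_left₀ hNt1.le hNs 2
    have h2 : 2 * N t1 ^ 2 * (t1 - mn ω t1) ≤ 2 * N s ^ 2 * (t1 - mn ω t1) :=
      mul_le_mul_of_nonneg_right (by linarith) hg1.le
    have h3 : 2 * N s ^ 2 * (t1 - mn ω t1) ≤ 2 * N s ^ 2 * (s - mn ω s) :=
      mul_le_mul_of_nonneg_left hgs (by positivity)
    linarith
  have hVsB : vr ω s ≤ B ^ 2 := by
    have h1 := hVB s hsI hs0s.le
    have h2 : √(vr ω s) ^ 2 ≤ B ^ 2 := pow_le_pow_left₀ (Real.sqrt_nonneg _) h1 2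
    rwa [Real.sq_sqrt hVs.le] at h2
  have e9 : δ * vr ω s * (2 * N s + δ * G) ≤ δ * L := by
    have h1 : 2 * N s + δ * G ≤ 2 * D + M * C := by
      have h2 := hND s hsI hs0s.le
      have h3 : δ * G ≤ M * C := mul_le_mul hδM hGC' hG0.le hM0.le
      linarith
    have h4 : vr ω s * (2 * N s + δ * G) ≤ B ^ 2 * (2 * D + M * C) :=
      mul_le_mul hVsB h1 (by positivity) (by positivity)
    calc δ * vr ω s * (2 * N s + δ * G) = δ * (vr ω s * (2 * N s + δ * G)) := by ring
      _ ≤ δ * L := mul_le_mul_of_nonneg_left h4 hδ0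
  linarith

/-- Existence of the optimal truncation level. -/
theorem exists_opt (hω : Nice ω) {t0 : ℝ} (h0 : MemLp (trunc ω t0) 2 unif) (hj : j + 1 < n)
    (hp : p ∈ Ioo (0:ℝ) 1) (hjp : (j : ℝ) ≤ (n - 1) * p) {t1 : ℝ}
    (ht1 : t1 ∈ {y | 0 < cdf ω y ∧ cdf ω y < 1}) (hpt : quantile ω p < t1)
    (hN : 0 < en ω n j t1 - quantile ω p) :
    ∃ t ∈ {y | 0 < cdf ω y ∧ cdf ω y < 1}, quantile ω p < t ∧ 0 < en ω n j t - quantile ω p ∧
      1 - cdfU n j (cdf ω t)
        = (en ω n j t - quantile ω p) / vr ω t * (t - mn ω t) * (1 - cdf ω t) := by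
  have hjn : j < n := by omega
  have hprω := hω.prob
  obtain ⟨s, hs, T, hT, h1s, hsT, hlt⟩ := not_mono hω h0 hj hp hjp ht1 hpt hN
  set yp := quantile ω p with hyp
  have hypI := hω.quantile_mem hp
  set R := fun t => (en ω n j t - yp) / √(vr ω t) with hR
  have hyT : yp ≤ T := (hpt.le.trans h1s).trans hsT.le
  have hcont : ContinuousOn R (Icc yp T) := by
    intro x hx
    have hxI := Icc_sub hypI hT x hx
    refine ContinuousAt.continuousWithinAt ?_
    refine ContinuousAt.div ?_ ?_ (Real.sqrt_pos.2 (vr_pos hω h0 hxI)).ne'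
    · exact (hasDerivAt_en hω h0 hjn hxI).continuousAt.sub continuousAt_const
    · exact Real.continuous_sqrt.continuousAt.comp (hasDerivAt_vr hω h0 hxI).continuousAt
  obtain ⟨t, ht, hmax⟩ := isCompact_Icc.exists_isMaxOn ⟨yp, left_mem_Icc.2 hyT⟩ hcont
  have htI := Icc_sub hypI hT t ht
  have hR1 : R t1 ≤ R t := hmax ⟨hpt.le, h1s.trans hsT.le⟩
  have hRs : R s ≤ R t := hmax ⟨hpt.le.trans h1s, hsT.le⟩
  have hR10 : 0 < R t1 := div_pos hN (Real.sqrt_pos.2 (vr_pos hω h0 ht1))
  have hRt0 : 0 < R t := lt_of_lt_of_le hR10 hR1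
  have htT : t ≠ T := by
    rintro rfl
    have : R t < R s := hlt
    linarith
  have hRyp : R yp ≤ 0 := by
    refine div_nonpos_of_nonpos_of_nonneg ?_ (Real.sqrt_nonneg _)
    have h1 : en ω n j yp ≤ ∫ u, yp * pdfU n j u ∂unif := by
      refine integral_mono_ae (integrable_mul_dens (trunc_memLp hω h0 yp) n j)
        ((integrable_dens n j).const_mul yp) ?_
      filter_upwards [dens_nonneg_ae n j] with u hu
      exact mul_le_mul_of_nonneg_right (min_le_right _ _) hu
    rw [integral_const_mul, integral_dens_unif hjn] at h1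
    linarith
  have htyp : t ≠ yp := by
    rintro h
    rw [h] at hRt0
    linarith
  have hty : yp < t := lt_of_le_of_ne ht.1 (Ne.symm htyp)
  have htT' : t < T := lt_of_le_of_ne ht.2 htT
  have hVt := vr_pos hω h0 htI
  have hsV := Real.sqrt_pos.2 hVt
  set Rt := R t with hRt
  have hloc : IsLocalMax (fun x => (en ω n j x - yp) - Rt * √(vr ω x)) t := by
    filter_upwards [Icc_mem_nhds hty htT'] with x hx
    have hxI := Icc_sub hypI hT x hx
    have h1 : R x ≤ Rt := hmax hx
    have h2 := (div_le_iff₀ (Real.sqrt_pos.2 (vr_pos hω h0 hxI))).1 h1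
    have h3 : (en ω n j t - yp) = Rt * √(vr ω t) := by
      rw [hRt]; simp only [hR]; field_simp
    rw [h3]
    linarith
  have hder : HasDerivAt (fun x => (en ω n j x - yp) - Rt * √(vr ω x))
      ((1 - cdfU n j (cdf ω t)) - Rt * ((2 * (t - mn ω t) * (1 - cdf ω t)) / (2 * √(vr ω t)))) t := by
    refine ((hasDerivAt_en hω h0 hjn htI).sub_const yp).fun_sub ?_
    exact ((hasDerivAt_vr hω h0 htI).sqrt hVt.ne').const_mul Rt
  have hzero := hloc.hasDerivAt_eq_zero hder
  have hNt : 0 < en ω n j t - yp := by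
    have : Rt = (en ω n j t - yp) / √(vr ω t) := rfl
    rw [this] at hRt0
    exact (div_pos_iff_of_pos_right hsV).1 hRt0
  refine ⟨t, htI, hty, hNt, ?_⟩
  have h3 : Rt = (en ω n j t - yp) / √(vr ω t) := rfl
  rw [h3] at hzero
  have h4 : (en ω n j t - yp) / √(vr ω t) * ((2 * (t - mn ω t) * (1 - cdf ω t)) / (2 * √(vr ω t)))
      = (en ω n j t - yp) / vr ω t * (t - mn ω t) * (1 - cdf ω t) := by
    have h5 : √(vr ω t) * √(vr ω t) = vr ω t := Real.mul_self_sqrt hVt.le
    have h6 : (en ω n j t - yp) / √(vr ω t)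
          * ((2 * (t - mn ω t) * (1 - cdf ω t)) / (2 * √(vr ω t)))
        = (en ω n j t - yp) * (t - mn ω t) * (1 - cdf ω t) / (√(vr ω t) * √(vr ω t)) := by
      have := hsV.ne'
      field_simp
    rw [h6, h5]
    ring
  rw [h4] at hzero
  linarith

end

end Pool.Agent.Lib.MP_c5814c_pr
end

section

namespace Pool.Agent.Lib.MP_c5814c_pr

open MeasureTheory ProbabilityTheory Set Filter
open scoped ENNReal Topology

section

variable {ω : Measure ℝ} {n : ℕ} {j : Fin n} {p : ℝ}

theorem bias_map (hω : Nice ω) (hp : p ∈ Ioo (0:ℝ) 1) {φ : ℝ → ℝ}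
    (hm : MonotoneOn φ {y | 0 < cdf ω y ∧ cdf ω y < 1})
    (hc : ContinuousOn φ {y | 0 < cdf ω y ∧ cdf ω y < 1}) :
    bias n j p (Measure.map φ ω) = num n j p (fun u => φ (quantile ω u))
      / √(variance (fun u => φ (quantile ω u)) unif) := by
  have hpr : IsProbabilityMeasure (Measure.map φ ω) := by
    rw [hω.map_eq hm]
    exact Measure.isProbabilityMeasure_map (aemeasurable_of_monotoneOn (hω.comp_monotoneOn hm))
  rw [bias_eq]
  congr 1
  · exact num_congr hp fun u hu => hω.quantile_map_comp hm hc hu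
  · congr 1
    refine variance_congr ?_
    filter_upwards [ae_unif_mem] with u hu using hω.quantile_map_comp hm hc hu

theorem concave_min (hω : Nice ω) (t : ℝ) :
    ConcaveOn ℝ {y | 0 < cdf ω y ∧ cdf ω y < 1} (fun y => min y t) :=
  (concaveOn_id hω.convex).inf (concaveOn_const t hω.convex)

theorem trunc_mem_family (hω : Nice ω) {t0 : ℝ} (h0 : MemLp (trunc ω t0) 2 unif) {t : ℝ}
    (ht : t ∈ {y | 0 < cdf ω y ∧ cdf ω y < 1}) :
    Measure.map (fun y => min y t) ω ∈ convexFamily ω := by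
  have hprω := hω.prob
  have hm : MonotoneOn (fun y => min y t) {y | 0 < cdf ω y ∧ cdf ω y < 1} :=
    fun x _ y _ hxy => min_le_min hxy le_rfl
  refine ⟨⟨Measure.isProbabilityMeasure_map (by fun_prop), ?_, ?_⟩, ?_⟩
  · rw [memLp_id_iff hω hm]
    exact trunc_memLp hω h0 t
  · rw [variance_id_eq hω hm]
    have := vr_pos hω h0 ht
    rwa [(vr_eq hω h0 t).1] at this
  · refine hω.convexLE_map hm (concave_min hω t) ?_
    obtain ⟨s, hs, hst⟩ := exists_left hω ht
    refine ⟨s, hs, t, ht, hst, ?_⟩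
    simp [hst.le, hst]

theorem bias_trunc (hω : Nice ω) (hp : p ∈ Ioo (0:ℝ) 1) {t0 : ℝ}
    (h0 : MemLp (trunc ω t0) 2 unif) (t : ℝ) :
    bias n j p (Measure.map (fun y => min y t) ω)
      = (en ω n j t - min (quantile ω p) t) / √(vr ω t) := by
  rw [bias_map hω hp (fun x _ y _ hxy => min_le_min hxy le_rfl) (by fun_prop), (vr_eq hω h0 t).1]
  rfl

/-- members of the family as concave functions of `Y` -/
theorem family_data (hω : Nice ω) {ν : Measure ℝ} (hν : ν ∈ convexFamily ω) :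
    MonotoneOn (fun y => quantile ν (cdf ω y)) {y | 0 < cdf ω y ∧ cdf ω y < 1} ∧
    ConcaveOn ℝ {y | 0 < cdf ω y ∧ cdf ω y < 1} (fun y => quantile ν (cdf ω y)) ∧
    (∀ u ∈ Ioo (0:ℝ) 1, quantile ν (cdf ω (quantile ω u)) = quantile ν u) := by
  have hpr := hν.1.1
  have hprω := hω.prob
  refine ⟨?_, hω.concave_of_convexLE hν.2, ?_⟩
  · intro x hx y hy hxy
    exact quantile_mono ν hx hy (monotone_cdf ω hxy)
  · intro u hu
    rw [hω.cdf_quantile hu]

theorem exists_lt_of_proper {ν : Measure ℝ} (hν : Proper ν) :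
    ∃ u ∈ Ioo (0:ℝ) 1, ∃ v ∈ Ioo (0:ℝ) 1, u < v ∧ quantile ν u < quantile ν v := by
  have hpr := hν.1
  by_contra hcon
  push Not at hcon
  have hconst : ∀ u ∈ Ioo (0:ℝ) 1, quantile ν u = quantile ν (1/2) := by
    intro u hu
    have hh : (1/2 : ℝ) ∈ Ioo (0:ℝ) 1 := by norm_num
    rcases lt_trichotomy u (1/2) with h | h | h
    · exact le_antisymm (quantile_mono ν hu hh h.le) (hcon u hu _ hh h)
    · rw [h]
    · exact le_antisymm (hcon _ hh u hu h) (quantile_mono ν hh hu h.le)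
  have hv : variance (quantile ν) unif = 0 := by
    have e1 : variance (quantile ν) unif = variance (fun _ => quantile ν (1/2)) unif := by
      refine variance_congr ?_
      filter_upwards [ae_unif_mem] with u hu using hconst u hu
    rw [e1, variance_eq_integral aemeasurable_const]
    simp
  rw [variance_quantile] at hv
  linarith [hν.2.2]

/-- If the family is nonempty then the negative part of `Y` is square integrable. -/
theorem memLp_of_nonempty (hω : Nice ω) (hne : (convexFamily ω).Nonempty) :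
    ∃ t0, MemLp (trunc ω t0) 2 unif := by
  obtain ⟨ν, hν⟩ := hne
  have hpr := hν.1.1
  have hprω := hω.prob
  obtain ⟨hm, hc, hq⟩ := family_data hω hν
  obtain ⟨u1, hu1, u2, hu2, h12, hlt⟩ := exists_lt_of_proper hν.1
  have hL := memLp_quantile hν.1.2.1
  set y1 := quantile ω u1 with hy1
  set y2 := quantile ω u2 with hy2
  have hy12 : y1 < y2 := hω.quantile_strictMono hu1 hu2 h12
  set κ := (quantile ν u2 - quantile ν u1) / (y2 - y1) with hκ
  have hκ0 : 0 < κ := div_pos (by linarith) (by linarith)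
  refine ⟨y1, ?_⟩
  have hB : MemLp (fun u => |y1| + (1 / κ) * |quantile ν u1 - quantile ν u|) 2 unif := by
    have e1 : MemLp (fun u => quantile ν u1 - quantile ν u) 2 unif := (memLp_const _).sub hL
    have e2 : MemLp (fun u => (1 / κ) * |quantile ν u1 - quantile ν u|) 2 unif :=
      (e1.abs).const_mul (1 / κ)
    have e3 : MemLp (fun _ : ℝ => |y1|) 2 unif := memLp_const _
    exact e3.add e2
  refine MemLp.mono hB (aemeasurable_of_monotoneOn (trunc_mono hω y1)).aestronglyMeasurable ?_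
  filter_upwards [ae_unif_mem] with u hu
  rw [Real.norm_eq_abs, Real.norm_eq_abs]
  have hRHS : 0 ≤ |y1| + (1 / κ) * |quantile ν u1 - quantile ν u| := by positivity
  rw [abs_of_nonneg hRHS]
  rcases le_or_gt u1 u with h | h
  · have h1 : y1 ≤ quantile ω u := quantile_mono ω hu1 hu h
    have h2 : trunc ω y1 u = y1 := min_eq_right h1
    rw [h2]
    have : 0 ≤ (1 / κ) * |quantile ν u1 - quantile ν u| := by positivity
    linarith
  · have h1 : quantile ω u < y1 := hω.quantile_strictMono hu hu1 h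
    have h2 : trunc ω y1 u = quantile ω u := min_eq_left h1.le
    rw [h2]
    have h3 := hc.slope_anti_adjacent (hω.quantile_mem hu) (hω.quantile_mem hu2) h1 hy12
    rw [hq u2 hu2, hq u1 hu1, hq u hu] at h3
    have h4 : κ * (y1 - quantile ω u) ≤ quantile ν u1 - quantile ν u := by
      rwa [← hκ, le_div_iff₀ (by linarith)] at h3
    have h5 : y1 - quantile ω u ≤ (1 / κ) * |quantile ν u1 - quantile ν u| := by
      have h6 : κ * (y1 - quantile ω u) ≤ |quantile ν u1 - quantile ν u| :=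
        h4.trans (le_abs_self _)
      calc y1 - quantile ω u = (1 / κ) * (κ * (y1 - quantile ω u)) := by field_simp
        _ ≤ _ := mul_le_mul_of_nonneg_left h6 (by positivity)
    have h7 : |quantile ω u| ≤ |y1| + |y1 - quantile ω u| := by
      have := abs_sub_abs_le_abs_sub (quantile ω u) y1
      rw [abs_sub_comm] at this
      linarith
    rw [abs_of_pos (show 0 < y1 - quantile ω u by linarith)] at h7
    linarith

/-- The attained case of the upper bound. -/
theorem convex_upper_pos (hω : Nice ω) {t0 : ℝ} (h0 : MemLp (trunc ω t0) 2 unif)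
    (hp : p ∈ Ioo (0:ℝ) 1)
    (hjp : ((j : ℕ) : ℝ) ≤ (n - 1) * p) {t : ℝ} (ht : t ∈ {y | 0 < cdf ω y ∧ cdf ω y < 1})
    (hpt : quantile ω p < t) (hN : 0 < en ω n j t - quantile ω p)
    (hst : 1 - cdfU n j (cdf ω t)
      = (en ω n j t - quantile ω p) / vr ω t * (t - mn ω t) * (1 - cdf ω t)) :
    ∀ ν ∈ convexFamily ω, bias n j p ν ≤ bias n j p (Measure.map (fun y => min y t) ω) ∧
      (bias n j p ν = bias n j p (Measure.map (fun y => min y t) ω) ↔
        ∃ κ > 0, ∃ c, ν = Measure.map (fun y => c + κ * min y t) ω) := by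
  intro ν hν
  have hpr := hν.1.1
  have hprω := hω.prob
  obtain ⟨hm, hc, hq⟩ := family_data hω hν
  have hL := memLp_quantile hν.1.2.1
  have hX := trunc_memLp hω h0 t
  have hV := vr_pos hω h0 ht
  have hV' := (vr_eq hω h0 t).1
  set N := en ω n j t - quantile ω p with hNd
  set l := N / vr ω t with hl
  have hl0 : 0 < l := div_pos hN hV
  have hnumX : num n j p (trunc ω t) = N := by
    have : trunc ω t p = quantile ω p := min_eq_left hpt.le
    unfold num
    rw [this]; rfl
  have hbX : bias n j p (Measure.map (fun y => min y t) ω) = N / √(vr ω t) := by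
    rw [bias_trunc hω hp h0 t, min_eq_left hpt.le]
  have hh : MemLp (fun u => quantile ν (cdf ω (quantile ω u))) 2 unif := by
    refine hL.ae_eq ?_
    filter_upwards [ae_unif_mem] with u hu using (hq u hu).symm
  have key := num_le_cov hω j.2 hp hjp ht hpt hX hl0.le (by rw [hst]; rfl) (by
    rw [hnumX]
    have := (vr_eq hω h0 t).2
    unfold mn at this
    rw [← this, hl]
    field_simp) hm hc hh
  have e1 : num n j p (fun u => quantile ν (cdf ω (quantile ω u))) = num n j p (quantile ν) :=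
    num_congr hp hq
  have e2 : ∫ u, quantile ν (cdf ω (quantile ω u)) * (trunc ω t u - ∫ v, trunc ω t v ∂unif) ∂unif
      = ∫ u, quantile ν u * (trunc ω t u - mn ω t) ∂unif := by
    refine integral_congr_ae ?_
    filter_upwards [ae_unif_mem] with u hu
    rw [hq u hu]; rfl
  rw [e1, e2] at key
  -- Cauchy–Schwarz
  set G : ℝ → ℝ := fun u => l * (trunc ω t u - mn ω t) with hG
  have hGL : MemLp G 2 unif := (hX.sub (memLp_const _)).const_mul l
  have hXi : Integrable (trunc ω t) unif := hX.integrable one_le_two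
  have hG0 : ∫ u, G u ∂unif = 0 := by
    simp only [hG]
    rw [integral_const_mul, integral_sub hXi (integrable_const _)]
    simp [mn]
  have hG2 : ∫ u, G u ^ 2 ∂unif = l ^ 2 * vr ω t := by
    have e3 : ∀ u, G u ^ 2 = l ^ 2 * ((trunc ω t u - mn ω t) ^ 2) := fun u => by
      simp only [hG]; ring
    simp only [e3]
    rw [integral_const_mul, hV', variance_eq_integral hX.1.aemeasurable]
    rfl
  have hB : 0 < ∫ u, G u ^ 2 ∂unif := by rw [hG2]; positivity
  have hT : num n j p (quantile ν) ≤ ∫ u, quantile ν u * G u ∂unif := by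
    have e3 : ∀ u, quantile ν u * G u = l * (quantile ν u * (trunc ω t u - mn ω t)) := fun u => by
      simp only [hG]; ring
    simp only [e3]
    rw [integral_const_mul]
    exact key
  have hs := sharp hL hGL hG0 hB hT
  have hsq : √(∫ u, G u ^ 2 ∂unif) = N / √(vr ω t) := by
    rw [hG2, Real.sqrt_mul (sq_nonneg _), Real.sqrt_sq hl0.le, hl]
    have : √(vr ω t) * √(vr ω t) = vr ω t := Real.mul_self_sqrt hV.le
    have h3 := (Real.sqrt_pos.2 hV).ne'
    rw [div_mul_eq_mul_div, div_eq_div_iff hV.ne' h3, mul_assoc, this]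
  rw [hsq] at hs
  have hVν : 0 < variance (quantile ν) unif := by rw [variance_quantile]; exact hν.1.2.2
  have hsV := Real.sqrt_pos.2 hVν
  constructor
  · rw [bias_eq, hbX, div_le_iff₀ hsV]
    linarith [hs.1]
  · constructor
    · intro heq
      rw [bias_eq, hbX, div_eq_iff hsV.ne'] at heq
      have hae := hs.2 (by rw [heq]; ring)
      set T := num n j p (quantile ν)
      set B := ∫ u, G u ^ 2 ∂unif
      have hT0 : 0 < T := by
        rw [heq]
        exact mul_pos (div_pos hN (Real.sqrt_pos.2 hV)) hsV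
      refine ⟨T / B * l, by positivity, (∫ u, quantile ν u ∂unif) - T / B * l * mn ω t, ?_⟩
      rw [hω.map_eq]
      · conv_lhs => rw [← map_quantile ν]
        refine Measure.map_congr ?_
        filter_upwards [hae] with u hu
        rw [hu]
        simp only [hG, trunc]
        ring
      · intro x _ y _ hxy
        have h1 := min_le_min hxy (le_refl t)
        have h2 : 0 < T / B * l := by positivity
        simp only
        have := mul_le_mul_of_nonneg_left h1 h2.le
        linarith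
    · rintro ⟨κ, hκ, c, rfl⟩
      have hm' : MonotoneOn (fun y => c + κ * min y t) {y | 0 < cdf ω y ∧ cdf ω y < 1} := by
        intro x _ y _ hxy
        have := mul_le_mul_of_nonneg_left (min_le_min hxy (le_refl t)) hκ.le
        simp only
        linarith
      rw [bias_map hω hp hm' (by fun_prop), hbX]
      have hκX : MemLp (fun u => κ * trunc ω t u) 2 unif := hX.const_mul κ
      have e3 : num n j p (fun u => c + κ * min (quantile ω u) t) = κ * N := by
        have := num_const_add (n := n) (j := j) j.2 (p := p) (c := c) hκX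
        change num n j p (fun u => c + κ * trunc ω t u) = _
        rw [this, ← hnumX]
        unfold num
        have e4 : ∀ u, κ * trunc ω t u * pdfU n j u = κ * (trunc ω t u * pdfU n j u) :=
          fun u => by ring
        simp only [e4]
        rw [integral_const_mul]; ring
      have e5 : variance (fun u => c + κ * min (quantile ω u) t) unif = κ ^ 2 * vr ω t := by
        change variance (fun u => c + κ * trunc ω t u) unif = _
        rw [variance_const_add hκX.1, variance_const_mul, hV']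
      rw [e3, e5, Real.sqrt_mul (sq_nonneg _), Real.sqrt_sq hκ.le]
      have := (Real.sqrt_pos.2 hV).ne'
      field_simp

end

end Pool.Agent.Lib.MP_c5814c_pr
end

section

namespace Pool.Agent.Lib.MP_c5814c_pr

open MeasureTheory ProbabilityTheory Set Filter
open scoped ENNReal Topology

section

variable {ω : Measure ℝ} {n : ℕ} {j : Fin n} {p : ℝ}

/-- `u ↦ h (min u w)` -/
theorem cut_memLp {h : ℝ → ℝ} (hm : MonotoneOn h (Ioo 0 1)) (hL : MemLp h 2 unif)
    {w : ℝ} (hw : w ∈ Ioo (0:ℝ) 1) : MemLp (fun u => h (min u w)) 2 unif := by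
  have hm' : MonotoneOn (fun u => h (min u w)) (Ioo 0 1) := by
    intro u hu v hv huv
    refine hm ⟨lt_min hu.1 hw.1, lt_of_le_of_lt (min_le_right _ _) hw.2⟩
      ⟨lt_min hv.1 hw.1, lt_of_le_of_lt (min_le_right _ _) hw.2⟩ (min_le_min huv le_rfl)
  have hB : MemLp (fun u => |h u| + |h w|) 2 unif := by
    have e1 : MemLp (fun u => |h u|) 2 unif := hL.abs
    have e2 : MemLp (fun _ : ℝ => |h w|) 2 unif := memLp_const _
    exact e1.add e2
  refine MemLp.mono hB (aemeasurable_of_monotoneOn hm').aestronglyMeasurable ?_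
  refine ae_of_all _ fun u => ?_
  rw [Real.norm_eq_abs, Real.norm_eq_abs, abs_of_nonneg (by positivity : 0 ≤ |h u| + |h w|)]
  rcases min_choice u w with h1 | h1 <;> rw [h1]
  · linarith [abs_nonneg (h w)]
  · linarith [abs_nonneg (h u)]

theorem tendsto_cut {h : ℝ → ℝ} (hm : MonotoneOn h (Ioo 0 1)) (hL : MemLp h 2 unif)
    (hp : p ∈ Ioo (0:ℝ) 1) (j : ℕ) {w : ℕ → ℝ} (hw1 : ∀ k, p < w k) (hw2 : ∀ k, w k < 1)
    (hw : Tendsto w atTop (𝓝 1)) :
    Tendsto (fun k => ∫ u, h (min u (w k)) * pdfU n j u ∂unif) atTop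
      (𝓝 (∫ u, h u * pdfU n j u ∂unif)) := by
  obtain ⟨M, hM0, hM⟩ := dens_bdd n j
  have hw01 : ∀ k, w k ∈ Ioo (0:ℝ) 1 := fun k => ⟨hp.1.trans (hw1 k), hw2 k⟩
  refine tendsto_integral_of_dominated_convergence (fun u => (|h u| + |h p|) * M) ?_ ?_ ?_ ?_
  · intro k
    exact ((cut_memLp hm hL (hw01 k)).1.mul (continuous_dens n j).aestronglyMeasurable)
  · exact ((hL.integrable one_le_two).abs.add (integrable_const _)).mul_const M
  · intro k
    filter_upwards [ae_unif_mem] with u hu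
    rw [Real.norm_eq_abs, abs_mul]
    refine mul_le_mul ?_ (hM u (Ioo_subset_Icc_self hu)) (abs_nonneg _) (by positivity)
    rcases min_choice u (w k) with h1 | h1
    · rw [h1]; linarith [abs_nonneg (h p)]
    · rw [h1]
      have h2 : w k ≤ u := by
        by_contra hcon
        push Not at hcon
        rw [min_eq_left hcon.le] at h1
        linarith
      have h3 := hm hp (hw01 k) (hw1 k).le
      have h4 := hm (hw01 k) hu h2
      rw [abs_le]
      constructor
      · have := neg_abs_le (h p)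
        have := abs_nonneg (h u)
        linarith
      · have := le_abs_self (h u)
        have := abs_nonneg (h p)
        linarith
  · filter_upwards [ae_unif_mem] with u hu
    refine Tendsto.mul_const _ ?_
    refine tendsto_const_nhds.congr' ?_
    filter_upwards [hw.eventually (lt_mem_nhds hu.2)] with k hk
    rw [min_eq_left hk.le]

theorem exists_seq_one (hp : p ∈ Ioo (0:ℝ) 1) : ∃ w : ℕ → ℝ, (∀ k, p < w k) ∧ (∀ k, w k < 1) ∧
    Tendsto w atTop (𝓝 1) := by
  refine ⟨fun k => 1 - (1 - p) * (1 / ((k:ℝ) + 2)), fun k => ?_, fun k => ?_, ?_⟩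
  · have h1 : 1 / ((k:ℝ) + 2) < 1 := by
      rw [div_lt_one (by positivity)]
      have : (0:ℝ) ≤ k := by positivity
      linarith
    have := hp.2
    simp only; nlinarith
  · have : 0 < (1 - p) * (1 / ((k:ℝ) + 2)) := mul_pos (by linarith [hp.2]) (by positivity)
    simp only; linarith
  · have h1 : Tendsto (fun k : ℕ => 1 / ((k:ℝ) + 2)) atTop (𝓝 0) := by
      have h2 : Tendsto (fun k : ℕ => ((k:ℝ) + 2)) atTop atTop :=
        tendsto_atTop_add_const_right _ _ tendsto_natCast_atTop_atTop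
      simp only [one_div]
      exact h2.inv_tendsto_atTop
    have := (h1.const_mul (1 - p)).const_sub 1
    rw [mul_zero, sub_zero] at this
    exact this

/-- The zero case. -/
theorem num_nonpos (hω : Nice ω) {t0 : ℝ} (h0 : MemLp (trunc ω t0) 2 unif)
    (hp : p ∈ Ioo (0:ℝ) 1)
    (hH : ∀ t ∈ {y | 0 < cdf ω y ∧ cdf ω y < 1}, en ω n j t ≤ quantile ω p)
    {φ : ℝ → ℝ} (hm : MonotoneOn φ {y | 0 < cdf ω y ∧ cdf ω y < 1})
    (hc : ConcaveOn ℝ {y | 0 < cdf ω y ∧ cdf ω y < 1} φ)
    (hφ : MemLp (fun u => φ (quantile ω u)) 2 unif) :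
    num n j p (fun u => φ (quantile ω u)) ≤ 0 ∧
    (num n j p (fun u => φ (quantile ω u)) = 0 → ∃ κ : ℝ, 0 ≤ κ ∧ ∃ c : ℝ, ∀ᵐ u ∂unif,
      φ (quantile ω u) = c + κ * quantile ω u) := by
  have hprω := hω.prob
  set h : ℝ → ℝ := fun u => φ (quantile ω u) with hh
  have hhm : MonotoneOn h (Ioo 0 1) := hω.comp_monotoneOn hm
  have hu0 : p / 2 ∈ Ioo (0:ℝ) 1 := ⟨by linarith [hp.1], by linarith [hp.1, hp.2]⟩
  have hu1 : (p + 1) / 2 ∈ Ioo (0:ℝ) 1 := ⟨by linarith [hp.1], by linarith [hp.2]⟩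
  obtain ⟨κ, hκ0, hκ1, -⟩ := exists_slope hc hm (hω.quantile_mem hp)
    (hω.quantile_mem hu0) (hω.quantile_mem hu1)
    (hω.quantile_strictMono hu0 hp (by linarith [hp.1]))
    (hω.quantile_strictMono hp hu1 (by linarith [hp.2]))
  -- the gap
  set g : ℝ → ℝ → ℝ := fun w u => κ * (quantile ω (min u w) - quantile ω p)
    - (h (min u w) - h p) with hg
  have hmin : ∀ w ∈ Ioo (0:ℝ) 1, ∀ u ∈ Ioo (0:ℝ) 1, min u w ∈ Ioo (0:ℝ) 1 := fun w hw u hu =>
    ⟨lt_min hu.1 hw.1, lt_of_le_of_lt (min_le_right _ _) hw.2⟩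
  have hg0 : ∀ w ∈ Ioo (0:ℝ) 1, ∀ u ∈ Ioo (0:ℝ) 1, 0 ≤ g w u := by
    intro w hw u hu
    have := hκ1 _ (hω.quantile_mem (hmin w hw u hu))
    simp only [hg, hh]
    linarith
  have htr : ∀ w ∈ Ioo (0:ℝ) 1, ∀ u ∈ Ioo (0:ℝ) 1,
      quantile ω (min u w) = trunc ω (quantile ω w) u := by
    intro w hw u hu
    rcases le_total u w with h1 | h1
    · rw [min_eq_left h1]
      exact (min_eq_left (quantile_mono ω hu hw h1)).symm
    · rw [min_eq_right h1]
      exact (min_eq_right (quantile_mono ω hw hu h1)).symm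
  have hqL : ∀ w ∈ Ioo (0:ℝ) 1, MemLp (fun u => quantile ω (min u w)) 2 unif := by
    intro w hw
    refine (trunc_memLp hω h0 (quantile ω w)).ae_eq ?_
    filter_upwards [ae_unif_mem] with u hu using (htr w hw u hu).symm
  have hgL : ∀ w ∈ Ioo (0:ℝ) 1, MemLp (g w) 2 unif := by
    intro w hw
    exact (((hqL w hw).sub (memLp_const _)).const_mul κ).sub
      ((cut_memLp hhm hφ hw).sub (memLp_const _))
  have hgint : ∀ w ∈ Ioo (0:ℝ) 1, p < w → ∫ u, g w u * pdfU n j u ∂unif
      ≤ - (∫ u, h (min u w) * pdfU n j u ∂unif - h p) := by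
    intro w hw hpw
    have e1 : ∀ u, g w u * pdfU n j u = κ * (quantile ω (min u w) * pdfU n j u)
        - κ * quantile ω p * pdfU n j u - h (min u w) * pdfU n j u + h p * pdfU n j u := by
      intro u; simp only [hg]; ring
    simp only [e1]
    have i1 : Integrable (fun u => κ * (quantile ω (min u w) * pdfU n j u)) unif :=
      (integrable_mul_dens (hqL w hw) n j).const_mul κ
    have i2 : Integrable (fun u => κ * quantile ω p * pdfU n j u) unif :=
      (integrable_dens n j).const_mul _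
    have i3 : Integrable (fun u => h (min u w) * pdfU n j u) unif :=
      integrable_mul_dens (cut_memLp hhm hφ hw) n j
    have i4 : Integrable (fun u => h p * pdfU n j u) unif := (integrable_dens n j).const_mul _
    have i5 : Integrable (fun u => κ * (quantile ω (min u w) * pdfU n j u)
        - κ * quantile ω p * pdfU n j u) unif := i1.sub i2
    have i6 : Integrable (fun u => κ * (quantile ω (min u w) * pdfU n j u)
        - κ * quantile ω p * pdfU n j u - h (min u w) * pdfU n j u) unif := i5.sub i3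
    rw [integral_add i6 i4, integral_sub i5 i3, integral_sub i1 i2, integral_const_mul,
      integral_const_mul, integral_const_mul, integral_dens_unif j.2]
    have e2 : ∫ u, quantile ω (min u w) * pdfU n j u ∂unif = en ω n j (quantile ω w) := by
      refine integral_congr_ae ?_
      filter_upwards [ae_unif_mem] with u hu
      rw [htr w hw u hu]
    rw [e2]
    have := mul_le_mul_of_nonneg_left (hH _ (hω.quantile_mem hw)) hκ0
    linarith
  obtain ⟨w, hw1, hw2, hwt⟩ := exists_seq_one hp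
  have hw01 : ∀ k, w k ∈ Ioo (0:ℝ) 1 := fun k => ⟨hp.1.trans (hw1 k), hw2 k⟩
  have hlim := tendsto_cut (n := n) hhm hφ hp j hw1 hw2 hwt
  have hlim2 : Tendsto (fun k => -(∫ u, h (min u (w k)) * pdfU n j u ∂unif - h p)) atTop
      (𝓝 (-(num n j p h))) := (hlim.sub_const (h p)).neg
  have hnn : ∀ k, 0 ≤ ∫ u, g (w k) u * pdfU n j u ∂unif := by
    intro k
    refine integral_nonneg_of_ae ?_
    filter_upwards [ae_unif_mem] with u hu
    exact mul_nonneg (hg0 _ (hw01 k) u hu) (dens_nonneg n j hu.1.le hu.2.le)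
  constructor
  · have : 0 ≤ -(num n j p h) := by
      refine ge_of_tendsto hlim2 (Eventually.of_forall fun k => ?_)
      exact (hnn k).trans (hgint _ (hw01 k) (hw1 k))
    linarith
  · intro hz
    refine ⟨κ, hκ0, h p - κ * quantile ω p, ?_⟩
    rw [hz, neg_zero] at hlim2
    -- on (0, w i) the gap vanishes
    have hpart : ∀ i, ∀ᵐ u ∂(volume.restrict (Ioo 0 (w i))),
        κ * (quantile ω u - quantile ω p) - (h u - h p) = 0 := by
      intro i
      have hgi : Integrable (fun u => g (w i) u * pdfU n j u) unif :=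
        integrable_mul_dens (hgL _ (hw01 i)) n j
      have hle : ∀ᶠ k in atTop, ∫ u in (0:ℝ)..(w i), g (w i) u * pdfU n j u
          ≤ -(∫ u, h (min u (w k)) * pdfU n j u ∂unif - h p) := by
        filter_upwards [hwt.eventually (lt_mem_nhds (hw2 i))] with k hk
        refine le_trans ?_ (hgint _ (hw01 k) (hw1 k))
        rw [integral_split (integrable_mul_dens (hgL _ (hw01 k)) n j)
          ⟨(hw01 i).1.le, (hw01 i).2.le⟩]
        have e1 : ∫ u in (0:ℝ)..(w i), g (w i) u * pdfU n j u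
            = ∫ u in (0:ℝ)..(w i), g (w k) u * pdfU n j u := by
          refine integral_congr_Ioo (hw01 i).1.le fun u hu => ?_
          simp only [hg]
          rw [min_eq_left hu.2.le, min_eq_left (hu.2.trans hk).le]
        have e2 : 0 ≤ ∫ u in (w i)..1, g (w k) u * pdfU n j u := by
          refine integral_nonneg_Ioo (hw01 i).2.le fun u hu => ?_
          have hu' : u ∈ Ioo (0:ℝ) 1 := ⟨(hw01 i).1.trans hu.1, hu.2⟩
          exact mul_nonneg (hg0 _ (hw01 k) u hu') (dens_nonneg n j hu'.1.le hu'.2.le)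
        linarith
      have h1 : ∫ u in (0:ℝ)..(w i), g (w i) u * pdfU n j u ≤ 0 := ge_of_tendsto hlim2 hle
      have hpos : ∀ u ∈ Ioo 0 (w i), 0 ≤ g (w i) u * pdfU n j u := fun u hu => by
        have hu' : u ∈ Ioo (0:ℝ) 1 := ⟨hu.1, hu.2.trans (hw2 i)⟩
        exact mul_nonneg (hg0 _ (hw01 i) u hu') (dens_nonneg n j hu'.1.le hu'.2.le)
      have h2 : ∫ u in (0:ℝ)..(w i), g (w i) u * pdfU n j u = 0 :=
        le_antisymm h1 (integral_nonneg_Ioo (hw01 i).1.le hpos)
      have h3 := ae_zero_of (hw01 i).1.le hpos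
        (Integrable.interval hgi le_rfl (hw01 i).1.le (hw01 i).2.le) h2
      filter_upwards [h3, ae_restrict_mem measurableSet_Ioo] with u hu hu2
      have hu' : u ∈ Ioo (0:ℝ) 1 := ⟨hu2.1, hu2.2.trans (hw2 i)⟩
      rcases mul_eq_zero.1 hu with h4 | h4
      · simp only [hg] at h4
        rwa [min_eq_left hu2.2.le] at h4
      · exact absurd h4 (dens_pos j.2 hu').ne'
    have hall : ∀ᵐ u ∂volume, ∀ i, u ∈ Ioo 0 (w i) →
        κ * (quantile ω u - quantile ω p) - (h u - h p) = 0 := by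
      rw [ae_all_iff]
      intro i
      exact (ae_restrict_iff' measurableSet_Ioo).1 (hpart i)
    have hall' : ∀ᵐ u ∂unif, ∀ i, u ∈ Ioo 0 (w i) →
        κ * (quantile ω u - quantile ω p) - (h u - h p) = 0 := ae_restrict_of_ae hall
    filter_upwards [hall', ae_unif_mem] with u hu hu2
    obtain ⟨k, hk⟩ := (hwt.eventually (lt_mem_nhds hu2.2)).exists
    have := hu k ⟨hu2.1, hk⟩
    simp only [hh] at this ⊢
    linarith

/-- The biases of `min(Y,t)` tend to zero. -/
theorem small_bias (hω : Nice ω) {t0 : ℝ} (h0 : MemLp (trunc ω t0) 2 unif)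
    (hp : p ∈ Ioo (0:ℝ) 1) {ε : ℝ} (hε : 0 < ε) :
    ∃ ν ∈ convexFamily ω, -ε < bias n j p ν := by
  have hprω := hω.prob
  obtain ⟨M, hM0, hM⟩ := dens_bdd n j
  obtain ⟨w, hw0, hwp, hwε⟩ : ∃ w, 0 < w ∧ w < p ∧ M * √(w / (1 - w)) < ε := by
    have h1 : Tendsto (fun w : ℝ => M * √(w / (1 - w))) (𝓝[>] 0) (𝓝 0) := by
      have h2 : ContinuousAt (fun w : ℝ => M * √(w / (1 - w))) 0 := by
        refine continuousAt_const.mul ?_
        refine Real.continuous_sqrt.continuousAt.comp ?_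
        exact continuousAt_id.div (continuousAt_const.sub continuousAt_id) (by simp)
      have h3 := h2.tendsto
      simp only [zero_div, Real.sqrt_zero, mul_zero] at h3
      exact h3.mono_left nhdsWithin_le_nhds
    have h2 := h1.eventually (gt_mem_nhds hε)
    have h3 : ∀ᶠ w in 𝓝[>] (0:ℝ), w ∈ Ioo 0 p := Ioo_mem_nhdsGT hp.1
    obtain ⟨w, hw1, hw2⟩ := (h2.and h3).exists
    exact ⟨w, hw2.1, hw2.2, hw1⟩
  have hw : w ∈ Ioo (0:ℝ) 1 := ⟨hw0, hwp.trans hp.2⟩
  set t := quantile ω w with ht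
  have htI := hω.quantile_mem hw
  have hX := trunc_memLp hω h0 t
  refine ⟨_, trunc_mem_family hω h0 htI, ?_⟩
  have hmin : min (quantile ω p) t = t := min_eq_right (quantile_mono ω hw hp hwp.le)
  rw [bias_trunc hω hp h0 t, hmin]
  have hV := vr_pos hω h0 htI
  have hg := gap_pos hω h0 htI
  have h1w : 0 < 1 - w := by linarith [hw.2]
  -- numerator
  have hnum : -(M * (t - mn ω t)) ≤ en ω n j t - t := by
    have e1 : t - en ω n j t = ∫ u, (t - trunc ω t u) * pdfU n j u ∂unif := by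
      have e2 : ∀ u, (t - trunc ω t u) * pdfU n j u
          = t * pdfU n j u - trunc ω t u * pdfU n j u := fun u => by ring
      simp only [e2]
      rw [integral_sub ((integrable_dens n j).const_mul _) (integrable_mul_dens hX n j),
        integral_const_mul, integral_dens_unif j.2]
      unfold en; ring
    have e3 : ∫ u, (t - trunc ω t u) * pdfU n j u ∂unif ≤ ∫ u, M * (t - trunc ω t u) ∂unif := by
      have hs : MemLp (fun u => t - trunc ω t u) 2 unif := (memLp_const t).sub hX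
      refine integral_mono_ae (integrable_mul_dens hs n j)
        ((hs.integrable one_le_two).const_mul M) ?_
      filter_upwards [ae_unif_mem] with u hu
      have h1 : 0 ≤ t - trunc ω t u := sub_nonneg.2 (min_le_right _ _)
      have h2 := (le_abs_self _).trans (hM u (Ioo_subset_Icc_self hu))
      have := mul_le_mul_of_nonneg_left h2 h1
      linarith
    rw [integral_const_mul, integral_sub (integrable_const _) (hX.integrable one_le_two)] at e3
    simp only [integral_const, probReal_univ, one_smul] at e3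
    have e4 : ∫ u, trunc ω t u ∂unif = mn ω t := rfl
    rw [e4] at e3
    linarith
  -- variance
  have hvar : (1 - w) / w * (t - mn ω t) ^ 2 ≤ vr ω t := by
    have hs : MemLp (fun u => t - trunc ω t u) 2 unif := (memLp_const t).sub hX
    have hind : Measurable (fun u : ℝ => if u ≤ w then (1:ℝ) else 0) :=
      Measurable.ite measurableSet_Iic measurable_const measurable_const
    have hindL : MemLp (fun u : ℝ => if u ≤ w then (1:ℝ) else 0) 2 unif :=
      memLp_of_bdd hind.aemeasurable (M := 1) fun u _ => by split_ifs <;> simp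
    have hg2 : ∫ u, (if u ≤ w then (1:ℝ) else 0) ^ 2 ∂unif = w := by
      have := integral_two (p := w) (hindL.integrable_sq) hw (a := 1) (b := 0)
        (fun u hu => by simp [hu.2.le]) (fun u hu => by simp [not_le.2 hu.1])
      rw [this]; ring
    have hc := (cauchy hs hindL (by rw [hg2]; exact hw0)).1
    rw [hg2] at hc
    have e1 : ∫ u, (t - trunc ω t u) * (if u ≤ w then (1:ℝ) else 0) ∂unif = t - mn ω t := by
      have e2 : ∫ u, (t - trunc ω t u) * (if u ≤ w then (1:ℝ) else 0) ∂unif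
          = ∫ u, (t - trunc ω t u) ∂unif := by
        refine integral_congr_ae ?_
        filter_upwards [ae_unif_mem] with u hu
        by_cases h : u ≤ w
        · simp [h]
        · have : trunc ω t u = t := min_eq_right (quantile_mono ω hw hu (not_le.1 h).le)
          simp [h, this]
      rw [e2, integral_sub (integrable_const _) (hX.integrable one_le_two)]
      simp [mn]
    rw [e1] at hc
    have e3 : ∫ u, (t - trunc ω t u) ^ 2 ∂unif = vr ω t + (t - mn ω t) ^ 2 := by
      have e4 : ∀ u, (t - trunc ω t u) ^ 2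
          = t ^ 2 - 2 * t * trunc ω t u + trunc ω t u ^ 2 := fun u => by ring
      simp only [e4]
      have i1 : Integrable (fun u => 2 * t * trunc ω t u) unif :=
        (hX.integrable one_le_two).const_mul _
      have i2 : Integrable (fun u => t ^ 2 - 2 * t * trunc ω t u) unif :=
        (integrable_const _).sub i1
      rw [integral_add i2 hX.integrable_sq, integral_sub (integrable_const _) i1,
        integral_const_mul]
      simp only [integral_const, probReal_univ, one_smul]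
      unfold vr mn
      ring
    rw [e3] at hc
    rw [div_mul_eq_mul_div, div_le_iff₀ hw0]
    nlinarith
  rw [lt_div_iff₀ (Real.sqrt_pos.2 hV)]
  have h5 : (t - mn ω t) ≤ √(w / (1 - w)) * √(vr ω t) := by
    rw [← Real.sqrt_mul (div_nonneg hw0.le h1w.le)]
    refine Real.le_sqrt_of_sq_le ?_
    calc (t - mn ω t) ^ 2 = w / (1 - w) * ((1 - w) / w * (t - mn ω t) ^ 2) := by field_simp
      _ ≤ _ := mul_le_mul_of_nonneg_left hvar (div_nonneg hw0.le h1w.le)
  have h6 : M * (t - mn ω t) < ε * √(vr ω t) := by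
    calc M * (t - mn ω t) ≤ M * (√(w / (1 - w)) * √(vr ω t)) :=
          mul_le_mul_of_nonneg_left h5 hM0.le
      _ = (M * √(w / (1 - w))) * √(vr ω t) := by ring
      _ < ε * √(vr ω t) := mul_lt_mul_of_pos_right hwε (Real.sqrt_pos.2 hV)
  linarith

end

end Pool.Agent.Lib.MP_c5814c_pr
end
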