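import Pool.Agent.Lib.MP_c5814c_pr.Low2

section

namespace Pool.Agent.Lib.MP_c5814c_pr

open MeasureTheory ProbabilityTheory Set Filter
open scoped ENNReal Topology RealInnerProductSpace

section

variable {ω : Measure ℝ} {n j : ℕ} {p : ℝ}

/-- right slope with changed sign, cut to the interval left of the `p`-quantile -/
noncomputable def eta (ω : Measure ℝ) (p : ℝ) (k : ℝ → ℝ) (z : ℝ) : ℝ :=
  open Classical in
  if (0 < cdf ω z ∧ cdf ω z < 1) ∧ z < quantile ω p then -(derivWithin k (Ioi z) z) else 0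

theorem measurable_eta (hω : Nice ω) (k : ℝ → ℝ) : Measurable (eta ω p k) := by
  classical
  unfold eta
  refine Measurable.ite ?_ (measurable_derivWithin_Ioi k).neg measurable_const
  exact (hω.isOpen.measurableSet).inter measurableSet_Iio

/-- measure of the part of a level set above `y` -/
noncomputable def lev (ω : Measure ℝ) (p : ℝ) (k : ℝ → ℝ) (z : ℝ × ℝ) : ℝ :=
  (volume {x : ℝ | z.2 < eta ω p k x ∧ z.1 < x ∧ x < quantile ω p}).toReal

theorem measurable_lev (hω : Nice ω) (k : ℝ → ℝ) : Measurable (lev ω p k) := by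
  unfold lev
  refine Measurable.ennreal_toReal ?_
  have hs : MeasurableSet {w : (ℝ × ℝ) × ℝ | w.1.2 < eta ω p k w.2 ∧ w.1.1 < w.2 ∧
      w.2 < quantile ω p} := by
    refine MeasurableSet.inter ?_ (MeasurableSet.inter ?_ ?_)
    · exact measurableSet_lt (measurable_snd.comp measurable_fst)
        ((measurable_eta hω k).comp measurable_snd)
    · exact measurableSet_lt (measurable_fst.comp measurable_fst) measurable_snd
    · exact measurableSet_lt measurable_snd measurable_const
  exact measurable_measure_prodMk_left hs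

theorem pen_eq_integral_eta (hω : Nice ω) (hp : p ∈ Ioo (0:ℝ) 1) {k : ℝ → ℝ} (hk : IsPen ω p k)
    {y : ℝ} (hy : y ∈ {y | 0 < cdf ω y ∧ cdf ω y < 1}) (hyp : y < quantile ω p) :
    (∀ z ∈ Ioo y (quantile ω p), 0 ≤ eta ω p k z) ∧
    IntegrableOn (eta ω p k) (Ioo y (quantile ω p)) ∧
    ∫ z in Ioo y (quantile ω p), eta ω p k z = k y := by
  set b := quantile ω p with hb
  have hbI := hω.quantile_mem hp
  have hI := Icc_sub hy hbI
  have hcont : ContinuousOn k {y | 0 < cdf ω y ∧ cdf ω y < 1} := hk.1.continuousOn hω.isOpen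
  have hint : interior {y | 0 < cdf ω y ∧ cdf ω y < 1} = {y | 0 < cdf ω y ∧ cdf ω y < 1} :=
    hω.isOpen.interior_eq
  have hder : ∀ x ∈ Icc y b, HasDerivWithinAt k (derivWithin k (Ioi x) x) (Ioi x) x := fun x hx =>
    hk.1.hasDerivWithinAt_rightDeriv_of_mem_interior (by rw [hint]; exact hI x hx)
  have hmono : MonotoneOn (fun x => derivWithin k (Ioi x) x) (Icc y b) := by
    have := hk.1.monotoneOn_rightDeriv
    rw [hint] at this
    exact this.mono fun x hx => hI x hx
  have hii : IntervalIntegrable (fun x => derivWithin k (Ioi x) x) volume y b := by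
    refine MonotoneOn.intervalIntegrable ?_
    rwa [uIcc_of_le hyp.le]
  have hftc := intervalIntegral.integral_eq_sub_of_hasDeriv_right_of_le hyp.le
    (hcont.mono hI) (fun x hx => hder x (Ioo_subset_Icc_self hx)) hii
  rw [hk.2.2 b hbI le_rfl] at hftc
  have hnn : ∀ z ∈ Icc y b, derivWithin k (Ioi z) z ≤ 0 := by
    intro z hz
    have hzI := hI z hz
    have hnhds : {y | 0 < cdf ω y ∧ cdf ω y < 1} ∈ 𝓝[>] z :=
      mem_nhdsWithin_of_mem_nhds (hω.isOpen.mem_nhds hzI)
    have ht := hasDerivWithinAt_iff_tendsto_slope.1 (hder z hz)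
    have hset : Ioi z \ {z} = Ioi z := by ext; simp
    rw [hset] at ht
    refine le_of_tendsto ht ?_
    filter_upwards [hnhds, self_mem_nhdsWithin] with x hx hzx
    have hzx' : z < x := hzx
    rw [slope_def_field]
    exact div_nonpos_of_nonpos_of_nonneg (sub_nonpos.2 (hk.2.1 hzI hx hzx'.le))
      (sub_pos.2 hzx').le
  have heq : ∀ z ∈ Ioo y b, eta ω p k z = -(derivWithin k (Ioi z) z) := by
    intro z hz
    unfold eta
    exact if_pos ⟨hI z (Ioo_subset_Icc_self hz), hz.2⟩
  refine ⟨fun z hz => ?_, ?_, ?_⟩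
  · rw [heq z hz]; linarith [hnn z (Ioo_subset_Icc_self hz)]
  · refine IntegrableOn.congr_fun ?_ (fun z hz => (heq z hz).symm) measurableSet_Ioo
    exact ((intervalIntegrable_iff_integrableOn_Ioo_of_le hyp.le).1 hii).neg
  · rw [setIntegral_congr_fun measurableSet_Ioo heq, integral_neg, ← integral_Ioc_eq_integral_Ioo,
      ← intervalIntegral.integral_of_le hyp.le, hftc]
    ring

/-- layer-cake representation of a pen -/
theorem pen_eq_lev (hω : Nice ω) (hp : p ∈ Ioo (0:ℝ) 1) {k : ℝ → ℝ} (hk : IsPen ω p k)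
    {y : ℝ} (hy : y ∈ {y | 0 < cdf ω y ∧ cdf ω y < 1}) :
    k y = ∫ r in Ioi (0:ℝ), lev ω p k (y, r) := by
  rcases lt_or_ge y (quantile ω p) with hyp | hyp
  · obtain ⟨h1, h2, h3⟩ := pen_eq_integral_eta hω hp hk hy hyp
    rw [← h3, Integrable.integral_eq_integral_meas_lt h2]
    · refine integral_congr_ae (ae_of_all _ fun r => ?_)
      simp only [lev, Measure.real]
      congr 1
      rw [Measure.restrict_apply]
      · congr 1
      · exact measurableSet_lt measurable_const (measurable_eta hω k)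
    · exact (ae_restrict_mem measurableSet_Ioo).mono h1
  · rw [hk.2.2 y hy hyp]
    have : ∀ r, lev ω p k (y, r) = 0 := by
      intro r
      simp only [lev]
      have : {x : ℝ | r < eta ω p k x ∧ y < x ∧ x < quantile ω p} = ∅ := by
        ext x
        simp only [Set.mem_ofPred_eq, Set.mem_empty_iff_false, iff_false]
        rintro ⟨_, h1, h2⟩
        linarith
      rw [this]; simp
    simp [this]

/-- each level is zero or a hinge function -/
theorem lev_cases (hω : Nice ω) (hp : p ∈ Ioo (0:ℝ) 1) {k : ℝ → ℝ} (hk : IsPen ω p k)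
    {r : ℝ} (hr : 0 < r) :
    (∀ y ∈ {y | 0 < cdf ω y ∧ cdf ω y < 1}, lev ω p k (y, r) = 0) ∨
    ∃ t ∈ {y | 0 < cdf ω y ∧ cdf ω y < 1}, t ≤ quantile ω p ∧
      ∀ y ∈ {y | 0 < cdf ω y ∧ cdf ω y < 1}, lev ω p k (y, r) = max (t - y) 0 := by
  have hbI := hω.quantile_mem hp
  set b := quantile ω p with hb
  set S := {x : ℝ | r < eta ω p k x} with hS
  have hSI : ∀ x ∈ S, (0 < cdf ω x ∧ cdf ω x < 1) ∧ x < b := by
    intro x hx
    by_contra hcon
    have hx' : r < eta ω p k x := hx
    unfold eta at hx'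
    rw [if_neg hcon] at hx'
    linarith
  have hanti : ∀ x ∈ S, ∀ y ∈ {y | 0 < cdf ω y ∧ cdf ω y < 1}, y ≤ x → y ∈ S := by
    intro x hx y hy hyx
    have hxI := hSI x hx
    have hmono : MonotoneOn (fun x => derivWithin k (Ioi x) x)
        {y | 0 < cdf ω y ∧ cdf ω y < 1} := by
      have := hk.1.monotoneOn_rightDeriv
      rwa [hω.isOpen.interior_eq] at this
    have h1 := hmono hy hxI.1 hyx
    have hx' : r < eta ω p k x := hx
    change r < eta ω p k y
    unfold eta at hx' ⊢
    rw [if_pos hxI] at hx'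
    rw [if_pos ⟨hy, lt_of_le_of_lt hyx hxI.2⟩]
    simp only at h1
    linarith
  rcases S.eq_empty_or_nonempty with he | hne
  · left
    intro y _
    simp only [lev]
    have : {x : ℝ | r < eta ω p k x ∧ y < x ∧ x < quantile ω p} = ∅ := by
      ext x
      simp only [Set.mem_ofPred_eq, Set.mem_empty_iff_false, iff_false]
      rintro ⟨h1, _⟩
      have : x ∈ S := h1
      rw [he] at this
      exact this
    rw [this]; simp
  · right
    have hbdd : BddAbove S := ⟨b, fun x hx => (hSI x hx).2.le⟩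
    obtain ⟨x0, hx0⟩ := hne
    have h1 : x0 ≤ sSup S := le_csSup hbdd hx0
    have h2 : sSup S ≤ b := csSup_le ⟨x0, hx0⟩ fun x hx => (hSI x hx).2.le
    refine ⟨sSup S, Icc_sub (hSI x0 hx0).1 hbI _ ⟨h1, h2⟩, h2, fun y hy => ?_⟩
    have hsub1 : Ioo y (sSup S) ⊆ {x : ℝ | r < eta ω p k x ∧ y < x ∧ x < quantile ω p} := by
      intro x hx
      obtain ⟨x', hx', hxx'⟩ := exists_lt_of_lt_csSup ⟨x0, hx0⟩ hx.2
      have hxI : x ∈ {y | 0 < cdf ω y ∧ cdf ω y < 1} :=
        Icc_sub hy (hSI x' hx').1 x ⟨hx.1.le, hxx'.le⟩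
      exact ⟨hanti x' hx' x hxI hxx'.le, hx.1, lt_of_lt_of_le hx.2 h2⟩
    have hsub2 : {x : ℝ | r < eta ω p k x ∧ y < x ∧ x < quantile ω p} ⊆ Ioc y (sSup S) := by
      rintro x ⟨h3, h4, _⟩
      exact ⟨h4, le_csSup hbdd h3⟩
    have hv : volume {x : ℝ | r < eta ω p k x ∧ y < x ∧ x < quantile ω p}
        = ENNReal.ofReal (sSup S - y) := by
      refine le_antisymm ?_ ?_
      · have := measure_mono (μ := volume) hsub2
        rwa [Real.volume_Ioc] at this
      · have := measure_mono (μ := volume) hsub1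
        rwa [Real.volume_Ioo] at this
    simp only [lev]
    rw [← hb] at hv
    rw [hv, ENNReal.toReal_ofReal']

end

end Pool.Agent.Lib.MP_c5814c_pr
end

section

namespace Pool.Agent.Lib.MP_c5814c_pr

open MeasureTheory ProbabilityTheory Set Filter
open scoped ENNReal Topology RealInnerProductSpace

section

variable {ω : Measure ℝ} {n j : ℕ} {p : ℝ}

theorem lev_nonneg (k : ℝ → ℝ) (z : ℝ × ℝ) : 0 ≤ lev ω p k z := ENNReal.toReal_nonneg

theorem integrable_lev (hω : Nice ω) (hp : p ∈ Ioo (0:ℝ) 1) {k : ℝ → ℝ} (hk : IsPen ω p k)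
    {y : ℝ} (hy : y ∈ {y | 0 < cdf ω y ∧ cdf ω y < 1}) :
    IntegrableOn (fun r => lev ω p k (y, r)) (Ioi 0) := by
  by_cases h0 : k y = 0
  · have hz : ∀ r ∈ Ioi (0:ℝ), lev ω p k (y, r) = 0 := by
      intro r hr
      rcases lt_or_ge y (quantile ω p) with hyp | hyp
      · obtain ⟨h1, h2, h3⟩ := pen_eq_integral_eta hω hp hk hy hyp
        rw [h0] at h3
        have h4 : ∀ᵐ x ∂(volume.restrict (Ioo y (quantile ω p))), eta ω p k x = 0 := by
          have h5 := (setIntegral_eq_zero_iff_of_nonneg_ae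
            ((ae_restrict_mem measurableSet_Ioo).mono h1) h2).1 h3
          exact h5
        simp only [lev]
        have h6 : volume {x : ℝ | r < eta ω p k x ∧ y < x ∧ x < quantile ω p} = 0 := by
          have h7 := (ae_restrict_iff' measurableSet_Ioo).1 h4
          rw [measure_eq_zero_iff_ae_notMem]
          filter_upwards [h7] with x hx hxs
          have h8 := hx ⟨hxs.2.1, hxs.2.2⟩
          have h9 : r < eta ω p k x := hxs.1
          have : 0 < r := hr
          linarith
        rw [h6]; simp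
      · simp only [lev]
        have : {x : ℝ | r < eta ω p k x ∧ y < x ∧ x < quantile ω p} = ∅ := by
          ext x
          simp only [Set.mem_ofPred_eq, Set.mem_empty_iff_false, iff_false]
          rintro ⟨_, h1, h2⟩
          linarith
        rw [this]; simp
    refine (integrableOn_zero).congr_fun (fun r hr => (hz r hr).symm) measurableSet_Ioi
  · by_contra hn
    apply h0
    rw [pen_eq_lev hω hp hk hy]
    exact integral_undef hn

/-- From the hinge functions to all pens. -/
theorem proj_of_hinge (hω : Nice ω) {t0 : ℝ} (h0 : MemLp (trunc ω t0) 2 unif)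
    (hp : p ∈ Ioo (0:ℝ) 1) {P : ℝ → ℝ} (hPen : IsPen ω p P)
    (hPL : MemLp (fun u => P (quantile ω u)) 2 unif)
    (hh : ∀ t ∈ {y | 0 < cdf ω y ∧ cdf ω y < 1}, t ≤ quantile ω p →
      ∫ u, (t - trunc ω t u) * pdfU n j u ∂unif
        ≤ ∫ u, (t - trunc ω t u) * (P (quantile ω u) - ∫ v, P (quantile ω v) ∂unif) ∂unif)
    (heq : ∫ u, P (quantile ω u) * pdfU n j u ∂unif
        = ∫ u, P (quantile ω u) * (P (quantile ω u) - ∫ v, P (quantile ω v) ∂unif) ∂unif) :
    IsProj ω n j p P := by
  have hprω := hω.prob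
  refine ⟨hPen, hPL, fun k hk hkL => ?_, heq⟩
  set EP := ∫ v, P (quantile ω v) ∂unif with hEP
  set σ : ℝ → ℝ := fun u => pdfU n j u - (P (quantile ω u) - EP) with hσ
  have hrc : MemLp (fun u => P (quantile ω u) - EP) 2 unif := hPL.sub (memLp_const _)
  have hσL : MemLp σ 2 unif := (memLp_dens n j).sub hrc
  have hsplit : ∀ g : ℝ → ℝ, MemLp g 2 unif → ∫ u, g u * σ u ∂unif
      = (∫ u, g u * pdfU n j u ∂unif) - ∫ u, g u * (P (quantile ω u) - EP) ∂unif := by
    intro g hg
    have e1 : ∀ u, g u * σ u = g u * pdfU n j u - g u * (P (quantile ω u) - EP) := fun u => by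
      simp only [hσ]; ring
    simp only [e1]
    rw [integral_sub (integrable_mul_dens hg n j) (integrable_mul2 hg hrc)]
  -- Fubini
  set ρ : Measure ℝ := volume.restrict (Ioi (0:ℝ)) with hρ
  have hmeas : AEStronglyMeasurable (fun z : ℝ × ℝ => lev ω p k (quantile ω z.1, z.2) * σ z.1)
      (unif.prod ρ) := by
    have h1 : AEMeasurable (fun z : ℝ × ℝ => quantile ω z.1) (unif.prod ρ) :=
      (aemeasurable_quantile ω).comp_quasiMeasurePreserving Measure.quasiMeasurePreserving_fst
    have h2 : AEMeasurable (fun z : ℝ × ℝ => (quantile ω z.1, z.2)) (unif.prod ρ) :=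
      h1.prodMk measurable_snd.aemeasurable
    have h3 : AEMeasurable (fun z : ℝ × ℝ => lev ω p k (quantile ω z.1, z.2)) (unif.prod ρ) :=
      (measurable_lev hω k).comp_aemeasurable h2
    have h4 : AEMeasurable (fun z : ℝ × ℝ => σ z.1) (unif.prod ρ) :=
      hσL.1.aemeasurable.comp_quasiMeasurePreserving Measure.quasiMeasurePreserving_fst
    exact (h3.mul h4).aestronglyMeasurable
  have hkey : ∀ u ∈ Ioo (0:ℝ) 1, ∫ r, lev ω p k (quantile ω u, r) ∂ρ = k (quantile ω u) :=
    fun u hu => (pen_eq_lev hω hp hk (hω.quantile_mem hu)).symm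
  have hint : Integrable (Function.uncurry fun u r => lev ω p k (quantile ω u, r) * σ u)
      (unif.prod ρ) := by
    have hmeas' : AEStronglyMeasurable
        (Function.uncurry fun u r => lev ω p k (quantile ω u, r) * σ u) (unif.prod ρ) := hmeas
    rw [integrable_prod_iff hmeas']
    constructor
    · filter_upwards [ae_unif_mem] with u hu
      exact (integrable_lev hω hp hk (hω.quantile_mem hu)).mul_const (σ u)
    · have h1 : Integrable (fun u => |k (quantile ω u) * σ u|) unif :=
        (integrable_mul2 hkL hσL).abs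
      refine h1.congr ?_
      filter_upwards [ae_unif_mem] with u hu
      have e1 : ∀ r, ‖Function.uncurry (fun u r => lev ω p k (quantile ω u, r) * σ u) (u, r)‖
          = lev ω p k (quantile ω u, r) * |σ u| := fun r => by
        simp only [Function.uncurry, Real.norm_eq_abs, abs_mul]
        rw [abs_of_nonneg (lev_nonneg k _)]
      simp only [e1]
      rw [integral_mul_const, hkey u hu, abs_mul, abs_of_nonneg
        (hk.nonneg hω hp (hω.quantile_mem hu))]
  have hswap := integral_integral_swap hint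
  have hL : ∫ u, ∫ r, lev ω p k (quantile ω u, r) * σ u ∂ρ ∂unif
      = ∫ u, k (quantile ω u) * σ u ∂unif := by
    refine integral_congr_ae ?_
    filter_upwards [ae_unif_mem] with u hu
    rw [integral_mul_const, hkey u hu]
  have hR : ∫ r, ∫ u, lev ω p k (quantile ω u, r) * σ u ∂unif ∂ρ ≤ 0 := by
    refine integral_nonpos_of_ae ?_
    filter_upwards [ae_restrict_mem measurableSet_Ioi] with r hr
    rcases lev_cases hω hp hk hr with h | ⟨t, htI, htp, h⟩
    · have : ∫ u, lev ω p k (quantile ω u, r) * σ u ∂unif = ∫ _u, (0:ℝ) ∂unif := by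
        refine integral_congr_ae ?_
        filter_upwards [ae_unif_mem] with u hu
        rw [h _ (hω.quantile_mem hu), zero_mul]
      rw [this]; simp
    · have htL : MemLp (fun u => t - trunc ω t u) 2 unif :=
        (memLp_const t).sub (trunc_memLp hω h0 t)
      have : ∫ u, lev ω p k (quantile ω u, r) * σ u ∂unif = ∫ u, (t - trunc ω t u) * σ u ∂unif := by
        refine integral_congr_ae ?_
        filter_upwards [ae_unif_mem] with u hu
        rw [h _ (hω.quantile_mem hu)]
        congr 1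
        unfold trunc
        rcases le_total (quantile ω u) t with h' | h'
        · rw [min_eq_left h', max_eq_left (by linarith)]
        · rw [min_eq_right h', max_eq_right (by linarith)]; ring
      rw [this, hsplit _ htL]
      have := hh t htI htp
      simp only [Pi.zero_apply]
      linarith
  rw [hL] at hswap
  rw [← hswap, hsplit _ hkL] at hR
  linarith

end

end Pool.Agent.Lib.MP_c5814c_pr
end

section

namespace Pool.Agent.Lib.MP_c5814c_pr

open MeasureTheory ProbabilityTheory Set Filter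
open scoped ENNReal Topology RealInnerProductSpace

/-- Stability in the Cauchy–Schwarz step. -/
theorem stability {q G : ℝ → ℝ} (hq : MemLp q 2 unif) (hG : MemLp G 2 unif)
    (h0 : ∫ u, G u ∂unif = 0) (hB : 0 < ∫ u, G u ^ 2 ∂unif) (hV : 0 < variance q unif) {T : ℝ}
    (hT : T ≤ ∫ u, q u * G u ∂unif) :
    ∫ u, ((q u - ∫ v, q v ∂unif) / √(variance q unif) - G u / √(∫ v, G v ^ 2 ∂unif)) ^ 2 ∂unif
      ≤ 2 * (1 - T / √(variance q unif) / √(∫ v, G v ^ 2 ∂unif)) := by
  set m := ∫ v, q v ∂unif with hm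
  set V := variance q unif with hVd
  set B := ∫ v, G v ^ 2 ∂unif with hBd
  have hsV := Real.sqrt_pos.2 hV
  have hsB := Real.sqrt_pos.2 hB
  have hqm : MemLp (fun u => q u - m) 2 unif := hq.sub (memLp_const m)
  have e1 : ∀ u, ((q u - m) / √V - G u / √B) ^ 2
      = (1 / V) * (q u - m) ^ 2 - 2 / (√V * √B) * ((q u - m) * G u) + (1 / B) * G u ^ 2 := by
    intro u
    have h1 : √V ^ 2 = V := Real.sq_sqrt hV.le
    have h2 : √B ^ 2 = B := Real.sq_sqrt hB.le
    rw [sub_sq, div_pow, div_pow, h1, h2]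
    field_simp
  simp only [e1]
  have i1 : Integrable (fun u => (1 / V) * (q u - m) ^ 2) unif := hqm.integrable_sq.const_mul _
  have i2 : Integrable (fun u => 2 / (√V * √B) * ((q u - m) * G u)) unif :=
    (integrable_mul2 hqm hG).const_mul _
  have i3 : Integrable (fun u => (1 / B) * G u ^ 2) unif := hG.integrable_sq.const_mul _
  have i4 : Integrable (fun u => (1 / V) * (q u - m) ^ 2 - 2 / (√V * √B) * ((q u - m) * G u)) unif :=
    i1.sub i2
  rw [integral_add i4 i3, integral_sub i1 i2, integral_const_mul, integral_const_mul,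
    integral_const_mul]
  have hVi : ∫ u, (q u - m) ^ 2 ∂unif = V := by
    rw [hVd, variance_eq_integral hq.1.aemeasurable]
  have hA : ∫ u, (q u - m) * G u ∂unif = ∫ u, q u * G u ∂unif := by
    have h1 : ∀ u, (q u - m) * G u = q u * G u - m * G u := fun u => by ring
    simp only [h1]
    have j1 : Integrable (fun u => m * G u) unif := (hG.integrable one_le_two).const_mul m
    rw [integral_sub (integrable_mul2 hq hG) j1, integral_const_mul, h0]
    ring
  rw [hVi, hA, ← hBd]
  have h3 : (1 / V) * V = 1 := by field_simp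
  have h4 : (1 / B) * B = 1 := by field_simp
  rw [h3, h4]
  have h5 : T / √V / √B = 1 / (√V * √B) * T := by field_simp
  rw [h5]
  have h6 : 1 / (√V * √B) * T ≤ 1 / (√V * √B) * ∫ u, q u * G u ∂unif :=
    mul_le_mul_of_nonneg_left hT (by positivity)
  have h7 : 2 / (√V * √B) * ∫ u, q u * G u ∂unif
      = 2 * (1 / (√V * √B) * ∫ u, q u * G u ∂unif) := by ring
  rw [h7]
  linarith

section

variable {ω : Measure ℝ} {n : ℕ} {j : Fin n} {p : ℝ}

theorem mean_eq (ν : Measure ℝ) [IsProbabilityMeasure ν] :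
    ∫ x, x ∂ν = ∫ u, quantile ν u ∂unif := by
  conv_lhs => rw [← map_quantile ν]
  rw [integral_map (aemeasurable_quantile ν) (by fun_prop)]

theorem stdQ_upper (hp : p ∈ Ioo (0:ℝ) 1) (hjp : ((j : ℕ) : ℝ) ≤ (n - 1) * p) {ν : Measure ℝ}
    (hν : Proper ν) :
    ∫ u in (0:ℝ)..1, (stdQ ν u - (if u ≤ p then -√((1 - p) / p) else √(p / (1 - p)))) ^ 2
      ≤ 2 * (1 - bias n j p ν / ((1 - cdfU n j p) / √(p * (1 - p)))) := by
  have := hν.1
  have hq := memLp_quantile hν.2.1
  have hF : 0 < 1 - cdfU n j p := by linarith [dist_lt_one j.2 ⟨hp.1.le, hp.2⟩]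
  have h1p : 0 < 1 - p := by linarith [hp.2]
  have hp0 := hp.1
  have hB : 0 < ∫ u, GB n j p u ^ 2 ∂unif := by
    rw [integral_GB_sq hp]
    positivity
  have hV : 0 < variance (quantile ν) unif := by rw [variance_quantile]; exact hν.2.2
  have h := stability hq (memLp_GB (q := 2)) (integral_GB hp) hB hV
    (num_le_GB j.2 hp hjp hq (quantile_mono ν))
  rw [sqrt_GB j.2 hp] at h
  rw [bias_eq]
  refine le_of_eq_of_le ?_ h
  rw [← integral_unif]
  refine integral_congr_ae (ae_of_all _ fun u => ?_)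
  simp only [stdQ]
  rw [mean_eq, variance_quantile]
  congr 2
  have hs : √(p * (1 - p)) = √p * √(1 - p) := Real.sqrt_mul hp0.le _
  have hsp := Real.sqrt_pos.2 hp0
  have hs1 := Real.sqrt_pos.2 h1p
  have hpp : √p * √p = p := Real.mul_self_sqrt hp0.le
  have h11 : √(1 - p) * √(1 - p) = 1 - p := Real.mul_self_sqrt h1p.le
  unfold GB
  split_ifs with hu
  · rw [hs, Real.sqrt_div h1p.le]
    rw [neg_div]
    congr 1
    rw [div_div_div_eq, div_eq_div_iff hsp.ne' (by positivity)]
    calc √(1 - p) * (p * (1 - cdfU n j p)) = √(1 - p) * ((√p * √p) * (1 - cdfU n j p)) := by rw [hpp]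
      _ = (1 - cdfU n j p) * (√p * √(1 - p)) * √p := by ring
  · rw [hs, Real.sqrt_div hp0.le, div_div_div_eq, div_eq_div_iff hs1.ne' (by positivity)]
    calc √p * ((1 - p) * (1 - cdfU n j p))
        = √p * ((√(1 - p) * √(1 - p)) * (1 - cdfU n j p)) := by rw [h11]
      _ = (1 - cdfU n j p) * (√p * √(1 - p)) * √(1 - p) := by ring

theorem stdQ_lower (hj : (j : ℕ) + 1 < n) (hp : p ∈ Ioo (0:ℝ) 1)
    (hjp : ((j : ℕ) : ℝ) ≤ (n - 1) * p) {s m : ℝ} (hs : IsSwitch n j s) (hm : m = min s p)
    {ν : Measure ℝ} (hν : Proper ν) :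
    ∫ u in (0:ℝ)..1, (stdQ ν u - HC n j p m u / √(∫ v, HC n j p m v ^ 2 ∂unif)) ^ 2
      ≤ 2 * (1 - bias n j p ν / (-√(∫ v, HC n j p m v ^ 2 ∂unif))) := by
  have hpr := hν.1
  have hq := memLp_quantile hν.2.1
  have hs0 := switch_nonneg hs
  have hm0 : 0 ≤ m := by rw [hm]; exact le_min hs0 hp.1.le
  have hmp : m ≤ p := by rw [hm]; exact min_le_right _ _
  have hB := integral_HC_sq_pos (n := n) (j := j) j.2 hm0 hmp hp
  have hkey := neg_num_le_HC hj hs hp hjp hm hq (quantile_mono ν)
  have hV : 0 < variance (quantile ν) unif := by rw [variance_quantile]; exact hν.2.2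
  have h := stability hq (memLp_HC (q := 2)) (integral_HC j.2 hm0 hmp hp) hB hV hkey.1
  have h2 : bias n j p ν / (-√(∫ v, HC n j p m v ^ 2 ∂unif))
      = -num n j p (quantile ν) / √(variance (quantile ν) unif)
        / √(∫ v, HC n j p m v ^ 2 ∂unif) := by
    rw [bias_eq, div_neg, neg_div, neg_div]
  rw [h2]
  refine le_of_eq_of_le ?_ h
  rw [← integral_unif]
  refine integral_congr_ae (ae_of_all _ fun u => ?_)
  simp only [stdQ]
  rw [mean_eq, variance_quantile]

end

end Pool.Agent.Lib.MP_c5814c_pr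
end
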