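import Pool.Agent.Lib.MP_c5814c_pr.Mg.G004

section

namespace Pool.Agent.Lib.MP_c5814c_pr

open MeasureTheory ProbabilityTheory Set Filter
open scoped ENNReal Topology RealInnerProductSpace

section

variable {ω : Measure ℝ} {n : ℕ} {j : Fin n} {p : ℝ}

/-- The biases of `min(Y,t)` for `t` below the `p`-quantile. -/
theorem bias_trunc_small (hω : Nice ω) {t0 : ℝ} (h0 : MemLp (trunc ω t0) 2 unif)
    (hp : p ∈ Ioo (0:ℝ) 1) :
    ∃ M : ℝ, 0 < M ∧ ∀ w ∈ Ioo 0 p,
      -(M * √(w / (1 - w))) ≤ bias n j p (Measure.map (fun y => min y (quantile ω w)) ω) ∧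
      bias n j p (Measure.map (fun y => min y (quantile ω w)) ω) ≤ 0 := by
  have hprω := hω.prob
  obtain ⟨M, hM0, hM⟩ := dens_bdd n j
  refine ⟨M, hM0, fun w hwI => ?_⟩
  have hw0 := hwI.1
  have hwp := hwI.2
  have hw : w ∈ Ioo (0:ℝ) 1 := ⟨hw0, hwp.trans hp.2⟩
  set t := quantile ω w with ht
  have htI := hω.quantile_mem hw
  have hX := trunc_memLp hω h0 t
  have hmin : min (quantile ω p) t = t := min_eq_right (quantile_mono ω hw hp hwp.le)
  rw [bias_trunc hω hp h0 t, hmin]
  have hV := vr_pos hω h0 htI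
  have hg := gap_pos hω h0 htI
  have h1w : 0 < 1 - w := by linarith [hw.2]
  have hs : MemLp (fun u => t - trunc ω t u) 2 unif := (memLp_const t).sub hX
  have e1 : t - en ω n j t = ∫ u, (t - trunc ω t u) * pdfU n j u ∂unif := by
    have e2 : ∀ u, (t - trunc ω t u) * pdfU n j u
        = t * pdfU n j u - trunc ω t u * pdfU n j u := fun u => by ring
    simp only [e2]
    rw [integral_sub ((integrable_dens n j).const_mul _) (integrable_mul_dens hX n j),
      integral_const_mul, integral_dens_unif j.2]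
    unfold en; ring
  have hpos : 0 ≤ t - en ω n j t := by
    rw [e1]
    refine integral_nonneg_of_ae ?_
    filter_upwards [dens_nonneg_ae n j] with u hu
    exact mul_nonneg (sub_nonneg.2 (min_le_right _ _)) hu
  -- numerator
  have hnum : -(M * (t - mn ω t)) ≤ en ω n j t - t := by
    have e3 : ∫ u, (t - trunc ω t u) * pdfU n j u ∂unif ≤ ∫ u, M * (t - trunc ω t u) ∂unif := by
      refine integral_mono_ae (integrable_mul_dens hs n j)
        ((hs.integrable one_le_two).const_mul M) ?_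
      filter_upwards [ae_unif_mem] with u hu
      have h1 : 0 ≤ t - trunc ω t u := sub_nonneg.2 (min_le_right _ _)
      have h2 := (le_abs_self _).trans (hM u (Ioo_subset_Icc_self hu))
      have := mul_le_mul_of_nonneg_left h2 h1
      linarith
    rw [integral_const_mul, integral_sub (integrable_const _) (hX.integrable one_le_two)] at e3
    simp only [integral_const, probReal_univ, one_smul] at e3
    have e4 : ∫ u, trunc ω t u ∂unif = mn ω t := rfl
    rw [e4] at e3
    linarith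
  -- variance
  have hvar : (1 - w) / w * (t - mn ω t) ^ 2 ≤ vr ω t := by
    have hind : Measurable (fun u : ℝ => if u ≤ w then (1:ℝ) else 0) :=
      Measurable.ite measurableSet_Iic measurable_const measurable_const
    have hindL : MemLp (fun u : ℝ => if u ≤ w then (1:ℝ) else 0) 2 unif :=
      memLp_of_bdd hind.aemeasurable (M := 1) fun u _ => by split_ifs <;> simp
    have hg2 : ∫ u, (if u ≤ w then (1:ℝ) else 0) ^ 2 ∂unif = w := by
      have := integral_two (p := w) (hindL.integrable_sq) hw (a := 1) (b := 0)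
        (fun u hu => by simp [hu.2.le]) (fun u hu => by simp [not_le.2 hu.1])
      rw [this]; ring
    have hc := (cauchy hs hindL (by rw [hg2]; exact hw0)).1
    rw [hg2] at hc
    have e1 : ∫ u, (t - trunc ω t u) * (if u ≤ w then (1:ℝ) else 0) ∂unif = t - mn ω t := by
      have e2 : ∫ u, (t - trunc ω t u) * (if u ≤ w then (1:ℝ) else 0) ∂unif
          = ∫ u, (t - trunc ω t u) ∂unif := by
        refine integral_congr_ae ?_
        filter_upwards [ae_unif_mem] with u hu
        by_cases h : u ≤ w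
        · simp [h]
        · have : trunc ω t u = t := min_eq_right (quantile_mono ω hw hu (not_le.1 h).le)
          simp [h, this]
      rw [e2, integral_sub (integrable_const _) (hX.integrable one_le_two)]
      simp [mn]
    rw [e1] at hc
    have e3 : ∫ u, (t - trunc ω t u) ^ 2 ∂unif = vr ω t + (t - mn ω t) ^ 2 := by
      have e4 : ∀ u, (t - trunc ω t u) ^ 2
          = t ^ 2 - 2 * t * trunc ω t u + trunc ω t u ^ 2 := fun u => by ring
      simp only [e4]
      have i1 : Integrable (fun u => 2 * t * trunc ω t u) unif :=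
        (hX.integrable one_le_two).const_mul _
      have i2 : Integrable (fun u => t ^ 2 - 2 * t * trunc ω t u) unif :=
        (integrable_const _).sub i1
      rw [integral_add i2 hX.integrable_sq, integral_sub (integrable_const _) i1,
        integral_const_mul]
      simp only [integral_const, probReal_univ, one_smul]
      unfold vr mn
      ring
    rw [e3] at hc
    rw [div_mul_eq_mul_div, div_le_iff₀ hw0]
    nlinarith
  have hsV := Real.sqrt_pos.2 hV
  constructor
  · rw [le_div_iff₀ hsV]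
    have h5 : (t - mn ω t) ≤ √(w / (1 - w)) * √(vr ω t) := by
      rw [← Real.sqrt_mul (div_nonneg hw0.le h1w.le)]
      refine Real.le_sqrt_of_sq_le ?_
      calc (t - mn ω t) ^ 2 = w / (1 - w) * ((1 - w) / w * (t - mn ω t) ^ 2) := by field_simp
        _ ≤ _ := mul_le_mul_of_nonneg_left hvar (div_nonneg hw0.le h1w.le)
    have h6 := mul_le_mul_of_nonneg_left h5 hM0.le
    have h7 : -(M * √(w / (1 - w))) * √(vr ω t) = -(M * (√(w / (1 - w)) * √(vr ω t))) := by ring
    rw [h7]
    linarith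
  · exact div_nonpos_of_nonpos_of_nonneg (by linarith) hsV.le

theorem tendsto_bias_trunc (hω : Nice ω) {t0 : ℝ} (h0 : MemLp (trunc ω t0) 2 unif)
    (hp : p ∈ Ioo (0:ℝ) 1) :
    Tendsto (fun w => bias n j p (Measure.map (fun y => min y (quantile ω w)) ω))
      (𝓝[>] 0) (𝓝 0) := by
  obtain ⟨M, hM0, hM⟩ := bias_trunc_small (n := n) (j := j) hω h0 hp
  have h1 : Tendsto (fun w : ℝ => -(M * √(w / (1 - w)))) (𝓝[>] 0) (𝓝 0) := by
    have h2 : ContinuousAt (fun w : ℝ => -(M * √(w / (1 - w)))) 0 := by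
      refine (continuousAt_const.mul ?_).neg
      refine Real.continuous_sqrt.continuousAt.comp ?_
      exact continuousAt_id.div (continuousAt_const.sub continuousAt_id) (by simp)
    have h3 := h2.tendsto
    simp only [zero_div, Real.sqrt_zero, mul_zero, neg_zero] at h3
    exact h3.mono_left nhdsWithin_le_nhds
  have hev : ∀ᶠ w in 𝓝[>] (0:ℝ), w ∈ Ioo 0 p := Ioo_mem_nhdsGT hp.1
  refine tendsto_of_tendsto_of_tendsto_of_le_of_le' h1 tendsto_const_nhds ?_ ?_
  · filter_upwards [hev] with w hw using (hM w hw).1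
  · filter_upwards [hev] with w hw using (hM w hw).2

/-- Two truncation levels giving the same type coincide. -/
theorem trunc_type_unique (hω : Nice ω) {t t' κ c : ℝ}
    (ht : t ∈ {y | 0 < cdf ω y ∧ cdf ω y < 1}) (ht' : t' ∈ {y | 0 < cdf ω y ∧ cdf ω y < 1})
    (hκ : 0 < κ)
    (h : Measure.map (fun y => min y t') ω = Measure.map (fun y => c + κ * min y t) ω) :
    t' = t := by
  have hprω := hω.prob
  have hm1 : MonotoneOn (fun y => min y t') {y | 0 < cdf ω y ∧ cdf ω y < 1} :=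
    fun x _ y _ hxy => min_le_min hxy le_rfl
  have hm2 : MonotoneOn (fun y => c + κ * min y t) {y | 0 < cdf ω y ∧ cdf ω y < 1} := by
    intro x _ y _ hxy
    have := mul_le_mul_of_nonneg_left (min_le_min hxy (le_refl t)) hκ.le
    simp only
    linarith
  have hq : ∀ u ∈ Ioo (0:ℝ) 1, min (quantile ω u) t' = c + κ * min (quantile ω u) t := by
    intro u hu
    have e1 := hω.quantile_map_comp hm1 (by fun_prop) hu
    have e2 := hω.quantile_map_comp hm2 (by fun_prop) hu
    rw [h, e2] at e1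
    exact e1.symm
  -- near the left end both minima are the quantile
  set a := min (cdf ω t) (cdf ω t') with ha
  have ha0 : 0 < a := lt_min ht.1 ht'.1
  have ha1 : a < 1 := lt_of_le_of_lt (min_le_left _ _) ht.2
  have hlow : ∀ u, 0 < u → u ≤ a → quantile ω u = c + κ * quantile ω u := by
    intro u hu0 hua
    have hu : u ∈ Ioo (0:ℝ) 1 := ⟨hu0, lt_of_le_of_lt hua ha1⟩
    have h1 : quantile ω u ≤ t := (quantile_le_iff ω hu.1 hu.2 t).2 (hua.trans (min_le_left _ _))
    have h2 : quantile ω u ≤ t' := (quantile_le_iff ω hu.1 hu.2 t').2 (hua.trans (min_le_right _ _))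
    have := hq u hu
    rwa [min_eq_left h1, min_eq_left h2] at this
  have h1 := hlow (a / 2) (by linarith) (by linarith)
  have h2 := hlow a ha0 le_rfl
  have hlt : quantile ω (a / 2) < quantile ω a :=
    hω.quantile_strictMono ⟨by linarith, by linarith⟩ ⟨ha0, ha1⟩ (by linarith)
  have hκ1 : κ = 1 := by
    have : (κ - 1) * (quantile ω a - quantile ω (a / 2)) = 0 := by linarith
    rcases mul_eq_zero.1 this with h | h
    · linarith
    · linarith
  have hc0 : c = 0 := by rw [hκ1] at h1; linarith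
  -- near the right end
  set b := max (cdf ω t) (cdf ω t') with hb
  have hb1 : b < 1 := max_lt ht.2 ht'.2
  have hb0 : 0 < b := lt_of_lt_of_le ht.1 (le_max_left _ _)
  have hu : (b + 1) / 2 ∈ Ioo (0:ℝ) 1 := ⟨by linarith, by linarith⟩
  have h3 := hq _ hu
  have h4 : t < quantile ω ((b + 1) / 2) := (lt_quantile_iff ω hu.1 hu.2 t).2 (by
    have := le_max_left (cdf ω t) (cdf ω t'); rw [← hb] at this; linarith)
  have h5 : t' < quantile ω ((b + 1) / 2) := (lt_quantile_iff ω hu.1 hu.2 t').2 (by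
    have := le_max_right (cdf ω t) (cdf ω t'); rw [← hb] at this; linarith)
  rw [min_eq_right h4.le, min_eq_right h5.le, hκ1, hc0] at h3
  linarith

/-- The explicit case: the projection is a single hinge. -/
theorem single_hinge (hω : Nice ω) {t0 : ℝ} (h0 : MemLp (trunc ω t0) 2 unif)
    (hj : (j : ℕ) + 1 < n) (hp : p ∈ Ioo (0:ℝ) 1)
    (hcv : ConcaveOn ℝ {y | 0 < cdf ω y ∧ ((j : ℕ) : ℝ) / (n - 1) ≤ cdf ω y ∧ cdf ω y ≤ p}
      (fun y => pdfU n j (cdf ω y))) :
    ∃ c : ℝ, 0 < c ∧ IsProj ω n j p (fun y => c * max (quantile ω p - y) 0) := by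
  have hprω := hω.prob
  set yp := quantile ω p with hyp
  have hypI := hω.quantile_mem hp
  have hX := trunc_memLp hω h0 yp
  set D : ℝ → ℝ := fun u => max (yp - quantile ω u) 0 with hD
  have hDeq : ∀ u, D u = yp - trunc ω yp u := by
    intro u
    simp only [hD, trunc]
    rcases le_total (quantile ω u) yp with h | h
    · rw [min_eq_left h, max_eq_left (by linarith)]
    · rw [min_eq_right h, max_eq_right (by linarith)]; ring
  have hDL : MemLp D 2 unif :=
    ((memLp_const yp).sub hX).ae_eq (ae_of_all _ fun u => (hDeq u).symm)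
  have hD0 : ∀ u, 0 ≤ D u := fun u => le_max_right _ _
  have hDpos : ∀ u ∈ Ioo 0 p, D u = yp - quantile ω u ∧ 0 < yp - quantile ω u := by
    intro u hu
    have hu' : u ∈ Ioo (0:ℝ) 1 := ⟨hu.1, hu.2.trans hp.2⟩
    have := hω.quantile_strictMono hu' hp hu.2
    have h1 : 0 < yp - quantile ω u := by rw [hyp]; linarith
    exact ⟨max_eq_left h1.le, h1⟩
  have hDzero : ∀ u ∈ Ioo p 1, D u = 0 := by
    intro u hu
    have hu' : u ∈ Ioo (0:ℝ) 1 := ⟨hp.1.trans hu.1, hu.2⟩
    have := hω.quantile_strictMono hp hu' hu.1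
    exact max_eq_right (by rw [hyp]; linarith)
  set A := ∫ u, D u * pdfU n j u ∂unif with hA
  have hDdi : Integrable (fun u => D u * pdfU n j u) unif := integrable_mul_dens hDL n j
  have hA0 : 0 < A := by
    have h1 : 0 ≤ A := by
      refine integral_nonneg_of_ae ?_
      filter_upwards [dens_nonneg_ae n j] with u hu
      exact mul_nonneg (hD0 u) hu
    refine lt_of_le_of_ne h1 fun h => ?_
    rw [hA, integral_unif] at h
    have h5 := ae_zero_of zero_le_one
      (fun u hu => mul_nonneg (hD0 u) (dens_nonneg n j hu.1.le hu.2.le))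
      (Integrable.interval hDdi le_rfl zero_le_one le_rfl) h.symm
    obtain ⟨u, hu, hu2⟩ := exists_of_ae hp.1 (ae_restrict_of_ae_restrict_of_subset
      (Ioo_subset_Ioo le_rfl hp.2.le) h5)
    have hu' : u ∈ Ioo (0:ℝ) 1 := ⟨hu.1, hu.2.trans hp.2⟩
    rcases mul_eq_zero.1 hu2 with h | h
    · have := hDpos u hu; linarith
    · exact absurd h (dens_pos j.2 hu').ne'
  have hVX : variance D unif = vr ω yp := by
    have e1 : variance D unif = variance (fun u => yp - trunc ω yp u) unif :=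
      variance_congr (ae_of_all _ hDeq)
    rw [e1, variance_const_sub hX.1, (vr_eq hω h0 yp).1]
  have hV0 : 0 < variance D unif := by rw [hVX]; exact vr_pos hω h0 hypI
  set V := variance D unif with hV
  set c := A / V with hc
  have hc0 : 0 < c := div_pos hA0 hV0
  refine ⟨c, hc0, ?_⟩
  set P : ℝ → ℝ := fun y => c * max (yp - y) 0 with hP
  have hPen : IsPen ω p P := (isPen_hinge hω le_rfl).smul hc0.le
  have hPD : ∀ u, P (quantile ω u) = c * D u := fun u => rfl
  have hPL : MemLp (fun u => P (quantile ω u)) 2 unif := hDL.const_mul c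
  set ED := ∫ v, D v ∂unif with hED
  have hEP : ∫ v, P (quantile ω v) ∂unif = c * ED := by
    simp only [hPD]
    rw [integral_const_mul]
  have hED0 : 0 ≤ ED := integral_nonneg hD0
  have hDc : MemLp (fun u => D u - ED) 2 unif := hDL.sub (memLp_const _)
  have hVeq : V = ∫ u, D u * (D u - ED) ∂unif := var_eq_of_memLp hDL
  have heq : ∫ u, P (quantile ω u) * pdfU n j u ∂unif
      = ∫ u, P (quantile ω u) * (P (quantile ω u) - ∫ v, P (quantile ω v) ∂unif) ∂unif := by
    rw [hEP]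
    simp only [hPD]
    have e1 : ∀ u, c * D u * pdfU n j u = c * (D u * pdfU n j u) := fun u => by ring
    have e2 : ∀ u, c * D u * (c * D u - c * ED) = c ^ 2 * (D u * (D u - ED)) := fun u => by ring
    simp only [e1, e2]
    rw [integral_const_mul, integral_const_mul, ← hVeq, ← hA, hc]
    field_simp
  -- the weight
  set σ : ℝ → ℝ := fun u => pdfU n j u - (P (quantile ω u) - c * ED) with hσ
  have hσL : MemLp σ 2 unif := (memLp_dens n j).sub (hPL.sub (memLp_const _))
  have hDσ : ∫ u in (0:ℝ)..p, D u * σ u = 0 := by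
    have e1 : ∫ u, D u * σ u ∂unif = 0 := by
      have e2 : ∀ u, D u * σ u = D u * pdfU n j u - c * (D u * (D u - ED)) := fun u => by
        simp only [hσ, hPD]; ring
      simp only [e2]
      rw [integral_sub hDdi ((integrable_mul2 hDL hDc).const_mul c), integral_const_mul,
        ← hVeq, ← hA, hc]
      field_simp
      ring
    rw [integral_split (integrable_mul2 hDL hσL) ⟨hp.1.le, hp.2.le⟩] at e1
    have e3 : ∫ u in p..1, D u * σ u = 0 := by
      have : ∫ u in p..1, D u * σ u = ∫ u in p..1, (0:ℝ) :=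
        integral_congr_Ioo hp.2.le fun u hu => by rw [hDzero u hu, zero_mul]
      rw [this]; simp
    linarith
  -- the sign pattern
  have hn : (0:ℝ) < n - 1 := by
    have : (1:ℝ) < n := by exact_mod_cast (by omega : 1 < n)
    linarith
  have hjn : ((j:ℕ):ℝ) < n - 1 := by
    have : ((j:ℕ):ℝ) + 1 < n := by exact_mod_cast hj
    linarith
  set m0 := ((j : ℕ) : ℝ) / (n - 1) with hm0
  have hm00 : 0 ≤ m0 := div_nonneg (by positivity) hn.le
  have hm01 : m0 < 1 := (div_lt_one hn).2 hjn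
  have hjm : (n - 1) * m0 = ((j:ℕ):ℝ) := by rw [hm0]; field_simp
  have hσlow : ∀ u ∈ Ioo (0:ℝ) p, σ u = pdfU n j u - c * (yp - quantile ω u) + c * ED := by
    intro u hu
    simp only [hσ, hPD, (hDpos u hu).1]
    ring
  have hσmono : ∀ u ∈ Ioo (0:ℝ) p, ∀ v ∈ Ioo (0:ℝ) p, u ≤ v → v ≤ m0 → σ u ≤ σ v := by
    intro u hu v hv huv hvm
    rw [hσlow u hu, hσlow v hv]
    have h1 := dens_mono (n := n) (j := j) j.2 hm01.le hjm.le ⟨hu.1.le, huv.trans hvm⟩
      ⟨hv.1.le, hvm⟩ huv
    have h2 := quantile_mono ω ⟨hu.1, hu.2.trans hp.2⟩ ⟨hv.1, hv.2.trans hp.2⟩ huv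
    have h3 := mul_le_mul_of_nonneg_left h2 hc0.le
    linarith
  have hpat : ∀ u1 ∈ Ioo (0:ℝ) p, ∀ u2 ∈ Ioo (0:ℝ) p, u1 < u2 → 0 < σ u1 → σ u2 < 0 → False := by
    intro u1 hu1 u2 hu2 h12 hs1 hs2
    have hm2 : m0 < u2 := by
      by_contra hcon
      push Not at hcon
      have := hσmono u1 hu1 u2 hu2 h12.le hcon
      linarith
    -- move u1 to the right of the mode
    set v1 := max u1 m0 with hv1
    have hv1I : v1 ∈ Ioo (0:ℝ) p := ⟨lt_of_lt_of_le hu1.1 (le_max_left _ _),
      max_lt hu1.2 (hm2.trans hu2.2)⟩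
    have hv12 : v1 < u2 := max_lt h12 hm2
    have hsv1 : 0 < σ v1 := by
      rcases le_total u1 m0 with h | h
      · have h3 : v1 = m0 := max_eq_right h
        have := hσmono u1 hu1 v1 hv1I (le_max_left _ _) h3.le
        linarith
      · have h3 : v1 = u1 := max_eq_left h
        rw [h3]; exact hs1
    have hv1' : v1 ∈ Ioo (0:ℝ) 1 := ⟨hv1I.1, hv1I.2.trans hp.2⟩
    have hu2' : u2 ∈ Ioo (0:ℝ) 1 := ⟨hu2.1, hu2.2.trans hp.2⟩
    have hy1 : quantile ω v1 < quantile ω u2 := hω.quantile_strictMono hv1' hu2' hv12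
    have hy2 : quantile ω u2 < yp := hω.quantile_strictMono hu2' hp hu2.2
    have hmem1 : quantile ω v1 ∈ {y | 0 < cdf ω y ∧ m0 ≤ cdf ω y ∧ cdf ω y ≤ p} := by
      rw [Set.mem_ofPred_eq, hω.cdf_quantile hv1']
      exact ⟨hv1'.1, le_max_right _ _, hv1I.2.le⟩
    have hmemp : yp ∈ {y | 0 < cdf ω y ∧ m0 ≤ cdf ω y ∧ cdf ω y ≤ p} := by
      rw [Set.mem_ofPred_eq, hyp, hω.cdf_quantile hp]
      exact ⟨hp.1, by linarith [hu2.2], le_rfl⟩
    have hsl := hcv.slope_anti_adjacent hmem1 hmemp hy1 hy2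
    rw [hω.cdf_quantile hv1', hω.cdf_quantile hu2'] at hsl
    have hWp : cdf ω yp = p := hω.cdf_quantile hp
    rw [hWp] at hsl
    rw [hσlow v1 hv1I] at hsv1
    rw [hσlow u2 hu2] at hs2
    have hd1 : 0 < quantile ω u2 - quantile ω v1 := by linarith
    have hd2 : 0 < yp - quantile ω u2 := by linarith
    rw [div_le_div_iff₀ hd2 hd1] at hsl
    have hdp := dens_nonneg n j hp.1.le hp.2.le
    have hcE : 0 ≤ c * ED := mul_nonneg hc0.le hED0
    set a1 := quantile ω v1
    set a2 := quantile ω u2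
    set f1 := pdfU n j v1
    set f2 := pdfU n j u2
    set fp := pdfU n j p
    -- f2 < c (yp - a2) - cE, f1 > c (yp - a1) - cE
    have g1 : (fp - f2) * (a2 - a1) > (fp - (c * (yp - a2) - c * ED)) * (a2 - a1) := by
      have : fp - (c * (yp - a2) - c * ED) < fp - f2 := by linarith
      exact mul_lt_mul_of_pos_right this hd1
    have g2 : (f2 - f1) * (yp - a2) < ((c * (yp - a2) - c * ED) - (c * (yp - a1) - c * ED))
        * (yp - a2) := by
      have : f2 - f1 < (c * (yp - a2) - c * ED) - (c * (yp - a1) - c * ED) := by linarith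
      exact mul_lt_mul_of_pos_right this hd2
    have g3 : 0 ≤ (fp + c * ED) * (a2 - a1) := by positivity
    nlinarith
  refine ⟨hPen, hPL, fun k hk hkL => ?_, heq⟩
  rw [hEP]
  have hkσi : Integrable (fun u => k (quantile ω u) * σ u) unif := integrable_mul2 hkL hσL
  have hgoal : ∫ u, k (quantile ω u) * σ u ∂unif ≤ 0 := by
    rw [integral_split hkσi ⟨hp.1.le, hp.2.le⟩]
    have e3 : ∫ u in p..1, k (quantile ω u) * σ u = 0 := by
      have : ∫ u in p..1, k (quantile ω u) * σ u = ∫ u in p..1, (0:ℝ) :=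
        integral_congr_Ioo hp.2.le fun u hu => by
          rw [hk.comp_zero hω hp ⟨hp.1.trans hu.1, hu.2⟩ hu.1.le, zero_mul]
      rw [this]; simp
    rw [e3, add_zero]
    -- compare with a multiple of D
    have hcmp : ∀ κ : ℝ, (∀ u ∈ Ioo 0 p, k (quantile ω u) * σ u ≤ κ * (D u * σ u)) →
        ∫ u in (0:ℝ)..p, k (quantile ω u) * σ u ≤ 0 := by
      intro κ hle
      have h1 := integral_mono_Ioo hp.1.le (Integrable.interval hkσi le_rfl hp.1.le hp.2.le)
        ((Integrable.interval (integrable_mul2 hDL hσL) le_rfl hp.1.le hp.2.le).const_mul κ) hle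
      rw [intervalIntegral.integral_const_mul, hDσ, mul_zero] at h1
      exact h1
    by_cases hneg : ∃ u ∈ Ioo 0 p, σ u < 0
    · by_cases hpos : ∃ u ∈ Ioo 0 p, 0 < σ u
      · set S := {u | u ∈ Ioo 0 p ∧ σ u < 0} with hS
        obtain ⟨u2, hu2, hs2⟩ := hneg
        obtain ⟨u1, hu1, hs1⟩ := hpos
        have hub : ∀ u ∈ S, u ≤ u1 := by
          intro u hu
          by_contra hcon
          push Not at hcon
          exact hpat u1 hu1 u hu.1 hcon hs1 hu.2
        have hbdd : BddAbove S := ⟨u1, hub⟩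
        have hne : S.Nonempty := ⟨u2, hu2, hs2⟩
        set c0 := sSup S with hc0'
        have hc01 : u2 ≤ c0 := le_csSup hbdd ⟨hu2, hs2⟩
        have hc02 : c0 ≤ u1 := csSup_le hne hub
        have hc0I : c0 ∈ Ioo 0 p := ⟨lt_of_lt_of_le hu2.1 hc01, lt_of_le_of_lt hc02 hu1.2⟩
        have hright : ∀ u ∈ Ioo 0 p, c0 < u → 0 ≤ σ u := by
          intro u hu huc
          by_contra hcon
          push Not at hcon
          have := le_csSup hbdd (show u ∈ S from ⟨hu, hcon⟩)
          linarith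
        have hleft : ∀ u ∈ Ioo 0 p, u < c0 → σ u ≤ 0 := by
          intro u hu huc
          by_contra hcon
          push Not at hcon
          obtain ⟨v, hv, huv⟩ := exists_lt_of_lt_csSup hne huc
          exact hpat u hu v hv.1 huv hcon hv.2
        have hc0' : c0 ∈ Ioo (0:ℝ) 1 := ⟨hc0I.1, hc0I.2.trans hp.2⟩
        set κ := k (quantile ω c0) / (yp - quantile ω c0) with hκ
        have hdc := (hDpos c0 hc0I).2
        have hkp : k yp = 0 := hk.2.2 yp hypI le_rfl
        refine hcmp κ fun u hu => ?_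
        have hu' : u ∈ Ioo (0:ℝ) 1 := ⟨hu.1, hu.2.trans hp.2⟩
        obtain ⟨hDu, hdu⟩ := hDpos u hu
        rw [hDu]
        rcases lt_trichotomy u c0 with h | h | h
        · have hq : quantile ω u < quantile ω c0 := hω.quantile_strictMono hu' hc0' h
          have hsl := hk.1.slope_mono_adjacent (hω.quantile_mem hu') hypI hq (by linarith)
          rw [hkp, zero_sub] at hsl
          have h1 : κ * (yp - quantile ω u) ≤ k (quantile ω u) := by
            have h2 : (k (quantile ω c0) - k (quantile ω u)) / (quantile ω c0 - quantile ω u)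
                ≤ -κ := by
              rw [hκ, ← neg_div]; exact hsl
            rw [div_le_iff₀ (by linarith)] at h2
            have h3 : κ * (yp - quantile ω c0) = k (quantile ω c0) := by
              rw [hκ]; field_simp
            nlinarith
          have h4 := hleft u hu h
          have := mul_le_mul_of_nonpos_right h1 h4
          linarith
        · have h3 : κ * (yp - quantile ω c0) = k (quantile ω c0) := by
            rw [hκ]; field_simp
          rw [h, ← mul_assoc, h3]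
        · have hq : quantile ω c0 < quantile ω u := hω.quantile_strictMono hc0' hu' h
          have h1 : k (quantile ω u) ≤ κ * (yp - quantile ω u) := by
            have hsl := hk.1.slope_mono_adjacent (hω.quantile_mem hc0') hypI hq (by linarith)
            rw [hkp, zero_sub, div_le_div_iff₀ (by linarith) (by linarith)] at hsl
            rw [hκ, div_mul_eq_mul_div, le_div_iff₀ hdc]
            nlinarith
          have h4 := hright u hu h
          have := mul_le_mul_of_nonneg_right h1 h4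
          linarith
      · push Not at hpos
        -- σ ≤ 0, hence D σ = 0 a.e.
        have h1 := ae_zero_of (ρ := fun u => -(D u * σ u)) hp.1.le
          (fun u hu => by
            have := mul_nonpos_of_nonneg_of_nonpos (hD0 u) (hpos u hu); linarith)
          (Integrable.interval (integrable_mul2 hDL hσL) le_rfl hp.1.le hp.2.le).neg
          (by rw [intervalIntegral.integral_neg, hDσ, neg_zero])
        have h2 : ∀ᵐ u ∂(volume.restrict (Ioo 0 p)), σ u = 0 := by
          filter_upwards [h1, ae_restrict_mem measurableSet_Ioo] with u hu hu2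
          have h3 := hDpos u hu2
          have h4 : D u * σ u = 0 := by linarith
          rcases mul_eq_zero.1 h4 with h | h
          · linarith
          · exact h
        exact (integral_mul_of_ae_zero hp.1.le h2).le
    · push Not at hneg
      have h1 := ae_zero_of (ρ := fun u => (D u * σ u)) hp.1.le
        (fun u hu => mul_nonneg (hD0 u) (hneg u hu))
        (Integrable.interval (integrable_mul2 hDL hσL) le_rfl hp.1.le hp.2.le) hDσ
      have h2 : ∀ᵐ u ∂(volume.restrict (Ioo 0 p)), σ u = 0 := by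
        filter_upwards [h1, ae_restrict_mem measurableSet_Ioo] with u hu hu2
        have h3 := hDpos u hu2
        rcases mul_eq_zero.1 hu with h | h
        · linarith
        · exact h
      exact (integral_mul_of_ae_zero hp.1.le h2).le
  have hfin : ∫ u, k (quantile ω u) * σ u ∂unif
      = (∫ u, k (quantile ω u) * pdfU n j u ∂unif)
        - ∫ u, k (quantile ω u) * (P (quantile ω u) - c * ED) ∂unif := by
    have e1 : ∀ u, k (quantile ω u) * σ u
        = k (quantile ω u) * pdfU n j u - k (quantile ω u) * (P (quantile ω u) - c * ED) :=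
      fun u => by simp only [hσ]; ring
    simp only [e1]
    have hPc : MemLp (fun u => P (quantile ω u) - c * ED) 2 unif := hPL.sub (memLp_const _)
    rw [integral_sub (integrable_mul_dens hkL n j) (integrable_mul2 hkL hPc)]
  rw [hfin] at hgoal
  linarith

end

end Pool.Agent.Lib.MP_c5814c_pr
end

section

namespace Pool.Agent.Lib.MP_c5814c_pr

open MeasureTheory ProbabilityTheory Set Filter
open scoped ENNReal Topology RealInnerProductSpace

section eta

variable {ω : Measure ℝ} {n j : ℕ} {p : ℝ}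

theorem eta_anti (hω : Nice ω) {k : ℝ → ℝ} (hk : IsPen ω p k) {x y : ℝ}
    (hx : x ∈ {y | 0 < cdf ω y ∧ cdf ω y < 1}) (hy : y ∈ {y | 0 < cdf ω y ∧ cdf ω y < 1}) (hxy : x ≤ y) (hyp : y < quantile ω p) :
    eta ω p k y ≤ eta ω p k x := by
  have hmono : MonotoneOn (fun x => derivWithin k (Ioi x) x) {y | 0 < cdf ω y ∧ cdf ω y < 1} := by
    have := hk.1.monotoneOn_rightDeriv
    rwa [hω.isOpen.interior_eq] at this
  have h1 := hmono hx hy hxy
  unfold eta
  rw [if_pos ⟨hy, hyp⟩, if_pos ⟨hx, hxy.trans_lt hyp⟩]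
  simp only at h1
  linarith

theorem lev_lower (hω : Nice ω) {k : ℝ → ℝ} (hk : IsPen ω p k) {x y r : ℝ}
    (hx : x ∈ {y | 0 < cdf ω y ∧ cdf ω y < 1}) (hy : y ∈ {y | 0 < cdf ω y ∧ cdf ω y < 1}) (hyx : y < x) (hxp : x < quantile ω p)
    (hr : r < eta ω p k x) : x - y ≤ lev ω p k (y, r) := by
  have hsub : Ioo y x ⊆ {x : ℝ | r < eta ω p k x ∧ y < x ∧ x < quantile ω p} := by
    intro z hz
    have hzI : z ∈ {y | 0 < cdf ω y ∧ cdf ω y < 1} := Icc_sub hy hx z ⟨hz.1.le, hz.2.le⟩
    exact ⟨hr.trans_le (eta_anti hω hk hzI hx hz.2.le hxp), hz.1, hz.2.trans hxp⟩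
  have hsub2 : {x : ℝ | r < eta ω p k x ∧ y < x ∧ x < quantile ω p} ⊆ Ioo y (quantile ω p) := by
    rintro z ⟨_, h1, h2⟩
    exact ⟨h1, h2⟩
  have hfin : volume {x : ℝ | r < eta ω p k x ∧ y < x ∧ x < quantile ω p} ≠ ⊤ := by
    refine ne_top_of_le_ne_top ?_ (measure_mono hsub2)
    rw [Real.volume_Ioo]
    exact ENNReal.ofReal_ne_top
  have h1 := ENNReal.toReal_mono hfin (measure_mono hsub)
  rw [Real.volume_Ioo, ENNReal.toReal_ofReal (by linarith)] at h1
  exact h1

theorem lev_upper (hω : Nice ω) {k : ℝ → ℝ} (hk : IsPen ω p k) {x r : ℝ}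
    (hx : x ∈ {y | 0 < cdf ω y ∧ cdf ω y < 1}) (hxp : x < quantile ω p) (hp : p ∈ Ioo (0:ℝ) 1)
    (hr : eta ω p k x ≤ r) : lev ω p k (x, r) = 0 := by
  have : {x' : ℝ | r < eta ω p k x' ∧ x < x' ∧ x' < quantile ω p} = ∅ := by
    ext z
    simp only [Set.mem_ofPred_eq, Set.mem_empty_iff_false, iff_false]
    rintro ⟨h1, h2, h3⟩
    have hzI : z ∈ {y | 0 < cdf ω y ∧ cdf ω y < 1} := Icc_sub hx (hω.quantile_mem hp) z ⟨h2.le, h3.le⟩
    have := eta_anti hω hk hx hzI h2.le h3
    linarith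
  simp only [lev]
  rw [this]; simp

/-- Fubini for the layer-cake representation. -/
theorem pen_fubini (hω : Nice ω) (hp : p ∈ Ioo (0:ℝ) 1) {k : ℝ → ℝ} (hk : IsPen ω p k)
    (hkL : MemLp (fun u => k (quantile ω u)) 2 unif) {σ : ℝ → ℝ} (hσL : MemLp σ 2 unif) :
    Integrable (fun r => ∫ u, lev ω p k (quantile ω u, r) * σ u ∂unif)
      (volume.restrict (Ioi (0:ℝ))) ∧
    ∫ r in Ioi (0:ℝ), ∫ u, lev ω p k (quantile ω u, r) * σ u ∂unif
      = ∫ u, k (quantile ω u) * σ u ∂unif := by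
  have hprω := hω.prob
  set ρ : Measure ℝ := volume.restrict (Ioi (0:ℝ)) with hρ
  have hmeas : AEStronglyMeasurable (fun z : ℝ × ℝ => lev ω p k (quantile ω z.1, z.2) * σ z.1)
      (unif.prod ρ) := by
    have h1 : AEMeasurable (fun z : ℝ × ℝ => quantile ω z.1) (unif.prod ρ) :=
      (aemeasurable_quantile ω).comp_quasiMeasurePreserving Measure.quasiMeasurePreserving_fst
    have h2 : AEMeasurable (fun z : ℝ × ℝ => (quantile ω z.1, z.2)) (unif.prod ρ) :=
      h1.prodMk measurable_snd.aemeasurable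
    have h3 : AEMeasurable (fun z : ℝ × ℝ => lev ω p k (quantile ω z.1, z.2)) (unif.prod ρ) :=
      (measurable_lev hω k).comp_aemeasurable h2
    have h4 : AEMeasurable (fun z : ℝ × ℝ => σ z.1) (unif.prod ρ) :=
      hσL.1.aemeasurable.comp_quasiMeasurePreserving Measure.quasiMeasurePreserving_fst
    exact (h3.mul h4).aestronglyMeasurable
  have hkey : ∀ u ∈ Ioo (0:ℝ) 1, ∫ r, lev ω p k (quantile ω u, r) ∂ρ = k (quantile ω u) :=
    fun u hu => (pen_eq_lev hω hp hk (hω.quantile_mem hu)).symm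
  have hint : Integrable (Function.uncurry fun u r => lev ω p k (quantile ω u, r) * σ u)
      (unif.prod ρ) := by
    have hmeas' : AEStronglyMeasurable
        (Function.uncurry fun u r => lev ω p k (quantile ω u, r) * σ u) (unif.prod ρ) := hmeas
    rw [integrable_prod_iff hmeas']
    constructor
    · filter_upwards [ae_unif_mem] with u hu
      exact (integrable_lev hω hp hk (hω.quantile_mem hu)).mul_const (σ u)
    · have h1 : Integrable (fun u => |k (quantile ω u) * σ u|) unif :=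
        (integrable_mul2 hkL hσL).abs
      refine h1.congr ?_
      filter_upwards [ae_unif_mem] with u hu
      have e1 : ∀ r, ‖Function.uncurry (fun u r => lev ω p k (quantile ω u, r) * σ u) (u, r)‖
          = lev ω p k (quantile ω u, r) * |σ u| := fun r => by
        simp only [Function.uncurry, Real.norm_eq_abs, abs_mul]
        rw [abs_of_nonneg (lev_nonneg k _)]
      simp only [e1]
      rw [integral_mul_const, hkey u hu, abs_mul, abs_of_nonneg
        (hk.nonneg hω hp (hω.quantile_mem hu))]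
  have hswap := integral_integral_swap hint
  have hL : ∫ u, ∫ r, lev ω p k (quantile ω u, r) * σ u ∂ρ ∂unif
      = ∫ u, k (quantile ω u) * σ u ∂unif := by
    refine integral_congr_ae ?_
    filter_upwards [ae_unif_mem] with u hu
    rw [integral_mul_const, hkey u hu]
  rw [hL] at hswap
  exact ⟨hint.integral_prod_right, hswap.symm⟩

end eta

/-- The data of a projection. -/
structure Ctx (ω : Measure ℝ) (n j : ℕ) (p : ℝ) (P : ℝ → ℝ) : Prop where
  nice : Nice ω
  hp : p ∈ Ioo (0:ℝ) 1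
  proj : IsProj ω n j p P
  mem : MemLp (trunc ω (quantile ω p)) 2 unif

/-- `P(y) - E P - f_j(W(y))` -/
noncomputable def res (ω : Measure ℝ) (n j : ℕ) (P : ℝ → ℝ) (y : ℝ) : ℝ :=
  P y - (∫ v, P (quantile ω v) ∂unif) - pdfU n j (cdf ω y)

/-- the first primitive of the residual -/
noncomputable def Gi (ω : Measure ℝ) (n j : ℕ) (P : ℝ → ℝ) (t : ℝ) : ℝ :=
  ∫ u in (0:ℝ)..(cdf ω t), res ω n j P (quantile ω u)

/-- the second primitive of the residual -/
noncomputable def Phi (ω : Measure ℝ) (n j : ℕ) (P : ℝ → ℝ) (t : ℝ) : ℝ :=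
  ∫ u in (0:ℝ)..(cdf ω t), (t - quantile ω u) * res ω n j P (quantile ω u)

namespace Ctx

variable {ω : Measure ℝ} {n j : ℕ} {p : ℝ} {P : ℝ → ℝ} (C : Ctx ω n j p P)

include C

theorem qI : quantile ω p ∈ {y | 0 < cdf ω y ∧ cdf ω y < 1} := C.nice.quantile_mem C.hp

theorem cdf_q : cdf ω (quantile ω p) = p := C.nice.cdf_quantile C.hp

theorem cdf_le_p {t : ℝ} (ht : t ≤ quantile ω p) : cdf ω t ≤ p := by
  have h := monotone_cdf ω ht
  rwa [C.cdf_q] at h

theorem res_q {u : ℝ} (hu : u ∈ Ioo (0:ℝ) 1) : res ω n j P (quantile ω u)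
    = P (quantile ω u) - (∫ v, P (quantile ω v) ∂unif) - pdfU n j u := by
  unfold res; rw [C.nice.cdf_quantile hu]

/-- the residual as a square integrable function -/
theorem memLp_res : MemLp (fun u => P (quantile ω u) - (∫ v, P (quantile ω v) ∂unif)
    - pdfU n j u) 2 unif :=
  (C.proj.2.1.sub (memLp_const _)).sub (memLp_dens n j)

theorem memLp_res' : MemLp (fun u => res ω n j P (quantile ω u)) 2 unif := by
  refine C.memLp_res.ae_eq ?_
  filter_upwards [ae_unif_mem] with u hu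
  exact (C.res_q hu).symm

theorem int_res {a b : ℝ} (ha : 0 ≤ a) (hab : a ≤ b) (hb : b ≤ 1) :
    IntervalIntegrable (fun u => res ω n j P (quantile ω u)) volume a b :=
  Integrable.interval (C.memLp_res'.integrable (by norm_num)) ha hab hb

theorem int_q_res {a b : ℝ} (ha : 0 ≤ a) (hab : a ≤ b) (hb : b ≤ p) :
    IntervalIntegrable (fun u => quantile ω u * res ω n j P (quantile ω u)) volume a b := by
  have h1 : IntervalIntegrable (fun u => trunc ω (quantile ω p) u * res ω n j P (quantile ω u))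
      volume a b :=
    Integrable.interval (integrable_mul2 C.mem C.memLp_res') ha hab (hb.trans C.hp.2.le)
  refine (intervalIntegrable_congr_ae ?_).1 h1
  rw [uIoc_of_le hab]
  filter_upwards [ae_restrict_mem measurableSet_Ioc] with u hu
  have hu' : u ∈ Ioo (0:ℝ) 1 := ⟨lt_of_le_of_lt ha hu.1, lt_of_le_of_lt (hu.2.trans hb) C.hp.2⟩
  have h2 : quantile ω u ≤ quantile ω p :=
    C.nice.quantile_strictMono.monotoneOn hu' C.hp (hu.2.trans hb)
  unfold trunc
  rw [min_eq_left h2]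

theorem int_lin_res {a b : ℝ} (ha : 0 ≤ a) (hab : a ≤ b) (hb : b ≤ p) (t : ℝ) :
    IntervalIntegrable (fun u => (t - quantile ω u) * res ω n j P (quantile ω u)) volume a b := by
  have h1 := ((C.int_res ha hab (hb.trans C.hp.2.le)).const_mul t).sub (C.int_q_res ha hab hb)
  refine h1.congr fun u _ => ?_
  ring

theorem Phi_eq_trunc {t : ℝ} (ht : t ∈ {y | 0 < cdf ω y ∧ cdf ω y < 1}) (htp : t ≤ quantile ω p) :
    Phi ω n j P t = ∫ u, (t - trunc ω t u) * res ω n j P (quantile ω u) ∂unif := by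
  have hprω := C.nice.prob
  have hw : cdf ω t ∈ Icc (0:ℝ) 1 := ⟨ht.1.le, ht.2.le⟩
  have hL : MemLp (fun u => t - trunc ω t u) 2 unif :=
    (memLp_const t).sub (trunc_memLp C.nice C.mem t)
  rw [integral_split (integrable_mul2 hL C.memLp_res') hw]
  have h2 : ∫ u in (cdf ω t)..1, (t - trunc ω t u) * res ω n j P (quantile ω u) = 0 := by
    rw [integral_congr_Ioo hw.2 (g := fun _ => 0)]
    · simp
    intro u hu
    have h3 : t < quantile ω u := by
      rw [lt_quantile_iff ω (lt_of_le_of_lt hw.1 hu.1) hu.2]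
      exact hu.1
    unfold trunc
    rw [min_eq_right h3.le, sub_self, zero_mul]
  rw [h2, add_zero]
  unfold Phi
  refine integral_congr_Ioo hw.1 fun u hu => ?_
  have h3 : quantile ω u ≤ t := by
    rw [quantile_le_iff ω hu.1 (hu.2.trans_le hw.2)]
    exact hu.2.le
  unfold trunc
  rw [min_eq_left h3]

theorem Phi_nonneg {t : ℝ} (ht : t ∈ {y | 0 < cdf ω y ∧ cdf ω y < 1}) (htp : t ≤ quantile ω p) : 0 ≤ Phi ω n j P t := by
  have hprω := C.nice.prob
  rw [C.Phi_eq_trunc ht htp]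
  have hL : MemLp (fun u => t - trunc ω t u) 2 unif :=
    (memLp_const t).sub (trunc_memLp C.nice C.mem t)
  have h1 : (fun u => max (t - quantile ω u) 0) = fun u => t - trunc ω t u := by
    funext u
    unfold trunc
    rcases le_total (quantile ω u) t with h' | h'
    · rw [min_eq_left h', max_eq_left (by linarith)]
    · rw [min_eq_right h', max_eq_right (by linarith)]; ring
  have h2 := C.proj.2.2.1 (fun y => max (t - y) 0) (isPen_hinge C.nice htp)
    (by rw [h1]; exact hL)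
  have h3 : ∀ u, max (t - quantile ω u) 0 = t - trunc ω t u := fun u => congrFun h1 u
  simp only [h3] at h2
  have hrc : MemLp (fun u => P (quantile ω u) - (∫ v, P (quantile ω v) ∂unif)) 2 unif :=
    C.proj.2.1.sub (memLp_const _)
  have h4 : ∫ u, (t - trunc ω t u) * res ω n j P (quantile ω u) ∂unif
      = (∫ u, (t - trunc ω t u) * (P (quantile ω u) - (∫ v, P (quantile ω v) ∂unif)) ∂unif)
        - ∫ u, (t - trunc ω t u) * pdfU n j u ∂unif := by
    rw [← integral_sub (integrable_mul2 hL hrc) (integrable_mul_dens hL n j)]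
    refine integral_congr_ae ?_
    filter_upwards [ae_unif_mem] with u hu
    rw [C.res_q hu]; ring
  rw [h4]
  linarith

/-- the expansion of `Phi` -/
theorem Phi_expand {s t : ℝ} (hs : s ∈ {y | 0 < cdf ω y ∧ cdf ω y < 1}) (hsp : s ≤ quantile ω p)
    (ht : t ∈ {y | 0 < cdf ω y ∧ cdf ω y < 1}) (htp : t ≤ quantile ω p) :
    Phi ω n j P s = Phi ω n j P t + (s - t) * Gi ω n j P t
      + ∫ u in (cdf ω t)..(cdf ω s), (s - quantile ω u) * res ω n j P (quantile ω u) := by
  have ws := C.cdf_le_p hsp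
  have wt := C.cdf_le_p htp
  have i1 := C.int_lin_res le_rfl ht.1.le wt s
  have i2 := C.int_lin_res le_rfl hs.1.le ws s
  have i3 := C.int_lin_res le_rfl ht.1.le wt t
  have i4 := C.int_res le_rfl ht.1.le ht.2.le
  have h1 : Phi ω n j P s - ∫ u in (0:ℝ)..(cdf ω t), (s - quantile ω u) *
      res ω n j P (quantile ω u)
      = ∫ u in (cdf ω t)..(cdf ω s), (s - quantile ω u) * res ω n j P (quantile ω u) := by
    unfold Phi
    rw [intervalIntegral.integral_interval_sub_left i2 i1]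
  have h2 : ∫ u in (0:ℝ)..(cdf ω t), (s - quantile ω u) * res ω n j P (quantile ω u)
      = Phi ω n j P t + (s - t) * Gi ω n j P t := by
    unfold Phi Gi
    rw [← intervalIntegral.integral_const_mul, ← intervalIntegral.integral_add i3 (i4.const_mul _)]
    refine intervalIntegral.integral_congr fun u _ => ?_
    ring
  linarith

theorem Gi_sub {s t : ℝ} (hs : s ∈ {y | 0 < cdf ω y ∧ cdf ω y < 1}) (ht : t ∈ {y | 0 < cdf ω y ∧ cdf ω y < 1}) :
    Gi ω n j P s - Gi ω n j P t
      = ∫ u in (cdf ω t)..(cdf ω s), res ω n j P (quantile ω u) := by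
  unfold Gi
  rw [intervalIntegral.integral_interval_sub_left (C.int_res le_rfl hs.1.le hs.2.le)
    (C.int_res le_rfl ht.1.le ht.2.le)]

theorem res_continuousOn : ContinuousOn (res ω n j P) {y | 0 < cdf ω y ∧ cdf ω y < 1} := by
  unfold res
  refine (ContinuousOn.sub ?_ continuousOn_const).sub ?_
  · exact C.proj.1.1.continuousOn C.nice.isOpen
  · exact ((continuous_dens n j).comp C.nice.cont).continuousOn

theorem res_q_continuousAt {u : ℝ} (hu : u ∈ Ioo (0:ℝ) 1) :
    ContinuousAt (fun u => res ω n j P (quantile ω u)) u :=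
  C.nice.comp_continuousAt C.res_continuousOn hu

/-- `Gi` vanishes at the interior zeros of `Phi` -/
theorem Gi_zero {t : ℝ} (ht : t ∈ {y | 0 < cdf ω y ∧ cdf ω y < 1}) (htp : t < quantile ω p) (h : Phi ω n j P t = 0) :
    Gi ω n j P t = 0 := by
  by_contra hne
  have hprω := C.nice.prob
  set G := Gi ω n j P t with hG
  have hw : cdf ω t ∈ Ioo (0:ℝ) 1 := ht
  have hwp : cdf ω t < p := by
    have := C.nice.strict ht C.qI htp
    rwa [C.cdf_q] at this
  -- local bound of the residual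
  obtain ⟨M, hM0, hM⟩ : ∃ M : ℝ, 0 < M ∧ ∀ᶠ u in 𝓝 (cdf ω t),
      |res ω n j P (quantile ω u)| ≤ M := by
    refine ⟨|res ω n j P (quantile ω (cdf ω t))| + 1, by positivity, ?_⟩
    have h1 := (C.res_q_continuousAt hw).abs
    exact (h1.eventually (gt_mem_nhds (by linarith :
      |res ω n j P (quantile ω (cdf ω t))| < |res ω n j P (quantile ω (cdf ω t))| + 1))).mono
      fun u hu => le_of_lt hu
  obtain ⟨δ, hδ, hδM⟩ := Metric.eventually_nhds_iff.1 hM
  have hd : 0 < min δ (|G| / (2 * M)) := lt_min hδ (by positivity)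
  have hcW : ∀ᶠ s in 𝓝 t, |cdf ω s - cdf ω t| < min δ (|G| / (2 * M)) := by
    have := (C.nice.cont.tendsto t).eventually (Metric.ball_mem_nhds _ hd)
    filter_upwards [this] with s hs
    rw [Real.dist_eq] at hs
    exact hs
  have hcI : ∀ᶠ s in 𝓝 t, s ∈ {y | 0 < cdf ω y ∧ cdf ω y < 1} := C.nice.isOpen.mem_nhds ht
  have hcp : ∀ᶠ s in 𝓝 t, s < quantile ω p := gt_mem_nhds htp
  have hmain : ∀ s, |cdf ω s - cdf ω t| < min δ (|G| / (2 * M)) → s ∈ {y | 0 < cdf ω y ∧ cdf ω y < 1} →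
      s < quantile ω p → s ≠ t → 0 ≤ (s - t) * G + |s - t| * (|G| / 2) := by
    intro s h1 h2 h3 h4
    have h5 := C.Phi_nonneg h2 h3.le
    rw [C.Phi_expand h2 h3.le ht htp.le, h, zero_add] at h5
    have h6 : |∫ u in (cdf ω t)..(cdf ω s), (s - quantile ω u) * res ω n j P (quantile ω u)|
        ≤ (|s - t| * M) * |cdf ω s - cdf ω t| := by
      have := intervalIntegral.norm_integral_le_of_norm_le_const (a := cdf ω t) (b := cdf ω s)
        (C := |s - t| * M) (f := fun u => (s - quantile ω u) * res ω n j P (quantile ω u)) ?_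
      · simpa using this
      intro u hu
      rw [norm_mul, Real.norm_eq_abs, Real.norm_eq_abs]
      have hu' : u ∈ Ioo (0:ℝ) 1 := by
        rcases le_total (cdf ω t) (cdf ω s) with h | h
        · rw [uIoc_of_le h] at hu
          exact ⟨ht.1.trans hu.1, hu.2.trans_lt h2.2⟩
        · rw [uIoc_of_ge h] at hu
          exact ⟨h2.1.trans hu.1, hu.2.trans_lt ht.2⟩
      have hq : |s - quantile ω u| ≤ |s - t| := by
        rcases le_total (cdf ω t) (cdf ω s) with h | h
        · rw [uIoc_of_le h] at hu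
          have h7 : t < quantile ω u := (lt_quantile_iff ω hu'.1 hu'.2 t).2 hu.1
          have h8 : quantile ω u ≤ s := (quantile_le_iff ω hu'.1 hu'.2 s).2 hu.2
          rw [abs_of_nonneg (by linarith), abs_of_nonneg (by linarith)]
          linarith
        · rw [uIoc_of_ge h] at hu
          have h7 : s < quantile ω u := (lt_quantile_iff ω hu'.1 hu'.2 s).2 hu.1
          have h8 : quantile ω u ≤ t := (quantile_le_iff ω hu'.1 hu'.2 t).2 hu.2
          rw [abs_of_nonpos (by linarith), abs_of_nonpos (by linarith)]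
          linarith
      have hr : |res ω n j P (quantile ω u)| ≤ M := by
        refine hδM ?_
        have h9 : |cdf ω s - cdf ω t| < δ := h1.trans_le (min_le_left _ _)
        rw [Real.dist_eq]
        rcases le_total (cdf ω t) (cdf ω s) with h | h
        · rw [uIoc_of_le h] at hu
          rw [abs_of_nonneg (by linarith)] at h9
          rw [abs_of_nonneg (by linarith [hu.1])]
          linarith [hu.2]
        · rw [uIoc_of_ge h] at hu
          rw [abs_of_nonpos (by linarith)] at h9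
          rw [abs_of_nonpos (by linarith [hu.2])]
          linarith [hu.1]
      exact mul_le_mul hq hr (abs_nonneg _) (abs_nonneg _)
    have h10 : |cdf ω s - cdf ω t| ≤ |G| / (2 * M) := by
      exact (h1.trans_le (min_le_right _ _)).le
    have h11 : (|s - t| * M) * |cdf ω s - cdf ω t| ≤ |s - t| * (|G| / 2) := by
      have h12 := mul_le_mul_of_nonneg_left h10 (by positivity : 0 ≤ |s - t| * M)
      have h13 : (|s - t| * M) * (|G| / (2 * M)) = |s - t| * (|G| / 2) := by
        field_simp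
      linarith
    have h14 := (le_abs_self _).trans (h6.trans h11)
    linarith
  rcases lt_or_gt_of_ne hne with hneg | hpos
  · -- G < 0 : take s > t
    obtain ⟨s, ⟨⟨h1, h2⟩, h3⟩, h4⟩ := (((hcW.and hcI).and hcp).filter_mono
      (nhdsWithin_le_nhds (s := Ioi t))).and self_mem_nhdsWithin |>.exists
    have h4' : t < s := h4
    have h5 := hmain s h1 h2 h3 h4'.ne'
    rw [abs_of_pos (by linarith : 0 < s - t), abs_of_neg hneg] at h5
    have : 0 < (s - t) * (-G) := mul_pos (by linarith) (by linarith)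
    linarith
  · obtain ⟨s, ⟨⟨h1, h2⟩, h3⟩, h4⟩ := (((hcW.and hcI).and hcp).filter_mono
      (nhdsWithin_le_nhds (s := Iio t))).and self_mem_nhdsWithin |>.exists
    have h4' : s < t := h4
    have h5 := hmain s h1 h2 h3 h4'.ne
    rw [abs_of_neg (by linarith : s - t < 0), abs_of_pos hpos] at h5
    have : 0 < (t - s) * G := mul_pos (by linarith) hpos
    linarith

end Ctx

end Pool.Agent.Lib.MP_c5814c_pr
end

section

namespace Pool.Agent.Lib.MP_c5814c_pr

open MeasureTheory ProbabilityTheory Set Filter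
open scoped ENNReal Topology RealInnerProductSpace

theorem zero_of_ae_zero {γ : ℝ → ℝ} {a b : ℝ} (hcont : ContinuousOn γ (Ioo a b))
    (h : ∀ᵐ u ∂(volume.restrict (Ioo a b)), γ u = 0) : ∀ u ∈ Ioo a b, γ u = 0 := by
  have h1 : γ =ᵐ[volume.restrict (Ioo a b)] fun _ => 0 := h
  exact Measure.eqOn_open_of_ae_eq h1 isOpen_Ioo hcont continuousOn_const

/-- The sign pattern `+,-` is impossible for a function orthogonal to the affine functions. -/
theorem pat {q γ : ℝ → ℝ} {a b : ℝ} (hab : a < b) (hq : StrictMonoOn q (Ioo a b))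
    (hcont : ContinuousOn γ (Ioo a b)) (hγ : IntervalIntegrable γ volume a b)
    (hqγ : IntervalIntegrable (fun u => q u * γ u) volume a b)
    (h0 : ∫ u in a..b, γ u = 0) (h1 : ∫ u in a..b, q u * γ u = 0)
    (hpat : ∀ u ∈ Ioo a b, ∀ v ∈ Ioo a b, u < v → γ u < 0 → γ v ≤ 0) :
    ∀ u ∈ Ioo a b, γ u = 0 := by
  by_cases hne : ∃ u ∈ Ioo a b, γ u < 0
  · set S := {u | u ∈ Ioo a b ∧ γ u < 0} with hS
    have hSne : S.Nonempty := by
      obtain ⟨u, hu, hu2⟩ := hne
      exact ⟨u, hu, hu2⟩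
    have hSb : BddBelow S := ⟨a, fun u hu => hu.1.1.le⟩
    set c := sInf S with hc
    have hca : a ≤ c := le_csInf hSne fun u hu => hu.1.1.le
    have hcb : c < b := by
      obtain ⟨u, hu⟩ := hSne
      exact (csInf_le hSb hu).trans_lt hu.1.2
    have hl : ∀ u ∈ Ioo a b, u < c → 0 ≤ γ u := by
      intro u hu huc
      by_contra hcon
      push Not at hcon
      exact absurd (csInf_le hSb (⟨hu, hcon⟩ : u ∈ S)) (not_le.2 huc)
    have hr : ∀ u ∈ Ioo a b, c < u → γ u ≤ 0 := by
      intro u hu huc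
      obtain ⟨v, hv, hvu⟩ := exists_lt_of_csInf_lt hSne huc
      exact hpat v hv.1 u hu hvu hv.2
    rcases eq_or_lt_of_le hca with he | hlt
    · -- everything is nonpositive
      have h2 := ae_zero_of (ρ := fun u => -γ u) hab.le
        (fun u hu => by have := hr u hu (by rw [← he]; exact hu.1); linarith) hγ.neg
        (by rw [intervalIntegral.integral_neg, h0, neg_zero])
      refine zero_of_ae_zero hcont ?_
      filter_upwards [h2] with u hu
      linarith
    · have hcI : c ∈ Ioo a b := ⟨hlt, hcb⟩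
      have h2 := ae_zero_of (ρ := fun u => (q c - q u) * γ u) hab.le
        (fun u hu => by
          rcases lt_trichotomy u c with h | h | h
          · have h3 := hq hu hcI h
            exact mul_nonneg (by linarith) (hl u hu h)
          · rw [h, sub_self, zero_mul]
          · have h3 := hq hcI hu h
            exact mul_nonneg_of_nonpos_of_nonpos (by linarith) (hr u hu h))
        (((hγ.const_mul (q c)).sub hqγ).congr fun u _ => by ring)
        (by
          have e1 : ∀ u, (q c - q u) * γ u = q c * γ u - q u * γ u := fun u => by ring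
          simp only [e1]
          rw [intervalIntegral.integral_sub (hγ.const_mul _) hqγ,
            intervalIntegral.integral_const_mul, h0, h1]
          ring)
      refine zero_of_ae_zero hcont ?_
      have h4 : ∀ᵐ u ∂(volume.restrict (Ioo a b)), u ≠ c := by
        refine ae_restrict_of_ae ?_
        rw [ae_iff]
        simp
      filter_upwards [h2, h4, ae_restrict_mem measurableSet_Ioo] with u hu hu2 hu3
      rcases mul_eq_zero.1 hu with h | h
      · exfalso
        rcases lt_or_gt_of_ne hu2 with h5 | h5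
        · have := hq hu3 hcI h5; linarith
        · have := hq hcI hu3 h5; linarith
      · exact h
  · push Not at hne
    exact zero_of_ae_zero hcont (ae_zero_of hab.le hne hγ h0)

namespace Ctx

variable {ω : Measure ℝ} {n j : ℕ} {p : ℝ} {P : ℝ → ℝ} (C : Ctx ω n j p P)

include C

/-- almost every level of the layer-cake representation is a zero of `Phi` -/
theorem level_zero : ∀ᵐ r ∂(volume.restrict (Ioi (0:ℝ))), ∀ t ∈ {y | 0 < cdf ω y ∧ cdf ω y < 1}, t ≤ quantile ω p →
    (∀ y ∈ {y | 0 < cdf ω y ∧ cdf ω y < 1}, lev ω p P (y, r) = max (t - y) 0) → Phi ω n j P t = 0 := by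
  have hprω := C.nice.prob
  obtain ⟨hint, hval⟩ := pen_fubini C.nice C.hp C.proj.1 C.proj.2.1 C.memLp_res'
  have key : ∀ r t : ℝ, t ∈ {y | 0 < cdf ω y ∧ cdf ω y < 1} → t ≤ quantile ω p →
      (∀ y ∈ {y | 0 < cdf ω y ∧ cdf ω y < 1}, lev ω p P (y, r) = max (t - y) 0) →
      ∫ u, lev ω p P (quantile ω u, r) * res ω n j P (quantile ω u) ∂unif = Phi ω n j P t := by
    intro r t ht htp h
    rw [C.Phi_eq_trunc ht htp]
    refine integral_congr_ae ?_
    filter_upwards [ae_unif_mem] with u hu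
    rw [h _ (C.nice.quantile_mem hu)]
    congr 1
    unfold trunc
    rcases le_total (quantile ω u) t with h' | h'
    · rw [min_eq_left h', max_eq_left (by linarith)]
    · rw [min_eq_right h', max_eq_right (by linarith)]; ring
  have hnn : ∀ᵐ r ∂(volume.restrict (Ioi (0:ℝ))),
      0 ≤ ∫ u, lev ω p P (quantile ω u, r) * res ω n j P (quantile ω u) ∂unif := by
    filter_upwards [ae_restrict_mem measurableSet_Ioi] with r hr
    rcases lev_cases C.nice C.hp C.proj.1 hr with h | ⟨t, htI, htp, h⟩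
    · have : ∫ u, lev ω p P (quantile ω u, r) * res ω n j P (quantile ω u) ∂unif
          = ∫ _u, (0:ℝ) ∂unif := by
        refine integral_congr_ae ?_
        filter_upwards [ae_unif_mem] with u hu
        rw [h _ (C.nice.quantile_mem hu), zero_mul]
      rw [this]; simp
    · rw [key r t htI htp h]
      exact C.Phi_nonneg htI htp
  have hzero : ∫ r in Ioi (0:ℝ), ∫ u, lev ω p P (quantile ω u, r) *
      res ω n j P (quantile ω u) ∂unif = 0 := by
    rw [hval]
    have hrc : MemLp (fun u => P (quantile ω u) - (∫ v, P (quantile ω v) ∂unif)) 2 unif :=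
      C.proj.2.1.sub (memLp_const _)
    have h4 : ∫ u, P (quantile ω u) * res ω n j P (quantile ω u) ∂unif
        = (∫ u, P (quantile ω u) * (P (quantile ω u) - (∫ v, P (quantile ω v) ∂unif)) ∂unif)
          - ∫ u, P (quantile ω u) * pdfU n j u ∂unif := by
      rw [← integral_sub (integrable_mul2 C.proj.2.1 hrc) (integrable_mul_dens C.proj.2.1 n j)]
      refine integral_congr_ae ?_
      filter_upwards [ae_unif_mem] with u hu
      rw [C.res_q hu]; ring
    rw [h4, C.proj.2.2.2, sub_self]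
  have hae := (integral_eq_zero_iff_of_nonneg_ae hnn hint).1 hzero
  filter_upwards [hae] with r hr t ht htp h
  rw [← key r t ht htp h]
  exact hr

theorem eta_nonneg {y : ℝ} (hy : y ∈ {y | 0 < cdf ω y ∧ cdf ω y < 1}) (hyp : y < quantile ω p) : 0 ≤ eta ω p P y := by
  obtain ⟨s, hs, hsy⟩ := exists_left C.nice hy
  exact (pen_eq_integral_eta C.nice C.hp C.proj.1 hs (hsy.trans hyp)).1 y ⟨hsy, hyp⟩

/-- the slope of `P` does not change away from the zeros of `Phi` -/
theorem eta_eq_of_ne {x y : ℝ} (hx : x ∈ {y | 0 < cdf ω y ∧ cdf ω y < 1}) (hy : y ∈ {y | 0 < cdf ω y ∧ cdf ω y < 1}) (hxy : x ≤ y)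
    (hyp : y < quantile ω p) (h : ∀ t ∈ Icc x y, Phi ω n j P t ≠ 0) :
    eta ω p P x = eta ω p P y := by
  by_contra hne
  have h1 : eta ω p P y < eta ω p P x :=
    lt_of_le_of_ne (eta_anti C.nice C.proj.1 hx hy hxy hyp) (Ne.symm hne)
  have h0 := C.eta_nonneg hy hyp
  have h2 : ∀ᵐ r ∂(volume.restrict (Ioo (eta ω p P y) (eta ω p P x))), ∀ t ∈ {y | 0 < cdf ω y ∧ cdf ω y < 1},
      t ≤ quantile ω p → (∀ y ∈ {y | 0 < cdf ω y ∧ cdf ω y < 1}, lev ω p P (y, r) = max (t - y) 0) → Phi ω n j P t = 0 :=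
    ae_restrict_of_ae_restrict_of_subset (fun r hr => lt_of_le_of_lt h0 hr.1) C.level_zero
  obtain ⟨r, hr, hr2⟩ := exists_of_ae h1 h2
  have hr0 : 0 < r := lt_of_le_of_lt h0 hr.1
  obtain ⟨s, hs, hsx⟩ := exists_left C.nice hx
  rcases lev_cases C.nice C.hp C.proj.1 hr0 with h3 | ⟨t, htI, htp, h3⟩
  · have h4 := lev_lower C.nice C.proj.1 hx hs hsx (hxy.trans_lt hyp) hr.2
    rw [h3 s hs] at h4
    linarith
  · have h4 : x ≤ t := by
      have h5 := lev_lower C.nice C.proj.1 hx hs hsx (hxy.trans_lt hyp) hr.2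
      rw [h3 s hs] at h5
      rcases le_total (t - s) 0 with h6 | h6
      · rw [max_eq_right h6] at h5; linarith
      · rw [max_eq_left h6] at h5; linarith
    have h5 : t ≤ y := by
      have h6 := lev_upper C.nice C.proj.1 hy hyp C.hp hr.1.le
      rw [h3 y hy] at h6
      have := le_max_left (t - y) 0
      linarith
    exact h t ⟨h4, h5⟩ (hr2 t htI htp h3)

theorem affine_seg {x y : ℝ} (hx : x ∈ {y | 0 < cdf ω y ∧ cdf ω y < 1}) (hy : y ∈ {y | 0 < cdf ω y ∧ cdf ω y < 1}) (hxy : x ≤ y)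
    (hyp : y < quantile ω p) (h : eta ω p P x = eta ω p P y) :
    P y = P x - eta ω p P x * (y - x) := by
  obtain ⟨_, i1, e1⟩ := pen_eq_integral_eta C.nice C.hp C.proj.1 hx (hxy.trans_lt hyp)
  obtain ⟨_, i2, e2⟩ := pen_eq_integral_eta C.nice C.hp C.proj.1 hy hyp
  have j1 := (intervalIntegrable_iff_integrableOn_Ioo_of_le (hxy.trans hyp.le)).2 i1
  have j2 := (intervalIntegrable_iff_integrableOn_Ioo_of_le hyp.le).2 i2
  rw [← integral_Ioc_eq_integral_Ioo, ← intervalIntegral.integral_of_le (hxy.trans hyp.le)] at e1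
  rw [← integral_Ioc_eq_integral_Ioo, ← intervalIntegral.integral_of_le hyp.le] at e2
  have j3 := j1.trans j2.symm
  have h2 := intervalIntegral.integral_add_adjacent_intervals j3 j2
  have h3 : ∫ z in x..y, eta ω p P z = eta ω p P x * (y - x) := by
    rw [integral_congr_Ioo hxy (g := fun _ => eta ω p P x)]
    · simp [mul_comm]
    intro z hz
    have hzI : z ∈ {y | 0 < cdf ω y ∧ cdf ω y < 1} := Icc_sub hx hy z ⟨hz.1.le, hz.2.le⟩
    have h4 := eta_anti C.nice C.proj.1 hx hzI hz.1.le (hz.2.trans hyp)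
    have h5 := eta_anti C.nice C.proj.1 hzI hy hz.2.le hyp
    linarith
  linarith

theorem affine_on {S : Set ℝ} (hS : OrdConnected S)
    (hSI : ∀ y ∈ S, y ∈ {y | 0 < cdf ω y ∧ cdf ω y < 1} ∧ y < quantile ω p) (hne : ∀ t ∈ S, Phi ω n j P t ≠ 0) :
    ∃ A B : ℝ, ∀ y ∈ S, P y = A + B * y := by
  rcases S.eq_empty_or_nonempty with he | ⟨x0, hx0⟩
  · exact ⟨0, 0, fun y hy => by rw [he] at hy; exact absurd hy (Set.notMem_empty y)⟩
  · refine ⟨P x0 + eta ω p P x0 * x0, -eta ω p P x0, fun y hy => ?_⟩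
    rcases le_total x0 y with h | h
    · have h1 := C.eta_eq_of_ne (hSI x0 hx0).1 (hSI y hy).1 h (hSI y hy).2
        (fun t ht => hne t (hS.out hx0 hy ht))
      have h2 := C.affine_seg (hSI x0 hx0).1 (hSI y hy).1 h (hSI y hy).2 h1
      linarith
    · have h1 := C.eta_eq_of_ne (hSI y hy).1 (hSI x0 hx0).1 h (hSI x0 hx0).2
        (fun t ht => hne t (hS.out hy hx0 ht))
      have h2 := C.affine_seg (hSI y hy).1 (hSI x0 hx0).1 h (hSI x0 hx0).2 h1
      rw [h1] at h2
      linarith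

theorem q_mem_Ioo {s t u : ℝ} (hs : s ∈ {y | 0 < cdf ω y ∧ cdf ω y < 1}) (ht : t ∈ {y | 0 < cdf ω y ∧ cdf ω y < 1}) (hu : u ∈ Ioo (cdf ω s) (cdf ω t)) :
    quantile ω u ∈ Ioo s t := by
  have hprω := C.nice.prob
  have hu' : u ∈ Ioo (0:ℝ) 1 := ⟨hs.1.trans hu.1, hu.2.trans ht.2⟩
  refine ⟨(lt_quantile_iff ω hu'.1 hu'.2 s).2 hu.1, ?_⟩
  have := C.nice.quantile_strictMono hu' ht hu.2
  rwa [C.nice.quantile_cdf ht] at this

theorem cdf_mem_Ioo {s t x : ℝ} (hs : s ∈ {y | 0 < cdf ω y ∧ cdf ω y < 1}) (ht : t ∈ {y | 0 < cdf ω y ∧ cdf ω y < 1}) (hx : x ∈ Ioo s t) :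
    cdf ω x ∈ Ioo (cdf ω s) (cdf ω t) ∧ x ∈ {y | 0 < cdf ω y ∧ cdf ω y < 1} := by
  have hxI : x ∈ {y | 0 < cdf ω y ∧ cdf ω y < 1} := Icc_sub hs ht x ⟨hx.1.le, hx.2.le⟩
  exact ⟨⟨C.nice.strict hs hxI hx.1, C.nice.strict hxI ht hx.2⟩, hxI⟩

theorem res_q_contOn {a b : ℝ} (ha : 0 ≤ a) (hb : b ≤ 1) :
    ContinuousOn (fun u => res ω n j P (quantile ω u)) (Ioo a b) := fun _ hu =>
  (C.res_q_continuousAt ⟨ha.trans_lt hu.1, hu.2.trans_le hb⟩).continuousWithinAt

theorem gap_zero {s t : ℝ} (hs : s ∈ {y | 0 < cdf ω y ∧ cdf ω y < 1}) (ht : t ∈ {y | 0 < cdf ω y ∧ cdf ω y < 1}) (htp : t < quantile ω p)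
    (hst : s < t) (zs : Phi ω n j P s = 0) (zt : Phi ω n j P t = 0)
    (hpat : ∀ x z, s < x → x < z → z < t → res ω n j P x < 0 → res ω n j P z ≤ 0) :
    ∀ x, s < x → x < t → res ω n j P x = 0 := by
  have hw : cdf ω s < cdf ω t := C.nice.strict hs ht hst
  have hwp := C.cdf_le_p htp.le
  have g1 := C.Gi_zero hs (hst.trans htp) zs
  have g2 := C.Gi_zero ht htp zt
  have e0 := C.Gi_sub (n := n) (j := j) ht hs
  rw [g1, g2, sub_zero] at e0
  have e1 := C.Phi_expand ht htp.le hs (hst.trans htp).le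
  rw [zs, zt, g1, mul_zero, zero_add, zero_add] at e1
  have iγ := C.int_res hs.1.le hw.le ht.2.le
  have iq := C.int_q_res hs.1.le hw.le hwp
  have e2 : ∫ u in (cdf ω s)..(cdf ω t), quantile ω u * res ω n j P (quantile ω u) = 0 := by
    have e3 : ∀ u, (t - quantile ω u) * res ω n j P (quantile ω u)
        = t * res ω n j P (quantile ω u) - quantile ω u * res ω n j P (quantile ω u) :=
      fun u => by ring
    simp only [e3] at e1
    rw [intervalIntegral.integral_sub (iγ.const_mul _) iq, intervalIntegral.integral_const_mul,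
      ← e0] at e1
    linarith
  have hmain := pat hw (C.nice.quantile_strictMono.mono
    (Ioo_subset_Ioo hs.1.le ht.2.le)) (C.res_q_contOn hs.1.le ht.2.le) iγ iq e0.symm e2 (by
      intro u hu v hv huv hneg
      have h1 := C.q_mem_Ioo hs ht hu
      have h2 := C.q_mem_Ioo hs ht hv
      have h3 := C.nice.quantile_strictMono ⟨hs.1.trans hu.1, hu.2.trans ht.2⟩
        ⟨hs.1.trans hv.1, hv.2.trans ht.2⟩ huv
      exact hpat _ _ h1.1 h3 h2.2 hneg)
  intro x hx1 hx2
  obtain ⟨h1, h2⟩ := C.cdf_mem_Ioo hs ht ⟨hx1, hx2⟩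
  have h3 := hmain _ h1
  rwa [C.nice.quantile_cdf h2] at h3

theorem gap_zero_left {t : ℝ} (ht : t ∈ {y | 0 < cdf ω y ∧ cdf ω y < 1}) (htp : t < quantile ω p)
    (zt : Phi ω n j P t = 0)
    (hpat : ∀ x z, x ∈ {y | 0 < cdf ω y ∧ cdf ω y < 1} → x < z → z < t → res ω n j P x < 0 → res ω n j P z ≤ 0) :
    ∀ x ∈ {y | 0 < cdf ω y ∧ cdf ω y < 1}, x < t → res ω n j P x = 0 := by
  have hprω := C.nice.prob
  have hwp := C.cdf_le_p htp.le
  have g2 := C.Gi_zero ht htp zt
  have e0 : ∫ u in (0:ℝ)..(cdf ω t), res ω n j P (quantile ω u) = 0 := g2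
  have e1 : ∫ u in (0:ℝ)..(cdf ω t), (t - quantile ω u) * res ω n j P (quantile ω u) = 0 := zt
  have iγ := C.int_res le_rfl ht.1.le ht.2.le
  have iq := C.int_q_res le_rfl ht.1.le hwp
  have e2 : ∫ u in (0:ℝ)..(cdf ω t), quantile ω u * res ω n j P (quantile ω u) = 0 := by
    have e3 : ∀ u, (t - quantile ω u) * res ω n j P (quantile ω u)
        = t * res ω n j P (quantile ω u) - quantile ω u * res ω n j P (quantile ω u) :=
      fun u => by ring
    simp only [e3] at e1
    rw [intervalIntegral.integral_sub (iγ.const_mul _) iq, intervalIntegral.integral_const_mul,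
      e0] at e1
    linarith
  have hmain := pat ht.1 (C.nice.quantile_strictMono.mono
    (Ioo_subset_Ioo le_rfl ht.2.le)) (C.res_q_contOn le_rfl ht.2.le) iγ iq e0 e2 (by
      intro u hu v hv huv hneg
      have hu' : u ∈ Ioo (0:ℝ) 1 := ⟨hu.1, hu.2.trans ht.2⟩
      have hv' : v ∈ Ioo (0:ℝ) 1 := ⟨hv.1, hv.2.trans ht.2⟩
      have h3 := C.nice.quantile_strictMono hu' hv' huv
      have h4 := C.nice.quantile_strictMono hv' ht hv.2
      rw [C.nice.quantile_cdf ht] at h4
      exact hpat _ _ (C.nice.quantile_mem hu') h3 h4 hneg)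
  intro x hx1 hx2
  have h3 := hmain _ ⟨hx1.1, C.nice.strict hx1 ht hx2⟩
  rwa [C.nice.quantile_cdf hx1] at h3

theorem neg_zero {t z : ℝ} (ht : t ∈ {y | 0 < cdf ω y ∧ cdf ω y < 1}) (hz : z ∈ {y | 0 < cdf ω y ∧ cdf ω y < 1}) (htz : t < z)
    (hzp : z ≤ quantile ω p) (zt : Phi ω n j P t = 0)
    (h : ∀ x, t < x → x < z → res ω n j P x ≤ 0) :
    ∀ x, t < x → x < z → res ω n j P x = 0 := by
  have hw : cdf ω t < cdf ω z := C.nice.strict ht hz htz
  have hwp := C.cdf_le_p hzp
  have g1 := C.Gi_zero ht (htz.trans_le hzp) zt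
  have e1 := C.Phi_expand hz hzp ht (htz.le.trans hzp)
  rw [zt, g1, mul_zero, zero_add, zero_add] at e1
  have hnn := C.Phi_nonneg hz hzp
  have il := C.int_lin_res ht.1.le hw.le hwp z
  have hnp : ∀ u ∈ Ioo (cdf ω t) (cdf ω z),
      (z - quantile ω u) * res ω n j P (quantile ω u) ≤ 0 := by
    intro u hu
    have h1 := C.q_mem_Ioo ht hz hu
    exact mul_nonpos_of_nonneg_of_nonpos (by linarith [h1.2]) (h _ h1.1 h1.2)
  have h2 := integral_nonpos_Ioo hw.le hnp
  have h3 : ∫ u in (cdf ω t)..(cdf ω z), (z - quantile ω u) * res ω n j P (quantile ω u) = 0 := by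
    linarith
  have h4 := ae_zero_of (ρ := fun u => -((z - quantile ω u) * res ω n j P (quantile ω u))) hw.le
    (fun u hu => by have := hnp u hu; linarith) il.neg
    (by rw [intervalIntegral.integral_neg, h3, _root_.neg_zero])
  have h5 := zero_of_ae_zero (C.res_q_contOn ht.1.le hz.2.le) (by
    filter_upwards [h4, ae_restrict_mem measurableSet_Ioo] with u hu hu2
    have h1 := C.q_mem_Ioo ht hz hu2
    have h6 : (z - quantile ω u) * res ω n j P (quantile ω u) = 0 := by linarith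
    rcases mul_eq_zero.1 h6 with h7 | h7
    · exfalso; linarith [h1.2]
    · exact h7)
  intro x hx1 hx2
  obtain ⟨h1, h2⟩ := C.cdf_mem_Ioo ht hz ⟨hx1, hx2⟩
  have h3 := h5 _ h1
  rwa [C.nice.quantile_cdf h2] at h3

theorem phi_zero_of_res {t z : ℝ} (ht : t ∈ {y | 0 < cdf ω y ∧ cdf ω y < 1}) (hz : z ∈ {y | 0 < cdf ω y ∧ cdf ω y < 1}) (htz : t < z)
    (hzp : z ≤ quantile ω p) (zt : Phi ω n j P t = 0)
    (h : ∀ x, t < x → x < z → res ω n j P x = 0) : Phi ω n j P z = 0 := by
  have hw : cdf ω t < cdf ω z := C.nice.strict ht hz htz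
  have g1 := C.Gi_zero ht (htz.trans_le hzp) zt
  rw [C.Phi_expand hz hzp ht (htz.le.trans hzp), zt, g1, mul_zero, zero_add, zero_add,
    integral_congr_Ioo hw.le (g := fun _ => 0)]
  · simp
  intro u hu
  have h1 := C.q_mem_Ioo ht hz hu
  rw [h _ h1.1 h1.2, mul_zero]

/-- `Phi` is continuous up to the `p`-quantile -/
theorem Phi_continuousOn : ContinuousOn (Phi ω n j P) ({y | 0 < cdf ω y ∧ cdf ω y < 1} ∩ Iic (quantile ω p)) := by
  have hprω := C.nice.prob
  have hp0 := C.hp.1.le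
  have c1 : ContinuousOn (fun w => ∫ u in (0:ℝ)..w, res ω n j P (quantile ω u)) (Icc 0 p) := by
    have := intervalIntegral.continuousOn_primitive_interval' (C.int_res le_rfl hp0 C.hp.2.le)
      left_mem_uIcc
    rwa [uIcc_of_le hp0] at this
  have c2 : ContinuousOn (fun w => ∫ u in (0:ℝ)..w, quantile ω u * res ω n j P (quantile ω u))
      (Icc 0 p) := by
    have := intervalIntegral.continuousOn_primitive_interval' (C.int_q_res le_rfl hp0 le_rfl)
      left_mem_uIcc
    rwa [uIcc_of_le hp0] at this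
  have hmaps : MapsTo (cdf ω) ({y | 0 < cdf ω y ∧ cdf ω y < 1} ∩ Iic (quantile ω p)) (Icc 0 p) := fun t ht =>
    ⟨ht.1.1.le, C.cdf_le_p ht.2⟩
  have c3 := c1.comp C.nice.cont.continuousOn hmaps
  have c4 := c2.comp C.nice.cont.continuousOn hmaps
  refine ((continuousOn_id.mul c3).sub c4).congr fun t ht => ?_
  have e3 : ∀ u, (t - quantile ω u) * res ω n j P (quantile ω u)
      = t * res ω n j P (quantile ω u) - quantile ω u * res ω n j P (quantile ω u) :=
    fun u => by ring
  unfold Phi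
  simp only [e3]
  rw [intervalIntegral.integral_sub ((C.int_res le_rfl ht.1.1.le ht.1.2.le).const_mul _)
    (C.int_q_res le_rfl ht.1.1.le (C.cdf_le_p ht.2)), intervalIntegral.integral_const_mul]
  rfl

end Ctx

end Pool.Agent.Lib.MP_c5814c_pr
end

section

namespace Pool.Agent.Lib.MP_c5814c_pr

open MeasureTheory ProbabilityTheory Set Filter
open scoped ENNReal Topology RealInnerProductSpace

/-- The data of a projection when `f_j ∘ W` is concave, then convex right of its mode. -/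
structure Sh (ω : Measure ℝ) (n j : ℕ) (p : ℝ) (P : ℝ → ℝ) (w0 : ℝ) : Prop where
  C : Ctx ω n j p P
  hj : j < n
  hn : 2 ≤ n
  h0 : (j : ℝ) / (n - 1) ≤ w0
  h1 : w0 ≤ p
  hcv : ConcaveOn ℝ {y | 0 < cdf ω y ∧ (j : ℝ) / (n - 1) ≤ cdf ω y ∧ cdf ω y ≤ w0}
    (fun y => pdfU n j (cdf ω y))
  hcx : ConvexOn ℝ {y | 0 < cdf ω y ∧ w0 ≤ cdf ω y ∧ cdf ω y ≤ p}
    (fun y => pdfU n j (cdf ω y))

/-- an interior zero of `Phi` -/
def Zr (ω : Measure ℝ) (n j : ℕ) (p : ℝ) (P : ℝ → ℝ) (t : ℝ) : Prop :=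
  (0 < cdf ω t ∧ cdf ω t < 1) ∧ t < quantile ω p ∧ Phi ω n j P t = 0

namespace Ctx

variable {ω : Measure ℝ} {n j : ℕ} {p : ℝ} {P : ℝ → ℝ} (C : Ctx ω n j p P)

include C

theorem res_eq_of_left {s x : ℝ} (hx : x ∈ {y | 0 < cdf ω y ∧ cdf ω y < 1}) (hsx : s < x)
    (h : ∀ y, s < y → y < x → res ω n j P y = 0) : res ω n j P x = 0 := by
  have h1 := (C.res_continuousOn.continuousAt (C.nice.isOpen.mem_nhds hx)).tendsto.mono_left
    (nhdsWithin_le_nhds (s := Iio x))
  refine tendsto_nhds_unique h1 ?_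
  refine tendsto_const_nhds.congr' ?_
  filter_upwards [Ioo_mem_nhdsLT hsx] with y hy
  exact (h y hy.1 hy.2).symm

theorem P_continuousAt {x : ℝ} (hx : x ∈ {y | 0 < cdf ω y ∧ cdf ω y < 1}) : ContinuousAt P x :=
  (C.proj.1.1.continuousOn C.nice.isOpen).continuousAt (C.nice.isOpen.mem_nhds hx)

/-- affine on an open interval extends to the right endpoint -/
theorem affine_right {s x A B : ℝ} (hx : x ∈ {y | 0 < cdf ω y ∧ cdf ω y < 1}) (hsx : s < x)
    (h : ∀ y, s < y → y < x → P y = A + B * y) : P x = A + B * x := by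
  have h1 := (C.P_continuousAt hx).tendsto.mono_left (nhdsWithin_le_nhds (s := Iio x))
  refine tendsto_nhds_unique h1 ?_
  have h2 : Tendsto (fun y : ℝ => A + B * y) (𝓝[<] x) (𝓝 (A + B * x)) :=
    ((continuous_const.add (continuous_const.mul continuous_id)).tendsto x).mono_left
      nhdsWithin_le_nhds
  refine h2.congr' ?_
  filter_upwards [Ioo_mem_nhdsLT hsx] with y hy
  exact (h y hy.1 hy.2).symm

theorem affine_left {s x A B : ℝ} (hs : s ∈ {y | 0 < cdf ω y ∧ cdf ω y < 1}) (hsx : s < x)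
    (h : ∀ y, s < y → y < x → P y = A + B * y) : P s = A + B * s := by
  have h1 := (C.P_continuousAt hs).tendsto.mono_left (nhdsWithin_le_nhds (s := Ioi s))
  refine tendsto_nhds_unique h1 ?_
  have h2 : Tendsto (fun y : ℝ => A + B * y) (𝓝[>] s) (𝓝 (A + B * s)) :=
    ((continuous_const.add (continuous_const.mul continuous_id)).tendsto s).mono_left
      nhdsWithin_le_nhds
  refine h2.congr' ?_
  filter_upwards [Ioo_mem_nhdsGT hsx] with y hy
  exact (h y hy.1 hy.2).symm

/-- affine on the closed gap between two consecutive zeros -/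
theorem affine_gap {s t : ℝ} (hs : s ∈ {y | 0 < cdf ω y ∧ cdf ω y < 1}) (ht : t ∈ {y | 0 < cdf ω y ∧ cdf ω y < 1}) (htp : t ≤ quantile ω p)
    (hst : s < t) (h : ∀ y, s < y → y < t → Phi ω n j P y ≠ 0) :
    ∃ A B : ℝ, ∀ y, s ≤ y → y ≤ t → P y = A + B * y := by
  obtain ⟨A, B, hAB⟩ := C.affine_on (S := Ioo s t) ordConnected_Ioo
    (fun y hy => ⟨Icc_sub hs ht y ⟨hy.1.le, hy.2.le⟩, hy.2.trans_le htp⟩)
    (fun y hy => h y hy.1 hy.2)
  refine ⟨A, B, fun y h1 h2 => ?_⟩
  rcases eq_or_lt_of_le h1 with h3 | h3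
  · subst h3
    exact C.affine_left hs hst fun y h4 h5 => hAB y ⟨h4, h5⟩
  · rcases eq_or_lt_of_le h2 with h4 | h4
    · subst h4
      exact C.affine_right ht hst fun y h4 h5 => hAB y ⟨h4, h5⟩
    · exact hAB y ⟨h3, h4⟩

theorem affine_tail {s : ℝ} (hs : s ∈ {y | 0 < cdf ω y ∧ cdf ω y < 1}) (hsp : s ≤ quantile ω p)
    (h : ∀ y, s < y → y < quantile ω p → Phi ω n j P y ≠ 0) :
    ∃ κ : ℝ, ∀ y, s ≤ y → y ≤ quantile ω p → P y = κ * (quantile ω p - y) := by
  have hq0 : P (quantile ω p) = 0 := C.proj.1.2.2 _ C.qI le_rfl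
  rcases eq_or_lt_of_le hsp with he | hlt
  · refine ⟨0, fun y h1 h2 => ?_⟩
    have : y = quantile ω p := le_antisymm h2 (by rw [← he]; exact h1)
    rw [this, hq0]; ring
  · obtain ⟨A, B, hAB⟩ := C.affine_gap hs C.qI le_rfl hlt h
    have h1 := hAB _ hlt.le le_rfl
    rw [hq0] at h1
    refine ⟨-B, fun y h2 h3 => ?_⟩
    rw [hAB y h2 h3]
    linear_combination (-1 : ℝ) * h1

theorem exists_nonpos {t : ℝ} (ht : Zr ω n j p P t) : ∃ x ∈ {y | 0 < cdf ω y ∧ cdf ω y < 1}, x < t ∧ res ω n j P x ≤ 0 := by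
  by_contra hcon
  push Not at hcon
  have hpos : ∀ x ∈ {y | 0 < cdf ω y ∧ cdf ω y < 1}, x < t → 0 < res ω n j P x := hcon
  have h1 := C.gap_zero_left ht.1 ht.2.1 ht.2.2 (fun x z hx hxz hzt hneg => by
    have := hpos x hx (hxz.trans hzt)
    linarith)
  obtain ⟨s, hs, hst⟩ := exists_left C.nice ht.1
  have h2 := hpos s hs hst
  rw [h1 s hs hst] at h2
  exact lt_irrefl _ h2

/-- the least zero in a compact interval -/
theorem least_zero {a b : ℝ} (ha : a ∈ {y | 0 < cdf ω y ∧ cdf ω y < 1}) (hb : Zr ω n j p P b) (hab : a ≤ b) :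
    ∃ s, a ≤ s ∧ s ≤ b ∧ Zr ω n j p P s ∧ ∀ y, a ≤ y → y < s → Phi ω n j P y ≠ 0 := by
  have hsub : Icc a b ⊆ {y | 0 < cdf ω y ∧ cdf ω y < 1} ∩ Iic (quantile ω p) := fun y hy =>
    ⟨Icc_sub ha hb.1 y hy, hy.2.trans hb.2.1.le⟩
  have hc : ContinuousOn (Phi ω n j P) (Icc a b) := C.Phi_continuousOn.mono hsub
  have hK : IsCompact (Icc a b ∩ Phi ω n j P ⁻¹' {0}) :=
    isCompact_Icc.of_isClosed_subset (hc.preimage_isClosed_of_isClosed isClosed_Icc
      isClosed_singleton) inter_subset_left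
  obtain ⟨s, hs⟩ := hK.exists_isLeast ⟨b, ⟨hab, le_rfl⟩, hb.2.2⟩
  refine ⟨s, hs.1.1.1, hs.1.1.2, ⟨Icc_sub ha hb.1 s hs.1.1, hs.1.1.2.trans_lt hb.2.1, hs.1.2⟩,
    fun y h1 h2 h3 => ?_⟩
  have := hs.2 (⟨⟨h1, h2.le.trans hs.1.1.2⟩, h3⟩ : y ∈ Icc a b ∩ Phi ω n j P ⁻¹' {0})
  linarith

/-- the greatest zero in a compact interval -/
theorem greatest_zero {a b : ℝ} (ha : Zr ω n j p P a) (hb : b ∈ {y | 0 < cdf ω y ∧ cdf ω y < 1})
    (hbp : b < quantile ω p) (hab : a ≤ b) :
    ∃ s, a ≤ s ∧ s ≤ b ∧ Zr ω n j p P s ∧ ∀ y, s < y → y ≤ b → Phi ω n j P y ≠ 0 := by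
  have hsub : Icc a b ⊆ {y | 0 < cdf ω y ∧ cdf ω y < 1} ∩ Iic (quantile ω p) := fun y hy =>
    ⟨Icc_sub ha.1 hb y hy, hy.2.trans hbp.le⟩
  have hc : ContinuousOn (Phi ω n j P) (Icc a b) := C.Phi_continuousOn.mono hsub
  have hK : IsCompact (Icc a b ∩ Phi ω n j P ⁻¹' {0}) :=
    isCompact_Icc.of_isClosed_subset (hc.preimage_isClosed_of_isClosed isClosed_Icc
      isClosed_singleton) inter_subset_left
  obtain ⟨s, hs⟩ := hK.exists_isGreatest ⟨a, ⟨le_rfl, hab⟩, ha.2.2⟩
  refine ⟨s, hs.1.1.1, hs.1.1.2, ⟨Icc_sub ha.1 hb s hs.1.1, hs.1.1.2.trans_lt hbp, hs.1.2⟩,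
    fun y h1 h2 h3 => ?_⟩
  have := hs.2 (⟨⟨hs.1.1.1.trans h1.le, h2⟩, h3⟩ : y ∈ Icc a b ∩ Phi ω n j P ⁻¹' {0})
  linarith

end Ctx

namespace Sh

variable {ω : Measure ℝ} {n j : ℕ} {p : ℝ} {P : ℝ → ℝ} {w0 : ℝ} (H : Sh ω n j p P w0)

include H

/-- quasi-convexity of the residual on the left part -/
theorem qv {x z x' : ℝ} (hx : x ∈ {y | 0 < cdf ω y ∧ cdf ω y < 1}) (hx' : x' ∈ {y | 0 < cdf ω y ∧ cdf ω y < 1}) (hw : cdf ω x' ≤ w0)
    (hxz : x < z) (hzx : z < x') :
    res ω n j P z ≤ max (res ω n j P x) (res ω n j P x') := by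
  have C := H.C
  have hn1 : (0:ℝ) < n - 1 := by
    have : (2:ℝ) ≤ n := by exact_mod_cast H.hn
    linarith
  set c := (j : ℝ) / (n - 1) with hc
  have hc0 : 0 ≤ c := div_nonneg (Nat.cast_nonneg j) hn1.le
  have hcm : ((n:ℝ) - 1) * c ≤ j := by rw [hc]; field_simp; exact le_rfl
  have hc1 : c ≤ 1 := (H.h0.trans H.h1).trans C.hp.2.le
  have hzI : z ∈ {y | 0 < cdf ω y ∧ cdf ω y < 1} := Icc_sub hx hx' z ⟨hxz.le, hzx.le⟩
  have hanti : ∀ a ∈ {y | 0 < cdf ω y ∧ cdf ω y < 1}, ∀ b ∈ {y | 0 < cdf ω y ∧ cdf ω y < 1}, a ≤ b → cdf ω b ≤ c → res ω n j P b ≤ res ω n j P a := by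
    intro a ha b hb hab hbc
    have h1 := C.proj.1.2.1 ha hb hab
    have h2 := dens_mono (n := n) (j := j) H.hj hc1 hcm
      ⟨ha.1.le, (monotone_cdf ω hab).trans hbc⟩ ⟨hb.1.le, hbc⟩ (monotone_cdf ω hab)
    unfold res
    linarith
  have hconv : ConvexOn ℝ {y | 0 < cdf ω y ∧ (j : ℝ) / (n - 1) ≤ cdf ω y ∧ cdf ω y ≤ w0}
      (res ω n j P) := by
    have h1 : ConvexOn ℝ {y | 0 < cdf ω y ∧ (j : ℝ) / (n - 1) ≤ cdf ω y ∧ cdf ω y ≤ w0} P :=
      C.proj.1.1.subset (fun y hy => ⟨hy.1, hy.2.2.trans_lt (H.h1.trans_lt C.hp.2)⟩) H.hcv.1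
    have h2 := (h1.add H.hcv.neg).add (convexOn_const (-(∫ v, P (quantile ω v) ∂unif)) H.hcv.1)
    refine h2.congr fun y _ => ?_
    simp only [Pi.add_apply, Pi.neg_apply, res]
    ring
  rcases le_or_gt (cdf ω z) c with hzc | hzc
  · exact (hanti x hx z hzI hxz.le hzc).trans (le_max_left _ _)
  · rcases le_or_gt c (cdf ω x) with hxc | hxc
    · refine hconv.le_max_of_mem_Icc ⟨hx.1, hxc, (monotone_cdf ω (hxz.trans hzx).le).trans hw⟩
        ⟨hx'.1, hzc.le.trans (monotone_cdf ω hzx.le), hw⟩ ⟨hxz.le, hzx.le⟩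
    · have hcI : c ∈ Ioo (0:ℝ) 1 := ⟨hx.1.trans hxc, (H.h0.trans H.h1).trans_lt C.hp.2⟩
      have hq := C.nice.quantile_mem hcI
      have hcq : cdf ω (quantile ω c) = c := C.nice.cdf_quantile hcI
      have hprω := C.nice.prob
      have h1 : x < quantile ω c := (lt_quantile_iff ω hcI.1 hcI.2 x).2 hxc
      have h2 : quantile ω c ≤ z := (quantile_le_iff ω hcI.1 hcI.2 z).2 hzc.le
      have h3 := hanti x hx _ hq h1.le hcq.le
      have h4 := hconv.le_max_of_mem_Icc (z := z) (x := quantile ω c) (y := x')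
        ⟨hq.1, hcq.ge, hcq.le.trans H.h0⟩
        ⟨hx'.1, hzc.le.trans (monotone_cdf ω hzx.le), hw⟩ ⟨h2, hzx.le⟩
      exact h4.trans (max_le_max_right _ h3)

/-- quasi-concavity of the residual on the right part, where `P` is affine -/
theorem qc {x z x' A B : ℝ} (hx : x ∈ {y | 0 < cdf ω y ∧ cdf ω y < 1}) (hx' : x' ∈ {y | 0 < cdf ω y ∧ cdf ω y < 1}) (hw : w0 ≤ cdf ω x)
    (hp' : x' ≤ quantile ω p) (hxz : x < z) (hzx : z < x') (e1 : P x = A + B * x)
    (e2 : P z = A + B * z) (e3 : P x' = A + B * x') :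
    min (res ω n j P x) (res ω n j P x') ≤ res ω n j P z := by
  have C := H.C
  set D : Set ℝ := {y | 0 < cdf ω y ∧ w0 ≤ cdf ω y ∧ cdf ω y ≤ p} with hD
  have hxp := C.cdf_le_p hp'
  have hzz : cdf ω x ≤ cdf ω z := monotone_cdf ω hxz.le
  have hzz' : cdf ω z ≤ cdf ω x' := monotone_cdf ω hzx.le
  have hlin : ConvexOn ℝ D (fun y => -B * y + ((∫ v, P (quantile ω v) ∂unif) - A)) := by
    refine ⟨H.hcx.1, fun a _ b _ s t _ _ hst => ?_⟩
    simp only [smul_eq_mul]
    have : (∫ v, P (quantile ω v) ∂unif) - A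
      = s * ((∫ v, P (quantile ω v) ∂unif) - A) + t * ((∫ v, P (quantile ω v) ∂unif) - A) := by
      rw [← add_mul, hst, one_mul]
    linarith
  have hcon := H.hcx.add hlin
  have h1 := hcon.le_max_of_mem_Icc (z := z) (x := x) (y := x') ⟨hx.1, hw, hzz.trans (hzz'.trans hxp)⟩
    ⟨hx'.1, hw.trans (hzz.trans hzz'), hxp⟩ ⟨hxz.le, hzx.le⟩
  have f1 : (fun y => pdfU n j (cdf ω y) + (-B * y + ((∫ v, P (quantile ω v) ∂unif) - A))) x
      = -res ω n j P x := by simp only [res]; rw [e1]; ring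
  have f2 : (fun y => pdfU n j (cdf ω y) + (-B * y + ((∫ v, P (quantile ω v) ∂unif) - A))) z
      = -res ω n j P z := by simp only [res]; rw [e2]; ring
  have f3 : (fun y => pdfU n j (cdf ω y) + (-B * y + ((∫ v, P (quantile ω v) ∂unif) - A))) x'
      = -res ω n j P x' := by simp only [res]; rw [e3]; ring
  simp only [Pi.add_apply] at h1 f1 f2 f3
  rw [f1, f2, f3, max_neg_neg] at h1
  linarith

theorem left_case {t : ℝ} (ht : Zr ω n j p P t) (hw : cdf ω t ≤ w0) :
    (∀ x ∈ {y | 0 < cdf ω y ∧ cdf ω y < 1}, x < t → res ω n j P x = 0) ∨ 0 < res ω n j P t := by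
  rcases le_or_gt (res ω n j P t) 0 with h | h
  · left
    refine H.C.gap_zero_left ht.1 ht.2.1 ht.2.2 fun x z hx hxz hzt hneg => ?_
    exact (H.qv hx ht.1 hw hxz hzt).trans (max_le hneg.le h)
  · exact Or.inr h

/-- the anchor point `max(t, Q(w0))` -/
theorem anchor {t : ℝ} (ht : t ∈ {y | 0 < cdf ω y ∧ cdf ω y < 1}) (hw : cdf ω t ≤ w0) :
    quantile ω w0 ∈ {y | 0 < cdf ω y ∧ cdf ω y < 1} ∧ cdf ω (quantile ω w0) = w0 ∧ t ≤ quantile ω w0 := by
  have hprω := H.C.nice.prob
  have hI : w0 ∈ Ioo (0:ℝ) 1 := ⟨ht.1.trans_le hw, H.h1.trans_lt H.C.hp.2⟩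
  refine ⟨H.C.nice.quantile_mem hI, H.C.nice.cdf_quantile hI, ?_⟩
  have := H.C.nice.quantile_strictMono.monotoneOn (show cdf ω t ∈ Ioo (0:ℝ) 1 from ht) hI hw
  rwa [H.C.nice.quantile_cdf ht] at this

theorem no_right {t : ℝ} (ht : Zr ω n j p P t) (hw : cdf ω t ≤ w0) (hpos : 0 < res ω n j P t)
    {s : ℝ} (hs : Zr ω n j p P s) : ¬ t < s := by
  intro hts
  have C := H.C
  have hprω := C.nice.prob
  obtain ⟨x0, hx0, hx0t, hx0n⟩ := C.exists_nonpos ht
  obtain ⟨yI, hyw, hty⟩ := H.anchor ht.1 hw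
  set y0 := quantile ω w0 with hy0
  have hy0pos : 0 < res ω n j P y0 := by
    rcases eq_or_lt_of_le hty with h | h
    · rw [← h]; exact hpos
    · have h1 := H.qv hx0 yI hyw.le hx0t h
      rcases le_max_iff.1 h1 with h2 | h2
      · linarith
      · linarith
  -- positivity near `t`
  have hev : ∀ᶠ y in 𝓝[>] t, 0 < res ω n j P y :=
    ((C.res_continuousOn.continuousAt (C.nice.isOpen.mem_nhds ht.1)).eventually
      (lt_mem_nhds hpos)).filter_mono nhdsWithin_le_nhds
  obtain ⟨d, hd, hds⟩ := (mem_nhdsGT_iff_exists_Ioo_subset).1 hev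
  have hd' : t < d := hd
  set t1 := min ((t + d) / 2) ((t + s) / 2) with ht1
  have ht1a : t < t1 := lt_min (by linarith) (by linarith)
  have ht1b : t1 < d := (min_le_left _ _).trans_lt (by linarith)
  have ht1c : t1 < s := (min_le_right _ _).trans_lt (by linarith)
  have hposn : ∀ y, t < y → y ≤ t1 → 0 < res ω n j P y := fun y h1 h2 =>
    hds ⟨h1, h2.trans_lt ht1b⟩
  have ht1I : t1 ∈ {y | 0 < cdf ω y ∧ cdf ω y < 1} := Icc_sub ht.1 hs.1 t1 ⟨ht1a.le, ht1c.le⟩
  have hnz : ∀ y, t < y → y ≤ t1 → Phi ω n j P y ≠ 0 := by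
    intro y h1 h2 h3
    have hyI : y ∈ {y | 0 < cdf ω y ∧ cdf ω y < 1} := Icc_sub ht.1 ht1I y ⟨h1.le, h2⟩
    have h4 := C.gap_zero ht.1 hyI ((h2.trans_lt ht1c).trans hs.2.1) h1 ht.2.2 h3
      (fun x z hx1 hx2 hx3 hneg => by
        have := hposn x hx1 ((hx2.trans hx3).le.trans h2)
        linarith)
    have h5 := h4 ((t + y) / 2) (by linarith) (by linarith)
    have h6 := hposn ((t + y) / 2) (by linarith) (by linarith)
    linarith
  obtain ⟨s1, hs1a, hs1b, hs1, hs1n⟩ := C.least_zero ht1I hs ht1c.le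
  have hts1 : t < s1 := ht1a.trans_le hs1a
  have hno : ∀ y, t < y → y < s1 → Phi ω n j P y ≠ 0 := by
    intro y h1 h2
    rcases le_or_gt y t1 with h3 | h3
    · exact hnz y h1 h3
    · exact hs1n y h3.le h2
  obtain ⟨A, B, hAB⟩ := C.affine_gap ht.1 hs1.1 hs1.2.1.le hts1 hno
  have hz := C.gap_zero ht.1 hs1.1 hs1.2.1 hts1 ht.2.2 hs1.2.2 (by
    intro x z hx1 hxz hzs hneg
    have hxI : x ∈ {y | 0 < cdf ω y ∧ cdf ω y < 1} := Icc_sub ht.1 hs1.1 x ⟨hx1.le, (hxz.trans hzs).le⟩
    have hzI : z ∈ {y | 0 < cdf ω y ∧ cdf ω y < 1} := Icc_sub ht.1 hs1.1 z ⟨(hx1.trans hxz).le, hzs.le⟩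
    have hxw : w0 < cdf ω x := by
      by_contra hcon
      push Not at hcon
      have h1 := H.qv hx0 hxI hcon hx0t hx1
      rcases le_max_iff.1 h1 with h2 | h2
      · linarith
      · linarith
    have hyx : y0 < x := by
      by_contra hcon
      push Not at hcon
      have := monotone_cdf ω hcon
      linarith
    have h3 := H.qc yI hzI hyw.ge (hzs.le.trans hs1.2.1.le) hyx hxz
      (hAB y0 hty (hyx.trans (hxz.trans hzs)).le) (hAB x hx1.le (hxz.trans hzs).le)
      (hAB z (hx1.trans hxz).le hzs.le)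
    rcases min_le_iff.1 h3 with h4 | h4
    · linarith
    · linarith)
  have h5 := hz ((t + t1) / 2) (by linarith) (by linarith)
  have h6 := hposn ((t + t1) / 2) (by linarith) (by linarith)
  linarith

/-- a negative value of the residual after a zero is impossible if the residual vanishes before -/
theorem nonneg_after {s x : ℝ} (hs : Zr ω n j p P s) (hs0 : ∀ y ∈ {y | 0 < cdf ω y ∧ cdf ω y < 1}, y < s → res ω n j P y = 0)
    (hx : x ∈ {y | 0 < cdf ω y ∧ cdf ω y < 1}) (hsx : s < x) (hxp : x ≤ quantile ω p) (hw : cdf ω x ≤ w0) :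
    0 ≤ res ω n j P x := by
  by_contra hcon
  push Not at hcon
  have C := H.C
  obtain ⟨x1, hx1, hx1s⟩ := exists_left C.nice hs.1
  have h1 := C.neg_zero hs.1 hx hsx hxp hs.2.2 (fun y h2 h3 => by
    have h4 := H.qv hx1 hx hw (hx1s.trans h2) h3
    rw [hs0 x1 hx1 hx1s] at h4
    exact h4.trans (max_le le_rfl hcon.le))
  have h2 := C.res_eq_of_left hx hsx h1
  linarith

theorem no_left {t : ℝ} (ht : Zr ω n j p P t) (hw : cdf ω t ≤ w0) (hpos : 0 < res ω n j P t)
    {s : ℝ} (hs : Zr ω n j p P s) : ¬ s < t := by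
  intro hst
  have C := H.C
  have hws : cdf ω s ≤ w0 := (monotone_cdf ω hst.le).trans hw
  rcases H.left_case hs hws with h0 | h0
  · have hnn : ∀ x, s < x → x < t → 0 ≤ res ω n j P x := by
      intro x h1 h2
      have hxI : x ∈ {y | 0 < cdf ω y ∧ cdf ω y < 1} := Icc_sub hs.1 ht.1 x ⟨h1.le, h2.le⟩
      exact H.nonneg_after hs h0 hxI h1 (h2.le.trans ht.2.1.le)
        ((monotone_cdf ω h2.le).trans hw)
    have h1 := C.gap_zero hs.1 ht.1 ht.2.1 hst hs.2.2 ht.2.2 (fun x z h2 h3 h4 h5 => by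
      have := hnn x h2 (h3.trans h4)
      linarith)
    have h2 := C.res_eq_of_left ht.1 hst h1
    linarith
  · exact H.no_right hs hws h0 ht hst

theorem right_zero {s t : ℝ} (hs : Zr ω n j p P s) (ht : Zr ω n j p P t) (hst : s < t)
    (hw : w0 ≤ cdf ω s) : ∀ x, s < x → x < t → res ω n j P x = 0 := by
  have C := H.C
  -- all points between are zeros
  have hall : ∀ x, s < x → x < t → Phi ω n j P x = 0 := by
    intro x hsx hxt
    by_contra hne
    have hxI : x ∈ {y | 0 < cdf ω y ∧ cdf ω y < 1} := Icc_sub hs.1 ht.1 x ⟨hsx.le, hxt.le⟩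
    obtain ⟨s1, h1, h2, hs1, hs1n⟩ := C.greatest_zero hs hxI (hxt.trans ht.2.1) hsx.le
    obtain ⟨s2, h3, h4, hs2, hs2n⟩ := C.least_zero hxI ht hxt.le
    have h2' : s1 < x := lt_of_le_of_ne h2 (fun h => hne (h ▸ hs1.2.2))
    have h3' : x < s2 := lt_of_le_of_ne h3 (fun h => hne (h ▸ hs2.2.2))
    have h12 : s1 < s2 := h2'.trans h3'
    have hno : ∀ y, s1 < y → y < s2 → Phi ω n j P y ≠ 0 := by
      intro y h5 h6
      rcases le_or_gt y x with h7 | h7
      · exact hs1n y h5 h7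
      · exact hs2n y h7.le h6
    obtain ⟨A, B, hAB⟩ := C.affine_gap hs1.1 hs2.1 hs2.2.1.le h12 hno
    have hw1 : w0 ≤ cdf ω s1 := hw.trans (monotone_cdf ω h1)
    have hz := C.gap_zero hs1.1 hs2.1 hs2.2.1 h12 hs1.2.2 hs2.2.2 (by
      intro y z hy1 hyz hzs hneg
      by_contra hcon
      push Not at hcon
      have hyI : y ∈ {y | 0 < cdf ω y ∧ cdf ω y < 1} := Icc_sub hs1.1 hs2.1 y ⟨hy1.le, (hyz.trans hzs).le⟩
      have hzI : z ∈ {y | 0 < cdf ω y ∧ cdf ω y < 1} := Icc_sub hs1.1 hs2.1 z ⟨(hy1.trans hyz).le, hzs.le⟩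
      have hvneg : ∀ v, s1 < v → v < y → res ω n j P v < 0 := by
        intro v hv1 hv2
        have hvI : v ∈ {y | 0 < cdf ω y ∧ cdf ω y < 1} := Icc_sub hs1.1 hyI v ⟨hv1.le, hv2.le⟩
        have h3 := H.qc hvI hzI (hw1.trans (monotone_cdf ω hv1.le))
          (hzs.le.trans hs2.2.1.le) hv2 hyz
          (hAB v hv1.le (hv2.trans (hyz.trans hzs)).le) (hAB y hy1.le (hyz.trans hzs).le)
          (hAB z (hy1.trans hyz).le hzs.le)
        rcases min_le_iff.1 h3 with h4 | h4
        · linarith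
        · linarith
      have h5 := C.neg_zero hs1.1 hyI hy1 ((hyz.trans hzs).le.trans hs2.2.1.le) hs1.2.2
        (fun v h6 h7 => (hvneg v h6 h7).le)
      have h6 := h5 ((s1 + y) / 2) (by linarith) (by linarith)
      have h7 := hvneg ((s1 + y) / 2) (by linarith) (by linarith)
      linarith)
    exact hne (C.phi_zero_of_res hs1.1 hxI h2' (hxt.le.trans ht.2.1.le) hs1.2.2
      (fun y h5 h6 => hz y h5 (h6.trans h3')))
  intro x hsx hxt
  have hxI : x ∈ {y | 0 < cdf ω y ∧ cdf ω y < 1} := Icc_sub hs.1 ht.1 x ⟨hsx.le, hxt.le⟩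
  have hcx := C.res_continuousOn.continuousAt (C.nice.isOpen.mem_nhds hxI)
  have hIoo : Ioo s t ∈ 𝓝 x := Ioo_mem_nhds hsx hxt
  rcases lt_trichotomy (res ω n j P x) 0 with h | h | h
  · exfalso
    obtain ⟨l, u, hlu, hsub⟩ := (mem_nhds_iff_exists_Ioo_subset).1
      (Filter.inter_mem (hcx.eventually (gt_mem_nhds h)) hIoo)
    set l' := (l + x) / 2
    set u' := (x + u) / 2
    have hl1 : l < l' := by simp only [l']; linarith [hlu.1]
    have hl2 : l' < x := by simp only [l']; linarith [hlu.1]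
    have hu1 : x < u' := by simp only [u']; linarith [hlu.2]
    have hu2 : u' < u := by simp only [u']; linarith [hlu.2]
    have m1 := (hsub ⟨hl1, hl2.trans (hu1.trans hu2)⟩).2
    have m2 := (hsub ⟨hl1.trans (hl2.trans hu1), hu2⟩).2
    have i1 : l' ∈ {y | 0 < cdf ω y ∧ cdf ω y < 1} := Icc_sub hs.1 ht.1 _ ⟨m1.1.le, m1.2.le⟩
    have i2 : u' ∈ {y | 0 < cdf ω y ∧ cdf ω y < 1} := Icc_sub hs.1 ht.1 _ ⟨m2.1.le, m2.2.le⟩
    have h5 := C.neg_zero i1 i2 (hl2.trans hu1) (m2.2.le.trans ht.2.1.le) (hall _ m1.1 m1.2)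
      (fun y h6 h7 => le_of_lt (hsub ⟨hl1.trans h6, h7.trans hu2⟩).1)
    have := h5 x hl2 hu1
    linarith
  · exact h
  · exfalso
    obtain ⟨l, u, hlu, hsub⟩ := (mem_nhds_iff_exists_Ioo_subset).1
      (Filter.inter_mem (hcx.eventually (lt_mem_nhds h)) hIoo)
    set l' := (l + x) / 2
    set u' := (x + u) / 2
    have hl1 : l < l' := by simp only [l']; linarith [hlu.1]
    have hl2 : l' < x := by simp only [l']; linarith [hlu.1]
    have hu1 : x < u' := by simp only [u']; linarith [hlu.2]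
    have hu2 : u' < u := by simp only [u']; linarith [hlu.2]
    have m1 := (hsub ⟨hl1, hl2.trans (hu1.trans hu2)⟩).2
    have m2 := (hsub ⟨hl1.trans (hl2.trans hu1), hu2⟩).2
    have i1 : l' ∈ {y | 0 < cdf ω y ∧ cdf ω y < 1} := Icc_sub hs.1 ht.1 _ ⟨m1.1.le, m1.2.le⟩
    have i2 : u' ∈ {y | 0 < cdf ω y ∧ cdf ω y < 1} := Icc_sub hs.1 ht.1 _ ⟨m2.1.le, m2.2.le⟩
    have h5 := C.gap_zero i1 i2 (m2.2.trans ht.2.1) (hl2.trans hu1) (hall _ m1.1 m1.2)
      (hall _ m2.1 m2.2) (fun y z h6 h7 h8 h9 => by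
        have h10 : 0 < res ω n j P y := (hsub ⟨hl1.trans h6, (h7.trans h8).trans hu2⟩).1
        linarith)
    have := h5 x hl2 hu1
    linarith

theorem left_zero {s t : ℝ} (hs : Zr ω n j p P s) (hw : cdf ω s ≤ w0)
    (hs0 : ∀ x ∈ {y | 0 < cdf ω y ∧ cdf ω y < 1}, x < s → res ω n j P x = 0) (ht : Zr ω n j p P t) (hst : s < t) :
    ∀ x ∈ {y | 0 < cdf ω y ∧ cdf ω y < 1}, x < t → res ω n j P x = 0 := by
  have C := H.C
  have hprω := C.nice.prob
  -- zeros left of `Q(w0)`
  have hleft : ∀ z, Zr ω n j p P z → s ≤ z → cdf ω z ≤ w0 →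
      ∀ x ∈ {y | 0 < cdf ω y ∧ cdf ω y < 1}, x < z → res ω n j P x = 0 := by
    intro z hz hsz hzw
    rcases eq_or_lt_of_le hsz with h | h
    · rw [← h]; exact hs0
    · rcases H.left_case hz hzw with h1 | h1
      · exact h1
      · exact absurd h (H.no_left hz hzw h1 hs)
  rcases le_or_gt (cdf ω t) w0 with htw | htw
  · exact hleft t ht hst.le htw
  · obtain ⟨yI, hyw, hsy⟩ := H.anchor hs.1 hw
    set y0 := quantile ω w0 with hy0
    have hyt : y0 < t := by
      by_contra hcon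
      push Not at hcon
      have := monotone_cdf ω hcon
      linarith
    have hyp : y0 < quantile ω p := hyt.trans ht.2.1
    by_cases hne : Phi ω n j P y0 = 0
    · have zy : Zr ω n j p P y0 := ⟨yI, hyp, hne⟩
      have h1 := hleft y0 zy hsy hyw.le
      have h2 := H.right_zero zy ht hyt hyw.ge
      intro x hx hxt
      rcases lt_trichotomy x y0 with h | h | h
      · exact h1 x hx h
      · rw [h]
        obtain ⟨s', hs', hs'y⟩ := exists_left C.nice yI
        exact C.res_eq_of_left yI hs'y fun y h3 h4 =>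
          h1 y (Icc_sub hs' yI y ⟨h3.le, h4.le⟩) h4
      · exact h2 x h hxt
    · exfalso
      obtain ⟨s1, h1, h2, hs1, hs1n⟩ := C.greatest_zero hs yI hyp hsy
      obtain ⟨s2, h3, h4, hs2, hs2n⟩ := C.least_zero yI ht hyt.le
      have h2' : s1 < y0 := lt_of_le_of_ne h2 (fun h => hne (h ▸ hs1.2.2))
      have h3' : y0 < s2 := lt_of_le_of_ne h3 (fun h => hne (h ▸ hs2.2.2))
      have h12 : s1 < s2 := h2'.trans h3'
      have hno : ∀ y, s1 < y → y < s2 → Phi ω n j P y ≠ 0 := by
        intro y h5 h6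
        rcases le_or_gt y y0 with h7 | h7
        · exact hs1n y h5 h7
        · exact hs2n y h7.le h6
      obtain ⟨A, B, hAB⟩ := C.affine_gap hs1.1 hs2.1 hs2.2.1.le h12 hno
      have hw1 : cdf ω s1 ≤ w0 := (monotone_cdf ω h2).trans hyw.le
      have hz1 := hleft s1 hs1 h1 hw1
      have hy0n := H.nonneg_after hs1 hz1 yI h2' hyp.le hyw.le
      have hz := C.gap_zero hs1.1 hs2.1 hs2.2.1 h12 hs1.2.2 hs2.2.2 (by
        intro x z hx1 hxz hzs hneg
        have hxI : x ∈ {y | 0 < cdf ω y ∧ cdf ω y < 1} := Icc_sub hs1.1 hs2.1 x ⟨hx1.le, (hxz.trans hzs).le⟩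
        have hzI : z ∈ {y | 0 < cdf ω y ∧ cdf ω y < 1} := Icc_sub hs1.1 hs2.1 z ⟨(hx1.trans hxz).le, hzs.le⟩
        have hxw : w0 < cdf ω x := by
          by_contra hcon
          push Not at hcon
          have := H.nonneg_after hs1 hz1 hxI hx1 ((hxz.trans hzs).le.trans hs2.2.1.le) hcon
          linarith
        have hyx : y0 < x := by
          by_contra hcon
          push Not at hcon
          have := monotone_cdf ω hcon
          linarith
        have h5 := H.qc yI hzI hyw.ge (hzs.le.trans hs2.2.1.le) hyx hxz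
          (hAB y0 h2'.le (hyx.trans (hxz.trans hzs)).le) (hAB x hx1.le (hxz.trans hzs).le)
          (hAB z (hx1.trans hxz).le hzs.le)
        rcases min_le_iff.1 h5 with h6 | h6
        · linarith
        · linarith)
      exact hne (C.phi_zero_of_res hs1.1 yI h2' hyp.le hs1.2.2
        (fun y h5 h6 => hz y h5 (h6.trans h3')))

end Sh

end Pool.Agent.Lib.MP_c5814c_pr
end
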