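import Pool.Agent.Lib.MP_c5814c_pr.Final1

section

namespace Pool.Agent.Lib.MP_c5814c_pr

open MeasureTheory ProbabilityTheory Set Filter
open scoped ENNReal Topology RealInnerProductSpace

section

variable {ω : Measure ℝ} {n : ℕ} {j : Fin n} {p : ℝ}

theorem ae_mem_I (hω : Nice ω) : ∀ᵐ y ∂ω, y ∈ {y | 0 < cdf ω y ∧ cdf ω y < 1} := by
  have hprω := hω.prob
  have h : ∀ᵐ y ∂(Measure.map (quantile ω) unif), y ∈ {y | 0 < cdf ω y ∧ cdf ω y < 1} := by
    refine (ae_map_iff (p := fun y => y ∈ {y | 0 < cdf ω y ∧ cdf ω y < 1}) (aemeasurable_quantile ω)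
      hω.isOpen.measurableSet).2 ?_
    filter_upwards [ae_unif_mem] with u hu using hω.quantile_mem hu
  rwa [map_quantile] at h

theorem aesm_pen_law (hω : Nice ω) {k : ℝ → ℝ} (hk : IsPen ω p k) :
    AEStronglyMeasurable k ω := by
  have h1 : AEStronglyMeasurable k (ω.restrict {y | 0 < cdf ω y ∧ cdf ω y < 1}) :=
    (hk.1.continuousOn hω.isOpen).aestronglyMeasurable hω.isOpen.measurableSet
  rwa [Measure.restrict_eq_self_of_ae_mem (ae_mem_I hω)] at h1

theorem memLp_pen_iff (hω : Nice ω) {k : ℝ → ℝ} (hk : IsPen ω p k) :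
    MemLp k 2 ω ↔ MemLp (fun u => k (quantile ω u)) 2 unif := by
  have hprω := hω.prob
  have h1 : AEStronglyMeasurable k (Measure.map (quantile ω) unif) := by
    rw [map_quantile]; exact aesm_pen_law hω hk
  have := memLp_map_measure_iff (p := 2) (μ := unif) (f := quantile ω) (g := k)
    h1 (aemeasurable_quantile ω)
  rw [map_quantile] at this
  exact this

theorem hinge_eq (t y : ℝ) : max (t - y) 0 = t - min y t := by
  rcases le_total y t with h' | h'
  · rw [min_eq_left h', max_eq_left (by linarith)]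
  · rw [min_eq_right h', max_eq_right (by linarith)]; ring

theorem hinge_mean (hω : Nice ω) (t : ℝ) :
    ∫ x, max (t - ordStat j x) 0 ∂(Measure.pi fun _ : Fin n => ω)
      = ∫ u, (t - trunc ω t u) * pdfU n j u ∂unif := by
  have hprω := hω.prob
  have := integral_ordStat j (quantile_mono ω) (g := fun y => max (t - y) 0) (by fun_prop)
  rw [map_quantile] at this
  rw [this]
  refine integral_congr_ae (ae_of_all _ fun u => ?_)
  simp only [hinge_eq]
  rfl

theorem pen_mean (hω : Nice ω) {P : ℝ → ℝ} (hP : AEStronglyMeasurable P ω) :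
    ∫ x, P (ordStat j x) ∂(Measure.pi fun _ : Fin n => ω)
      = ∫ u, P (quantile ω u) * pdfU n j u ∂unif := by
  have hprω := hω.prob
  have h1 : AEStronglyMeasurable P (Measure.map (quantile ω) unif) := by rwa [map_quantile]
  have := integral_ordStat' j (quantile_mono ω) h1
  rwa [map_quantile] at this

theorem pen_var (hω : Nice ω) {P : ℝ → ℝ} (hP : AEStronglyMeasurable P ω) :
    Var[P; ω] = variance (fun u => P (quantile ω u)) unif := by
  have hprω := hω.prob
  have h1 : AEStronglyMeasurable P (Measure.map (quantile ω) unif) := by rwa [map_quantile]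
  have := variance_map (μ := unif) h1.aemeasurable (aemeasurable_quantile ω)
  rw [map_quantile] at this
  exact this

theorem pen_exp (hω : Nice ω) {P : ℝ → ℝ} (hP : AEStronglyMeasurable P ω) :
    ∫ z, P z ∂ω = ∫ u, P (quantile ω u) ∂unif := by
  have hprω := hω.prob
  have h1 : AEStronglyMeasurable P (Measure.map (quantile ω) unif) := by rwa [map_quantile]
  have := integral_map (aemeasurable_quantile ω) h1
  rwa [map_quantile] at this

theorem hinge_cov (hω : Nice ω) {t0 : ℝ} (h0 : MemLp (trunc ω t0) 2 unif) {P : ℝ → ℝ}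
    (hP : AEStronglyMeasurable P ω) (hPL : MemLp (fun u => P (quantile ω u)) 2 unif) (t : ℝ) :
    cov[fun y => max (t - y) 0, P; ω] = ∫ u, (t - trunc ω t u) *
      (P (quantile ω u) - ∫ v, P (quantile ω v) ∂unif) ∂unif := by
  have hprω := hω.prob
  have h1 : AEStronglyMeasurable P (Measure.map (quantile ω) unif) := by rwa [map_quantile]
  have h2 : cov[fun y => max (t - y) 0, P; ω]
      = cov[fun u => t - trunc ω t u, fun u => P (quantile ω u); unif] := by
    have := covariance_map_fun (μ := unif) (X := fun y : ℝ => max (t - y) 0) (Y := P)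
      (Z := quantile ω) (by fun_prop) h1 (aemeasurable_quantile ω)
    rw [map_quantile] at this
    rw [this]
    congr 1
    funext u
    rw [hinge_eq]
    rfl
  have hX : MemLp (fun u => t - trunc ω t u) 2 unif := (memLp_const t).sub (trunc_memLp hω h0 t)
  rw [h2, covariance_eq_sub hX hPL]
  have e1 : ∀ u, (t - trunc ω t u) * (P (quantile ω u) - ∫ v, P (quantile ω v) ∂unif)
      = (t - trunc ω t u) * P (quantile ω u)
        - (∫ v, P (quantile ω v) ∂unif) * (t - trunc ω t u) := fun u => by ring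
  simp only [e1]
  rw [integral_sub (integrable_mul2 hX hPL) ((hX.integrable one_le_two).const_mul _),
    integral_const_mul]
  simp only [Pi.mul_apply]
  ring

theorem var_eq_cov {q : ℝ → ℝ} (hq : MemLp q 2 unif) :
    variance q unif = ∫ u, q u * (q u - ∫ v, q v ∂unif) ∂unif := var_eq_of_memLp hq

theorem isSol_iff (hω : Nice ω) {t0 : ℝ} (h0 : MemLp (trunc ω t0) 2 unif)
    (hp : p ∈ Ioo (0:ℝ) 1) {P : ℝ → ℝ} : IsSol ω n j p P ↔ IsProj ω n j p P := by
  have hprω := hω.prob
  constructor
  · rintro ⟨hk, hL, hh, he⟩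
    have hPL := (memLp_pen_iff hω hk).1 hL
    have hPm := aesm_pen_law hω hk
    refine proj_of_hinge hω h0 hp hk hPL (fun t ht htp => ?_) ?_
    · have := hh t ht.1 htp
      rwa [hinge_mean hω, hinge_cov hω h0 hPm hPL] at this
    · rw [pen_mean hω hPm, pen_var hω hPm, var_eq_of_memLp hPL] at he
      exact he
  · rintro hP
    have hk := hP.1
    have hPL := hP.2.1
    have hPm := aesm_pen_law hω hk
    refine ⟨hk, (memLp_pen_iff hω hk).2 hPL, fun t ht htp => ?_, ?_⟩
    · rw [hinge_mean hω, hinge_cov hω h0 hPm hPL]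
      have h1 : (fun u => max (t - quantile ω u) 0) = fun u => t - trunc ω t u := by
        funext u
        rw [hinge_eq]
        rfl
      have h2 := hP.2.2.1 (fun y => max (t - y) 0) (isPen_hinge hω htp) (by
        rw [h1]; exact (memLp_const t).sub (trunc_memLp hω h0 t))
      have h3 : ∀ u, max (t - quantile ω u) 0 = t - trunc ω t u := fun u => congrFun h1 u
      simp only [h3] at h2
      exact h2
    · rw [pen_mean hω hPm, pen_var hω hPm, var_eq_of_memLp hPL]
      exact hP.2.2.2

/-- The lower bound over the convex family. -/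
theorem convex_low (hω : Nice ω) {t0 : ℝ} (h0 : MemLp (trunc ω t0) 2 unif)
    (hj : (j : ℕ) + 1 < n) (hp : p ∈ Ioo (0:ℝ) 1) :
    ∃ P : ℝ → ℝ, IsSol ω n j p P ∧ (∀ P', IsSol ω n j p P' → ∀ y ∈ {y | 0 < cdf ω y ∧ cdf ω y < 1}, P' y = P y) ∧
      0 < Var[P; ω] ∧
      IsLeast (bias n j p '' convexFamily ω) (-√Var[P; ω]) ∧
      (∀ ν ∈ convexFamily ω, bias n j p ν = -√Var[P; ω] ↔
        ∃ κ > 0, ∃ c, ν = Measure.map (fun y => c - κ * P y) ω) ∧
      (ConcaveOn ℝ {y | 0 < cdf ω y ∧ ((j : ℕ) : ℝ) / (n - 1) ≤ cdf ω y ∧ cdf ω y ≤ p}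
          (fun y => pdfU n j (cdf ω y)) →
        -√Var[P; ω] = (en ω n j (quantile ω p) - quantile ω p) / √(vr ω (quantile ω p)) ∧
        ∃ c > 0, ∀ y ∈ {y | 0 < cdf ω y ∧ cdf ω y < 1}, P y = c * max (quantile ω p - y) 0) ∧
      ∀ w0 : ℝ, ((j : ℕ) : ℝ) / (n - 1) ≤ w0 → w0 ≤ p →
        ConcaveOn ℝ {y | 0 < cdf ω y ∧ ((j : ℕ) : ℝ) / (n - 1) ≤ cdf ω y ∧ cdf ω y ≤ w0}
          (fun y => pdfU n j (cdf ω y)) →
        ConvexOn ℝ {y | 0 < cdf ω y ∧ w0 ≤ cdf ω y ∧ cdf ω y ≤ p}
          (fun y => pdfU n j (cdf ω y)) →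
        ∃ v w A B κ : ℝ, 0 ≤ v ∧ v ≤ w ∧ w ≤ p ∧ ((j : ℕ) ≠ 0 → 0 < v) ∧ ∀ y ∈ {y | 0 < cdf ω y ∧ cdf ω y < 1},
          (cdf ω y ≤ v → P y = A + B * y) ∧
          (v < cdf ω y → cdf ω y < w → P y = pdfU n j (cdf ω y) + ∫ z, P z ∂ω) ∧
          (w ≤ cdf ω y → cdf ω y ≤ p → P y = κ * (quantile ω p - y)) := by
  have hprω := hω.prob
  obtain ⟨P, hP⟩ := exists_proj (n := n) (j := j) hω j.2 hp
  have hPr : IsProj ω n j p P := hP
  have hk := hPr.1
  have hPL := hPr.2.1
  have hPm := aesm_pen_law hω hk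
  have hV := hPr.var_pos hω h0 hp
  have hfam := neg_pen_family (n := n) (j := j) hω hp hk hPL hV (κ := 1) (c := 0) one_pos
  have hval : bias n j p (Measure.map (fun y => 0 - 1 * P y) ω)
      = -√(variance (fun u => P (quantile ω u)) unif) := by
    rw [hfam.2, hPr.2.2.2, ← var_eq_of_memLp hPL, neg_div, Real.div_sqrt]
  have hlow := convex_lower hω h0 hp hPr
  refine ⟨P, (isSol_iff hω h0 hp).2 hPr, fun P' h => ?_, ?_, ?_, ?_, ?_, ?_⟩
  · exact ((isSol_iff hω h0 hp).1 h).unique hω hp hPr
  · rw [pen_var hω hPm]; exact hV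
  · rw [pen_var hω hPm]
    refine ⟨⟨_, hfam.1, hval⟩, ?_⟩
    rintro _ ⟨ν, hν, rfl⟩
    exact (hlow ν hν).1
  · intro ν hν
    rw [pen_var hω hPm]
    exact (hlow ν hν).2
  · intro hcv
    obtain ⟨c, hc, hPc⟩ := single_hinge hω h0 hj hp hcv
    have hu := hPr.unique hω hp hPc
    refine ⟨?_, c, hc, hu⟩
    rw [pen_var hω hPm]
    have hqI := hω.quantile_mem hp
    have e1 : variance (fun u => P (quantile ω u)) unif = c ^ 2 * vr ω (quantile ω p) := by
      have e2 : variance (fun u => P (quantile ω u)) unif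
          = variance (fun u => c * quantile ω p + (-c) * trunc ω (quantile ω p) u) unif := by
        refine variance_congr ?_
        filter_upwards [ae_unif_mem] with u huI
        rw [hu _ (hω.quantile_mem huI), hinge_eq]
        unfold trunc
        ring
      rw [e2, variance_const_add ((trunc_memLp hω h0 _).const_mul _).1, variance_const_mul,
        (vr_eq hω h0 _).1]
      ring
    have e3 : variance (fun u => P (quantile ω u)) unif
        = c * (quantile ω p - en ω n j (quantile ω p)) := by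
      rw [var_eq_of_memLp hPL, ← hPr.2.2.2]
      have e4 : ∫ u, P (quantile ω u) * pdfU n j u ∂unif
          = ∫ u, (c * quantile ω p * pdfU n j u - c * (trunc ω (quantile ω p) u * pdfU n j u))
            ∂unif := by
        refine integral_congr_ae ?_
        filter_upwards [ae_unif_mem] with u huI
        rw [hu _ (hω.quantile_mem huI), hinge_eq]
        unfold trunc
        ring
      rw [e4, integral_sub ((integrable_dens n j).const_mul _)
        ((integrable_mul_dens (trunc_memLp hω h0 _) n j).const_mul _), integral_const_mul,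
        integral_const_mul, integral_dens_unif j.2]
      unfold en
      ring
    have hvr := vr_pos hω h0 hqI
    have hs := Real.sqrt_pos.2 hvr
    have hss : √(vr ω (quantile ω p)) * √(vr ω (quantile ω p)) = vr ω (quantile ω p) :=
      Real.mul_self_sqrt hvr.le
    rw [e1, Real.sqrt_mul (sq_nonneg _), Real.sqrt_sq hc.le, eq_div_iff hs.ne']
    have e5 : c * (quantile ω p - en ω n j (quantile ω p)) = c * (c * vr ω (quantile ω p)) := by
      rw [← e3, e1]; ring
    have e6 := mul_left_cancel₀ hc.ne' e5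
    linear_combination (-c) * hss + e6
  · intro w0 h1 h2 hcv hcx
    have H : Sh ω n j p P w0 := ⟨⟨hω, hp, hPr, trunc_memLp hω h0 _⟩, j.2, by omega, h1, h2,
      hcv, hcx⟩
    obtain ⟨v, w, A, B, κ, g1, g2, g3, g4, g5⟩ := H.shape
    refine ⟨v, w, A, B, κ, g1, g2, g3, g4, fun y hy => ⟨(g5 y hy).1, fun h3 h4 => ?_,
      (g5 y hy).2.2⟩⟩
    have h5 := (g5 y hy).2.1 h3 h4
    unfold res at h5
    rw [pen_exp hω hPm]
    linarith

end

end Pool.Agent.Lib.MP_c5814c_pr
end

section

namespace Pool.Agent.Lib.MP_c5814c_pr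

open MeasureTheory ProbabilityTheory Set Filter
open scoped ENNReal Topology RealInnerProductSpace

theorem gap_nonneg_of {n j : ℕ} (hj : j + 1 < n) {p u : ℝ} (hg : cdfU n j p ≤ p * pdfU n j p)
    (hu : 0 ≤ u) (hup : u ≤ p) (hp1 : p ≤ 1) : 0 ≤ gap n j u := by
  have hn : (0:ℝ) < n - 1 := by
    have : (1:ℝ) < n := by exact_mod_cast (by omega : 1 < n)
    linarith
  have hjn : (j:ℝ) < n - 1 := by
    have : (j:ℝ) + 1 < n := by exact_mod_cast hj
    linarith
  set a := (j : ℝ) / (n - 1) with ha
  have ha0 : 0 ≤ a := div_nonneg (by positivity) hn.le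
  have ha1 : a ≤ 1 := ((div_lt_one hn).2 hjn).le
  have hja : (n - 1) * a = (j:ℝ) := by rw [ha]; field_simp
  rcases le_total u a with h | h
  · have := (gap_strictMono (n := n) (j := j) (by omega) ha1 hja.le (by omega)).monotoneOn
      ⟨le_rfl, ha0⟩ ⟨hu, h⟩ hu
    rw [gap_zero] at this
    exact this
  · have := (gap_strictAnti (n := n) (j := j) (by omega) ha0 hja.ge (by omega)).antitoneOn
      ⟨h, hup.trans hp1⟩ ⟨h.trans hup, hp1⟩ hup
    have h2 : 0 ≤ gap n j p := by unfold gap; linarith
    exact h2.trans this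

theorem ratio_mono {n j : ℕ} (hj : j + 1 < n) {p : ℝ} (hg : cdfU n j p ≤ p * pdfU n j p)
    (hp1 : p ≤ 1) {u v : ℝ} (hu : 0 < u) (huv : u ≤ v) (hvp : v ≤ p) :
    v * cdfU n j u ≤ u * cdfU n j v := by
  have h : MonotoneOn (fun w => cdfU n j w / w) (Ioc 0 p) := by
    refine monotoneOn_of_deriv_nonneg (convex_Ioc 0 p) ?_ ?_ ?_
    · exact continuous_dist.continuousOn.div continuousOn_id (fun w hw => hw.1.ne')
    · intro w hw
      rw [interior_Ioc] at hw
      exact ((hasDerivAt_dist (by omega) w).fun_div (hasDerivAt_id' w)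
        hw.1.ne').differentiableAt.differentiableWithinAt
    · intro w hw
      rw [interior_Ioc] at hw
      rw [((hasDerivAt_dist (by omega) w).fun_div (hasDerivAt_id' w) hw.1.ne').deriv]
      have := gap_nonneg_of hj hg hw.1.le hw.2.le hp1
      unfold gap at this
      refine div_nonneg ?_ (sq_nonneg _)
      linarith
  have := h ⟨hu, huv.trans hvp⟩ ⟨hu.trans_le huv, hvp⟩ huv
  simp only at this
  rw [div_le_div_iff₀ hu (hu.trans_le huv)] at this
  linarith

section

variable {ω : Measure ℝ} {n : ℕ} {j : Fin n} {p : ℝ}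

/-- the derivative of the hinge integrals -/
theorem hasDerivAt_hinge (hω : Nice ω) {t0 : ℝ} (h0 : MemLp (trunc ω t0) 2 unif) {σ : ℝ → ℝ}
    (hσ : MemLp σ 2 unif) {t : ℝ} (ht : t ∈ {y | 0 < cdf ω y ∧ cdf ω y < 1}) :
    HasDerivAt (fun t => ∫ u, max (t - quantile ω u) 0 * σ u ∂unif)
      (∫ u in (0:ℝ)..(cdf ω t), σ u) t := by
  have hprω := hω.prob
  have hSL : ∀ t, MemLp (fun u => max (t - quantile ω u) 0) 2 unif := by
    intro t
    have : (fun u => max (t - quantile ω u) 0) = fun u => t - trunc ω t u := by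
      funext u; rw [hinge_eq]; rfl
    rw [this]; exact (memLp_const t).sub (trunc_memLp hω h0 t)
  have hσi : Integrable σ unif := hσ.integrable one_le_two
  set F' : ℝ → ℝ := fun u => (Iio (cdf ω t)).indicator σ u with hF'
  have key := hasDerivAt_integral_of_dominated_loc_of_lip (μ := unif) (x₀ := t) (s := univ)
    (F := fun t u => max (t - quantile ω u) 0 * σ u) (F' := F') (bound := fun u => |σ u|)
    univ_mem (Eventually.of_forall fun x => (integrable_mul2 (hSL x) hσ).1)
    (integrable_mul2 (hSL t) hσ) (hσi.1.indicator measurableSet_Iio)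
    (ae_of_all _ fun u => ?_) hσi.abs ?_
  · have h1 := key.2
    have h2 : ∫ u, F' u ∂unif = ∫ u in (0:ℝ)..(cdf ω t), σ u := by
      rw [hF', integral_indicator measurableSet_Iio, intervalIntegral.integral_of_le ht.1.le,
        unif, Measure.restrict_restrict measurableSet_Iio, integral_Ioc_eq_integral_Ioo]
      congr 2
      ext u
      simp only [mem_inter_iff, mem_Iio, mem_Ioo]
      constructor
      · rintro ⟨h3, h4, h5⟩; exact ⟨h4, h3⟩
      · rintro ⟨h3, h4⟩; exact ⟨h4, h3, h4.trans ht.2⟩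
    rwa [h2] at h1
  · refine LipschitzOnWith.of_dist_le_mul fun x _ y _ => ?_
    simp only [Real.dist_eq, Real.coe_nnabs, abs_abs]
    rw [← sub_mul, abs_mul, mul_comm]
    refine mul_le_mul_of_nonneg_left ?_ (abs_nonneg _)
    have h1 := abs_max_sub_max_le_abs (x - quantile ω u) (y - quantile ω u) 0
    have h2 : x - quantile ω u - (y - quantile ω u) = x - y := by ring
    rwa [h2] at h1
  · have hne : ∀ᵐ u ∂unif, u ≠ cdf ω t := by
      refine ae_restrict_of_ae ?_
      have : (volume : Measure ℝ) {cdf ω t} = 0 := by simp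
      exact (measure_eq_zero_iff_ae_notMem.1 this).mono fun u hu h => hu (by simp [h])
    filter_upwards [ae_unif_mem, hne] with u hu hut
    have hq := hω.quantile_cdf ht
    rcases lt_or_gt_of_ne hut with h | h
    · have h1 : quantile ω u < t := by
        rw [← hq]; exact hω.quantile_strictMono hu ⟨ht.1, ht.2⟩ h
      have h2 : HasDerivAt (fun x => (x - quantile ω u) * σ u) (1 * σ u) t :=
        ((hasDerivAt_id' t).sub_const _).mul_const _
      have h3 : F' u = 1 * σ u := by
        rw [hF']; simp only [one_mul]; exact indicator_of_mem (by exact h) _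
      rw [h3]
      refine h2.congr_of_eventuallyEq ?_
      filter_upwards [lt_mem_nhds h1] with x hx
      rw [max_eq_left (by linarith)]
    · have h1 : t < quantile ω u := by
        rw [← hq]; exact hω.quantile_strictMono ⟨ht.1, ht.2⟩ hu h
      have h3 : F' u = 0 := by
        rw [hF']; exact indicator_of_notMem (by simp only [mem_Iio, not_lt]; exact h.le) _
      rw [h3]
      refine (hasDerivAt_const t (0:ℝ)).congr_of_eventuallyEq ?_
      filter_upwards [gt_mem_nhds h1] with x hx
      rw [max_eq_right (by linarith), zero_mul]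

/-- The explicit case without a hypothesis on `ω`: if the mean density over `(0,p)` is at most the
density at `p`, the projection is a single hinge. -/
theorem hinge_of_gap (hω : Nice ω) {t0 : ℝ} (h0 : MemLp (trunc ω t0) 2 unif)
    (hj : (j : ℕ) + 1 < n) (hp : p ∈ Ioo (0:ℝ) 1)
    (hg : cdfU n j p ≤ p * pdfU n j p) :
    ∃ c : ℝ, 0 < c ∧ IsProj ω n j p (fun y => c * max (quantile ω p - y) 0) := by
  have hprω := hω.prob
  set yp := quantile ω p with hyp
  have hypI := hω.quantile_mem hp
  have hX := trunc_memLp hω h0 yp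
  set D : ℝ → ℝ := fun u => max (yp - quantile ω u) 0 with hD
  have hDeq : ∀ u, D u = yp - trunc ω yp u := by
    intro u
    simp only [hD, trunc]
    rcases le_total (quantile ω u) yp with h | h
    · rw [min_eq_left h, max_eq_left (by linarith)]
    · rw [min_eq_right h, max_eq_right (by linarith)]; ring
  have hDL : MemLp D 2 unif :=
    ((memLp_const yp).sub hX).ae_eq (ae_of_all _ fun u => (hDeq u).symm)
  have hD0 : ∀ u, 0 ≤ D u := fun u => le_max_right _ _
  have hDpos : ∀ u ∈ Ioo 0 p, D u = yp - quantile ω u ∧ 0 < yp - quantile ω u := by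
    intro u hu
    have hu' : u ∈ Ioo (0:ℝ) 1 := ⟨hu.1, hu.2.trans hp.2⟩
    have := hω.quantile_strictMono hu' hp hu.2
    have h1 : 0 < yp - quantile ω u := by rw [hyp]; linarith
    exact ⟨max_eq_left h1.le, h1⟩
  set A := ∫ u, D u * pdfU n j u ∂unif with hA
  have hDdi : Integrable (fun u => D u * pdfU n j u) unif := integrable_mul_dens hDL n j
  have hA0 : 0 < A := by
    have h1 : 0 ≤ A := by
      refine integral_nonneg_of_ae ?_
      filter_upwards [dens_nonneg_ae n j] with u hu
      exact mul_nonneg (hD0 u) hu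
    refine lt_of_le_of_ne h1 fun h => ?_
    rw [hA, integral_unif] at h
    have h5 := ae_zero_of zero_le_one
      (fun u hu => mul_nonneg (hD0 u) (dens_nonneg n j hu.1.le hu.2.le))
      (Integrable.interval hDdi le_rfl zero_le_one le_rfl) h.symm
    obtain ⟨u, hu, hu2⟩ := exists_of_ae hp.1 (ae_restrict_of_ae_restrict_of_subset
      (Ioo_subset_Ioo le_rfl hp.2.le) h5)
    have hu' : u ∈ Ioo (0:ℝ) 1 := ⟨hu.1, hu.2.trans hp.2⟩
    rcases mul_eq_zero.1 hu2 with h | h
    · have := hDpos u hu; linarith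
    · exact absurd h (dens_pos j.2 hu').ne'
  have hVX : variance D unif = vr ω yp := by
    have e1 : variance D unif = variance (fun u => yp - trunc ω yp u) unif :=
      variance_congr (ae_of_all _ hDeq)
    rw [e1, variance_const_sub hX.1, (vr_eq hω h0 yp).1]
  have hV0 : 0 < variance D unif := by rw [hVX]; exact vr_pos hω h0 hypI
  set V := variance D unif with hV
  set c := A / V with hc
  have hc0 : 0 < c := div_pos hA0 hV0
  refine ⟨c, hc0, ?_⟩
  set P : ℝ → ℝ := fun y => c * max (yp - y) 0 with hP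
  have hPen : IsPen ω p P := (isPen_hinge hω le_rfl).smul hc0.le
  have hPD : ∀ u, P (quantile ω u) = c * D u := fun u => rfl
  have hPL : MemLp (fun u => P (quantile ω u)) 2 unif := hDL.const_mul c
  set ED := ∫ v, D v ∂unif with hED
  have hEP : ∫ v, P (quantile ω v) ∂unif = c * ED := by
    simp only [hPD]
    rw [integral_const_mul]
  have hDc : MemLp (fun u => D u - ED) 2 unif := hDL.sub (memLp_const _)
  have hVeq : V = ∫ u, D u * (D u - ED) ∂unif := var_eq_of_memLp hDL
  have heq : ∫ u, P (quantile ω u) * pdfU n j u ∂unif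
      = ∫ u, P (quantile ω u) * (P (quantile ω u) - ∫ v, P (quantile ω v) ∂unif) ∂unif := by
    rw [hEP]
    simp only [hPD]
    have e1 : ∀ u, c * D u * pdfU n j u = c * (D u * pdfU n j u) := fun u => by ring
    have e2 : ∀ u, c * D u * (c * D u - c * ED) = c ^ 2 * (D u * (D u - ED)) := fun u => by ring
    simp only [e1, e2]
    rw [integral_const_mul, integral_const_mul, ← hVeq, ← hA, hc]
    field_simp
  -- the weight
  set σ : ℝ → ℝ := fun u => pdfU n j u - (P (quantile ω u) - c * ED) with hσ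
  have hPc : MemLp (fun u => P (quantile ω u) - c * ED) 2 unif := hPL.sub (memLp_const _)
  have hσL : MemLp σ 2 unif := (memLp_dens n j).sub hPc
  have hσi : Integrable σ unif := hσL.integrable one_le_two
  have hDi : Integrable D unif := hDL.integrable one_le_two
  have hDσ : ∫ u, D u * σ u ∂unif = 0 := by
    have e2 : ∀ u, D u * σ u = D u * pdfU n j u - c * (D u * (D u - ED)) := fun u => by
      simp only [hσ, hPD]; ring
    simp only [e2]
    rw [integral_sub hDdi ((integrable_mul2 hDL hDc).const_mul c), integral_const_mul,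
      ← hVeq, ← hA, hc]
    field_simp
    ring
  -- its primitive
  have hH : ∀ w, 0 ≤ w → w ≤ 1 → ∫ u in (0:ℝ)..w, σ u
      = cdfU n j w - c * (∫ u in (0:ℝ)..w, D u) + c * ED * w := by
    intro w hw0 hw1
    have e1 : ∀ u, σ u = (pdfU n j u - c * D u) + c * ED := fun u => by
      simp only [hσ, hPD]; ring
    simp only [e1]
    have i1 : IntervalIntegrable (pdfU n j) volume 0 w :=
      (continuous_dens n j).intervalIntegrable _ _
    have i2 : IntervalIntegrable (fun u => c * D u) volume 0 w :=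
      (Integrable.interval hDi le_rfl hw0 hw1).const_mul c
    rw [intervalIntegral.integral_add (i1.sub i2) (interval_const _ _ _),
      intervalIntegral.integral_sub i1 i2, intervalIntegral.integral_const_mul,
      intervalIntegral.integral_const,
      intervalIntegral.integral_eq_sub_of_hasDerivAt (fun u _ => hasDerivAt_dist j.2 u) i1,
      dist_zero]
    simp only [smul_eq_mul]
    ring
  have hDanti : ∀ u v : ℝ, u ∈ Ioo (0:ℝ) 1 → v ∈ Ioo (0:ℝ) 1 → u ≤ v → D v ≤ D u := by
    intro u v hu hv huv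
    have := quantile_mono ω hu hv huv
    exact max_le_max (by linarith) le_rfl
  have hpat : ∀ w1 w2 : ℝ, 0 < w1 → w1 ≤ w2 → w2 ≤ p →
      w2 * (∫ u in (0:ℝ)..w1, σ u) ≤ w1 * (∫ u in (0:ℝ)..w2, σ u) := by
    intro w1 w2 h1 h12 h2
    have h21 : w2 < 1 := h2.trans_lt hp.2
    rw [hH w1 h1.le (by linarith), hH w2 (by linarith) h21.le]
    have g1 := ratio_mono hj hg hp.2.le h1 h12 h2
    have hw1I : w1 ∈ Ioo (0:ℝ) 1 := ⟨h1, by linarith⟩
    have g2 : w1 * D w1 ≤ ∫ u in (0:ℝ)..w1, D u := by
      have : ∫ u in (0:ℝ)..w1, D w1 ≤ ∫ u in (0:ℝ)..w1, D u :=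
        integral_mono_Ioo h1.le (interval_const _ _ _)
          (Integrable.interval hDi le_rfl h1.le (by linarith)) fun u hu =>
          hDanti u w1 ⟨hu.1, by linarith [hu.2]⟩ hw1I hu.2.le
      rw [intervalIntegral.integral_const] at this
      simpa using this
    have g3 : ∫ u in w1..w2, D u ≤ (w2 - w1) * D w1 := by
      have : ∫ u in w1..w2, D u ≤ ∫ u in w1..w2, D w1 :=
        integral_mono_Ioo h12 (Integrable.interval hDi h1.le h12 h21.le)
          (interval_const _ _ _) fun u hu =>
          hDanti w1 u hw1I ⟨by linarith [hu.1], by linarith [hu.2]⟩ hu.1.le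
      rw [intervalIntegral.integral_const] at this
      simpa using this
    have g4 : ∫ u in (0:ℝ)..w2, D u = (∫ u in (0:ℝ)..w1, D u) + ∫ u in w1..w2, D u :=
      (intervalIntegral.integral_add_adjacent_intervals
        (Integrable.interval hDi le_rfl h1.le (by linarith))
        (Integrable.interval hDi h1.le h12 h21.le)).symm
    rw [g4]
    set I1 := ∫ u in (0:ℝ)..w1, D u
    set I2 := ∫ u in w1..w2, D u
    have g5 : w1 * (I1 + I2) ≤ w2 * I1 := by nlinarith
    nlinarith [mul_le_mul_of_nonneg_left g5 hc0.le]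
  -- the hinge integrals
  set S : ℝ → ℝ := fun t => ∫ u, max (t - quantile ω u) 0 * σ u ∂unif with hS
  have hSyp : S yp = 0 := hDσ
  have hder : ∀ t ∈ {y | 0 < cdf ω y ∧ cdf ω y < 1},
      HasDerivAt S (∫ u in (0:ℝ)..(cdf ω t), σ u) t := fun t ht => hasDerivAt_hinge hω h0 hσL ht
  have hbound : ∀ w, 0 < w → w ≤ p → S (quantile ω w) ≤ ∫ u in (0:ℝ)..w, D u * |σ u| := by
    intro w hw0 hwp
    have hwI : w ∈ Ioo (0:ℝ) 1 := ⟨hw0, hwp.trans_lt hp.2⟩
    have hDi2 : Integrable (fun u => D u * |σ u|) unif := integrable_mul2 hDL hσL.abs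
    have e1 : ∫ u in (0:ℝ)..w, D u * |σ u|
        = ∫ u, (Iio w).indicator (fun u => D u * |σ u|) u ∂unif := by
      rw [integral_indicator measurableSet_Iio, intervalIntegral.integral_of_le hw0.le,
        unif, Measure.restrict_restrict measurableSet_Iio, integral_Ioc_eq_integral_Ioo]
      congr 2
      ext u
      simp only [mem_inter_iff, mem_Iio, mem_Ioo]
      constructor
      · rintro ⟨h3, h4⟩; exact ⟨h4, h3, h4.trans hwI.2⟩
      · rintro ⟨h3, h4, h5⟩; exact ⟨h4, h3⟩
    rw [e1]
    have hSL : MemLp (fun u => max (quantile ω w - quantile ω u) 0) 2 unif := by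
      have : (fun u => max (quantile ω w - quantile ω u) 0)
          = fun u => quantile ω w - trunc ω (quantile ω w) u := by
        funext u; rw [hinge_eq]; rfl
      rw [this]; exact (memLp_const _).sub (trunc_memLp hω h0 _)
    refine integral_mono_ae (integrable_mul2 hSL hσL) (hDi2.indicator measurableSet_Iio) ?_
    filter_upwards [ae_unif_mem] with u hu
    by_cases huw : u < w
    · rw [indicator_of_mem (by exact huw)]
      have h1 : quantile ω w ≤ yp := quantile_mono ω hwI hp hwp
      have h2 : max (quantile ω w - quantile ω u) 0 ≤ D u := max_le_max (by linarith) le_rfl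
      have h3 : 0 ≤ max (quantile ω w - quantile ω u) 0 := le_max_right _ _
      calc max (quantile ω w - quantile ω u) 0 * σ u
          ≤ max (quantile ω w - quantile ω u) 0 * |σ u| :=
            mul_le_mul_of_nonneg_left (le_abs_self _) h3
        _ ≤ D u * |σ u| := mul_le_mul_of_nonneg_right h2 (abs_nonneg _)
    · rw [indicator_of_notMem (by simpa using huw)]
      have h1 : quantile ω w ≤ quantile ω u := quantile_mono ω hwI hu (not_lt.1 huw)
      rw [max_eq_right (by linarith), zero_mul]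
  have hlim : ∀ ε > 0, ∀ w1 ∈ Ioo (0:ℝ) 1, ∃ w ∈ Ioo (0:ℝ) w1, ∫ u in (0:ℝ)..w, D u * |σ u| < ε := by
    intro ε hε w1 hw1
    have hDi2 : Integrable (fun u => D u * |σ u|) unif := integrable_mul2 hDL hσL.abs
    have h1 : IntegrableOn (fun u => D u * |σ u|) (uIcc (0:ℝ) 1) volume := by
      rw [uIcc_of_le zero_le_one, integrableOn_Icc_iff_integrableOn_Ioo]
      exact hDi2
    have h2 := intervalIntegral.continuousOn_primitive_interval h1
    have h3 := h2 0 (by simp)
    have h4 : ∀ᶠ x in 𝓝[uIcc (0:ℝ) 1] 0, ∫ u in (0:ℝ)..x, D u * |σ u| < ε := by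
      have h5 : Tendsto (fun x => ∫ u in (0:ℝ)..x, D u * |σ u|) (𝓝[uIcc (0:ℝ) 1] 0) (𝓝 0) := by
        have := h3.tendsto
        simpa using this
      exact h5.eventually (gt_mem_nhds hε)
    rw [eventually_nhdsWithin_iff] at h4
    obtain ⟨δ, hδ, hδ2⟩ := Metric.eventually_nhds_iff.1 h4
    refine ⟨min (δ / 2) (w1 / 2), ⟨lt_min (by linarith) (by linarith [hw1.1]), ?_⟩, ?_⟩
    · exact (min_le_right _ _).trans_lt (by linarith [hw1.1])
    · have hpos : 0 < min (δ / 2) (w1 / 2) := lt_min (by linarith) (by linarith [hw1.1])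
      refine hδ2 ?_ ?_
      · rw [Real.dist_eq, sub_zero, abs_of_pos hpos]
        exact (min_le_left _ _).trans_lt (by linarith)
      · rw [uIcc_of_le zero_le_one]
        exact ⟨hpos.le, (min_le_right _ _).trans (by linarith [hw1.2])⟩
  refine proj_of_hinge hω h0 hp hPen hPL (fun t ht htp => ?_) heq
  have key : S t ≤ 0 := by
    by_contra hcon
    push Not at hcon
    have htlt : t < yp := by
      rcases lt_or_eq_of_le htp with h | h
      · exact h
      · rw [h, hSyp] at hcon; exact absurd hcon (lt_irrefl _)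
    have hIcc : ∀ x y : ℝ, x ∈ {y | 0 < cdf ω y ∧ cdf ω y < 1} →
        y ∈ {y | 0 < cdf ω y ∧ cdf ω y < 1} → ∀ z ∈ Icc x y,
        z ∈ {y | 0 < cdf ω y ∧ cdf ω y < 1} := fun x y hx hy z hz => Icc_sub hx hy z hz
    obtain ⟨t2, ht2, hs2⟩ := exists_hasDerivAt_eq_slope S (fun x => ∫ u in (0:ℝ)..(cdf ω x), σ u)
      htlt (fun x hx => (hder x (hIcc t yp ht hypI x hx)).continuousAt.continuousWithinAt)
      (fun x hx => hder x (hIcc t yp ht hypI x ⟨hx.1.le, hx.2.le⟩))
    have ht2I := hIcc t yp ht hypI t2 ⟨ht2.1.le, ht2.2.le⟩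
    have hneg : ∫ u in (0:ℝ)..(cdf ω t2), σ u < 0 := by
      rw [hs2, hSyp, zero_sub]
      exact div_neg_of_neg_of_pos (by linarith) (by linarith)
    have hWt2 : cdf ω t2 ≤ p := by
      have := monotone_cdf ω ht2.2.le
      rwa [hω.cdf_quantile hp] at this
    obtain ⟨w, hw, hwS⟩ := hlim (S t) hcon (cdf ω t) ⟨ht.1, ht.2⟩
    have hwI : w ∈ Ioo (0:ℝ) 1 := ⟨hw.1, hw.2.trans ht.2⟩
    have hwp : w ≤ p := by
      have := monotone_cdf ω htp
      rw [hω.cdf_quantile hp] at this
      linarith [hw.2]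
    have hqI := hω.quantile_mem hwI
    have hqt : quantile ω w < t := by
      have := hω.quantile_strictMono hwI ⟨ht.1, ht.2⟩ hw.2
      rwa [hω.quantile_cdf ht] at this
    have hb := hbound w hw.1 hwp
    obtain ⟨t3, ht3, hs3⟩ := exists_hasDerivAt_eq_slope S (fun x => ∫ u in (0:ℝ)..(cdf ω x), σ u)
      hqt (fun x hx => (hder x (hIcc _ t hqI ht x hx)).continuousAt.continuousWithinAt)
      (fun x hx => hder x (hIcc _ t hqI ht x ⟨hx.1.le, hx.2.le⟩))
    have ht3I := hIcc _ t hqI ht t3 ⟨ht3.1.le, ht3.2.le⟩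
    have hpos : 0 < ∫ u in (0:ℝ)..(cdf ω t3), σ u := by
      rw [hs3]
      exact div_pos (by linarith) (by linarith)
    have h5 := hpat (cdf ω t3) (cdf ω t2) ht3I.1 (monotone_cdf ω (by linarith [ht3.2, ht2.1])) hWt2
    have h6 := mul_pos ht2I.1 hpos
    have h7 := mul_neg_of_pos_of_neg ht3I.1 hneg
    linarith
  have e1 : S t = (∫ u, (t - trunc ω t u) * pdfU n j u ∂unif)
      - ∫ u, (t - trunc ω t u) * (P (quantile ω u) - c * ED) ∂unif := by
    have hL : MemLp (fun u => t - trunc ω t u) 2 unif :=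
      (memLp_const t).sub (trunc_memLp hω h0 t)
    rw [← integral_sub (integrable_mul_dens hL n j) (integrable_mul2 hL hPc)]
    refine integral_congr_ae (ae_of_all _ fun u => ?_)
    have : max (t - quantile ω u) 0 = t - trunc ω t u := by rw [hinge_eq]; rfl
    simp only [this, hσ]
    ring
  rw [hEP]
  linarith

theorem hinge_value (hω : Nice ω) {t0 : ℝ} (h0 : MemLp (trunc ω t0) 2 unif)
    (hp : p ∈ Ioo (0:ℝ) 1) {P : ℝ → ℝ} (hPr : IsProj ω n j p P) {c : ℝ} (hc : 0 < c)
    (hPc : IsProj ω n j p (fun y => c * max (quantile ω p - y) 0)) :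
    -√Var[P; ω] = (en ω n j (quantile ω p) - quantile ω p) / √(vr ω (quantile ω p)) ∧
      ∀ y ∈ {y | 0 < cdf ω y ∧ cdf ω y < 1}, P y = c * max (quantile ω p - y) 0 := by
  have hprω := hω.prob
  have hk := hPr.1
  have hPL := hPr.2.1
  have hPm := aesm_pen_law hω hk
  have hu := hPr.unique hω hp hPc
  refine ⟨?_, hu⟩
  rw [pen_var hω hPm]
  have hqI := hω.quantile_mem hp
  have e1 : variance (fun u => P (quantile ω u)) unif = c ^ 2 * vr ω (quantile ω p) := by
    have e2 : variance (fun u => P (quantile ω u)) unif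
        = variance (fun u => c * quantile ω p + (-c) * trunc ω (quantile ω p) u) unif := by
      refine variance_congr ?_
      filter_upwards [ae_unif_mem] with u huI
      rw [hu _ (hω.quantile_mem huI), hinge_eq]
      unfold trunc
      ring
    rw [e2, variance_const_add ((trunc_memLp hω h0 _).const_mul _).1, variance_const_mul,
      (vr_eq hω h0 _).1]
    ring
  have e3 : variance (fun u => P (quantile ω u)) unif
      = c * (quantile ω p - en ω n j (quantile ω p)) := by
    rw [var_eq_of_memLp hPL, ← hPr.2.2.2]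
    have e4 : ∫ u, P (quantile ω u) * pdfU n j u ∂unif
        = ∫ u, (c * quantile ω p * pdfU n j u - c * (trunc ω (quantile ω p) u * pdfU n j u))
          ∂unif := by
      refine integral_congr_ae ?_
      filter_upwards [ae_unif_mem] with u huI
      rw [hu _ (hω.quantile_mem huI), hinge_eq]
      unfold trunc
      ring
    rw [e4, integral_sub ((integrable_dens n j).const_mul _)
      ((integrable_mul_dens (trunc_memLp hω h0 _) n j).const_mul _), integral_const_mul,
      integral_const_mul, integral_dens_unif j.2]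
    unfold en
    ring
  have hvr := vr_pos hω h0 hqI
  have hs := Real.sqrt_pos.2 hvr
  have hss : √(vr ω (quantile ω p)) * √(vr ω (quantile ω p)) = vr ω (quantile ω p) :=
    Real.mul_self_sqrt hvr.le
  rw [e1, Real.sqrt_mul (sq_nonneg _), Real.sqrt_sq hc.le, eq_div_iff hs.ne']
  have e5 : c * (quantile ω p - en ω n j (quantile ω p)) = c * (c * vr ω (quantile ω p)) := by
    rw [← e3, e1]; ring
  have e6 := mul_left_cancel₀ hc.ne' e5
  linear_combination (-c) * hss + e6

end

end Pool.Agent.Lib.MP_c5814c_pr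
end
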