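import Pool.Agent.Lib.MP_c5814c_pr.Ref

section

/-!
Laws, biases and the order families.
-/

set_option autoImplicit false

namespace Pool.Agent.Lib.QBias

open MeasureTheory ProbabilityTheory Set Filter Topology

noncomputable section

lemma var2_eq (μ : Measure ℝ) [IsProbabilityMeasure μ] : var2 μ = varU (qf (cdf μ)) := by
  unfold var2 varU
  have h1 : ∫ y, y ∂μ = ∫ u in Ioo (0:ℝ) 1, qf (cdf μ) u :=
    integral_eq_uni μ (g := fun y => y) measurable_id
  rw [h1]
  exact integral_eq_uni μ (g := fun x => (x - ∫ u in Ioo (0:ℝ) 1, qf (cdf μ) u) ^ 2)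
    ((measurable_id.sub_const _).pow_const 2)

lemma bias_eq {μ : Measure ℝ} (hμ : IsProbabilityMeasure μ) {n j : ℕ} {p : ℝ} (P : Par n j p) :
    bias n j p μ = ((∫ u in Ioo (0:ℝ) 1, qf (cdf μ) u * fos n j u) - qf (cdf μ) p) /
      Real.sqrt (varU (qf (cdf μ))) := by
  unfold bias
  rw [meanOS_eq μ P.hj P.hjn, var2_eq]

lemma int_congr_uni {g h : ℝ → ℝ} (hgh : ∀ u ∈ Ioo (0:ℝ) 1, g u = h u) :
    ∫ u in Ioo (0:ℝ) 1, g u = ∫ u in Ioo (0:ℝ) 1, h u :=
  int_Ioo_congr hgh

lemma varU_congr {g h : ℝ → ℝ} (hgh : ∀ u ∈ Ioo (0:ℝ) 1, g u = h u) : varU g = varU h := by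
  unfold varU
  rw [int_congr_uni hgh]
  exact int_congr_uni fun u hu => by rw [hgh u hu]

/-- Bias of a law given by its quantile function. -/
lemma bias_lawOf {Q : ℝ → ℝ} (hQ : MonotoneOn Q (Ioo 0 1)) (hlc : LeftCont Q) {n j : ℕ} {p : ℝ}
    (P : Par n j p) : bias n j p (lawOf Q) =
      ((∫ u in Ioo (0:ℝ) 1, Q u * fos n j u) - Q p) / Real.sqrt (varU Q) := by
  rw [bias_eq (isProbabilityMeasure_lawOf hQ) P]
  have h : ∀ u ∈ Ioo (0:ℝ) 1, qf (cdf (lawOf Q)) u = Q u := fun u hu => qf_lawOf hQ hlc hu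
  rw [varU_congr h, h p ⟨P.hp0, P.hp1⟩, int_congr_uni (fun u hu => by rw [h u hu])]

lemma adm_lawOf {Q : ℝ → ℝ} (hQ : MonotoneOn Q (Ioo 0 1)) (hlc : LeftCont Q) (h2 : MemLp Q 2 uni)
    (hv : 0 < varU Q) : Adm (lawOf Q) := by
  have := isProbabilityMeasure_lawOf hQ
  refine ⟨this, ?_, ?_⟩
  · rw [memLp_qf_iff]
    have : ∀ᵐ u ∂uni, qf (cdf (lawOf Q)) u = Q u :=
      (ae_restrict_iff' measurableSet_Ioo).2 (Eventually.of_forall fun u hu => qf_lawOf hQ hlc hu)
    exact (memLp_congr_ae this).2 h2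
  · rw [var2_eq, varU_congr (fun u hu => qf_lawOf hQ hlc hu)]
    exact hv

lemma leftCont_of_continuousOn {Q : ℝ → ℝ} (h : ContinuousOn Q (Ioo 0 1)) : LeftCont Q := by
  intro u hu x hx
  have h1 : Tendsto Q (𝓝[<] u) (𝓝 (Q u)) :=
    (h.continuousAt (Ioo_mem_nhds hu.1 hu.2)).tendsto.mono_left nhdsWithin_le_nhds
  refine le_of_tendsto h1 ?_
  filter_upwards [Ioo_mem_nhdsLT hu.1] with v hv
  exact hx v hv

lemma Q_cdf_lawOf {Q : ℝ → ℝ} (hQ : MonotoneOn Q (Ioo 0 1)) (hc : ContinuousOn Q (Ioo 0 1)) {x : ℝ}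
    (hx : cdf (lawOf Q) x ∈ Ioo (0:ℝ) 1) : Q (cdf (lawOf Q) x) = x := by
  have hlc := leftCont_of_continuousOn hc
  set u := cdf (lawOf Q) x with hu
  have h1 : Q u ≤ x := (le_cdf_lawOf_iff hQ hlc hx x).1 le_rfl
  refine le_antisymm h1 ?_
  have h2 : Tendsto Q (𝓝[>] u) (𝓝 (Q u)) :=
    (hc.continuousAt (Ioo_mem_nhds hx.1 hx.2)).tendsto.mono_left nhdsWithin_le_nhds
  refine ge_of_tendsto h2 ?_
  filter_upwards [Ioo_mem_nhdsGT hx.2] with v hv
  by_contra hcon
  push Not at hcon
  have := (le_cdf_lawOf_iff hQ hlc ⟨hx.1.trans hv.1, hv.2⟩ x).2 hcon.le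
  linarith [hv.1]

lemma pos_cdf_iff {Q : ℝ → ℝ} (hQ : MonotoneOn Q (Ioo 0 1)) (hlc : LeftCont Q) (x : ℝ) :
    0 < cdf (lawOf Q) x ↔ ∃ u ∈ Ioo (0:ℝ) 1, Q u ≤ x := by
  have := isProbabilityMeasure_lawOf hQ
  constructor
  · intro h
    obtain ⟨u, hu1, hu2⟩ := exists_between (lt_min h one_pos)
    have hu : u ∈ Ioo (0:ℝ) 1 := ⟨hu1, lt_of_lt_of_le hu2 (min_le_right _ _)⟩
    exact ⟨u, hu, (le_cdf_lawOf_iff hQ hlc hu x).1 (hu2.le.trans (min_le_left _ _))⟩
  · rintro ⟨u, hu, h⟩
    exact lt_of_lt_of_le hu.1 ((le_cdf_lawOf_iff hQ hlc hu x).2 h)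

/-- A continuous strictly increasing quantile function gives a continuous distribution function,
strictly increasing on its support interval. -/
lemma isRef_lawOf {Q : ℝ → ℝ} (hQ : StrictMonoOn Q (Ioo 0 1)) (hc : ContinuousOn Q (Ioo 0 1)) :
    IsRef (cdf (lawOf Q)) := by
  have hQm := hQ.monotoneOn
  have := isProbabilityMeasure_lawOf hQm
  have hF := isDF_cdf (lawOf Q)
  have hlc := leftCont_of_continuousOn hc
  refine ⟨?_, hF.mono, hF.bot, hF.top, ?_⟩
  · rw [continuous_iff_continuousAt]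
    intro x
    rw [continuousAt_iff_continuous_left'_right']
    refine ⟨?_, (hF.rc x).mono Ioi_subset_Ici_self⟩
    rw [hF.mono.continuousWithinAt_Iio_iff_leftLim_eq]
    refine le_antisymm (hF.mono.leftLim_le le_rfl) ?_
    by_contra hcon
    push Not at hcon
    obtain ⟨u, hu1, hu2⟩ := exists_between hcon
    obtain ⟨v, hv1, hv2⟩ := exists_between hu2
    have hl0 : 0 ≤ Function.leftLim (cdf (lawOf Q)) x := by
      refine le_trans (hF.nonneg (x - 1)) (hF.mono.le_leftLim (by linarith))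
    have hx1 := hF.le_one x
    have hum : u ∈ Ioo (0:ℝ) 1 := ⟨lt_of_le_of_lt hl0 hu1, by linarith⟩
    have hvm : v ∈ Ioo (0:ℝ) 1 := ⟨hum.1.trans hv1, by linarith⟩
    have h1 : Q v ≤ x := (le_cdf_lawOf_iff hQm hlc hvm x).1 hv2.le
    have h2 : x ≤ Q u := by
      refine le_of_forall_lt fun y hy => ?_
      by_contra h3
      push Not at h3
      have h4 := (le_cdf_lawOf_iff hQm hlc hum y).2 h3
      have h5 : cdf (lawOf Q) y ≤ Function.leftLim (cdf (lawOf Q)) x := hF.mono.le_leftLim hy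
      linarith
    have h3 := hQ hum hvm hv1
    linarith
  · intro x hx y hy hxy
    refine lt_of_le_of_ne (hF.mono hxy.le) fun h => ?_
    have h1 := Q_cdf_lawOf hQm hc hx
    rw [h, Q_cdf_lawOf hQm hc hy] at h1
    linarith

/-- The convex order makes `F^{-1} ∘ W` concave on the support interval of `W`. -/
lemma concave_of_ConvLE {F W : ℝ → ℝ} (hF : IsDF F) (hW : IsRef W) (h : ConvLE F W) :
    ConcaveOn ℝ (SW W) (fun y => qf F (W y)) := by
  refine ⟨convex_SW hW, ?_⟩
  -- auxiliary: strict hypograph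
  have hmono : MonotoneOn (fun y => qf F (W y)) (SW W) := fun x hx y hy hxy =>
    monotoneOn_qf hF (W_mem hx) (W_mem hy) (hW.mono hxy)
  have key : ∀ y0 ∈ SW W, ∀ y1 ∈ SW W, y0 < y1 → ∀ a b : ℝ, 0 < a → 0 < b → a + b = 1 →
      a * qf F (W y0) + b * qf F (W y1) ≤ qf F (W (a * y0 + b * y1)) := by
    intro y0 h0 y1 h1 h01 a b ha hb hab
    set yt := a * y0 + b * y1 with hyt
    have ha' : a = 1 - b := by linarith
    have hy0t : y0 ≤ yt := by rw [hyt, ha']; nlinarith
    have hyt1 : yt ≤ y1 := by rw [hyt, ha']; nlinarith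
    have hytS : yt ∈ SW W := (ordConnected_SW hW).out h0 h1 ⟨hy0t, hyt1⟩
    set q0 := qf F (W y0) with hq0
    set q1 := qf F (W y1) with hq1
    have hq01 : q0 ≤ q1 := hmono h0 h1 h01.le
    -- approximate from below
    refine le_of_forall_pos_le_add fun ε hε => ?_
    by_contra hcon
    push Not at hcon
    -- x0 < q0, x1 < q1
    set x0 := q0 - ε with hx0
    set x1 := q1 - ε with hx1
    have hx0F : F x0 < W y0 := by
      by_contra hc; push Not at hc
      have := (qf_le_iff hF (W_mem h0) x0).2 hc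
      linarith
    have hx1F : F x1 < W y1 := by
      by_contra hc; push Not at hc
      have := (qf_le_iff hF (W_mem h1) x1).2 hc
      linarith
    set xt := a * x0 + b * x1 with hxt
    have hxtq : qf F (W yt) < xt := by
      have : xt = a * q0 + b * q1 - ε := by
        rw [hxt, hx0, hx1]
        have : a * (q0 - ε) + b * (q1 - ε) = a * q0 + b * q1 - (a + b) * ε := by ring
        rw [this, hab]; ring
      rw [this]; linarith
    have hFxt : W yt ≤ F xt := (qf_le_iff hF (W_mem hytS) xt).1 hxtq.le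
    -- xt > x0, since F x0 < W y0 ≤ W yt ≤ F xt
    have hx0t : x0 < xt := by
      by_contra hc; push Not at hc
      have := hF.mono hc
      have h5 := hW.mono hy0t
      linarith
    have hx01 : x0 < x1 := by
      by_contra hc; push Not at hc
      have : xt ≤ x0 := by rw [hxt, ha']; nlinarith
      linarith
    have hxt1 : xt < x1 := by rw [hxt, ha']; nlinarith
    -- points of {0 < F < 1}
    have hFx1lt : F x1 < 1 := hx1F.trans (W_mem h1).2
    have hFt0 : 0 < F xt := lt_of_lt_of_le (W_mem hytS).1 hFxt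
    -- choose x0' in (x0, xt) with 0 < F x0' < W y0
    have hlt : ∃ x0', x0 ≤ x0' ∧ x0' < xt ∧ 0 < F x0' ∧ F x0' < W y0 := by
      rcases lt_or_ge 0 (F x0) with h5 | h5
      · exact ⟨x0, le_rfl, hx0t, h5, hx0F⟩
      · have h6 : F x0 = 0 := le_antisymm h5 (hF.nonneg x0)
        -- infimum of {F > 0}
        set e := sInf {x | 0 < F x} with he
        have hbdd : BddBelow {x | 0 < F x} := ⟨x0, fun x hx => by
          by_contra hc; push Not at hc
          have := hF.mono hc.le
          have h7 : 0 < F x := hx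
          linarith⟩
        have hne : {x | 0 < F x}.Nonempty := ⟨xt, hFt0⟩
        have hFe : F e = 0 := by
          by_contra hc
          have h7 : 0 < F e := lt_of_le_of_ne (hF.nonneg e) (Ne.symm hc)
          obtain ⟨y, hy1, hy2⟩ := h.left e h7
          exact absurd (csInf_le hbdd hy2) (not_le.2 hy1)
        have hx0e : x0 ≤ e := le_csInf hne fun x hx => by
          by_contra hc; push Not at hc
          have := hF.mono hc.le
          have h7 : 0 < F x := hx
          linarith
        have het : e < xt := by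
          refine lt_of_le_of_ne (csInf_le hbdd hFt0) fun h8 => ?_
          rw [h8] at hFe; linarith
        -- right continuity at e
        have h8 : Tendsto F (𝓝[>] e) (𝓝 0) := by
          have := (hF.rc e).tendsto.mono_left (nhdsWithin_mono _ Ioi_subset_Ici_self)
          rwa [hFe] at this
        have h9 : ∀ᶠ x in 𝓝[>] e, F x < W y0 := h8.eventually (gt_mem_nhds (W_mem h0).1)
        obtain ⟨x, hxa, hxb⟩ := (h9.and (Ioo_mem_nhdsGT het)).exists
        refine ⟨x, hx0e.trans hxb.1.le, hxb.2, ?_, hxa⟩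
        obtain ⟨z, hz1, hz2⟩ := exists_lt_of_csInf_lt hne hxb.1
        exact lt_of_lt_of_le hz1 (hF.mono hz2.le)
    obtain ⟨x0', hb1, hb2, hb3, hb4⟩ := hlt
    have hx0'1 : x0' < x1 := hb2.trans hxt1
    have hFx1pos : 0 < F x1 := lt_of_lt_of_le hb3 (hF.mono hx0'1.le)
    -- convexity
    set θ := (xt - x0') / (x1 - x0') with hθ
    have hden : 0 < x1 - x0' := by linarith
    have hθ0 : 0 < θ := div_pos (by linarith) hden
    have hθ1 : θ < 1 := by rw [hθ, div_lt_one hden]; linarith
    have hθb : θ ≤ b := by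
      rw [hθ, div_le_iff₀ hden]
      have e1 : xt = a * x0 + b * x1 := hxt
      have e2 : a = 1 - b := by linarith
      rw [e1, e2]
      nlinarith
    have hm0 : x0' ∈ {x | 0 < F x ∧ F x < 1} :=
      ⟨hb3, hb4.trans (W_mem h0).2⟩
    have hm1 : x1 ∈ {x | 0 < F x ∧ F x < 1} := ⟨hFx1pos, hFx1lt⟩
    have hcv := h.conv.2 hm0 hm1 (sub_nonneg.2 hθ1.le) hθ0.le (by ring)
    simp only [smul_eq_mul] at hcv
    have exθ : (1 - θ) * x0' + θ * x1 = xt := by
      have : (1 - θ) * x0' + θ * x1 = x0' + θ * (x1 - x0') := by ring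
      rw [this, hθ, div_mul_cancel₀ _ hden.ne']; ring
    rw [exθ] at hcv
    -- values of qf W ∘ F
    have hFxt1 : F xt < 1 := lt_of_le_of_lt (hF.mono hxt1.le) hFx1lt
    have g0 : qf W (F x0') < y0 := (qf_lt_iff hW hm0 h0).2 hb4
    have g1 : qf W (F x1) < y1 := (qf_lt_iff hW hm1 h1).2 hx1F
    have gt : yt ≤ qf W (F xt) := by
      by_contra hc; push Not at hc
      have := (qf_lt_iff hW ⟨hFt0, hFxt1⟩ hytS).1 hc
      linarith
    have e3 : (1 - θ) * qf W (F x0') + θ * qf W (F x1) < (1 - θ) * y0 + θ * y1 := by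
      have h5 := mul_lt_mul_of_pos_left g0 (sub_pos.2 hθ1)
      have h6 := mul_lt_mul_of_pos_left g1 hθ0
      linarith
    have e4 : (1 - θ) * y0 + θ * y1 ≤ yt := by
      rw [hyt]
      have e2 : a = 1 - b := by linarith
      rw [e2]; nlinarith
    linarith
  intro x hx y hy a b ha hb hab
  simp only [smul_eq_mul]
  rcases eq_or_lt_of_le ha with h1 | h1
  · rw [← h1] at hab ⊢
    have : b = 1 := by linarith
    rw [this]; simp
  rcases eq_or_lt_of_le hb with h2 | h2
  · rw [← h2] at hab ⊢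
    have : a = 1 := by linarith
    rw [this]; simp
  rcases lt_trichotomy x y with h3 | h3 | h3
  · exact key x hx y hy h3 a b h1 h2 hab
  · subst h3
    have e1 : a * x + b * x = x := by rw [← add_mul, hab, one_mul]
    rw [e1, ← add_mul, hab, one_mul]
  · have := key y hy x hx h3 b a h2 h1 (by linarith)
    rw [add_comm (a * x), add_comm (a * _)]
    exact this

end

end Pool.Agent.Lib.QBias
end

section

/-!
Approximation of arbitrary bounded quantile profiles inside the star order family.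
-/

set_option autoImplicit false

namespace Pool.Agent.Lib.QBias

open MeasureTheory ProbabilityTheory Set Filter Topology

noncomputable section

variable {W : ℝ → ℝ}

lemma lend_lt (hW : IsRef W) (hb : BddBelow {y | 0 < W y}) {y : ℝ} (hy : y ∈ SW W) : lend W < y := by
  refine lt_of_le_of_ne (csInf_le hb hy.1) fun h => ?_
  obtain ⟨ε, hε, hball⟩ := Metric.isOpen_iff.1 (isOpen_SW hW) y hy
  have h1 : y - ε / 2 ∈ SW W := hball (by
    rw [Metric.mem_ball, Real.dist_eq, abs_lt]; constructor <;> linarith)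
  have := csInf_le hb h1.1
  unfold lend at h
  linarith

lemma W_lend (hW : IsRef W) (hb : BddBelow {y | 0 < W y}) : W (lend W) = 0 := by
  refine le_antisymm ?_ (hW.isDF.nonneg _)
  by_contra hcon
  push Not at hcon
  have h1 : ∀ᶠ y in 𝓝 (lend W), 0 < W y := hW.cont.continuousAt.eventually (lt_mem_nhds hcon)
  obtain ⟨ε, hε, hball⟩ := Metric.eventually_nhds_iff.1 h1
  have h2 := hball (show dist (lend W - ε / 2) (lend W) < ε by
    rw [Real.dist_eq, abs_lt]; constructor <;> linarith)
  have := csInf_le hb h2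
  unfold lend at this
  linarith

lemma lt_W_of_lend_lt (hW : IsRef W) {y : ℝ} (hy : lend W < y) :
    0 < W y := by
  have hne : {y | 0 < W y}.Nonempty := by
    obtain ⟨y, hy⟩ := ((hW.top.eventually (lt_mem_nhds (zero_lt_one)))).exists
    exact ⟨y, hy⟩
  obtain ⟨z, hz1, hz2⟩ := exists_lt_of_csInf_lt hne hy
  exact lt_of_lt_of_le hz1 (hW.mono hz2.le)

/-- Positive transforms with `G(y)/(y-a)` nonincreasing give laws below `W` in the star order. -/
lemma starLE_lawOf (hW : IsRef W) (hb : BddBelow {y | 0 < W y}) {G : ℝ → ℝ}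
    (hGm : StrictMonoOn G (SW W)) (hGc : ContinuousOn G (SW W)) (hG0 : ∀ y ∈ SW W, 0 < G y)
    (hGi : ∀ ε > 0, ∃ y ∈ SW W, G y < ε)
    (hGr : AntitoneOn (fun y => G y / (y - lend W)) (SW W)) :
    StrictMonoOn (fun u => G (qf W u)) (Ioo 0 1) ∧ ContinuousOn (fun u => G (qf W u)) (Ioo 0 1) ∧
      StarLE (cdf (lawOf (fun u => G (qf W u)))) W := by
  set Q : ℝ → ℝ := fun u => G (qf W u) with hQ
  have hQm : StrictMonoOn Q (Ioo 0 1) := fun u hu v hv huv =>
    hGm (qf_mem_SW hW hu) (qf_mem_SW hW hv) (strictMonoOn_qf hW hu hv huv)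
  have hQc : ContinuousOn Q (Ioo 0 1) :=
    hGc.comp (continuousOn_qf hW) fun u hu => qf_mem_SW hW hu
  have hlc := leftCont_of_continuousOn hQc
  refine ⟨hQm, hQc, ?_⟩
  have hpos : {x | 0 < cdf (lawOf Q) x} = Ioi 0 := by
    ext x
    simp only [mem_ofPred_eq, mem_Ioi]
    rw [pos_cdf_iff hQm.monotoneOn hlc]
    constructor
    · rintro ⟨u, hu, h⟩
      exact lt_of_lt_of_le (hG0 _ (qf_mem_SW hW hu)) h
    · intro hx
      obtain ⟨y, hy, hyx⟩ := hGi x hx
      refine ⟨W y, W_mem hy, ?_⟩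
      show G (qf W (W y)) ≤ x
      rw [qf_W hW hy]; exact hyx.le
  have hlend : lend (cdf (lawOf Q)) = 0 := by
    unfold lend; rw [hpos, csInf_Ioi]
  refine ⟨?_, hb, ?_⟩
  · rw [hpos]; exact ⟨0, fun x hx => (mem_Ioi.1 hx).le⟩
  · rw [hlend]
    intro x hx x' hx' hxx
    have := isProbabilityMeasure_lawOf hQm.monotoneOn
    have hF := isDF_cdf (lawOf Q)
    have hxF : cdf (lawOf Q) x ∈ Ioo (0:ℝ) 1 := ⟨by
      have : x ∈ {x | 0 < cdf (lawOf Q) x} := by rw [hpos]; exact hx.1
      exact this, hx.2⟩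
    have hxF' : cdf (lawOf Q) x' ∈ Ioo (0:ℝ) 1 := ⟨by
      have : x' ∈ {x | 0 < cdf (lawOf Q) x} := by rw [hpos]; exact hx'.1
      exact this, hx'.2⟩
    have e1 := Q_cdf_lawOf hQm.monotoneOn hQc hxF
    have e2 := Q_cdf_lawOf hQm.monotoneOn hQc hxF'
    set y := qf W (cdf (lawOf Q) x) with hy
    set y' := qf W (cdf (lawOf Q) x') with hy'
    have hyS : y ∈ SW W := qf_mem_SW hW hxF
    have hyS' : y' ∈ SW W := qf_mem_SW hW hxF'
    have hyy : y ≤ y' := monotoneOn_qf hW.isDF hxF hxF' (hF.mono hxx)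
    have e1' : G y = x := e1
    have e2' : G y' = x' := e2
    have h1 := hGr hyS hyS' hyy
    simp only at h1
    rw [e1', e2'] at h1
    have a1 : 0 < y - lend W := by linarith [lend_lt hW hb hyS]
    have a2 : 0 < y' - lend W := by linarith [lend_lt hW hb hyS']
    have hx0 : 0 < x := hx.1
    have hx0' : 0 < x' := hx'.1
    show (y - lend W) / (x - 0) ≤ (y' - lend W) / (x' - 0)
    rw [sub_zero, sub_zero, div_le_div_iff₀ hx0 hx0']
    rw [div_le_div_iff₀ a2 a1] at h1
    linarith

/-- The dominating function. -/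
def dom (C : ℝ) (u : ℝ) : ℝ := C + u ^ (-(1/4) : ℝ)

lemma memLp_dom (C : ℝ) : MemLp (dom C) 2 uni := by
  refine (memLp_const C).add ?_
  rw [memLp_two_iff_integrable_sq]
  · have h : IntegrableOn (fun u : ℝ => u ^ (-(1/2) : ℝ)) (Ioo 0 1) := by
      have := (intervalIntegral.intervalIntegrable_rpow' (a := 0) (b := 1)
        (show (-1 : ℝ) < -(1/2) by norm_num))
      rwa [intervalIntegrable_iff_integrableOn_Ioo_of_le zero_le_one] at this
    refine (integrableOn_congr_fun ?_ measurableSet_Ioo).1 h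
    intro u hu
    show u ^ (-(1/2) : ℝ) = (u ^ (-(1/4) : ℝ)) ^ 2
    rw [← Real.rpow_natCast, ← Real.rpow_mul hu.1.le]
    norm_num
  · have : Measurable (fun u : ℝ => u ^ (-(1/4) : ℝ)) := by fun_prop
    exact this.aestronglyMeasurable

/-- Convergence of the bias under dominated pointwise convergence of centred quantile functions. -/
lemma tendsto_bias_aux {R : ℕ → ℝ → ℝ} {T : ℝ → ℝ} {C p τ : ℝ} {n j : ℕ}
    (hRm : ∀ k, MonotoneOn (R k) (Ioo 0 1))
    (hTm : MemLp T 2 uni) (hbd : ∀ k, ∀ u ∈ Ioo (0:ℝ) 1, |R k u| ≤ dom C u)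
    (hlim : ∀ u ∈ Ioo (0:ℝ) 1, u ≠ p → Tendsto (fun k => R k u) atTop (𝓝 (T u)))
    (hp : Tendsto (fun k => R k p) atTop (𝓝 τ)) (hv : 0 < varU T) :
    Tendsto (fun k => ((∫ u in Ioo (0:ℝ) 1, R k u * fos n j u) - R k p) / Real.sqrt (varU (R k)))
      atTop (𝓝 (((∫ u in Ioo (0:ℝ) 1, T u * fos n j u) - τ) / Real.sqrt (varU T))) := by
  have hdom := memLp_dom C
  have hR2 : ∀ k, MemLp (R k) 2 uni := fun k => by
    refine hdom.mono' (aemeasurable_of_monotoneOn (hRm k)).aestronglyMeasurable ?_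
    refine (ae_restrict_iff' measurableSet_Ioo).2 (Eventually.of_forall fun u hu => ?_)
    rw [Real.norm_eq_abs]; exact hbd k u hu
  have hae : ∀ᵐ u ∂uni, u ∈ Ioo (0:ℝ) 1 ∧ u ≠ p := by
    have h1 : ∀ᵐ u ∂uni, u ∈ Ioo (0:ℝ) 1 :=
      (ae_restrict_iff' measurableSet_Ioo).2 (Eventually.of_forall fun u hu => hu)
    have h2 : ∀ᵐ u ∂uni, u ≠ p := by
      refine ae_restrict_of_ae ?_
      have : (volume : Measure ℝ) {p} = 0 := Real.volume_singleton
      exact (compl_mem_ae_iff.2 this : {p}ᶜ ∈ ae volume)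
    filter_upwards [h1, h2] with u a b
    exact ⟨a, b⟩
  -- integrals against f
  have l1 : Tendsto (fun k => ∫ u in Ioo (0:ℝ) 1, R k u * fos n j u) atTop
      (𝓝 (∫ u in Ioo (0:ℝ) 1, T u * fos n j u)) := by
    refine tendsto_integral_of_dominated_convergence (fun u => |dom C u * fos n j u|)
      (fun k => (hR2 k).aestronglyMeasurable.mul (memLp_fos n j).aestronglyMeasurable)
      (hdom.integrable_mul (memLp_fos n j)).abs (fun k => ?_) ?_
    · filter_upwards [hae] with u hu
      rw [Real.norm_eq_abs, abs_mul, abs_mul]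
      exact mul_le_mul_of_nonneg_right ((hbd k u hu.1).trans (le_abs_self _)) (abs_nonneg _)
    · filter_upwards [hae] with u hu
      exact (hlim u hu.1 hu.2).mul_const _
  have l2 : Tendsto (fun k => ∫ u in Ioo (0:ℝ) 1, R k u) atTop (𝓝 (∫ u in Ioo (0:ℝ) 1, T u)) := by
    refine tendsto_integral_of_dominated_convergence (fun u => |dom C u|)
      (fun k => (hR2 k).aestronglyMeasurable) (hdom.integrable (by norm_num)).abs (fun k => ?_) ?_
    · filter_upwards [hae] with u hu
      rw [Real.norm_eq_abs]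
      exact (hbd k u hu.1).trans (le_abs_self _)
    · filter_upwards [hae] with u hu
      exact hlim u hu.1 hu.2
  have l3 : Tendsto (fun k => ∫ u in Ioo (0:ℝ) 1, R k u ^ 2) atTop
      (𝓝 (∫ u in Ioo (0:ℝ) 1, T u ^ 2)) := by
    refine tendsto_integral_of_dominated_convergence (fun u => dom C u ^ 2)
      (fun k => (hR2 k).aestronglyMeasurable.pow 2) hdom.integrable_sq (fun k => ?_) ?_
    · filter_upwards [hae] with u hu
      rw [Real.norm_eq_abs, abs_of_nonneg (sq_nonneg _), ← sq_abs (R k u)]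
      have h3 := hbd k u hu.1
      have h4 := abs_nonneg (R k u)
      nlinarith
    · filter_upwards [hae] with u hu
      exact (hlim u hu.1 hu.2).pow 2
  have hvar : ∀ g : ℝ → ℝ, MemLp g 2 uni → varU g = (∫ u in Ioo (0:ℝ) 1, g u ^ 2) -
      (∫ u in Ioo (0:ℝ) 1, g u) ^ 2 := by
    intro g hg
    have hi : IntegrableOn g (Ioo 0 1) := hg.integrable (by norm_num)
    unfold varU
    set m := ∫ v in Ioo (0:ℝ) 1, g v with hm
    have e : ∀ u, (g u - m) ^ 2 = (g u ^ 2 - 2 * m * g u) + m ^ 2 := fun u => by ring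
    simp only [e]
    have j1 : IntegrableOn (fun u => g u ^ 2 - 2 * m * g u) (Ioo (0:ℝ) 1) :=
      hg.integrable_sq.sub (hi.const_mul _)
    rw [integral_add j1 (integrable_const _), integral_sub hg.integrable_sq (hi.const_mul _),
      integral_const_mul, int_const_Ioo zero_le_one, ← hm]
    ring
  have l4 : Tendsto (fun k => varU (R k)) atTop (𝓝 (varU T)) := by
    rw [hvar T hTm]
    simp only [fun k => hvar (R k) (hR2 k)]
    exact l3.sub (l2.pow 2)
  refine (l1.sub hp).div ?_ (Real.sqrt_pos.2 hv).ne'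
  exact (Real.continuous_sqrt.tendsto _).comp l4

/-- Data of a sequence of Lipschitz transforms. -/
structure LipSeq (W : ℝ → ℝ) (S : ℕ → ℝ → ℝ) (C y1 : ℝ) : Prop where
  C0 : 0 ≤ C
  nonneg : ∀ k y, 0 ≤ S k y
  le : ∀ k y, S k y ≤ C
  mono : ∀ k, Monotone (S k)
  cont : ∀ k, Continuous (S k)
  lip : ∀ k, ∃ L : ℝ, 0 ≤ L ∧ ∀ y y', y ≤ y' → S k y' - S k y ≤ L * (y' - y)
  const : ∀ k y y', y1 ≤ y → y ≤ y' → S k y' = S k y
  ly1 : lend W ≤ y1

/-- The bounded strictly increasing correction. -/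
def thet (a y : ℝ) : ℝ := (y - a) / (1 + (y - a))

/-- Star approximation. -/
lemma star_approx (hW : IsRef W) (hb : BddBelow {y | 0 < W y}) {S : ℕ → ℝ → ℝ} {C y1 : ℝ}
    (H : LipSeq W S C y1) (k : ℕ) :
    ∃ (G : ℝ → ℝ) (M : ℝ), StrictMonoOn G (SW W) ∧ ContinuousOn G (SW W) ∧ (∀ y ∈ SW W, 0 < G y) ∧
      (∀ ε > 0, ∃ y ∈ SW W, G y < ε) ∧ AntitoneOn (fun y => G y / (y - lend W)) (SW W) ∧
      (∀ u ∈ Ioo (0:ℝ) 1, |G (qf W u) - M| ≤ dom (C + 1) u) ∧
      (∀ u ∈ Ioo (0:ℝ) 1, 1 / ((k : ℝ) + 1) < u →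
        G (qf W u) - M = S k (qf W u) + thet (lend W) (qf W u) / ((k : ℝ) + 1)) := by
  obtain ⟨L, hL0, hL⟩ := H.lip k
  set a := lend W with ha
  have hk : (0:ℝ) < (k : ℝ) + 1 := by positivity
  set M : ℝ := L * (y1 - a) + 1 with hM
  have hLy : 0 ≤ L * (y1 - a) := mul_nonneg hL0 (by linarith [H.ly1])
  have hM1 : 1 ≤ M := by linarith
  have hM0 : 0 < M := by linarith
  -- choice of the slope
  set δ : ℝ := min (1 / M ^ 4) (1 / ((k : ℝ) + 1)) with hδ
  have hδ0 : 0 < δ := lt_min (by positivity) (by positivity)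
  obtain ⟨η, hη, hWη⟩ : ∃ η > 0, W (a + η) < δ := by
    have h1 : ∀ᶠ y in 𝓝 a, W y < δ := by
      refine hW.cont.continuousAt.eventually (gt_mem_nhds ?_)
      rw [W_lend hW hb]; exact hδ0
    obtain ⟨ε, hε, hball⟩ := Metric.eventually_nhds_iff.1 h1
    refine ⟨ε / 2, by linarith, hball ?_⟩
    rw [Real.dist_eq, abs_lt]; constructor <;> linarith
  set B : ℝ := M + C + 1 with hB
  have hB0 : 0 < B := by have := H.C0; linarith
  set K : ℝ := B / η with hK
  have hK0 : 0 < K := div_pos hB0 hη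
  have hKη : K * η = B := by rw [hK]; field_simp
  let th : ℝ → ℝ := fun y => thet a y
  have th_mono : ∀ y y', a < y → y < y' → th y < th y' := by
    intro y y' h1 h2
    show (y - a) / (1 + (y - a)) < (y' - a) / (1 + (y' - a))
    rw [div_lt_div_iff₀ (by linarith) (by linarith)]
    nlinarith
  have th0 : ∀ y, a < y → 0 < th y := by
    intro y h1
    show 0 < (y - a) / (1 + (y - a))
    exact div_pos (by linarith) (by linarith)
  have th1 : ∀ y, a < y → th y ≤ 1 := by
    intro y h1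
    show (y - a) / (1 + (y - a)) ≤ 1
    rw [div_le_one (by linarith)]; linarith
  let A : ℝ → ℝ := fun y => M + S k y + th y / ((k : ℝ) + 1)
  let G : ℝ → ℝ := fun y => min (A y) (K * (y - a))
  have haS : ∀ y ∈ SW W, a < y := fun y hy => lend_lt hW hb hy
  have hAge : ∀ y, a < y → M ≤ A y := by
    intro y hy
    have h1 := H.nonneg k y
    have h2 := div_nonneg (th0 y hy).le hk.le
    show M ≤ M + S k y + th y / ((k : ℝ) + 1)
    linarith
  have hAle : ∀ y, a < y → A y ≤ B := by
    intro y hy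
    have h1 := H.le k y
    have h2 : th y / ((k : ℝ) + 1) ≤ 1 := by
      rw [div_le_one hk]
      have := th1 y hy
      have hk0 : (0:ℝ) ≤ (k:ℝ) := Nat.cast_nonneg k
      linarith
    show M + S k y + th y / ((k : ℝ) + 1) ≤ M + C + 1
    linarith
  have hthc : ContinuousOn th (SW W) := by
    intro y hy
    have h1 := haS y hy
    have : ContinuousAt th y := by
      show ContinuousAt (fun y => (y - a) / (1 + (y - a))) y
      refine ContinuousAt.div (by fun_prop) (by fun_prop) ?_
      linarith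
    exact this.continuousWithinAt
  refine ⟨G, M, ?_, ?_, ?_, ?_, ?_, ?_, ?_⟩
  · -- strictly increasing
    intro y hy y' hy' hyy
    have h1 := haS y hy
    have h2 : A y < A y' := by
      have h3 := H.mono k hyy.le
      have h4 := div_lt_div_of_pos_right (th_mono y y' h1 hyy) hk
      show M + S k y + th y / ((k : ℝ) + 1) < M + S k y' + th y' / ((k : ℝ) + 1)
      linarith
    have h3 : K * (y - a) < K * (y' - a) := mul_lt_mul_of_pos_left (by linarith) hK0
    exact lt_min (lt_of_le_of_lt (min_le_left _ _) h2) (lt_of_le_of_lt (min_le_right _ _) h3)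
  · have hA : ContinuousOn A (SW W) :=
      (continuousOn_const.add (H.cont k).continuousOn).add (hthc.div_const _)
    have hB' : ContinuousOn (fun y => K * (y - a)) (SW W) := by fun_prop
    exact ContinuousOn.inf hA hB'
  · intro y hy
    have h1 := haS y hy
    exact lt_min (lt_of_lt_of_le hM0 (hAge y h1)) (mul_pos hK0 (by linarith))
  · intro ε hε
    -- point close to a
    set y := a + min (ε / (2 * K)) (η) with hy
    have hmin : 0 < min (ε / (2 * K)) η := lt_min (by positivity) hη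
    have hya : a < y := by rw [hy]; linarith
    have hWy : W y < 1 := by
      have h1 : W y ≤ W (a + η) := hW.mono (by rw [hy]; linarith [min_le_right (ε / (2 * K)) η])
      have h2 : δ ≤ 1 := by
        refine (min_le_right _ _).trans ?_
        rw [div_le_one hk]
        have hk0 : (0:ℝ) ≤ (k:ℝ) := Nat.cast_nonneg k
        linarith
      linarith
    refine ⟨y, ⟨lt_W_of_lend_lt hW hya, hWy⟩, ?_⟩
    refine lt_of_le_of_lt (min_le_right _ _) ?_
    have h1 : y - a ≤ ε / (2 * K) := by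
      rw [hy]; linarith [min_le_left (ε / (2 * K)) η]
    calc K * (y - a) ≤ K * (ε / (2 * K)) := mul_le_mul_of_nonneg_left h1 hK0.le
      _ = ε / 2 := by field_simp
      _ < ε := by linarith
  · -- ratio
    intro y hy y' hy' hyy
    have h1 := haS y hy
    have h1' : a < y' := lt_of_lt_of_le h1 hyy
    have hd : 0 < y - a := by linarith
    have hd' : 0 < y' - a := by linarith
    show min (A y') (K * (y' - a)) / (y' - a) ≤ min (A y) (K * (y - a)) / (y - a)
    have hratio : A y' / (y' - a) ≤ A y / (y - a) := by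
      -- split
      have e1 : A y' / (y' - a) = (M + S k y') / (y' - a) + (1 / (1 + (y' - a))) / ((k : ℝ) + 1) := by
        show (M + S k y' + ((y' - a) / (1 + (y' - a))) / ((k : ℝ) + 1)) / (y' - a) = _
        have : (1 + (y' - a)) ≠ 0 := by linarith
        field_simp
      have e2 : A y / (y - a) = (M + S k y) / (y - a) + (1 / (1 + (y - a))) / ((k : ℝ) + 1) := by
        show (M + S k y + ((y - a) / (1 + (y - a))) / ((k : ℝ) + 1)) / (y - a) = _
        have : (1 + (y - a)) ≠ 0 := by linarith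
        field_simp
      rw [e1, e2]
      have h2 : (1 / (1 + (y' - a))) / ((k : ℝ) + 1) ≤ (1 / (1 + (y - a))) / ((k : ℝ) + 1) := by
        refine div_le_div_of_nonneg_right ?_ hk.le
        exact one_div_le_one_div_of_le (by linarith) (by linarith)
      have h3 : (M + S k y') / (y' - a) ≤ (M + S k y) / (y - a) := by
        rw [div_le_div_iff₀ hd' hd]
        have hS0 := H.nonneg k y
        rcases le_or_gt y1 y with h4 | h4
        · rw [H.const k y y' h4 hyy]
          exact mul_le_mul_of_nonneg_left (by linarith) (by linarith)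
        · have h5 : S k y' - S k y ≤ L * (y' - y) := hL y y' hyy
          have h6 : (S k y' - S k y) * (y - a) ≤ L * (y' - y) * (y1 - a) := by
            have h7 : 0 ≤ L * (y' - y) := mul_nonneg hL0 (by linarith)
            calc (S k y' - S k y) * (y - a) ≤ L * (y' - y) * (y - a) :=
                  mul_le_mul_of_nonneg_right h5 hd.le
              _ ≤ _ := mul_le_mul_of_nonneg_left (by linarith) h7
          have h8 : L * (y' - y) * (y1 - a) ≤ M * (y' - y) := by
            rw [hM]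
            nlinarith
          nlinarith
      linarith
    rcases le_total (A y) (K * (y - a)) with h2 | h2
    · rw [min_eq_left h2]
      exact (div_le_div_of_nonneg_right (min_le_left _ _) hd'.le).trans hratio
    · rw [min_eq_right h2, mul_div_assoc, div_self hd.ne', mul_one]
      rw [div_le_iff₀ hd']
      exact min_le_right _ _
  · -- domination
    intro u hu
    have hyS := qf_mem_SW hW hu
    have h1 := haS _ hyS
    set y := qf W u with hy
    have hu4 : 0 < u ^ (-(1/4) : ℝ) := Real.rpow_pos_of_pos hu.1 _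
    show |min (A y) (K * (y - a)) - M| ≤ C + 1 + u ^ (-(1/4) : ℝ)
    rw [abs_le]
    constructor
    · -- lower bound
      rcases le_or_gt (A y) (K * (y - a)) with h2 | h2
      · rw [min_eq_left h2]
        have := hAge y h1
        have := H.C0
        linarith
      · rw [min_eq_right h2.le]
        -- then y < a + η, so u ≤ W (a + η) < 1 / M^4
        have h3 : K * (y - a) < K * η := by
          rw [hKη]; exact lt_of_lt_of_le h2 (hAle y h1)
        have h4 : y < a + η := by
          have := lt_of_mul_lt_mul_left h3 hK0.le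
          linarith
        have h5 : u ≤ W (a + η) := (qf_le_iff hW.isDF hu _).1 (by rw [← hy]; exact h4.le)
        have h6 : u < 1 / M ^ 4 := lt_of_le_of_lt h5 (lt_of_lt_of_le hWη (min_le_left _ _))
        have h7 : M ≤ u ^ (-(1/4) : ℝ) := by
          have h8 : (1 / M ^ 4) ^ (-(1/4) : ℝ) ≤ u ^ (-(1/4) : ℝ) :=
            Real.rpow_le_rpow_of_nonpos hu.1 h6.le (by norm_num)
          have h9 : (1 / M ^ 4) ^ (-(1/4) : ℝ) = M := by
            rw [one_div, Real.inv_rpow (by positivity), Real.rpow_neg (by positivity), inv_inv,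
              ← Real.rpow_natCast, ← Real.rpow_mul hM0.le]
            norm_num
          linarith
        have h10 : 0 < K * (y - a) := mul_pos hK0 (by linarith)
        have := H.C0
        linarith
    · have h2 : min (A y) (K * (y - a)) ≤ B := (min_le_left _ _).trans (hAle y h1)
      linarith
  · -- identity
    intro u hu hku
    have hyS := qf_mem_SW hW hu
    have h1 := haS _ hyS
    set y := qf W u with hy
    have h2 : W (a + η) < u := lt_trans (lt_of_lt_of_le hWη (min_le_right _ _)) hku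
    have h3 : a + η < y := by rw [hy, lt_qf_iff hW hu]; exact h2
    have h4 : A y ≤ K * (y - a) := by
      have h5 : K * η ≤ K * (y - a) := mul_le_mul_of_nonneg_left (by linarith) hK0.le
      rw [hKη] at h5
      exact (hAle y h1).trans h5
    show min (A y) (K * (y - a)) - M = _
    rw [min_eq_left h4]
    show M + S k y + th y / ((k : ℝ) + 1) - M = _
    ring

/-- The star family approaches every profile that is a limit of Lipschitz transforms. -/
lemma star_limit (hW : IsRef W) (hb : BddBelow {y | 0 < W y}) {S : ℕ → ℝ → ℝ} {C y1 : ℝ}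
    (H : LipSeq W S C y1) {T : ℝ → ℝ} {n j : ℕ} {p τ : ℝ} (P : Par n j p) (hTm : MemLp T 2 uni)
    (hv : 0 < varU T)
    (hlim : ∀ u ∈ Ioo (0:ℝ) 1, u ≠ p → Tendsto (fun k => S k (qf W u)) atTop (𝓝 (T u)))
    (hp : Tendsto (fun k => S k (qf W p)) atTop (𝓝 τ)) :
    ∃ (μ : ℕ → Measure ℝ) (M : ℕ → ℝ), (∀ k, Adm (μ k) ∧ IsRef (cdf (μ k)) ∧ StarLE (cdf (μ k)) W) ∧
      (∀ u ∈ Ioo (0:ℝ) 1, u ≠ p → Tendsto (fun k => qf (cdf (μ k)) u - M k) atTop (𝓝 (T u))) ∧
      Tendsto (fun k => bias n j p (μ k)) atTop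
        (𝓝 (((∫ u in Ioo (0:ℝ) 1, T u * fos n j u) - τ) / Real.sqrt (varU T))) := by
  choose G M g1 g2 g3 g4 g5 g6 g7 using fun k => star_approx hW hb H k
  have hpm : p ∈ Ioo (0:ℝ) 1 := ⟨P.hp0, P.hp1⟩
  have hS := fun k => starLE_lawOf hW hb (g1 k) (g2 k) (g3 k) (g4 k) (g5 k)
  have hQ2 : ∀ k, MemLp (fun u => G k (qf W u)) 2 uni := by
    intro k
    have h1 : MemLp (fun u => G k (qf W u) - M k) 2 uni := by
      refine (memLp_dom (C + 1)).mono' ?_ ?_
      · exact ((aemeasurable_of_monotoneOn (hS k).1.monotoneOn).sub_const _).aestronglyMeasurable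
      · refine (ae_restrict_iff' measurableSet_Ioo).2 (Eventually.of_forall fun u hu => ?_)
        rw [Real.norm_eq_abs]; exact g6 k u hu
    have h2 := h1.add (memLp_const (M k))
    refine (memLp_congr_ae (Eventually.of_forall fun u => ?_)).1 h2
    show G k (qf W u) - M k + M k = _
    ring
  have hvshift : ∀ k, varU (fun u => G k (qf W u) - M k) = varU (fun u => G k (qf W u)) := by
    intro k
    have hi : IntegrableOn (fun u => G k (qf W u)) (Ioo 0 1) := (hQ2 k).integrable (by norm_num)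
    unfold varU
    rw [integral_sub hi (integrable_const _), int_const_Ioo zero_le_one]
    congr 1; funext u; ring
  have hvpos : ∀ k, 0 < varU (fun u => G k (qf W u)) := by
    intro k
    have h0 : 0 ≤ varU (fun u => G k (qf W u)) := integral_nonneg fun u => sq_nonneg _
    refine lt_of_le_of_ne h0 fun h => ?_
    set m := ∫ u in Ioo (0:ℝ) 1, G k (qf W u) with hm
    have h1 : ∫ u in Ioo (0:ℝ) 1, (G k (qf W u) - m) ^ 2 = 0 := h.symm
    have h3 := (integral_eq_zero_iff_of_nonneg_ae (Eventually.of_forall fun u => sq_nonneg _)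
      ((hQ2 k).sub (memLp_const m)).integrable_sq).1 h1
    rw [EventuallyEq, ae_restrict_iff' measurableSet_Ioo] at h3
    have hex : ∀ a b : ℝ, 0 ≤ a → a < b → b ≤ 1 → ∃ u ∈ Ioo a b, G k (qf W u) = m := by
      intro a b ha hab hb'
      by_contra hcon
      push Not at hcon
      have h6 : ∀ᵐ u ∂(volume : Measure ℝ), u ∉ Ioo a b := by
        filter_upwards [h3] with u hu hu2
        have h7 := hu ⟨lt_of_le_of_lt ha hu2.1, lt_of_lt_of_le hu2.2 hb'⟩
        have h8 : (G k (qf W u) - m) ^ 2 = 0 := h7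
        have h9 := pow_eq_zero_iff (two_ne_zero) |>.1 h8
        exact hcon u hu2 (by linarith)
      have h7 : volume (Ioo a b) = 0 := by
        have : (Ioo a b : Set ℝ) = {u | ¬ (u ∉ Ioo a b)} := by ext; simp
        rw [this]; exact h6
      rw [Real.volume_Ioo] at h7
      simp at h7
      linarith
    obtain ⟨v1, hv1, e1⟩ := hex 0 (1/2) le_rfl (by norm_num) (by norm_num)
    obtain ⟨v2, hv2, e2⟩ := hex (1/2) 1 (by norm_num) (by norm_num) le_rfl
    have := (hS k).1 (show v1 ∈ Ioo (0:ℝ) 1 from ⟨hv1.1, by linarith [hv1.2]⟩)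
      (show v2 ∈ Ioo (0:ℝ) 1 from ⟨by linarith [hv2.1], hv2.2⟩) (by linarith [hv1.2, hv2.1])
    simp only at this
    linarith
  have hlc := fun k => leftCont_of_continuousOn (hS k).2.1
  have hev : ∀ u ∈ Ioo (0:ℝ) 1, ∀ᶠ k : ℕ in atTop, G k (qf W u) - M k =
      S k (qf W u) + thet (lend W) (qf W u) / ((k : ℝ) + 1) := by
    intro u hu
    have h1 : Tendsto (fun k : ℕ => 1 / ((k : ℝ) + 1)) atTop (𝓝 0) := tendsto_one_div_add_atTop_nhds_zero_nat
    filter_upwards [h1.eventually (gt_mem_nhds hu.1)] with k hk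
    exact g7 k u hu hk
  have hthz : ∀ u : ℝ, Tendsto (fun k : ℕ => thet (lend W) (qf W u) / ((k : ℝ) + 1)) atTop (𝓝 0) := by
    intro u
    have h1 : Tendsto (fun k : ℕ => 1 / ((k : ℝ) + 1)) atTop (𝓝 0) := tendsto_one_div_add_atTop_nhds_zero_nat
    have h2 := h1.const_mul (thet (lend W) (qf W u))
    rw [mul_zero] at h2
    refine h2.congr fun k => ?_
    ring
  have hR : ∀ u ∈ Ioo (0:ℝ) 1, u ≠ p → Tendsto (fun k => G k (qf W u) - M k) atTop (𝓝 (T u)) := by
    intro u hu hup
    have h1 := (hlim u hu hup).add (hthz u)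
    rw [add_zero] at h1
    refine h1.congr' ?_
    filter_upwards [hev u hu] with k hk
    exact hk.symm
  have hRp : Tendsto (fun k => G k (qf W p) - M k) atTop (𝓝 τ) := by
    have h1 := hp.add (hthz p)
    rw [add_zero] at h1
    refine h1.congr' ?_
    filter_upwards [hev p hpm] with k hk
    exact hk.symm
  refine ⟨fun k => lawOf (fun u => G k (qf W u)), M, fun k => ⟨?_, ?_, (hS k).2.2⟩, ?_, ?_⟩
  · exact adm_lawOf (hS k).1.monotoneOn (hlc k) (hQ2 k) (hvpos k)
  · exact isRef_lawOf (hS k).1 (hS k).2.1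
  · intro u hu hup
    refine (hR u hu hup).congr fun k => ?_
    rw [qf_lawOf (hS k).1.monotoneOn (hlc k) hu]
  · have h1 := tendsto_bias_aux (n := n) (j := j) (R := fun k u => G k (qf W u) - M k) (T := T)
      (C := C + 1) (p := p) (τ := τ) ?_ hTm g6 hR hRp hv
    · refine h1.congr fun k => ?_
      rw [bias_lawOf (hS k).1.monotoneOn (hlc k) P]
      rw [hvshift k]
      congr 1
      have i1 : IntegrableOn (fun u => G k (qf W u) * fos n j u) (Ioo (0:ℝ) 1) :=
        integrable_mul_fos (hQ2 k) n j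
      have e : ∀ u, (G k (qf W u) - M k) * fos n j u = G k (qf W u) * fos n j u - M k * fos n j u :=
        fun u => by ring
      simp only [e]
      rw [integral_sub i1 ((integrableOn_fos n j 0 1).const_mul _), integral_const_mul,
        int_fos_one P.hj P.hjn]
      ring
    · intro k u hu v hv huv
      have := (hS k).1.monotoneOn hu hv huv
      show G k (qf W u) - M k ≤ G k (qf W v) - M k
      linarith

end

end Pool.Agent.Lib.QBias
end
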