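import Pool.Agent.Lib.MP_c5814c_pr.Mg.G007
import Pool.Agent.Lib.MP_c5814c_pr.ConvSupEx

section

/-!
Sharp bounds over the star order family.
-/

set_option autoImplicit false

namespace Pool.Agent.Lib.QBias

open MeasureTheory ProbabilityTheory Set Filter Topology

noncomputable section

variable {W : ℝ → ℝ}

lemma integrableOn_cst (a b c : ℝ) : IntegrableOn (fun _ : ℝ => c) (Ioo a b) :=
  integrableOn_const (by rw [Real.volume_Ioo]; simp)

/-! ### Ramps -/

/-- The ramp from `0` at `y0` to `1` at `y0 + 1/K`. -/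
def ramp (K y0 y : ℝ) : ℝ := min 1 (max 0 (K * (y - y0)))

lemma ramp_nonneg (K y0 y : ℝ) : 0 ≤ ramp K y0 y := le_min zero_le_one (le_max_left _ _)
lemma ramp_le (K y0 y : ℝ) : ramp K y0 y ≤ 1 := min_le_left _ _

lemma ramp_mono {K : ℝ} (hK : 0 ≤ K) (y0 : ℝ) : Monotone (ramp K y0) := fun y y' h =>
  min_le_min_left _ (max_le_max_left _ (mul_le_mul_of_nonneg_left (by linarith) hK))

lemma continuous_ramp (K y0 : ℝ) : Continuous (ramp K y0) := by unfold ramp; fun_prop

lemma ramp_lip {K : ℝ} (hK : 0 ≤ K) (y0 : ℝ) {y y' : ℝ} (h : y ≤ y') :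
    ramp K y0 y' - ramp K y0 y ≤ K * (y' - y) := by
  have h0 : 0 ≤ K * (y' - y) := mul_nonneg hK (by linarith)
  unfold ramp
  rcases le_total 1 (max 0 (K * (y - y0))) with h1 | h1
  · rw [min_eq_left h1]
    have := min_le_left 1 (max 0 (K * (y' - y0)))
    linarith
  · rw [min_eq_right h1]
    have h2 := min_le_right 1 (max 0 (K * (y' - y0)))
    have h3 : max 0 (K * (y' - y0)) ≤ max 0 (K * (y - y0)) + K * (y' - y) := by
      refine max_le ?_ ?_
      · have := le_max_left 0 (K * (y - y0)); linarith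
      · have := le_max_right 0 (K * (y - y0)); nlinarith
    linarith

lemma ramp_eq_zero {K y0 y : ℝ} (hK : 0 ≤ K) (h : y ≤ y0) : ramp K y0 y = 0 := by
  unfold ramp
  have : K * (y - y0) ≤ 0 := mul_nonpos_of_nonneg_of_nonpos hK (by linarith)
  rw [max_eq_left this, min_eq_right zero_le_one]

lemma ramp_eq_one {K y0 y : ℝ} (h : 1 ≤ K * (y - y0)) : ramp K y0 y = 1 := by
  unfold ramp
  rw [max_eq_right (by linarith), min_eq_left h]

/-- The two point profile. -/
def Tstep (p : ℝ) (u : ℝ) : ℝ := if u ≤ p then 0 else 1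

lemma memLp_Tstep (p : ℝ) : MemLp (Tstep p) 2 uni := by
  refine memLp_of_bdd (Measurable.ite measurableSet_Iic measurable_const measurable_const) 1 ?_
  intro u _
  unfold Tstep
  split_ifs <;> simp

lemma int_Tstep_mul {n j : ℕ} {p : ℝ} (P : Par n j p) :
    ∫ u in Ioo (0:ℝ) 1, Tstep p u * fos n j u = 1 - Fos n j p := by
  have hi : IntegrableOn (fun u => Tstep p u * fos n j u) (Ioo (0:ℝ) 1) :=
    integrable_mul_fos (memLp_Tstep p) n j
  rw [split_uni P.hp0 P.hp1 hi]
  have h1 : ∫ u in Ioo (0:ℝ) p, Tstep p u * fos n j u = ∫ _ in Ioo (0:ℝ) p, (0:ℝ) :=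
    int_Ioo_congr fun u hu => by unfold Tstep; rw [if_pos hu.2.le, zero_mul]
  have h2 : ∫ u in Ioo p 1, Tstep p u * fos n j u = ∫ u in Ioo p 1, fos n j u :=
    int_Ioo_congr fun u hu => by unfold Tstep; rw [if_neg (not_le.2 hu.1), one_mul]
  rw [h1, h2, int_fos_Ioo P.hj P.hjn P.hp1.le, Fos_one P.hjn]
  simp

lemma int_Tstep {p : ℝ} (hp0 : 0 < p) (hp1 : p < 1) : ∫ u in Ioo (0:ℝ) 1, Tstep p u = 1 - p := by
  have hi : IntegrableOn (Tstep p) (Ioo (0:ℝ) 1) := (memLp_Tstep p).integrable (by norm_num)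
  rw [split_uni hp0 hp1 hi]
  have h1 : ∫ u in Ioo (0:ℝ) p, Tstep p u = ∫ _ in Ioo (0:ℝ) p, (0:ℝ) :=
    int_Ioo_congr fun u hu => by unfold Tstep; rw [if_pos hu.2.le]
  have h2 : ∫ u in Ioo p 1, Tstep p u = ∫ _ in Ioo p 1, (1:ℝ) :=
    int_Ioo_congr fun u hu => by unfold Tstep; rw [if_neg (not_le.2 hu.1)]
  rw [h1, h2, int_const_Ioo hp0.le, int_const_Ioo hp1.le]
  ring

lemma varU_Tstep {p : ℝ} (hp0 : 0 < p) (hp1 : p < 1) : varU (Tstep p) = p * (1 - p) := by
  unfold varU
  rw [int_Tstep hp0 hp1]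
  have hi : IntegrableOn (fun u => (Tstep p u - (1 - p)) ^ 2) (Ioo (0:ℝ) 1) :=
    ((memLp_Tstep p).sub (memLp_const _)).integrable_sq
  rw [split_uni hp0 hp1 hi]
  have h1 : ∫ u in Ioo (0:ℝ) p, (Tstep p u - (1 - p)) ^ 2 = ∫ _ in Ioo (0:ℝ) p, (1 - p) ^ 2 :=
    int_Ioo_congr fun u hu => by unfold Tstep; rw [if_pos hu.2.le]; ring
  have h2 : ∫ u in Ioo p 1, (Tstep p u - (1 - p)) ^ 2 = ∫ _ in Ioo p 1, p ^ 2 :=
    int_Ioo_congr fun u hu => by unfold Tstep; rw [if_neg (not_le.2 hu.1)]; ring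
  rw [h1, h2, int_const_Ioo hp0.le, int_const_Ioo hp1.le]
  ring

lemma lipSeq_ramp (hW : IsRef W) (hb : BddBelow {y | 0 < W y}) {p : ℝ} (hp0 : 0 < p) (hp1 : p < 1)
    (y0 : ℕ → ℝ) (hy0 : ∀ k, y0 k ≤ qf W p) :
    LipSeq W (fun k => ramp ((k : ℝ) + 1) (y0 k)) 1 (qf W p + 1) := by
  have hk : ∀ k : ℕ, (0:ℝ) ≤ (k : ℝ) + 1 := fun k => by positivity
  refine ⟨zero_le_one, fun k y => ramp_nonneg _ _ _, fun k y => ramp_le _ _ _,
    fun k => ramp_mono (hk k) _, fun k => continuous_ramp _ _,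
    fun k => ⟨(k : ℝ) + 1, hk k, fun y y' h => ramp_lip (hk k) _ h⟩, ?_, ?_⟩
  · intro k y y' h1 h2
    have h3 : ∀ z, qf W p + 1 ≤ z → ramp ((k : ℝ) + 1) (y0 k) z = 1 := by
      intro z hz
      refine ramp_eq_one ?_
      have h4 : 1 ≤ z - y0 k := by linarith [hy0 k]
      have h5 : (1:ℝ) ≤ (k : ℝ) + 1 := by
        have : (0:ℝ) ≤ k := Nat.cast_nonneg k
        linarith
      nlinarith
    rw [h3 y h1, h3 y' (h1.trans h2)]
  · have := lend_lt hW hb (qf_mem_SW hW (show p ∈ Ioo (0:ℝ) 1 from ⟨hp0, hp1⟩))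
    linarith

/-- Approach of the upper bound in the star family. -/
lemma star_upper_approach (hW : IsRef W) (hb : BddBelow {y | 0 < W y}) {n j : ℕ} {p : ℝ}
    (P : Par n j p) :
    ∃ (μ : ℕ → Measure ℝ) (M : ℕ → ℝ), (∀ k, Adm (μ k) ∧ IsRef (cdf (μ k)) ∧ StarLE (cdf (μ k)) W) ∧
      (∀ u ∈ Ioo (0:ℝ) 1, u ≠ p → Tendsto (fun k => qf (cdf (μ k)) u - M k) atTop (𝓝 (Tstep p u))) ∧
      Tendsto (fun k => bias n j p (μ k)) atTop (𝓝 (Ub n j p)) := by
  have hpm : p ∈ Ioo (0:ℝ) 1 := ⟨P.hp0, P.hp1⟩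
  have hkpos : ∀ k : ℕ, (0:ℝ) ≤ (k : ℝ) + 1 := fun k => by positivity
  have H := lipSeq_ramp hW hb P.hp0 P.hp1 (fun _ => qf W p) (fun _ => le_rfl)
  have hv : 0 < varU (Tstep p) := by
    rw [varU_Tstep P.hp0 P.hp1]
    exact mul_pos P.hp0 (by linarith [P.hp1])
  have key := star_limit hW hb H (T := Tstep p) (τ := 0) P (memLp_Tstep p) hv ?_ ?_
  · rw [int_Tstep_mul P, varU_Tstep P.hp0 P.hp1, sub_zero] at key
    exact key
  · intro u hu hup
    rcases lt_or_gt_of_ne hup with h | h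
    · have h1 : qf W u ≤ qf W p := monotoneOn_qf hW.isDF hu hpm h.le
      have h2 : Tstep p u = 0 := by unfold Tstep; rw [if_pos h.le]
      rw [h2]
      refine tendsto_const_nhds.congr fun k => ?_
      exact (ramp_eq_zero (hkpos k) h1).symm
    · have h1 : qf W p < qf W u := strictMonoOn_qf hW hpm hu h
      have h2 : Tstep p u = 1 := by unfold Tstep; rw [if_neg (not_le.2 h)]
      rw [h2]
      refine tendsto_const_nhds.congr' ?_
      have h3 : Tendsto (fun k : ℕ => ((k : ℝ) + 1) * (qf W u - qf W p)) atTop atTop :=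
        (tendsto_natCast_atTop_atTop.atTop_add tendsto_const_nhds).atTop_mul_const (by linarith)
      filter_upwards [h3.eventually_ge_atTop 1] with k hk
      exact (ramp_eq_one hk).symm
  · refine tendsto_const_nhds.congr fun k => ?_
    exact (ramp_eq_zero (hkpos k) le_rfl).symm

/-- Approach of the lower bound in the star family, flat case. -/
lemma star_lower_approach_flat (hW : IsRef W) (hb : BddBelow {y | 0 < W y}) {n j : ℕ} {p : ℝ}
    (P : Par n j p) :
    ∃ (μ : ℕ → Measure ℝ) (M : ℕ → ℝ), (∀ k, Adm (μ k) ∧ IsRef (cdf (μ k)) ∧ StarLE (cdf (μ k)) W) ∧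
      (∀ u ∈ Ioo (0:ℝ) 1, u ≠ p → Tendsto (fun k => qf (cdf (μ k)) u - M k) atTop (𝓝 (Tstep p u))) ∧
      Tendsto (fun k => bias n j p (μ k)) atTop (𝓝 (-(Fos n j p / Real.sqrt (p * (1 - p))))) := by
  have hpm : p ∈ Ioo (0:ℝ) 1 := ⟨P.hp0, P.hp1⟩
  have hkpos : ∀ k : ℕ, (0:ℝ) < (k : ℝ) + 1 := fun k => by positivity
  have H := lipSeq_ramp hW hb P.hp0 P.hp1 (fun k => qf W p - 1 / ((k : ℝ) + 1)) (fun k => by
    have := hkpos k
    have : 0 < 1 / ((k : ℝ) + 1) := by positivity
    linarith)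
  have hv : 0 < varU (Tstep p) := by
    rw [varU_Tstep P.hp0 P.hp1]
    exact mul_pos P.hp0 (by linarith [P.hp1])
  have hone : ∀ (k : ℕ) (y : ℝ), qf W p ≤ y → ramp ((k : ℝ) + 1) (qf W p - 1 / ((k : ℝ) + 1)) y = 1 := by
    intro k y hy
    refine ramp_eq_one ?_
    have h1 := hkpos k
    have h2 : ((k : ℝ) + 1) * (y - (qf W p - 1 / ((k : ℝ) + 1))) = ((k : ℝ) + 1) * (y - qf W p) + 1 := by
      field_simp
      ring
    rw [h2]
    have := mul_nonneg h1.le (sub_nonneg.2 hy)
    linarith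
  have key := star_limit hW hb H (T := Tstep p) (τ := 1) P (memLp_Tstep p) hv ?_ ?_
  · rw [int_Tstep_mul P, varU_Tstep P.hp0 P.hp1] at key
    have e : (1 - Fos n j p - 1) / Real.sqrt (p * (1 - p)) = -(Fos n j p / Real.sqrt (p * (1 - p))) := by
      ring
    rw [e] at key
    exact key
  · intro u hu hup
    rcases lt_or_gt_of_ne hup with h | h
    · have h1 : qf W u < qf W p := strictMonoOn_qf hW hu hpm h
      have h2 : Tstep p u = 0 := by unfold Tstep; rw [if_pos h.le]
      rw [h2]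
      refine tendsto_const_nhds.congr' ?_
      have h3 : Tendsto (fun k : ℕ => 1 / ((k : ℝ) + 1)) atTop (𝓝 0) := tendsto_one_div_add_atTop_nhds_zero_nat
      filter_upwards [h3.eventually (gt_mem_nhds (show (0:ℝ) < qf W p - qf W u by linarith))] with k hk
      exact (ramp_eq_zero (hkpos k).le (by linarith)).symm
    · have h1 : qf W p ≤ qf W u := monotoneOn_qf hW.isDF hpm hu h.le
      have h2 : Tstep p u = 1 := by unfold Tstep; rw [if_neg (not_le.2 h)]
      rw [h2]
      refine tendsto_const_nhds.congr fun k => ?_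
      exact (hone k _ h1).symm
  · refine tendsto_const_nhds.congr fun k => ?_
    exact (hone k _ le_rfl).symm

/-! ### Averages -/

/-- Right averages. -/
def ravg (T : ℝ → ℝ) (k : ℕ) (y : ℝ) : ℝ :=
  ((k : ℝ) + 1) * ∫ t in y..(y + 1 / ((k : ℝ) + 1)), T t

lemma lipSeq_ravg {T : ℝ → ℝ} {C y1 : ℝ} (hT : Monotone T) (h0 : ∀ y, 0 ≤ T y)
    (hC : ∀ y, T y ≤ C) (h1 : ∀ y, y1 ≤ y → T y = C) (hl : lend W ≤ y1) :
    LipSeq W (ravg T) C y1 := by
  have hkpos : ∀ k : ℕ, (0:ℝ) < (k : ℝ) + 1 := fun k => by positivity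
  have hTi : ∀ a b, IntervalIntegrable T volume a b := fun a b => hT.intervalIntegrable
  have hshift : ∀ (k : ℕ) (y : ℝ), ravg T k y = ((k : ℝ) + 1) * ∫ t in (0:ℝ)..(1 / ((k : ℝ) + 1)), T (y + t) := by
    intro k y
    unfold ravg
    rw [intervalIntegral.integral_comp_add_left (fun t => T t) y, add_zero]
  have hTsi : ∀ (y : ℝ) (a b : ℝ), IntervalIntegrable (fun t => T (y + t)) volume a b := by
    intro y a b
    have : Monotone (fun t => T (y + t)) := fun s t hst => hT (by linarith)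
    exact this.intervalIntegrable
  have hC0 : 0 ≤ C := (h0 0).trans (hC 0)
  refine ⟨hC0, ?_, ?_, ?_, ?_, ?_, ?_, hl⟩
  · intro k y
    have hk := hkpos k
    unfold ravg
    refine mul_nonneg hk.le (intervalIntegral.integral_nonneg ?_ fun t _ => h0 t)
    have : 0 < 1 / ((k : ℝ) + 1) := by positivity
    linarith
  · intro k y
    have hk := hkpos k
    have hinv : 0 < 1 / ((k : ℝ) + 1) := by positivity
    have h2 : ∫ t in y..(y + 1 / ((k : ℝ) + 1)), T t ≤ ∫ _ in y..(y + 1 / ((k : ℝ) + 1)), C :=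
      intervalIntegral.integral_mono_on (by linarith) (hTi _ _) (by simp) fun t _ => hC t
    rw [intervalIntegral.integral_const, smul_eq_mul] at h2
    unfold ravg
    calc ((k : ℝ) + 1) * ∫ t in y..(y + 1 / ((k : ℝ) + 1)), T t
        ≤ ((k : ℝ) + 1) * ((y + 1 / ((k : ℝ) + 1) - y) * C) := mul_le_mul_of_nonneg_left h2 hk.le
      _ = C := by field_simp; ring
  · intro k y y' hyy
    have hk := hkpos k
    rw [hshift, hshift]
    refine mul_le_mul_of_nonneg_left ?_ hk.le
    refine intervalIntegral.integral_mono_on (by positivity) (hTsi _ _ _) (hTsi _ _ _) fun t _ => ?_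
    exact hT (by linarith)
  · intro k
    have h2 : Continuous (fun y => ∫ t in (0:ℝ)..y, T t) := intervalIntegral.continuous_primitive hTi 0
    have h3 : ravg T k = fun y => ((k : ℝ) + 1) *
        ((∫ t in (0:ℝ)..(y + 1 / ((k : ℝ) + 1)), T t) - ∫ t in (0:ℝ)..y, T t) := by
      funext y
      unfold ravg
      rw [intervalIntegral.integral_interval_sub_left (hTi _ _) (hTi _ _)]
    rw [h3]
    exact continuous_const.mul ((h2.comp (continuous_id.add continuous_const)).sub h2)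
  · intro k
    have hk := hkpos k
    refine ⟨((k : ℝ) + 1) * C, mul_nonneg hk.le hC0, fun y y' hyy => ?_⟩
    unfold ravg
    set h := 1 / ((k : ℝ) + 1) with hh
    have e : (∫ t in y'..(y' + h), T t) - ∫ t in y..(y + h), T t =
        (∫ t in (y + h)..(y' + h), T t) - ∫ t in y..y', T t := by
      have a1 := intervalIntegral.integral_add_adjacent_intervals (hTi y y') (hTi y' (y' + h))
      have a2 := intervalIntegral.integral_add_adjacent_intervals (hTi y (y + h)) (hTi (y + h) (y' + h))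
      linarith
    have b1 : ∫ t in (y + h)..(y' + h), T t ≤ (y' - y) * C := by
      have := intervalIntegral.integral_mono_on (show y + h ≤ y' + h by linarith) (hTi _ _)
        (show IntervalIntegrable (fun _ => C) volume (y + h) (y' + h) by simp) fun t _ => hC t
      rw [intervalIntegral.integral_const, smul_eq_mul] at this
      linarith
    have b2 : 0 ≤ ∫ t in y..y', T t := intervalIntegral.integral_nonneg hyy fun t _ => h0 t
    rw [← mul_sub, e, mul_assoc]
    refine mul_le_mul_of_nonneg_left ?_ hk.le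
    linarith
  · intro k y y' hy hyy
    have hk := hkpos k
    have hval : ∀ z, y1 ≤ z → ravg T k z = C := by
      intro z hz
      unfold ravg
      have h2 : ∫ t in z..(z + 1 / ((k : ℝ) + 1)), T t = ∫ _ in z..(z + 1 / ((k : ℝ) + 1)), C := by
        refine intervalIntegral.integral_congr fun t ht => ?_
        have hinv : 0 < 1 / ((k : ℝ) + 1) := by positivity
        rw [uIcc_of_le (by linarith)] at ht
        exact h1 t (hz.trans ht.1)
      rw [h2, intervalIntegral.integral_const, smul_eq_mul]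
      field_simp
      ring
    rw [hval y hy, hval y' (hy.trans hyy)]

lemma tendsto_ravg {T : ℝ → ℝ} (hT : Monotone T) {y : ℝ} (hc : ContinuousAt T y) :
    Tendsto (fun k => ravg T k y) atTop (𝓝 (T y)) := by
  have hTi : ∀ a b, IntervalIntegrable T volume a b := fun a b => hT.intervalIntegrable
  have hd : HasDerivAt (fun z => ∫ t in (0:ℝ)..z, T t) (T y) y :=
    intervalIntegral.integral_hasDerivAt_right (hTi _ _)
      (hT.measurable.stronglyMeasurable.stronglyMeasurableAtFilter) hc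
  have h1 := hd.tendsto_slope_zero
  have h2 : Tendsto (fun k : ℕ => 1 / ((k : ℝ) + 1)) atTop (𝓝[≠] 0) := by
    rw [tendsto_nhdsWithin_iff]
    refine ⟨tendsto_one_div_add_atTop_nhds_zero_nat, Eventually.of_forall fun k => ?_⟩
    have : (0:ℝ) < 1 / ((k : ℝ) + 1) := by positivity
    exact this.ne'
  refine (h1.comp h2).congr fun k => ?_
  simp only [Function.comp, smul_eq_mul]
  unfold ravg
  rw [intervalIntegral.integral_interval_sub_left (hTi _ _) (hTi _ _)]
  congr 1
  simp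

/-- The limiting profile for the lower bound, as a function of `y`. -/
def Tlow (W : ℝ → ℝ) (n j : ℕ) (p s B : ℝ) (y : ℝ) : ℝ :=
  if y < qf W p then B - fos n j (max (W y) s) else B + Fos n j p / (1 - p)

/-- The limiting profile on the uniform scale. -/
def TlowU (n j : ℕ) (p s : ℝ) (u : ℝ) : ℝ :=
  if u ≤ p then -fos n j (max u s) else Fos n j p / (1 - p)

/-- Interior splitting point: `mode ≤ s < p`, `F(s) = s f(s)`. -/
structure SIn (n j : ℕ) (p s : ℝ) : Prop where
  hms : md n j ≤ s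
  hsp : s < p
  hs : Fos n j s = s * fos n j s

lemma SIn.spt {n j : ℕ} {p s : ℝ} (S : SIn n j p s) : SPt n j p s := ⟨S.hms, S.hsp.le, S.hs.le⟩

lemma hB_eq_TlowU {n j : ℕ} {p s : ℝ} (P : Par n j p) (S : SIn n j p s) {u : ℝ}
    (hu : u ∈ Ioo (0:ℝ) 1) (hup : u ≠ p) : TlowU n j p s u = -hB n j p s u := by
  have hs0 := S.spt.s0 P
  unfold TlowU hB
  rcases lt_or_gt_of_ne hup with h | h
  · rw [if_pos h.le]
    rcases le_or_gt u s with h1 | h1
    · rw [max_eq_right h1, if_pos h1]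
      have hs : 0 < s := lt_of_lt_of_le hu.1 h1
      rw [S.hs]; field_simp
    · rw [max_eq_left h1.le, if_neg (not_le.2 h1), if_pos h]
  · rw [if_neg (not_le.2 h), if_neg (not_le.2 (S.hsp.trans h)), if_neg (not_lt.2 h.le)]
    ring

/-- Approach of the lower bound in the star family, general case. -/
lemma star_lower_approach (hW : IsRef W) (hb : BddBelow {y | 0 < W y}) {n j : ℕ} {p s : ℝ}
    (P : Par n j p) (S : SIn n j p s) :
    ∃ (μ : ℕ → Measure ℝ) (M : ℕ → ℝ), (∀ k, Adm (μ k) ∧ IsRef (cdf (μ k)) ∧ StarLE (cdf (μ k)) W) ∧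
      (∀ u ∈ Ioo (0:ℝ) 1, u ≠ p → Tendsto (fun k => qf (cdf (μ k)) u - M k) atTop (𝓝 (TlowU n j p s u))) ∧
      Tendsto (fun k => bias n j p (μ k)) atTop (𝓝 (-(Real.sqrt (LbSq n j p s)))) := by
  have hpm : p ∈ Ioo (0:ℝ) 1 := ⟨P.hp0, P.hp1⟩
  have hp1 : 0 < 1 - p := by linarith [P.hp1]
  have hs0 := S.spt.s0 P
  obtain ⟨B0, hB0⟩ := exists_bound_fos n j
  have hFp : 0 < Fos n j p := Fos_pos P.hj P.hjn P.hp0 P.hp1.le
  have hfB : ∀ u ∈ Icc (0:ℝ) 1, fos n j u ≤ B0 := fun u hu => (le_abs_self _).trans (hB0 u hu)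
  set w := qf W p with hw
  -- the profile
  let T : ℝ → ℝ := Tlow W n j p s B0
  have hWle : ∀ y, y < w → W y < p := by
    intro y hy
    exact (lt_qf_iff hW hpm y).1 hy
  have hm1 : ∀ y, y < w → max (W y) s ∈ Icc (md n j) 1 := fun y hy =>
    ⟨S.hms.trans (le_max_right _ _), max_le (hW.isDF.le_one y) (S.hsp.le.trans P.hp1.le)⟩
  have hm0 : 0 ≤ md n j := md_nonneg P.hn P.hj
  have hTmono : Monotone T := by
    intro y y' hyy
    show Tlow W n j p s B0 y ≤ Tlow W n j p s B0 y'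
    unfold Tlow
    by_cases h1 : y' < w
    · rw [if_pos (lt_of_le_of_lt hyy h1), if_pos h1]
      have := antitoneOn_fos P.hj P.hn P.hjn hm0 le_rfl (hm1 y (lt_of_le_of_lt hyy h1)) (hm1 y' h1)
        (max_le_max_right s (hW.mono hyy))
      linarith
    · rw [if_neg h1]
      by_cases h2 : y < w
      · rw [if_pos h2]
        have h3 := fos_nonneg n j (hm0.trans (hm1 y h2).1) (hm1 y h2).2
        have : 0 ≤ Fos n j p / (1 - p) := by positivity
        linarith
      · rw [if_neg h2]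
  have hT0 : ∀ y, 0 ≤ T y := by
    intro y
    show 0 ≤ Tlow W n j p s B0 y
    unfold Tlow
    split_ifs with h
    · have := hfB (max (W y) s) ⟨hm0.trans (hm1 y h).1, (hm1 y h).2⟩
      linarith
    · have h1 := hfB 0 ⟨le_rfl, zero_le_one⟩
      have h2 := fos_nonneg n j (le_refl (0:ℝ)) zero_le_one
      have : 0 ≤ Fos n j p / (1 - p) := by positivity
      linarith
  have hTC : ∀ y, T y ≤ B0 + Fos n j p / (1 - p) := by
    intro y
    have h1 := hTmono (le_max_left y w)
    have h2 : T (max y w) = B0 + Fos n j p / (1 - p) := by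
      show Tlow W n j p s B0 (max y w) = _
      unfold Tlow
      rw [if_neg (not_lt.2 (le_max_right y w))]
    linarith
  have hTge : ∀ y, w ≤ y → T y = B0 + Fos n j p / (1 - p) := by
    intro y hy
    show Tlow W n j p s B0 y = _
    unfold Tlow
    rw [if_neg (not_lt.2 hy)]
  have H := lipSeq_ravg (W := W) hTmono hT0 hTC hTge (lend_lt hW hb (qf_mem_SW hW hpm)).le
  have hTc : ∀ y, y ≠ w → ContinuousAt T y := by
    intro y hy
    rcases lt_or_gt_of_ne hy with h | h
    · have h1 : ContinuousAt (fun y => B0 - fos n j (max (W y) s)) y :=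
        (continuous_const.sub ((continuous_fos n j).comp (hW.cont.max continuous_const))).continuousAt
      refine h1.congr ?_
      filter_upwards [gt_mem_nhds h] with z hz
      show _ = Tlow W n j p s B0 z
      unfold Tlow
      rw [if_pos hz]
    · have h1 : ContinuousAt (fun _ : ℝ => B0 + Fos n j p / (1 - p)) y := continuousAt_const
      refine h1.congr ?_
      filter_upwards [lt_mem_nhds h] with z hz
      exact (hTge z hz.le).symm
  -- profile on the uniform scale
  have hTU : ∀ u ∈ Ioo (0:ℝ) 1, u ≠ p → T (qf W u) = B0 + TlowU n j p s u := by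
    intro u hu hup
    rcases lt_or_gt_of_ne hup with h | h
    · have h1 : qf W u < w := strictMonoOn_qf hW hu hpm h
      show Tlow W n j p s B0 (qf W u) = _
      unfold Tlow TlowU
      rw [if_pos h1, if_pos h.le, W_qf hW hu]
      ring
    · have h1 : w ≤ qf W u := monotoneOn_qf hW.isDF hpm hu h.le
      rw [hTge _ h1]
      unfold TlowU
      rw [if_neg (not_le.2 h)]
  let T' : ℝ → ℝ := fun u => B0 + -hB n j p s u
  have hT'2 : MemLp T' 2 uni := (memLp_const B0).add (memLp_hB n j p s).neg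
  have hBi : IntegrableOn (hB n j p s) (Ioo (0:ℝ) 1) := (memLp_hB n j p s).integrable (by norm_num)
  have hmT' : ∫ u in Ioo (0:ℝ) 1, T' u = B0 := by
    have e : ∀ u, T' u = B0 - hB n j p s u := fun u => by show B0 + -hB n j p s u = _; ring
    simp only [e]
    rw [integral_sub (integrable_const _) hBi, int_hB P S.spt, int_const_Ioo zero_le_one]
    ring
  have hvT' : varU T' = LbSq n j p s := by
    unfold varU
    rw [hmT', ← int_hB_sq P S.spt]
    congr 1; funext u
    show (B0 + -hB n j p s u - B0) ^ 2 = _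
    ring
  have hLb := LbSq_pos P S.spt
  have hval : (∫ u in Ioo (0:ℝ) 1, T' u * fos n j u) - (B0 + Fos n j p / (1 - p)) = -LbSq n j p s := by
    have i1 : IntegrableOn (fun u => hB n j p s u * fos n j u) (Ioo (0:ℝ) 1) :=
      integrable_mul_fos (memLp_hB n j p s) n j
    have e1 : ∫ u in Ioo (0:ℝ) 1, T' u * fos n j u = B0 - ∫ u in Ioo (0:ℝ) 1, hB n j p s u * fos n j u := by
      have : ∀ u, T' u * fos n j u = B0 * fos n j u - hB n j p s u * fos n j u := by
        intro u; show (B0 + -hB n j p s u) * fos n j u = _; ring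
      simp only [this]
      rw [integral_sub ((integrableOn_fos n j 0 1).const_mul _) i1, integral_const_mul,
        int_fos_one P.hj P.hjn]
      ring
    -- ∫ hB (hB - f) = F/(1-p)
    have i2 : IntegrableOn (fun u => hB n j p s u * (hB n j p s u - fos n j u)) (Ioo (0:ℝ) 1) :=
      (memLp_hB n j p s).integrable_mul ((memLp_hB n j p s).sub (memLp_fos n j))
    have e2 : ∫ u in Ioo (0:ℝ) 1, hB n j p s u * (hB n j p s u - fos n j u) = Fos n j p / (1 - p) := by
      rw [split_uni P.hp0 P.hp1 i2]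
      have a1 : ∫ u in Ioo p 1, hB n j p s u * (hB n j p s u - fos n j u) = Fos n j p / (1 - p) := by
        have : ∫ u in Ioo p 1, hB n j p s u * (hB n j p s u - fos n j u) =
            ∫ u in Ioo p 1, ((Fos n j p / (1 - p)) ^ 2 + (Fos n j p / (1 - p)) * fos n j u) := by
          refine int_Ioo_congr fun u hu => ?_
          unfold hB
          rw [if_neg (not_le.2 (S.hsp.trans hu.1)), if_neg (not_lt.2 hu.1.le)]
          ring
        rw [this, integral_add (integrableOn_cst p 1 _)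
          ((integrableOn_fos n j p 1).const_mul _), int_const_Ioo P.hp1.le, integral_const_mul,
          int_fos_Ioo P.hj P.hjn P.hp1.le, Fos_one P.hjn]
        field_simp
        ring
      have a2 : ∫ u in Ioo 0 p, hB n j p s u * (hB n j p s u - fos n j u) = 0 := by
        have i3 := i2.mono_set (Ioo_subset_Ioo_right P.hp1.le : Ioo 0 p ⊆ Ioo (0:ℝ) 1)
        have c2 : ∫ u in Ioo s p, hB n j p s u * (hB n j p s u - fos n j u) = 0 := by
          rw [int_Ioo_congr (h := fun _ => 0)]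
          · simp
          · intro u hu
            unfold hB
            rw [if_neg (not_le.2 hu.1), if_pos hu.2]
            ring
        rcases eq_or_lt_of_le hs0 with h0 | h0
        · subst h0; exact c2
        · rw [split_uni h0 S.hsp i3, c2, add_zero]
          have : ∫ u in Ioo 0 s, hB n j p s u * (hB n j p s u - fos n j u) =
              ∫ u in Ioo 0 s, ((Fos n j s / s) ^ 2 - (Fos n j s / s) * fos n j u) := by
            refine int_Ioo_congr fun u hu => ?_
            unfold hB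
            rw [if_pos hu.2.le]
            ring
          rw [this, integral_sub (integrableOn_cst 0 s _)
            ((integrableOn_fos n j 0 s).const_mul _), int_const_Ioo h0.le, integral_const_mul,
            int_fos_Ioo P.hj P.hjn h0.le, Fos_zero P.hj]
          field_simp
          ring
      rw [a1, a2, zero_add]
    have e3 : ∫ u in Ioo (0:ℝ) 1, hB n j p s u * (hB n j p s u - fos n j u) =
        LbSq n j p s - ∫ u in Ioo (0:ℝ) 1, hB n j p s u * fos n j u := by
      have : ∀ u, hB n j p s u * (hB n j p s u - fos n j u) = hB n j p s u ^ 2 - hB n j p s u * fos n j u :=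
        fun u => by ring
      simp only [this]
      rw [integral_sub (memLp_hB n j p s).integrable_sq i1, int_hB_sq P S.spt]
    rw [e1]
    linarith
  have key := star_limit hW hb H (T := T') (τ := B0 + Fos n j p / (1 - p)) P hT'2
    (by rw [hvT']; exact hLb) ?_ ?_
  · obtain ⟨μ, M, k1, k2, k3⟩ := key
    refine ⟨μ, fun k => M k + B0, k1, ?_, ?_⟩
    · intro u hu hup
      have h1 := (k2 u hu hup).sub_const B0
      have h2 : T' u - B0 = TlowU n j p s u := by
        rw [hB_eq_TlowU P S hu hup]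
        show B0 + -hB n j p s u - B0 = _
        ring
      rw [h2] at h1
      refine h1.congr fun k => by ring
    · rw [hvT', hval] at k3
      have h3 : -LbSq n j p s / Real.sqrt (LbSq n j p s) = -Real.sqrt (LbSq n j p s) := by
        rw [neg_div]
        congr 1
        exact Real.div_sqrt
      rwa [h3] at k3
  · intro u hu hup
    have h1 := tendsto_ravg hTmono (hTc (qf W u) (fun h => hup (by
      have := congrArg W h
      rw [W_qf hW hu, hw, W_qf hW hpm] at this
      exact this)))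
    rw [hTU u hu hup, hB_eq_TlowU P S hu hup] at h1
    exact h1
  · have hkpos : ∀ k : ℕ, (0:ℝ) < (k : ℝ) + 1 := fun k => by positivity
    refine tendsto_const_nhds.congr fun k => ?_
    have hk := hkpos k
    unfold ravg
    have h2 : ∫ t in w..(w + 1 / ((k : ℝ) + 1)), T t =
        ∫ _ in w..(w + 1 / ((k : ℝ) + 1)), (B0 + Fos n j p / (1 - p)) := by
      refine intervalIntegral.integral_congr fun t ht => ?_
      have hinv : 0 < 1 / ((k : ℝ) + 1) := by positivity
      rw [uIcc_of_le (by linarith)] at ht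
      exact hTge t ht.1
    rw [h2, intervalIntegral.integral_const, smul_eq_mul]
    field_simp
    ring

/-- Existence of the interior splitting point. -/
lemma exists_SIn {n j : ℕ} {p : ℝ} (P : Par n j p) (hp : p * fos n j p < Fos n j p) :
    ∃ s, SIn n j p s := by
  have hm0 := md_nonneg P.hn P.hj
  -- at the mode, F ≤ s f
  have h1 : Fos n j (md n j) ≤ md n j * fos n j (md n j) := by
    have h2 : ∫ v in (0:ℝ)..(md n j), fos n j v ≤ ∫ _ in (0:ℝ)..(md n j), fos n j (md n j) := by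
      refine intervalIntegral.integral_mono_on hm0 ((continuous_fos n j).intervalIntegrable _ _)
        (continuous_const.intervalIntegrable _ _) fun v hv => ?_
      exact monotoneOn_fos P.hj P.hn P.hjn ⟨hv.1, hv.2⟩ ⟨hm0, le_rfl⟩ hv.2
    rw [integral_fos P.hj P.hjn, Fos_zero P.hj, sub_zero, intervalIntegral.integral_const, sub_zero,
      smul_eq_mul] at h2
    exact h2
  have hc : ContinuousOn (fun s => s * fos n j s - Fos n j s) (Icc (md n j) p) :=
    ((continuous_id.mul (continuous_fos n j)).sub (continuous_Fos n j)).continuousOn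
  have hmp : md n j ≤ p := P.hp
  obtain ⟨s, hs, hs0⟩ := intermediate_value_Icc' hmp hc
    (show (0:ℝ) ∈ Icc (p * fos n j p - Fos n j p) (md n j * fos n j (md n j) - Fos n j (md n j)) from
      ⟨by linarith, by linarith⟩)
  refine ⟨s, hs.1, lt_of_le_of_ne hs.2 fun h => ?_, by simp only at hs0; linarith⟩
  simp only at hs0
  rw [h] at hs0
  linarith

end

end Pool.Agent.Lib.QBias
end

section

/-!
Transfer of the bounds from the uniform scale to laws.
-/

set_option autoImplicit false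

namespace Pool.Agent.Lib.QBias

open MeasureTheory ProbabilityTheory Set Filter Topology

noncomputable section

variable {W : ℝ → ℝ}

section basic

variable {μ : Measure ℝ}

lemma adm_mono (h : Adm μ) : MonotoneOn (qf (cdf μ)) (Ioo 0 1) := by
  have := h.prob
  exact monotoneOn_qf (isDF_cdf μ)

lemma adm_memLp (h : Adm μ) : MemLp (qf (cdf μ)) 2 uni := by
  have := h.prob
  exact (memLp_qf_iff μ).1 h.l2

lemma adm_var (h : Adm μ) : 0 < varU (qf (cdf μ)) := by
  have := h.prob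
  rw [← var2_eq]; exact h.pos

lemma bias_le_iff (h : Adm μ) {n j : ℕ} {p : ℝ} (P : Par n j p) (B : ℝ) :
    bias n j p μ ≤ B ↔ (∫ u in Ioo (0:ℝ) 1, qf (cdf μ) u * fos n j u) - qf (cdf μ) p ≤
      Real.sqrt (varU (qf (cdf μ))) * B := by
  rw [bias_eq h.prob P, div_le_iff₀ (Real.sqrt_pos.2 (adm_var h)), mul_comm]

lemma le_bias_iff (h : Adm μ) {n j : ℕ} {p : ℝ} (P : Par n j p) (B : ℝ) :
    B ≤ bias n j p μ ↔ Real.sqrt (varU (qf (cdf μ))) * B ≤
      (∫ u in Ioo (0:ℝ) 1, qf (cdf μ) u * fos n j u) - qf (cdf μ) p := by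
  rw [bias_eq h.prob P, le_div_iff₀ (Real.sqrt_pos.2 (adm_var h)), mul_comm]

lemma bias_mul (h : Adm μ) {n j : ℕ} {p : ℝ} (P : Par n j p) :
    Real.sqrt (varU (qf (cdf μ))) * bias n j p μ =
      (∫ u in Ioo (0:ℝ) 1, qf (cdf μ) u * fos n j u) - qf (cdf μ) p := by
  rw [bias_eq h.prob P, mul_div_cancel₀ _ (Real.sqrt_pos.2 (adm_var h)).ne']

/-- Upper bound for all laws. -/
lemma bias_le_Ub (h : Adm μ) {n j : ℕ} {p : ℝ} (P : Par n j p) : bias n j p μ ≤ Ub n j p :=
  (bias_le_iff h P _).2 (upper_free P (adm_mono h) (adm_memLp h))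

/-- Lower bound for all laws. -/
lemma Lb_le_bias (h : Adm μ) {n j : ℕ} {p s : ℝ} (P : Par n j p) (S : SPt n j p s) :
    -Real.sqrt (LbSq n j p s) ≤ bias n j p μ := by
  rw [le_bias_iff h P]
  have := lower_free P S (adm_mono h) (adm_memLp h)
  linarith

lemma exists_in_of_ae {g : ℝ → Prop} (hg : ∀ᵐ u ∂uni, g u) {a b : ℝ} (ha : 0 ≤ a) (hab : a < b)
    (hb : b ≤ 1) : ∃ u ∈ Ioo a b, g u := by
  rw [ae_restrict_iff' measurableSet_Ioo] at hg
  by_contra hcon
  push Not at hcon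
  have h6 : ∀ᵐ u ∂(volume : Measure ℝ), u ∉ Ioo a b := by
    filter_upwards [hg] with u hu hu2
    exact hcon u hu2 (hu ⟨lt_of_le_of_lt ha hu2.1, lt_of_lt_of_le hu2.2 hb⟩)
  have h7 : volume (Ioo a b) = 0 := by
    have : (Ioo a b : Set ℝ) = {u | ¬ (u ∉ Ioo a b)} := by ext; simp
    rw [this]; exact h6
  rw [Real.volume_Ioo] at h7
  simp at h7
  linarith

/-- A law whose quantile function jumps at an interior level is not in the star family. -/
lemma no_gap_star (h : Adm μ) (hW : IsRef W) (hS : StarLE (cdf μ) W) {p c1 c2 : ℝ}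
    (hp : p ∈ Ioo (0:ℝ) 1) (hc : c1 < c2) (h1 : ∀ᵐ u ∂uni, u < p → qf (cdf μ) u ≤ c1)
    (h2 : ∀ᵐ u ∂uni, p < u → c2 ≤ qf (cdf μ) u) : False := by
  have := h.prob
  have hF := isDF_cdf μ
  have hm := adm_mono h
  have h1' : ∀ u ∈ Ioo (0:ℝ) p, qf (cdf μ) u ≤ c1 := by
    intro u hu
    obtain ⟨v, hv, hv1⟩ := exists_in_of_ae h1 hu.1.le hu.2 hp.2.le
    exact (hm ⟨hu.1, hu.2.trans hp.2⟩ ⟨hu.1.trans hv.1, hv.2.trans hp.2⟩ hv.1.le).trans (hv1 hv.2)
  have h2' : ∀ u ∈ Ioo p 1, c2 ≤ qf (cdf μ) u := by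
    intro u hu
    obtain ⟨v, hv, hv1⟩ := exists_in_of_ae h2 hp.1.le hu.1 hu.2.le
    exact (hv1 hv.1).trans (hm ⟨hp.1.trans hv.1, hv.2.trans hu.2⟩ ⟨hp.1.trans hu.1, hu.2⟩ hv.2.le)
  have hFx : ∀ x ∈ Ioo c1 c2, cdf μ x = p := by
    intro x hx
    refine le_antisymm ?_ ?_
    · by_contra hcon
      push Not at hcon
      obtain ⟨v, hv1, hv2⟩ := exists_between (lt_min hcon hp.2)
      have hv : v ∈ Ioo p 1 := ⟨hv1, lt_of_lt_of_le hv2 (min_le_right _ _)⟩
      have := (qf_le_iff hF ⟨hp.1.trans hv1, hv.2⟩ x).2 (hv2.le.trans (min_le_left _ _))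
      have := h2' v hv
      linarith [hx.2]
    · refine le_of_forall_lt fun v hv => ?_
      obtain ⟨w, hw1, hw2⟩ := exists_between (max_lt hv hp.1)
      have hw : w ∈ Ioo (0:ℝ) p := ⟨lt_of_le_of_lt (le_max_right _ _) hw1, hw2⟩
      have := (qf_le_iff hF ⟨hw.1, hw2.trans hp.2⟩ x).1 ((h1' w hw).trans hx.1.le)
      have h3 := le_max_left v 0
      linarith
  obtain ⟨x0, hx0⟩ := exists_between hc
  obtain ⟨x1, hx1⟩ := exists_between hx0.2
  obtain ⟨x2, hx2⟩ := exists_between hx1.2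
  have e0 := hFx x0 hx0
  have e1 := hFx x1 ⟨hx0.1.trans hx1.1, hx1.2⟩
  have e2 := hFx x2 ⟨hx0.1.trans (hx1.1.trans hx2.1), hx2.2⟩
  have hl : lend (cdf μ) ≤ x0 := csInf_le hS.bF (show 0 < cdf μ x0 by rw [e0]; exact hp.1)
  have hm1 : x1 ∈ {x | lend (cdf μ) < x ∧ cdf μ x < 1} :=
    ⟨lt_of_le_of_lt hl hx1.1, by rw [e1]; exact hp.2⟩
  have hm2 : x2 ∈ {x | lend (cdf μ) < x ∧ cdf μ x < 1} :=
    ⟨lt_of_le_of_lt hl (hx1.1.trans hx2.1), by rw [e2]; exact hp.2⟩
  have h5 := hS.mono hm1 hm2 hx2.1.le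
  simp only [e1, e2] at h5
  have hnum : 0 < qf W p - lend W := by
    have := lend_lt hW hS.bW (qf_mem_SW hW hp)
    linarith
  have d1 : 0 < x1 - lend (cdf μ) := by have := hm1.1; linarith
  have d2 : x1 - lend (cdf μ) < x2 - lend (cdf μ) := by linarith [hx2.1]
  have := div_lt_div_of_pos_left hnum d1 d2
  linarith

/-- The upper bound is not attained in the star family. -/
lemma star_upper_strict (h : Adm μ) (hW : IsRef W) (hS : StarLE (cdf μ) W) {n j : ℕ} {p : ℝ}
    (P : Par n j p) : bias n j p μ < Ub n j p := by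
  refine lt_of_le_of_ne (bias_le_Ub h P) fun heq => ?_
  have hpm : p ∈ Ioo (0:ℝ) 1 := ⟨P.hp0, P.hp1⟩
  have hp1 : 0 < 1 - p := by linarith [P.hp1]
  have hp0 := P.hp0
  have hF1 := Fos_lt_one P.hj P.hjn P.hp0.le P.hp1
  have hF1' : 0 < 1 - Fos n j p := by linarith
  have h1 := bias_mul h P
  rw [heq] at h1
  have h2 := upper_step P (adm_mono h) (adm_memLp h)
  have h3 := cs_bound (μ := uni) (adm_memLp h) (memLp_hA n j p) (int_hA P)
  rw [int_hA_sq P, Real.sqrt_sq (Ub_pos P).le] at h3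
  have h4 : ∫ u in Ioo (0:ℝ) 1, qf (cdf μ) u * hA n j p u =
      Real.sqrt (varU (qf (cdf μ))) * Ub n j p := le_antisymm h3 (by linarith)
  have hU := Ub_pos P
  have h5 := cs_equality (μ := uni) (adm_memLp h) (memLp_hA n j p) (int_hA P)
    (by rw [int_hA_sq P]; positivity) (by rw [int_hA_sq P, Real.sqrt_sq hU.le]; exact h4)
  rw [int_hA_sq P, Real.sqrt_sq hU.le] at h5
  set m := ∫ v in Ioo (0:ℝ) 1, qf (cdf μ) v with hm
  set c := Real.sqrt (∫ u in Ioo (0:ℝ) 1, (qf (cdf μ) u - m) ^ 2) / Ub n j p with hc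
  have hc0 : 0 < c := div_pos (Real.sqrt_pos.2 (adm_var h)) hU
  refine no_gap_star h hW hS hpm (c1 := m + c * (-((1 - Fos n j p) / p)))
    (c2 := m + c * ((1 - Fos n j p) / (1 - p))) ?_ ?_ ?_
  · have a1 : 0 < (1 - Fos n j p) / p := by positivity
    have a2 : 0 < (1 - Fos n j p) / (1 - p) := by positivity
    nlinarith [mul_pos hc0 a1, mul_pos hc0 a2]
  · filter_upwards [h5] with u hu hup
    rw [hu]; unfold hA; rw [if_pos hup.le]
  · filter_upwards [h5] with u hu hup
    rw [hu]; unfold hA; rw [if_neg (not_le.2 hup)]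

/-- The lower bound is not attained in the star family. -/
lemma star_lower_strict (h : Adm μ) (hW : IsRef W) (hS : StarLE (cdf μ) W) {n j : ℕ} {p s : ℝ}
    (P : Par n j p) (S : SPt n j p s) : -Real.sqrt (LbSq n j p s) < bias n j p μ := by
  refine lt_of_le_of_ne (Lb_le_bias h P S) fun heq => ?_
  have hpm : p ∈ Ioo (0:ℝ) 1 := ⟨P.hp0, P.hp1⟩
  have hp1 : 0 < 1 - p := by linarith [P.hp1]
  have hp0 := P.hp0
  have hs0 := S.s0 P
  have hFp : 0 < Fos n j p := Fos_pos P.hj P.hjn P.hp0 P.hp1.le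
  have h1 := bias_mul h P
  rw [← heq] at h1
  have h2 := lower_step P S (adm_mono h) (adm_memLp h)
  have hL := LbSq_pos P S
  have hQn : MemLp (fun u => -qf (cdf μ) u) 2 uni := (adm_memLp h).neg
  have e1 : ∫ u in Ioo (0:ℝ) 1, -qf (cdf μ) u * hB n j p s u =
      - ∫ u in Ioo (0:ℝ) 1, qf (cdf μ) u * hB n j p s u := by
    rw [← integral_neg]; congr 1; funext u; ring
  have e2 : ∫ u in Ioo (0:ℝ) 1, (-qf (cdf μ) u - ∫ v in Ioo (0:ℝ) 1, -qf (cdf μ) v) ^ 2 =
      varU (qf (cdf μ)) := by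
    unfold varU
    rw [integral_neg]
    congr 1; funext u; ring
  have h3 := cs_bound (μ := uni) hQn (memLp_hB n j p s) (int_hB P S)
  rw [int_hB_sq P S, e1, e2] at h3
  have h4 : ∫ u in Ioo (0:ℝ) 1, -qf (cdf μ) u * hB n j p s u =
      Real.sqrt (∫ u in Ioo (0:ℝ) 1, (-qf (cdf μ) u - ∫ v in Ioo (0:ℝ) 1, -qf (cdf μ) v) ^ 2) *
        Real.sqrt (∫ u in Ioo (0:ℝ) 1, hB n j p s u ^ 2) := by
    rw [int_hB_sq P S, e1, e2]
    linarith
  have h5 := cs_equality (μ := uni) hQn (memLp_hB n j p s) (int_hB P S)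
    (by rw [int_hB_sq P S]; exact hL) h4
  rw [int_hB_sq P S, e2] at h5
  set m := ∫ v in Ioo (0:ℝ) 1, -qf (cdf μ) v with hm
  set c := Real.sqrt (varU (qf (cdf μ))) / Real.sqrt (LbSq n j p s) with hc
  have hc0 : 0 < c := div_pos (Real.sqrt_pos.2 (adm_var h)) (Real.sqrt_pos.2 hL)
  refine no_gap_star h hW hS hpm (c1 := -m) (c2 := -m + c * (Fos n j p / (1 - p))) ?_ ?_ ?_
  · have a2 : 0 < Fos n j p / (1 - p) := by positivity
    nlinarith [mul_pos hc0 a2]
  · have hmem : ∀ᵐ u ∂uni, u ∈ Ioo (0:ℝ) 1 :=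
      (ae_restrict_iff' measurableSet_Ioo).2 (Eventually.of_forall fun u hu => hu)
    filter_upwards [h5, hmem] with u hu hu01 hup
    have h6 : 0 ≤ hB n j p s u := by
      unfold hB
      rw [if_pos hup]
      split_ifs
      · exact div_nonneg (Fos_nonneg P.hj P.hjn hs0 (S.hsp.trans P.hp1.le)) hs0
      · exact fos_nonneg n j hu01.1.le hu01.2.le
    have h7 := mul_nonneg hc0.le h6
    linarith
  · filter_upwards [h5] with u hu hup
    have h6 : hB n j p s u = -(Fos n j p / (1 - p)) := by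
      unfold hB
      rw [if_neg (not_le.2 (lt_of_le_of_lt S.hsp hup)), if_neg (not_lt.2 hup.le)]
    rw [h6] at hu
    linarith

end basic

/-! ### The convex order family -/

section conv

variable {μ : Measure ℝ}

lemma cfam_phi (hW : IsRef W) (h : μ ∈ CFam W) :
    ∃ φ : ℝ → ℝ, ConcaveOn ℝ (SW W) φ ∧ MonotoneOn φ (SW W) ∧
      ∀ u ∈ Ioo (0:ℝ) 1, qf (cdf μ) u = φ (qf W u) := by
  have := h.1.prob
  have hF := isDF_cdf μ
  refine ⟨fun y => qf (cdf μ) (W y), concave_of_ConvLE hF hW h.2, ?_, ?_⟩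
  · intro x hx y hy hxy
    exact monotoneOn_qf hF (W_mem hx) (W_mem hy) (hW.mono hxy)
  · intro u hu
    simp only
    rw [W_qf hW hu]

/-- If the convex family is nonempty, the reference law has finite negative second moment. -/
lemma negSq_of_mem (hW : IsRef W) (h : μ ∈ CFam W) : NegSq W := by
  obtain ⟨φ, hφ, hφm, hQ⟩ := cfam_phi hW h
  have hQ2 := adm_memLp h.1
  have hQm := adm_mono h.1
  -- nonconstant
  have hne : ∃ u ∈ Ioo (0:ℝ) 1, ∃ v ∈ Ioo (0:ℝ) 1, u < v ∧ qf (cdf μ) u < qf (cdf μ) v := by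
    by_contra hcon
    push Not at hcon
    have hconst : ∀ u ∈ Ioo (0:ℝ) 1, qf (cdf μ) u = qf (cdf μ) (1/2) := by
      intro u hu
      have hh : (1/2 : ℝ) ∈ Ioo (0:ℝ) 1 := by constructor <;> norm_num
      rcases lt_trichotomy u (1/2) with h1 | h1 | h1
      · exact le_antisymm (hQm hu hh h1.le) (hcon u hu _ hh h1)
      · rw [h1]
      · exact le_antisymm (hcon _ hh u hu h1) (hQm hh hu h1.le)
    have hv := adm_var h.1
    have : varU (qf (cdf μ)) = 0 := by
      rw [varU_congr hconst]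
      unfold varU
      simp
    linarith
  obtain ⟨u, hu, v, hv, huv, hlt⟩ := hne
  obtain ⟨c, hc0, hcl, hcr⟩ := exists_support (isOpen_SW hW) hφ hφm (qf_mem_SW hW hu)
  have hcpos : 0 < c := by
    have h1 := hcr _ (qf_mem_SW hW hu) _ (qf_mem_SW hW hv) (monotoneOn_qf hW.isDF hu hv huv.le) le_rfl
    rw [← hQ u hu, ← hQ v hv] at h1
    by_contra hcon
    push Not at hcon
    have h2 : c = 0 := le_antisymm hcon hc0
    rw [h2, zero_mul] at h1
    linarith
  -- (w(u) - w(x))_+ ≤ (Q u - Q x) / c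
  have hm0 : AEMeasurable (fun x => min (qf W x) 0) uni := by
    have := aemeasurable_of_monotoneOn (monotoneOn_zc hW 0)
    exact this
  have hd1 : MemLp (fun x => (qf (cdf μ) u - qf (cdf μ) x) / c) 2 uni := by
    have h0 : MemLp (fun x => qf (cdf μ) u - qf (cdf μ) x) 2 uni :=
      (memLp_const (qf (cdf μ) u)).sub hQ2
    have h1 : MemLp (fun x => c⁻¹ * (qf (cdf μ) u - qf (cdf μ) x)) 2 uni := h0.const_mul (c⁻¹)
    have e : (fun x => (qf (cdf μ) u - qf (cdf μ) x) / c) =
        fun x => c⁻¹ * (qf (cdf μ) u - qf (cdf μ) x) := by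
      funext x; rw [div_eq_inv_mul]
    rw [e]; exact h1
  have hd2 : MemLp (fun x => |(qf (cdf μ) u - qf (cdf μ) x) / c|) 2 uni := hd1.abs
  have hd3 : MemLp (fun _ : ℝ => |qf W u|) 2 uni := memLp_const _
  have hdom : MemLp (fun x => |qf W u| + |(qf (cdf μ) u - qf (cdf μ) x) / c|) 2 uni := hd3.add hd2
  refine hdom.mono' hm0.aestronglyMeasurable ?_
  refine (ae_restrict_iff' measurableSet_Ioo).2 (Eventually.of_forall fun x hx => ?_)
  rw [Real.norm_eq_abs]
  have hle : |min (qf W x) 0| = max (-qf W x) 0 := by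
    rcases le_total (qf W x) 0 with h1 | h1
    · rw [min_eq_left h1, abs_of_nonpos h1, max_eq_left (by linarith)]
    · rw [min_eq_right h1, abs_zero, max_eq_right (by linarith)]
  rw [hle]
  refine max_le ?_ (by positivity)
  rcases le_total x u with h1 | h1
  · have h2 := hcl _ (qf_mem_SW hW hx) _ (qf_mem_SW hW hu) (monotoneOn_qf hW.isDF hx hu h1) le_rfl
    rw [← hQ u hu, ← hQ x hx] at h2
    have h3 : qf W u - qf W x ≤ (qf (cdf μ) u - qf (cdf μ) x) / c := by
      rw [le_div_iff₀ hcpos]; linarith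
    have h4 := le_abs_self ((qf (cdf μ) u - qf (cdf μ) x) / c)
    have h5 := neg_abs_le (qf W u)
    linarith
  · have h2 := monotoneOn_qf hW.isDF hu hx h1
    have h3 := neg_abs_le (qf W u)
    have h4 := abs_nonneg ((qf (cdf μ) u - qf (cdf μ) x) / c)
    linarith

lemma continuousOn_zc (hW : IsRef W) (t : ℝ) : ContinuousOn (zc W t) (Ioo 0 1) :=
  (continuousOn_qf hW).inf continuousOn_const

lemma cdf_cens (hW : IsRef W) (t : ℝ) (x : ℝ) :
    cdf (cens W t) x = if x < t then W x else 1 := by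
  have hm := monotoneOn_zc hW t
  have hlc := leftCont_of_continuousOn (continuousOn_zc hW t)
  have hp : IsProbabilityMeasure (lawOf (zc W t)) := isProbabilityMeasure_lawOf hm
  have hF := isDF_cdf (lawOf (zc W t))
  have key : ∀ u ∈ Ioo (0:ℝ) 1, (u ≤ cdf (lawOf (zc W t)) x ↔ (u ≤ W x ∨ t ≤ x)) := by
    intro u hu
    rw [le_cdf_lawOf_iff hm hlc hu]
    unfold zc
    rw [min_le_iff, qf_le_iff hW.isDF hu]
  show cdf (lawOf (zc W t)) x = _
  split_ifs with h
  · have key' : ∀ u ∈ Ioo (0:ℝ) 1, (u ≤ cdf (lawOf (zc W t)) x ↔ u ≤ W x) := by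
      intro u hu
      rw [key u hu]
      exact ⟨fun h1 => h1.resolve_right (not_le.2 h), Or.inl⟩
    refine le_antisymm ?_ ?_
    · by_contra hcon
      push Not at hcon
      obtain ⟨u, hu1, hu2⟩ := exists_between hcon
      have hu : u ∈ Ioo (0:ℝ) 1 := ⟨lt_of_le_of_lt (hW.isDF.nonneg x) hu1, lt_of_lt_of_le hu2 (hF.le_one x)⟩
      have := (key' u hu).1 hu2.le
      linarith
    · by_contra hcon
      push Not at hcon
      obtain ⟨u, hu1, hu2⟩ := exists_between hcon
      have hu : u ∈ Ioo (0:ℝ) 1 := ⟨lt_of_le_of_lt (hF.nonneg x) hu1, lt_of_lt_of_le hu2 (hW.isDF.le_one x)⟩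
      have := (key' u hu).2 hu2.le
      linarith
  · push Not at h
    refine le_antisymm (hF.le_one x) ?_
    refine le_of_forall_lt fun v hv => ?_
    obtain ⟨u, hu1, hu2⟩ := exists_between (max_lt hv zero_lt_one)
    have hu : u ∈ Ioo (0:ℝ) 1 := ⟨lt_of_le_of_lt (le_max_right _ _) hu1, hu2⟩
    have := (key u hu).2 (Or.inr h)
    have h3 := le_max_left v 0
    linarith

lemma cens_mem (hW : IsRef W) (h2 : NegSq W) {t : ℝ} (ht : t ∈ SW W) : cens W t ∈ CFam W := by
  have hm := monotoneOn_zc hW t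
  have hlc := leftCont_of_continuousOn (continuousOn_zc hW t)
  refine ⟨adm_lawOf hm hlc (memLp_zc hW h2 t) (vC_pos hW h2 ht), ?_, ?_⟩
  · have hset : {x | 0 < cdf (cens W t) x ∧ cdf (cens W t) x < 1} = SW W ∩ Iio t := by
      ext x
      simp only [mem_ofPred_eq, mem_inter_iff, mem_Iio]
      rw [cdf_cens hW t x]
      by_cases h : x < t
      · rw [if_pos h]
        exact ⟨fun h1 => ⟨h1, h⟩, fun h1 => h1.1⟩
      · rw [if_neg h]
        exact ⟨fun h1 => absurd h1.2 (lt_irrefl _), fun h1 => absurd h1.2 h⟩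
    unfold ConvLit
    rw [hset]
    refine ⟨(convex_SW hW).inter (convex_Iio t), ?_⟩
    intro x hx y hy a b ha hb hab
    have hxy : a • x + b • y ∈ SW W ∩ Iio t := ((convex_SW hW).inter (convex_Iio t)) hx hy ha hb hab
    simp only
    rw [cdf_cens hW, cdf_cens hW, cdf_cens hW, if_pos (Set.mem_Iio.1 hx.2),
      if_pos (Set.mem_Iio.1 hy.2), if_pos (Set.mem_Iio.1 hxy.2),
      qf_W hW hx.1, qf_W hW hy.1, qf_W hW hxy.1]
  · intro x hx
    rw [cdf_cens hW] at hx
    -- it suffices to find y < x, y < t with 0 < W y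
    have key : ∀ z : ℝ, 0 < W z → ∃ y, y < z ∧ 0 < W y := by
      intro z hz
      have h1 : ∀ᶠ y in 𝓝[<] z, 0 < W y :=
        (hW.cont.continuousWithinAt (s := Iio z) (x := z)).eventually (lt_mem_nhds hz)
      obtain ⟨y, hy1, hy2⟩ := (h1.and self_mem_nhdsWithin).exists
      exact ⟨y, hy2, hy1⟩
    by_cases h : x < t
    · rw [if_pos h] at hx
      obtain ⟨y, hy1, hy2⟩ := key x hx
      exact ⟨y, hy1, by rw [cdf_cens hW, if_pos (hy1.trans h)]; exact hy2⟩
    · push Not at h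
      obtain ⟨y, hy1, hy2⟩ := key t ht.1
      exact ⟨y, lt_of_lt_of_le hy1 h, by rw [cdf_cens hW, if_pos hy1]; exact hy2⟩

lemma qf_cens (hW : IsRef W) (t : ℝ) {u : ℝ} (hu : u ∈ Ioo (0:ℝ) 1) :
    qf (cdf (cens W t)) u = min (qf W u) t :=
  qf_lawOf (monotoneOn_zc hW t) (leftCont_of_continuousOn (continuousOn_zc hW t)) hu

lemma bias_cens (hW : IsRef W) {n j : ℕ} {p : ℝ} (P : Par n j p) (t : ℝ) :
    bias n j p (cens W t) =
      ((∫ u in Ioo (0:ℝ) 1, zc W t u * fos n j u) - min (qf W p) t) / Real.sqrt (vC W t) :=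
  bias_lawOf (monotoneOn_zc hW t) (leftCont_of_continuousOn (continuousOn_zc hW t)) P

lemma bias_cens_ge (hW : IsRef W) {n j : ℕ} {p : ℝ} (P : Par n j p) {t : ℝ} (ht : qf W p ≤ t) :
    bias n j p (cens W t) = KC W n j p t / Real.sqrt (vC W t) := by
  rw [bias_cens hW P, min_eq_left ht]
  rfl

lemma sqrt_mul_self_div {a v : ℝ} (hv : 0 < v) : a / v * Real.sqrt v = a / Real.sqrt v := by
  have h := Real.sqrt_pos.2 hv
  rw [div_mul_eq_mul_div, div_eq_div_iff hv.ne' h.ne', mul_assoc, Real.mul_self_sqrt hv.le]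

/-- Upper bound over the convex family from the first order condition. -/
lemma conv_upper_bound (hW : IsRef W) {n j : ℕ} {p t : ℝ} (P : Par n j p) (h2 : NegSq W)
    (T : FOC W n j p t (KC W n j p t / vC W t)) (h : μ ∈ CFam W) :
    bias n j p μ ≤ KC W n j p t / Real.sqrt (vC W t) := by
  obtain ⟨φ, hφ, hφm, hQ⟩ := cfam_phi hW h
  rw [bias_le_iff h.1 P]
  have hv := vC_pos hW h2 T.mem
  have h1 := upper_convex hW h2 P T hφ hφm hQ (adm_memLp h.1)
  have hz := memLp_zc hW h2 t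
  have hz2 : MemLp (fun u => zc W t u - mC W t) 2 uni := hz.sub (memLp_const _)
  have h3 := cs_bound (μ := uni) (adm_memLp h.1) hz2 (int_zc_centered hW h2 t)
  have h4 := mul_le_mul_of_nonneg_left h3 T.κ0
  have e1 : ∫ u in Ioo (0:ℝ) 1, (zc W t u - mC W t) ^ 2 = vC W t := rfl
  rw [e1] at h4
  have e2 : KC W n j p t / vC W t * (Real.sqrt (varU (qf (cdf μ))) * Real.sqrt (vC W t)) =
      Real.sqrt (varU (qf (cdf μ))) * (KC W n j p t / Real.sqrt (vC W t)) := by
    rw [← sqrt_mul_self_div hv]; ring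
  calc _ ≤ _ := h1
    _ ≤ KC W n j p t / vC W t * (Real.sqrt (varU (qf (cdf μ))) * Real.sqrt (vC W t)) := h4
    _ = _ := e2

/-- Continuity of the quantile function in the convex family. -/
lemma cfam_cont (hW : IsRef W) (h : μ ∈ CFam W) : ContinuousOn (qf (cdf μ)) (Ioo 0 1) := by
  obtain ⟨φ, hφ, hφm, hQ⟩ := cfam_phi hW h
  have h1 : ContinuousOn φ (SW W) := by
    have := ConvexOn.continuousOn (isOpen_SW hW) hφ.neg
    have h2 := this.neg
    simpa using h2
  have h2 : ContinuousOn (fun u => φ (qf W u)) (Ioo 0 1) :=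
    h1.comp (continuousOn_qf hW) fun u hu => qf_mem_SW hW hu
  exact h2.congr hQ

lemma eq_of_ae_eq_cont {g h : ℝ → ℝ} (hg : ContinuousOn g (Ioo 0 1)) (hh : ContinuousOn h (Ioo 0 1))
    (hae : ∀ᵐ u ∂uni, g u = h u) : ∀ u ∈ Ioo (0:ℝ) 1, g u = h u := by
  intro u hu
  by_contra hne
  have hc : ContinuousAt (fun v => g v - h v) u :=
    (hg.continuousAt (Ioo_mem_nhds hu.1 hu.2)).sub (hh.continuousAt (Ioo_mem_nhds hu.1 hu.2))
  have h1 : ∀ᶠ v in 𝓝 u, g v - h v ≠ 0 := hc.eventually_ne (sub_ne_zero.2 hne)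
  obtain ⟨ε, hε, hball⟩ := Metric.eventually_nhds_iff.1 h1
  obtain ⟨v, hv, hgv⟩ := exists_in_of_ae hae (a := u) (b := min 1 (u + ε)) hu.1.le
    (lt_min hu.2 (by linarith)) (min_le_left _ _)
  have h2 := hball (show dist v u < ε by
    rw [Real.dist_eq, abs_lt]
    have := lt_of_lt_of_le hv.2 (min_le_right _ _)
    constructor <;> linarith [hv.1])
  exact h2 (by rw [hgv]; ring)

/-- Laws attaining the upper bound over the convex family. -/
lemma conv_upper_unique (hW : IsRef W) {n j : ℕ} {p t : ℝ} (P : Par n j p) (h2 : NegSq W)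
    (T : FOC W n j p t (KC W n j p t / vC W t)) (hK : 0 < KC W n j p t) (h : μ ∈ CFam W)
    (heq : bias n j p μ = KC W n j p t / Real.sqrt (vC W t)) :
    ∃ b c : ℝ, 0 < c ∧ ∀ u ∈ Ioo (0:ℝ) 1, qf (cdf μ) u = b + c * min (qf W u) t := by
  obtain ⟨φ, hφ, hφm, hQ⟩ := cfam_phi hW h
  have hv := vC_pos hW h2 T.mem
  have h1 := upper_convex hW h2 P T hφ hφm hQ (adm_memLp h.1)
  have hz := memLp_zc hW h2 t
  have hz2 : MemLp (fun u => zc W t u - mC W t) 2 uni := hz.sub (memLp_const _)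
  have h3 := cs_bound (μ := uni) (adm_memLp h.1) hz2 (int_zc_centered hW h2 t)
  have e1 : ∫ u in Ioo (0:ℝ) 1, (zc W t u - mC W t) ^ 2 = vC W t := rfl
  have hb := bias_mul h.1 P
  rw [heq] at hb
  have hκ : 0 < KC W n j p t / vC W t := div_pos hK hv
  rw [e1] at h3
  have e2 : KC W n j p t / vC W t * (Real.sqrt (varU (qf (cdf μ))) * Real.sqrt (vC W t)) =
      Real.sqrt (varU (qf (cdf μ))) * (KC W n j p t / Real.sqrt (vC W t)) := by
    rw [← sqrt_mul_self_div hv]; ring
  have h4 : Real.sqrt (varU (qf (cdf μ))) * Real.sqrt (vC W t) ≤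
      ∫ u in Ioo (0:ℝ) 1, qf (cdf μ) u * (zc W t u - mC W t) := by
    rw [← hb, ← e2] at h1
    exact le_of_mul_le_mul_left h1 hκ
  have h5 := cs_equality (μ := uni) (adm_memLp h.1) hz2 (int_zc_centered hW h2 t)
    (by rw [e1]; exact hv) (by rw [e1]; exact le_antisymm h3 h4)
  rw [e1] at h5
  set m := ∫ v in Ioo (0:ℝ) 1, qf (cdf μ) v with hm
  set c := Real.sqrt (∫ u in Ioo (0:ℝ) 1, (qf (cdf μ) u - m) ^ 2) / Real.sqrt (vC W t) with hc
  have hc0 : 0 < c := div_pos (Real.sqrt_pos.2 (adm_var h.1)) (Real.sqrt_pos.2 hv)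
  refine ⟨m - c * mC W t, c, hc0, ?_⟩
  have h6 := eq_of_ae_eq_cont (cfam_cont hW h)
    (h := fun u => m + c * (zc W t u - mC W t))
    (continuousOn_const.add (continuousOn_const.mul ((continuousOn_zc hW t).sub continuousOn_const))) h5
  intro u hu
  rw [h6 u hu]
  show m + c * (zc W t u - mC W t) = m - c * mC W t + c * zc W t u
  ring

/-- Uniqueness of the optimal censoring level. -/
lemma FOC_unique (hW : IsRef W) {n j : ℕ} {p t t' : ℝ} (P : Par n j p) (h2 : NegSq W)
    (T : FOC W n j p t (KC W n j p t / vC W t)) (hK : 0 < KC W n j p t)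
    (T' : FOC W n j p t' (KC W n j p t' / vC W t')) (hK' : 0 < KC W n j p t') : t = t' := by
  have b1 := bias_cens_ge hW P T.lt.le
  have b2 := bias_cens_ge hW P T'.lt.le
  have c1 := conv_upper_bound hW P h2 T (cens_mem hW h2 T'.mem)
  have c2 := conv_upper_bound hW P h2 T' (cens_mem hW h2 T.mem)
  -- general: if t < t' then contradiction
  have key : ∀ s s' : ℝ, FOC W n j p s (KC W n j p s / vC W s) → 0 < KC W n j p s →
      s' ∈ SW W → s < s' → bias n j p (cens W s') = KC W n j p s / Real.sqrt (vC W s) → False := by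
    intro s s' Ts hKs hs' hss heq
    obtain ⟨b, c, hc, hall⟩ := conv_upper_unique hW P h2 Ts hKs (cens_mem hW h2 hs') heq
    have hWs := W_mem Ts.mem
    have hWs' := W_mem hs'
    have hlt : W s < W s' := hW.strict Ts.mem hs' hss
    obtain ⟨u, hu1, hu2⟩ := exists_between hlt
    obtain ⟨v, hv1, hv2⟩ := exists_between hu2
    have hu : u ∈ Ioo (0:ℝ) 1 := ⟨hWs.1.trans hu1, hu2.trans hWs'.2⟩
    have hv : v ∈ Ioo (0:ℝ) 1 := ⟨hu.1.trans hv1, hv2.trans hWs'.2⟩
    have e1 := hall u hu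
    have e2 := hall v hv
    rw [qf_cens hW s' hu] at e1
    rw [qf_cens hW s' hv] at e2
    have a1 : s < qf W u := (lt_qf_iff hW hu s).2 hu1
    have a2 : s < qf W v := (lt_qf_iff hW hv s).2 (hu1.trans hv1)
    have a3 : qf W u < s' := (qf_lt_iff hW hu hs').2 hu2
    have a4 : qf W v < s' := (qf_lt_iff hW hv hs').2 hv2
    rw [min_eq_left a3.le, min_eq_right a1.le] at e1
    rw [min_eq_left a4.le, min_eq_right a2.le] at e2
    have := strictMonoOn_qf hW hu hv hv1
    linarith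
  rcases lt_trichotomy t t' with h | h | h
  · exfalso
    refine key t t' T hK T'.mem h ?_
    rw [b2]; rw [b2] at c1; rw [b1] at c2
    exact le_antisymm c1 c2
  · exact h
  · exfalso
    refine key t' t T' hK' T.mem h ?_
    rw [b1]; rw [b2] at c1; rw [b1] at c2
    exact le_antisymm c2 c1

/-- The degenerate case of the upper bound. -/
lemma conv_upper_zero (hW : IsRef W) {n j : ℕ} {p : ℝ} (P : Par n j p)
    (hK : ∀ t ∈ SW W, KC W n j p t ≤ 0) (h : μ ∈ CFam W) : bias n j p μ ≤ 0 := by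
  have hpm : p ∈ Ioo (0:ℝ) 1 := ⟨P.hp0, P.hp1⟩
  have hpS := qf_mem_SW hW hpm
  obtain ⟨φ, hφ, hφm, hQ⟩ := cfam_phi hW h
  have h2 := negSq_of_mem hW h
  have hQ2 := adm_memLp h.1
  rw [bias_le_iff h.1 P, mul_zero]
  obtain ⟨c, hc0, hcl, hcr⟩ := exists_support (isOpen_SW hW) hφ hφm hpS
  -- truncated functions
  let t : ℕ → ℝ := fun k => qf W (1 - (1 - p) / ((k : ℝ) + 2))
  have hp1 : 0 < 1 - p := by linarith [P.hp1]
  have hk : ∀ k : ℕ, (1 - (1 - p) / ((k : ℝ) + 2)) ∈ Ioo (0:ℝ) 1 ∧ p < 1 - (1 - p) / ((k : ℝ) + 2) := by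
    intro k
    have hk2 : (0:ℝ) < (k : ℝ) + 2 := by positivity
    have h3 : (1 - p) / ((k : ℝ) + 2) < 1 - p := by
      rw [div_lt_iff₀ hk2]
      have : (0:ℝ) ≤ k := Nat.cast_nonneg k
      nlinarith
    have h4 : 0 < (1 - p) / ((k : ℝ) + 2) := by positivity
    refine ⟨⟨?_, ?_⟩, ?_⟩
    · linarith [P.hp0]
    · linarith
    · linarith
  have htS : ∀ k, t k ∈ SW W := fun k => qf_mem_SW hW (hk k).1
  have hpt : ∀ k, qf W p < t k := fun k => strictMonoOn_qf hW hpm (hk k).1 (hk k).2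
  let Q := qf (cdf μ)
  let q : ℕ → ℝ → ℝ := fun k u => φ (min (qf W u) (t k))
  have hqmem : ∀ k, ∀ u ∈ Ioo (0:ℝ) 1, min (qf W u) (t k) ∈ SW W := by
    intro k u hu
    rcases le_total (qf W u) (t k) with h3 | h3
    · rw [min_eq_left h3]; exact qf_mem_SW hW hu
    · rw [min_eq_right h3]; exact htS k
  have hqm : ∀ k, MonotoneOn (q k) (Ioo 0 1) := by
    intro k u hu v hv huv
    exact hφm (hqmem k u hu) (hqmem k v hv) (min_le_min_right _ (monotoneOn_qf hW.isDF hu hv huv))
  have hQp : Q p = φ (qf W p) := hQ p hpm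
  -- bounds
  have hqbd : ∀ k, ∀ u ∈ Ioo (0:ℝ) 1, |q k u| ≤ |Q u| + |Q p| := by
    intro k u hu
    rcases le_total (qf W u) (t k) with h3 | h3
    · have : q k u = Q u := by
        show φ (min (qf W u) (t k)) = qf (cdf μ) u
        rw [min_eq_left h3, hQ u hu]
      rw [this]; linarith [abs_nonneg (Q p)]
    · -- Q p ≤ q k u ≤ Q u
      have a1 : q k u ≤ Q u := by
        show φ (min (qf W u) (t k)) ≤ qf (cdf μ) u
        rw [hQ u hu]
        exact hφm (hqmem k u hu) (qf_mem_SW hW hu) (min_le_left _ _)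
      have a2 : Q p ≤ q k u := by
        rw [hQp]
        show _ ≤ φ (min (qf W u) (t k))
        rw [min_eq_right h3]
        exact hφm hpS (htS k) (hpt k).le
      rw [abs_le]
      constructor
      · have := neg_abs_le (Q p); linarith [abs_nonneg (Q u)]
      · have := le_abs_self (Q u); linarith [abs_nonneg (Q p)]
  have hlim : ∀ u ∈ Ioo (0:ℝ) 1, Tendsto (fun k => q k u) atTop (𝓝 (Q u)) := by
    intro u hu
    refine tendsto_const_nhds.congr' ?_
    have h3 : Tendsto (fun k : ℕ => 1 - (1 - p) / ((k : ℝ) + 2)) atTop (𝓝 (1 - 0)) := by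
      refine tendsto_const_nhds.sub ?_
      exact tendsto_const_nhds.div_atTop (tendsto_natCast_atTop_atTop.atTop_add tendsto_const_nhds)
    rw [sub_zero] at h3
    filter_upwards [h3.eventually (lt_mem_nhds hu.2)] with k hk3
    show qf (cdf μ) u = φ (min (qf W u) (t k))
    rw [min_eq_left (monotoneOn_qf hW.isDF hu (hk k).1 hk3.le), hQ u hu]
  have hq2 : ∀ k, MemLp (q k) 2 uni := by
    intro k
    refine MemLp.mono' (hQ2.abs.add (memLp_const |Q p|)) (aemeasurable_of_monotoneOn (hqm k)).aestronglyMeasurable ?_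
    refine (ae_restrict_iff' measurableSet_Ioo).2 (Eventually.of_forall fun u hu => ?_)
    rw [Real.norm_eq_abs]; exact hqbd k u hu
  have hlimint : Tendsto (fun k => ∫ u in Ioo (0:ℝ) 1, q k u * fos n j u) atTop
      (𝓝 (∫ u in Ioo (0:ℝ) 1, Q u * fos n j u)) := by
    refine tendsto_integral_of_dominated_convergence (fun u => (|Q u| + |Q p|) * |fos n j u|)
      (fun k => (hq2 k).aestronglyMeasurable.mul (memLp_fos n j).aestronglyMeasurable)
      ((hQ2.abs.add (memLp_const |Q p|)).integrable_mul (memLp_fos n j).abs) (fun k => ?_) ?_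
    · refine (ae_restrict_iff' measurableSet_Ioo).2 (Eventually.of_forall fun u hu => ?_)
      rw [Real.norm_eq_abs, abs_mul]
      exact mul_le_mul_of_nonneg_right (hqbd k u hu) (abs_nonneg _)
    · refine (ae_restrict_iff' measurableSet_Ioo).2 (Eventually.of_forall fun u hu => ?_)
      exact (hlim u hu).mul_const _
  have hle : ∀ k, ∫ u in Ioo (0:ℝ) 1, q k u * fos n j u ≤ Q p := by
    intro k
    have i1 : IntegrableOn (fun u => q k u * fos n j u) (Ioo (0:ℝ) 1) := integrable_mul_fos (hq2 k) n j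
    have i3 : IntegrableOn (fos n j) (Ioo (0:ℝ) 1) := integrableOn_fos n j 0 1
    have i4 : IntegrableOn (fun u => zc W (t k) u * fos n j u) (Ioo (0:ℝ) 1) :=
      integrable_mul_fos (memLp_zc hW h2 (t k)) n j
    have h3 : ∫ u in Ioo (0:ℝ) 1, q k u * fos n j u ≤
        ∫ u in Ioo (0:ℝ) 1, ((Q p - c * qf W p) * fos n j u + c * (zc W (t k) u * fos n j u)) := by
      refine setIntegral_mono_on i1 ((i3.const_mul _).add (i4.const_mul _)) measurableSet_Ioo
        fun u hu => ?_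
      have h4 : q k u ≤ Q p + c * (zc W (t k) u - qf W p) := by
        show φ (min (qf W u) (t k)) ≤ Q p + c * (min (qf W u) (t k) - qf W p)
        rw [hQp]
        rcases le_total (min (qf W u) (t k)) (qf W p) with h5 | h5
        · have := hcl _ (hqmem k u hu) _ hpS h5 le_rfl
          linarith
        · have := hcr _ hpS _ (hqmem k u hu) h5 le_rfl
          linarith
      have h5 := mul_le_mul_of_nonneg_right h4 (fos_nonneg n j hu.1.le hu.2.le)
      linarith
    rw [integral_add (i3.const_mul _) (i4.const_mul _), integral_const_mul, integral_const_mul,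
      int_fos_one P.hj P.hjn] at h3
    have h4 := hK (t k) (htS k)
    unfold KC at h4
    nlinarith
  have := le_of_tendsto' hlimint hle
  show (∫ u in Ioo (0:ℝ) 1, Q u * fos n j u) - Q p ≤ 0
  linarith

/-- Censoring near the left end gives a bias close to zero. -/
lemma bias_cens_near (hW : IsRef W) (h2 : NegSq W) {n j : ℕ} {p : ℝ} (P : Par n j p) {ε : ℝ}
    (hε : 0 < ε) : ∃ u0 ∈ Ioo (0:ℝ) 1, ∀ u ∈ Ioo 0 u0, -ε < bias n j p (cens W (qf W u)) := by
  have hpm : p ∈ Ioo (0:ℝ) 1 := ⟨P.hp0, P.hp1⟩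
  obtain ⟨B, hB⟩ := exists_bound_fos n j
  -- choose u small
  set u0 := min (p / 2) ((ε / (2 * (|B| + 1))) ^ 2 / 2) with hu
  have hB1 : 0 < |B| + 1 := by positivity
  have hu00 : 0 < u0 := lt_min (by linarith [P.hp0]) (by positivity)
  have hu0p : u0 < p := lt_of_le_of_lt (min_le_left _ _) (by linarith [P.hp0])
  have hu01 : u0 < 1 / 2 := lt_of_le_of_lt (min_le_left _ _) (by linarith [P.hp1])
  refine ⟨u0, ⟨hu00, by linarith⟩, fun u hu' => ?_⟩
  have hu0 : 0 < u := hu'.1
  have huu := hu'.2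
  have hup : u < p := huu.trans hu0p
  have hu1 : u < 1 / 2 := huu.trans hu01
  have hum : u ∈ Ioo (0:ℝ) 1 := ⟨hu0, by linarith⟩
  set t := qf W u with ht
  have htS := qf_mem_SW hW hum
  have hWt : W t = u := W_qf hW hum
  have hv := vC_pos hW h2 htS
  have htp : t ≤ qf W p := monotoneOn_qf hW.isDF hum hpm hup.le
  rw [bias_cens hW P, min_eq_right htp]
  have hpc2 := memLp_pc hW h2 t
  have hz := memLp_zc hW h2 t
  -- numerator = - b1
  have e1 : (∫ v in Ioo (0:ℝ) 1, zc W t v * fos n j v) - t = - b1 W n j t := by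
    have := KC_eq hW h2 P t
    unfold KC at this
    linarith
  rw [e1]
  -- pc vanishes past u
  have hvan : ∀ v ∈ Ioo (0:ℝ) 1, u ≤ v → pc W t v = 0 := by
    intro v hv' huv
    unfold pc
    rw [max_eq_right]
    have := monotoneOn_qf hW.isDF hum hv' huv
    linarith
  -- b1 ≤ |B| a1, a1 ^ 2 ≤ u a2
  have hb1 : b1 W n j t ≤ |B| * a1 W t := by
    unfold b1 a1
    rw [← integral_const_mul]
    refine setIntegral_mono_on (hpc2.integrable_mul (memLp_fos n j))
      ((hpc2.integrable (by norm_num)).const_mul _) measurableSet_Ioo fun v hv' => ?_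
    rw [mul_comm]
    refine mul_le_mul_of_nonneg_right ?_ (pc_nonneg _ _)
    exact ((le_abs_self _).trans (hB v ⟨hv'.1.le, hv'.2.le⟩)).trans (le_abs_self _)
  have ha1 : a1 W t ^ 2 ≤ u * a2 W t := by
    -- Cauchy-Schwarz with the indicator of (0,u)
    have ha2 : 0 ≤ a2 W t := integral_nonneg fun v => sq_nonneg _
    have key : ∀ c : ℝ, 0 ≤ a2 W t - 2 * c * a1 W t + c ^ 2 * u := by
      intro c
      have hi1 : IntegrableOn (pc W t) (Ioo 0 1) := hpc2.integrable (by norm_num)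
      have hi2 : IntegrableOn (fun v => pc W t v ^ 2) (Ioo 0 1) := hpc2.integrable_sq
      have s1 := split_uni hu0 hum.2 hi1
      have s2 := split_uni hu0 hum.2 hi2
      have z1 : ∫ v in Ioo u 1, pc W t v = 0 := by
        rw [int_Ioo_congr (h := fun _ => 0)]; · simp
        intro v hv'
        exact hvan v ⟨hu0.trans hv'.1, hv'.2⟩ hv'.1.le
      have z2 : ∫ v in Ioo u 1, pc W t v ^ 2 = 0 := by
        rw [int_Ioo_congr (h := fun _ => 0)]; · simp
        intro v hv'
        rw [hvan v ⟨hu0.trans hv'.1, hv'.2⟩ hv'.1.le]; ring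
      have hsub : Ioo 0 u ⊆ Ioo (0:ℝ) 1 := Ioo_subset_Ioo_right hum.2.le
      have h3 : 0 ≤ ∫ v in Ioo 0 u, (pc W t v - c) ^ 2 := integral_nonneg fun v => sq_nonneg _
      have e : ∀ v, (pc W t v - c) ^ 2 = (pc W t v ^ 2 - 2 * c * pc W t v) + c ^ 2 := fun v => by ring
      simp only [e] at h3
      have j1 : IntegrableOn (fun v => pc W t v ^ 2 - 2 * c * pc W t v) (Ioo 0 u) :=
        (hi2.mono_set hsub).sub ((hi1.mono_set hsub).const_mul _)
      rw [integral_add j1 (integrableOn_cst 0 u _), integral_sub (hi2.mono_set hsub)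
        ((hi1.mono_set hsub).const_mul _), integral_const_mul, int_const_Ioo hu0.le] at h3
      have f1 : a1 W t = ∫ v in Ioo 0 u, pc W t v := by unfold a1; rw [s1, z1, add_zero]
      have f2 : a2 W t = ∫ v in Ioo 0 u, pc W t v ^ 2 := by unfold a2; rw [s2, z2, add_zero]
      rw [f1, f2]; linarith
    have h4 := key (a1 W t / u)
    have h5 : a2 W t - 2 * (a1 W t / u) * a1 W t + (a1 W t / u) ^ 2 * u = a2 W t - a1 W t ^ 2 / u := by
      field_simp; ring
    rw [h5] at h4
    have h6 : a1 W t ^ 2 / u ≤ a2 W t := by linarith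
    rwa [div_le_iff₀ hu0, mul_comm] at h6
  have hvar : vC W t = a2 W t - a1 W t ^ 2 := vC_eq2 hW h2 t
  have ha1n : 0 ≤ a1 W t := integral_nonneg fun v => pc_nonneg _ _
  -- a1^2 ≤ 2 u vC
  have h7 : a1 W t ^ 2 ≤ 2 * u * vC W t := by
    rw [hvar]
    nlinarith [sq_nonneg (a1 W t)]
  have h8 : a1 W t ≤ Real.sqrt (2 * u) * Real.sqrt (vC W t) := by
    rw [← Real.sqrt_mul (by positivity)]
    exact Real.le_sqrt_of_sq_le h7
  have h9 : Real.sqrt (2 * u) ≤ ε / (2 * (|B| + 1)) := by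
    rw [Real.sqrt_le_left (by positivity)]
    have := min_le_right (p / 2) ((ε / (2 * (|B| + 1))) ^ 2 / 2)
    rw [← hu] at this
    linarith
  have hsv := Real.sqrt_pos.2 hv
  rw [lt_div_iff₀ hsv]
  have h10 : b1 W n j t ≤ |B| * (ε / (2 * (|B| + 1)) * Real.sqrt (vC W t)) :=
    hb1.trans (mul_le_mul_of_nonneg_left (h8.trans (mul_le_mul_of_nonneg_right h9 hsv.le)) (abs_nonneg _))
  have h11 : |B| * (ε / (2 * (|B| + 1)) * Real.sqrt (vC W t)) ≤ ε / 2 * Real.sqrt (vC W t) := by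
    have h12 : |B| * (ε / (2 * (|B| + 1))) ≤ ε / 2 := by
      rw [mul_div_assoc', div_le_div_iff₀ (by positivity) (by norm_num)]
      nlinarith [abs_nonneg B]
    nlinarith
  nlinarith

lemma bias_cens_small (hW : IsRef W) (h2 : NegSq W) {n j : ℕ} {p : ℝ} (P : Par n j p) {ε : ℝ}
    (hε : 0 < ε) : ∃ t ∈ SW W, -ε < bias n j p (cens W t) := by
  obtain ⟨u0, hu0, h⟩ := bias_cens_near hW h2 P hε
  refine ⟨qf W (u0 / 2), qf_mem_SW hW ⟨by linarith [hu0.1], by linarith [hu0.2, hu0.1]⟩, ?_⟩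
  exact h _ ⟨by linarith [hu0.1], by linarith [hu0.1]⟩

/-- Lower bound over the convex family, closed form case. -/
lemma conv_lower_bound (hW : IsRef W) {n j : ℕ} {p : ℝ} (P : Par n j p)
    (hp : Fos n j p ≤ p * fos n j p) (h : μ ∈ CFam W) :
    KC W n j p (qf W p) / Real.sqrt (vC W (qf W p)) ≤ bias n j p μ := by
  have hpm : p ∈ Ioo (0:ℝ) 1 := ⟨P.hp0, P.hp1⟩
  obtain ⟨φ, hφ, hφm, hQ⟩ := cfam_phi hW h
  have h2 := negSq_of_mem hW h
  rw [le_bias_iff h.1 P]
  set t := qf W p with ht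
  have hv := vC_pos hW h2 (qf_mem_SW hW hpm)
  have hK := KC_qf_neg hW h2 P
  have h1 := lower_convex hW h2 P hp hφ hφm hQ (adm_memLp h.1)
  have hz := memLp_zc hW h2 t
  have hz2 : MemLp (fun u => zc W t u - mC W t) 2 uni := hz.sub (memLp_const _)
  have h3 := cs_bound (μ := uni) (adm_memLp h.1) hz2 (int_zc_centered hW h2 t)
  have e1 : ∫ u in Ioo (0:ℝ) 1, (zc W t u - mC W t) ^ 2 = vC W t := rfl
  rw [e1] at h3
  have hκ : 0 < -KC W n j p t / vC W t := div_pos (by linarith) hv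
  have h4 := mul_le_mul_of_nonneg_left h3 hκ.le
  have e2 : -KC W n j p t / vC W t * (Real.sqrt (varU (qf (cdf μ))) * Real.sqrt (vC W t)) =
      -(Real.sqrt (varU (qf (cdf μ))) * (KC W n j p t / Real.sqrt (vC W t))) := by
    rw [← sqrt_mul_self_div hv]; ring
  rw [← ht] at h1
  have h5 : -KC W n j p t / vC W t * (∫ u in Ioo (0:ℝ) 1, qf (cdf μ) u * (zc W t u - mC W t)) ≤
      -(Real.sqrt (varU (qf (cdf μ))) * (KC W n j p t / Real.sqrt (vC W t))) := by
    rw [← e2]; exact h4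
  linarith

end conv

end

end Pool.Agent.Lib.QBias
end
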