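import Pool.Agent.Lib.MP_c5814c_pr.Mg.G008

section

/-!
The lower bound over the convex order family in general: existence of the extremal law, uniqueness
and the extremality conditions.
-/

set_option autoImplicit false

namespace Pool.Agent.Lib.QBias

open MeasureTheory ProbabilityTheory Set Filter Topology

noncomputable section

variable {W : ℝ → ℝ}

/-- Test against concave nondecreasing functions from tests against `(t - y)_+`. -/
lemma conc_test (hW : IsRef W) {φ h : ℝ → ℝ} {w : ℝ} (hw : w ∈ SW W)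
    (hφ : ConcaveOn ℝ (SW W) φ) (hφm : MonotoneOn φ (SW W)) (hh : MemLp h 2 uni)
    (hQ : MemLp (fun u => φ (qf W u)) 2 uni) (h2 : NegSq W)
    (htest : ∀ t ∈ SW W, t ≤ w → ∫ u in Ioo (0:ℝ) 1, pc W t u * h u ≤ 0) :
    ∫ u in Ioo (0:ℝ) 1, (φ w - min (φ (qf W u)) (φ w)) * h u ≤ 0 := by
  classical
  have hop := isOpen_SW hW
  have hint : interior (SW W) = SW W := hop.interior_eq
  have hoc := ordConnected_SW hW
  -- right derivative
  let d : ℝ → ℝ := fun s => -derivWithin (fun x => -φ x) (Ioi s) s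
  have hcx : ConvexOn ℝ (SW W) (fun x => -φ x) := hφ.neg
  have hder : ∀ s ∈ SW W, HasDerivWithinAt φ (d s) (Ioi s) s := by
    intro s hs
    have h1 := hcx.hasDerivWithinAt_rightDeriv_of_mem_interior (x := s) (by rw [hint]; exact hs)
    have h3 := h1.neg
    have e : (-fun x => -φ x) = φ := by funext x; simp
    rw [e] at h3
    exact h3
  have hd_anti : AntitoneOn d (SW W) := by
    have h1 := hcx.monotoneOn_rightDeriv
    rw [hint] at h1
    intro x hx y hy hxy
    have := h1 hx hy hxy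
    show -derivWithin (fun x => -φ x) (Ioi y) y ≤ -derivWithin (fun x => -φ x) (Ioi x) x
    simp only at this
    linarith
  have hd0 : ∀ s ∈ SW W, 0 ≤ d s := by
    intro s hs
    have h1 := (hasDerivWithinAt_iff_tendsto_slope' (self_notMem_Ioi)).1 (hder s hs)
    have h3 : ∀ᶠ y in 𝓝[>] s, y ∈ SW W := mem_nhdsWithin_of_mem_nhds (hop.mem_nhds hs)
    refine ge_of_tendsto h1 ?_
    filter_upwards [h3, self_mem_nhdsWithin] with y hy hsy
    rw [slope_def_field]
    have hsy' : s < y := hsy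
    exact div_nonneg (sub_nonneg.2 (hφm hs hy hsy'.le)) (by linarith)
  have hφc : ContinuousOn φ (SW W) := by
    have h1 : ContinuousOn (fun x => -φ x) (SW W) := ConvexOn.continuousOn hop hcx
    exact (h1.neg).congr fun x _ => by simp
  -- FTC
  have hdi : ∀ y ∈ SW W, y ≤ w → IntervalIntegrable d volume y w := by
    intro y hy hyw
    refine (hd_anti.mono ?_).intervalIntegrable
    rw [uIcc_of_le hyw]
    exact hoc.out hy hw
  have hftc : ∀ y ∈ SW W, y ≤ w → ∫ s in y..w, d s = φ w - φ y := by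
    intro y hy hyw
    refine intervalIntegral.integral_eq_sub_of_hasDeriv_right_of_le hyw
      (hφc.mono (hoc.out hy hw)) (fun x hx => hder x (hoc.out hy hw ⟨hx.1.le, hx.2.le⟩)) (hdi y hy hyw)
  -- the level sets
  let S : ℕ → ℕ → Set ℝ := fun N k => {s | (s ∈ SW W ∧ s < w) ∧ (k : ℝ) ≤ N * d s}
  have hSlow : ∀ N k, ∀ s ∈ S N k, ∀ r ∈ SW W, r ≤ s → r ∈ S N k := by
    intro N k s hs r hr hrs
    refine ⟨⟨hr, lt_of_le_of_lt hrs hs.1.2⟩, hs.2.trans ?_⟩
    exact mul_le_mul_of_nonneg_left (hd_anti hr hs.1.1 hrs) (Nat.cast_nonneg N)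
  have hSmeas : ∀ N k, MeasurableSet (S N k) := by
    intro N k
    have : OrdConnected (S N k) := by
      refine ⟨fun x hx y hy z hz => ?_⟩
      exact hSlow N k y hy z (hoc.out hx.1.1 hy.1.1 hz) hz.2
    exact this.measurableSet
  have hSbdd : ∀ N k, BddAbove (S N k) := fun N k => ⟨w, fun s hs => hs.1.2.le⟩
  let τ : ℕ → ℕ → ℝ := fun N k => sSup (S N k)
  have hτle : ∀ N k, (S N k).Nonempty → τ N k ≤ w := fun N k hne => csSup_le hne fun s hs => hs.1.2.le
  have hτmem : ∀ N k, (S N k).Nonempty → τ N k ∈ SW W := by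
    intro N k hne
    obtain ⟨s, hs⟩ := hne
    exact hoc.out hs.1.1 hw ⟨le_csSup (hSbdd N k) hs, hτle N k ⟨s, hs⟩⟩
  let T : ℕ → ℕ → ℝ → ℝ := fun N k y => if (S N k).Nonempty then max (τ N k - y) 0 else 0
  have hT0 : ∀ N k y, 0 ≤ T N k y := by
    intro N k y
    show 0 ≤ if (S N k).Nonempty then max (τ N k - y) 0 else 0
    split_ifs
    · exact le_max_right _ _
    · exact le_rfl
  -- T as an integral
  have hTint : ∀ N k, ∀ y ∈ SW W, y ≤ w → T N k y = ∫ s in Ioo y w, (S N k).indicator (fun _ => (1:ℝ)) s := by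
    intro N k y hy hyw
    rw [setIntegral_indicator (hSmeas N k)]
    show (if (S N k).Nonempty then max (τ N k - y) 0 else 0) = _
    split_ifs with hne
    · rcases le_or_gt (τ N k) y with h1 | h1
      · have hemp : Ioo y w ∩ S N k = ∅ := by
          rw [Set.eq_empty_iff_forall_notMem]
          rintro s ⟨hs1, hs2⟩
          exact absurd (le_csSup (hSbdd N k) hs2) (not_le.2 (lt_of_le_of_lt h1 hs1.1))
        rw [hemp, max_eq_right (by linarith)]; simp
      · have hae : (Ioo y w ∩ S N k : Set ℝ) =ᵐ[volume] Ioo y (τ N k) := by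
          have hsub1 : Ioo y (τ N k) ⊆ Ioo y w ∩ S N k := by
            intro s hs
            obtain ⟨r, hr, hsr⟩ := exists_lt_of_lt_csSup hne hs.2
            have hsS : s ∈ SW W := hoc.out hy hr.1.1 ⟨hs.1.le, hsr.le⟩
            exact ⟨⟨hs.1, hsr.trans hr.1.2⟩, hSlow N k r hr s hsS hsr.le⟩
          have hsub2 : Ioo y w ∩ S N k ⊆ Ioc y (τ N k) := fun s hs => ⟨hs.1.1, le_csSup (hSbdd N k) hs.2⟩
          refine Filter.EventuallyLE.antisymm ?_ hsub1.eventuallyLE
          exact (hsub2.eventuallyLE).trans (Ioo_ae_eq_Ioc.symm.le)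
        rw [setIntegral_congr_set hae, int_const_Ioo h1.le, max_eq_left (by linarith)]; ring
    · rw [Set.not_nonempty_iff_eq_empty] at hne
      rw [hne]; simp
  -- sums
  let G : ℕ → ℝ → ℝ := fun N s => (∑ k ∈ Finset.Icc 1 (N * N), (S N k).indicator (fun _ => (1 : ℝ)) s) / N
  have hcount : ∀ N : ℕ, ∀ s ∈ SW W, s < w → (∑ k ∈ Finset.Icc 1 (N * N), (S N k).indicator (fun _ => (1 : ℝ)) s)
      = (min ⌊(N : ℝ) * d s⌋₊ (N * N) : ℕ) := by
    intro N s hs hsw
    have h1 : ∀ k ∈ Finset.Icc 1 (N * N), (S N k).indicator (fun _ => (1 : ℝ)) s =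
        if k ≤ ⌊(N : ℝ) * d s⌋₊ then 1 else 0 := by
      intro k _
      rw [Set.indicator_apply]
      have : s ∈ S N k ↔ k ≤ ⌊(N : ℝ) * d s⌋₊ := by
        rw [Nat.le_floor_iff (mul_nonneg (Nat.cast_nonneg N) (hd0 s hs))]
        exact ⟨fun h => h.2, fun h => ⟨⟨hs, hsw⟩, h⟩⟩
      simp only [this]
    rw [Finset.sum_congr rfl h1, Finset.sum_ite, Finset.sum_const_zero, add_zero,
      Finset.sum_const, nsmul_eq_mul, mul_one]
    congr 1
    have : Finset.filter (fun k => k ≤ ⌊(N : ℝ) * d s⌋₊) (Finset.Icc 1 (N * N)) =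
        Finset.Icc 1 (min ⌊(N : ℝ) * d s⌋₊ (N * N)) := by
      ext k
      simp only [Finset.mem_filter, Finset.mem_Icc, le_min_iff]
      tauto
    rw [this, Nat.card_Icc]
    omega
  have hG0 : ∀ N s, 0 ≤ G N s := by
    intro N s
    refine div_nonneg (Finset.sum_nonneg fun k _ => ?_) (Nat.cast_nonneg N)
    exact Set.indicator_nonneg (fun _ _ => zero_le_one) _
  have hGle : ∀ N : ℕ, ∀ s ∈ SW W, s < w → G N s ≤ d s := by
    intro N s hs hsw
    show (∑ k ∈ Finset.Icc 1 (N * N), (S N k).indicator (fun _ => (1 : ℝ)) s) / N ≤ d s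
    rw [hcount N s hs hsw]
    rcases Nat.eq_zero_or_pos N with h0 | h0
    · subst h0; simpa using hd0 s hs
    · have hN : (0 : ℝ) < N := by exact_mod_cast h0
      rw [div_le_iff₀ hN]
      have h1 : ((min ⌊(N : ℝ) * d s⌋₊ (N * N) : ℕ) : ℝ) ≤ (⌊(N : ℝ) * d s⌋₊ : ℝ) := by
        exact_mod_cast min_le_left _ _
      have h3 := Nat.floor_le (mul_nonneg (Nat.cast_nonneg N) (hd0 s hs))
      linarith
  have hGlim : ∀ s ∈ SW W, s < w → Tendsto (fun N => G N s) atTop (𝓝 (d s)) := by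
    intro s hs hsw
    have h1 : Tendsto (fun N : ℕ => (⌊d s * (N : ℝ)⌋₊ : ℝ) / (N : ℝ)) atTop (𝓝 (d s)) :=
      (tendsto_nat_floor_mul_div_atTop (hd0 s hs)).comp tendsto_natCast_atTop_atTop
    refine h1.congr' ?_
    filter_upwards [eventually_ge_atTop ⌈d s⌉₊] with N hN
    show _ = (∑ k ∈ Finset.Icc 1 (N * N), (S N k).indicator (fun _ => (1 : ℝ)) s) / N
    rw [hcount N s hs hsw]
    have h3 : ⌊(N : ℝ) * d s⌋₊ ≤ N * N := by
      refine Nat.floor_le_of_le ?_
      push_cast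
      exact mul_le_mul_of_nonneg_left ((Nat.le_ceil _).trans (by exact_mod_cast hN)) (Nat.cast_nonneg N)
    rw [min_eq_left h3, mul_comm (d s)]
  let ψN : ℕ → ℝ → ℝ := fun N y => (∑ k ∈ Finset.Icc 1 (N * N), T N k y) / N
  let ψ : ℝ → ℝ := fun y => φ w - min (φ y) (φ w)
  have hψNint : ∀ N, ∀ y ∈ SW W, y ≤ w → ψN N y = ∫ s in Ioo y w, G N s := by
    intro N y hy hyw
    show (∑ k ∈ Finset.Icc 1 (N * N), T N k y) / N = ∫ s in Ioo y w, (∑ k ∈ Finset.Icc 1 (N * N), (S N k).indicator (fun _ => (1 : ℝ)) s) / N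
    rw [integral_div, integral_finsetSum]
    · congr 1
      exact Finset.sum_congr rfl fun k _ => hTint N k y hy hyw
    · intro k _
      exact (integrableOn_cst y w 1).indicator (hSmeas N k)
  have hdI : ∀ y ∈ SW W, y ≤ w → IntegrableOn d (Ioo y w) := by
    intro y hy hyw
    have := hdi y hy hyw
    rwa [intervalIntegrable_iff_integrableOn_Ioo_of_le hyw] at this
  have hψint : ∀ y ∈ SW W, y ≤ w → ψ y = ∫ s in Ioo y w, d s := by
    intro y hy hyw
    rw [ioo_eq_interval hyw, hftc y hy hyw]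
    show φ w - min (φ y) (φ w) = _
    rw [min_eq_left (hφm hy hw hyw)]
  have hψge : ∀ y ∈ SW W, w ≤ y → ψ y = 0 := by
    intro y hy hwy
    show φ w - min (φ y) (φ w) = 0
    rw [min_eq_right (hφm hw hy hwy)]; ring
  have hψNge : ∀ N, ∀ y, w ≤ y → ψN N y = 0 := by
    intro N y hwy
    show (∑ k ∈ Finset.Icc 1 (N * N), T N k y) / N = 0
    rw [Finset.sum_eq_zero, zero_div]
    intro k _
    show (if (S N k).Nonempty then max (τ N k - y) 0 else 0) = 0
    split_ifs with hne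
    · rw [max_eq_right]
      have := hτle N k hne
      linarith
    · rfl
  have hψN0 : ∀ N y, 0 ≤ ψN N y := fun N y =>
    div_nonneg (Finset.sum_nonneg fun k _ => hT0 N k y) (Nat.cast_nonneg N)
  have hψNle : ∀ N, ∀ y ∈ SW W, ψN N y ≤ ψ y := by
    intro N y hy
    rcases le_total y w with hyw | hyw
    · rw [hψNint N y hy hyw, hψint y hy hyw]
      refine setIntegral_mono_on ?_ (hdI y hy hyw) measurableSet_Ioo fun s hs => ?_
      · refine Integrable.div_const ?_ _
        exact integrable_finsetSum _ fun k _ => (integrableOn_cst y w 1).indicator (hSmeas N k)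
      · exact hGle N s (hoc.out hy hw ⟨hs.1.le, hs.2.le⟩) hs.2
    · rw [hψNge N y hyw, hψge y hy hyw]
  have hψNlim : ∀ y ∈ SW W, Tendsto (fun N => ψN N y) atTop (𝓝 (ψ y)) := by
    intro y hy
    rcases le_total y w with hyw | hyw
    · simp only [hψNint _ y hy hyw, hψint y hy hyw]
      refine tendsto_integral_of_dominated_convergence (fun s => ‖d s‖) ?_ (hdI y hy hyw).norm ?_ ?_
      · intro N
        refine Measurable.aestronglyMeasurable ?_
        refine Measurable.div_const ?_ _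
        refine Finset.measurable_fun_sum _ fun k _ => ?_
        exact measurable_const.indicator (hSmeas N k)
      · intro N
        refine (ae_restrict_iff' measurableSet_Ioo).2 (Eventually.of_forall fun s hs => ?_)
        have hsS : s ∈ SW W := hoc.out hy hw ⟨hs.1.le, hs.2.le⟩
        rw [Real.norm_of_nonneg (hG0 N s), Real.norm_of_nonneg (hd0 s hsS)]
        exact hGle N s hsS hs.2
      · refine (ae_restrict_iff' measurableSet_Ioo).2 (Eventually.of_forall fun s hs => ?_)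
        exact hGlim s (hoc.out hy hw ⟨hs.1.le, hs.2.le⟩) hs.2
    · rw [hψge y hy hyw]
      refine tendsto_const_nhds.congr fun N => (hψNge N y hyw).symm
  -- test functions in L^2
  have hψ2 : MemLp (fun u => ψ (qf W u)) 2 uni := by
    have h0 : MemLp (fun u => |φ (qf W u)|) 2 uni := hQ.abs
    have h0' : MemLp (fun _ : ℝ => |φ w| + |φ w|) 2 uni := memLp_const _
    have h1 : MemLp (fun u => (|φ w| + |φ w|) + |φ (qf W u)|) 2 uni := h0'.add h0
    have hmeas : AEMeasurable (fun u => ψ (qf W u)) uni :=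
      aemeasurable_const.sub (hQ.aestronglyMeasurable.aemeasurable.min aemeasurable_const)
    refine h1.mono' hmeas.aestronglyMeasurable (Eventually.of_forall fun u => ?_)
    rw [Real.norm_eq_abs]
    show |φ w - min (φ (qf W u)) (φ w)| ≤ _
    have h3 : |min (φ (qf W u)) (φ w)| ≤ |φ w| + |φ (qf W u)| := by
      rcases le_total (φ (qf W u)) (φ w) with h4 | h4
      · rw [min_eq_left h4]; linarith [abs_nonneg (φ w)]
      · rw [min_eq_right h4]; linarith [abs_nonneg (φ (qf W u))]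
    calc |φ w - min (φ (qf W u)) (φ w)| ≤ |φ w| + |min (φ (qf W u)) (φ w)| := abs_sub _ _
      _ ≤ _ := by linarith
  have hTpc : ∀ N k u, T N k (qf W u) = if (S N k).Nonempty then pc W (τ N k) u else 0 := fun N k u => rfl
  have hT2 : ∀ N k, MemLp (fun u => T N k (qf W u)) 2 uni := by
    intro N k
    simp only [hTpc]
    by_cases hne : (S N k).Nonempty
    · simp only [if_pos hne]; exact memLp_pc hW h2 _
    · simp only [if_neg hne]; exact memLp_const 0
  have hlim : Tendsto (fun N => ∫ u in Ioo (0:ℝ) 1, ψN N (qf W u) * h u) atTop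
      (𝓝 (∫ u in Ioo (0:ℝ) 1, ψ (qf W u) * h u)) := by
    refine tendsto_integral_of_dominated_convergence (fun u => |ψ (qf W u)| * |h u|) ?_
      (hψ2.abs.integrable_mul hh.abs) ?_ ?_
    · intro N
      refine AEStronglyMeasurable.mul ?_ hh.aestronglyMeasurable
      have : MemLp (fun u => ψN N (qf W u)) 2 uni := by
        have h3 : MemLp (fun u => ∑ k ∈ Finset.Icc 1 (N * N), T N k (qf W u)) 2 uni :=
          memLp_finsetSum _ fun k _ => hT2 N k
        have h4 := h3.const_mul ((N:ℝ)⁻¹)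
        have e : (fun u => ψN N (qf W u)) =
            fun u => (N:ℝ)⁻¹ * ∑ k ∈ Finset.Icc 1 (N * N), T N k (qf W u) := by
          funext u
          show (∑ k ∈ Finset.Icc 1 (N * N), T N k (qf W u)) / N = _
          rw [div_eq_inv_mul]
        rw [e]; exact h4
      exact this.aestronglyMeasurable
    · intro N
      refine (ae_restrict_iff' measurableSet_Ioo).2 (Eventually.of_forall fun u hu => ?_)
      rw [Real.norm_eq_abs, abs_mul, abs_of_nonneg (hψN0 N _)]
      refine mul_le_mul_of_nonneg_right ?_ (abs_nonneg _)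
      exact (hψNle N _ (qf_mem_SW hW hu)).trans (le_abs_self _)
    · refine (ae_restrict_iff' measurableSet_Ioo).2 (Eventually.of_forall fun u hu => ?_)
      exact (hψNlim _ (qf_mem_SW hW hu)).mul_const _
  refine le_of_tendsto' hlim fun N => ?_
  have e : ∀ u, ψN N (qf W u) * h u = (∑ k ∈ Finset.Icc 1 (N * N), T N k (qf W u) * h u) / N := by
    intro u
    show (∑ k ∈ Finset.Icc 1 (N * N), T N k (qf W u)) / N * h u = _
    rw [div_mul_eq_mul_div, Finset.sum_mul]
  simp only [e]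
  rw [integral_div, integral_finsetSum]
  · refine div_nonpos_of_nonpos_of_nonneg (Finset.sum_nonpos fun k _ => ?_) (Nat.cast_nonneg N)
    simp only [hTpc]
    by_cases hne : (S N k).Nonempty
    · simp only [if_pos hne]
      exact htest _ (hτmem N k hne) (hτle N k hne)
    · simp only [if_neg hne]; simp
  · intro k _
    exact (hT2 N k).integrable_mul hh

/-! ### Concave transforms give laws in the family -/

lemma convLE_of_concave (hW : IsRef W) {F : ℝ → ℝ} (hF : IsDF F)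
    (hne : ∃ u ∈ Ioo (0:ℝ) 1, ∃ v ∈ Ioo (0:ℝ) 1, qf F u ≠ qf F v)
    (hφ : ConcaveOn ℝ (SW W) (fun y => qf F (W y))) : ConvLE F W := by
  have hoc := ordConnected_SW hW
  have hφm : MonotoneOn (fun y => qf F (W y)) (SW W) := fun x hx y hy hxy =>
    monotoneOn_qf hF (W_mem hx) (W_mem hy) (hW.mono hxy)
  refine ⟨?_, ?_⟩
  · refine ⟨?_, ?_⟩
    · have : OrdConnected {x | 0 < F x ∧ F x < 1} := by
        refine ⟨fun x hx y hy z hz => ?_⟩
        exact ⟨lt_of_lt_of_le hx.1 (hF.mono hz.1), lt_of_le_of_lt (hF.mono hz.2) hy.2⟩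
      exact this.convex
    · intro x0 hx0 x1 hx1 a b ha hb hab
      simp only [smul_eq_mul]
      set xt := a * x0 + b * x1 with hxt
      have hxtm : 0 < F xt ∧ F xt < 1 := by
        have hoc2 : OrdConnected {x | 0 < F x ∧ F x < 1} := by
          refine ⟨fun x hx y hy z hz => ?_⟩
          exact ⟨lt_of_lt_of_le hx.1 (hF.mono hz.1), lt_of_le_of_lt (hF.mono hz.2) hy.2⟩
        have h1 := hoc2.convex (𝕜 := ℝ) hx0 hx1 ha hb hab
        simp only [smul_eq_mul] at h1
        exact h1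
      set y0 := qf W (F x0) with hy0
      set y1 := qf W (F x1) with hy1
      have hy0S : y0 ∈ SW W := qf_mem_SW hW hx0
      have hy1S : y1 ∈ SW W := qf_mem_SW hW hx1
      -- for y > y_i, qf F (W y) > x_i
      have hgt : ∀ x, (0 < F x ∧ F x < 1) → ∀ y ∈ SW W, qf W (F x) < y → x < qf F (W y) := by
        intro x hx y hy hlt
        by_contra hcon
        push Not at hcon
        have h1 := (qf_le_iff hF (W_mem hy) x).1 hcon
        have h3 := (qf_lt_iff hW hx hy).1 hlt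
        linarith
      by_contra hcon
      push Not at hcon
      -- choose δ > 0 with y0 + δ, y1 + δ in SW and a y0 + b y1 + δ < qf W (F xt)
      set yt := a * y0 + b * y1 with hyt
      obtain ⟨ε0, hε0, hb0⟩ := Metric.isOpen_iff.1 (isOpen_SW hW) y0 hy0S
      obtain ⟨ε1, hε1, hb1⟩ := Metric.isOpen_iff.1 (isOpen_SW hW) y1 hy1S
      set δ := min (min (ε0 / 2) (ε1 / 2)) ((qf W (F xt) - yt) / 2) with hδ
      have hδ0 : 0 < δ := lt_min (lt_min (by linarith) (by linarith)) (by linarith)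
      have m0 : y0 + δ ∈ SW W := hb0 (by
        rw [Metric.mem_ball, Real.dist_eq, abs_lt]
        have : δ ≤ ε0 / 2 := (min_le_left _ _).trans (min_le_left _ _)
        constructor <;> linarith)
      have m1 : y1 + δ ∈ SW W := hb1 (by
        rw [Metric.mem_ball, Real.dist_eq, abs_lt]
        have : δ ≤ ε1 / 2 := (min_le_left _ _).trans (min_le_right _ _)
        constructor <;> linarith)
      have g0 := hgt x0 hx0 _ m0 (by rw [← hy0]; linarith)
      have g1 := hgt x1 hx1 _ m1 (by rw [← hy1]; linarith)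
      have hc := hφ.2 m0 m1 ha hb hab
      simp only [smul_eq_mul] at hc
      have e1 : a * (y0 + δ) + b * (y1 + δ) = yt + δ := by
        rw [hyt]
        have : a * (y0 + δ) + b * (y1 + δ) = a * y0 + b * y1 + (a + b) * δ := by ring
        rw [this, hab, one_mul]
      rw [e1] at hc
      have hlt : xt < qf F (W (yt + δ)) := by
        refine lt_of_lt_of_le ?_ hc
        rw [hxt]
        rcases eq_or_lt_of_le ha with h3 | h3
        · have hb1' : b = 1 := by linarith
          rw [← h3, hb1']; simp only [zero_mul, one_mul, zero_add]; exact g1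
        · have h5 := mul_lt_mul_of_pos_left g0 h3
          have h6 := mul_le_mul_of_nonneg_left g1.le hb
          linarith
      have hmS : yt + δ ∈ SW W := by
        have := (convex_SW hW) m0 m1 ha hb hab
        simp only [smul_eq_mul] at this
        rwa [e1] at this
      have h7 : yt + δ < qf W (F xt) := by
        have : δ ≤ (qf W (F xt) - yt) / 2 := min_le_right _ _
        linarith
      have h8 : W (yt + δ) < F xt := (lt_qf_iff hW hxtm _).1 h7
      have h9 := (qf_le_iff hF (W_mem hmS) xt).2 h8.le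
      linarith
  · intro x hx
    by_contra hcon
    push Not at hcon
    -- F vanishes left of x; F(x) > 0: constant initial piece
    have hzero : ∀ y, y < x → F y = 0 := fun y hy => le_antisymm (hcon y hy) (hF.nonneg y)
    set α := min (F x) 1 with hα
    -- for u < F x : qf F u = x
    have hqx : ∀ u ∈ Ioo (0:ℝ) 1, u ≤ F x → qf F u = x := by
      intro u hu hux
      refine le_antisymm ((qf_le_iff hF hu x).2 hux) ?_
      refine le_of_forall_lt fun y hy => ?_
      by_contra h3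
      push Not at h3
      have := (qf_le_iff hF hu y).1 h3
      rw [hzero y hy] at this
      linarith [hu.1]
    have hge : ∀ u ∈ Ioo (0:ℝ) 1, x ≤ qf F u := by
      intro u hu
      refine le_of_forall_lt fun y hy => ?_
      by_contra h3
      push Not at h3
      have := (qf_le_iff hF hu y).1 h3
      rw [hzero y hy] at this
      linarith [hu.1]
    -- all values equal x
    have hall : ∀ u ∈ Ioo (0:ℝ) 1, qf F u = x := by
      intro u hu
      rcases le_or_gt u (F x) with h3 | h3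
      · exact hqx u hu h3
      · -- use concavity with two points below
        have hFx : F x ∈ Ioo (0:ℝ) 1 := ⟨hx, h3.trans hu.2⟩
        have hu1 : F x / 2 ∈ Ioo (0:ℝ) 1 := ⟨by linarith [hFx.1], by linarith [hFx.1, hFx.2]⟩
        set ya := qf W (F x / 2) with hya
        set yb := qf W (F x) with hyb
        set yc := qf W u with hyc
        have hab' : ya < yb := strictMonoOn_qf hW hu1 hFx (by linarith [hFx.1])
        have hbc' : yb < yc := strictMonoOn_qf hW hFx hu h3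
        have hsl := hφ.slope_anti_adjacent (qf_mem_SW hW hu1) (qf_mem_SW hW hu) hab' hbc'
        rw [hyb, W_qf hW hu, W_qf hW hFx, W_qf hW hu1, hqx _ hFx le_rfl,
          hqx _ hu1 (by linarith [hFx.1]), sub_self, zero_div] at hsl
        have hd : 0 < qf W u - qf W (F x) := by rw [← hyc, ← hyb]; linarith
        have h5 : qf F u - x ≤ 0 := by
          by_contra h6
          push Not at h6
          have := div_pos h6 hd
          linarith
        have := hge u hu
        linarith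
    obtain ⟨u, hu, v, hv, huv⟩ := hne
    exact huv (by rw [hall u hu, hall v hv])

/-- The equivalent form of the convex order for laws with positive variance. -/
lemma convLE_iff {μ : Measure ℝ} (hμ : Adm μ) (hW : IsRef W) :
    ConvLE (cdf μ) W ↔ ConcaveOn ℝ (SW W) (fun y => qf (cdf μ) (W y)) := by
  have := hμ.prob
  have hF := isDF_cdf μ
  constructor
  · exact concave_of_ConvLE hF hW
  · intro h
    refine convLE_of_concave hW hF ?_ h
    by_contra hcon
    push Not at hcon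
    have hh : (1/2 : ℝ) ∈ Ioo (0:ℝ) 1 := by constructor <;> norm_num
    have hv := adm_var hμ
    have : varU (qf (cdf μ)) = 0 := by
      rw [varU_congr (fun u hu => hcon u hu (1/2) hh)]
      unfold varU
      simp
    linarith

end

end Pool.Agent.Lib.QBias
end

section

/-!
Existence of the extremal law for the lower bound over the convex order family.
-/

set_option autoImplicit false

namespace Pool.Agent.Lib.QBias

open MeasureTheory ProbabilityTheory Set Filter Topology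

noncomputable section

variable {W : ℝ → ℝ}

lemma inner_eq_int (F G : Lp ℝ 2 uni) : inner ℝ F G = ∫ u, F u * G u ∂uni := by
  rw [L2.inner_def]
  refine integral_congr_ae (Eventually.of_forall fun u => ?_)
  simp [mul_comm]

/-- Concave nondecreasing transforms that are constant beyond `W^{-1}(p)`. -/
structure CTr (W : ℝ → ℝ) (p : ℝ) (φ : ℝ → ℝ) : Prop where
  conc : ConcaveOn ℝ (SW W) φ
  mono : MonotoneOn φ (SW W)
  const : ∀ y ∈ SW W, qf W p ≤ y → φ y = φ (qf W p)

/-- The closed convex cone of centred transforms. -/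
def Cone (W : ℝ → ℝ) (p : ℝ) : Set (Lp ℝ 2 uni) :=
  {G | ∃ φ, CTr W p φ ∧ (∀ᵐ u ∂uni, G u = φ (qf W u)) ∧ ∫ u, G u ∂uni = 0}

lemma CTr.const_add {p : ℝ} {φ : ℝ → ℝ} (h : CTr W p φ) (c : ℝ) : CTr W p (fun y => φ y + c) := by
  refine ⟨h.conc.add_const c, ?_, ?_⟩
  · intro x hx y hy hxy
    have := h.mono hx hy hxy
    show φ x + c ≤ φ y + c
    linarith
  · intro y hy hpy
    show φ y + c = φ (qf W p) + c
    rw [h.const y hy hpy]

lemma CTr.comb {p : ℝ} {φ ψ : ℝ → ℝ} (h : CTr W p φ) (h' : CTr W p ψ) {a b : ℝ} (ha : 0 ≤ a)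
    (hb : 0 ≤ b) : CTr W p (fun y => a * φ y + b * ψ y) := by
  refine ⟨?_, ?_, ?_⟩
  · exact (h.conc.smul ha).add (h'.conc.smul hb)
  · intro x hx y hy hxy
    have h1 := mul_le_mul_of_nonneg_left (h.mono hx hy hxy) ha
    have h2 := mul_le_mul_of_nonneg_left (h'.mono hx hy hxy) hb
    show a * φ x + b * ψ x ≤ a * φ y + b * ψ y
    linarith
  · intro y hy hpy
    show a * φ y + b * ψ y = a * φ (qf W p) + b * ψ (qf W p)
    rw [h.const y hy hpy, h'.const y hy hpy]

lemma zero_CTr (hW : IsRef W) (p : ℝ) : CTr W p (fun _ => 0) :=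
  ⟨concaveOn_const 0 (convex_SW hW), fun _ _ _ _ _ => le_rfl, fun _ _ _ => rfl⟩

lemma integrable_Lp2 (G : Lp ℝ 2 uni) : Integrable G uni := (Lp.memLp G).integrable (by norm_num)

lemma comb_mem_Cone {p : ℝ} {F G : Lp ℝ 2 uni} (hF : F ∈ Cone W p) (hG : G ∈ Cone W p) {a b : ℝ}
    (ha : 0 ≤ a) (hb : 0 ≤ b) : a • F + b • G ∈ Cone W p := by
  obtain ⟨φ, h1, h2, h3⟩ := hF
  obtain ⟨ψ, k1, k2, k3⟩ := hG
  have hco : ∀ᵐ u ∂uni, (a • F + b • G : Lp ℝ 2 uni) u = a * F u + b * G u := by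
    filter_upwards [Lp.coeFn_add (a • F) (b • G), Lp.coeFn_smul a F, Lp.coeFn_smul b G] with u e1 e2 e3
    rw [e1, Pi.add_apply, e2, e3]
    simp
  refine ⟨_, h1.comb k1 ha hb, ?_, ?_⟩
  · filter_upwards [hco, h2, k2] with u e1 e2 e3
    rw [e1, e2, e3]
  · rw [integral_congr_ae hco, integral_add ((integrable_Lp2 F).const_mul a)
      ((integrable_Lp2 G).const_mul b), integral_const_mul, integral_const_mul, h3, k3]
    ring

lemma zero_mem_Cone (hW : IsRef W) (p : ℝ) : (0 : Lp ℝ 2 uni) ∈ Cone W p := by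
  have h0 : ∀ᵐ u ∂uni, (0 : Lp ℝ 2 uni) u = 0 := Lp.coeFn_zero ℝ 2 uni
  refine ⟨fun _ => 0, zero_CTr hW p, h0, ?_⟩
  rw [integral_congr_ae h0]; simp

lemma convex_Cone (p : ℝ) : Convex ℝ (Cone W p) := fun _ hF _ hG _ _ ha hb _ =>
  comb_mem_Cone hF hG ha hb

lemma isClosed_Cone (hW : IsRef W) {p : ℝ} (hp : p ∈ Ioo (0:ℝ) 1) : IsClosed (Cone W p) := by
  refine IsSeqClosed.isClosed ?_
  intro x g hx hg
  choose φ hφ hae h0 using hx
  obtain ⟨ns, hns, hlim⟩ := (tendstoInMeasure_of_tendsto_Lp hg).exists_seq_tendsto_ae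
  have hae' : ∀ᵐ u ∂uni, ∀ i, x i u = φ i (qf W u) := ae_all_iff.2 hae
  have hconv : ∀ᵐ u ∂uni, Tendsto (fun i => φ (ns i) (qf W u)) atTop (𝓝 (g u)) := by
    filter_upwards [hlim, hae'] with u h1 h2
    refine h1.congr fun i => ?_
    exact h2 (ns i)
  have hmem : ∀ᵐ u ∂uni, u ∈ Ioo (0:ℝ) 1 :=
    (ae_restrict_iff' measurableSet_Ioo).2 (Eventually.of_forall fun u hu => hu)
  -- ultrafilter limits
  let U : Ultrafilter ℕ := hyperfilter ℕ
  have hU : (U : Filter ℕ) ≤ atTop := Nat.hyperfilter_le_atTop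
  have hex : ∀ y ∈ SW W, ∃ l, Tendsto (fun i => φ (ns i) y) (U : Filter ℕ) (𝓝 l) := by
    intro y hy
    have hWy := W_mem hy
    obtain ⟨u1, hu1, c1⟩ := exists_in_of_ae hconv le_rfl hWy.1 hWy.2.le
    obtain ⟨u2, hu2, c2⟩ := exists_in_of_ae hconv hWy.1.le hWy.2 le_rfl
    have m1 : u1 ∈ Ioo (0:ℝ) 1 := ⟨hu1.1, hu1.2.trans hWy.2⟩
    have m2 : u2 ∈ Ioo (0:ℝ) 1 := ⟨hWy.1.trans hu2.1, hu2.2⟩
    have l1 : qf W u1 ≤ y := ((qf_lt_iff hW m1 hy).2 hu1.2).le
    have l2 : y ≤ qf W u2 := ((lt_qf_iff hW m2 y).2 hu2.1).le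
    have ev : ∀ᶠ i in (U : Filter ℕ), φ (ns i) y ∈ Icc (g u1 - 1) (g u2 + 1) := by
      have a1 := (c1.mono_left hU).eventually (lt_mem_nhds (show g u1 - 1 < g u1 by linarith))
      have a2 := (c2.mono_left hU).eventually (gt_mem_nhds (show g u2 < g u2 + 1 by linarith))
      filter_upwards [a1, a2] with i b1 b2
      have b3 := (hφ (ns i)).mono (qf_mem_SW hW m1) hy l1
      have b4 := (hφ (ns i)).mono hy (qf_mem_SW hW m2) l2
      exact ⟨by linarith, by linarith⟩
    obtain ⟨l, _, hl⟩ := isCompact_Icc.ultrafilter_le_nhds (U.map (fun i => φ (ns i) y))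
      (le_principal_iff.2 (by
        rw [Ultrafilter.coe_map]
        exact ev))
    exact ⟨l, hl⟩
  choose! ℓ hℓ using hex
  refine ⟨ℓ, ⟨⟨convex_SW hW, ?_⟩, ?_, ?_⟩, ?_, ?_⟩
  · intro a ha b hb s t hs ht hst
    have hab := (convex_SW hW) ha hb hs ht hst
    refine le_of_tendsto_of_tendsto' (((hℓ a ha).const_mul s).add ((hℓ b hb).const_mul t))
      (hℓ _ hab) fun i => ?_
    have := (hφ (ns i)).conc.2 ha hb hs ht hst
    simpa only [smul_eq_mul] using this
  · intro a ha b hb hab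
    exact le_of_tendsto_of_tendsto' (hℓ a ha) (hℓ b hb) fun i => (hφ (ns i)).mono ha hb hab
  · intro y hy hpy
    have h1 : Tendsto (fun i => φ (ns i) y) (U : Filter ℕ) (𝓝 (ℓ (qf W p))) := by
      refine (hℓ _ (qf_mem_SW hW hp)).congr fun i => ?_
      exact ((hφ (ns i)).const y hy hpy).symm
    exact tendsto_nhds_unique (hℓ y hy) h1
  · filter_upwards [hconv, hmem] with u h1 h3
    exact tendsto_nhds_unique (h1.mono_left hU) (hℓ _ (qf_mem_SW hW h3))
  · -- the integral is a continuous functional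
    let c1 : Lp ℝ 2 uni := (memLp_const (1:ℝ)).toLp (fun _ => (1:ℝ))
    have e : ∀ G : Lp ℝ 2 uni, ∫ u, G u ∂uni = inner ℝ c1 G := by
      intro G
      rw [inner_eq_int]
      refine integral_congr_ae ?_
      filter_upwards [MemLp.coeFn_toLp (memLp_const (μ := uni) (p := 2) (1:ℝ))] with u hu
      rw [hu]; simp
    have hc : Tendsto (fun i => ∫ u, x i u ∂uni) atTop (𝓝 (∫ u, g u ∂uni)) := by
      simp only [e]
      exact (tendsto_const_nhds.inner hg)
    have hz : Tendsto (fun i => ∫ u, x i u ∂uni) atTop (𝓝 0) := by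
      simp only [h0]; exact tendsto_const_nhds
    exact tendsto_nhds_unique hc hz

lemma memLp_h00 (n j : ℕ) (p : ℝ) : MemLp (h00 n j p) 2 uni := by
  obtain ⟨B, hB'⟩ := exists_bound_fos n j
  refine memLp_of_bdd (Measurable.ite measurableSet_Iio (continuous_fos n j).measurable
    measurable_const) (|B| + |Fos n j p / (1 - p)|) ?_
  intro u hu
  have h1 := hB' u ⟨hu.1.le, hu.2.le⟩
  rw [Real.norm_eq_abs] at h1
  have h2 : |fos n j u| ≤ |B| := h1.trans (le_abs_self B)
  have a2 := abs_nonneg (Fos n j p / (1 - p))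
  have a3 := abs_nonneg B
  unfold h00
  split_ifs
  · linarith
  · rw [abs_neg]; linarith

lemma int_h00 {n j : ℕ} {p : ℝ} (P : Par n j p) : ∫ u in Ioo (0:ℝ) 1, h00 n j p u = 0 := by
  have hi : IntegrableOn (h00 n j p) (Ioo (0:ℝ) 1) := (memLp_h00 n j p).integrable (by norm_num)
  have hp1 : 0 < 1 - p := by linarith [P.hp1]
  rw [split_uni P.hp0 P.hp1 hi]
  have h1 : ∫ u in Ioo 0 p, h00 n j p u = ∫ u in Ioo 0 p, fos n j u :=
    int_Ioo_congr fun u hu => by unfold h00; rw [if_pos hu.2]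
  have h2 : ∫ u in Ioo p 1, h00 n j p u = ∫ _ in Ioo p 1, -(Fos n j p / (1 - p)) :=
    int_Ioo_congr fun u hu => by unfold h00; rw [if_neg (not_lt.2 hu.1.le)]
  rw [h1, h2, int_fos_Ioo P.hj P.hjn P.hp0.le, Fos_zero P.hj, int_const_Ioo P.hp1.le]
  field_simp
  ring

/-- Functions vanishing beyond `p` see only the density. -/
lemma int_vanish_mul {n j : ℕ} {p : ℝ} (P : Par n j p) {g : ℝ → ℝ} (hg : MemLp g 2 uni)
    (hv : ∀ u ∈ Ioo p 1, g u = 0) :
    ∫ u in Ioo (0:ℝ) 1, g u * h00 n j p u = ∫ u in Ioo (0:ℝ) 1, g u * fos n j u := by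
  have i1 : IntegrableOn (fun u => g u * h00 n j p u) (Ioo (0:ℝ) 1) := hg.integrable_mul (memLp_h00 n j p)
  have i2 : IntegrableOn (fun u => g u * fos n j u) (Ioo (0:ℝ) 1) := integrable_mul_fos hg n j
  rw [split_uni P.hp0 P.hp1 i1, split_uni P.hp0 P.hp1 i2]
  congr 1
  · exact int_Ioo_congr fun u hu => by unfold h00; rw [if_pos hu.2]
  · exact int_Ioo_congr fun u hu => by rw [hv u hu, zero_mul, zero_mul]

/-- Existence of the optimal transform. -/
lemma exists_opt (hW : IsRef W) {n j : ℕ} {p : ℝ} (P : Par n j p) :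
    ∃ φs : ℝ → ℝ, CTr W p φs ∧ MemLp (fun u => φs (qf W u)) 2 uni ∧
      ∫ u in Ioo (0:ℝ) 1, φs (qf W u) = 0 ∧
      -(∫ u in Ioo (0:ℝ) 1, φs (qf W u) * h00 n j p u) = ∫ u in Ioo (0:ℝ) 1, φs (qf W u) ^ 2 ∧
      ∀ φ : ℝ → ℝ, CTr W p φ → MemLp (fun u => φ (qf W u)) 2 uni →
        -(∫ u in Ioo (0:ℝ) 1, φ (qf W u) * h00 n j p u) ≤
          ∫ u in Ioo (0:ℝ) 1, φ (qf W u) * φs (qf W u) := by
  have hpm : p ∈ Ioo (0:ℝ) 1 := ⟨P.hp0, P.hp1⟩
  let H0 : Lp ℝ 2 uni := (memLp_h00 n j p).toLp (h00 n j p)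
  have hH0 : ∀ᵐ u ∂uni, H0 u = h00 n j p u := MemLp.coeFn_toLp _
  obtain ⟨G, hG, hGmin⟩ := exists_norm_eq_iInf_of_complete_convex ⟨0, zero_mem_Cone hW p⟩
    (isClosed_Cone hW hpm).isComplete (convex_Cone (W := W) p) (-H0)
  rw [norm_eq_iInf_iff_real_inner_le_zero (convex_Cone p) hG] at hGmin
  have hz : inner ℝ (-H0 - G) G = 0 := by
    have h1 := hGmin 0 (zero_mem_Cone hW p)
    have h2 := hGmin ((2:ℝ) • G + (0:ℝ) • G) (comb_mem_Cone hG hG (by norm_num) le_rfl)
    rw [zero_sub, inner_neg_right] at h1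
    have e : (2:ℝ) • G + (0:ℝ) • G - G = G := by
      rw [zero_smul, add_zero, two_smul]; abel
    rw [e] at h2
    linarith
  have hle : ∀ F ∈ Cone W p, inner ℝ (-H0 - G) F ≤ 0 := by
    intro F hF
    have h1 := hGmin F hF
    rw [inner_sub_right, hz, sub_zero] at h1
    exact h1
  obtain ⟨φs, hφs, hae, hint⟩ := hG
  have hG2 : MemLp (fun u => φs (qf W u)) 2 uni := (memLp_congr_ae hae).1 (Lp.memLp G)
  have hmean : ∫ u in Ioo (0:ℝ) 1, φs (qf W u) = 0 :=
    (integral_congr_ae (hae.mono fun u hu => hu.symm)).trans hint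
  have hneg : ∀ F : Lp ℝ 2 uni, inner ℝ (-H0 - G) F = -(∫ u, F u * H0 u ∂uni) - ∫ u, F u * G u ∂uni := by
    intro F
    rw [inner_sub_left, inner_neg_left, inner_eq_int, inner_eq_int]
    have e1 : ∫ u, H0 u * F u ∂uni = ∫ u, F u * H0 u ∂uni := by congr 1; funext u; ring
    have e2 : ∫ u, G u * F u ∂uni = ∫ u, F u * G u ∂uni := by congr 1; funext u; ring
    rw [e1, e2]
  refine ⟨φs, hφs, hG2, hmean, ?_, ?_⟩
  · rw [hneg G] at hz
    have e1 : ∫ u, G u * H0 u ∂uni = ∫ u in Ioo (0:ℝ) 1, φs (qf W u) * h00 n j p u := by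
      refine integral_congr_ae ?_
      filter_upwards [hae, hH0] with u a b
      rw [a, b]
    have e2 : ∫ u, G u * G u ∂uni = ∫ u in Ioo (0:ℝ) 1, φs (qf W u) ^ 2 := by
      refine integral_congr_ae ?_
      filter_upwards [hae] with u a
      rw [a]; ring
    rw [e1, e2] at hz
    linarith
  · intro φ hφ hφ2
    set m := ∫ u in Ioo (0:ℝ) 1, φ (qf W u) with hm
    have hφi : IntegrableOn (fun u => φ (qf W u)) (Ioo (0:ℝ) 1) := hφ2.integrable (by norm_num)
    have hc2 : MemLp (fun u => φ (qf W u) + -m) 2 uni := hφ2.add (memLp_const _)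
    let F : Lp ℝ 2 uni := hc2.toLp _
    have hF : ∀ᵐ u ∂uni, F u = φ (qf W u) + -m := MemLp.coeFn_toLp _
    have hFmem : F ∈ Cone W p := by
      refine ⟨fun y => φ y + -m, hφ.const_add _, hF, ?_⟩
      rw [integral_congr_ae hF, integral_add hφi (integrable_const _), int_const_Ioo zero_le_one, ← hm]
      ring
    have h1 := hle F hFmem
    rw [hneg F] at h1
    have ih : IntegrableOn (h00 n j p) (Ioo (0:ℝ) 1) := (memLp_h00 n j p).integrable (by norm_num)
    have is : IntegrableOn (fun u => φs (qf W u)) (Ioo (0:ℝ) 1) := hG2.integrable (by norm_num)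
    have i1 : IntegrableOn (fun u => φ (qf W u) * h00 n j p u) (Ioo (0:ℝ) 1) :=
      hφ2.integrable_mul (memLp_h00 n j p)
    have i2 : IntegrableOn (fun u => φ (qf W u) * φs (qf W u)) (Ioo (0:ℝ) 1) := hφ2.integrable_mul hG2
    have e1 : ∫ u, F u * H0 u ∂uni = ∫ u in Ioo (0:ℝ) 1, φ (qf W u) * h00 n j p u := by
      have : ∀ᵐ u ∂uni, F u * H0 u = φ (qf W u) * h00 n j p u + -m * h00 n j p u := by
        filter_upwards [hF, hH0] with u a b
        rw [a, b]; ring
      rw [integral_congr_ae this, integral_add i1 (ih.const_mul _), integral_const_mul, int_h00 P]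
      ring
    have e2 : ∫ u, F u * G u ∂uni = ∫ u in Ioo (0:ℝ) 1, φ (qf W u) * φs (qf W u) := by
      have : ∀ᵐ u ∂uni, F u * G u = φ (qf W u) * φs (qf W u) + -m * φs (qf W u) := by
        filter_upwards [hF, hae] with u a b
        rw [a, b]; ring
      rw [integral_congr_ae this, integral_add i2 (is.const_mul _), integral_const_mul, hmean]
      ring
    rw [e1, e2] at h1
    linarith

/-- Truncation at the `p`-th quantile. -/
lemma CTr_min {p : ℝ} (hW : IsRef W) (hp : p ∈ Ioo (0:ℝ) 1) {φ : ℝ → ℝ}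
    (hφ : ConcaveOn ℝ (SW W) φ) (hm : MonotoneOn φ (SW W)) :
    CTr W p (fun y => min (φ y) (φ (qf W p))) := by
  refine ⟨hφ.inf (concaveOn_const _ (convex_SW hW)), ?_, ?_⟩
  · intro x hx y hy hxy
    exact min_le_min_right _ (hm hx hy hxy)
  · intro y hy hpy
    show min (φ y) (φ (qf W p)) = min (φ (qf W p)) (φ (qf W p))
    rw [min_eq_right (hm (qf_mem_SW hW hp) hy hpy), min_self]

lemma varU_nonneg (g : ℝ → ℝ) : 0 ≤ varU g := integral_nonneg fun _ => sq_nonneg _

lemma varU_le {g : ℝ → ℝ} (hg : MemLp g 2 uni) (c : ℝ) :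
    varU g ≤ ∫ u in Ioo (0:ℝ) 1, (g u - c) ^ 2 := by
  have hi : IntegrableOn g (Ioo (0:ℝ) 1) := hg.integrable (by norm_num)
  set m := ∫ u in Ioo (0:ℝ) 1, g u with hm
  have hgm : MemLp (fun u => g u - m) 2 uni := hg.sub (memLp_const _)
  have e : ∀ u, (g u - c) ^ 2 = ((g u - m) ^ 2 + 2 * (m - c) * (g u - m)) + (m - c) ^ 2 := fun u => by ring
  simp only [e]
  have i0 : IntegrableOn (fun u => g u - m) (Ioo (0:ℝ) 1) := hgm.integrable (by norm_num)
  have j1 : IntegrableOn (fun u => (g u - m) ^ 2 + 2 * (m - c) * (g u - m)) (Ioo (0:ℝ) 1) :=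
    hgm.integrable_sq.add (i0.const_mul _)
  rw [integral_add j1 (integrable_const _), integral_add hgm.integrable_sq (i0.const_mul _),
    integral_const_mul, int_const_Ioo zero_le_one, integral_sub hi (integrable_const _),
    int_const_Ioo zero_le_one, ← hm]
  have : varU g = ∫ u in Ioo (0:ℝ) 1, (g u - m) ^ 2 := rfl
  rw [this]
  nlinarith [sq_nonneg (m - c)]

lemma memLp_min {g : ℝ → ℝ} (hg : MemLp g 2 uni) (c : ℝ) : MemLp (fun u => min (g u) c) 2 uni := by
  have h0 : MemLp (fun u => |g u|) 2 uni := hg.abs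
  have h0' : MemLp (fun _ : ℝ => |c|) 2 uni := memLp_const _
  have h1 : MemLp (fun u => |c| + |g u|) 2 uni := h0'.add h0
  refine h1.mono' (hg.aestronglyMeasurable.aemeasurable.min aemeasurable_const).aestronglyMeasurable
    (Eventually.of_forall fun u => ?_)
  rw [Real.norm_eq_abs]
  rcases le_total (g u) c with h4 | h4
  · rw [min_eq_left h4]; linarith [abs_nonneg c]
  · rw [min_eq_right h4]; linarith [abs_nonneg (g u)]

lemma varU_min_le {g : ℝ → ℝ} (hg : MemLp g 2 uni) (c : ℝ) : varU (fun u => min (g u) c) ≤ varU g := by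
  set m := ∫ u in Ioo (0:ℝ) 1, g u with hm
  refine (varU_le (memLp_min hg c) (min m c)).trans ?_
  have : varU g = ∫ u in Ioo (0:ℝ) 1, (g u - m) ^ 2 := rfl
  rw [this]
  refine integral_mono ?_ ?_ fun u => ?_
  · exact ((memLp_min hg c).sub (memLp_const _)).integrable_sq
  · exact (hg.sub (memLp_const _)).integrable_sq
  · show (min (g u) c - min m c) ^ 2 ≤ (g u - m) ^ 2
    have h1 : |min (g u) c - min m c| ≤ |g u - m| := by
      calc |min (g u) c - min m c| ≤ max |g u - m| |c - c| := abs_min_sub_min_le_max _ _ _ _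
        _ = |g u - m| := by rw [sub_self, abs_zero, max_eq_left (abs_nonneg _)]
    exact sq_le_sq.2 h1

/-- Reduction to truncated transforms. -/
lemma trunc_le {n j : ℕ} {p : ℝ} (P : Par n j p) {Q : ℝ → ℝ} (hQm : MonotoneOn Q (Ioo 0 1))
    (hQ : MemLp Q 2 uni) :
    Q p - (∫ u in Ioo (0:ℝ) 1, Q u * fos n j u) ≤
      -(∫ u in Ioo (0:ℝ) 1, min (Q u) (Q p) * h00 n j p u) := by
  have hpm : p ∈ Ioo (0:ℝ) 1 := ⟨P.hp0, P.hp1⟩
  have hg := memLp_min hQ (Q p)
  have hg' : MemLp (fun u => min (Q u) (Q p) - Q p) 2 uni := hg.sub (memLp_const _)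
  have h1 := int_vanish_mul P hg' (fun u hu => by
    show min (Q u) (Q p) - Q p = 0
    rw [min_eq_right (hQm hpm ⟨P.hp0.trans hu.1, hu.2⟩ hu.1.le)]; ring)
  have i1 : IntegrableOn (fun u => min (Q u) (Q p) * h00 n j p u) (Ioo (0:ℝ) 1) :=
    hg.integrable_mul (memLp_h00 n j p)
  have i2 : IntegrableOn (fun u => min (Q u) (Q p) * fos n j u) (Ioo (0:ℝ) 1) := integrable_mul_fos hg n j
  have i3 : IntegrableOn (fun u => Q u * fos n j u) (Ioo (0:ℝ) 1) := integrable_mul_fos hQ n j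
  have ih : IntegrableOn (h00 n j p) (Ioo (0:ℝ) 1) := (memLp_h00 n j p).integrable (by norm_num)
  have iF : IntegrableOn (fos n j) (Ioo (0:ℝ) 1) := integrableOn_fos n j 0 1
  have e1 : ∫ u in Ioo (0:ℝ) 1, (min (Q u) (Q p) - Q p) * h00 n j p u =
      ∫ u in Ioo (0:ℝ) 1, min (Q u) (Q p) * h00 n j p u := by
    have : ∀ u, (min (Q u) (Q p) - Q p) * h00 n j p u =
        min (Q u) (Q p) * h00 n j p u - Q p * h00 n j p u := fun u => by ring
    simp only [this]
    rw [integral_sub i1 (ih.const_mul _), integral_const_mul, int_h00 P]; ring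
  have e2 : ∫ u in Ioo (0:ℝ) 1, (min (Q u) (Q p) - Q p) * fos n j u =
      (∫ u in Ioo (0:ℝ) 1, min (Q u) (Q p) * fos n j u) - Q p := by
    have : ∀ u, (min (Q u) (Q p) - Q p) * fos n j u =
        min (Q u) (Q p) * fos n j u - Q p * fos n j u := fun u => by ring
    simp only [this]
    rw [integral_sub i2 (iF.const_mul _), integral_const_mul, int_fos_one P.hj P.hjn]; ring
  rw [e1, e2] at h1
  have h3 : ∫ u in Ioo (0:ℝ) 1, min (Q u) (Q p) * fos n j u ≤ ∫ u in Ioo (0:ℝ) 1, Q u * fos n j u :=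
    setIntegral_mono_on i2 i3 measurableSet_Ioo fun u hu =>
      mul_le_mul_of_nonneg_right (min_le_left _ _) (fos_nonneg n j hu.1.le hu.2.le)
  linarith

end

end Pool.Agent.Lib.QBias
end

section

/-!
The sharp lower bound over the convex order family for every `p`.
-/

set_option autoImplicit false

namespace Pool.Agent.Lib.QBias

open MeasureTheory ProbabilityTheory Set Filter Topology

noncomputable section

variable {W : ℝ → ℝ}

/-- Covariance of `F^{-1}(U)` with `min(W^{-1}(U), t)`. -/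
def covC (W : ℝ → ℝ) (μ : Measure ℝ) (t : ℝ) : ℝ :=
  ∫ u in Ioo (0:ℝ) 1, qf (cdf μ) u * (min (qf W u) t - ∫ v in Ioo (0:ℝ) 1, min (qf W v) t)

/-- `E (t - Y_{j:n})_+`. -/
def ePos (W : ℝ → ℝ) (n j : ℕ) (t : ℝ) : ℝ :=
  ∫ u in Ioo (0:ℝ) 1, max (t - qf W u) 0 * fos n j u

lemma ePos_eq (n j : ℕ) (t : ℝ) : ePos W n j t = b1 W n j t := rfl

lemma covC_eq (μ : Measure ℝ) (t : ℝ) :
    covC W μ t = ∫ u in Ioo (0:ℝ) 1, qf (cdf μ) u * (zc W t u - mC W t) := rfl

lemma trunc_eq {n j : ℕ} {p : ℝ} (P : Par n j p) {Q : ℝ → ℝ} (hQm : MonotoneOn Q (Ioo 0 1))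
    (hQ : MemLp Q 2 uni) :
    Q p - (∫ u in Ioo (0:ℝ) 1, min (Q u) (Q p) * fos n j u) =
      -(∫ u in Ioo (0:ℝ) 1, min (Q u) (Q p) * h00 n j p u) := by
  have hpm : p ∈ Ioo (0:ℝ) 1 := ⟨P.hp0, P.hp1⟩
  have hg := memLp_min hQ (Q p)
  have hg' : MemLp (fun u => min (Q u) (Q p) - Q p) 2 uni := hg.sub (memLp_const _)
  have h1 := int_vanish_mul P hg' (fun u hu => by
    show min (Q u) (Q p) - Q p = 0
    rw [min_eq_right (hQm hpm ⟨P.hp0.trans hu.1, hu.2⟩ hu.1.le)]; ring)
  have i1 : IntegrableOn (fun u => min (Q u) (Q p) * h00 n j p u) (Ioo (0:ℝ) 1) :=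
    hg.integrable_mul (memLp_h00 n j p)
  have i2 : IntegrableOn (fun u => min (Q u) (Q p) * fos n j u) (Ioo (0:ℝ) 1) := integrable_mul_fos hg n j
  have ih : IntegrableOn (h00 n j p) (Ioo (0:ℝ) 1) := (memLp_h00 n j p).integrable (by norm_num)
  have iF : IntegrableOn (fos n j) (Ioo (0:ℝ) 1) := integrableOn_fos n j 0 1
  have e1 : ∫ u in Ioo (0:ℝ) 1, (min (Q u) (Q p) - Q p) * h00 n j p u =
      ∫ u in Ioo (0:ℝ) 1, min (Q u) (Q p) * h00 n j p u := by
    have : ∀ u, (min (Q u) (Q p) - Q p) * h00 n j p u =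
        min (Q u) (Q p) * h00 n j p u - Q p * h00 n j p u := fun u => by ring
    simp only [this]
    rw [integral_sub i1 (ih.const_mul _), integral_const_mul, int_h00 P]; ring
  have e2 : ∫ u in Ioo (0:ℝ) 1, (min (Q u) (Q p) - Q p) * fos n j u =
      (∫ u in Ioo (0:ℝ) 1, min (Q u) (Q p) * fos n j u) - Q p := by
    have : ∀ u, (min (Q u) (Q p) - Q p) * fos n j u =
        min (Q u) (Q p) * fos n j u - Q p * fos n j u := fun u => by ring
    simp only [this]
    rw [integral_sub i2 (iF.const_mul _), integral_const_mul, int_fos_one P.hj P.hjn]; ring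
  rw [e1, e2] at h1
  linarith

lemma int_trunc_le {n j : ℕ} {p : ℝ} {Q : ℝ → ℝ} (hQ : MemLp Q 2 uni) :
    ∫ u in Ioo (0:ℝ) 1, min (Q u) (Q p) * fos n j u ≤ ∫ u in Ioo (0:ℝ) 1, Q u * fos n j u :=
  setIntegral_mono_on (integrable_mul_fos (memLp_min hQ (Q p)) n j) (integrable_mul_fos hQ n j)
    measurableSet_Ioo fun _ hu =>
      mul_le_mul_of_nonneg_right (min_le_left _ _) (fos_nonneg n j hu.1.le hu.2.le)

lemma CTr_zc (hW : IsRef W) {p t : ℝ} (ht : t ≤ qf W p) :
    CTr W p (fun y => min y t) := by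
  refine ⟨?_, ?_, ?_⟩
  · exact (concaveOn_id (convex_SW hW)).inf (concaveOn_const _ (convex_SW hW))
  · intro x _ y _ hxy
    exact min_le_min_right _ hxy
  · intro y _ hpy
    show min y t = min (qf W p) t
    rw [min_eq_right (ht.trans hpy), min_eq_right ht]

lemma b1_pos (hW : IsRef W) (h2 : NegSq W) {n j : ℕ} {p : ℝ} (P : Par n j p) :
    0 < b1 W n j (qf W p) := by
  have h1 := KC_qf_neg hW h2 P
  rw [KC_eq hW h2 P] at h1
  linarith

/-- `-∫ z_t h00 = E (t - Y_{j:n})_+` for `t ≤ W^{-1}(p)`. -/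
lemma zc_h00 (hW : IsRef W) (h2 : NegSq W) {n j : ℕ} {p t : ℝ} (P : Par n j p) (ht : t ≤ qf W p) :
    -(∫ u in Ioo (0:ℝ) 1, zc W t u * h00 n j p u) = b1 W n j t := by
  have hpm : p ∈ Ioo (0:ℝ) 1 := ⟨P.hp0, P.hp1⟩
  have hpc2 := memLp_pc hW h2 t
  have h1 := int_vanish_mul P hpc2 (fun u hu => by
    unfold pc
    rw [max_eq_right]
    have := monotoneOn_qf hW.isDF hpm (show u ∈ Ioo (0:ℝ) 1 from ⟨P.hp0.trans hu.1, hu.2⟩) hu.1.le
    linarith)
  have i1 : IntegrableOn (fun u => zc W t u * h00 n j p u) (Ioo (0:ℝ) 1) :=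
    (memLp_zc hW h2 t).integrable_mul (memLp_h00 n j p)
  have ih : IntegrableOn (h00 n j p) (Ioo (0:ℝ) 1) := (memLp_h00 n j p).integrable (by norm_num)
  have e : ∫ u in Ioo (0:ℝ) 1, pc W t u * h00 n j p u = -(∫ u in Ioo (0:ℝ) 1, zc W t u * h00 n j p u) := by
    have : ∀ u, pc W t u * h00 n j p u = t * h00 n j p u - zc W t u * h00 n j p u := by
      intro u; rw [pc_eq]; ring
    simp only [this]
    rw [integral_sub (ih.const_mul _) i1, integral_const_mul, int_h00 P]; ring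
  rw [← e, h1]
  rfl

/-- The optimal transform: the defining properties. -/
structure OptTr (W : ℝ → ℝ) (n j : ℕ) (p : ℝ) (φs : ℝ → ℝ) : Prop where
  ctr : CTr W p φs
  memLp : MemLp (fun u => φs (qf W u)) 2 uni
  mean : ∫ u in Ioo (0:ℝ) 1, φs (qf W u) = 0
  eq : -(∫ u in Ioo (0:ℝ) 1, φs (qf W u) * h00 n j p u) = ∫ u in Ioo (0:ℝ) 1, φs (qf W u) ^ 2
  ineq : ∀ φ : ℝ → ℝ, CTr W p φ → MemLp (fun u => φ (qf W u)) 2 uni →
    -(∫ u in Ioo (0:ℝ) 1, φ (qf W u) * h00 n j p u) ≤
      ∫ u in Ioo (0:ℝ) 1, φ (qf W u) * φs (qf W u)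
  pos : 0 < ∫ u in Ioo (0:ℝ) 1, φs (qf W u) ^ 2

/-- The lower bound over the convex family in general, with the optimal transform. -/
theorem conv_lower_general' (hW : IsRef W) (h2 : NegSq W) {n j : ℕ} {p : ℝ} (P : Par n j p) :
    ∃ φs : ℝ → ℝ, OptTr W n j p φs ∧ ∃ μs ∈ CFam W,
      (∀ u ∈ Ioo (0:ℝ) 1, qf (cdf μs) u = φs (qf W u)) ∧
      bias n j p μs = -Real.sqrt (∫ u in Ioo (0:ℝ) 1, φs (qf W u) ^ 2) ∧
      bias n j p μs < 0 ∧ (∀ μ ∈ CFam W, bias n j p μs ≤ bias n j p μ) ∧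
      (∀ u ∈ Ioo p 1, qf (cdf μs) u = qf (cdf μs) p) ∧
      (∀ μ ∈ CFam W, bias n j p μ = bias n j p μs →
        ∃ b c : ℝ, 0 < c ∧ ∀ u ∈ Ioo (0:ℝ) 1, qf (cdf μ) u = b + c * qf (cdf μs) u) ∧
      (∀ μ ∈ CFam W, bias n j p μ = bias n j p μs →
        ∀ t ∈ SW W, t ≤ qf W p →
          ePos W n j t * Real.sqrt (var2 μ) ≤ -bias n j p μ * covC W μ t) := by
  have hpm : p ∈ Ioo (0:ℝ) 1 := ⟨P.hp0, P.hp1⟩
  have hpS := qf_mem_SW hW hpm
  obtain ⟨φs, hφs, hG2, hmean, ha, hb⟩ := exists_opt hW P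
  set gs : ℝ → ℝ := fun u => φs (qf W u) with hgs
  set v := ∫ u in Ioo (0:ℝ) 1, gs u ^ 2 with hv
  have hv0 : 0 ≤ v := integral_nonneg fun u => sq_nonneg _
  have hvar : varU gs = v := by
    unfold varU
    have : ∫ u in Ioo (0:ℝ) 1, gs u = 0 := hmean
    rw [this, hv]; congr 1; funext u; ring
  have hvpos : 0 < v := by
    refine lt_of_le_of_ne hv0 fun h => ?_
    have h3 := (integral_eq_zero_iff_of_nonneg_ae (Eventually.of_forall fun u => sq_nonneg _)
      hG2.integrable_sq).1 h.symm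
    have h4 := hb _ (CTr_zc hW (le_refl (qf W p))) (memLp_zc hW h2 (qf W p))
    have h5 : ∫ u in Ioo (0:ℝ) 1, (fun y => min y (qf W p)) (qf W u) * φs (qf W u) = 0 := by
      have : ∀ᵐ u ∂uni, (fun y => min y (qf W p)) (qf W u) * φs (qf W u) = 0 := by
        filter_upwards [h3] with u hu
        have h6 : gs u ^ 2 = 0 := hu
        have h7 : φs (qf W u) = 0 := pow_eq_zero_iff (two_ne_zero) |>.1 h6
        rw [h7, mul_zero]
      rw [integral_congr_ae this]; simp
    rw [h5] at h4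
    have h6 := zc_h00 hW h2 P (le_refl (qf W p))
    have h7 := b1_pos hW h2 P
    have h8 : -(∫ u in Ioo (0:ℝ) 1, (fun y => min y (qf W p)) (qf W u) * h00 n j p u) =
        b1 W n j (qf W p) := h6
    rw [h8] at h4
    linarith
  have hsv : 0 < Real.sqrt v := Real.sqrt_pos.2 hvpos
  -- the law
  have hgm : MonotoneOn gs (Ioo 0 1) := fun u hu w hw huw =>
    hφs.mono (qf_mem_SW hW hu) (qf_mem_SW hW hw) (monotoneOn_qf hW.isDF hu hw huw)
  have hφc : ContinuousOn φs (SW W) := by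
    have h1 : ContinuousOn (fun x => -φs x) (SW W) :=
      ConvexOn.continuousOn (isOpen_SW hW) hφs.conc.neg
    exact (h1.neg).congr fun x _ => by simp
  have hgc : ContinuousOn gs (Ioo 0 1) := hφc.comp (continuousOn_qf hW) fun u hu => qf_mem_SW hW hu
  have hlc := leftCont_of_continuousOn hgc
  have hadm : Adm (lawOf gs) := adm_lawOf hgm hlc hG2 (by rw [hvar]; exact hvpos)
  have hqs : ∀ u ∈ Ioo (0:ℝ) 1, qf (cdf (lawOf gs)) u = gs u := fun u hu => qf_lawOf hgm hlc hu
  have hmem : lawOf gs ∈ CFam W := by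
    refine ⟨hadm, (convLE_iff hadm hW).2 ?_⟩
    refine ⟨convex_SW hW, ?_⟩
    intro x hx y hy a b ha' hb' hab
    have hxy := (convex_SW hW) hx hy ha' hb' hab
    simp only
    rw [hqs _ (W_mem hx), hqs _ (W_mem hy), hqs _ (W_mem hxy)]
    show a • φs (qf W (W x)) + b • φs (qf W (W y)) ≤ φs (qf W (W (a • x + b • y)))
    rw [qf_W hW hx, qf_W hW hy, qf_W hW hxy]
    exact hφs.conc.2 hx hy ha' hb' hab
  have hgsmin : ∀ u ∈ Ioo (0:ℝ) 1, min (gs u) (gs p) = gs u := by
    intro u hu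
    rcases le_total u p with h | h
    · exact min_eq_left (hgm hu hpm h)
    · have h3 : gs u = gs p := hφs.const _ (qf_mem_SW hW hu) (monotoneOn_qf hW.isDF hpm hu h)
      rw [h3, min_self]
  have hnum : (∫ u in Ioo (0:ℝ) 1, gs u * fos n j u) - gs p = -v := by
    have h1 := trunc_eq P hgm hG2
    have e1 : ∫ u in Ioo (0:ℝ) 1, min (gs u) (gs p) * fos n j u = ∫ u in Ioo (0:ℝ) 1, gs u * fos n j u :=
      int_congr_uni fun u hu => by rw [hgsmin u hu]
    have e2 : ∫ u in Ioo (0:ℝ) 1, min (gs u) (gs p) * h00 n j p u =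
        ∫ u in Ioo (0:ℝ) 1, gs u * h00 n j p u :=
      int_congr_uni fun u hu => by rw [hgsmin u hu]
    rw [e1, e2] at h1
    have h3 : -(∫ u in Ioo (0:ℝ) 1, gs u * h00 n j p u) = v := ha
    linarith
  have hbias : bias n j p (lawOf gs) = -Real.sqrt v := by
    rw [bias_lawOf hgm hlc P, hnum, hvar, neg_div]
    congr 1
    exact Real.div_sqrt
  -- the chain for a member
  have hgs0 : ∫ u in Ioo (0:ℝ) 1, gs u = 0 := hmean
  have chain : ∀ μ ∈ CFam W,
      -(∫ u in Ioo (0:ℝ) 1, min (qf (cdf μ) u) (qf (cdf μ) p) * h00 n j p u) ≤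
        ∫ u in Ioo (0:ℝ) 1, min (qf (cdf μ) u) (qf (cdf μ) p) * gs u := by
    intro μ hμ
    obtain ⟨φ, hφ, hφm, hQ⟩ := cfam_phi hW hμ
    have hQ2 := adm_memLp hμ.1
    have hc := CTr_min hW hpm hφ hφm
    have hcong : ∀ u ∈ Ioo (0:ℝ) 1, (fun y => min (φ y) (φ (qf W p))) (qf W u) =
        min (qf (cdf μ) u) (qf (cdf μ) p) := by
      intro u hu
      show min (φ (qf W u)) (φ (qf W p)) = _
      rw [hQ u hu, hQ p hpm]
    have hm2 : MemLp (fun u => (fun y => min (φ y) (φ (qf W p))) (qf W u)) 2 uni := by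
      refine (memLp_congr_ae ?_).1 (memLp_min hQ2 (qf (cdf μ) p))
      exact (ae_restrict_iff' measurableSet_Ioo).2 (Eventually.of_forall fun u hu => (hcong u hu).symm)
    have h1 := hb _ hc hm2
    have e1 : ∫ u in Ioo (0:ℝ) 1, (fun y => min (φ y) (φ (qf W p))) (qf W u) * h00 n j p u =
        ∫ u in Ioo (0:ℝ) 1, min (qf (cdf μ) u) (qf (cdf μ) p) * h00 n j p u :=
      int_congr_uni fun u hu => by rw [hcong u hu]
    have e2 : ∫ u in Ioo (0:ℝ) 1, (fun y => min (φ y) (φ (qf W p))) (qf W u) * φs (qf W u) =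
        ∫ u in Ioo (0:ℝ) 1, min (qf (cdf μ) u) (qf (cdf μ) p) * gs u :=
      int_congr_uni fun u hu => by rw [hcong u hu]
    rw [e1, e2] at h1
    exact h1
  have bound : ∀ μ ∈ CFam W, -Real.sqrt v ≤ bias n j p μ := by
    intro μ hμ
    have hQ2 := adm_memLp hμ.1
    have hQm := adm_mono hμ.1
    rw [le_bias_iff hμ.1 P]
    have c1 := trunc_eq P hQm hQ2
    have c2 := int_trunc_le (n := n) (j := j) (p := p) hQ2
    have c3 := chain μ hμ
    have c4 := cs_bound (μ := uni) (memLp_min hQ2 (qf (cdf μ) p)) hG2 hgs0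
    have c5 := varU_min_le hQ2 (qf (cdf μ) p)
    have c6 : Real.sqrt (varU (fun u => min (qf (cdf μ) u) (qf (cdf μ) p))) ≤
        Real.sqrt (varU (qf (cdf μ))) := Real.sqrt_le_sqrt c5
    have c7 := mul_le_mul_of_nonneg_right c6 hsv.le
    have c8 : ∫ u in Ioo (0:ℝ) 1, min (qf (cdf μ) u) (qf (cdf μ) p) * gs u ≤
        Real.sqrt (varU (fun u => min (qf (cdf μ) u) (qf (cdf μ) p))) * Real.sqrt v := c4
    linarith
  -- uniqueness
  have uniq : ∀ μ ∈ CFam W, bias n j p μ = -Real.sqrt v →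
      ∃ b c : ℝ, 0 < c ∧ ∀ u ∈ Ioo (0:ℝ) 1, qf (cdf μ) u = b + c * gs u := by
    intro μ hμ heq
    have hQ2 := adm_memLp hμ.1
    have hQm := adm_mono hμ.1
    have c0 := bias_mul hμ.1 P
    rw [heq] at c0
    have c1 := trunc_eq P hQm hQ2
    have c2 := int_trunc_le (n := n) (j := j) (p := p) hQ2
    have c3 := chain μ hμ
    have hg2 := memLp_min hQ2 (qf (cdf μ) p)
    have c4 := cs_bound (μ := uni) hg2 hG2 hgs0
    have c5 := varU_min_le hQ2 (qf (cdf μ) p)
    have c6 : Real.sqrt (varU (fun u => min (qf (cdf μ) u) (qf (cdf μ) p))) ≤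
        Real.sqrt (varU (qf (cdf μ))) := Real.sqrt_le_sqrt c5
    have c7 := mul_le_mul_of_nonneg_right c6 hsv.le
    have c8 : ∫ u in Ioo (0:ℝ) 1, min (qf (cdf μ) u) (qf (cdf μ) p) * gs u ≤
        Real.sqrt (varU (fun u => min (qf (cdf μ) u) (qf (cdf μ) p))) * Real.sqrt v := c4
    -- equalities
    have d1 : ∫ u in Ioo (0:ℝ) 1, min (qf (cdf μ) u) (qf (cdf μ) p) * gs u =
        Real.sqrt (varU (fun u => min (qf (cdf μ) u) (qf (cdf μ) p))) * Real.sqrt v :=
      le_antisymm c8 (by linarith)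
    have d2 : ∫ u in Ioo (0:ℝ) 1, min (qf (cdf μ) u) (qf (cdf μ) p) * fos n j u =
        ∫ u in Ioo (0:ℝ) 1, qf (cdf μ) u * fos n j u := le_antisymm c2 (by linarith)
    have d3 : Real.sqrt (varU (qf (cdf μ))) * Real.sqrt v =
        Real.sqrt (varU (fun u => min (qf (cdf μ) u) (qf (cdf μ) p))) * Real.sqrt v := by linarith
    have d4 : Real.sqrt (varU (fun u => min (qf (cdf μ) u) (qf (cdf μ) p))) =
        Real.sqrt (varU (qf (cdf μ))) := (mul_right_cancel₀ hsv.ne' d3).symm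
    -- Q = min(Q, Qp) a.e.
    have i1 : IntegrableOn (fun u => (qf (cdf μ) u - min (qf (cdf μ) u) (qf (cdf μ) p)) * fos n j u)
        (Ioo (0:ℝ) 1) := (hQ2.sub hg2).integrable_mul (memLp_fos n j)
    have d5 : ∫ u in Ioo (0:ℝ) 1, (qf (cdf μ) u - min (qf (cdf μ) u) (qf (cdf μ) p)) * fos n j u = 0 := by
      have : ∀ u, (qf (cdf μ) u - min (qf (cdf μ) u) (qf (cdf μ) p)) * fos n j u =
          qf (cdf μ) u * fos n j u - min (qf (cdf μ) u) (qf (cdf μ) p) * fos n j u := fun u => by ring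
      simp only [this]
      rw [integral_sub (integrable_mul_fos hQ2 n j) (integrable_mul_fos hg2 n j), d2]; ring
    have hmem01 : ∀ᵐ u ∂uni, u ∈ Ioo (0:ℝ) 1 :=
      (ae_restrict_iff' measurableSet_Ioo).2 (Eventually.of_forall fun u hu => hu)
    have d6 := (integral_eq_zero_iff_of_nonneg_ae (by
      filter_upwards [hmem01] with u hu
      exact mul_nonneg (sub_nonneg.2 (min_le_left _ _)) (fos_nonneg n j hu.1.le hu.2.le)) i1).1 d5
    have d7 : ∀ᵐ u ∂uni, qf (cdf μ) u = min (qf (cdf μ) u) (qf (cdf μ) p) := by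
      filter_upwards [d6, hmem01] with u hu hu01
      have h3 : (qf (cdf μ) u - min (qf (cdf μ) u) (qf (cdf μ) p)) * fos n j u = 0 := hu
      have h4 := (fos_pos P.hj P.hjn hu01.1 hu01.2).ne'
      have h5 := (mul_eq_zero.1 h3).resolve_right h4
      linarith
    have d8 := cs_equality (μ := uni) hg2 hG2 hgs0 hvpos d1
    set m := ∫ u in Ioo (0:ℝ) 1, min (qf (cdf μ) u) (qf (cdf μ) p) with hm
    set c := Real.sqrt (∫ u in Ioo (0:ℝ) 1, (min (qf (cdf μ) u) (qf (cdf μ) p) - m) ^ 2) / Real.sqrt v with hc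
    have hcpos : 0 < c := by
      refine div_pos ?_ hsv
      have : Real.sqrt (∫ u in Ioo (0:ℝ) 1, (min (qf (cdf μ) u) (qf (cdf μ) p) - m) ^ 2) =
          Real.sqrt (varU (qf (cdf μ))) := d4
      rw [this]
      exact Real.sqrt_pos.2 (adm_var hμ.1)
    refine ⟨m, c, hcpos, ?_⟩
    refine eq_of_ae_eq_cont (cfam_cont hW hμ) (h := fun u => m + c * gs u)
      (continuousOn_const.add (continuousOn_const.mul hgc)) ?_
    filter_upwards [d7, d8] with u a1 a2
    rw [a1, a2]
  refine ⟨φs, ⟨hφs, hG2, hmean, ha, hb, hvpos⟩, lawOf gs, hmem, hqs, hbias,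
    by rw [hbias]; linarith, ?_, ?_, ?_, ?_⟩
  · intro μ hμ; rw [hbias]; exact bound μ hμ
  · intro u hu
    have hu' : u ∈ Ioo (0:ℝ) 1 := ⟨P.hp0.trans hu.1, hu.2⟩
    rw [hqs u hu', hqs p hpm]
    exact hφs.const _ (qf_mem_SW hW hu') (monotoneOn_qf hW.isDF hpm hu' hu.1.le)
  · intro μ hμ heq
    rw [hbias] at heq
    obtain ⟨b, c, hc, hall⟩ := uniq μ hμ heq
    exact ⟨b, c, hc, fun u hu => by rw [hall u hu, hqs u hu]⟩
  · intro μ hμ heq t htS htp
    rw [hbias] at heq
    obtain ⟨b, c, hc, hall⟩ := uniq μ hμ heq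
    have hz := memLp_zc hW h2 t
    have hz2 : MemLp (fun u => zc W t u - mC W t) 2 uni := hz.sub (memLp_const _)
    have iz : IntegrableOn (fun u => zc W t u - mC W t) (Ioo (0:ℝ) 1) := hz2.integrable (by norm_num)
    have igz : IntegrableOn (fun u => gs u * (zc W t u - mC W t)) (Ioo (0:ℝ) 1) := hG2.integrable_mul hz2
    have igz' : IntegrableOn (fun u => zc W t u * gs u) (Ioo (0:ℝ) 1) := hz.integrable_mul hG2
    have ig : IntegrableOn gs (Ioo (0:ℝ) 1) := hG2.integrable (by norm_num)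
    have h1 := hb _ (CTr_zc hW htp) hz
    have h3 : b1 W n j t ≤ ∫ u in Ioo (0:ℝ) 1, zc W t u * gs u := by
      rw [← zc_h00 hW h2 P htp]; exact h1
    have e1 : ∫ u in Ioo (0:ℝ) 1, gs u * (zc W t u - mC W t) = ∫ u in Ioo (0:ℝ) 1, zc W t u * gs u := by
      have : ∀ u, gs u * (zc W t u - mC W t) = zc W t u * gs u - mC W t * gs u := fun u => by ring
      simp only [this]
      rw [integral_sub igz' (ig.const_mul _), integral_const_mul, hgs0]; ring
    have e2 : covC W μ t = c * ∫ u in Ioo (0:ℝ) 1, gs u * (zc W t u - mC W t) := by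
      rw [covC_eq]
      have : ∫ u in Ioo (0:ℝ) 1, qf (cdf μ) u * (zc W t u - mC W t) =
          ∫ u in Ioo (0:ℝ) 1, (b * (zc W t u - mC W t) + c * (gs u * (zc W t u - mC W t))) :=
        int_congr_uni fun u hu => by rw [hall u hu]; ring
      rw [this, integral_add (iz.const_mul _) (igz.const_mul _), integral_const_mul,
        integral_const_mul, int_zc_centered hW h2 t]
      ring
    have e3 : Real.sqrt (var2 μ) = c * Real.sqrt v := by
      have := hμ.1.prob
      rw [var2_eq, varU_congr hall]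
      have : varU (fun u => b + c * gs u) = c ^ 2 * v := by
        unfold varU
        rw [integral_add (integrable_const _) (ig.const_mul _), integral_const_mul, hgs0,
          int_const_Ioo zero_le_one]
        have e : ∀ u, (b + c * gs u - ((1 - 0) * b + c * 0)) ^ 2 = c ^ 2 * gs u ^ 2 := fun u => by ring
        simp only [e]
        rw [integral_const_mul]
      rw [this, Real.sqrt_mul (sq_nonneg _), Real.sqrt_sq hc.le]
    rw [ePos_eq, e3, heq, e2, neg_neg, e1]
    have h4 := mul_le_mul_of_nonneg_left h3 (mul_nonneg hc.le hsv.le)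
    linarith

/-- The lower bound over the convex family in general. -/
theorem conv_lower_general (hW : IsRef W) (h2 : NegSq W) {n j : ℕ} {p : ℝ} (P : Par n j p) :
    ∃ μs ∈ CFam W, bias n j p μs < 0 ∧ (∀ μ ∈ CFam W, bias n j p μs ≤ bias n j p μ) ∧
      (∀ u ∈ Ioo p 1, qf (cdf μs) u = qf (cdf μs) p) ∧
      (∀ μ ∈ CFam W, bias n j p μ = bias n j p μs →
        ∃ b c : ℝ, 0 < c ∧ ∀ u ∈ Ioo (0:ℝ) 1, qf (cdf μ) u = b + c * qf (cdf μs) u) ∧
      (∀ μ ∈ CFam W, bias n j p μ = bias n j p μs →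
        ∀ t ∈ SW W, t ≤ qf W p →
          ePos W n j t * Real.sqrt (var2 μ) ≤ -bias n j p μ * covC W μ t) := by
  obtain ⟨_, _, μs, h1, _, _, h3⟩ := conv_lower_general' hW h2 P
  exact ⟨μs, h1, h3⟩

/-- The extremality conditions are sufficient. -/
theorem conv_lower_suff (hW : IsRef W) (h2 : NegSq W) {n j : ℕ} {p : ℝ} (P : Par n j p)
    {μ : Measure ℝ} (hμ : μ ∈ CFam W)
    (hK : ∀ t ∈ SW W, t ≤ qf W p →
      ePos W n j t * Real.sqrt (var2 μ) ≤ -bias n j p μ * covC W μ t) :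
    ∀ ν ∈ CFam W, bias n j p μ ≤ bias n j p ν := by
  have hpm : p ∈ Ioo (0:ℝ) 1 := ⟨P.hp0, P.hp1⟩
  have hpS := qf_mem_SW hW hpm
  have hprob := hμ.1.prob
  have hQ2 := adm_memLp hμ.1
  have hQm := adm_mono hμ.1
  set Q := qf (cdf μ) with hQdef
  set mQ := ∫ u in Ioo (0:ℝ) 1, Q u with hmQ
  set σ := Real.sqrt (varU Q) with hσ
  have hσ0 : 0 < σ := Real.sqrt_pos.2 (adm_var hμ.1)
  have hσ' : Real.sqrt (var2 μ) = σ := by rw [var2_eq]
  set B := -bias n j p μ with hB
  rw [hσ'] at hK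
  have hQi : IntegrableOn Q (Ioo (0:ℝ) 1) := hQ2.integrable (by norm_num)
  have hQc2 : MemLp (fun u => Q u - mQ) 2 uni := hQ2.sub (memLp_const _)
  have hQci : IntegrableOn (fun u => Q u - mQ) (Ioo (0:ℝ) 1) := hQc2.integrable (by norm_num)
  have hQc0 : ∫ u in Ioo (0:ℝ) 1, (Q u - mQ) = 0 := by
    rw [integral_sub hQi (integrable_const _), int_const_Ioo zero_le_one, ← hmQ]; ring
  -- B > 0
  have hcov0 : 0 ≤ covC W μ (qf W p) := by
    rw [covC_eq]
    have hz := memLp_zc hW h2 (qf W p)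
    have hz2 : MemLp (fun u => zc W (qf W p) u - mC W (qf W p)) 2 uni := hz.sub (memLp_const _)
    refine cheb_nonneg hQm ?_ (hz2.integrable (by norm_num)) (hQ2.integrable_mul hz2)
      (int_zc_centered hW h2 _)
    intro u hu v hv huv
    have := monotoneOn_zc hW (qf W p) hu hv huv
    show zc W (qf W p) u - mC W (qf W p) ≤ zc W (qf W p) v - mC W (qf W p)
    linarith
  have hB0 : 0 < B := by
    have h1 := hK (qf W p) hpS le_rfl
    have h3 := b1_pos hW h2 P
    rw [ePos_eq] at h1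
    have h4 : 0 < B * covC W μ (qf W p) := lt_of_lt_of_le (mul_pos h3 hσ0) h1
    by_contra hcon
    push Not at hcon
    have := mul_nonpos_of_nonpos_of_nonneg hcon hcov0
    linarith
  set κ := B / σ with hκ
  have hκ0 : 0 < κ := div_pos hB0 hσ0
  intro ν hν
  obtain ⟨φ, hφ, hφm, hR⟩ := cfam_phi hW hν
  have hR2 := adm_memLp hν.1
  have hRm := adm_mono hν.1
  set R := qf (cdf ν) with hRdef
  have hφ2 : MemLp (fun u => φ (qf W u)) 2 uni := by
    refine (memLp_congr_ae ?_).1 hR2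
    exact (ae_restrict_iff' measurableSet_Ioo).2 (Eventually.of_forall fun u hu => hR u hu)
  have hh2 : MemLp (fun u => fos n j u + κ * (Q u - mQ)) 2 uni := (memLp_fos n j).add (hQc2.const_mul κ)
  have htest : ∀ t ∈ SW W, t ≤ qf W p →
      ∫ u in Ioo (0:ℝ) 1, pc W t u * (fos n j u + κ * (Q u - mQ)) ≤ 0 := by
    intro t ht htp
    have hpc2 := memLp_pc hW h2 t
    have hz := memLp_zc hW h2 t
    have i1 : IntegrableOn (fun u => pc W t u * fos n j u) (Ioo (0:ℝ) 1) := hpc2.integrable_mul (memLp_fos n j)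
    have i2 : IntegrableOn (fun u => zc W t u * (Q u - mQ)) (Ioo (0:ℝ) 1) := hz.integrable_mul hQc2
    have e : ∀ u, pc W t u * (fos n j u + κ * (Q u - mQ)) =
        (pc W t u * fos n j u + (κ * t) * (Q u - mQ)) - κ * (zc W t u * (Q u - mQ)) := by
      intro u
      have : κ * (pc W t u * (Q u - mQ)) = κ * ((t - zc W t u) * (Q u - mQ)) := by rw [pc_eq]
      linear_combination this
    simp only [e]
    have j1 : IntegrableOn (fun u => pc W t u * fos n j u + (κ * t) * (Q u - mQ)) (Ioo (0:ℝ) 1) :=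
      i1.add (hQci.const_mul _)
    rw [integral_sub j1 (i2.const_mul _), integral_add i1 (hQci.const_mul _), integral_const_mul,
      integral_const_mul, hQc0]
    have hcov : ∫ u in Ioo (0:ℝ) 1, zc W t u * (Q u - mQ) = covC W μ t := by
      rw [covC_eq]
      have hzi : IntegrableOn (zc W t) (Ioo (0:ℝ) 1) := hz.integrable (by norm_num)
      have izQ : IntegrableOn (fun u => zc W t u * Q u) (Ioo (0:ℝ) 1) := hz.integrable_mul hQ2
      have e1 : ∀ u, zc W t u * (Q u - mQ) = zc W t u * Q u - mQ * zc W t u := fun u => by ring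
      have e2 : ∀ u, qf (cdf μ) u * (zc W t u - mC W t) = zc W t u * Q u - mC W t * Q u := by
        intro u; rw [← hQdef]; ring
      simp only [e1, e2]
      rw [integral_sub izQ (hzi.const_mul _), integral_sub izQ (hQi.const_mul _),
        integral_const_mul, integral_const_mul, ← hmQ]
      have : mC W t = ∫ u in Ioo (0:ℝ) 1, zc W t u := rfl
      rw [← this]; ring
    rw [hcov]
    have h1 := hK t ht htp
    rw [ePos_eq] at h1
    have h3 : b1 W n j t ≤ κ * covC W μ t := by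
      rw [hκ, div_mul_eq_mul_div, le_div_iff₀ hσ0]
      exact h1
    have h4 : b1 W n j t = ∫ u in Ioo (0:ℝ) 1, pc W t u * fos n j u := rfl
    rw [h4] at h3
    linarith
  have h1 := conc_test hW hpS hφ hφm hh2 hφ2 h2 htest
  have e1 : ∫ u in Ioo (0:ℝ) 1, (φ (qf W p) - min (φ (qf W u)) (φ (qf W p))) *
      (fos n j u + κ * (Q u - mQ)) =
      ∫ u in Ioo (0:ℝ) 1, (R p - min (R u) (R p)) * (fos n j u + κ * (Q u - mQ)) :=
    int_congr_uni fun u hu => by rw [hR u hu, hR p hpm]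
  rw [e1] at h1
  have hg2 := memLp_min hR2 (R p)
  have i1 : IntegrableOn (fun u => min (R u) (R p) * fos n j u) (Ioo (0:ℝ) 1) := integrable_mul_fos hg2 n j
  have i2 : IntegrableOn (fun u => min (R u) (R p) * (Q u - mQ)) (Ioo (0:ℝ) 1) := hg2.integrable_mul hQc2
  have i3 : IntegrableOn (fos n j) (Ioo (0:ℝ) 1) := integrableOn_fos n j 0 1
  have e2 : ∫ u in Ioo (0:ℝ) 1, (R p - min (R u) (R p)) * (fos n j u + κ * (Q u - mQ)) =
      (R p - ∫ u in Ioo (0:ℝ) 1, min (R u) (R p) * fos n j u) -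
        κ * ∫ u in Ioo (0:ℝ) 1, min (R u) (R p) * (Q u - mQ) := by
    have e : ∀ u, (R p - min (R u) (R p)) * (fos n j u + κ * (Q u - mQ)) =
        (R p * fos n j u - min (R u) (R p) * fos n j u) -
        (κ * (min (R u) (R p) * (Q u - mQ)) - (κ * R p) * (Q u - mQ)) := fun u => by ring
    simp only [e]
    rw [int_sub4 (i3.const_mul _) i1 (i2.const_mul _) (hQci.const_mul _), integral_const_mul,
      integral_const_mul, integral_const_mul, int_fos_one P.hj P.hjn, hQc0]
    ring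
  rw [e2] at h1
  have c1 := cs_bound (μ := uni) hg2 hQc2 hQc0
  have c2 : ∫ u in Ioo (0:ℝ) 1, min (R u) (R p) * (Q u - mQ) ≤
      Real.sqrt (varU (fun u => min (R u) (R p))) * σ := c1
  have c3 := varU_min_le hR2 (R p)
  have c4 : Real.sqrt (varU (fun u => min (R u) (R p))) ≤ Real.sqrt (varU R) := Real.sqrt_le_sqrt c3
  have c5 : κ * ∫ u in Ioo (0:ℝ) 1, min (R u) (R p) * (Q u - mQ) ≤ B * Real.sqrt (varU R) := by
    have h3 : ∫ u in Ioo (0:ℝ) 1, min (R u) (R p) * (Q u - mQ) ≤ Real.sqrt (varU R) * σ :=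
      c2.trans (mul_le_mul_of_nonneg_right c4 hσ0.le)
    have h4 := mul_le_mul_of_nonneg_left h3 hκ0.le
    have h5 : κ * (Real.sqrt (varU R) * σ) = B * Real.sqrt (varU R) := by
      rw [hκ]; field_simp
    linarith
  have c6 := int_trunc_le (n := n) (j := j) (p := p) hR2
  rw [le_bias_iff hν.1 P]
  have hb : bias n j p μ = -B := by rw [hB]; ring
  rw [hb]
  linarith

end

end Pool.Agent.Lib.QBias
end

section

/-!
Laws with mass at the left endpoint.
-/

set_option autoImplicit false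

namespace Pool.Agent.Lib.QBias

open MeasureTheory ProbabilityTheory Set Filter Topology

noncomputable section

variable {W : ℝ → ℝ}

/-- The law of `ramp K y0 Y` where `Y` has distribution function `W`. -/
def rampLaw (W : ℝ → ℝ) (K y0 : ℝ) : Measure ℝ := lawOf (fun u => ramp K y0 (qf W u))

lemma monotoneOn_rampQ (hW : IsRef W) {K : ℝ} (hK : 0 ≤ K) (y0 : ℝ) :
    MonotoneOn (fun u => ramp K y0 (qf W u)) (Ioo 0 1) := fun _ hu _ hv huv =>
  ramp_mono hK y0 (monotoneOn_qf hW.isDF hu hv huv)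

lemma continuousOn_rampQ (hW : IsRef W) (K y0 : ℝ) :
    ContinuousOn (fun u => ramp K y0 (qf W u)) (Ioo 0 1) :=
  (continuous_ramp K y0).comp_continuousOn (continuousOn_qf hW)

lemma cdf_rampLaw (hW : IsRef W) {K : ℝ} (hK : 0 < K) (y0 x : ℝ) :
    cdf (rampLaw W K y0) x = if x < 0 then 0 else if x < 1 then W (y0 + x / K) else 1 := by
  have hm := monotoneOn_rampQ hW hK.le y0
  have hlc := leftCont_of_continuousOn (continuousOn_rampQ hW K y0)
  have hp : IsProbabilityMeasure (rampLaw W K y0) := isProbabilityMeasure_lawOf hm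
  have hF := isDF_cdf (rampLaw W K y0)
  have key : ∀ u ∈ Ioo (0:ℝ) 1, (u ≤ cdf (rampLaw W K y0) x ↔ ramp K y0 (qf W u) ≤ x) :=
    fun u hu => le_cdf_lawOf_iff hm hlc hu x
  split_ifs with h h1
  · refine le_antisymm ?_ (hF.nonneg x)
    by_contra hcon
    push Not at hcon
    obtain ⟨u, hu1, hu2⟩ := exists_between hcon
    have hu : u ∈ Ioo (0:ℝ) 1 := ⟨hu1, lt_of_lt_of_le hu2 (hF.le_one x)⟩
    have h3 := (key u hu).1 hu2.le
    have h4 := ramp_nonneg K y0 (qf W u)
    linarith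
  · push Not at h
    have key' : ∀ u ∈ Ioo (0:ℝ) 1, (u ≤ cdf (rampLaw W K y0) x ↔ u ≤ W (y0 + x / K)) := by
      intro u hu
      rw [key u hu, ← qf_le_iff hW.isDF hu]
      unfold ramp
      constructor
      · intro h3
        rcases min_le_iff.1 h3 with h4 | h4
        · linarith
        · have h5 := (le_max_right _ _).trans h4
          have h6 : qf W u - y0 ≤ x / K := by rw [le_div_iff₀ hK]; linarith
          linarith
      · intro h3
        refine min_le_iff.2 (Or.inr (max_le h ?_))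
        have h6 : qf W u - y0 ≤ x / K := by linarith
        rw [le_div_iff₀ hK] at h6
        linarith
    refine le_antisymm ?_ ?_
    · by_contra hcon
      push Not at hcon
      obtain ⟨u, hu1, hu2⟩ := exists_between hcon
      have hu : u ∈ Ioo (0:ℝ) 1 := ⟨lt_of_le_of_lt (hW.isDF.nonneg _) hu1, lt_of_lt_of_le hu2 (hF.le_one x)⟩
      have := (key' u hu).1 hu2.le
      linarith
    · by_contra hcon
      push Not at hcon
      obtain ⟨u, hu1, hu2⟩ := exists_between hcon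
      have hu : u ∈ Ioo (0:ℝ) 1 := ⟨lt_of_le_of_lt (hF.nonneg x) hu1, lt_of_lt_of_le hu2 (hW.isDF.le_one _)⟩
      have := (key' u hu).2 hu2.le
      linarith
  · push Not at h1
    refine le_antisymm (hF.le_one x) ?_
    refine le_of_forall_lt fun v hv => ?_
    obtain ⟨u, hu1, hu2⟩ := exists_between (max_lt hv zero_lt_one)
    have hu : u ∈ Ioo (0:ℝ) 1 := ⟨lt_of_le_of_lt (le_max_right _ _) hu1, hu2⟩
    have := (key u hu).2 ((ramp_le K y0 _).trans h1)
    have h3 := le_max_left v 0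
    linarith

lemma convLit_rampLaw (hW : IsRef W) {K : ℝ} (hK : 0 < K) (y0 : ℝ) :
    ConvLit (cdf (rampLaw W K y0)) W := by
  have hset : {x | 0 < cdf (rampLaw W K y0) x ∧ cdf (rampLaw W K y0) x < 1} =
      Ico 0 1 ∩ {x | y0 + x / K ∈ SW W} := by
    ext x
    simp only [mem_ofPred_eq, mem_inter_iff, mem_Ico]
    rw [cdf_rampLaw hW hK]
    by_cases h : x < 0
    · rw [if_pos h]
      exact ⟨fun h1 => absurd h1.1 (lt_irrefl _), fun h1 => absurd h1.1.1 (not_le.2 h)⟩
    · rw [if_neg h]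
      by_cases h' : x < 1
      · rw [if_pos h']
        exact ⟨fun h1 => ⟨⟨not_lt.1 h, h'⟩, h1⟩, fun h1 => h1.2⟩
      · rw [if_neg h']
        exact ⟨fun h1 => absurd h1.2 (lt_irrefl _), fun h1 => absurd h1.1.2 h'⟩
  have haff : ∀ (a b x y : ℝ), a + b = 1 → y0 + (a * x + b * y) / K =
      a * (y0 + x / K) + b * (y0 + y / K) := by
    intro a b x y hab
    have : a * (y0 + x / K) + b * (y0 + y / K) = (a + b) * y0 + (a * x + b * y) / K := by ring
    rw [this, hab, one_mul]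
  have hconv : Convex ℝ (Ico (0:ℝ) 1 ∩ {x | y0 + x / K ∈ SW W}) := by
    refine (convex_Ico 0 1).inter ?_
    intro x hx y hy a b ha hb hab
    simp only [mem_ofPred_eq, smul_eq_mul] at hx hy ⊢
    rw [haff a b x y hab]
    exact convex_SW hW hx hy ha hb hab
  unfold ConvLit
  rw [hset]
  refine ⟨hconv, ?_⟩
  have hval : ∀ x ∈ Ico (0:ℝ) 1 ∩ {x | y0 + x / K ∈ SW W},
      qf W (cdf (rampLaw W K y0) x) = y0 + x / K := by
    intro x hx
    rw [cdf_rampLaw hW hK, if_neg (not_lt.2 hx.1.1), if_pos hx.1.2]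
    exact qf_W hW hx.2
  intro x hx y hy a b ha hb hab
  have hxy := hconv hx hy ha hb hab
  simp only
  rw [hval x hx, hval y hy, hval _ hxy]
  simp only [smul_eq_mul]
  rw [haff a b x y hab]

lemma memLp_rampQ (hW : IsRef W) (K y0 : ℝ) :
    MemLp (fun u => ramp K y0 (qf W u)) 2 uni := by
  refine MemLp.of_bound ?_ 1 ?_
  · exact ((continuousOn_rampQ hW K y0).aestronglyMeasurable measurableSet_Ioo)
  · refine Eventually.of_forall fun u => ?_
    rw [Real.norm_eq_abs, abs_of_nonneg (ramp_nonneg _ _ _)]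
    exact ramp_le _ _ _

lemma varU_pos_of_lt {Q : ℝ → ℝ} (hm : MonotoneOn Q (Ioo 0 1)) (h2 : MemLp Q 2 uni) {a b : ℝ}
    (ha : a ∈ Ioo (0:ℝ) 1) (hb : b ∈ Ioo (0:ℝ) 1) (hab : Q a < Q b) : 0 < varU Q := by
  refine lt_of_le_of_ne ((integral_nonneg fun _ => sq_nonneg _ : (0:ℝ) ≤ varU Q)) fun h0 => ?_
  unfold varU at h0
  set m := ∫ v in Ioo (0:ℝ) 1, Q v with hmdef
  have hint : Integrable (fun u => (Q u - m) ^ 2) uni := (h2.sub (memLp_const m)).integrable_sq
  have hae := (integral_eq_zero_iff_of_nonneg (fun u => sq_nonneg (Q u - m)) hint).1 h0.symm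
  have hae' : ∀ᵐ u ∂uni, Q u = m := by
    filter_upwards [hae] with u hu
    have : (Q u - m) ^ 2 = 0 := hu
    have := pow_eq_zero_iff (two_ne_zero) |>.1 this
    linarith
  obtain ⟨u, hu, hu1⟩ := exists_in_of_ae hae' (a := 0) (b := a) le_rfl ha.1 ha.2.le
  obtain ⟨v, hv, hv1⟩ := exists_in_of_ae hae' (a := b) (b := 1) hb.1.le hb.2 le_rfl
  have h3 := hm ⟨hu.1, hu.2.trans ha.2⟩ ha hu.2.le
  have h4 := hm hb ⟨hb.1.trans hv.1, hv.2⟩ hv.1.le
  linarith

/-- Approach of a bound by laws that may have mass at the left endpoint. -/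
lemma lit_limit (hW : IsRef W) {n j : ℕ} {p τ : ℝ} (P : Par n j p) (y0 : ℕ → ℝ)
    (hlim : ∀ u ∈ Ioo (0:ℝ) 1, u ≠ p →
      Tendsto (fun k : ℕ => ramp ((k : ℝ) + 1) (y0 k) (qf W u)) atTop (𝓝 (Tstep p u)))
    (hp : Tendsto (fun k : ℕ => ramp ((k : ℝ) + 1) (y0 k) (qf W p)) atTop (𝓝 τ)) :
    ∃ μ : ℕ → Measure ℝ, (∀ k, Adm (μ k) ∧ ConvLit (cdf (μ k)) W) ∧
      Tendsto (fun k => bias n j p (μ k)) atTop
        (𝓝 ((1 - Fos n j p - τ) / Real.sqrt (p * (1 - p)))) := by
  have hkpos : ∀ k : ℕ, (0:ℝ) < (k : ℝ) + 1 := fun k => by positivity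
  have hv : 0 < varU (Tstep p) := by
    rw [varU_Tstep P.hp0 P.hp1]
    exact mul_pos P.hp0 (by linarith [P.hp1])
  set R : ℕ → ℝ → ℝ := fun k u => ramp ((k : ℝ) + 1) (y0 k) (qf W u) with hR
  have hRm : ∀ k, MonotoneOn (R k) (Ioo 0 1) := fun k => monotoneOn_rampQ hW (hkpos k).le _
  have hbd : ∀ k, ∀ u ∈ Ioo (0:ℝ) 1, |R k u| ≤ dom 1 u := by
    intro k u hu
    rw [hR, abs_of_nonneg (ramp_nonneg _ _ _)]
    unfold dom
    have h1 := ramp_le ((k : ℝ) + 1) (y0 k) (qf W u)
    have h2 : (0:ℝ) ≤ u ^ (-(1/4) : ℝ) := Real.rpow_nonneg hu.1.le _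
    linarith
  have key := tendsto_bias_aux (n := n) (j := j) hRm (memLp_Tstep p) hbd hlim hp hv
  rw [int_Tstep_mul P, varU_Tstep P.hp0 P.hp1] at key
  have hb : ∀ k : ℕ, bias n j p (rampLaw W ((k : ℝ) + 1) (y0 k)) =
      ((∫ u in Ioo (0:ℝ) 1, R k u * fos n j u) - R k p) / Real.sqrt (varU (R k)) := fun k =>
    bias_lawOf (hRm k) (leftCont_of_continuousOn (continuousOn_rampQ hW _ _)) P
  have hev : ∀ᶠ k in atTop, 0 < varU (R k) := by
    have hp0 := P.hp0
    have hp1 := P.hp1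
    have hu1 : p / 2 ∈ Ioo (0:ℝ) 1 := ⟨by linarith, by linarith⟩
    have hu2 : (p + 1) / 2 ∈ Ioo (0:ℝ) 1 := ⟨by linarith, by linarith⟩
    have t1 := hlim (p / 2) hu1 (by linarith)
    have t2 := hlim ((p + 1) / 2) hu2 (by linarith)
    have e1 : Tstep p (p / 2) = 0 := by unfold Tstep; rw [if_pos (by linarith)]
    have e2 : Tstep p ((p + 1) / 2) = 1 := by unfold Tstep; rw [if_neg (by linarith)]
    rw [e1] at t1
    rw [e2] at t2
    filter_upwards [t1.eventually (gt_mem_nhds (show (0:ℝ) < 1/2 by norm_num)),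
      t2.eventually (lt_mem_nhds (show (1/2:ℝ) < 1 by norm_num))] with k h1 h2
    exact varU_pos_of_lt (hRm k) (memLp_rampQ hW _ _) hu1 hu2 (h1.trans h2)
  obtain ⟨N, hN⟩ := eventually_atTop.1 hev
  refine ⟨fun k => rampLaw W (((k + N : ℕ) : ℝ) + 1) (y0 (k + N)), fun k => ⟨?_, ?_⟩, ?_⟩
  · exact adm_lawOf (hRm (k + N)) (leftCont_of_continuousOn (continuousOn_rampQ hW _ _))
      (memLp_rampQ hW _ _) (hN _ (by omega))
  · exact convLit_rampLaw hW (hkpos _) _
  · have h2 := key.comp (tendsto_add_atTop_nat N)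
    refine h2.congr fun k => ?_
    exact (hb (k + N)).symm

/-- With mass at the left endpoint allowed, the general upper bound is approached. -/
lemma lit_upper_approach (hW : IsRef W) {n j : ℕ} {p : ℝ} (P : Par n j p) :
    ∃ μ : ℕ → Measure ℝ, (∀ k, Adm (μ k) ∧ ConvLit (cdf (μ k)) W) ∧
      Tendsto (fun k => bias n j p (μ k)) atTop (𝓝 (Ub n j p)) := by
  have hpm : p ∈ Ioo (0:ℝ) 1 := ⟨P.hp0, P.hp1⟩
  have hkpos : ∀ k : ℕ, (0:ℝ) ≤ (k : ℝ) + 1 := fun k => by positivity
  have key := lit_limit hW (τ := 0) P (fun _ => qf W p) ?_ ?_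
  · rw [sub_zero] at key
    exact key
  · intro u hu hup
    rcases lt_or_gt_of_ne hup with h | h
    · have h1 : qf W u ≤ qf W p := monotoneOn_qf hW.isDF hu hpm h.le
      have h2 : Tstep p u = 0 := by unfold Tstep; rw [if_pos h.le]
      rw [h2]
      refine tendsto_const_nhds.congr fun k => ?_
      exact (ramp_eq_zero (hkpos k) h1).symm
    · have h1 : qf W p < qf W u := strictMonoOn_qf hW hpm hu h
      have h2 : Tstep p u = 1 := by unfold Tstep; rw [if_neg (not_le.2 h)]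
      rw [h2]
      refine tendsto_const_nhds.congr' ?_
      have h3 : Tendsto (fun k : ℕ => ((k : ℝ) + 1) * (qf W u - qf W p)) atTop atTop :=
        (tendsto_natCast_atTop_atTop.atTop_add tendsto_const_nhds).atTop_mul_const (by linarith)
      filter_upwards [h3.eventually_ge_atTop 1] with k hk
      exact (ramp_eq_one hk).symm
  · refine tendsto_const_nhds.congr fun k => ?_
    exact (ramp_eq_zero (hkpos k) le_rfl).symm

/-- With mass at the left endpoint allowed, the flat lower bound is approached. -/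
lemma lit_lower_approach (hW : IsRef W) {n j : ℕ} {p : ℝ} (P : Par n j p) :
    ∃ μ : ℕ → Measure ℝ, (∀ k, Adm (μ k) ∧ ConvLit (cdf (μ k)) W) ∧
      Tendsto (fun k => bias n j p (μ k)) atTop (𝓝 (-(Fos n j p / Real.sqrt (p * (1 - p))))) := by
  have hpm : p ∈ Ioo (0:ℝ) 1 := ⟨P.hp0, P.hp1⟩
  have hkpos : ∀ k : ℕ, (0:ℝ) < (k : ℝ) + 1 := fun k => by positivity
  have hone : ∀ (k : ℕ) (y : ℝ), qf W p ≤ y → ramp ((k : ℝ) + 1) (qf W p - 1 / ((k : ℝ) + 1)) y = 1 := by
    intro k y hy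
    refine ramp_eq_one ?_
    have h1 := hkpos k
    have h2 : ((k : ℝ) + 1) * (y - (qf W p - 1 / ((k : ℝ) + 1))) = ((k : ℝ) + 1) * (y - qf W p) + 1 := by
      field_simp
      ring
    rw [h2]
    have := mul_nonneg h1.le (sub_nonneg.2 hy)
    linarith
  have key := lit_limit hW (τ := 1) P (fun k => qf W p - 1 / ((k : ℝ) + 1)) ?_ ?_
  · have e : (1 - Fos n j p - 1) / Real.sqrt (p * (1 - p)) = -(Fos n j p / Real.sqrt (p * (1 - p))) := by
      ring
    rw [e] at key
    exact key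
  · intro u hu hup
    rcases lt_or_gt_of_ne hup with h | h
    · have h1 : qf W u < qf W p := strictMonoOn_qf hW hu hpm h
      have h2 : Tstep p u = 0 := by unfold Tstep; rw [if_pos h.le]
      rw [h2]
      refine tendsto_const_nhds.congr' ?_
      have h3 : Tendsto (fun k : ℕ => 1 / ((k : ℝ) + 1)) atTop (𝓝 0) := tendsto_one_div_add_atTop_nhds_zero_nat
      filter_upwards [h3.eventually (gt_mem_nhds (show (0:ℝ) < qf W p - qf W u by linarith))] with k hk
      exact (ramp_eq_zero (hkpos k).le (by linarith)).symm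
    · have h1 : qf W p ≤ qf W u := monotoneOn_qf hW.isDF hpm hu h.le
      have h2 : Tstep p u = 1 := by unfold Tstep; rw [if_neg (not_le.2 h)]
      rw [h2]
      refine tendsto_const_nhds.congr fun k => ?_
      exact (hone k _ h1).symm
  · refine tendsto_const_nhds.congr fun k => ?_
    exact (hone k _ le_rfl).symm

end

end Pool.Agent.Lib.QBias
end
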