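import Pool.Agent.Lib.MP_c5814c_pr.Mg.G009

section

/-!
Bridging lemmas for the final statement.
-/

set_option autoImplicit false

namespace Pool.Agent.Lib.QBias

open MeasureTheory ProbabilityTheory Set Filter Topology

noncomputable section

variable {W : ℝ → ℝ}

/-! ### Location and scale -/

lemma eq_map_iff {μ : Measure ℝ} (hμ : IsProbabilityMeasure μ) {Q : ℝ → ℝ}
    (hQ : MonotoneOn Q (Ioo 0 1)) (hlc : LeftCont Q) {b c : ℝ} (hc : 0 < c) :
    μ = (lawOf Q).map (fun x => b + c * x) ↔ ∀ u ∈ Ioo (0:ℝ) 1, qf (cdf μ) u = b + c * Q u := by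
  have hm : AEMeasurable Q uni := aemeasurable_of_monotoneOn hQ
  have haff : Measurable (fun x : ℝ => b + c * x) := by fun_prop
  have e : (lawOf Q).map (fun x => b + c * x) = lawOf (fun u => b + c * Q u) := by
    unfold lawOf
    rw [AEMeasurable.map_map_of_aemeasurable haff.aemeasurable hm]
    rfl
  have hQ' : MonotoneOn (fun u => b + c * Q u) (Ioo 0 1) := fun x hx y hy hxy => by
    have := mul_le_mul_of_nonneg_left (hQ hx hy hxy) hc.le
    simp only
    linarith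
  have hlc' : LeftCont (fun u => b + c * Q u) := by
    intro u hu x hx
    have h1 : Q u ≤ (x - b) / c := hlc u hu _ fun v hv => by
      have := hx v hv
      simp only at this
      rw [le_div_iff₀ hc]
      linarith
    rw [le_div_iff₀ hc] at h1
    simp only
    linarith
  rw [e]
  constructor
  · intro h u hu
    rw [h]
    exact qf_lawOf hQ' hlc' hu
  · intro h
    rw [← map_qf μ]
    unfold lawOf
    refine Measure.map_congr ?_
    exact (ae_restrict_iff' measurableSet_Ioo).2 (Eventually.of_forall fun u hu => h u hu)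

lemma varU_affine {Q : ℝ → ℝ} (hQ : MemLp Q 2 uni) (b c : ℝ) :
    varU (fun u => b + c * Q u) = c ^ 2 * varU Q := by
  unfold varU
  have hi : IntegrableOn Q (Ioo 0 1) := hQ.integrable (by norm_num)
  have h1 : ∫ v in Ioo (0:ℝ) 1, (b + c * Q v) = b + c * ∫ v in Ioo (0:ℝ) 1, Q v := by
    rw [integral_add (integrable_const _) (hi.const_mul _), integral_const_mul,
      int_const_Ioo zero_le_one]
    ring
  rw [h1]
  set m := ∫ v in Ioo (0:ℝ) 1, Q v
  have h2 : ∀ u, (b + c * Q u - (b + c * m)) ^ 2 = c ^ 2 * (Q u - m) ^ 2 := fun u => by ring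
  simp only [h2]
  rw [integral_const_mul]

lemma bias_affine {μ ν : Measure ℝ} (hμ : Adm μ) (hν : Adm ν) {n j : ℕ} {p b c : ℝ}
    (P : Par n j p) (hc : 0 < c)
    (h : ∀ u ∈ Ioo (0:ℝ) 1, qf (cdf μ) u = b + c * qf (cdf ν) u) :
    bias n j p μ = bias n j p ν := by
  have hQ := adm_memLp hν
  rw [bias_eq hμ.prob P, bias_eq hν.prob P, varU_congr h, varU_affine hQ,
    int_congr_uni (h := fun u => (b + c * qf (cdf ν) u) * fos n j u) (fun u hu => by rw [h u hu]),
    h p ⟨P.hp0, P.hp1⟩]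
  have i1 : IntegrableOn (fun u => qf (cdf ν) u * fos n j u) (Ioo (0:ℝ) 1) := integrable_mul_fos hQ n j
  have i3 : IntegrableOn (fos n j) (Ioo (0:ℝ) 1) := integrableOn_fos n j 0 1
  have e1 : ∫ u in Ioo (0:ℝ) 1, (b + c * qf (cdf ν) u) * fos n j u =
      b + c * ∫ u in Ioo (0:ℝ) 1, qf (cdf ν) u * fos n j u := by
    have : ∀ u, (b + c * qf (cdf ν) u) * fos n j u = b * fos n j u + c * (qf (cdf ν) u * fos n j u) :=
      fun u => by ring
    simp only [this]
    rw [integral_add (i3.const_mul _) (i1.const_mul _), integral_const_mul, integral_const_mul,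
      int_fos_one P.hj P.hjn]
    ring
  rw [e1, Real.sqrt_mul (sq_nonneg c), Real.sqrt_sq hc.le]
  have hv := Real.sqrt_pos.2 (adm_var hν)
  have e2 : b + c * (∫ u in Ioo (0:ℝ) 1, qf (cdf ν) u * fos n j u) - (b + c * qf (cdf ν) p) =
      c * ((∫ u in Ioo (0:ℝ) 1, qf (cdf ν) u * fos n j u) - qf (cdf ν) p) := by ring
  rw [e2, mul_div_mul_left _ _ hc.ne']

/-! ### The censored reference law -/

lemma prob_cens (hW : IsRef W) (t : ℝ) : IsProbabilityMeasure (cens W t) :=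
  isProbabilityMeasure_lawOf (monotoneOn_zc hW t)

lemma leftCont_zc (hW : IsRef W) (t : ℝ) : LeftCont (zc W t) :=
  leftCont_of_continuousOn (continuousOn_zc hW t)

lemma meanOS_cens (hW : IsRef W) {n j : ℕ} {p : ℝ} (P : Par n j p) (t : ℝ) :
    meanOS n j (cens W t) = ∫ u in Ioo (0:ℝ) 1, zc W t u * fos n j u := by
  have := prob_cens hW t
  rw [meanOS_eq _ P.hj P.hjn]
  exact int_congr_uni fun u hu => by rw [qf_cens hW t hu]; rfl

lemma mean_cens (hW : IsRef W) (t : ℝ) : ∫ x, x ∂(cens W t) = mC W t := by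
  have := prob_cens hW t
  rw [integral_eq_uni (cens W t) (g := fun y => y) measurable_id]
  exact int_congr_uni fun u hu => by rw [qf_cens hW t hu]; rfl

lemma var2_cens (hW : IsRef W) (t : ℝ) : var2 (cens W t) = vC W t := by
  have := prob_cens hW t
  rw [var2_eq]
  exact varU_congr fun u hu => qf_cens hW t hu

lemma KC_meanOS (hW : IsRef W) {n j : ℕ} {p : ℝ} (P : Par n j p) (t : ℝ) :
    KC W n j p t = meanOS n j (cens W t) - qf W p := by
  rw [meanOS_cens hW P]; rfl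

lemma ePos_meanOS (hW : IsRef W) (h2 : NegSq W) {n j : ℕ} {p : ℝ} (P : Par n j p) (t : ℝ) :
    ePos W n j t = t - meanOS n j (cens W t) := by
  rw [meanOS_cens hW P, ePos_eq]
  have := KC_eq hW h2 P t
  unfold KC at this
  linarith

/-! ### The case of a nonpositive upper bound -/

lemma zero_attained (hW : IsRef W) {n j : ℕ} {p : ℝ} (P : Par n j p)
    (hK : ∀ t ∈ SW W, KC W n j p t ≤ 0) {μ : Measure ℝ} (h : μ ∈ CFam W)
    (h0 : bias n j p μ = 0) :
    MemLp (qf W) 2 uni ∧ (∫ u in Ioo (0:ℝ) 1, qf W u * fos n j u) = qf W p ∧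
      ∃ b c : ℝ, 0 < c ∧ ∀ u ∈ Ioo (0:ℝ) 1, qf (cdf μ) u = b + c * qf W u := by
  have hpm : p ∈ Ioo (0:ℝ) 1 := ⟨P.hp0, P.hp1⟩
  have h2 := negSq_of_mem hW h
  obtain ⟨φ, hφ, hφm, hQ⟩ := cfam_phi hW h
  have hQ2 := adm_memLp h.1
  have hpS := qf_mem_SW hW hpm
  have i3 : IntegrableOn (fos n j) (Ioo (0:ℝ) 1) := integrableOn_fos n j 0 1
  have i1 : IntegrableOn (fun u => qf (cdf μ) u * fos n j u) (Ioo (0:ℝ) 1) := integrable_mul_fos hQ2 n j
  obtain ⟨c, hc0, hcl, hcr⟩ := exists_support (isOpen_SW hW) hφ hφm hpS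
  set Q := qf (cdf μ) with hQdef
  -- numerator
  have hnum : (∫ u in Ioo (0:ℝ) 1, Q u * fos n j u) - Q p = 0 := by
    rw [← bias_mul h.1 P, h0, mul_zero]
  set g : ℝ → ℝ := fun u => c * (qf W u - qf W p) - (Q u - Q p) with hg
  have hg0 : ∀ u ∈ Ioo (0:ℝ) 1, 0 ≤ g u := by
    intro u hu
    have huS := qf_mem_SW hW hu
    rw [hg]
    simp only
    rw [hQ u hu, hQ p hpm]
    rcases le_total (qf W u) (qf W p) with h3 | h3
    · have := hcl _ huS _ hpS h3 le_rfl
      linarith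
    · have := hcr _ hpS _ huS h3 le_rfl
      linarith
  -- tail of the integral
  have i2 : IntegrableOn (fun u => |(Q u - Q p) * fos n j u|) (Ioo (0:ℝ) 1) := by
    have : IntegrableOn (fun u => (Q u - Q p) * fos n j u) (Ioo (0:ℝ) 1) := by
      have e : (fun u => (Q u - Q p) * fos n j u) = fun u => Q u * fos n j u - Q p * fos n j u := by
        funext u; ring
      rw [e]
      exact i1.sub (i3.const_mul _)
    exact this.abs
  have hsmall : ∀ v ∈ Ioo p 1, ∫ u in Ioo 0 v, g u * fos n j u ≤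
      ∫ u in Ioo v 1, |(Q u - Q p) * fos n j u| := by
    intro v hv
    have hvm : v ∈ Ioo (0:ℝ) 1 := ⟨P.hp0.trans hv.1, hv.2⟩
    set t := qf W v with ht
    have htS : t ∈ SW W := qf_mem_SW hW hvm
    have hpt : qf W p ≤ t := monotoneOn_qf hW.isDF hpm hvm hv.1.le
    have hKt := hK t htS
    unfold KC at hKt
    have hz := memLp_zc hW h2 t
    have i5 : IntegrableOn (fun u => zc W t u * fos n j u) (Ioo (0:ℝ) 1) := integrable_mul_fos hz n j
    have e0 : ∀ u, (c * (zc W t u - qf W p) - (Q u - Q p)) * fos n j u =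
        (c * (zc W t u * fos n j u) - Q u * fos n j u) + (Q p - c * qf W p) * fos n j u :=
      fun u => by ring
    have i6 : IntegrableOn (fun u => (c * (zc W t u - qf W p) - (Q u - Q p)) * fos n j u)
        (Ioo (0:ℝ) 1) := by
      simp only [e0]
      exact ((i5.const_mul _).sub i1).add (i3.const_mul _)
    have e1 : ∫ u in Ioo (0:ℝ) 1, (c * (zc W t u - qf W p) - (Q u - Q p)) * fos n j u ≤ 0 := by
      simp only [e0]
      have j1 : IntegrableOn (fun u => c * (zc W t u * fos n j u) - Q u * fos n j u)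
          (Ioo (0:ℝ) 1) := (i5.const_mul _).sub i1
      rw [integral_add j1 (i3.const_mul _), integral_sub (i5.const_mul _) i1, integral_const_mul,
        integral_const_mul, int_fos_one P.hj P.hjn]
      nlinarith
    have s1 := split_uni hvm.1 hvm.2 i6
    have e2 : ∫ u in Ioo 0 v, (c * (zc W t u - qf W p) - (Q u - Q p)) * fos n j u =
        ∫ u in Ioo 0 v, g u * fos n j u := by
      refine int_Ioo_congr fun u hu => ?_
      have hum : u ∈ Ioo (0:ℝ) 1 := ⟨hu.1, hu.2.trans hvm.2⟩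
      rw [zc_of_le (monotoneOn_qf hW.isDF hum hvm hu.2.le)]
    have e3 : -(∫ u in Ioo v 1, |(Q u - Q p) * fos n j u|) ≤
        ∫ u in Ioo v 1, (c * (zc W t u - qf W p) - (Q u - Q p)) * fos n j u := by
      rw [← integral_neg]
      refine setIntegral_mono_on (i2.mono_set (Ioo_subset_Ioo_left hvm.1.le)).neg
        (i6.mono_set (Ioo_subset_Ioo_left hvm.1.le)) measurableSet_Ioo fun u hu => ?_
      have hum : u ∈ Ioo (0:ℝ) 1 := ⟨hvm.1.trans hu.1, hu.2⟩
      rw [zc_of_ge (monotoneOn_qf hW.isDF hvm hum hu.1.le)]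
      have h4 := le_abs_self ((Q u - Q p) * fos n j u)
      have h5 := fos_nonneg n j hum.1.le hum.2.le
      have h6 : 0 ≤ c * (t - qf W p) * fos n j u :=
        mul_nonneg (mul_nonneg hc0 (by linarith)) h5
      have h7 : (c * (t - qf W p) - (Q u - Q p)) * fos n j u =
        c * (t - qf W p) * fos n j u - (Q u - Q p) * fos n j u := by ring
      rw [h7]
      linarith
    rw [e2] at s1
    linarith
  have htail : Tendsto (fun k : ℕ => ∫ u in Ioo (1 - 1 / ((k : ℝ) + 2)) 1,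
      |(Q u - Q p) * fos n j u|) atTop (𝓝 0) := by
    have hanti : Antitone (fun k : ℕ => Ioo (1 - 1 / ((k : ℝ) + 2)) (1:ℝ)) := by
      intro k l hkl
      refine Ioo_subset_Ioo_left ?_
      have h1 : (k : ℝ) ≤ l := by exact_mod_cast hkl
      have h2 : 1 / ((l : ℝ) + 2) ≤ 1 / ((k : ℝ) + 2) :=
        one_div_le_one_div_of_le (by positivity) (by linarith)
      linarith
    have hfi : ∃ k : ℕ, IntegrableOn (fun u => |(Q u - Q p) * fos n j u|)
        (Ioo (1 - 1 / ((k : ℝ) + 2)) (1:ℝ)) := by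
      refine ⟨0, i2.mono_set (Ioo_subset_Ioo_left ?_)⟩
      norm_num
    have h3 := tendsto_setIntegral_of_antitone (μ := (volume : Measure ℝ))
      (f := fun u => |(Q u - Q p) * fos n j u|) (fun k => measurableSet_Ioo) hanti hfi
    have h4 : (⋂ k : ℕ, Ioo (1 - 1 / ((k : ℝ) + 2)) (1:ℝ)) = ∅ := by
      ext u
      simp only [mem_iInter, mem_Ioo, mem_empty_iff_false, iff_false]
      intro h
      have hu1 := (h 0).2
      obtain ⟨k, hk⟩ := exists_nat_gt (1 / (1 - u))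
      have h5 := (h k).1
      have h6 : 0 < 1 - u := by linarith
      have h7 : 1 / ((k : ℝ) + 2) < 1 - u := by
        rw [div_lt_iff₀ h6] at hk
        rw [div_lt_iff₀ (by positivity)]
        nlinarith
      linarith
    rw [h4, setIntegral_empty] at h3
    exact h3
  have igk : ∀ v ∈ Ioo (0:ℝ) 1, IntegrableOn (fun u => g u * fos n j u) (Ioo 0 v) := by
    intro v hv
    have hz := memLp_zc hW h2 (qf W v)
    have i5 : IntegrableOn (fun u => zc W (qf W v) u * fos n j u) (Ioo (0:ℝ) 1) :=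
      integrable_mul_fos hz n j
    have i6 : IntegrableOn (fun u => (c * (zc W (qf W v) u * fos n j u) - Q u * fos n j u) +
        (Q p - c * qf W p) * fos n j u) (Ioo (0:ℝ) 1) :=
      ((i5.const_mul _).sub i1).add (i3.const_mul _)
    refine (i6.mono_set (Ioo_subset_Ioo_right hv.2.le)).congr_fun (fun u hu => ?_) measurableSet_Ioo
    have hum : u ∈ Ioo (0:ℝ) 1 := ⟨hu.1, hu.2.trans hv.2⟩
    simp only
    rw [zc_of_le (monotoneOn_qf hW.isDF hum hv hu.2.le), hg]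
    ring
  have hzero : ∀ v ∈ Ioo (0:ℝ) 1, ∫ u in Ioo 0 v, g u * fos n j u = 0 := by
    intro v hv
    refine le_antisymm ?_ ?_
    · refine ge_of_tendsto htail ?_
      have hlim : Tendsto (fun k : ℕ => 1 - 1 / ((k : ℝ) + 2)) atTop (𝓝 1) := by
        have h5 : Tendsto (fun k : ℕ => 1 / ((k : ℝ) + 2)) atTop (𝓝 0) := by
          have h6 : Tendsto (fun k : ℕ => (k : ℝ) + 2) atTop atTop :=
            tendsto_natCast_atTop_atTop.atTop_add tendsto_const_nhds
          have h7 := h6.inv_tendsto_atTop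
          refine h7.congr fun k => ?_
          rw [one_div]
          rfl
        simpa using h5.const_sub 1
      filter_upwards [hlim.eventually (lt_mem_nhds hv.2), hlim.eventually (lt_mem_nhds P.hp1)]
        with k hk1 hk2
      have hk3 : (1:ℝ) - 1 / ((k : ℝ) + 2) < 1 := by
        have : (0:ℝ) < 1 / ((k : ℝ) + 2) := by positivity
        linarith
      refine le_trans ?_ (hsmall _ ⟨hk2, hk3⟩)
      refine setIntegral_mono_set (igk _ ⟨P.hp0.trans hk2, hk3⟩) ?_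
        (Ioo_subset_Ioo_right hk1.le).eventuallyLE
      refine (ae_restrict_iff' measurableSet_Ioo).2 (Eventually.of_forall fun u hu => ?_)
      have hum : u ∈ Ioo (0:ℝ) 1 := ⟨hu.1, hu.2.trans hk3⟩
      exact mul_nonneg (hg0 u hum) (fos_nonneg n j hum.1.le hum.2.le)
    · refine setIntegral_nonneg measurableSet_Ioo fun u hu => ?_
      have hum : u ∈ Ioo (0:ℝ) 1 := ⟨hu.1, hu.2.trans hv.2⟩
      exact mul_nonneg (hg0 u hum) (fos_nonneg n j hum.1.le hum.2.le)
  have hgae : ∀ᵐ u ∂uni, g u = 0 := by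
    have h5 : ∀ k : ℕ, ∀ᵐ u ∂(volume : Measure ℝ), u ∈ Ioo (0:ℝ) (1 - 1 / ((k : ℝ) + 2)) → g u = 0 := by
      intro k
      have hk : (1:ℝ) - 1 / ((k : ℝ) + 2) ∈ Ioo (0:ℝ) 1 := by
        have h6 : (0:ℝ) < 1 / ((k : ℝ) + 2) := by positivity
        have h7 : 1 / ((k : ℝ) + 2) < 1 := by
          rw [div_lt_one (by positivity)]
          have : (0:ℝ) ≤ k := by positivity
          linarith
        exact ⟨by linarith, by linarith⟩
      have h8 := (setIntegral_eq_zero_iff_of_nonneg_ae (s := Ioo (0:ℝ) (1 - 1 / ((k : ℝ) + 2)))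
        ((ae_restrict_iff' measurableSet_Ioo).2 (Eventually.of_forall fun u hu =>
          mul_nonneg (hg0 u ⟨hu.1, hu.2.trans hk.2⟩) (fos_nonneg n j hu.1.le (hu.2.trans hk.2).le)))
        (igk _ hk)).1 (hzero _ hk)
      have h9 := (ae_restrict_iff' measurableSet_Ioo).1 h8
      filter_upwards [h9] with u hu hu1
      have h10 := hu hu1
      have h11 := fos_pos P.hj P.hjn hu1.1 (hu1.2.trans hk.2)
      have h12 : g u * fos n j u = 0 := h10
      exact (mul_eq_zero.1 h12).resolve_right h11.ne'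
    rw [← ae_all_iff] at h5
    refine (ae_restrict_iff' measurableSet_Ioo).2 ?_
    filter_upwards [h5] with u hu hu1
    obtain ⟨k, hk⟩ := exists_nat_gt (1 / (1 - u))
    refine hu k ⟨hu1.1, ?_⟩
    have h6 : 0 < 1 - u := by linarith [hu1.2]
    have h7 : 1 / ((k : ℝ) + 2) < 1 - u := by
      rw [div_lt_iff₀ h6] at hk
      rw [div_lt_iff₀ (by positivity)]
      nlinarith
    linarith
  have hQc := cfam_cont hW h
  have hgc : ContinuousOn g (Ioo 0 1) :=
    (((continuousOn_qf hW).sub continuousOn_const).const_mul c).sub (hQc.sub continuousOn_const)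
  have hgz : ∀ u ∈ Ioo (0:ℝ) 1, g u = 0 := eq_of_ae_eq_cont hgc continuousOn_const hgae
  have hc : 0 < c := by
    rcases eq_or_lt_of_le hc0 with h5 | h5
    · exfalso
      have h6 : ∀ u ∈ Ioo (0:ℝ) 1, Q u = Q p := by
        intro u hu
        have := hgz u hu
        rw [hg, ← h5] at this
        simp only at this
        linarith
      have h7 := adm_var h.1
      rw [← hQdef, varU_congr h6] at h7
      unfold varU at h7
      rw [int_const_Ioo zero_le_one] at h7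
      simp at h7
    · exact h5
  have hqf : ∀ u ∈ Ioo (0:ℝ) 1, qf W u = (Q u + (c * qf W p - Q p)) / c := by
    intro u hu
    have := hgz u hu
    rw [hg] at this
    simp only at this
    rw [eq_div_iff hc.ne']
    linarith
  refine ⟨?_, ?_, Q p - c * qf W p, c, hc, ?_⟩
  · have h8 : MemLp (fun u => (Q u + (c * qf W p - Q p)) * (1 / c)) 2 uni :=
      ((hQ2.add (memLp_const _)).mul_const _)
    refine (memLp_congr_ae ?_).1 h8
    refine (ae_restrict_iff' measurableSet_Ioo).2 (Eventually.of_forall fun u hu => ?_)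
    rw [hqf u hu]
    ring
  · have h9 : ∫ u in Ioo (0:ℝ) 1, qf W u * fos n j u =
        ∫ u in Ioo (0:ℝ) 1, (1 / c * (Q u * fos n j u) + (c * qf W p - Q p) / c * fos n j u) :=
      int_congr_uni fun u hu => by
        rw [hqf u hu]
        ring
    rw [h9, integral_add (i1.const_mul _) (i3.const_mul _), integral_const_mul,
      integral_const_mul, int_fos_one P.hj P.hjn]
    have h10 : ∫ u in Ioo (0:ℝ) 1, Q u * fos n j u = Q p := by linarith
    rw [h10]
    field_simp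
    ring
  · intro u hu
    have := hgz u hu
    rw [hg] at this
    simp only at this
    linarith

lemma prob_refLaw (hW : IsRef W) : IsProbabilityMeasure (refLaw W) :=
  isProbabilityMeasure_lawOf (monotoneOn_qf hW.isDF)

lemma eq_of_forall_Ioo {a b : ℝ} (ha0 : 0 ≤ a) (ha1 : a ≤ 1) (hb0 : 0 ≤ b) (hb1 : b ≤ 1)
    (h : ∀ u ∈ Ioo (0:ℝ) 1, (u ≤ a ↔ u ≤ b)) : a = b := by
  refine le_antisymm ?_ ?_
  · by_contra hcon
    push Not at hcon
    obtain ⟨u, hu1, hu2⟩ := exists_between hcon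
    have := (h u ⟨lt_of_le_of_lt hb0 hu1, lt_of_lt_of_le hu2 ha1⟩).1 hu2.le
    linarith
  · by_contra hcon
    push Not at hcon
    obtain ⟨u, hu1, hu2⟩ := exists_between hcon
    have := (h u ⟨lt_of_le_of_lt ha0 hu1, lt_of_lt_of_le hu2 hb1⟩).2 hu2.le
    linarith

lemma cdf_refLaw (hW : IsRef W) (x : ℝ) : cdf (refLaw W) x = W x := by
  have := prob_refLaw hW
  have hF := isDF_cdf (refLaw W)
  refine eq_of_forall_Ioo (hF.nonneg x) (hF.le_one x) (hW.isDF.nonneg x) (hW.isDF.le_one x)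
    fun u hu => ?_
  rw [← qf_le_iff hW.isDF hu]
  exact le_cdf_lawOf_iff (monotoneOn_qf hW.isDF) (leftCont_qf hW.isDF) hu x

lemma qf_refLaw (hW : IsRef W) {u : ℝ} (hu : u ∈ Ioo (0:ℝ) 1) : qf (cdf (refLaw W)) u = qf W u :=
  qf_lawOf (monotoneOn_qf hW.isDF) (leftCont_qf hW.isDF) hu

lemma refLaw_mem (hW : IsRef W) (h2 : MemLp (qf W) 2 uni) : refLaw W ∈ CFam W := by
  have hm := monotoneOn_qf hW.isDF
  have hlc := leftCont_qf hW.isDF
  refine ⟨adm_lawOf hm hlc h2 ?_, ?_, ?_⟩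
  · exact varU_pos_of_lt hm h2 (a := 1/3) (b := 2/3) (by norm_num) (by norm_num)
      (strictMonoOn_qf hW (by norm_num) (by norm_num) (by norm_num))
  · unfold ConvLit
    have hset : {x | 0 < cdf (refLaw W) x ∧ cdf (refLaw W) x < 1} = SW W := by
      ext x
      simp only [mem_ofPred_eq]
      rw [cdf_refLaw hW]
      rfl
    rw [hset]
    refine ⟨convex_SW hW, ?_⟩
    intro x hx y hy a b ha hb hab
    have hxy := convex_SW hW hx hy ha hb hab
    simp only
    rw [cdf_refLaw hW, cdf_refLaw hW, cdf_refLaw hW, qf_W hW hx, qf_W hW hy, qf_W hW hxy]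
  · intro x hx
    rw [cdf_refLaw hW] at hx
    have h1 : ∀ᶠ y in 𝓝[<] x, 0 < W y :=
      (hW.cont.continuousWithinAt (s := Iio x) (x := x)).eventually (lt_mem_nhds hx)
    obtain ⟨y, hy1, hy2⟩ := (h1.and self_mem_nhdsWithin).exists
    refine ⟨y, hy2, ?_⟩
    rw [cdf_refLaw hW]
    exact hy1

lemma meanOS_refLaw (hW : IsRef W) {n j : ℕ} {p : ℝ} (P : Par n j p) :
    meanOS n j (refLaw W) = ∫ u in Ioo (0:ℝ) 1, qf W u * fos n j u := by
  have := prob_refLaw hW
  rw [meanOS_eq _ P.hj P.hjn]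
  exact int_congr_uni fun u hu => by rw [qf_refLaw hW hu]

/-- Attainment when the upper bound over the convex family is zero. -/
lemma zero_attained_iff (hW : IsRef W) {n j : ℕ} {p : ℝ} (P : Par n j p)
    (hK : ∀ t ∈ SW W, KC W n j p t ≤ 0) {μ : Measure ℝ} (h : μ ∈ CFam W) :
    bias n j p μ = 0 ↔ MemLp id 2 (refLaw W) ∧ meanOS n j (refLaw W) = qf W p ∧
      ∃ b c : ℝ, 0 < c ∧ μ = (refLaw W).map (fun x => b + c * x) := by
  have hpm : p ∈ Ioo (0:ℝ) 1 := ⟨P.hp0, P.hp1⟩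
  have hp := prob_refLaw hW
  have hm := monotoneOn_qf hW.isDF
  have hlc := leftCont_qf hW.isDF
  have hL2 : MemLp id 2 (refLaw W) ↔ MemLp (qf W) 2 uni := by
    rw [memLp_qf_iff]
    refine memLp_congr_ae ((ae_restrict_iff' measurableSet_Ioo).2
      (Eventually.of_forall fun u hu => qf_refLaw hW hu))
  rw [hL2, meanOS_refLaw hW P]
  constructor
  · intro h0
    obtain ⟨h1, h2, b, c, hc, h3⟩ := zero_attained hW P hK h h0
    exact ⟨h1, h2, b, c, hc, (eq_map_iff h.1.prob hm hlc hc).2 h3⟩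
  · rintro ⟨h1, h2, b, c, hc, h3⟩
    have h4 := (eq_map_iff h.1.prob hm hlc hc).1 h3
    have hmem := refLaw_mem hW h1
    rw [bias_affine h.1 hmem.1 P hc (fun u hu => by rw [h4 u hu, qf_refLaw hW hu]),
      bias_eq hp P, qf_refLaw hW hpm,
      int_congr_uni (h := fun u => qf W u * fos n j u) (fun u hu => by rw [qf_refLaw hW hu]), h2,
      sub_self, zero_div]

/-! ### The nonpositive case and the positive case -/

lemma tendsto_bias_cens (hW : IsRef W) (h2 : NegSq W) {n j : ℕ} {p : ℝ} (P : Par n j p) :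
    Tendsto (fun u => bias n j p (cens W (qf W u))) (𝓝[>] 0) (𝓝 0) := by
  have hpm : p ∈ Ioo (0:ℝ) 1 := ⟨P.hp0, P.hp1⟩
  have hup : ∀ᶠ u in 𝓝[>] (0:ℝ), bias n j p (cens W (qf W u)) ≤ 0 := by
    filter_upwards [Ioo_mem_nhdsGT P.hp0] with u hu
    have hum : u ∈ Ioo (0:ℝ) 1 := ⟨hu.1, hu.2.trans P.hp1⟩
    have htp : qf W u ≤ qf W p := monotoneOn_qf hW.isDF hum hpm hu.2.le
    rw [bias_cens hW P, min_eq_right htp]
    refine div_nonpos_of_nonpos_of_nonneg ?_ (Real.sqrt_nonneg _)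
    have := KC_eq hW h2 P (qf W u)
    unfold KC at this
    have hb1 : 0 ≤ b1 W n j (qf W u) := by
      refine setIntegral_nonneg measurableSet_Ioo fun v hv => ?_
      exact mul_nonneg (pc_nonneg _ _) (fos_nonneg n j hv.1.le hv.2.le)
    linarith
  rw [tendsto_order]
  constructor
  · intro a ha
    obtain ⟨u0, hu0, h⟩ := bias_cens_near hW h2 P (ε := -a) (by linarith)
    filter_upwards [Ioo_mem_nhdsGT hu0.1] with u hu
    have := h u hu
    linarith
  · intro a ha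
    filter_upwards [hup] with u hu
    linarith

/-- The upper bound over the convex family, nonpositive case. -/
lemma conv_sup_zero (hW : IsRef W) (h2 : NegSq W) {n j : ℕ} {p : ℝ} (P : Par n j p)
    (hK : ∀ t ∈ SW W, KC W n j p t ≤ 0) : IsLUB (bias n j p '' CFam W) 0 := by
  refine ⟨?_, ?_⟩
  · rintro _ ⟨μ, hμ, rfl⟩
    exact conv_upper_zero hW P hK hμ
  · intro B hB
    by_contra hcon
    push Not at hcon
    obtain ⟨t, ht, h3⟩ := bias_cens_small hW h2 P (ε := -B) (by linarith)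
    have := hB ⟨_, cens_mem hW h2 ht, rfl⟩
    linarith

lemma FOC_iff (hW : IsRef W) (h2 : NegSq W) {n j : ℕ} {p t : ℝ} (P : Par n j p) :
    (FOC W n j p t (KC W n j p t / vC W t) ∧ 0 < KC W n j p t) ↔
      (t ∈ SW W ∧ qf W p < t ∧ qf W p < meanOS n j (cens W t) ∧
        (meanOS n j (cens W t) - qf W p) * (t - ∫ x, x ∂(cens W t)) * (1 - W t) =
          var2 (cens W t) * (1 - Fos n j (W t))) := by
  rw [KC_meanOS hW P, mean_cens hW, var2_cens hW]
  constructor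
  · rintro ⟨T, hK⟩
    have hv := vC_pos hW h2 T.mem
    refine ⟨T.mem, T.lt, by linarith, ?_⟩
    have := T.eq2
    rw [← this]
    field_simp
  · rintro ⟨h1, h3, h4, h5⟩
    have hv := vC_pos hW h2 h1
    have hK : 0 < meanOS n j (cens W t) - qf W p := by linarith
    refine ⟨⟨h1, h3, (div_pos hK hv).le, ?_, ?_⟩, hK⟩
    · rw [KC_meanOS hW P, div_mul_cancel₀ _ hv.ne']
    · have e : (meanOS n j (cens W t) - qf W p) / vC W t * (t - mC W t) * (1 - W t) =
          ((meanOS n j (cens W t) - qf W p) * (t - mC W t) * (1 - W t)) / vC W t := by ring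
      rw [e, h5, mul_div_cancel_left₀ _ hv.ne']

end

end Pool.Agent.Lib.QBias
end

section

/-!
The parts of the final statement.
-/

set_option autoImplicit false

namespace Pool.Agent.Lib.QBias

open MeasureTheory ProbabilityTheory Set Filter Topology

noncomputable section

variable {W : ℝ → ℝ}

/-- Laws `F` with finite positive variance such that `W^{-1} ∘ F` is convex on `{0 < F < 1}`
(mass at the left endpoint allowed). -/
def LitFam (W : ℝ → ℝ) : Set (Measure ℝ) := {μ | Adm μ ∧ ConvLit (cdf μ) W}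

lemma isLUB_of_tendsto {S : Set (Measure ℝ)} {n j : ℕ} {p B : ℝ} (hb : ∀ μ ∈ S, bias n j p μ ≤ B)
    {μ : ℕ → Measure ℝ} (hμ : ∀ k, μ k ∈ S) (hlim : Tendsto (fun k => bias n j p (μ k)) atTop (𝓝 B)) :
    IsLUB (bias n j p '' S) B := by
  refine ⟨?_, ?_⟩
  · rintro _ ⟨ν, hν, rfl⟩
    exact hb ν hν
  · intro C hC
    exact le_of_tendsto hlim (Eventually.of_forall fun k => hC ⟨μ k, hμ k, rfl⟩)

lemma isGLB_of_tendsto {S : Set (Measure ℝ)} {n j : ℕ} {p B : ℝ} (hb : ∀ μ ∈ S, B ≤ bias n j p μ)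
    {μ : ℕ → Measure ℝ} (hμ : ∀ k, μ k ∈ S) (hlim : Tendsto (fun k => bias n j p (μ k)) atTop (𝓝 B)) :
    IsGLB (bias n j p '' S) B := by
  refine ⟨?_, ?_⟩
  · rintro _ ⟨ν, hν, rfl⟩
    exact hb ν hν
  · intro C hC
    exact ge_of_tendsto hlim (Eventually.of_forall fun k => hC ⟨μ k, hμ k, rfl⟩)

/-! ### The star family -/

theorem star_upper (hW : IsRef W) (hb : BddBelow {y | 0 < W y}) {n j : ℕ} {p : ℝ}
    (P : Par n j p) :
    IsLUB (bias n j p '' StarFam W) ((1 - Fos n j p) / Real.sqrt (p * (1 - p))) ∧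
    (∀ μ ∈ StarFam W, bias n j p μ < (1 - Fos n j p) / Real.sqrt (p * (1 - p))) ∧
    Approached (StarFam W) n j p ((1 - Fos n j p) / Real.sqrt (p * (1 - p)))
      (fun u => if u ≤ p then 0 else 1) := by
  obtain ⟨μ, M, h1, h2, h3⟩ := star_upper_approach hW hb P
  have hm : ∀ k, μ k ∈ StarFam W := fun k => ⟨(h1 k).1, (h1 k).2.2⟩
  exact ⟨isLUB_of_tendsto (fun ν hν => bias_le_Ub hν.1 P) hm h3,
    fun ν hν => star_upper_strict hν.1 hW hν.2 P, μ, M, hm, h2, h3⟩

lemma LbSq_self {n j : ℕ} {p : ℝ} (P : Par n j p) :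
    Real.sqrt (LbSq n j p p) = Fos n j p / Real.sqrt (p * (1 - p)) := by
  have hp0 := P.hp0
  have hp1 : 0 < 1 - p := by linarith [P.hp1]
  have e : LbSq n j p p = (Fos n j p / Real.sqrt (p * (1 - p))) ^ 2 := by
    unfold LbSq
    rw [intervalIntegral.integral_same, div_pow, Real.sq_sqrt (by positivity)]
    field_simp
    ring
  rw [e, Real.sqrt_sq]
  exact div_nonneg (Fos_nonneg P.hj P.hjn hp0.le P.hp1.le) (Real.sqrt_nonneg _)

theorem star_lower_flat (hW : IsRef W) (hb : BddBelow {y | 0 < W y}) {n j : ℕ} {p : ℝ}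
    (P : Par n j p) (hF : Fos n j p ≤ p * fos n j p) :
    IsGLB (bias n j p '' StarFam W) (-(Fos n j p / Real.sqrt (p * (1 - p)))) ∧
    (∀ μ ∈ StarFam W, -(Fos n j p / Real.sqrt (p * (1 - p))) < bias n j p μ) ∧
    Approached (StarFam W) n j p (-(Fos n j p / Real.sqrt (p * (1 - p))))
      (fun u => if u ≤ p then 0 else 1) := by
  obtain ⟨μ, M, h1, h2, h3⟩ := star_lower_approach_flat hW hb P
  have hm : ∀ k, μ k ∈ StarFam W := fun k => ⟨(h1 k).1, (h1 k).2.2⟩
  have S : SPt n j p p := ⟨P.hp, le_rfl, hF⟩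
  have e := LbSq_self P
  refine ⟨isGLB_of_tendsto (fun ν hν => ?_) hm h3, fun ν hν => ?_, μ, M, hm, h2, h3⟩
  · have := Lb_le_bias hν.1 P S
    rwa [e] at this
  · have := star_lower_strict hν.1 hW hν.2 P S
    rwa [e] at this

theorem star_lower_interior (hW : IsRef W) (hb : BddBelow {y | 0 < W y}) {n j : ℕ} {p s : ℝ}
    (P : Par n j p) (h1s : ((j : ℝ) - 1) / ((n : ℝ) - 1) ≤ s) (h2s : s < p)
    (h3s : Fos n j s = s * fos n j s) :
    IsGLB (bias n j p '' StarFam W) (-Real.sqrt (s * fos n j s ^ 2 + (∫ u in s..p, fos n j u ^ 2) +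
      Fos n j p ^ 2 / (1 - p))) ∧
    (∀ μ ∈ StarFam W, -Real.sqrt (s * fos n j s ^ 2 + (∫ u in s..p, fos n j u ^ 2) +
      Fos n j p ^ 2 / (1 - p)) < bias n j p μ) ∧
    Approached (StarFam W) n j p (-Real.sqrt (s * fos n j s ^ 2 + (∫ u in s..p, fos n j u ^ 2) +
      Fos n j p ^ 2 / (1 - p)))
      (fun u => if u ≤ p then -fos n j (max u s) else Fos n j p / (1 - p)) := by
  have S : SIn n j p s := ⟨h1s, h2s, h3s⟩
  have hs0 : 0 ≤ s := (md_nonneg P.hn P.hj).trans h1s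
  have e : LbSq n j p s = s * fos n j s ^ 2 + (∫ u in s..p, fos n j u ^ 2) +
      Fos n j p ^ 2 / (1 - p) := by
    unfold LbSq
    rw [h3s]
    rcases eq_or_lt_of_le hs0 with h | h
    · rw [← h]; simp
    · congr 2
      field_simp
  obtain ⟨μ, M, h1, h2, h3⟩ := star_lower_approach hW hb P S
  have hm : ∀ k, μ k ∈ StarFam W := fun k => ⟨(h1 k).1, (h1 k).2.2⟩
  rw [e] at h3
  refine ⟨isGLB_of_tendsto (fun ν hν => ?_) hm h3, fun ν hν => ?_, μ, M, hm, h2, h3⟩
  · have := Lb_le_bias hν.1 P S.spt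
    rwa [e] at this
  · have := star_lower_strict hν.1 hW hν.2 P S.spt
    rwa [e] at this

/-! ### The convex family -/

theorem conv_nonempty (hW : IsRef W) : (CFam W).Nonempty ↔ NegSq W := by
  constructor
  · rintro ⟨μ, hμ⟩
    exact negSq_of_mem hW hμ
  · intro h2
    exact ⟨_, cens_mem hW h2 (qf_mem_SW hW (u := 1/2) (by norm_num))⟩

theorem conv_sup_pos (hW : IsRef W) (h2 : NegSq W) {n j : ℕ} {p : ℝ} (P : Par n j p)
    (h : ∃ t ∈ SW W, qf W p < meanOS n j (cens W t)) :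
    (∃! t, t ∈ SW W ∧ qf W p < t ∧ qf W p < meanOS n j (cens W t) ∧
      (meanOS n j (cens W t) - qf W p) * (t - ∫ x, x ∂(cens W t)) * (1 - W t) =
        var2 (cens W t) * (1 - Fos n j (W t))) ∧
    ∀ t, (t ∈ SW W ∧ qf W p < t ∧ qf W p < meanOS n j (cens W t) ∧
      (meanOS n j (cens W t) - qf W p) * (t - ∫ x, x ∂(cens W t)) * (1 - W t) =
        var2 (cens W t) * (1 - Fos n j (W t))) →
      0 < bias n j p (cens W t) ∧ IsGreatest (bias n j p '' CFam W) (bias n j p (cens W t)) ∧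
      ∀ μ ∈ CFam W, bias n j p μ = bias n j p (cens W t) ↔
        ∃ b c : ℝ, 0 < c ∧ μ = (cens W t).map (fun x => b + c * x) := by
  have hpm : p ∈ Ioo (0:ℝ) 1 := ⟨P.hp0, P.hp1⟩
  obtain ⟨t1, ht1, hK1⟩ := h
  have hK1' : 0 < KC W n j p t1 := by rw [KC_meanOS hW P]; linarith
  have hpt1 : qf W p < t1 := by
    by_contra hcon
    push Not at hcon
    have h3 : KC W n j p t1 ≤ 0 := by
      have h4 := KC_eq hW h2 P t1
      have hb1 : 0 ≤ b1 W n j t1 := by
        refine setIntegral_nonneg measurableSet_Ioo fun v hv => ?_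
        exact mul_nonneg (pc_nonneg _ _) (fos_nonneg n j hv.1.le hv.2.le)
      linarith
    linarith
  obtain ⟨t, T, hK⟩ := exists_FOC hW h2 P ht1 hpt1 hK1'
  refine ⟨⟨t, (FOC_iff hW h2 P).1 ⟨T, hK⟩, fun t' ht' => ?_⟩, fun t' ht' => ?_⟩
  · obtain ⟨T', hK'⟩ := (FOC_iff hW h2 P).2 ht'
    exact FOC_unique hW P h2 T' hK' T hK
  · obtain ⟨T', hK'⟩ := (FOC_iff hW h2 P).2 ht'
    have hb := bias_cens_ge hW P T'.lt.le
    have hv := vC_pos hW h2 T'.mem
    refine ⟨?_, ⟨⟨_, cens_mem hW h2 T'.mem, rfl⟩, ?_⟩, fun μ hμ => ⟨fun heq => ?_, ?_⟩⟩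
    · rw [hb]
      exact div_pos hK' (Real.sqrt_pos.2 hv)
    · rintro _ ⟨μ, hμ, rfl⟩
      rw [hb]
      exact conv_upper_bound hW P h2 T' hμ
    · rw [hb] at heq
      obtain ⟨b, c, hc, hq⟩ := conv_upper_unique hW P h2 T' hK' hμ heq
      exact ⟨b, c, hc, (eq_map_iff hμ.1.prob (monotoneOn_zc hW t') (leftCont_zc hW t') hc).2 hq⟩
    · rintro ⟨b, c, hc, hq⟩
      have hq' := (eq_map_iff hμ.1.prob (monotoneOn_zc hW t') (leftCont_zc hW t') hc).1 hq
      refine bias_affine hμ.1 (cens_mem hW h2 T'.mem).1 P hc (b := b) fun u hu => ?_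
      rw [hq' u hu, qf_cens hW t' hu]
      rfl

theorem conv_sup_nonpos (hW : IsRef W) (h2 : NegSq W) {n j : ℕ} {p : ℝ} (P : Par n j p)
    (h : ∀ t ∈ SW W, meanOS n j (cens W t) ≤ qf W p) :
    IsLUB (bias n j p '' CFam W) 0 ∧
    Tendsto (fun u => bias n j p (cens W (qf W u))) (𝓝[>] 0) (𝓝 0) ∧
    ∀ μ ∈ CFam W, bias n j p μ = 0 ↔ MemLp id 2 (refLaw W) ∧ meanOS n j (refLaw W) = qf W p ∧
      ∃ b c : ℝ, 0 < c ∧ μ = (refLaw W).map (fun x => b + c * x) := by
  have hK : ∀ t ∈ SW W, KC W n j p t ≤ 0 := fun t ht => by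
    rw [KC_meanOS hW P]
    linarith [h t ht]
  exact ⟨conv_sup_zero hW h2 P hK, tendsto_bias_cens hW h2 P,
    fun μ hμ => zero_attained_iff hW P hK hμ⟩

lemma covC_eq' (hW : IsRef W) (μ : Measure ℝ) (t : ℝ) :
    covC W μ t = ∫ u in Ioo (0:ℝ) 1, qf (cdf μ) u * (min (qf W u) t - ∫ x, x ∂(cens W t)) := by
  rw [mean_cens hW]
  rfl

theorem conv_inf (hW : IsRef W) (h2 : NegSq W) {n j : ℕ} {p : ℝ} (P : Par n j p) :
    (∃ ν ∈ CFam W, bias n j p ν < 0 ∧ IsLeast (bias n j p '' CFam W) (bias n j p ν) ∧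
      (∀ u ∈ Ioo p 1, qf (cdf ν) u = qf (cdf ν) p) ∧
      ∀ μ ∈ CFam W, bias n j p μ = bias n j p ν ↔
        ∃ b c : ℝ, 0 < c ∧ μ = ν.map (fun x => b + c * x)) ∧
    (∀ μ ∈ CFam W, IsLeast (bias n j p '' CFam W) (bias n j p μ) ↔
      ∀ t ∈ SW W, t ≤ qf W p → (t - meanOS n j (cens W t)) * Real.sqrt (var2 μ) ≤
        -bias n j p μ * ∫ u in Ioo (0:ℝ) 1,
          qf (cdf μ) u * (min (qf W u) t - ∫ x, x ∂(cens W t))) := by
  obtain ⟨ν, hν, hneg, hmin, hconst, huniq, hkkt⟩ := conv_lower_general hW h2 P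
  refine ⟨⟨ν, hν, hneg, ⟨⟨ν, hν, rfl⟩, ?_⟩, hconst, fun μ hμ => ⟨fun heq => ?_, ?_⟩⟩,
    fun μ hμ => ⟨fun hl t ht htp => ?_, fun hk => ⟨⟨μ, hμ, rfl⟩, ?_⟩⟩⟩
  · rintro _ ⟨μ, hμ, rfl⟩
    exact hmin μ hμ
  · obtain ⟨b, c, hc, hq⟩ := huniq μ hμ heq
    have e := (eq_map_iff hμ.1.prob (adm_mono hν.1)
      (leftCont_qf (@isDF_cdf ν hν.1.prob)) hc (b := b)).2 hq
    have e2 : lawOf (qf (cdf ν)) = ν := by
      have := hν.1.prob
      exact map_qf ν
    rw [e2] at e
    exact ⟨b, c, hc, e⟩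
  · rintro ⟨b, c, hc, hq⟩
    have e2 : lawOf (qf (cdf ν)) = ν := by
      have := hν.1.prob
      exact map_qf ν
    rw [← e2] at hq
    have e := (eq_map_iff hμ.1.prob (adm_mono hν.1)
      (leftCont_qf (@isDF_cdf ν hν.1.prob)) hc (b := b)).1 hq
    exact bias_affine hμ.1 hν.1 P hc e
  · have heq : bias n j p μ = bias n j p ν :=
      le_antisymm (hl.2 ⟨ν, hν, rfl⟩) (hmin μ hμ)
    have := hkkt μ hμ heq t ht htp
    rwa [ePos_meanOS hW h2 P, covC_eq' hW] at this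
  · rintro _ ⟨μ', hμ', rfl⟩
    refine conv_lower_suff hW h2 P hμ (fun t ht htp => ?_) μ' hμ'
    rw [ePos_meanOS hW h2 P, covC_eq' hW]
    exact hk t ht htp

theorem conv_inf_closed (hW : IsRef W) (h2 : NegSq W) {n j : ℕ} {p : ℝ} (P : Par n j p)
    (hF : Fos n j p ≤ p * fos n j p) :
    IsLeast (bias n j p '' CFam W) (bias n j p (cens W (qf W p))) := by
  have hpm : p ∈ Ioo (0:ℝ) 1 := ⟨P.hp0, P.hp1⟩
  refine ⟨⟨_, cens_mem hW h2 (qf_mem_SW hW hpm), rfl⟩, ?_⟩
  rintro _ ⟨μ, hμ, rfl⟩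
  rw [bias_cens_ge hW P le_rfl]
  exact conv_lower_bound hW P hF hμ

/-- The equation for the optimal level `v` of the upper bound over the convex family. -/
def Crit (W : ℝ → ℝ) (n j : ℕ) (p v : ℝ) : Prop :=
  v ∈ Ioo p 1 ∧ qf W p < meanOS n j (cut W v) ∧
    (meanOS n j (cut W v) - qf W p) * (qf W v - ∫ x, x ∂(cut W v)) * (1 - v) =
      var2 (cut W v) * (1 - Fos n j v)

lemma crit_iff (hW : IsRef W) {n j : ℕ} {p v : ℝ} (P : Par n j p) (hv : v ∈ Ioo (0:ℝ) 1) :
    Crit W n j p v ↔ (qf W v ∈ SW W ∧ qf W p < qf W v ∧ qf W p < meanOS n j (cens W (qf W v)) ∧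
      (meanOS n j (cens W (qf W v)) - qf W p) * (qf W v - ∫ x, x ∂(cens W (qf W v))) *
        (1 - W (qf W v)) = var2 (cens W (qf W v)) * (1 - Fos n j (W (qf W v)))) := by
  have hpm : p ∈ Ioo (0:ℝ) 1 := ⟨P.hp0, P.hp1⟩
  rw [W_qf hW hv]
  unfold Crit cut
  constructor
  · rintro ⟨h1, h2, h3⟩
    exact ⟨qf_mem_SW hW hv, strictMonoOn_qf hW hpm hv h1.1, h2, h3⟩
  · rintro ⟨_, h1, h2, h3⟩
    refine ⟨⟨?_, hv.2⟩, h2, h3⟩
    by_contra hcon
    push Not at hcon
    have := monotoneOn_qf hW.isDF hv hpm hcon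
    linarith

theorem conv_sup_pos' (hW : IsRef W) (h2 : NegSq W) {n j : ℕ} {p : ℝ} (P : Par n j p)
    (h : ∃ v ∈ Ioo (0:ℝ) 1, qf W p < meanOS n j (cut W v)) :
    ∃ v : ℝ, (∀ v' : ℝ, Crit W n j p v' ↔ v' = v) ∧ 0 < bias n j p (cut W v) ∧
      IsGreatest (bias n j p '' CFam W) (bias n j p (cut W v)) ∧
      ∀ μ ∈ CFam W, bias n j p μ = bias n j p (cut W v) ↔
        ∃ b c : ℝ, 0 < c ∧ μ = (cut W v).map (fun x => b + c * x) := by
  obtain ⟨v0, hv0, h0⟩ := h
  obtain ⟨⟨t, ht, htu⟩, hall⟩ := conv_sup_pos hW h2 P ⟨_, qf_mem_SW hW hv0, h0⟩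
  have hWt : W t ∈ Ioo (0:ℝ) 1 := W_mem ht.1
  have hqt : qf W (W t) = t := qf_W hW ht.1
  refine ⟨W t, fun v' => ⟨fun hc => ?_, ?_⟩, ?_⟩
  · have hv' : v' ∈ Ioo (0:ℝ) 1 := ⟨P.hp0.trans hc.1.1, hc.1.2⟩
    have := htu _ ((crit_iff hW P hv').1 hc)
    rw [← this, W_qf hW hv']
  · rintro rfl
    refine (crit_iff hW P hWt).2 ?_
    rw [hqt]
    exact ht
  · unfold cut
    rw [hqt]
    exact hall t ht

theorem conv_sup_nonpos' (hW : IsRef W) (h2 : NegSq W) {n j : ℕ} {p : ℝ} (P : Par n j p)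
    (h : ∀ v ∈ Ioo (0:ℝ) 1, meanOS n j (cut W v) ≤ qf W p) :
    IsLUB (bias n j p '' CFam W) 0 ∧
    Tendsto (fun v => bias n j p (cut W v)) (𝓝[>] 0) (𝓝 0) ∧
    ∀ μ ∈ CFam W, bias n j p μ = 0 ↔ MemLp id 2 (refLaw W) ∧ meanOS n j (refLaw W) = qf W p ∧
      ∃ b c : ℝ, 0 < c ∧ μ = (refLaw W).map (fun x => b + c * x) := by
  refine conv_sup_nonpos hW h2 P fun t ht => ?_
  have := h (W t) (W_mem ht)
  unfold cut at this
  rwa [qf_W hW ht] at this

theorem conv_inf' (hW : IsRef W) (h2 : NegSq W) {n j : ℕ} {p : ℝ} (P : Par n j p) :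
    (∃ ν ∈ CFam W, bias n j p ν < 0 ∧ IsLeast (bias n j p '' CFam W) (bias n j p ν) ∧
      (∀ u ∈ Ioo p 1, qf (cdf ν) u = qf (cdf ν) p) ∧
      ∀ μ ∈ CFam W, bias n j p μ = bias n j p ν ↔
        ∃ b c : ℝ, 0 < c ∧ μ = ν.map (fun x => b + c * x)) ∧
    (∀ μ ∈ CFam W, IsLeast (bias n j p '' CFam W) (bias n j p μ) ↔
      ∀ v ∈ Ioc 0 p, (qf W v - meanOS n j (cut W v)) * Real.sqrt (var2 μ) ≤
        -bias n j p μ * ∫ u in Ioo (0:ℝ) 1,
          qf (cdf μ) u * (min (qf W u) (qf W v) - ∫ x, x ∂(cut W v))) := by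
  obtain ⟨h3, h4⟩ := conv_inf hW h2 P
  have hpm : p ∈ Ioo (0:ℝ) 1 := ⟨P.hp0, P.hp1⟩
  refine ⟨h3, fun μ hμ => ?_⟩
  rw [h4 μ hμ]
  constructor
  · intro h v hv
    have hvm : v ∈ Ioo (0:ℝ) 1 := ⟨hv.1, lt_of_le_of_lt hv.2 P.hp1⟩
    exact h _ (qf_mem_SW hW hvm) (monotoneOn_qf hW.isDF hvm hpm hv.2)
  · intro h t ht htp
    have hWt := W_mem ht
    have hle : W t ≤ p := by
      have := hW.mono htp
      rwa [W_qf hW hpm] at this
    have := h (W t) ⟨hWt.1, hle⟩
    unfold cut at this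
    rwa [qf_W hW ht] at this

theorem conv_nonempty' (hW : IsRef W) :
    (CFam W).Nonempty ↔ MemLp (fun x : ℝ => min x 0) 2 (refLaw W) := by
  rw [conv_nonempty hW]
  unfold refLaw lawOf
  have hm : AEMeasurable (qf W) uni := aemeasurable_of_monotoneOn (monotoneOn_qf hW.isDF)
  rw [memLp_map_measure_iff (by fun_prop) hm]
  rfl

/-! ### Mass at the left endpoint allowed -/

theorem lit_sup (hW : IsRef W) {n j : ℕ} {p : ℝ} (P : Par n j p) :
    IsLUB (bias n j p '' LitFam W) ((1 - Fos n j p) / Real.sqrt (p * (1 - p))) := by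
  obtain ⟨μ, h1, h3⟩ := lit_upper_approach hW P
  exact isLUB_of_tendsto (fun ν hν => bias_le_Ub hν.1 P) (fun k => h1 k) h3

theorem lit_inf (hW : IsRef W) {n j : ℕ} {p : ℝ} (P : Par n j p)
    (hF : Fos n j p ≤ p * fos n j p) :
    IsGLB (bias n j p '' LitFam W) (-(Fos n j p / Real.sqrt (p * (1 - p)))) := by
  obtain ⟨μ, h1, h3⟩ := lit_lower_approach hW P
  have S : SPt n j p p := ⟨P.hp, le_rfl, hF⟩
  refine isGLB_of_tendsto (fun ν hν => ?_) (fun k => h1 k) h3
  have := Lb_le_bias hν.1 P S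
  rwa [LbSq_self P] at this

end

end Pool.Agent.Lib.QBias
end

section

/-!
The shape of the extremal law for the lower bound over the convex order family.
-/

set_option autoImplicit false

namespace Pool.Agent.Lib.QBias

open MeasureTheory ProbabilityTheory Set Filter Topology

noncomputable section

variable {W : ℝ → ℝ}

/-! ### Concave functions made constant on one side -/

lemma concave_comp_min {S : Set ℝ} {χ : ℝ → ℝ} (hχ : ConcaveOn ℝ S χ)
    {a : ℝ} (ha : a ∈ S) (hm : ∀ y ∈ S, ∀ y' ∈ S, y ≤ y' → y' ≤ a → χ y ≤ χ y') :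
    ConcaveOn ℝ S (fun y => χ (min y a)) := by
  have hmin : ∀ y ∈ S, min y a ∈ S := fun y hy => by
    rcases le_total y a with h | h
    · rwa [min_eq_left h]
    · rwa [min_eq_right h]
  refine ⟨hχ.1, fun x hx y hy s t hs ht hst => ?_⟩
  have hz := hχ.1 hx hy hs ht hst
  have hz' := hχ.1 (hmin x hx) (hmin y hy) hs ht hst
  have h1 := hχ.2 (hmin x hx) (hmin y hy) hs ht hst
  simp only [smul_eq_mul] at hz hz' h1 ⊢
  refine h1.trans (hm _ hz' _ (hmin _ hz) (le_min ?_ ?_) (min_le_right _ _))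
  · have a1 := mul_le_mul_of_nonneg_left (min_le_left x a) hs
    have a2 := mul_le_mul_of_nonneg_left (min_le_left y a) ht
    linarith
  · have a1 := mul_le_mul_of_nonneg_left (min_le_right x a) hs
    have a2 := mul_le_mul_of_nonneg_left (min_le_right y a) ht
    have a3 : s * a + t * a = a := by rw [← add_mul, hst, one_mul]
    linarith

lemma concave_comp_max {S : Set ℝ} {χ : ℝ → ℝ} (hχ : ConcaveOn ℝ S χ)
    {b : ℝ} (hb : b ∈ S) (hm : ∀ y ∈ S, ∀ y' ∈ S, y ≤ y' → b ≤ y → χ y' ≤ χ y) :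
    ConcaveOn ℝ S (fun y => χ (max y b)) := by
  have hmax : ∀ y ∈ S, max y b ∈ S := fun y hy => by
    rcases le_total y b with h | h
    · rwa [max_eq_right h]
    · rwa [max_eq_left h]
  refine ⟨hχ.1, fun x hx y hy s t hs ht hst => ?_⟩
  have hz := hχ.1 hx hy hs ht hst
  have hz' := hχ.1 (hmax x hx) (hmax y hy) hs ht hst
  have h1 := hχ.2 (hmax x hx) (hmax y hy) hs ht hst
  simp only [smul_eq_mul] at hz hz' h1 ⊢
  refine h1.trans (hm _ (hmax _ hz) _ hz' (max_le ?_ ?_) (le_max_right _ _))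
  · have a1 := mul_le_mul_of_nonneg_left (le_max_left x b) hs
    have a2 := mul_le_mul_of_nonneg_left (le_max_left y b) ht
    linarith
  · have a1 := mul_le_mul_of_nonneg_left (le_max_right x b) hs
    have a2 := mul_le_mul_of_nonneg_left (le_max_right y b) ht
    have a3 : s * b + t * b = b := by rw [← add_mul, hst, one_mul]
    linarith

/-- Removing the curvature of `φ` on `[a, b]`. -/
def flat (φ : ℝ → ℝ) (a b ca cb y : ℝ) : ℝ :=
  (φ (min y a) - ca * min y a) + (φ (max y b) + cb * (min y b - b)) - φ a + ca * a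

lemma CTr_flat (hW : IsRef W) {p : ℝ} (hp : p ∈ Ioo (0:ℝ) 1) {φ : ℝ → ℝ} (h : CTr W p φ)
    {a b ca cb : ℝ} (ha : a ∈ SW W) (hb : b ∈ SW W) (hap : a ≤ qf W p)
    (hcb : 0 ≤ cb) (hor : b ≤ qf W p ∨ cb = 0)
    (hca : ∀ y ∈ SW W, ∀ y' ∈ SW W, y ≤ y' → y' ≤ a → ca * (y' - y) ≤ φ y' - φ y)
    (hcb' : ∀ y ∈ SW W, ∀ y' ∈ SW W, y ≤ y' → b ≤ y → φ y' - φ y ≤ cb * (y' - y)) :
    CTr W p (flat φ a b ca cb) := by
  have hpS := qf_mem_SW hW hp
  have hmin : ∀ c ∈ SW W, ∀ y ∈ SW W, min y c ∈ SW W := fun c hc y hy => by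
    rcases le_total y c with h | h
    · rwa [min_eq_left h]
    · rwa [min_eq_right h]
  have hmax : ∀ c ∈ SW W, ∀ y ∈ SW W, max y c ∈ SW W := fun c hc y hy => by
    rcases le_total y c with h | h
    · rwa [max_eq_right h]
    · rwa [max_eq_left h]
  have hlin : ∀ c : ℝ, ConcaveOn ℝ (SW W) (fun y => c * y) := fun c =>
    ⟨convex_SW hW, fun x _ y _ s t _ _ _ => by simp only [smul_eq_mul]; linarith⟩
  have hc1 : ConcaveOn ℝ (SW W) (fun y => φ y + (-ca) * y) := h.conc.add (hlin _)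
  have hc2 : ConcaveOn ℝ (SW W) (fun y => φ y + (-cb) * y) := h.conc.add (hlin _)
  have k1 := concave_comp_min hc1 ha (fun y hy y' hy' h1 h3 => by
    have := hca y hy y' hy' h1 h3
    linarith)
  have k2 := concave_comp_max hc2 hb (fun y hy y' hy' h1 h3 => by
    have := hcb' y hy y' hy' h1 h3
    linarith)
  refine ⟨?_, ?_, ?_⟩
  · have k3 := ((k1.add k2).add (hlin cb)).add_const (-φ a + ca * a)
    refine k3.congr fun y _ => ?_
    have e : min y b = y + b - max y b := by linarith [min_add_max y b]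
    unfold flat
    simp only [Pi.add_apply]
    rw [e]; ring
  · intro x hx y hy hxy
    have h1 := hca _ (hmin a ha x hx) _ (hmin a ha y hy) (min_le_min_right a hxy) (min_le_right _ _)
    have h3 := h.mono (hmax b hb x hx) (hmax b hb y hy) (max_le_max_right b hxy)
    have h4 := mul_le_mul_of_nonneg_left (min_le_min_right b hxy) hcb
    unfold flat
    linarith
  · intro y hy hpy
    unfold flat
    rw [min_eq_right (hap.trans hpy), min_eq_right hap]
    rcases hor with h1 | h1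
    · rw [max_eq_left (h1.trans hpy), max_eq_left h1, min_eq_right (h1.trans hpy),
        min_eq_right h1, h.const y hy hpy]
    · rw [h1]
      have h3 := h.const _ (hmax b hb y hy) (hpy.trans (le_max_left _ _))
      have h4 := h.const _ (hmax b hb _ hpS) (le_max_left _ _)
      rw [h3, h4]; ring

lemma memLp_comp_min (hW : IsRef W) {φ : ℝ → ℝ} (hm : MonotoneOn φ (SW W))
    (h2φ : MemLp (fun u => φ (qf W u)) 2 uni) {a : ℝ} (ha : a ∈ SW W) :
    MemLp (fun u => φ (min (qf W u) a)) 2 uni := by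
  have hmin : ∀ u ∈ Ioo (0:ℝ) 1, min (qf W u) a ∈ SW W := fun u hu => by
    rcases le_total (qf W u) a with h | h
    · rw [min_eq_left h]; exact qf_mem_SW hW hu
    · rwa [min_eq_right h]
  have hmo : MonotoneOn (fun u => φ (min (qf W u) a)) (Ioo 0 1) := fun u hu v hv huv =>
    hm (hmin u hu) (hmin v hv) (min_le_min_right a (monotoneOn_qf hW.isDF hu hv huv))
  have h0 : MemLp (fun _ : ℝ => |φ a|) 2 uni := memLp_const _
  refine (h2φ.abs.add h0).mono' (aemeasurable_of_monotoneOn hmo).aestronglyMeasurable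
    (Eventually.of_forall fun u => ?_)
  rw [Real.norm_eq_abs]
  show |φ (min (qf W u) a)| ≤ |φ (qf W u)| + |φ a|
  rcases le_total (qf W u) a with h | h
  · rw [min_eq_left h]; linarith [abs_nonneg (φ a)]
  · rw [min_eq_right h]; linarith [abs_nonneg (φ (qf W u))]

lemma memLp_comp_max (hW : IsRef W) {φ : ℝ → ℝ} (hm : MonotoneOn φ (SW W))
    (h2φ : MemLp (fun u => φ (qf W u)) 2 uni) {a : ℝ} (ha : a ∈ SW W) :
    MemLp (fun u => φ (max (qf W u) a)) 2 uni := by
  have hmax : ∀ u ∈ Ioo (0:ℝ) 1, max (qf W u) a ∈ SW W := fun u hu => by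
    rcases le_total (qf W u) a with h | h
    · rwa [max_eq_right h]
    · rw [max_eq_left h]; exact qf_mem_SW hW hu
  have hmo : MonotoneOn (fun u => φ (max (qf W u) a)) (Ioo 0 1) := fun u hu v hv huv =>
    hm (hmax u hu) (hmax v hv) (max_le_max_right a (monotoneOn_qf hW.isDF hu hv huv))
  have h0 : MemLp (fun _ : ℝ => |φ a|) 2 uni := memLp_const _
  refine (h2φ.abs.add h0).mono' (aemeasurable_of_monotoneOn hmo).aestronglyMeasurable
    (Eventually.of_forall fun u => ?_)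
  rw [Real.norm_eq_abs]
  show |φ (max (qf W u) a)| ≤ |φ (qf W u)| + |φ a|
  rcases le_total (qf W u) a with h | h
  · rw [max_eq_right h]; linarith [abs_nonneg (φ (qf W u))]
  · rw [max_eq_left h]; linarith [abs_nonneg (φ a)]

lemma memLp_flat (hW : IsRef W) (h2 : NegSq W) {φ : ℝ → ℝ} (hm : MonotoneOn φ (SW W))
    (h2φ : MemLp (fun u => φ (qf W u)) 2 uni) {a b : ℝ} (ha : a ∈ SW W) (hb : b ∈ SW W)
    (ca cb : ℝ) : MemLp (fun u => flat φ a b ca cb (qf W u)) 2 uni := by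
  have h1 := memLp_comp_min hW hm h2φ ha
  have h3 := memLp_comp_max hW hm h2φ hb
  have h4 : MemLp (fun u => ca * min (qf W u) a) 2 uni := (memLp_zc hW h2 a).const_mul ca
  have h5 : MemLp (fun u => cb * (min (qf W u) b - b)) 2 uni :=
    ((memLp_zc hW h2 b).sub (memLp_const b)).const_mul cb
  exact (((h1.sub h4).add (h3.add h5)).sub (memLp_const (φ a))).add (memLp_const (ca * a))

/-- Comparison of the change of `φ` with a single hinge. -/
lemma flat_bound {S : Set ℝ} {φ : ℝ → ℝ} {a b ca cb : ℝ} (ha : a ∈ S) (hb : b ∈ S) (hab : a ≤ b)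
    (hca1 : ∀ y ∈ S, ∀ y' ∈ S, y ≤ y' → a ≤ y → φ y' - φ y ≤ ca * (y' - y))
    (hcb1 : ∀ y ∈ S, ∀ y' ∈ S, y ≤ y' → y' ≤ b → cb * (y' - y) ≤ φ y' - φ y)
    {D : ℝ} (hD : D = ca - cb) (hD0 : 0 < D) {tb : ℝ}
    (htb : D * (tb - a) = φ b - φ a - cb * (b - a)) {y : ℝ} (hy : y ∈ S) :
    |flat φ a b ca cb y - φ y - D * max (tb - y) 0| ≤ D * (b - a) := by
  have hta : a ≤ tb := by
    have h1 := hcb1 a ha b hb hab le_rfl
    have h3 : 0 ≤ D * (tb - a) := by rw [htb]; linarith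
    have := nonneg_of_mul_nonneg_right h3 hD0
    linarith
  have htb' : tb ≤ b := by
    have h1 := hca1 a ha b hb hab le_rfl
    have h3 : D * (tb - a) ≤ D * (b - a) := by rw [htb, hD]; linarith
    have := le_of_mul_le_mul_left h3 hD0
    linarith
  have hDb : 0 ≤ D * (b - a) := mul_nonneg hD0.le (by linarith)
  unfold flat
  rcases le_total y a with h1 | h1
  · rw [min_eq_left h1, max_eq_right (h1.trans hab), min_eq_left (h1.trans hab),
      max_eq_left (show 0 ≤ tb - y by linarith)]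
    have : φ y - ca * y + (φ b + cb * (y - b)) - φ a + ca * a - φ y - D * (tb - y) = 0 := by
      have e : D * (tb - y) = D * (tb - a) + D * (a - y) := by ring
      rw [e, htb, hD]; ring
    rw [this, abs_zero]; exact hDb
  · rcases le_total y b with h3 | h3
    · rw [min_eq_right h1, max_eq_right h3, min_eq_left h3]
      have k1 := hcb1 y hy b hb h3 le_rfl
      have k2 := hca1 y hy b hb h3 h1
      have k3 : 0 ≤ D * max (tb - y) 0 := mul_nonneg hD0.le (le_max_right _ _)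
      have k4 : D * max (tb - y) 0 ≤ D * (b - a) :=
        mul_le_mul_of_nonneg_left (max_le (by linarith) (by linarith)) hD0.le
      have k5 : (ca - cb) * (b - y) ≤ D * (b - a) := by
        rw [← hD]; exact mul_le_mul_of_nonneg_left (by linarith) hD0.le
      rw [abs_le]
      constructor
      · linarith
      · linarith
    · rw [min_eq_right h1, max_eq_left h3, min_eq_right h3, max_eq_right (by linarith)]
      have : φ a - ca * a + (φ y + cb * (b - b)) - φ a + ca * a - φ y - D * 0 = 0 := by ring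
      rw [this, abs_zero]; exact hDb

/-! ### The residual and its potential -/

/-- The residual of the optimal transform. -/
def kS (W : ℝ → ℝ) (n j : ℕ) (p : ℝ) (φ : ℝ → ℝ) (u : ℝ) : ℝ := h00 n j p u + φ (qf W u)

/-- The potential of the residual. -/
def HS (W : ℝ → ℝ) (n j : ℕ) (p : ℝ) (φ : ℝ → ℝ) (t : ℝ) : ℝ :=
  ∫ u in Ioo (0:ℝ) 1, zc W t u * kS W n j p φ u

section opt

variable {n j : ℕ} {p : ℝ} {φ : ℝ → ℝ}

lemma memLp_kS (O : OptTr W n j p φ) : MemLp (kS W n j p φ) 2 uni :=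
  (memLp_h00 n j p).add O.memLp

lemma int_kS (P : Par n j p) (O : OptTr W n j p φ) : ∫ u in Ioo (0:ℝ) 1, kS W n j p φ u = 0 := by
  have i1 : IntegrableOn (h00 n j p) (Ioo (0:ℝ) 1) := (memLp_h00 n j p).integrable (by norm_num)
  have i2 : IntegrableOn (fun u => φ (qf W u)) (Ioo (0:ℝ) 1) := O.memLp.integrable (by norm_num)
  unfold kS
  rw [integral_add i1 i2, int_h00 P, O.mean, add_zero]

lemma int_mul_kS {g : ℝ → ℝ} (O : OptTr W n j p φ) (hg : MemLp g 2 uni) :
    ∫ u in Ioo (0:ℝ) 1, g u * kS W n j p φ u =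
      (∫ u in Ioo (0:ℝ) 1, g u * h00 n j p u) + ∫ u in Ioo (0:ℝ) 1, g u * φ (qf W u) := by
  have i1 : IntegrableOn (fun u => g u * h00 n j p u) (Ioo (0:ℝ) 1) :=
    hg.integrable_mul (memLp_h00 n j p)
  have i2 : IntegrableOn (fun u => g u * φ (qf W u)) (Ioo (0:ℝ) 1) := hg.integrable_mul O.memLp
  rw [← integral_add i1 i2]
  congr 1; funext u; unfold kS; ring

lemma feas (O : OptTr W n j p φ) {ψ : ℝ → ℝ} (hψ : CTr W p ψ)
    (hψ2 : MemLp (fun u => ψ (qf W u)) 2 uni) :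
    0 ≤ ∫ u in Ioo (0:ℝ) 1, ψ (qf W u) * kS W n j p φ u := by
  rw [int_mul_kS O hψ2]
  linarith [O.ineq ψ hψ hψ2]

lemma feas_self (O : OptTr W n j p φ) :
    ∫ u in Ioo (0:ℝ) 1, φ (qf W u) * kS W n j p φ u = 0 := by
  rw [int_mul_kS O O.memLp]
  have : ∫ u in Ioo (0:ℝ) 1, φ (qf W u) * φ (qf W u) = ∫ u in Ioo (0:ℝ) 1, φ (qf W u) ^ 2 := by
    congr 1; funext u; ring
  rw [this]
  linarith [O.eq]

lemma HS_nonneg (hW : IsRef W) (h2 : NegSq W) (O : OptTr W n j p φ) {t : ℝ} (ht : t ≤ qf W p) :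
    0 ≤ HS W n j p φ t :=
  feas O (CTr_zc hW ht) (memLp_zc hW h2 t)

lemma int_pc_kS (hW : IsRef W) (h2 : NegSq W) (P : Par n j p) (O : OptTr W n j p φ) (t : ℝ) :
    ∫ u in Ioo (0:ℝ) 1, pc W t u * kS W n j p φ u = -HS W n j p φ t := by
  have hz := memLp_zc hW h2 t
  have i1 : IntegrableOn (fun u => zc W t u * kS W n j p φ u) (Ioo (0:ℝ) 1) :=
    hz.integrable_mul (memLp_kS O)
  have i2 : IntegrableOn (kS W n j p φ) (Ioo (0:ℝ) 1) := (memLp_kS O).integrable (by norm_num)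
  have : ∀ u, pc W t u * kS W n j p φ u = t * kS W n j p φ u - zc W t u * kS W n j p φ u := by
    intro u; rw [pc_eq]; ring
  simp only [this]
  rw [integral_sub (i2.const_mul _) i1, integral_const_mul, int_kS P O]
  unfold HS; ring

lemma HS_lip (hW : IsRef W) (h2 : NegSq W) (O : OptTr W n j p φ) (s t : ℝ) :
    |HS W n j p φ t - HS W n j p φ s| ≤ |t - s| * ∫ u in Ioo (0:ℝ) 1, |kS W n j p φ u| := by
  have i1 : ∀ t, IntegrableOn (fun u => zc W t u * kS W n j p φ u) (Ioo (0:ℝ) 1) := fun t =>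
    (memLp_zc hW h2 t).integrable_mul (memLp_kS O)
  have i2 : IntegrableOn (kS W n j p φ) (Ioo (0:ℝ) 1) := (memLp_kS O).integrable (by norm_num)
  unfold HS
  rw [← integral_sub (i1 t) (i1 s), ← integral_const_mul]
  refine (abs_integral_le_integral_abs).trans ?_
  refine integral_mono ((i1 t).sub (i1 s)).abs (i2.abs.const_mul _) fun u => ?_
  show |zc W t u * kS W n j p φ u - zc W s u * kS W n j p φ u| ≤ |t - s| * |kS W n j p φ u|
  rw [← sub_mul, abs_mul]
  refine mul_le_mul_of_nonneg_right ?_ (abs_nonneg _)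
  unfold zc
  calc |min (qf W u) t - min (qf W u) s| ≤ max |qf W u - qf W u| |t - s| :=
        abs_min_sub_min_le_max _ _ _ _
    _ = |t - s| := by simp

lemma continuous_HS (hW : IsRef W) (h2 : NegSq W) (O : OptTr W n j p φ) :
    Continuous (HS W n j p φ) := by
  refine continuous_iff_continuousAt.2 fun s => ?_
  rw [ContinuousAt, tendsto_iff_dist_tendsto_zero]
  have h1 : Tendsto (fun t => |t - s| * ∫ u in Ioo (0:ℝ) 1, |kS W n j p φ u|) (𝓝 s) (𝓝 0) := by
    have h3 : Continuous (fun t => |t - s| * ∫ u in Ioo (0:ℝ) 1, |kS W n j p φ u|) := by fun_prop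
    have := h3.tendsto s
    simpa using this
  exact squeeze_zero (fun t => dist_nonneg) (fun t => by
    rw [Real.dist_eq]; exact HS_lip hW h2 O s t) h1

/-- Where the potential is positive the optimal transform is affine. -/
lemma affine_of_pos (hW : IsRef W) (h2 : NegSq W) (P : Par n j p) (O : OptTr W n j p φ) {t0 : ℝ}
    (ht0 : t0 ∈ SW W) (ht0p : t0 ≤ qf W p) (hpos : 0 < HS W n j p φ t0) :
    ∃ r > 0, Icc (t0 - r) (t0 + r) ⊆ SW W ∧
      ∃ α β : ℝ, ∀ y ∈ Icc (t0 - r) (t0 + r), φ y = α + β * y := by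
  have hpm : p ∈ Ioo (0:ℝ) 1 := ⟨P.hp0, P.hp1⟩
  have hpS := qf_mem_SW hW hpm
  set w := qf W p with hw
  set K1 := ∫ u in Ioo (0:ℝ) 1, |kS W n j p φ u| with hK1
  have hK1n : 0 ≤ K1 := integral_nonneg fun u => abs_nonneg _
  obtain ⟨ε, hε, hball⟩ := Metric.isOpen_iff.1 (isOpen_SW hW) t0 ht0
  obtain ⟨r, hr0, hrε, hrK, hrw⟩ : ∃ r > 0, r < ε ∧ r * (3 * K1) < HS W n j p φ t0 ∧
      (t0 < w → t0 + r ≤ w) := by
    have e1 : ∃ r > 0, r < ε ∧ r * (3 * K1) < HS W n j p φ t0 := by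
      refine ⟨min (ε / 2) (HS W n j p φ t0 / (2 * (3 * K1 + 1))), ?_, ?_, ?_⟩
      · exact lt_min (by linarith) (by positivity)
      · exact lt_of_le_of_lt (min_le_left _ _) (by linarith)
      · have h3 : min (ε / 2) (HS W n j p φ t0 / (2 * (3 * K1 + 1))) * (3 * K1) ≤
            HS W n j p φ t0 / (2 * (3 * K1 + 1)) * (3 * K1) :=
          mul_le_mul_of_nonneg_right (min_le_right _ _) (by linarith)
        refine lt_of_le_of_lt h3 ?_
        rw [div_mul_eq_mul_div, div_lt_iff₀ (by positivity)]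
        nlinarith
    obtain ⟨r, hr0, hrε, hrK⟩ := e1
    by_cases hlt : t0 < w
    · refine ⟨min r (w - t0), lt_min hr0 (by linarith), lt_of_le_of_lt (min_le_left _ _) hrε,
        lt_of_le_of_lt (mul_le_mul_of_nonneg_right (min_le_left _ _) (by linarith)) hrK, fun _ => ?_⟩
      linarith [min_le_right r (w - t0)]
    · exact ⟨r, hr0, hrε, hrK, fun h => absurd h hlt⟩
  have hsub : Icc (t0 - r) (t0 + r) ⊆ SW W := fun y hy => hball (by
    rw [Metric.mem_ball, Real.dist_eq, abs_lt]; constructor <;> linarith [hy.1, hy.2])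
  refine ⟨r, hr0, hsub, ?_⟩
  set a := t0 - r with ha
  set b := t0 + r with hb
  have hab : a ≤ b := by linarith
  have haS : a ∈ SW W := hsub ⟨le_rfl, hab⟩
  have hbS : b ∈ SW W := hsub ⟨hab, le_rfl⟩
  obtain ⟨ca, hca0, hcal, hcar⟩ := exists_support (isOpen_SW hW) O.ctr.conc O.ctr.mono haS
  obtain ⟨cb, hcb0, hcbl, hcbr⟩ := exists_support (isOpen_SW hW) O.ctr.conc O.ctr.mono hbS
  have hor : b ≤ w ∨ cb = 0 := by
    rcases lt_or_ge t0 w with h | h
    · exact Or.inl (hrw h)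
    · right
      have h3 : t0 = w := le_antisymm ht0p h
      have h4 := hcbl w hpS b hbS (by linarith) le_rfl
      rw [O.ctr.const b hbS (by linarith), ← hw, sub_self] at h4
      have h5 : cb * (b - w) = cb * r := by rw [← h3, hb]; ring
      rw [h5] at h4
      have h6 : 0 ≤ cb * r := mul_nonneg hcb0 hr0.le
      have h7 : cb * r = 0 := le_antisymm h4 h6
      exact (mul_eq_zero.1 h7).resolve_right hr0.ne'
  have hC := CTr_flat hW hpm O.ctr haS hbS (by linarith) hcb0 hor hcal hcbr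
  have hM := memLp_flat hW h2 O.ctr.mono O.memLp haS hbS ca cb
  have hge := feas O hC hM
  have hself := feas_self O
  have hDn : 0 ≤ (ca - cb) * (b - a) := by
    have h3 := hcar a haS b hbS hab le_rfl
    have h4 := hcbl a haS b hbS hab le_rfl
    nlinarith
  have hD0 : ca = cb := by
    by_contra hne
    have hD : 0 < ca - cb := by
      refine lt_of_le_of_ne ?_ (fun h => hne (by linarith))
      exact nonneg_of_mul_nonneg_left hDn (by linarith)
    set D := ca - cb with hDdef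
    set tb := a + (φ b - φ a - cb * (b - a)) / D with htb
    have htb' : D * (tb - a) = φ b - φ a - cb * (b - a) := by
      rw [htb]; field_simp; ring
    have hbound : ∀ u ∈ Ioo (0:ℝ) 1,
        |flat φ a b ca cb (qf W u) - φ (qf W u) - D * pc W tb u| ≤ D * (b - a) := fun u hu =>
      flat_bound haS hbS hab hcar hcbl hDdef hD htb' (qf_mem_SW hW hu)
    have hta : a ≤ tb := by
      have h1 := hcbl a haS b hbS hab le_rfl
      have h3 : 0 ≤ D * (tb - a) := by rw [htb']; linarith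
      have := nonneg_of_mul_nonneg_right h3 hD
      linarith
    have htb2 : tb ≤ b := by
      have h1 := hcar a haS b hbS hab le_rfl
      have h3 : D * (tb - a) ≤ D * (b - a) := by rw [htb', hDdef]; linarith
      have := le_of_mul_le_mul_left h3 hD
      linarith
    have i0 : IntegrableOn (fun u => flat φ a b ca cb (qf W u) * kS W n j p φ u) (Ioo (0:ℝ) 1) :=
      hM.integrable_mul (memLp_kS O)
    have i1 : IntegrableOn (fun u => φ (qf W u) * kS W n j p φ u) (Ioo (0:ℝ) 1) :=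
      O.memLp.integrable_mul (memLp_kS O)
    have i2 : IntegrableOn (fun u => pc W tb u * kS W n j p φ u) (Ioo (0:ℝ) 1) :=
      (memLp_pc hW h2 tb).integrable_mul (memLp_kS O)
    have i3 : IntegrableOn (kS W n j p φ) (Ioo (0:ℝ) 1) := (memLp_kS O).integrable (by norm_num)
    have e1 : ∫ u in Ioo (0:ℝ) 1, flat φ a b ca cb (qf W u) * kS W n j p φ u ≤
        ∫ u in Ioo (0:ℝ) 1, ((φ (qf W u) * kS W n j p φ u + D * (pc W tb u * kS W n j p φ u)) +
          (D * (b - a)) * |kS W n j p φ u|) := by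
      refine setIntegral_mono_on i0 ((i1.add (i2.const_mul D)).add (i3.abs.const_mul _))
        measurableSet_Ioo fun u hu => ?_
      have h3 := hbound u hu
      have h4 : (flat φ a b ca cb (qf W u) - φ (qf W u) - D * pc W tb u) * kS W n j p φ u ≤
          D * (b - a) * |kS W n j p φ u| := by
        refine (le_abs_self _).trans ?_
        rw [abs_mul]
        exact mul_le_mul_of_nonneg_right h3 (abs_nonneg _)
      linarith
    have j1 : IntegrableOn (fun u => φ (qf W u) * kS W n j p φ u + D * (pc W tb u * kS W n j p φ u))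
        (Ioo (0:ℝ) 1) := i1.add (i2.const_mul D)
    rw [integral_add j1 (i3.abs.const_mul _), integral_add i1 (i2.const_mul D), integral_const_mul,
      integral_const_mul, hself, int_pc_kS hW h2 P O tb, ← hK1] at e1
    have h3 : 0 ≤ D * (-HS W n j p φ tb + (b - a) * K1) := by linarith
    have h4 := nonneg_of_mul_nonneg_right h3 hD
    have h5 := HS_lip hW h2 O t0 tb
    have h6 : |tb - t0| ≤ r := by rw [abs_le]; constructor <;> linarith
    have h7 := (abs_le.1 (h5.trans (mul_le_mul_of_nonneg_right h6 hK1n))).1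
    have h8 : (b - a) * K1 = 2 * (r * K1) := by rw [ha, hb]; ring
    rw [h8] at h4
    linarith
  refine ⟨φ a - ca * a, ca, fun y hy => ?_⟩
  have hyS := hsub hy
  have h3 := hcar a haS y hyS hy.1 le_rfl
  have h4 := hcbl a haS b hbS hab le_rfl
  have h5 := hcar y hyS b hbS hy.2 hy.1
  rw [← hD0] at h4
  have h6 : ca * (b - a) = ca * (b - y) + ca * (y - a) := by ring
  linarith

/-- On an open interval where the potential vanishes the optimal transform is the negative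
density. -/
lemma eq_of_zero (hW : IsRef W) (h2 : NegSq W) (P : Par n j p) (O : OptTr W n j p φ) {v1 v2 : ℝ}
    (h0 : 0 ≤ v1) (hp : v2 ≤ p) (hz : ∀ v ∈ Ioo v1 v2, HS W n j p φ (qf W v) = 0) :
    ∀ u ∈ Ioo v1 v2, φ (qf W u) = -fos n j u := by
  intro u0 hu0
  by_contra hne
  have hφc : ContinuousOn φ (SW W) := by
    have h1 : ContinuousOn (fun x => -φ x) (SW W) :=
      ConvexOn.continuousOn (isOpen_SW hW) O.ctr.conc.neg
    exact (h1.neg).congr fun x _ => by simp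
  have hu01 : u0 ∈ Ioo (0:ℝ) 1 := ⟨lt_of_le_of_lt h0 hu0.1, lt_of_lt_of_le hu0.2 (hp.trans P.hp1.le)⟩
  have hgc : ContinuousOn (fun u => φ (qf W u)) (Ioo 0 1) :=
    hφc.comp (continuousOn_qf hW) fun u hu => qf_mem_SW hW hu
  have hcont : ContinuousAt (fun u => (fos n j u + φ (qf W u)) * (fos n j u0 + φ (qf W u0))) u0 :=
    (((continuous_fos n j).continuousAt).add (hgc.continuousAt (Ioo_mem_nhds hu01.1 hu01.2))).mul
      continuousAt_const
  have hne' : fos n j u0 + φ (qf W u0) ≠ 0 := fun h => hne (by linarith)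
  have hev : ∀ᶠ u in 𝓝 u0, 0 < (fos n j u + φ (qf W u)) * (fos n j u0 + φ (qf W u0)) ∧
      u ∈ Ioo v1 v2 := by
    refine (hcont.eventually (lt_mem_nhds ?_)).and (Ioo_mem_nhds hu0.1 hu0.2)
    exact mul_self_pos.2 hne'
  obtain ⟨ε, hε, hball⟩ := Metric.eventually_nhds_iff.1 hev
  set c0 := fos n j u0 + φ (qf W u0) with hc0
  have hin : ∀ u ∈ Icc (u0 - ε / 2) (u0 + ε / 2), 0 < (fos n j u + φ (qf W u)) * c0 ∧
      u ∈ Ioo v1 v2 := fun u hu => hball (by
    rw [Real.dist_eq, abs_lt]; constructor <;> linarith [hu.1, hu.2])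
  set ua := u0 - ε / 2 with hua
  set ub := u0 + ε / 2 with hub
  have hva := (hin ua ⟨le_rfl, by linarith⟩).2
  have hvb := (hin ub ⟨by linarith, le_rfl⟩).2
  have h01 : ∀ u ∈ Ioo v1 v2, u ∈ Ioo (0:ℝ) 1 := fun u hu =>
    ⟨lt_of_le_of_lt h0 hu.1, lt_of_lt_of_le hu.2 (hp.trans P.hp1.le)⟩
  set ta := qf W ua with hta
  set t0 := qf W u0 with ht0
  set tb := qf W ub with htb
  have l1 : ta < t0 := strictMonoOn_qf hW (h01 _ hva) hu01 (by linarith)
  have l2 : t0 < tb := strictMonoOn_qf hW hu01 (h01 _ hvb) (by linarith)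
  let T : ℝ → ℝ := fun u => (t0 - ta) * pc W tb u - (tb - ta) * pc W t0 u + (tb - t0) * pc W ta u
  have hT2 : MemLp T 2 uni := (((memLp_pc hW h2 tb).const_mul _).sub
    ((memLp_pc hW h2 t0).const_mul _)).add ((memLp_pc hW h2 ta).const_mul _)
  have i1 : ∀ t, IntegrableOn (fun u => pc W t u * kS W n j p φ u) (Ioo (0:ℝ) 1) := fun t =>
    (memLp_pc hW h2 t).integrable_mul (memLp_kS O)
  have iT : IntegrableOn (fun u => T u * kS W n j p φ u) (Ioo (0:ℝ) 1) :=
    hT2.integrable_mul (memLp_kS O)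
  have eT : ∫ u in Ioo (0:ℝ) 1, T u * kS W n j p φ u = 0 := by
    have : ∀ u, T u * kS W n j p φ u = ((t0 - ta) * (pc W tb u * kS W n j p φ u) -
        (tb - ta) * (pc W t0 u * kS W n j p φ u)) + (tb - t0) * (pc W ta u * kS W n j p φ u) :=
      fun u => by show (_ : ℝ) * _ = _; ring
    simp only [this]
    have j1 : IntegrableOn (fun u => (t0 - ta) * (pc W tb u * kS W n j p φ u) -
        (tb - ta) * (pc W t0 u * kS W n j p φ u)) (Ioo (0:ℝ) 1) :=
      ((i1 tb).const_mul _).sub ((i1 t0).const_mul _)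
    rw [integral_add j1 ((i1 ta).const_mul _), integral_sub ((i1 tb).const_mul _)
      ((i1 t0).const_mul _), integral_const_mul, integral_const_mul, integral_const_mul,
      int_pc_kS hW h2 P O, int_pc_kS hW h2 P O, int_pc_kS hW h2 P O, hz _ hva, hz _ hvb, hz _ hu0]
    ring
  have hTpos : ∀ u ∈ Ioo (0:ℝ) 1, (u ∈ Ioo ua ub → 0 < T u) ∧ (u ∉ Ioo ua ub → T u = 0) := by
    intro u hu
    constructor
    · intro hu'
      have m1 : ta < qf W u := strictMonoOn_qf hW (h01 _ hva) hu hu'.1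
      have m2 : qf W u < tb := strictMonoOn_qf hW hu (h01 _ hvb) hu'.2
      show 0 < (t0 - ta) * pc W tb u - (tb - ta) * pc W t0 u + (tb - t0) * pc W ta u
      unfold pc
      rw [max_eq_left (show 0 ≤ tb - qf W u by linarith),
        max_eq_right (show ta - qf W u ≤ 0 by linarith)]
      rcases le_total (qf W u) t0 with h | h
      · rw [max_eq_left (show 0 ≤ t0 - qf W u by linarith)]
        have : (t0 - ta) * (tb - qf W u) - (tb - ta) * (t0 - qf W u) + (tb - t0) * 0 =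
            (tb - t0) * (qf W u - ta) := by ring
        rw [this]; exact mul_pos (by linarith) (by linarith)
      · rw [max_eq_right (show t0 - qf W u ≤ 0 by linarith)]
        have : (t0 - ta) * (tb - qf W u) - (tb - ta) * 0 + (tb - t0) * 0 =
            (t0 - ta) * (tb - qf W u) := by ring
        rw [this]; exact mul_pos (by linarith) (by linarith)
    · intro hu'
      show (t0 - ta) * pc W tb u - (tb - ta) * pc W t0 u + (tb - t0) * pc W ta u = 0
      unfold pc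
      rcases le_or_gt u ua with h | h
      · have m1 : qf W u ≤ ta := monotoneOn_qf hW.isDF hu (h01 _ hva) h
        rw [max_eq_left (show 0 ≤ tb - qf W u by linarith),
          max_eq_left (show 0 ≤ t0 - qf W u by linarith),
          max_eq_left (show 0 ≤ ta - qf W u by linarith)]
        ring
      · have h3 : ub ≤ u := by
          by_contra hcon
          push Not at hcon
          exact hu' ⟨h, hcon⟩
        have m1 : tb ≤ qf W u := monotoneOn_qf hW.isDF (h01 _ hvb) hu h3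
        rw [max_eq_right (show tb - qf W u ≤ 0 by linarith),
          max_eq_right (show t0 - qf W u ≤ 0 by linarith),
          max_eq_right (show ta - qf W u ≤ 0 by linarith)]
        ring
  have hk : ∀ u ∈ Ioo ua ub, 0 < kS W n j p φ u * c0 := by
    intro u hu
    have h3 := hin u ⟨hu.1.le, hu.2.le⟩
    unfold kS h00
    rw [if_pos (lt_of_lt_of_le h3.2.2 hp)]
    exact h3.1
  have eT' : ∫ u in Ioo (0:ℝ) 1, T u * kS W n j p φ u * c0 = 0 := by
    rw [integral_mul_const, eT, zero_mul]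
  have iTc : IntegrableOn (fun u => T u * kS W n j p φ u * c0) (Ioo (0:ℝ) 1) := iT.mul_const c0
  have hsplit : Ioo ua ub ⊆ Ioo (0:ℝ) 1 := fun u hu =>
    ⟨(h01 _ hva).1.trans hu.1, hu.2.trans (h01 _ hvb).2⟩
  have hlt : ua < ub := by linarith
  have hpos : 0 < ∫ u in Ioo ua ub, T u * kS W n j p φ u * c0 := by
    rw [ioo_eq_interval hlt.le]
    refine intervalIntegral.intervalIntegral_pos_of_pos_on ?_ ?_ hlt
    · rw [intervalIntegrable_iff_integrableOn_Ioo_of_le hlt.le]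
      exact iTc.mono_set hsplit
    · intro u hu
      rw [mul_assoc]
      exact mul_pos ((hTpos u (hsplit hu)).1 hu) (hk u hu)
  have hle : ∫ u in Ioo ua ub, T u * kS W n j p φ u * c0 ≤
      ∫ u in Ioo (0:ℝ) 1, T u * kS W n j p φ u * c0 := by
    refine setIntegral_mono_set iTc ?_ (Eventually.of_forall fun u hu => hsplit hu)
    refine (ae_restrict_iff' measurableSet_Ioo).2 (Eventually.of_forall fun u hu => ?_)
    show 0 ≤ T u * kS W n j p φ u * c0
    by_cases h : u ∈ Ioo ua ub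
    · rw [mul_assoc]
      exact (mul_pos ((hTpos u hu).1 h) (hk u h)).le
    · rw [(hTpos u hu).2 h]; simp
  linarith

/-- Differences of the potential. -/
lemma HS_diff (hW : IsRef W) (h2 : NegSq W) (P : Par n j p) (O : OptTr W n j p φ) {v v' : ℝ}
    (hv : v ∈ Ioo (0:ℝ) 1) (hv' : v' ∈ Ioo (0:ℝ) 1) (hvv : v < v') :
    HS W n j p φ (qf W v) - HS W n j p φ (qf W v') =
      (qf W v' - qf W v) * (∫ u in Ioo 0 v, kS W n j p φ u) +
        ∫ u in Ioo v v', (qf W v' - qf W u) * kS W n j p φ u := by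
  have i1 : ∀ t, IntegrableOn (fun u => pc W t u * kS W n j p φ u) (Ioo (0:ℝ) 1) := fun t =>
    (memLp_pc hW h2 t).integrable_mul (memLp_kS O)
  have ik : IntegrableOn (kS W n j p φ) (Ioo (0:ℝ) 1) := (memLp_kS O).integrable (by norm_num)
  have e1 := int_pc_kS hW h2 P O (qf W v)
  have e2 := int_pc_kS hW h2 P O (qf W v')
  have i3 : IntegrableOn (fun u => pc W (qf W v') u * kS W n j p φ u -
      pc W (qf W v) u * kS W n j p φ u) (Ioo (0:ℝ) 1) := (i1 _).sub (i1 _)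
  have e3 : HS W n j p φ (qf W v) - HS W n j p φ (qf W v') =
      ∫ u in Ioo (0:ℝ) 1, (pc W (qf W v') u * kS W n j p φ u - pc W (qf W v) u * kS W n j p φ u) := by
    rw [integral_sub (i1 _) (i1 _), e1, e2]; ring
  rw [e3, split_uni hv'.1 hv'.2 i3,
    split_uni hv.1 hvv (i3.mono_set (Ioo_subset_Ioo_right hv'.2.le))]
  have z3 : ∫ u in Ioo v' 1, (pc W (qf W v') u * kS W n j p φ u - pc W (qf W v) u * kS W n j p φ u) =
      0 := by
    rw [int_Ioo_congr (h := fun _ => 0)]; · simp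
    intro u hu
    have hu' : u ∈ Ioo (0:ℝ) 1 := ⟨hv'.1.trans hu.1, hu.2⟩
    have m1 := monotoneOn_qf hW.isDF hv' hu' hu.1.le
    have m2 := monotoneOn_qf hW.isDF hv hu' (hvv.le.trans hu.1.le)
    unfold pc
    rw [max_eq_right (by linarith), max_eq_right (by linarith)]; ring
  have z2 : ∫ u in Ioo v v', (pc W (qf W v') u * kS W n j p φ u - pc W (qf W v) u * kS W n j p φ u) =
      ∫ u in Ioo v v', (qf W v' - qf W u) * kS W n j p φ u := by
    refine int_Ioo_congr fun u hu => ?_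
    have hu' : u ∈ Ioo (0:ℝ) 1 := ⟨hv.1.trans hu.1, hu.2.trans hv'.2⟩
    have m1 := monotoneOn_qf hW.isDF hu' hv' hu.2.le
    have m2 := monotoneOn_qf hW.isDF hv hu' hu.1.le
    unfold pc
    rw [max_eq_left (by linarith), max_eq_right (by linarith)]; ring
  have z1 : ∫ u in Ioo 0 v, (pc W (qf W v') u * kS W n j p φ u - pc W (qf W v) u * kS W n j p φ u) =
      (qf W v' - qf W v) * ∫ u in Ioo 0 v, kS W n j p φ u := by
    rw [← integral_const_mul]
    refine int_Ioo_congr fun u hu => ?_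
    have hu' : u ∈ Ioo (0:ℝ) 1 := ⟨hu.1, hu.2.trans hv.2⟩
    have m1 := monotoneOn_qf hW.isDF hu' hv' (hu.2.le.trans hvv.le)
    have m2 := monotoneOn_qf hW.isDF hu' hv hu.2.le
    unfold pc
    rw [max_eq_left (by linarith), max_eq_left (by linarith)]; ring
  rw [z1, z2, z3, add_zero]

lemma HS_diff' (hW : IsRef W) (h2 : NegSq W) (P : Par n j p) (O : OptTr W n j p φ) {v v' : ℝ}
    (hv : v ∈ Ioo (0:ℝ) 1) (hv' : v' ∈ Ioo (0:ℝ) 1) (hvv : v < v') :
    HS W n j p φ (qf W v) - HS W n j p φ (qf W v') =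
      (qf W v' - qf W v) * (∫ u in Ioo 0 v', kS W n j p φ u) -
        ∫ u in Ioo v v', (qf W u - qf W v) * kS W n j p φ u := by
  have ik : IntegrableOn (kS W n j p φ) (Ioo (0:ℝ) 1) := (memLp_kS O).integrable (by norm_num)
  have hz := memLp_zc hW h2 (qf W v')
  have iz : IntegrableOn (fun u => zc W (qf W v') u * kS W n j p φ u) (Ioo (0:ℝ) 1) :=
    hz.integrable_mul (memLp_kS O)
  have hsub : Ioo v v' ⊆ Ioo (0:ℝ) 1 := Ioo_subset_Ioo hv.1.le hv'.2.le
  have izq : ∀ u ∈ Ioo v v', zc W (qf W v') u = qf W u := fun u hu =>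
    min_eq_left (monotoneOn_qf hW.isDF (hsub hu) hv' hu.2.le)
  rw [HS_diff hW h2 P O hv hv' hvv, split_uni hv.1 hvv (ik.mono_set (Ioo_subset_Ioo_right hv'.2.le))]
  have e1 : ∫ u in Ioo v v', (qf W v' - qf W u) * kS W n j p φ u =
      qf W v' * (∫ u in Ioo v v', kS W n j p φ u) -
        ∫ u in Ioo v v', zc W (qf W v') u * kS W n j p φ u := by
    rw [← integral_const_mul, ← integral_sub ((ik.mono_set hsub).const_mul _) (iz.mono_set hsub)]
    exact int_Ioo_congr fun u hu => by rw [izq u hu]; ring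
  have e2 : ∫ u in Ioo v v', (qf W u - qf W v) * kS W n j p φ u =
      (∫ u in Ioo v v', zc W (qf W v') u * kS W n j p φ u) -
        qf W v * ∫ u in Ioo v v', kS W n j p φ u := by
    rw [← integral_const_mul, ← integral_sub (iz.mono_set hsub) ((ik.mono_set hsub).const_mul _)]
    exact int_Ioo_congr fun u hu => by rw [izq u hu]; ring
  rw [e1, e2]; ring

lemma cont_opt (hW : IsRef W) (O : OptTr W n j p φ) :
    ContinuousOn (fun u => φ (qf W u)) (Ioo 0 1) := by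
  have hφc : ContinuousOn φ (SW W) := by
    have h1 : ContinuousOn (fun x => -φ x) (SW W) :=
      ConvexOn.continuousOn (isOpen_SW hW) O.ctr.conc.neg
    exact (h1.neg).congr fun x _ => by simp
  exact hφc.comp (continuousOn_qf hW) fun u hu => qf_mem_SW hW hu

lemma opt_le (hW : IsRef W) (P : Par n j p) (O : OptTr W n j p φ) {u : ℝ} (hu : u ∈ Ioo (0:ℝ) 1) :
    φ (qf W u) ≤ φ (qf W p) := by
  have hpm : p ∈ Ioo (0:ℝ) 1 := ⟨P.hp0, P.hp1⟩
  rcases le_total u p with h | h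
  · exact O.ctr.mono (qf_mem_SW hW hu) (qf_mem_SW hW hpm) (monotoneOn_qf hW.isDF hu hpm h)
  · rw [O.ctr.const _ (qf_mem_SW hW hu) (monotoneOn_qf hW.isDF hpm hu h)]

lemma opt_top_pos (hW : IsRef W) (P : Par n j p) (O : OptTr W n j p φ) : 0 < φ (qf W p) := by
  by_contra hcon
  push Not at hcon
  have h1 : IntegrableOn (fun u => -φ (qf W u)) (Ioo (0:ℝ) 1) :=
    (O.memLp.integrable (by norm_num)).neg
  have h3 : ∫ u in Ioo (0:ℝ) 1, -φ (qf W u) = 0 := by rw [integral_neg, O.mean, neg_zero]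
  have h4 := (setIntegral_eq_zero_iff_of_nonneg_ae
    ((ae_restrict_iff' measurableSet_Ioo).2 (Eventually.of_forall fun u hu =>
      (neg_nonneg.2 ((opt_le hW P O hu).trans hcon) : 0 ≤ -φ (qf W u)))) h1).1 h3
  have h5 : ∫ u in Ioo (0:ℝ) 1, φ (qf W u) ^ 2 = 0 := by
    have : ∀ᵐ u ∂uni, φ (qf W u) ^ 2 = 0 := by
      filter_upwards [h4] with u hu
      have h6 : -φ (qf W u) = 0 := hu
      have h7 : φ (qf W u) = 0 := by linarith
      rw [h7]; ring
    rw [integral_congr_ae this]; simp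
  exact O.pos.ne' h5

/-- Close to the left of a point `v0 ≤ p` where the transform is positive, the residual is
positive. -/
lemma kS_pos_left (hW : IsRef W) (P : Par n j p) (O : OptTr W n j p φ) {v0 : ℝ} (h0 : 0 < v0)
    (hp : v0 ≤ p) (hv : 0 < φ (qf W v0)) :
    ∃ v1 ∈ Ioo 0 v0, ∀ u ∈ Ioo v1 v0, 0 < kS W n j p φ u := by
  have h01 : v0 ∈ Ioo (0:ℝ) 1 := ⟨h0, lt_of_le_of_lt hp P.hp1⟩
  have hc := (cont_opt hW O).continuousAt (Ioo_mem_nhds h01.1 h01.2)
  obtain ⟨ε, hε, hball⟩ := Metric.eventually_nhds_iff.1 (hc.eventually (lt_mem_nhds hv))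
  refine ⟨max (v0 / 2) (v0 - ε / 2), ⟨lt_of_lt_of_le (by linarith) (le_max_left _ _),
    max_lt (by linarith) (by linarith)⟩, fun u hu => ?_⟩
  have hu1 : v0 / 2 < u := lt_of_le_of_lt (le_max_left _ _) hu.1
  have hu2 : v0 - ε / 2 < u := lt_of_le_of_lt (le_max_right _ _) hu.1
  have hu01 : u ∈ Ioo (0:ℝ) 1 := ⟨by linarith, hu.2.trans h01.2⟩
  have h3 := hball (show dist u v0 < ε by
    rw [Real.dist_eq, abs_lt]; constructor <;> linarith [hu.2])
  unfold kS h00
  rw [if_pos (lt_of_lt_of_le hu.2 hp)]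
  linarith [fos_pos P.hj P.hjn hu01.1 hu01.2]

/-- The potential decreases to the left: strict positivity of the prefix integral of the residual
at a point where the potential vanishes. -/
lemma prefix_pos (hW : IsRef W) (h2 : NegSq W) (P : Par n j p) (O : OptTr W n j p φ) {v0 : ℝ}
    (h0 : 0 < v0) (hp : v0 ≤ p) (hv : 0 < φ (qf W v0)) (hz : HS W n j p φ (qf W v0) = 0) :
    0 < ∫ u in Ioo 0 v0, kS W n j p φ u := by
  have hpm : p ∈ Ioo (0:ℝ) 1 := ⟨P.hp0, P.hp1⟩
  have h01 : v0 ∈ Ioo (0:ℝ) 1 := ⟨h0, lt_of_le_of_lt hp P.hp1⟩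
  obtain ⟨v1, hv1, hk⟩ := kS_pos_left hW P O h0 hp hv
  have h11 : v1 ∈ Ioo (0:ℝ) 1 := ⟨hv1.1, hv1.2.trans h01.2⟩
  have hd := HS_diff' hW h2 P O h11 h01 hv1.2
  have hn := HS_nonneg hW h2 O (monotoneOn_qf hW.isDF h11 hpm (hv1.2.le.trans hp))
  have hlt : qf W v1 < qf W v0 := strictMonoOn_qf hW h11 h01 hv1.2
  have hpos : 0 < ∫ u in Ioo v1 v0, (qf W u - qf W v1) * kS W n j p φ u := by
    have ik : IntegrableOn (kS W n j p φ) (Ioo (0:ℝ) 1) := (memLp_kS O).integrable (by norm_num)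
    have iz : IntegrableOn (fun u => zc W (qf W v0) u * kS W n j p φ u) (Ioo (0:ℝ) 1) :=
      (memLp_zc hW h2 (qf W v0)).integrable_mul (memLp_kS O)
    have hsub : Ioo v1 v0 ⊆ Ioo (0:ℝ) 1 := Ioo_subset_Ioo hv1.1.le h01.2.le
    have ii : IntegrableOn (fun u => zc W (qf W v0) u * kS W n j p φ u - qf W v1 * kS W n j p φ u)
        (Ioo v1 v0) := (iz.sub (ik.const_mul _)).mono_set hsub
    have izq : ∀ u ∈ Ioo v1 v0, zc W (qf W v0) u = qf W u := fun u hu =>
      min_eq_left (monotoneOn_qf hW.isDF (hsub hu) h01 hu.2.le)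
    rw [int_Ioo_congr (h := fun u => zc W (qf W v0) u * kS W n j p φ u - qf W v1 * kS W n j p φ u)
      (fun u hu => by rw [izq u hu]; ring), ioo_eq_interval hv1.2.le]
    refine intervalIntegral.intervalIntegral_pos_of_pos_on ?_ ?_ hv1.2
    · rw [intervalIntegrable_iff_integrableOn_Ioo_of_le hv1.2.le]
      exact ii
    · intro u hu
      rw [izq u hu, ← sub_mul]
      have := strictMonoOn_qf hW h11 (hsub hu) hu.1
      exact mul_pos (by linarith) (hk u hu)
  by_contra hcon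
  push Not at hcon
  have := mul_nonpos_of_nonneg_of_nonpos (sub_nonneg.2 hlt.le) hcon
  rw [hz] at hd
  linarith

/-- The optimal transform is not constant to the left of `W^{-1}(p)`. -/
lemma opt_lt (hW : IsRef W) (h2 : NegSq W) (P : Par n j p) (O : OptTr W n j p φ) {v : ℝ}
    (hv : v ∈ Ioo 0 p) : φ (qf W v) < φ (qf W p) := by
  have hpm : p ∈ Ioo (0:ℝ) 1 := ⟨P.hp0, P.hp1⟩
  have hv01 : v ∈ Ioo (0:ℝ) 1 := ⟨hv.1, hv.2.trans P.hp1⟩
  refine lt_of_le_of_ne (opt_le hW P O hv01) fun heq => ?_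
  set g : ℝ → ℝ := fun u => φ (qf W u) with hg
  have hgm : MonotoneOn g (Ioo 0 1) := fun x hx y hy hxy =>
    O.ctr.mono (qf_mem_SW hW hx) (qf_mem_SW hW hy) (monotoneOn_qf hW.isDF hx hy hxy)
  have hgc : ContinuousOn g (Ioo 0 1) := cont_opt hW O
  let A : Set ℝ := {u | u ∈ Ioo (0:ℝ) 1 ∧ g u = g p}
  have hvA : v ∈ A := ⟨hv01, heq⟩
  have hAb : BddBelow A := ⟨0, fun u hu => hu.1.1.le⟩
  set v0 := sInf A with hv0
  have hv0v : v0 ≤ v := csInf_le hAb hvA
  have hv0n : 0 ≤ v0 := le_csInf ⟨v, hvA⟩ fun u hu => hu.1.1.le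
  have hup : ∀ u ∈ Ioo (0:ℝ) 1, v0 < u → g u = g p := by
    intro u hu hlt
    obtain ⟨a, haA, hau⟩ := exists_lt_of_csInf_lt ⟨v, hvA⟩ hlt
    exact le_antisymm (opt_le hW P O hu) (haA.2 ▸ hgm haA.1 hu hau.le)
  have hv0pos : 0 < v0 := by
    refine lt_of_le_of_ne hv0n fun h => ?_
    have h3 : ∫ u in Ioo (0:ℝ) 1, g u = g p := by
      rw [int_Ioo_congr (h := fun _ => g p) (fun u hu => hup u hu (h ▸ hu.1)),
        int_const_Ioo zero_le_one]
      ring
    have h4 : ∫ u in Ioo (0:ℝ) 1, g u = 0 := O.mean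
    have h5 : 0 < g p := opt_top_pos hW P O
    linarith
  have hv0p : v0 < p := lt_of_le_of_lt hv0v hv.2
  have h01 : v0 ∈ Ioo (0:ℝ) 1 := ⟨hv0pos, hv0p.trans P.hp1⟩
  have hgv0 : g v0 = g p := by
    have hc : ContinuousAt g v0 := hgc.continuousAt (Ioo_mem_nhds h01.1 h01.2)
    have h3 : Tendsto g (𝓝[>] v0) (𝓝 (g v0)) := hc.tendsto.mono_left nhdsWithin_le_nhds
    have h4 : Tendsto g (𝓝[>] v0) (𝓝 (g p)) := by
      refine tendsto_const_nhds.congr' ?_
      filter_upwards [Ioo_mem_nhdsGT h01.2] with u hu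
      exact (hup u ⟨hv0pos.trans hu.1, hu.2⟩ hu.1).symm
    exact tendsto_nhds_unique h3 h4
  have hlow : ∀ u ∈ Ioo (0:ℝ) 1, u < v0 → g u ≠ g p := fun u hu hlt h => by
    have := csInf_le hAb (show u ∈ A from ⟨hu, h⟩)
    linarith
  have hv0S := qf_mem_SW hW h01
  have hle : qf W v0 ≤ qf W p := monotoneOn_qf hW.isDF h01 hpm hv0p.le
  have hz : HS W n j p φ (qf W v0) = 0 := by
    by_contra hne
    have hpos : 0 < HS W n j p φ (qf W v0) := lt_of_le_of_ne (HS_nonneg hW h2 O hle) (Ne.symm hne)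
    obtain ⟨r, hr, hsub, α, β, hab⟩ := affine_of_pos hW h2 P O hv0S hle hpos
    have a1 : qf W v0 - r ∈ Icc (qf W v0 - r) (qf W v0 + r) := ⟨le_rfl, by linarith⟩
    have a2 : qf W v0 ∈ Icc (qf W v0 - r) (qf W v0 + r) := ⟨by linarith, by linarith⟩
    have a3 : qf W v0 + r ∈ Icc (qf W v0 - r) (qf W v0 + r) := ⟨by linarith, le_rfl⟩
    have b3 : g (W (qf W v0 + r)) = g p := by
      refine hup _ (W_mem (hsub a3)) ?_
      have := hW.strict hv0S (hsub a3) (by linarith)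
      rwa [W_qf hW h01] at this
    have b1 : g (W (qf W v0 - r)) ≠ g p := by
      refine hlow _ (W_mem (hsub a1)) ?_
      have := hW.strict (hsub a1) hv0S (by linarith)
      rwa [W_qf hW h01] at this
    have c1 : g (W (qf W v0 - r)) = α + β * (qf W v0 - r) := by
      show φ (qf W (W _)) = _
      rw [qf_W hW (hsub a1)]; exact hab _ a1
    have c3 : g (W (qf W v0 + r)) = α + β * (qf W v0 + r) := by
      show φ (qf W (W _)) = _
      rw [qf_W hW (hsub a3)]; exact hab _ a3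
    have c2 : g v0 = α + β * qf W v0 := hab _ a2
    have d1 : β * r = 0 := by linarith
    apply b1
    have d2 : β = 0 := (mul_eq_zero.1 d1).resolve_right hr.ne'
    rw [c1, d2, ← hgv0, c2, d2]; ring
  have hgpos : 0 < g p := opt_top_pos hW P O
  have h3 := prefix_pos hW h2 P O hv0pos hv0p.le (by rw [show φ (qf W v0) = g v0 from rfl, hgv0]; exact hgpos) hz
  have hd := HS_diff hW h2 P O h01 hpm hv0p
  have hn := HS_nonneg hW h2 O (le_refl (qf W p))
  have hlt : qf W v0 < qf W p := strictMonoOn_qf hW h01 hpm hv0p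
  have h4 : 0 ≤ ∫ u in Ioo v0 p, (qf W p - qf W u) * kS W n j p φ u := by
    refine setIntegral_nonneg measurableSet_Ioo fun u hu => ?_
    have hu' : u ∈ Ioo (0:ℝ) 1 := ⟨hv0pos.trans hu.1, hu.2.trans P.hp1⟩
    refine mul_nonneg (sub_nonneg.2 (monotoneOn_qf hW.isDF hu' hpm hu.2.le)) ?_
    unfold kS h00
    rw [if_pos hu.2]
    have h5 : φ (qf W u) = g p := hup u hu' hu.1
    rw [h5]
    linarith [fos_nonneg n j hu'.1.le hu'.2.le]
  have h5 := mul_pos (sub_pos.2 hlt) h3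
  rw [hz] at hd
  linarith

/-- The potential vanishes at `W^{-1}(p)`. -/
lemma HS_top (hW : IsRef W) (h2 : NegSq W) (P : Par n j p) (O : OptTr W n j p φ) :
    HS W n j p φ (qf W p) = 0 := by
  have hpm : p ∈ Ioo (0:ℝ) 1 := ⟨P.hp0, P.hp1⟩
  have hpS := qf_mem_SW hW hpm
  by_contra hne
  have hpos : 0 < HS W n j p φ (qf W p) :=
    lt_of_le_of_ne (HS_nonneg hW h2 O le_rfl) (Ne.symm hne)
  obtain ⟨r, hr, hsub, α, β, hab⟩ := affine_of_pos hW h2 P O hpS le_rfl hpos
  have a1 : qf W p - r ∈ Icc (qf W p - r) (qf W p + r) := ⟨le_rfl, by linarith⟩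
  have a2 : qf W p ∈ Icc (qf W p - r) (qf W p + r) := ⟨by linarith, by linarith⟩
  have a3 : qf W p + r ∈ Icc (qf W p - r) (qf W p + r) := ⟨by linarith, le_rfl⟩
  have b3 := O.ctr.const _ (hsub a3) (by linarith)
  rw [hab _ a3, hab _ a2] at b3
  have d2 : β = 0 := by
    have : β * r = 0 := by linarith
    exact (mul_eq_zero.1 this).resolve_right hr.ne'
  have hlt : W (qf W p - r) < p := by
    have := hW.strict (hsub a1) hpS (by linarith)
    rwa [W_qf hW hpm] at this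
  have h3 := opt_lt hW h2 P O (v := W (qf W p - r)) ⟨(W_mem (hsub a1)).1, hlt⟩
  rw [qf_W hW (hsub a1), hab _ a1, hab _ a2, d2] at h3
  linarith

/-- The potential is positive just before `W^{-1}(p)`. -/
lemma HS_pos_left (hW : IsRef W) (h2 : NegSq W) (P : Par n j p) (O : OptTr W n j p φ) :
    ∃ v1 ∈ Ioo 0 p, ∀ v ∈ Ioo v1 p, 0 < HS W n j p φ (qf W v) := by
  have hpm : p ∈ Ioo (0:ℝ) 1 := ⟨P.hp0, P.hp1⟩
  have hz := HS_top hW h2 P O
  have hG := prefix_pos hW h2 P O P.hp0 le_rfl (opt_top_pos hW P O) hz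
  obtain ⟨v1, hv1, hk⟩ := kS_pos_left hW P O P.hp0 le_rfl (opt_top_pos hW P O)
  have ik : IntegrableOn (kS W n j p φ) (Ioo (0:ℝ) 1) := (memLp_kS O).integrable (by norm_num)
  have hcont : ContinuousOn (fun u => ∫ v in Ioo 0 u, kS W n j p φ v) (Icc 0 1) := by
    have ih' : IntervalIntegrable (kS W n j p φ) volume 0 1 := by
      rw [intervalIntegrable_iff_integrableOn_Ioo_of_le zero_le_one]; exact ik
    have h3 : ContinuousOn (fun u => ∫ v in (0:ℝ)..u, kS W n j p φ v) (Icc 0 1) := by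
      have := intervalIntegral.continuousOn_primitive_interval'
        (μ := volume) (f := kS W n j p φ) (a := 0) (b₁ := 0) (b₂ := 1) ih' (by simp)
      simpa using this
    refine h3.congr fun u hu => ?_
    exact ioo_eq_interval hu.1 _
  have hca : ContinuousAt (fun u => ∫ v in Ioo 0 u, kS W n j p φ v) p :=
    hcont.continuousAt (Icc_mem_nhds hpm.1 hpm.2)
  obtain ⟨ε, hε, hball⟩ := Metric.eventually_nhds_iff.1 (hca.eventually (lt_mem_nhds hG))
  refine ⟨max v1 (p - ε / 2), ⟨lt_of_lt_of_le hv1.1 (le_max_left _ _),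
    max_lt hv1.2 (by linarith)⟩, fun v hv => ?_⟩
  have hv1' : v1 < v := lt_of_le_of_lt (le_max_left _ _) hv.1
  have hv2' : p - ε / 2 < v := lt_of_le_of_lt (le_max_right _ _) hv.1
  have hv01 : v ∈ Ioo (0:ℝ) 1 := ⟨hv1.1.trans hv1', hv.2.trans P.hp1⟩
  have hGv := hball (show dist v p < ε by
    rw [Real.dist_eq, abs_lt]; constructor <;> linarith [hv.2])
  have hd := HS_diff hW h2 P O hv01 hpm hv.2
  rw [hz, sub_zero] at hd
  have hlt : qf W v < qf W p := strictMonoOn_qf hW hv01 hpm hv.2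
  have h4 : 0 ≤ ∫ u in Ioo v p, (qf W p - qf W u) * kS W n j p φ u := by
    refine setIntegral_nonneg measurableSet_Ioo fun u hu => ?_
    have hu' : u ∈ Ioo (0:ℝ) 1 := ⟨hv01.1.trans hu.1, hu.2.trans P.hp1⟩
    exact mul_nonneg (sub_nonneg.2 (monotoneOn_qf hW.isDF hu' hpm hu.2.le))
      (hk u ⟨hv1'.trans hu.1, hu.2⟩).le
  rw [hd]
  have h5 := mul_pos (sub_pos.2 hlt) hGv
  linarith

end opt

/-- A function that is locally affine on an open interval is affine on it. -/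
lemma affine_of_local {f : ℝ → ℝ} {a b : ℝ} (hab : a < b)
    (h : ∀ x ∈ Ioo a b, ∃ r > 0, ∃ α β : ℝ, ∀ y ∈ Icc (x - r) (x + r), f y = α + β * y) :
    ∃ α β : ℝ, ∀ y ∈ Ioo a b, f y = α + β * y := by
  have hloc : ∀ x ∈ Ioo a b, ∃ α β : ℝ, ∀ᶠ y in 𝓝 x, f y = α + β * y := by
    intro x hx
    obtain ⟨r, hr, α, β, h1⟩ := h x hx
    refine ⟨α, β, ?_⟩
    have h3 : Icc (x - r) (x + r) ∈ 𝓝 x := Icc_mem_nhds (by linarith) (by linarith)
    filter_upwards [h3] with y hy using h1 y hy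
  obtain ⟨α, β, h0⟩ := hloc ((a + b) / 2) ⟨by linarith, by linarith⟩
  refine ⟨α, β, ?_⟩
  have hsub : Ioo a b ⊆ {x | ∀ᶠ y in 𝓝 x, f y = α + β * y} := by
    refine isPreconnected_Ioo.subset_of_closure_inter_subset isOpen_setOfPred_eventually_nhds
      ⟨(a + b) / 2, ⟨by linarith, by linarith⟩, h0⟩ ?_
    rintro x ⟨hxc, hx⟩
    obtain ⟨α', β', h1⟩ := hloc x hx
    obtain ⟨x', hx', hxu⟩ := mem_closure_iff_nhds.1 hxc _ (eventually_eventually_nhds.2 h1)
    have h3 : ∀ᶠ y in 𝓝 x', α + β * y = α' + β' * y := by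
      have h5 : ∀ᶠ y in 𝓝 x', f y = α' + β' * y := hx'
      have h6 : ∀ᶠ y in 𝓝 x', f y = α + β * y := hxu
      filter_upwards [h5, h6] with y e1 e2
      rw [← e1, ← e2]
    obtain ⟨ε, hε, hb⟩ := Metric.eventually_nhds_iff.1 h3
    have e1 := hb (show dist x' x' < ε by rw [dist_self]; exact hε)
    have e2 := hb (show dist (x' + ε / 2) x' < ε by
      rw [Real.dist_eq, abs_lt]; constructor <;> linarith)
    have e3 : (β - β') * (ε / 2) = 0 := by linarith
    have e4 : β = β' := by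
      have := (mul_eq_zero.1 e3).resolve_right (by linarith)
      linarith
    have e5 : α = α' := by rw [e4] at e1; linarith
    show ∀ᶠ y in 𝓝 x, f y = α + β * y
    rw [e4, e5]; exact h1
  intro y hy
  have := hsub hy
  exact (show ∀ᶠ z in 𝓝 y, f z = α + β * z from this).self_of_nhds

/-- The optimal transform is affine just before `W^{-1}(p)`, with positive slope. -/
lemma opt_top_affine (hW : IsRef W) (h2 : NegSq W) {n j : ℕ} {p : ℝ} (P : Par n j p) {φ : ℝ → ℝ}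
    (O : OptTr W n j p φ) :
    ∃ s ∈ Ioo 0 p, ∃ α β : ℝ, 0 < β ∧ ∀ u ∈ Ioo s 1, φ (qf W u) = α + β * min (qf W u) (qf W p) := by
  have hpm : p ∈ Ioo (0:ℝ) 1 := ⟨P.hp0, P.hp1⟩
  have hpS := qf_mem_SW hW hpm
  obtain ⟨s, hs, hpos⟩ := HS_pos_left hW h2 P O
  have hs01 : s ∈ Ioo (0:ℝ) 1 := ⟨hs.1, hs.2.trans P.hp1⟩
  have hlt : qf W s < qf W p := strictMonoOn_qf hW hs01 hpm hs.2
  obtain ⟨α, β, hab⟩ := affine_of_local (f := φ) hlt (fun x hx => by
    have hxS : x ∈ SW W := (ordConnected_SW hW).out (qf_mem_SW hW hs01) hpS ⟨hx.1.le, hx.2.le⟩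
    have hWx := W_mem hxS
    have h3 : s < W x := (qf_lt_iff hW hs01 hxS).1 hx.1
    have h4 : W x < p := (lt_qf_iff hW hpm x).1 hx.2
    have h5 := hpos (W x) ⟨h3, h4⟩
    rw [qf_W hW hxS] at h5
    obtain ⟨r, hr, _, α, β, h6⟩ := affine_of_pos hW h2 P O hxS hx.2.le h5
    exact ⟨r, hr, α, β, h6⟩)
  -- the value at the end point
  have hφc : ContinuousAt φ (qf W p) := by
    have h1 : ContinuousOn (fun x => -φ x) (SW W) :=
      ConvexOn.continuousOn (isOpen_SW hW) O.ctr.conc.neg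
    have h3 : ContinuousOn φ (SW W) := (h1.neg).congr fun x _ => by simp
    exact h3.continuousAt ((isOpen_SW hW).mem_nhds hpS)
  have hend : φ (qf W p) = α + β * qf W p := by
    have h3 : Tendsto φ (𝓝[<] (qf W p)) (𝓝 (φ (qf W p))) := hφc.tendsto.mono_left nhdsWithin_le_nhds
    have h4 : Tendsto φ (𝓝[<] (qf W p)) (𝓝 (α + β * qf W p)) := by
      have h5 : Tendsto (fun y => α + β * y) (𝓝[<] (qf W p)) (𝓝 (α + β * qf W p)) := by
        have : Continuous (fun y : ℝ => α + β * y) := by fun_prop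
        exact (this.tendsto _).mono_left nhdsWithin_le_nhds
      refine h5.congr' ?_
      filter_upwards [Ioo_mem_nhdsLT hlt] with y hy
      exact (hab y hy).symm
    exact tendsto_nhds_unique h3 h4
  have hβ : 0 < β := by
    have hm : (s + p) / 2 ∈ Ioo 0 p := ⟨by linarith [hs.1, hs.2, P.hp0], by linarith [hs.2]⟩
    have hm01 : (s + p) / 2 ∈ Ioo (0:ℝ) 1 := ⟨hm.1, hm.2.trans P.hp1⟩
    have h3 := opt_lt hW h2 P O hm
    have h4 : qf W s < qf W ((s + p) / 2) := strictMonoOn_qf hW hs01 hm01 (by linarith [hs.2])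
    have h5 : qf W ((s + p) / 2) < qf W p := strictMonoOn_qf hW hm01 hpm hm.2
    rw [hab _ ⟨h4, h5⟩, hend] at h3
    have h6 : 0 < β * (qf W p - qf W ((s + p) / 2)) := by linarith
    by_contra hcon
    push Not at hcon
    have := mul_nonpos_of_nonpos_of_nonneg hcon (sub_nonneg.2 h5.le)
    linarith
  refine ⟨s, hs, α, β, hβ, fun u hu => ?_⟩
  have hu01 : u ∈ Ioo (0:ℝ) 1 := ⟨hs.1.trans hu.1, hu.2⟩
  rcases lt_or_ge u p with h | h
  · have h3 : qf W s < qf W u := strictMonoOn_qf hW hs01 hu01 hu.1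
    have h4 : qf W u < qf W p := strictMonoOn_qf hW hu01 hpm h
    rw [min_eq_left h4.le]
    exact hab _ ⟨h3, h4⟩
  · have h3 : qf W p ≤ qf W u := monotoneOn_qf hW.isDF hpm hu01 h
    rw [min_eq_right h3, O.ctr.const _ (qf_mem_SW hW hu01) h3, hend]

end

end Pool.Agent.Lib.QBias
end

section

/-!
The shape of the minimisers over the convex family.
-/

set_option autoImplicit false

namespace Pool.Agent.Lib.QBias

open MeasureTheory ProbabilityTheory Set Filter Topology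

noncomputable section

variable {W : ℝ → ℝ}

lemma slack_eq (hW : IsRef W) (h2 : NegSq W) {n j : ℕ} {p : ℝ} (P : Par n j p) {φ : ℝ → ℝ}
    (O : OptTr W n j p φ) {μ : Measure ℝ} (hμ : Adm μ) {b c : ℝ} (hc : 0 < c)
    (hall : ∀ u ∈ Ioo (0:ℝ) 1, qf (cdf μ) u = b + c * φ (qf W u))
    (hB : bias n j p μ = -Real.sqrt (∫ u in Ioo (0:ℝ) 1, φ (qf W u) ^ 2)) :
    Real.sqrt (var2 μ) = c * Real.sqrt (∫ u in Ioo (0:ℝ) 1, φ (qf W u) ^ 2) ∧
    (∫ x, x ∂μ) = b ∧
    ∀ v ∈ Ioc 0 p, slack W n j p μ v =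
      c * Real.sqrt (∫ u in Ioo (0:ℝ) 1, φ (qf W u) ^ 2) * HS W n j p φ (qf W v) := by
  have hpm : p ∈ Ioo (0:ℝ) 1 := ⟨P.hp0, P.hp1⟩
  have hprob := hμ.prob
  set V := ∫ u in Ioo (0:ℝ) 1, φ (qf W u) ^ 2 with hV
  have ig : IntegrableOn (fun u => φ (qf W u)) (Ioo (0:ℝ) 1) := O.memLp.integrable (by norm_num)
  have e3 : Real.sqrt (var2 μ) = c * Real.sqrt V := by
    rw [var2_eq, varU_congr hall, varU_affine O.memLp]
    have : varU (fun u => φ (qf W u)) = V := by
      unfold varU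
      rw [O.mean, hV]; congr 1; funext u; ring
    rw [this, Real.sqrt_mul (sq_nonneg _), Real.sqrt_sq hc.le]
  have em : (∫ x, x ∂μ) = b := by
    rw [integral_eq_uni μ (g := fun y => y) measurable_id, int_congr_uni hall,
      integral_add (integrable_const _) (ig.const_mul _), integral_const_mul, O.mean,
      int_const_Ioo zero_le_one]
    ring
  refine ⟨e3, em, fun v hv => ?_⟩
  have hv01 : v ∈ Ioo (0:ℝ) 1 := ⟨hv.1, lt_of_le_of_lt hv.2 P.hp1⟩
  have htp : qf W v ≤ qf W p := monotoneOn_qf hW.isDF hv01 hpm hv.2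
  set t := qf W v with ht
  have hz := memLp_zc hW h2 t
  have hz2 : MemLp (fun u => zc W t u - mC W t) 2 uni := hz.sub (memLp_const _)
  have iz : IntegrableOn (fun u => zc W t u - mC W t) (Ioo (0:ℝ) 1) := hz2.integrable (by norm_num)
  have igz : IntegrableOn (fun u => φ (qf W u) * (zc W t u - mC W t)) (Ioo (0:ℝ) 1) :=
    O.memLp.integrable_mul hz2
  have igz' : IntegrableOn (fun u => zc W t u * φ (qf W u)) (Ioo (0:ℝ) 1) := hz.integrable_mul O.memLp
  have e1 : ∫ u in Ioo (0:ℝ) 1, φ (qf W u) * (zc W t u - mC W t) =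
      ∫ u in Ioo (0:ℝ) 1, zc W t u * φ (qf W u) := by
    have : ∀ u, φ (qf W u) * (zc W t u - mC W t) = zc W t u * φ (qf W u) - mC W t * φ (qf W u) :=
      fun u => by ring
    simp only [this]
    rw [integral_sub igz' (ig.const_mul _), integral_const_mul, O.mean]; ring
  have e2 : covC W μ t = c * ∫ u in Ioo (0:ℝ) 1, zc W t u * φ (qf W u) := by
    rw [covC_eq]
    have : ∫ u in Ioo (0:ℝ) 1, qf (cdf μ) u * (zc W t u - mC W t) =
        ∫ u in Ioo (0:ℝ) 1, (b * (zc W t u - mC W t) + c * (φ (qf W u) * (zc W t u - mC W t))) :=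
      int_congr_uni fun u hu => by rw [hall u hu]; ring
    rw [this, integral_add (iz.const_mul _) (igz.const_mul _), integral_const_mul,
      integral_const_mul, int_zc_centered hW h2 t, e1]
    ring
  have e4 : HS W n j p φ t = -b1 W n j t + ∫ u in Ioo (0:ℝ) 1, zc W t u * φ (qf W u) := by
    have h3 : HS W n j p φ t = _ := int_mul_kS O hz
    rw [h3, ← zc_h00 hW h2 P htp]; ring
  unfold slack cut
  rw [← covC_eq' hW, e2, ← ePos_meanOS hW h2 P, ePos_eq, e3, hB, e4]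
  ring

/-- The shape of the minimisers over the convex family. -/
theorem conv_inf_shape (hW : IsRef W) (h2 : NegSq W) {n j : ℕ} {p : ℝ} (P : Par n j p) :
    ∀ μ ∈ CFam W, IsLeast (bias n j p '' CFam W) (bias n j p μ) →
      slack W n j p μ p = 0 ∧
      (∃ s ∈ Ioo 0 p, ∃ α β : ℝ, 0 < β ∧
        ∀ u ∈ Ioo s 1, qf (cdf μ) u = α + β * min (qf W u) (qf W p)) ∧
      (∀ v ∈ Ioo 0 p, 0 < slack W n j p μ v →
        ∃ ε > 0, ∃ α β : ℝ, ∀ u, |u - v| < ε → qf (cdf μ) u = α + β * qf W u) ∧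
      (∀ v1 v2, 0 ≤ v1 → v2 ≤ p → (∀ v ∈ Ioo v1 v2, slack W n j p μ v = 0) →
        ∀ u ∈ Ioo v1 v2, bias n j p μ * (qf (cdf μ) u - ∫ x, x ∂μ) =
          Real.sqrt (var2 μ) * fos n j u) := by
  intro μ hμ hleast
  obtain ⟨φ, O, ν, hν, hq, hB, hneg, hmin, -, huniq, -⟩ := conv_lower_general' hW h2 P
  have hpm : p ∈ Ioo (0:ℝ) 1 := ⟨P.hp0, P.hp1⟩
  have heq : bias n j p μ = bias n j p ν := le_antisymm (hleast.2 ⟨ν, hν, rfl⟩) (hmin μ hμ)
  obtain ⟨b, c, hc, hall0⟩ := huniq μ hμ heq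
  have hall : ∀ u ∈ Ioo (0:ℝ) 1, qf (cdf μ) u = b + c * φ (qf W u) := fun u hu => by
    rw [hall0 u hu, hq u hu]
  obtain ⟨e3, em, hs⟩ := slack_eq hW h2 P O hμ.1 hc hall (heq.trans hB)
  set V := ∫ u in Ioo (0:ℝ) 1, φ (qf W u) ^ 2 with hV
  have hsV : 0 < Real.sqrt V := Real.sqrt_pos.2 O.pos
  have hcV : 0 < c * Real.sqrt V := mul_pos hc hsV
  refine ⟨?_, ?_, ?_, ?_⟩
  · rw [hs p ⟨P.hp0, le_rfl⟩, HS_top hW h2 P O, mul_zero]
  · obtain ⟨s, hs', α, β, hβ, h3⟩ := opt_top_affine hW h2 P O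
    refine ⟨s, hs', b + c * α, c * β, mul_pos hc hβ, fun u hu => ?_⟩
    rw [hall u ⟨hs'.1.trans hu.1, hu.2⟩, h3 u hu]; ring
  · intro v hv hpos
    rw [hs v ⟨hv.1, hv.2.le⟩] at hpos
    have hpos' : 0 < HS W n j p φ (qf W v) := pos_of_mul_pos_right hpos hcV.le
    have hv01 : v ∈ Ioo (0:ℝ) 1 := ⟨hv.1, hv.2.trans P.hp1⟩
    obtain ⟨r, hr, hsub, α, β, hab⟩ := affine_of_pos hW h2 P O (qf_mem_SW hW hv01)
      (monotoneOn_qf hW.isDF hv01 hpm hv.2.le) hpos'
    have hcont := (continuousOn_qf hW).continuousAt (Ioo_mem_nhds hv01.1 hv01.2)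
    have hev : ∀ᶠ u in 𝓝 v, qf W u ∈ Icc (qf W v - r) (qf W v + r) ∧ u ∈ Ioo (0:ℝ) 1 :=
      (hcont.eventually (Icc_mem_nhds (by linarith) (by linarith))).and
        (Ioo_mem_nhds hv01.1 hv01.2)
    obtain ⟨ε, hε, hball⟩ := Metric.eventually_nhds_iff.1 hev
    refine ⟨ε, hε, b + c * α, c * β, fun u hu => ?_⟩
    obtain ⟨h3, h4⟩ := hball (show dist u v < ε by rw [Real.dist_eq]; exact hu)
    rw [hall u h4, hab _ h3]; ring
  · intro v1 v2 h0 hp hz u hu
    have hz' : ∀ v ∈ Ioo v1 v2, HS W n j p φ (qf W v) = 0 := fun v hv => by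
      have h3 := hs v ⟨lt_of_le_of_lt h0 hv.1, hv.2.le.trans hp⟩
      rw [hz v hv] at h3
      exact (mul_eq_zero.1 h3.symm).resolve_left hcV.ne'
    have h3 := eq_of_zero hW h2 P O h0 hp hz' u hu
    have hu01 : u ∈ Ioo (0:ℝ) 1 := ⟨lt_of_le_of_lt h0 hu.1, lt_of_lt_of_le hu.2 (hp.trans P.hp1.le)⟩
    rw [hall u hu01, em, h3, heq, hB, e3]; ring

/-- The criterion for minimisers over the convex family. -/
theorem conv_inf_crit (hW : IsRef W) (h2 : NegSq W) {n j : ℕ} {p : ℝ} (P : Par n j p) :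
    ∀ μ ∈ CFam W, IsLeast (bias n j p '' CFam W) (bias n j p μ) ↔
      ∀ v ∈ Ioc 0 p, 0 ≤ slack W n j p μ v := by
  intro μ hμ
  rw [(conv_inf' hW h2 P).2 μ hμ]
  constructor
  · intro h v hv
    have := h v hv
    unfold slack; linarith
  · intro h v hv
    have := h v hv
    unfold slack at this; linarith

end

end Pool.Agent.Lib.QBias
end

section

/-!
The zero set of the potential is an interval when the negative density is convex and then concave
along the reference law.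
-/

set_option autoImplicit false

namespace Pool.Agent.Lib.QBias

open MeasureTheory ProbabilityTheory Set Filter Topology

noncomputable section

variable {W : ℝ → ℝ}

/-- Steep, flat, steep is impossible. -/
lemma no_dip (hW : IsRef W) {n j : ℕ} {p : ℝ} (P : Par n j p) (hU : CvxCnc W n j p)
    {β a b c d e : ℝ} (hβ : 0 < β) (ha : a ∈ SW W) (he : e ∈ SW W) (hep : e ≤ qf W p)
    (hab : a < b) (hbc : b ≤ c) (hcd : c < d) (hde : d < e)
    (h1 : β * (b - a) ≤ gW W n j b - gW W n j a)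
    (h2 : gW W n j d - gW W n j c < β * (d - c))
    (h3 : β * (e - d) < gW W n j e - gW W n j d) : False := by
  have hoc := ordConnected_SW hW
  have hb : b ∈ SW W := hoc.out ha he ⟨hab.le, by linarith⟩
  have hc : c ∈ SW W := hoc.out ha he ⟨by linarith, by linarith⟩
  have hd : d ∈ SW W := hoc.out ha he ⟨by linarith, by linarith⟩
  have hm0 := md_nonneg (n := n) (j := j) P.hn P.hj
  -- move `a` past the mode
  obtain ⟨a', ha', haa, hab', hma, h1'⟩ : ∃ a' ∈ SW W, a ≤ a' ∧ a' < b ∧ md n j ≤ W a' ∧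
      β * (b - a') ≤ gW W n j b - gW W n j a' := by
    by_cases hm : md n j ≤ W a
    · exact ⟨a, ha, le_rfl, hab, hm, h1⟩
    · push Not at hm
      have hWa := W_mem ha
      have hm01 : md n j ∈ Ioo (0:ℝ) 1 := ⟨hWa.1.trans hm, lt_of_le_of_lt P.hp P.hp1⟩
      have hmS := qf_mem_SW hW hm01
      have ham : a < qf W (md n j) := (lt_qf_iff hW hm01 a).2 hm
      have hmb : qf W (md n j) < b := by
        by_contra hcon
        push Not at hcon
        have h4 : W b ≤ md n j := by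
          have := hW.mono hcon
          rwa [W_qf hW hm01] at this
        have h5 := monotoneOn_fos P.hj P.hn P.hjn (show W a ∈ Icc 0 (md n j) from ⟨hWa.1.le, hm.le⟩)
          (show W b ∈ Icc 0 (md n j) from ⟨(W_mem hb).1.le, h4⟩) (hW.mono hab.le)
        have h6 : 0 < β * (b - a) := mul_pos hβ (by linarith)
        unfold gW at h1
        linarith
      refine ⟨qf W (md n j), hmS, ham.le, hmb, by rw [W_qf hW hm01], ?_⟩
      have h5 := monotoneOn_fos P.hj P.hn P.hjn (show W a ∈ Icc 0 (md n j) from ⟨hWa.1.le, hm.le⟩)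
        (show md n j ∈ Icc 0 (md n j) from ⟨hm0, le_rfl⟩) hm.le
      have h6 : β * (b - qf W (md n j)) ≤ β * (b - a) :=
        mul_le_mul_of_nonneg_left (by linarith) hβ.le
      unfold gW at h1 ⊢
      rw [W_qf hW hm01]
      linarith
  have mle : ∀ y, a' ≤ y → md n j ≤ W y := fun y hy => hma.trans (hW.mono hy)
  have hpm : p ∈ Ioo (0:ℝ) 1 := ⟨P.hp0, P.hp1⟩
  have hWe : W e ≤ p := by
    have := hW.mono hep
    rwa [W_qf hW hpm] at this
  have wcd : W c < W d := hW.strict hc hd hcd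
  have wde : W d < W e := hW.strict hd he hde
  have wbc : W b ≤ W c := hW.mono hbc
  have wab : W a' ≤ W b := hW.mono hab'.le
  obtain ⟨s, hcvx, hcnc⟩ := hU
  rcases le_or_gt (W d) s with hd0 | hd0
  · -- everything is in the convex part
    have h5 := slope_four hcvx.neg (a := a') (b := b) (c := c) (d := d)
      ⟨ha', hma, by linarith⟩ ⟨hd, mle d (by linarith), hd0⟩ hab' hbc hcd
    simp only [Pi.neg_apply] at h5
    rw [div_le_div_iff₀ (by linarith) (by linarith)] at h5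
    have k1 := mul_le_mul_of_nonneg_right h1' (show 0 ≤ d - c by linarith)
    have k2 := mul_lt_mul_of_pos_right h2 (show 0 < b - a' by linarith)
    nlinarith
  · rcases le_or_gt s (W c) with hc0 | hc0
    · have h5 := slope_four hcnc (a := c) (b := d) (c := d) (d := e)
        ⟨hc, mle c (by linarith), hc0, by linarith⟩ ⟨he, mle e (by linarith), by linarith, hWe⟩
        hcd le_rfl hde
      rw [div_le_div_iff₀ (by linarith) (by linarith)] at h5
      have k1 := mul_lt_mul_of_pos_right h3 (show 0 < d - c by linarith)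
      have k2 := mul_lt_mul_of_pos_right h2 (show 0 < e - d by linarith)
      nlinarith
    · have hs01 : s ∈ Ioo (0:ℝ) 1 := ⟨(W_mem hc).1.trans hc0, hd0.trans (W_mem hd).2⟩
      obtain ⟨y0, hy0S, hWy0, hcy0, hy0d⟩ : ∃ y0 ∈ SW W, W y0 = s ∧ c < y0 ∧ y0 < d :=
        ⟨qf W s, qf_mem_SW hW hs01, W_qf hW hs01, (lt_qf_iff hW hs01 c).2 hc0,
          (qf_lt_iff hW hs01 hd).2 hd0⟩
      have h4 : β * (y0 - c) ≤ gW W n j y0 - gW W n j c := by
        have h5 := slope_four hcvx.neg (a := a') (b := b) (c := c) (d := y0)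
          ⟨ha', hma, by linarith⟩ ⟨hy0S, mle y0 (by linarith), hWy0.le⟩ hab' hbc hcy0
        simp only [Pi.neg_apply] at h5
        rw [div_le_div_iff₀ (by linarith) (by linarith)] at h5
        have k1 := mul_le_mul_of_nonneg_right h1' (show 0 ≤ y0 - c by linarith)
        have k2 : 0 < b - a' := by linarith
        by_contra hcon
        push Not at hcon
        have k3 := mul_lt_mul_of_pos_right hcon k2
        nlinarith
      have h5 := slope_four hcnc (a := y0) (b := d) (c := d) (d := e)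
        ⟨hy0S, mle y0 (by linarith), hWy0.ge, by linarith⟩
        ⟨he, mle e (by linarith), by linarith, hWe⟩ hy0d le_rfl hde
      rw [div_le_div_iff₀ (by linarith) (by linarith)] at h5
      have k0 : gW W n j d - gW W n j y0 < β * (d - y0) := by linarith
      have k1 := mul_lt_mul_of_pos_right h3 (show 0 < d - y0 by linarith)
      have k2 := mul_lt_mul_of_pos_right k0 (show 0 < e - d by linarith)
      nlinarith

section opt

variable {n j : ℕ} {p : ℝ} {φ : ℝ → ℝ}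

lemma hasDerivAt_HS (hW : IsRef W) (h2 : NegSq W) (P : Par n j p) (O : OptTr W n j p φ) {t : ℝ}
    (ht : t ∈ SW W) :
    HasDerivAt (HS W n j p φ) (-(∫ u in Ioo 0 (W t), kS W n j p φ u)) t := by
  have h := (hasDerivAt_pc_mul hW h2 ht (memLp_kS O)).neg
  refine h.congr_of_eventuallyEq (Eventually.of_forall fun s => ?_)
  show HS W n j p φ s = -(∫ u in Ioo (0:ℝ) 1, pc W s u * kS W n j p φ u)
  rw [int_pc_kS hW h2 P O]; ring

/-- At an interior zero of the potential the residual has mean zero on both sides. -/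
lemma prefix_zero (hW : IsRef W) (h2 : NegSq W) (P : Par n j p) (O : OptTr W n j p φ) {v : ℝ}
    (hv : v ∈ Ioo 0 p) (hz : HS W n j p φ (qf W v) = 0) :
    ∫ u in Ioo 0 v, kS W n j p φ u = 0 := by
  have hpm : p ∈ Ioo (0:ℝ) 1 := ⟨P.hp0, P.hp1⟩
  have hv01 : v ∈ Ioo (0:ℝ) 1 := ⟨hv.1, hv.2.trans P.hp1⟩
  have hvS := qf_mem_SW hW hv01
  have hlt : qf W v < qf W p := strictMonoOn_qf hW hv01 hpm hv.2
  have hd := hasDerivAt_HS hW h2 P O hvS
  rw [W_qf hW hv01] at hd
  have hmin : IsLocalMin (HS W n j p φ) (qf W v) := by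
    filter_upwards [gt_mem_nhds hlt] with y hy
    rw [hz]
    exact HS_nonneg hW h2 O (le_of_lt hy)
  have := hmin.hasDerivAt_eq_zero hd
  linarith

lemma HS_right (hW : IsRef W) (h2 : NegSq W) (P : Par n j p) (O : OptTr W n j p φ) {l v : ℝ}
    (hl : l ∈ Ioo 0 p) (hz : HS W n j p φ (qf W l) = 0) (hlv : l < v) (hv : v < 1) :
    HS W n j p φ (qf W v) = -(∫ u in Ioo l v, (qf W v - qf W u) * kS W n j p φ u) := by
  have hl01 : l ∈ Ioo (0:ℝ) 1 := ⟨hl.1, hl.2.trans P.hp1⟩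
  have hd := HS_diff hW h2 P O hl01 (show v ∈ Ioo (0:ℝ) 1 from ⟨hl.1.trans hlv, hv⟩) hlv
  rw [hz, prefix_zero hW h2 P O hl hz] at hd
  linarith

lemma HS_left (hW : IsRef W) (h2 : NegSq W) (P : Par n j p) (O : OptTr W n j p φ) {r v : ℝ}
    (hr : r ∈ Ioo 0 p) (hz : HS W n j p φ (qf W r) = 0) (h0 : 0 < v) (hvr : v < r) :
    HS W n j p φ (qf W v) = -(∫ u in Ioo v r, (qf W u - qf W v) * kS W n j p φ u) := by
  have hr01 : r ∈ Ioo (0:ℝ) 1 := ⟨hr.1, hr.2.trans P.hp1⟩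
  have hd := HS_diff' hW h2 P O (show v ∈ Ioo (0:ℝ) 1 from ⟨h0, hvr.trans hr01.2⟩) hr01 hvr
  rw [hz, prefix_zero hW h2 P O hr hz] at hd
  linarith

lemma exists_neg_right (hW : IsRef W) (h2 : NegSq W) (P : Par n j p) (O : OptTr W n j p φ)
    {l v : ℝ} (hl : l ∈ Ioo 0 p) (hz : HS W n j p φ (qf W l) = 0) (hlv : l < v) (hv : v < 1)
    (hpos : 0 < HS W n j p φ (qf W v)) : ∃ u ∈ Ioo l v, kS W n j p φ u < 0 := by
  by_contra hcon
  push Not at hcon
  rw [HS_right hW h2 P O hl hz hlv hv] at hpos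
  have hv01 : v ∈ Ioo (0:ℝ) 1 := ⟨hl.1.trans hlv, hv⟩
  have : 0 ≤ ∫ u in Ioo l v, (qf W v - qf W u) * kS W n j p φ u := by
    refine setIntegral_nonneg measurableSet_Ioo fun u hu => ?_
    refine mul_nonneg (sub_nonneg.2 (monotoneOn_qf hW.isDF ⟨hl.1.trans hu.1, hu.2.trans hv⟩ hv01
      hu.2.le)) (hcon u hu)
  linarith

lemma exists_neg_left (hW : IsRef W) (h2 : NegSq W) (P : Par n j p) (O : OptTr W n j p φ)
    {r v : ℝ} (hr : r ∈ Ioo 0 p) (hz : HS W n j p φ (qf W r) = 0) (h0 : 0 < v) (hvr : v < r)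
    (hpos : 0 < HS W n j p φ (qf W v)) : ∃ u ∈ Ioo v r, kS W n j p φ u < 0 := by
  by_contra hcon
  push Not at hcon
  rw [HS_left hW h2 P O hr hz h0 hvr] at hpos
  have hr01 : r ∈ Ioo (0:ℝ) 1 := ⟨hr.1, hr.2.trans P.hp1⟩
  have hv01 : v ∈ Ioo (0:ℝ) 1 := ⟨h0, hvr.trans hr01.2⟩
  have : 0 ≤ ∫ u in Ioo v r, (qf W u - qf W v) * kS W n j p φ u := by
    refine setIntegral_nonneg measurableSet_Ioo fun u hu => ?_
    refine mul_nonneg (sub_nonneg.2 (monotoneOn_qf hW.isDF hv01 ⟨h0.trans hu.1,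
      hu.2.trans hr01.2⟩ hu.1.le)) (hcon u hu)
  linarith

lemma integrableOn_kS (O : OptTr W n j p φ) {a b : ℝ} (ha : 0 ≤ a) (hb : b ≤ 1) :
    IntegrableOn (kS W n j p φ) (Ioo a b) := by
  have h : IntegrableOn (kS W n j p φ) (Ioo (0:ℝ) 1) := (memLp_kS O).integrable (by norm_num)
  exact h.mono_set (Ioo_subset_Ioo ha hb)

/-- Splitting of the prefix integral. -/
lemma prefix_split (O : OptTr W n j p φ) {a b : ℝ} (ha : 0 < a) (hab : a < b) (hb : b ≤ 1) :
    ∫ u in Ioo 0 b, kS W n j p φ u =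
      (∫ u in Ioo 0 a, kS W n j p φ u) + ∫ u in Ioo a b, kS W n j p φ u :=
  split_uni ha hab (integrableOn_kS O le_rfl hb)

lemma exists_pos_mid (hW : IsRef W) (h2 : NegSq W) (P : Par n j p) (O : OptTr W n j p φ)
    {l r v : ℝ} (hl : l ∈ Ioo 0 p) (hr : r ∈ Ioo 0 p) (hzl : HS W n j p φ (qf W l) = 0)
    (hzr : HS W n j p φ (qf W r) = 0) (hv : v ∈ Ioo l r) (hpos : 0 < HS W n j p φ (qf W v)) :
    ∃ u ∈ Ioo l r, 0 < kS W n j p φ u := by
  by_contra hcon
  push Not at hcon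
  have hlr : l < r := hv.1.trans hv.2
  have hr1 : r < 1 := hr.2.trans P.hp1
  have h3 := prefix_split O hl.1 hlr hr1.le
  rw [prefix_zero hW h2 P O hl hzl, prefix_zero hW h2 P O hr hzr, zero_add] at h3
  have hi := integrableOn_kS O (a := l) (b := r) hl.1.le hr1.le
  have h4 : ∫ u in Ioo l r, -kS W n j p φ u = 0 := by rw [integral_neg, ← h3, neg_zero]
  have h5 := (setIntegral_eq_zero_iff_of_nonneg_ae
    ((ae_restrict_iff' measurableSet_Ioo).2 (Eventually.of_forall fun u hu =>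
      (neg_nonneg.2 (hcon u hu) : 0 ≤ -kS W n j p φ u))) hi.neg).1 h4
  have hsub : Ioo l v ⊆ Ioo l r := Ioo_subset_Ioo_right hv.2.le
  have h6 : ∫ u in Ioo l v, (qf W v - qf W u) * kS W n j p φ u = 0 := by
    have : ∀ᵐ u ∂(volume.restrict (Ioo l v)), (qf W v - qf W u) * kS W n j p φ u = 0 := by
      filter_upwards [ae_restrict_of_ae_restrict_of_subset hsub h5] with u hu
      have h7 : -kS W n j p φ u = 0 := hu
      have h8 : kS W n j p φ u = 0 := by linarith
      rw [h8, mul_zero]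
    rw [integral_congr_ae this]; simp
  rw [HS_right hW h2 P O hl hzl hv.1 (hv.2.trans hr1), h6] at hpos
  simp at hpos

/-- To the left of a zero of the potential the residual passes from nonnegative to nonpositive. -/
lemma exists_pair_left (hW : IsRef W) (h2 : NegSq W) (P : Par n j p) (O : OptTr W n j p φ)
    {l : ℝ} (hl : l ∈ Ioo 0 p) (hz : HS W n j p φ (qf W l) = 0) :
    ∃ u ∈ Ioo 0 l, ∃ u' ∈ Ioo u l, 0 ≤ kS W n j p φ u ∧ kS W n j p φ u' ≤ 0 := by
  have hl01 : l ∈ Ioo (0:ℝ) 1 := ⟨hl.1, hl.2.trans P.hp1⟩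
  have hpm : p ∈ Ioo (0:ℝ) 1 := ⟨P.hp0, P.hp1⟩
  have h3 := prefix_zero hW h2 P O hl hz
  obtain ⟨u, hu, hku⟩ : ∃ u ∈ Ioo 0 l, 0 ≤ kS W n j p φ u := by
    by_contra hcon
    push Not at hcon
    have hi := integrableOn_kS O (a := 0) (b := l) le_rfl hl01.2.le
    have h4 : 0 < ∫ u in Ioo 0 l, -kS W n j p φ u := by
      rw [ioo_eq_interval hl.1.le]
      refine intervalIntegral.intervalIntegral_pos_of_pos_on ?_ (fun u hu => by
        linarith [hcon u hu]) hl.1
      rw [intervalIntegrable_iff_integrableOn_Ioo_of_le hl.1.le]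
      exact hi.neg
    rw [integral_neg, h3] at h4
    simp at h4
  refine ⟨u, hu, ?_⟩
  by_contra hcon
  push Not at hcon
  have hcon' : ∀ u' ∈ Ioo u l, 0 < kS W n j p φ u' := fun u' hu' => hcon u' hu' hku
  have hu01 : u ∈ Ioo (0:ℝ) 1 := ⟨hu.1, hu.2.trans hl01.2⟩
  have h4 := HS_left hW h2 P O hl hz hu.1 hu.2
  have h5 := HS_nonneg hW h2 O (monotoneOn_qf hW.isDF hu01 hpm (hu.2.le.trans hl.2.le))
  have h6 : 0 < ∫ x in Ioo u l, (qf W x - qf W u) * kS W n j p φ x := by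
    have ik := integrableOn_kS O (a := 0) (b := 1) le_rfl le_rfl
    have iz : IntegrableOn (fun x => zc W (qf W l) x * kS W n j p φ x) (Ioo (0:ℝ) 1) :=
      (memLp_zc hW h2 (qf W l)).integrable_mul (memLp_kS O)
    have hsub : Ioo u l ⊆ Ioo (0:ℝ) 1 := Ioo_subset_Ioo hu.1.le hl01.2.le
    have ii : IntegrableOn (fun x => zc W (qf W l) x * kS W n j p φ x - qf W u * kS W n j p φ x)
        (Ioo u l) := (iz.sub (ik.const_mul _)).mono_set hsub
    have izq : ∀ x ∈ Ioo u l, zc W (qf W l) x = qf W x := fun x hx =>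
      min_eq_left (monotoneOn_qf hW.isDF (hsub hx) hl01 hx.2.le)
    rw [int_Ioo_congr (h := fun x => zc W (qf W l) x * kS W n j p φ x - qf W u * kS W n j p φ x)
      (fun x hx => by rw [izq x hx]; ring), ioo_eq_interval hu.2.le]
    refine intervalIntegral.intervalIntegral_pos_of_pos_on ?_ ?_ hu.2
    · rw [intervalIntegrable_iff_integrableOn_Ioo_of_le hu.2.le]
      exact ii
    · intro x hx
      rw [izq x hx, ← sub_mul]
      have := strictMonoOn_qf hW hu01 (hsub hx) hx.1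
      exact mul_pos (by linarith) (hcon' x hx)
  rw [h4] at h5
  linarith

lemma kS_eq_gW {u : ℝ} (hW : IsRef W) (hu : u ∈ Ioo (0:ℝ) 1) (hup : u < p) :
    kS W n j p φ u = φ (qf W u) - gW W n j (qf W u) := by
  unfold kS h00 gW
  rw [if_pos hup, W_qf hW hu]; ring

/-- The slopes of the optimal transform to the left of `W^{-1}(p)` are positive. -/
lemma slope_pos (hW : IsRef W) (h2 : NegSq W) (P : Par n j p) (O : OptTr W n j p φ) {a b : ℝ}
    (ha : a ∈ SW W) (hb : b < qf W p) (hab : a < b) : φ a < φ b := by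
  have hpm : p ∈ Ioo (0:ℝ) 1 := ⟨P.hp0, P.hp1⟩
  have hpS := qf_mem_SW hW hpm
  have hbS : b ∈ SW W := (ordConnected_SW hW).out ha hpS ⟨hab.le, hb.le⟩
  have h3 := O.ctr.conc.slope_anti_adjacent ha hpS hab hb
  have h4 : φ b < φ (qf W p) := by
    have hWb : W b < p := (lt_qf_iff hW hpm b).1 hb
    have := opt_lt hW h2 P O (v := W b) ⟨(W_mem hbS).1, hWb⟩
    rwa [qf_W hW hbS] at this
  have h5 : 0 < (φ (qf W p) - φ b) / (qf W p - b) := div_pos (by linarith) (by linarith)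
  have h6 : 0 < (φ b - φ a) / (b - a) := lt_of_lt_of_le h5 h3
  rw [div_pos_iff] at h6
  rcases h6 with h6 | h6
  · linarith [h6.1]
  · linarith [h6.2]

/-- The zero set of the potential in `(0, p)` is an interval. -/
lemma zeros_interval (hW : IsRef W) (h2 : NegSq W) (P : Par n j p) (hU : CvxCnc W n j p)
    (O : OptTr W n j p φ) {l r v : ℝ} (hl : l ∈ Ioo 0 p) (hr : r ∈ Ioo 0 p)
    (hzl : HS W n j p φ (qf W l) = 0) (hzr : HS W n j p φ (qf W r) = 0) (hv : v ∈ Ioo l r) :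
    HS W n j p φ (qf W v) = 0 := by
  have hpm : p ∈ Ioo (0:ℝ) 1 := ⟨P.hp0, P.hp1⟩
  have h01 : ∀ x ∈ Ioo 0 p, x ∈ Ioo (0:ℝ) 1 := fun x hx => ⟨hx.1, hx.2.trans P.hp1⟩
  have hv0p : v ∈ Ioo 0 p := ⟨hl.1.trans hv.1, hv.2.trans hr.2⟩
  by_contra hne
  have hpos : 0 < HS W n j p φ (qf W v) := lt_of_le_of_ne
    (HS_nonneg hW h2 O (monotoneOn_qf hW.isDF (h01 v hv0p) hpm hv0p.2.le)) (Ne.symm hne)
  have hcont : ContinuousOn (fun x => HS W n j p φ (qf W x)) (Ioo 0 1) :=
    (continuous_HS hW h2 O).comp_continuousOn (continuousOn_qf hW)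
  -- the component
  obtain ⟨l', hl'm, hl'g⟩ : ∃ x, IsGreatest {x | x ∈ Icc l v ∧ HS W n j p φ (qf W x) = 0} x := by
    refine IsCompact.exists_isGreatest ?_ ⟨l, ⟨le_rfl, hv.1.le⟩, hzl⟩
    have hc : ContinuousOn (fun x => HS W n j p φ (qf W x)) (Icc l v) := hcont.mono fun x hx =>
      ⟨lt_of_lt_of_le hl.1 hx.1, lt_of_le_of_lt hx.2 (h01 v hv0p).2⟩
    have := hc.preimage_isClosed_of_isClosed isClosed_Icc (isClosed_singleton (x := (0:ℝ)))
    exact isCompact_Icc.of_isClosed_subset this fun x hx => hx.1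
  obtain ⟨r', hr'm, hr'g⟩ : ∃ x, IsLeast {x | x ∈ Icc v r ∧ HS W n j p φ (qf W x) = 0} x := by
    refine IsCompact.exists_isLeast ?_ ⟨r, ⟨hv.2.le, le_rfl⟩, hzr⟩
    have hc : ContinuousOn (fun x => HS W n j p φ (qf W x)) (Icc v r) := hcont.mono fun x hx =>
      ⟨lt_of_lt_of_le hv0p.1 hx.1, lt_of_le_of_lt hx.2 (h01 r hr).2⟩
    have := hc.preimage_isClosed_of_isClosed isClosed_Icc (isClosed_singleton (x := (0:ℝ)))
    exact isCompact_Icc.of_isClosed_subset this fun x hx => hx.1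
  have hl'v : l' < v := lt_of_le_of_ne hl'm.1.2 fun h => hne (h ▸ hl'm.2)
  have hvr' : v < r' := lt_of_le_of_ne hr'm.1.1 fun h => hne (h ▸ hr'm.2)
  have hl' : l' ∈ Ioo 0 p := ⟨lt_of_lt_of_le hl.1 hl'm.1.1, hl'v.trans hv0p.2⟩
  have hr' : r' ∈ Ioo 0 p := ⟨hv0p.1.trans hvr', lt_of_le_of_lt hr'm.1.2 hr.2⟩
  have hcomp : ∀ x ∈ Ioo l' r', 0 < HS W n j p φ (qf W x) := by
    intro x hx
    have hx0p : x ∈ Ioo 0 p := ⟨hl'.1.trans hx.1, hx.2.trans hr'.2⟩
    refine lt_of_le_of_ne (HS_nonneg hW h2 O (monotoneOn_qf hW.isDF (h01 x hx0p) hpm hx0p.2.le))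
      fun h => ?_
    rcases le_total x v with h3 | h3
    · have := hl'g (show x ∈ {x | x ∈ Icc l v ∧ HS W n j p φ (qf W x) = 0} from
        ⟨⟨hl'm.1.1.trans hx.1.le, h3⟩, h.symm⟩)
      linarith [hx.1]
    · have := hr'g (show x ∈ {x | x ∈ Icc v r ∧ HS W n j p φ (qf W x) = 0} from
        ⟨⟨h3, hx.2.le.trans hr'm.1.2⟩, h.symm⟩)
      linarith [hx.2]
  -- affine there
  obtain ⟨α, β, hab⟩ := affine_of_local (f := φ) (a := qf W l') (b := qf W r')
    (strictMonoOn_qf hW (h01 _ hl') (h01 _ hr') (hl'v.trans hvr')) (fun x hx => by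
      have hxS : x ∈ SW W := (ordConnected_SW hW).out (qf_mem_SW hW (h01 _ hl'))
        (qf_mem_SW hW (h01 _ hr')) ⟨hx.1.le, hx.2.le⟩
      have h3 : l' < W x := (qf_lt_iff hW (h01 _ hl') hxS).1 hx.1
      have h4 : W x < r' := (lt_qf_iff hW (h01 _ hr') x).1 hx.2
      have h5 := hcomp (W x) ⟨h3, h4⟩
      rw [qf_W hW hxS] at h5
      have h6 : x ≤ qf W p := by
        have := monotoneOn_qf hW.isDF (h01 _ hr') hpm hr'.2.le
        linarith [hx.2]
      obtain ⟨r0, hr0, _, α, β, h7⟩ := affine_of_pos hW h2 P O hxS h6 h5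
      exact ⟨r0, hr0, α, β, h7⟩)
  -- sign pattern
  obtain ⟨u2, hu2, hk2⟩ := exists_pos_mid hW h2 P O hl' hr' hl'm.2 hr'm.2 ⟨hl'v, hvr'⟩ hpos
  obtain ⟨u1, hu1, hk1⟩ := exists_neg_right hW h2 P O hl' hl'm.2 hu2.1
    ((hu2.2.trans hr'.2).trans P.hp1) (hcomp u2 hu2)
  obtain ⟨u3, hu3, hk3⟩ := exists_neg_left hW h2 P O hr' hr'm.2 (hl'.1.trans hu2.1) hu2.2
    (hcomp u2 hu2)
  obtain ⟨w0, hw0, w1, hw1, hkw0, hkw1⟩ := exists_pair_left hW h2 P O hl' hl'm.2
  have m0 : w0 ∈ Ioo 0 p := ⟨hw0.1, hw0.2.trans hl'.2⟩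
  have m0' : w1 ∈ Ioo 0 p := ⟨hw0.1.trans hw1.1, hw1.2.trans hl'.2⟩
  have m1 : u1 ∈ Ioo 0 p := ⟨hl'.1.trans hu1.1, hu1.2.trans (hu2.2.trans hr'.2)⟩
  have m2 : u2 ∈ Ioo 0 p := ⟨hl'.1.trans hu2.1, hu2.2.trans hr'.2⟩
  have m3 : u3 ∈ Ioo 0 p := ⟨m2.1.trans hu3.1, hu3.2.trans hr'.2⟩
  have q0 : qf W w0 < qf W w1 := strictMonoOn_qf hW (h01 _ m0) (h01 _ m0') hw1.1
  have q1 : qf W w1 < qf W u1 := strictMonoOn_qf hW (h01 _ m0') (h01 _ m1) (hw1.2.trans hu1.1)
  have q2 : qf W u1 < qf W u2 := strictMonoOn_qf hW (h01 _ m1) (h01 _ m2) hu1.2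
  have q3 : qf W u2 < qf W u3 := strictMonoOn_qf hW (h01 _ m2) (h01 _ m3) hu3.1
  have q4 : qf W u3 < qf W p := strictMonoOn_qf hW (h01 _ m3) hpm m3.2
  rw [kS_eq_gW hW (h01 _ m0) m0.2] at hkw0
  rw [kS_eq_gW hW (h01 _ m0') m0'.2] at hkw1
  rw [kS_eq_gW hW (h01 _ m1) m1.2] at hk1
  rw [kS_eq_gW hW (h01 _ m2) m2.2] at hk2
  rw [kS_eq_gW hW (h01 _ m3) m3.2] at hk3
  have qin : ∀ x ∈ Ioo l' r', qf W x ∈ Ioo (qf W l') (qf W r') := fun x hx =>
    ⟨strictMonoOn_qf hW (h01 _ hl') (h01 x ⟨hl'.1.trans hx.1, hx.2.trans hr'.2⟩) hx.1,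
      strictMonoOn_qf hW (h01 x ⟨hl'.1.trans hx.1, hx.2.trans hr'.2⟩) (h01 _ hr') hx.2⟩
  have n1 : u1 ∈ Ioo l' r' := ⟨hu1.1, hu1.2.trans hu2.2⟩
  have n3 : u3 ∈ Ioo l' r' := ⟨hu2.1.trans hu3.1, hu3.2⟩
  have e1 := hab _ (qin _ n1)
  have e2 := hab _ (qin _ hu2)
  have e3 := hab _ (qin _ n3)
  have hβ : 0 < β := by
    have h3 := slope_pos hW h2 P O (qf_mem_SW hW (h01 _ m1)) (q3.trans q4) q2
    rw [e1, e2] at h3
    have h4 : 0 < β * (qf W u2 - qf W u1) := by linarith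
    by_contra hcon
    push Not at hcon
    have := mul_nonpos_of_nonpos_of_nonneg hcon (sub_nonneg.2 q2.le)
    linarith
  have hsl : β * (qf W w1 - qf W w0) ≤ φ (qf W w1) - φ (qf W w0) := by
    have h3 := slope_four O.ctr.conc (qf_mem_SW hW (h01 _ m0)) (qf_mem_SW hW (h01 _ m2)) q0 q1.le q2
    have h4 : (φ (qf W u2) - φ (qf W u1)) / (qf W u2 - qf W u1) = β := by
      rw [e1, e2]
      have : qf W u2 - qf W u1 ≠ 0 := by linarith
      field_simp
      ring
    rw [h4, le_div_iff₀ (by linarith)] at h3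
    exact h3
  exact no_dip hW P hU hβ (qf_mem_SW hW (h01 _ m0)) (qf_mem_SW hW (h01 _ m3)) q4.le q0 q1.le q2 q3
    (by linarith) (by rw [e1] at hk1; rw [e2] at hk2; linarith)
    (by rw [e2] at hk2; rw [e3] at hk3; linarith)

end opt

end

end Pool.Agent.Lib.QBias
end

section

/-!
The explicit system for the minimiser over the convex family: existence of a solution.
-/

set_option autoImplicit false

namespace Pool.Agent.Lib.QBias

open MeasureTheory ProbabilityTheory Set Filter Topology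

noncomputable section

variable {W : ℝ → ℝ}

section opt

variable {n j : ℕ} {p : ℝ} {φ : ℝ → ℝ}

lemma eq_right_end {F G : ℝ → ℝ} {a b : ℝ} (hab : a < b) (hF : ContinuousAt F b)
    (hG : ContinuousAt G b) (h : ∀ u ∈ Ioo a b, F u = G u) : F b = G b := by
  have h3 : Tendsto F (𝓝[<] b) (𝓝 (F b)) := hF.tendsto.mono_left nhdsWithin_le_nhds
  have h4 : Tendsto F (𝓝[<] b) (𝓝 (G b)) := by
    have h5 : Tendsto G (𝓝[<] b) (𝓝 (G b)) := hG.tendsto.mono_left nhdsWithin_le_nhds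
    refine h5.congr' ?_
    filter_upwards [Ioo_mem_nhdsLT hab] with y hy
    exact (h y hy).symm
  exact tendsto_nhds_unique h3 h4

lemma eq_left_end {F G : ℝ → ℝ} {a b : ℝ} (hab : a < b) (hF : ContinuousAt F a)
    (hG : ContinuousAt G a) (h : ∀ u ∈ Ioo a b, F u = G u) : F a = G a := by
  have h3 : Tendsto F (𝓝[>] a) (𝓝 (F a)) := hF.tendsto.mono_left nhdsWithin_le_nhds
  have h4 : Tendsto F (𝓝[>] a) (𝓝 (G a)) := by
    have h5 : Tendsto G (𝓝[>] a) (𝓝 (G a)) := hG.tendsto.mono_left nhdsWithin_le_nhds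
    refine h5.congr' ?_
    filter_upwards [Ioo_mem_nhdsGT hab] with y hy
    exact (h y hy).symm
  exact tendsto_nhds_unique h3 h4

/-- On an interval where the potential is positive, the optimal transform is affine. -/
lemma affine_comp_pos (hW : IsRef W) (h2 : NegSq W) (P : Par n j p) (O : OptTr W n j p φ)
    {a b : ℝ} (ha : 0 < a) (hab : a < b) (hb : b ≤ p)
    (hpos : ∀ v ∈ Ioo a b, 0 < HS W n j p φ (qf W v)) :
    ∃ α β : ℝ, ∀ u ∈ Ioo a b, φ (qf W u) = α + β * qf W u := by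
  have hpm : p ∈ Ioo (0:ℝ) 1 := ⟨P.hp0, P.hp1⟩
  have ha01 : a ∈ Ioo (0:ℝ) 1 := ⟨ha, hab.trans_le (hb.trans P.hp1.le)⟩
  have hb01 : b ∈ Ioo (0:ℝ) 1 := ⟨ha.trans hab, lt_of_le_of_lt hb P.hp1⟩
  obtain ⟨α, β, h⟩ := affine_of_local (f := φ) (a := qf W a) (b := qf W b)
    (strictMonoOn_qf hW ha01 hb01 hab) (fun x hx => by
      have hxS : x ∈ SW W := (ordConnected_SW hW).out (qf_mem_SW hW ha01)
        (qf_mem_SW hW hb01) ⟨hx.1.le, hx.2.le⟩
      have h3 : a < W x := (qf_lt_iff hW ha01 hxS).1 hx.1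
      have h4 : W x < b := (lt_qf_iff hW hb01 x).1 hx.2
      have h5 := hpos (W x) ⟨h3, h4⟩
      rw [qf_W hW hxS] at h5
      have h6 : x ≤ qf W p := by
        have := monotoneOn_qf hW.isDF hb01 hpm hb
        linarith [hx.2]
      obtain ⟨r0, hr0, _, α, β, h7⟩ := affine_of_pos hW h2 P O hxS h6 h5
      exact ⟨r0, hr0, α, β, h7⟩)
  refine ⟨α, β, fun u hu => h _ ⟨?_, ?_⟩⟩
  · exact strictMonoOn_qf hW ha01 ⟨ha.trans hu.1, hu.2.trans hb01.2⟩ hu.1
  · exact strictMonoOn_qf hW ⟨ha.trans hu.1, hu.2.trans hb01.2⟩ hb01 hu.2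

lemma affine_comp_zero (hW : IsRef W) (h2 : NegSq W) (P : Par n j p) (O : OptTr W n j p φ)
    {b : ℝ} (hb0 : 0 < b) (hb : b ≤ p) (hpos : ∀ v ∈ Ioo 0 b, 0 < HS W n j p φ (qf W v)) :
    ∃ α β : ℝ, ∀ u ∈ Ioo 0 b, φ (qf W u) = α + β * qf W u := by
  have h01 : ∀ u ∈ Ioo 0 b, u ∈ Ioo (0:ℝ) 1 := fun u hu => ⟨hu.1, hu.2.trans_le (hb.trans P.hp1.le)⟩
  obtain ⟨α, β, h⟩ := affine_comp_pos hW h2 P O (a := b / 2) (b := b) (by linarith) (by linarith) hb
    (fun v hv => hpos v ⟨by linarith [hv.1], hv.2⟩)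
  refine ⟨α, β, fun u hu => ?_⟩
  have hm : 0 < min (u / 2) (b / 2) := lt_min (by linarith [hu.1]) (by linarith)
  have hmu : min (u / 2) (b / 2) < u := lt_of_le_of_lt (min_le_left _ _) (by linarith [hu.1])
  have hmb : min (u / 2) (b / 2) ≤ b / 2 := min_le_right _ _
  obtain ⟨α', β', h'⟩ := affine_comp_pos hW h2 P O (a := min (u / 2) (b / 2)) (b := b) hm
    (by linarith) hb (fun v hv => hpos v ⟨hm.trans hv.1, hv.2⟩)
  set x := 2 * b / 3 with hx
  set y := 3 * b / 4 with hy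
  have hx1 : x ∈ Ioo (b / 2) b := ⟨by rw [hx]; linarith, by rw [hx]; linarith⟩
  have hy1 : y ∈ Ioo (b / 2) b := ⟨by rw [hy]; linarith, by rw [hy]; linarith⟩
  have hx0 : x ∈ Ioo 0 b := ⟨by linarith [hx1.1], hx1.2⟩
  have hy0 : y ∈ Ioo 0 b := ⟨by linarith [hy1.1], hy1.2⟩
  have c1 := h x hx1
  have c2 := h y hy1
  have c3 := h' x ⟨by linarith [hx1.1], hx1.2⟩
  have c4 := h' y ⟨by linarith [hy1.1], hy1.2⟩
  have hlt : qf W x < qf W y := strictMonoOn_qf hW (h01 x hx0) (h01 y hy0) (by rw [hx, hy]; linarith)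
  have d1 : (β - β') * (qf W y - qf W x) = 0 := by linarith
  have d2 : β = β' := by
    have := (mul_eq_zero.1 d1).resolve_right (by linarith)
    linarith
  have d3 : α = α' := by rw [d2] at c1; linarith
  rw [d2, d3]
  exact h' u ⟨hmu, hu.2⟩

/-- The potential at `W^{-1}(v)` as an integral over `(0, v)`. -/
lemma HS_prefix (hW : IsRef W) (h2 : NegSq W) (P : Par n j p) (O : OptTr W n j p φ) {v : ℝ}
    (hv : v ∈ Ioo (0:ℝ) 1) :
    HS W n j p φ (qf W v) = -(∫ u in Ioo 0 v, (qf W v - qf W u) * kS W n j p φ u) := by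
  have i1 : IntegrableOn (fun u => pc W (qf W v) u * kS W n j p φ u) (Ioo (0:ℝ) 1) :=
    (memLp_pc hW h2 _).integrable_mul (memLp_kS O)
  have h3 := int_pc_kS hW h2 P O (qf W v)
  rw [split_uni hv.1 hv.2 i1] at h3
  have e1 : ∫ u in Ioo v 1, pc W (qf W v) u * kS W n j p φ u = 0 := by
    rw [int_Ioo_congr (h := fun _ => 0)]; · simp
    intro u hu
    have := monotoneOn_qf hW.isDF hv (show u ∈ Ioo (0:ℝ) 1 from ⟨hv.1.trans hu.1, hu.2⟩) hu.1.le
    unfold pc
    rw [max_eq_right (by linarith), zero_mul]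
  have e2 : ∫ u in Ioo 0 v, pc W (qf W v) u * kS W n j p φ u =
      ∫ u in Ioo 0 v, (qf W v - qf W u) * kS W n j p φ u := by
    refine int_Ioo_congr fun u hu => ?_
    have := monotoneOn_qf hW.isDF (show u ∈ Ioo (0:ℝ) 1 from ⟨hu.1, hu.2.trans hv.2⟩) hv hu.2.le
    unfold pc
    rw [max_eq_left (by linarith)]
  rw [e1, e2] at h3
  linarith

lemma integrableOn_qkS (hW : IsRef W) (h2 : NegSq W) (O : OptTr W n j p φ) {v : ℝ}
    (hv : v ∈ Ioo (0:ℝ) 1) : IntegrableOn (fun u => kS W n j p φ u * qf W u) (Ioo 0 v) := by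
  have i1 : IntegrableOn (fun u => zc W (qf W v) u * kS W n j p φ u) (Ioo (0:ℝ) 1) :=
    (memLp_zc hW h2 _).integrable_mul (memLp_kS O)
  refine (i1.mono_set (Ioo_subset_Ioo_right hv.2.le)).congr_fun (fun u hu => ?_) measurableSet_Ioo
  have := monotoneOn_qf hW.isDF (show u ∈ Ioo (0:ℝ) 1 from ⟨hu.1, hu.2.trans hv.2⟩) hv hu.2.le
  show zc W (qf W v) u * kS W n j p φ u = _
  unfold zc
  rw [min_eq_left this]; ring

/-- At an interior zero of the potential the residual is orthogonal to `W^{-1}` on the left. -/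
lemma prefix_zero_q (hW : IsRef W) (h2 : NegSq W) (P : Par n j p) (O : OptTr W n j p φ) {v : ℝ}
    (hv : v ∈ Ioo 0 p) (hz : HS W n j p φ (qf W v) = 0) :
    ∫ u in Ioo 0 v, kS W n j p φ u * qf W u = 0 := by
  have hv01 : v ∈ Ioo (0:ℝ) 1 := ⟨hv.1, hv.2.trans P.hp1⟩
  have h3 := HS_prefix hW h2 P O hv01
  have h4 := prefix_zero hW h2 P O hv hz
  rw [hz] at h3
  have e : ∀ u, (qf W v - qf W u) * kS W n j p φ u =
      qf W v * kS W n j p φ u - kS W n j p φ u * qf W u := fun u => by ring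
  simp only [e] at h3
  rw [integral_sub ((integrableOn_kS O le_rfl hv01.2.le).const_mul _)
    (integrableOn_qkS hW h2 O hv01), integral_const_mul, h4] at h3
  linarith

lemma contAt_opt (hW : IsRef W) (O : OptTr W n j p φ) {u : ℝ} (hu : u ∈ Ioo (0:ℝ) 1) :
    ContinuousAt (fun u => φ (qf W u)) u :=
  (cont_opt hW O).continuousAt (Ioo_mem_nhds hu.1 hu.2)

lemma contAt_qf (hW : IsRef W) {u : ℝ} (hu : u ∈ Ioo (0:ℝ) 1) : ContinuousAt (qf W) u :=
  (continuousOn_qf hW).continuousAt (Ioo_mem_nhds hu.1 hu.2)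

/-- Existence of the break points. -/
lemma exists_breaks (hW : IsRef W) (h2 : NegSq W) (P : Par n j p) (hU : CvxCnc W n j p)
    (O : OptTr W n j p φ) :
    ∃ v1 v2 : ℝ, 0 ≤ v1 ∧ v1 ≤ v2 ∧ v2 < p ∧
      (0 < v1 → HS W n j p φ (qf W v1) = 0) ∧ (0 < v2 → HS W n j p φ (qf W v2) = 0) ∧
      (∀ v ∈ Ioo 0 v1, 0 < HS W n j p φ (qf W v)) ∧
      (∀ v ∈ Ioo v1 v2, HS W n j p φ (qf W v) = 0) ∧
      (∀ v ∈ Ioo v2 p, 0 < HS W n j p φ (qf W v)) ∧ (v2 = 0 → v1 = 0) := by
  have hpm : p ∈ Ioo (0:ℝ) 1 := ⟨P.hp0, P.hp1⟩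
  have hcont : ContinuousOn (fun x => HS W n j p φ (qf W x)) (Ioo 0 1) :=
    (continuous_HS hW h2 O).comp_continuousOn (continuousOn_qf hW)
  have hnn : ∀ v ∈ Ioo 0 p, 0 ≤ HS W n j p φ (qf W v) := fun v hv =>
    HS_nonneg hW h2 O (monotoneOn_qf hW.isDF ⟨hv.1, hv.2.trans P.hp1⟩ hpm hv.2.le)
  by_cases hne : ∃ z ∈ Ioo 0 p, HS W n j p φ (qf W z) = 0
  · obtain ⟨z0, hz0, hzz⟩ := hne
    obtain ⟨s, hs, hspos⟩ := HS_pos_left hW h2 P O
    have hle : ∀ z ∈ Ioo 0 p, HS W n j p φ (qf W z) = 0 → z ≤ s := by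
      intro z hz h
      by_contra hcon
      push Not at hcon
      have := hspos z ⟨hcon, hz.2⟩
      linarith
    obtain ⟨v2, hv2m, hv2g⟩ : ∃ x, IsGreatest {x | x ∈ Icc z0 s ∧ HS W n j p φ (qf W x) = 0} x := by
      refine IsCompact.exists_isGreatest ?_ ⟨z0, ⟨le_rfl, hle z0 hz0 hzz⟩, hzz⟩
      have hc : ContinuousOn (fun x => HS W n j p φ (qf W x)) (Icc z0 s) := hcont.mono fun x hx =>
        ⟨lt_of_lt_of_le hz0.1 hx.1, lt_of_le_of_lt hx.2 (hs.2.trans P.hp1)⟩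
      have := hc.preimage_isClosed_of_isClosed isClosed_Icc (isClosed_singleton (x := (0:ℝ)))
      exact isCompact_Icc.of_isClosed_subset this fun x hx => hx.1
    have hv2p : v2 < p := lt_of_le_of_lt hv2m.1.2 hs.2
    have hv20 : 0 < v2 := lt_of_lt_of_le hz0.1 hv2m.1.1
    have hafter : ∀ v ∈ Ioo v2 p, 0 < HS W n j p φ (qf W v) := by
      intro v hv
      have hv0 : v ∈ Ioo 0 p := ⟨hv20.trans hv.1, hv.2⟩
      refine lt_of_le_of_ne (hnn v hv0) fun h => ?_
      have := hv2g (show v ∈ {x | x ∈ Icc z0 s ∧ HS W n j p φ (qf W x) = 0} from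
        ⟨⟨hv2m.1.1.trans hv.1.le, hle v hv0 h.symm⟩, h.symm⟩)
      linarith [hv.1]
    set Z : Set ℝ := {x | x ∈ Ioo 0 p ∧ HS W n j p φ (qf W x) = 0} with hZ
    have hZne : Z.Nonempty := ⟨z0, hz0, hzz⟩
    have hZb : BddBelow Z := ⟨0, fun x hx => hx.1.1.le⟩
    have hv1n : 0 ≤ sInf Z := le_csInf hZne fun x hx => hx.1.1.le
    have hv1z : sInf Z ≤ z0 := csInf_le hZb ⟨hz0, hzz⟩
    refine ⟨sInf Z, v2, hv1n, hv1z.trans hv2m.1.1, hv2p, ?_, fun _ => hv2m.2, ?_, ?_, hafter,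
      fun h => absurd h hv20.ne'⟩
    · intro hpos
      obtain ⟨m, hmm, hml⟩ : ∃ x, IsLeast {x | x ∈ Icc (sInf Z) z0 ∧ HS W n j p φ (qf W x) = 0} x := by
        refine IsCompact.exists_isLeast ?_ ⟨z0, ⟨hv1z, le_rfl⟩, hzz⟩
        have hc : ContinuousOn (fun x => HS W n j p φ (qf W x)) (Icc (sInf Z) z0) :=
          hcont.mono fun x hx => ⟨lt_of_lt_of_le hpos hx.1, lt_of_le_of_lt hx.2 (hz0.2.trans P.hp1)⟩
        have := hc.preimage_isClosed_of_isClosed isClosed_Icc (isClosed_singleton (x := (0:ℝ)))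
        exact isCompact_Icc.of_isClosed_subset this fun x hx => hx.1
      have h3 : m ≤ sInf Z := by
        refine le_csInf hZne fun z hz => ?_
        rcases le_total z z0 with h | h
        · exact hml ⟨⟨csInf_le hZb hz, h⟩, hz.2⟩
        · exact hmm.1.2.trans h
      have h4 : m = sInf Z := le_antisymm h3 hmm.1.1
      rw [← h4]; exact hmm.2
    · intro v hv
      have hv0 : v ∈ Ioo 0 p := ⟨hv.1, lt_of_lt_of_le hv.2 (hv1z.trans hz0.2.le)⟩
      refine lt_of_le_of_ne (hnn v hv0) fun h => ?_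
      have := csInf_le hZb (show v ∈ Z from ⟨hv0, h.symm⟩)
      linarith [hv.2]
    · intro v hv
      obtain ⟨z, hz, hzv⟩ := exists_lt_of_csInf_lt hZne hv.1
      exact zeros_interval hW h2 P hU O hz.1 ⟨hv20, hv2p⟩ hz.2 hv2m.2 ⟨hzv, hv.2⟩
  · push Not at hne
    refine ⟨0, 0, le_rfl, le_rfl, P.hp0, fun h => absurd h (lt_irrefl _),
      fun h => absurd h (lt_irrefl _), fun v hv => absurd (hv.1.trans hv.2) (lt_irrefl _),
      fun v hv => absurd (hv.1.trans hv.2) (lt_irrefl _), fun v hv => ?_, fun _ => rfl⟩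
    exact lt_of_le_of_ne (hnn v hv) (Ne.symm (hne v hv))

/-- The optimal transform has the three-piece form. -/
lemma exists_pieces (hW : IsRef W) (h2 : NegSq W) (P : Par n j p) (hU : CvxCnc W n j p)
    (O : OptTr W n j p φ) :
    ∃ v1 v2 a1 b1 a2 b2 : ℝ, Sys W n j p v1 v2 a1 b1 a2 b2 ∧
      ∀ u ∈ Ioo (0:ℝ) 1, pieces W n j p v1 v2 a1 b1 a2 b2 u = φ (qf W u) := by
  have hpm : p ∈ Ioo (0:ℝ) 1 := ⟨P.hp0, P.hp1⟩
  obtain ⟨v1, v2, h0, h12, h2p, hz1, hz2, hbef, hmid, haft, hv21⟩ := exists_breaks hW h2 P hU O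
  -- the first piece
  obtain ⟨a1, b1, hA⟩ : ∃ a1 b1 : ℝ, ∀ u ∈ Ioo 0 v1, φ (qf W u) = a1 + b1 * qf W u := by
    rcases eq_or_lt_of_le h0 with h | h
    · exact ⟨0, 0, fun u hu => absurd (hu.1.trans hu.2) (by rw [← h]; exact lt_irrefl _)⟩
    · exact affine_comp_zero hW h2 P O h (h12.trans h2p.le) hbef
  -- the last piece
  obtain ⟨s, hs, a2, b2, hb2, htop⟩ := opt_top_affine hW h2 P O
  have hC0 : ∀ u ∈ Ioo v2 1, φ (qf W u) = a2 + b2 * min (qf W u) (qf W p) := by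
    obtain ⟨α, β, haff⟩ : ∃ α β : ℝ, ∀ u ∈ Ioo v2 p, φ (qf W u) = α + β * qf W u := by
      rcases eq_or_lt_of_le (h0.trans h12) with h | h
      · rw [← h] at haft ⊢
        exact affine_comp_zero hW h2 P O P.hp0 le_rfl haft
      · exact affine_comp_pos hW h2 P O h h2p le_rfl haft
    have hms : max s v2 < p := max_lt hs.2 h2p
    set x := (2 * max s v2 + p) / 3 with hx
    set y := (max s v2 + 2 * p) / 3 with hy
    have hx1 : max s v2 < x := by rw [hx]; linarith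
    have hxy : x < y := by rw [hx, hy]; linarith
    have hyp : y < p := by rw [hy]; linarith
    have hsx : s < x := lt_of_le_of_lt (le_max_left _ _) hx1
    have hvx : v2 < x := lt_of_le_of_lt (le_max_right _ _) hx1
    have hx01 : x ∈ Ioo (0:ℝ) 1 := ⟨hs.1.trans hsx, (hxy.trans hyp).trans P.hp1⟩
    have hy01 : y ∈ Ioo (0:ℝ) 1 := ⟨hx01.1.trans hxy, hyp.trans P.hp1⟩
    have c1 := htop x ⟨hsx, hx01.2⟩
    have c2 := htop y ⟨hsx.trans hxy, hy01.2⟩
    rw [min_eq_left (monotoneOn_qf hW.isDF hx01 hpm (hxy.trans hyp).le)] at c1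
    rw [min_eq_left (monotoneOn_qf hW.isDF hy01 hpm hyp.le)] at c2
    have c3 := haff x ⟨hvx, hxy.trans hyp⟩
    have c4 := haff y ⟨hvx.trans hxy, hyp⟩
    have hlt : qf W x < qf W y := strictMonoOn_qf hW hx01 hy01 hxy
    have d1 : (b2 - β) * (qf W y - qf W x) = 0 := by linarith
    have d2 : b2 = β := by
      have := (mul_eq_zero.1 d1).resolve_right (by linarith)
      linarith
    have d3 : a2 = α := by rw [d2] at c1; linarith
    intro u hu
    have hu01 : u ∈ Ioo (0:ℝ) 1 := ⟨lt_of_le_of_lt (h0.trans h12) hu.1, hu.2⟩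
    rcases lt_or_ge u p with h | h
    · rw [min_eq_left (monotoneOn_qf hW.isDF hu01 hpm h.le), d2, d3]
      exact haff u ⟨hu.1, h⟩
    · exact htop u ⟨hs.2.trans_le h, hu.2⟩
  have hB : ∀ u ∈ Ioo v1 v2, φ (qf W u) = -fos n j u := eq_of_zero hW h2 P O h0 h2p.le hmid
  have hN : ∀ u ∈ Ioo (0:ℝ) 1, pieces W n j p v1 v2 a1 b1 a2 b2 u = φ (qf W u) := by
    intro u hu
    unfold pieces
    split_ifs with h3 h4
    · exact (hA u ⟨hu.1, h3⟩).symm
    · push Not at h3
      rcases eq_or_lt_of_le h3 with h5 | h5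
      · have h6 := eq_left_end (F := fun u => φ (qf W u)) (G := fun u => -fos n j u)
          (a := v1) (b := v2) (by rw [h5]; exact h4) (by rw [h5]; exact contAt_opt hW O hu)
          (continuous_fos n j).neg.continuousAt hB
        rw [h5] at h6
        exact h6.symm
      · exact (hB u ⟨h5, h4⟩).symm
    · push Not at h3 h4
      rcases eq_or_lt_of_le h4 with h5 | h5
      · have h6 := eq_left_end (F := fun u => φ (qf W u))
          (G := fun u => a2 + b2 * min (qf W u) (qf W p)) (a := v2) (b := 1) (by rw [h5]; exact hu.2)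
          (by rw [h5]; exact contAt_opt hW O hu) (by
            rw [h5]
            exact continuousAt_const.add (continuousAt_const.mul
              ((contAt_qf hW hu).min continuousAt_const))) hC0
        rw [h5] at h6
        exact h6.symm
      · exact (hC0 u ⟨h5, hu.2⟩).symm
  have hkS : ∀ u ∈ Ioo (0:ℝ) 1, pieces W n j p v1 v2 a1 b1 a2 b2 u + h00 n j p u =
      kS W n j p φ u := by
    intro u hu
    rw [hN u hu]; unfold kS; ring
  have hkS' : ∀ u ∈ Ioo 0 p, pieces W n j p v1 v2 a1 b1 a2 b2 u + fos n j u =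
      kS W n j p φ u := by
    intro u hu
    rw [← hkS u ⟨hu.1, hu.2.trans P.hp1⟩]
    unfold h00
    rw [if_pos hu.2]
  have ik : IntegrableOn (kS W n j p φ) (Ioo (0:ℝ) 1) := integrableOn_kS O le_rfl le_rfl
  have izk : IntegrableOn (fun u => kS W n j p φ u * min (qf W u) (qf W p)) (Ioo (0:ℝ) 1) := by
    have : IntegrableOn (fun u => zc W (qf W p) u * kS W n j p φ u) (Ioo (0:ℝ) 1) :=
      (memLp_zc hW h2 _).integrable_mul (memLp_kS O)
    refine this.congr_fun (fun u _ => ?_) measurableSet_Ioo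
    show zc W (qf W p) u * kS W n j p φ u = _
    unfold zc; ring
  have hHSp : ∫ u in Ioo (0:ℝ) 1, kS W n j p φ u * min (qf W u) (qf W p) = 0 := by
    have := HS_top hW h2 P O
    unfold HS at this
    refine Eq.trans ?_ this
    congr 1; funext u; unfold zc; ring
  refine ⟨v1, v2, a1, b1, a2, b2, ⟨h0, h12, h2p, hb2, ?_, ?_, ?_, ?_, ?_, ?_, ?_⟩, hN⟩
  · refine O.ctr.conc.congr fun y hy => ?_
    show φ y = pieces W n j p v1 v2 a1 b1 a2 b2 (W y)
    rw [hN _ (W_mem hy), qf_W hW hy]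
  · intro _ hpos
    by_contra hcon
    push Not at hcon
    have hv1p : v1 ∈ Ioo 0 p := ⟨hpos, lt_of_le_of_lt h12 h2p⟩
    have hv101 : v1 ∈ Ioo (0:ℝ) 1 := ⟨hpos, hv1p.2.trans P.hp1⟩
    have hk1 : 0 < kS W n j p φ v1 := by
      rw [← hkS' v1 hv1p]; linarith
    have hk2 : 0 < fos n j v1 + φ (qf W v1) := by
      have := hk1
      unfold kS h00 at this
      rwa [if_pos hv1p.2] at this
    have hc : ContinuousAt (fun u => fos n j u + φ (qf W u)) v1 :=
      (continuous_fos n j).continuousAt.add (contAt_opt hW O hv101)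
    obtain ⟨ε, hε, hball⟩ := Metric.eventually_nhds_iff.1 (hc.eventually (lt_mem_nhds hk2))
    set v := min (v1 + ε / 2) ((v1 + p) / 2) with hv
    have hv1v : v1 < v := lt_min (by linarith) (by linarith [hv1p.2])
    have hvp : v < p := lt_of_le_of_lt (min_le_right _ _) (by linarith [hv1p.2])
    have hvε : v ≤ v1 + ε / 2 := min_le_left _ _
    have hv01 : v ∈ Ioo (0:ℝ) 1 := ⟨hpos.trans hv1v, hvp.trans P.hp1⟩
    have hsig := HS_right hW h2 P O hv1p (hz1 hpos) hv1v hv01.2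
    have hnn := HS_nonneg hW h2 O (monotoneOn_qf hW.isDF hv01 hpm hvp.le)
    have hpos' : 0 < ∫ x in Ioo v1 v, (qf W v - qf W x) * kS W n j p φ x := by
      have iz : IntegrableOn (fun x => zc W (qf W v) x * kS W n j p φ x) (Ioo (0:ℝ) 1) :=
        (memLp_zc hW h2 (qf W v)).integrable_mul (memLp_kS O)
      have hsub : Ioo v1 v ⊆ Ioo (0:ℝ) 1 := Ioo_subset_Ioo hpos.le hv01.2.le
      have ii0 : IntegrableOn (fun x => qf W v * kS W n j p φ x - zc W (qf W v) x * kS W n j p φ x)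
          (Ioo (0:ℝ) 1) := (ik.const_mul _).sub iz
      have ii := ii0.mono_set hsub
      have izq : ∀ x ∈ Ioo v1 v, zc W (qf W v) x = qf W x := fun x hx =>
        min_eq_left (monotoneOn_qf hW.isDF (hsub hx) hv01 hx.2.le)
      rw [int_Ioo_congr (h := fun x => qf W v * kS W n j p φ x - zc W (qf W v) x * kS W n j p φ x)
        (fun x hx => by rw [izq x hx]; ring), ioo_eq_interval hv1v.le]
      refine intervalIntegral.intervalIntegral_pos_of_pos_on ?_ ?_ hv1v
      · rw [intervalIntegrable_iff_integrableOn_Ioo_of_le hv1v.le]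
        exact ii
      · intro x hx
        rw [izq x hx, ← sub_mul]
        have h3 := strictMonoOn_qf hW (hsub hx) hv01 hx.2
        have h4 := hball (show dist x v1 < ε by
          rw [Real.dist_eq, abs_lt]; constructor <;> linarith [hx.1, hx.2])
        refine mul_pos (by linarith) ?_
        unfold kS h00
        rw [if_pos (hx.2.trans hvp)]
        exact h4
    rw [hsig] at hnn
    linarith
  · rcases eq_or_lt_of_le h0 with h | h
    · rw [← h]; simp
    · rw [int_Ioo_congr (h := kS W n j p φ) (fun u hu => hkS' u ⟨hu.1, hu.2.trans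
        (lt_of_le_of_lt h12 h2p)⟩)]
      exact prefix_zero hW h2 P O ⟨h, lt_of_le_of_lt h12 h2p⟩ (hz1 h)
  · rcases eq_or_lt_of_le h0 with h | h
    · rw [← h]; simp
    · rw [int_Ioo_congr (h := fun u => kS W n j p φ u * qf W u) (fun u hu => by
        rw [hkS' u ⟨hu.1, hu.2.trans (lt_of_le_of_lt h12 h2p)⟩])]
      exact prefix_zero_q hW h2 P O ⟨h, lt_of_le_of_lt h12 h2p⟩ (hz1 h)
  · rw [int_Ioo_congr (h := kS W n j p φ) (fun u hu => hkS u
      ⟨lt_of_le_of_lt (h0.trans h12) hu.1, hu.2⟩)]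
    rcases eq_or_lt_of_le (h0.trans h12) with h | h
    · rw [← h]; exact int_kS P O
    · have h3 := split_uni h (h2p.trans P.hp1) ik
      rw [int_kS P O, prefix_zero hW h2 P O ⟨h, h2p⟩ (hz2 h)] at h3
      linarith
  · rw [int_Ioo_congr (h := fun u => kS W n j p φ u * min (qf W u) (qf W p)) (fun u hu => by
      rw [hkS u ⟨lt_of_le_of_lt (h0.trans h12) hu.1, hu.2⟩])]
    rcases eq_or_lt_of_le (h0.trans h12) with h | h
    · rw [← h]; exact hHSp
    · have h3 := split_uni h (h2p.trans P.hp1) izk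
      have h4 : ∫ u in Ioo 0 v2, kS W n j p φ u * min (qf W u) (qf W p) =
          ∫ u in Ioo 0 v2, kS W n j p φ u * qf W u := int_Ioo_congr fun u hu => by
        rw [min_eq_left (monotoneOn_qf hW.isDF ⟨hu.1, hu.2.trans (h2p.trans P.hp1)⟩ hpm
          (hu.2.trans h2p).le)]
      rw [hHSp, h4, prefix_zero_q hW h2 P O ⟨h, h2p⟩ (hz2 h)] at h3
      linarith
  · intro _ v hv
    have hv01 : v ∈ Ioo (0:ℝ) 1 := ⟨hv.1, hv.2.trans P.hp1⟩
    rw [int_Ioo_congr (h := fun u => (qf W v - qf W u) * kS W n j p φ u) (fun u hu => by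
      rw [hkS' u ⟨hu.1, hu.2.trans hv.2⟩])]
    have h3 := HS_prefix hW h2 P O hv01
    have h4 := HS_nonneg hW h2 O (monotoneOn_qf hW.isDF hv01 hpm hv.2.le)
    linarith

end opt

end

end Pool.Agent.Lib.QBias
end
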