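import Pool.Agent.Lib.MP_c5814c_pr.Mg.G010

section

/-!
The explicit system for the minimiser over the convex family: every solution gives the minimiser.
-/

set_option autoImplicit false

namespace Pool.Agent.Lib.QBias

open MeasureTheory ProbabilityTheory Set Filter Topology

noncomputable section

variable {W : ℝ → ℝ}

lemma hinge3 (t : ℝ) {a b c : ℝ} (hab : a ≤ b) (hbc : b ≤ c) :
    (c - a) * max (t - b) 0 ≤ (c - b) * max (t - a) 0 + (b - a) * max (t - c) 0 := by
  have h1 : 0 ≤ (c - b) * max (t - a) 0 := mul_nonneg (by linarith) (le_max_right _ _)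
  have h2 : 0 ≤ (b - a) * max (t - c) 0 := mul_nonneg (by linarith) (le_max_right _ _)
  rcases le_total t b with h | h
  · rw [max_eq_right (show t - b ≤ 0 by linarith), mul_zero]
    linarith
  · rw [max_eq_left (show 0 ≤ t - b by linarith)]
    have h3 := mul_le_mul_of_nonneg_left (le_max_left (t - a) 0) (show 0 ≤ c - b by linarith)
    have h4 := mul_le_mul_of_nonneg_left (le_max_left (t - c) 0) (show 0 ≤ b - a by linarith)
    nlinarith

section lem

variable {n j : ℕ} {p : ℝ}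

/-- The residual of an affine piece. -/
def RA (W : ℝ → ℝ) (n j : ℕ) (p a b : ℝ) (u : ℝ) : ℝ := a + b * zc W (qf W p) u + fos n j u

lemma memLp_RA (hW : IsRef W) (h2 : NegSq W) (n j : ℕ) (p a b : ℝ) :
    MemLp (RA W n j p a b) 2 uni := by
  have h0 : MemLp (fun _ : ℝ => a) 2 uni := memLp_const _
  have h1 : MemLp (fun u => b * zc W (qf W p) u) 2 uni := (memLp_zc hW h2 _).const_mul b
  exact (h0.add h1).add (memLp_fos n j)

lemma RA_eq (hW : IsRef W) (P : Par n j p) {a b u : ℝ} (h0 : 0 < u) (hp : u ≤ p) :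
    RA W n j p a b u = a + b * qf W u - gW W n j (qf W u) := by
  have hu : u ∈ Ioo (0:ℝ) 1 := ⟨h0, lt_of_le_of_lt hp P.hp1⟩
  have hpm : p ∈ Ioo (0:ℝ) 1 := ⟨P.hp0, P.hp1⟩
  unfold RA gW zc
  rw [min_eq_left (monotoneOn_qf hW.isDF hu hpm hp), W_qf hW hu]; ring

lemma finA (hW : IsRef W) (h2 : NegSq W) (P : Par n j p) {v1 a b t κ c0 c1 : ℝ}
    (hv1 : v1 ∈ Ioo 0 p) (hκ : 0 < κ)
    (E1 : ∫ u in Ioo 0 v1, RA W n j p a b u = 0)
    (E2 : ∫ u in Ioo 0 v1, RA W n j p a b u * zc W (qf W p) u = 0)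
    (h : ∀ u ∈ Ioo 0 v1, (κ * pc W t u - (c0 + c1 * zc W (qf W p) u)) * RA W n j p a b u ≤ 0) :
    ∫ u in Ioo 0 v1, pc W t u * RA W n j p a b u ≤ 0 := by
  have hR := memLp_RA hW h2 n j p a b
  have hsub : Ioo 0 v1 ⊆ Ioo (0:ℝ) 1 := Ioo_subset_Ioo_right (hv1.2.trans P.hp1).le
  have iR0 : IntegrableOn (RA W n j p a b) (Ioo (0:ℝ) 1) := hR.integrable (by norm_num)
  have iR := iR0.mono_set hsub
  have ip0 : IntegrableOn (fun u => pc W t u * RA W n j p a b u) (Ioo (0:ℝ) 1) :=
    (memLp_pc hW h2 t).integrable_mul hR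
  have ip := ip0.mono_set hsub
  have iz0 : IntegrableOn (fun u => RA W n j p a b u * zc W (qf W p) u) (Ioo (0:ℝ) 1) :=
    hR.integrable_mul (memLp_zc hW h2 _)
  have iz := iz0.mono_set hsub
  have e : ∀ u, (κ * pc W t u - (c0 + c1 * zc W (qf W p) u)) * RA W n j p a b u =
      κ * (pc W t u * RA W n j p a b u) - (c0 * RA W n j p a b u +
        c1 * (RA W n j p a b u * zc W (qf W p) u)) := fun u => by ring
  have h3 : ∫ u in Ioo 0 v1, (κ * (pc W t u * RA W n j p a b u) - (c0 * RA W n j p a b u +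
        c1 * (RA W n j p a b u * zc W (qf W p) u))) ≤ 0 := by
    refine setIntegral_nonpos measurableSet_Ioo fun u hu => ?_
    rw [← e]; exact h u hu
  have j1 : IntegrableOn (fun u => c0 * RA W n j p a b u +
        c1 * (RA W n j p a b u * zc W (qf W p) u)) (Ioo 0 v1) :=
    (iR.const_mul _).add (iz.const_mul _)
  rw [integral_sub (ip.const_mul _) j1, integral_add (iR.const_mul _) (iz.const_mul _),
    integral_const_mul, integral_const_mul, integral_const_mul, E1, E2] at h3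
  have h4 : κ * ∫ u in Ioo 0 v1, pc W t u * RA W n j p a b u ≤ 0 := by linarith
  by_contra hcon
  push Not at hcon
  have := mul_pos hκ hcon
  linarith

/-- The left piece. -/
lemma claimA (hW : IsRef W) (h2 : NegSq W) (P : Par n j p) (hU : CvxCnc W n j p)
    {v1 a b : ℝ} (hv1 : v1 ∈ Ioo 0 p) (hb : 0 < b)
    (hR1 : a + b * qf W v1 + fos n j v1 ≤ 0)
    (E1 : ∫ u in Ioo 0 v1, RA W n j p a b u = 0)
    (E2 : ∫ u in Ioo 0 v1, RA W n j p a b u * zc W (qf W p) u = 0) (t : ℝ) :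
    ∫ u in Ioo 0 v1, pc W t u * RA W n j p a b u ≤ 0 := by
  have hpm : p ∈ Ioo (0:ℝ) 1 := ⟨P.hp0, P.hp1⟩
  have hv101 : v1 ∈ Ioo (0:ℝ) 1 := ⟨hv1.1, hv1.2.trans P.hp1⟩
  have h01 : ∀ u ∈ Ioo 0 v1, u ∈ Ioo (0:ℝ) 1 := fun u hu => ⟨hu.1, hu.2.trans hv101.2⟩
  have hRe : ∀ u ∈ Ioo 0 v1, RA W n j p a b u = a + b * qf W u - gW W n j (qf W u) := fun u hu =>
    RA_eq hW P hu.1 (hu.2.trans hv1.2).le
  have hzq : ∀ u ∈ Ioo 0 v1, zc W (qf W p) u = qf W u := fun u hu =>
    min_eq_left (monotoneOn_qf hW.isDF (h01 u hu) hpm (hu.2.trans hv1.2).le)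
  by_cases hA : ∃ u ∈ Ioo 0 v1, 0 < RA W n j p a b u
  swap
  · push Not at hA
    refine setIntegral_nonpos measurableSet_Ioo fun u hu => ?_
    exact mul_nonpos_of_nonneg_of_nonpos (pc_nonneg _ _) (hA u hu)
  obtain ⟨x0, hx0, hx0p⟩ := hA
  set A : Set ℝ := {u | u ∈ Ioo 0 v1 ∧ 0 < RA W n j p a b u} with hAdef
  have hx0A : x0 ∈ A := ⟨hx0, hx0p⟩
  have hAb : BddBelow A := ⟨0, fun u hu => hu.1.1.le⟩
  have hAa : BddAbove A := ⟨v1, fun u hu => hu.1.2.le⟩
  have nodip : ∀ x ∈ A, ∀ z ∈ A, ∀ y, x < y → y < z → 0 ≤ RA W n j p a b y := by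
    intro x hx z hz y hxy hyz
    by_contra hcon
    push Not at hcon
    have hy : y ∈ Ioo 0 v1 := ⟨hx.1.1.trans hxy, hyz.trans hz.1.2⟩
    have h3 := hx.2
    have h4 := hz.2
    rw [hRe x hx.1] at h3
    rw [hRe z hz.1] at h4
    rw [hRe y hy] at hcon
    have q1 : qf W x < qf W y := strictMonoOn_qf hW (h01 x hx.1) (h01 y hy) hxy
    have q2 : qf W y < qf W z := strictMonoOn_qf hW (h01 y hy) (h01 z hz.1) hyz
    have q3 : qf W z < qf W v1 := strictMonoOn_qf hW (h01 z hz.1) hv101 hz.1.2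
    have hg1 : gW W n j (qf W v1) = -fos n j v1 := by unfold gW; rw [W_qf hW hv101]
    exact no_dip hW P hU hb (qf_mem_SW hW (h01 x hx.1)) (qf_mem_SW hW hv101)
      (monotoneOn_qf hW.isDF hv101 hpm hv1.2.le) q1 le_rfl q2 q3 (by linarith) (by linarith)
      (by rw [hg1]; linarith)
  -- openness
  obtain ⟨x1, hx1A, hx01⟩ : ∃ x1 ∈ A, x0 < x1 := by
    have hc : ContinuousAt (fun u => a + b * qf W u + fos n j u) x0 :=
      (continuousAt_const.add (continuousAt_const.mul (contAt_qf hW (h01 x0 hx0)))).add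
        (continuous_fos n j).continuousAt
    have hx0' : 0 < a + b * qf W x0 + fos n j x0 := by
      have := hx0p
      unfold RA at this
      rwa [hzq x0 hx0] at this
    obtain ⟨ε, hε, hball⟩ := Metric.eventually_nhds_iff.1 (hc.eventually (lt_mem_nhds hx0'))
    set x1 := min (x0 + ε / 2) ((x0 + v1) / 2) with hx1
    have h1 : x0 < x1 := lt_min (by linarith) (by linarith [hx0.2])
    have h3 : x1 < v1 := lt_of_le_of_lt (min_le_right _ _) (by linarith [hx0.2])
    have h4 : x1 ≤ x0 + ε / 2 := min_le_left _ _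
    have hx1m : x1 ∈ Ioo 0 v1 := ⟨hx0.1.trans h1, h3⟩
    refine ⟨x1, ⟨hx1m, ?_⟩, h1⟩
    have := hball (show dist x1 x0 < ε by rw [Real.dist_eq, abs_lt]; constructor <;> linarith)
    unfold RA
    rw [hzq x1 hx1m]
    exact this
  set i1 := sInf A with hi1
  set i2 := sSup A with hi2
  have hi10 : 0 ≤ i1 := le_csInf ⟨x0, hx0A⟩ fun u hu => hu.1.1.le
  have hi1x : i1 ≤ x0 := csInf_le hAb hx0A
  have hi2x : x1 ≤ i2 := le_csSup hAa hx1A
  have hi12 : i1 < i2 := by linarith
  have hi2v : i2 ≤ v1 := csSup_le ⟨x0, hx0A⟩ fun u hu => hu.1.2.le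
  have hi2m : i2 ∈ Ioo (0:ℝ) 1 := ⟨by linarith, lt_of_le_of_lt hi2v hv101.2⟩
  have hin : ∀ u, i1 < u → u < i2 → 0 ≤ RA W n j p a b u := by
    intro u hu1 hu2
    obtain ⟨x, hx, hxu⟩ := exists_lt_of_csInf_lt ⟨x0, hx0A⟩ hu1
    obtain ⟨z, hz, huz⟩ := exists_lt_of_lt_csSup ⟨x0, hx0A⟩ hu2
    exact nodip x hx z hz u hxu huz
  have hout : ∀ u ∈ Ioo 0 v1, (u < i1 ∨ i2 < u) → RA W n j p a b u ≤ 0 := by
    intro u hu hor
    by_contra hcon
    push Not at hcon
    have hmem : u ∈ A := ⟨hu, hcon⟩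
    rcases hor with h | h
    · linarith [csInf_le hAb hmem]
    · linarith [le_csSup hAa hmem]
  rcases eq_or_lt_of_le hi10 with hz | hz
  · -- no left part
    refine finA hW h2 P (κ := 1) (c0 := max (t - qf W i2) 0 + qf W i2) (c1 := -1) hv1 one_pos E1 E2
      fun u hu => ?_
    rw [hzq u hu]
    have hp' : pc W t u = max (t - qf W u) 0 := rfl
    rw [hp']
    rcases lt_trichotomy u i2 with h | h | h
    · refine mul_nonpos_of_nonpos_of_nonneg ?_ (hin u (by rw [← hz]; exact hu.1) h)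
      have := monotoneOn_qf hW.isDF (h01 u hu) hi2m h.le
      rcases le_total t (qf W u) with h3 | h3
      · rw [max_eq_right (show t - qf W u ≤ 0 by linarith)]
        linarith [le_max_right (t - qf W i2) 0]
      · rw [max_eq_left (show 0 ≤ t - qf W u by linarith)]
        linarith [le_max_left (t - qf W i2) 0]
    · rw [h]
      have : (1 * max (t - qf W i2) 0 - (max (t - qf W i2) 0 + qf W i2 + -1 * qf W i2)) = 0 := by ring
      rw [this, zero_mul]
    · refine mul_nonpos_of_nonneg_of_nonpos ?_ (hout u hu (Or.inr h))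
      have := monotoneOn_qf hW.isDF hi2m (h01 u hu) h.le
      rcases le_total t (qf W i2) with h3 | h3
      · rw [max_eq_right (show t - qf W i2 ≤ 0 by linarith)]
        linarith [le_max_right (t - qf W u) 0]
      · rw [max_eq_left (show 0 ≤ t - qf W i2 by linarith)]
        linarith [le_max_left (t - qf W u) 0]
  · have hi1m : i1 ∈ Ioo (0:ℝ) 1 := ⟨hz, hi12.trans hi2m.2⟩
    have hyy : qf W i1 < qf W i2 := strictMonoOn_qf hW hi1m hi2m hi12
    refine finA hW h2 P (κ := qf W i2 - qf W i1)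
      (c0 := qf W i2 * max (t - qf W i1) 0 - qf W i1 * max (t - qf W i2) 0)
      (c1 := max (t - qf W i2) 0 - max (t - qf W i1) 0) hv1 (by linarith) E1 E2 fun u hu => ?_
    rw [hzq u hu]
    have hp' : pc W t u = max (t - qf W u) 0 := rfl
    rw [hp']
    rcases lt_or_ge u i1 with h | h
    · refine mul_nonpos_of_nonneg_of_nonpos ?_ (hout u hu (Or.inl h))
      have h3 := hinge3 t (monotoneOn_qf hW.isDF (h01 u hu) hi1m h.le) hyy.le
      linarith
    · rcases lt_or_ge i2 u with h' | h'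
      · refine mul_nonpos_of_nonneg_of_nonpos ?_ (hout u hu (Or.inr h'))
        have h3 := hinge3 t hyy.le (monotoneOn_qf hW.isDF hi2m (h01 u hu) h'.le)
        linarith
      · rcases eq_or_lt_of_le h with h4 | h4
        · rw [← h4]
          have : (qf W i2 - qf W i1) * max (t - qf W i1) 0 -
              (qf W i2 * max (t - qf W i1) 0 - qf W i1 * max (t - qf W i2) 0 +
                (max (t - qf W i2) 0 - max (t - qf W i1) 0) * qf W i1) = 0 := by ring
          rw [this, zero_mul]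
        · rcases eq_or_lt_of_le h' with h5 | h5
          · rw [h5]
            have : (qf W i2 - qf W i1) * max (t - qf W i2) 0 -
                (qf W i2 * max (t - qf W i1) 0 - qf W i1 * max (t - qf W i2) 0 +
                  (max (t - qf W i2) 0 - max (t - qf W i1) 0) * qf W i2) = 0 := by ring
            rw [this, zero_mul]
          · refine mul_nonpos_of_nonpos_of_nonneg ?_ (hin u h4 h5)
            have h3 := hinge3 t (monotoneOn_qf hW.isDF hi1m (h01 u hu) h4.le)
              (monotoneOn_qf hW.isDF (h01 u hu) hi2m h5.le)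
            linarith

/-- The right piece. -/
lemma claimB (hW : IsRef W) (h2 : NegSq W) (P : Par n j p) {v2 t : ℝ} {R : ℝ → ℝ}
    (hv2 : v2 ∈ Ioo 0 p) (hR : MemLp R 2 uni)
    (hno : ∀ x ∈ Ioo v2 p, ∀ y ∈ Ioo v2 p, x < y → 0 < R x → 0 ≤ R y)
    (E : ∫ u in Ioo v2 1, pc W (qf W p) u * R u = 0) (ht : t ≤ qf W p) :
    ∫ u in Ioo v2 1, pc W t u * R u ≤ 0 := by
  have hpm : p ∈ Ioo (0:ℝ) 1 := ⟨P.hp0, P.hp1⟩
  have h01 : ∀ u ∈ Ioo v2 1, u ∈ Ioo (0:ℝ) 1 := fun u hu => ⟨hv2.1.trans hu.1, hu.2⟩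
  have hsub : Ioo v2 1 ⊆ Ioo (0:ℝ) 1 := fun u hu => h01 u hu
  have ip0 : ∀ s, IntegrableOn (fun u => pc W s u * R u) (Ioo (0:ℝ) 1) := fun s =>
    (memLp_pc hW h2 s).integrable_mul hR
  have hpz : ∀ s, s ≤ qf W p → ∀ u ∈ Ioo v2 1, p ≤ u → pc W s u = 0 := by
    intro s hs u hu hpu
    have := monotoneOn_qf hW.isDF hpm (h01 u hu) hpu
    unfold pc
    rw [max_eq_right (by linarith)]
  -- the general conclusion
  have key : ∀ κ l : ℝ, 0 < κ → (∀ u ∈ Ioo v2 1, (κ * pc W t u - l * pc W (qf W p) u) * R u ≤ 0) →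
      ∫ u in Ioo v2 1, pc W t u * R u ≤ 0 := by
    intro κ l hκ h
    have e : ∀ u, (κ * pc W t u - l * pc W (qf W p) u) * R u =
        κ * (pc W t u * R u) - l * (pc W (qf W p) u * R u) := fun u => by ring
    have h3 : ∫ u in Ioo v2 1, (κ * (pc W t u * R u) - l * (pc W (qf W p) u * R u)) ≤ 0 := by
      refine setIntegral_nonpos measurableSet_Ioo fun u hu => ?_
      rw [← e]; exact h u hu
    rw [integral_sub (((ip0 t).mono_set hsub).const_mul _)
      (((ip0 (qf W p)).mono_set hsub).const_mul _), integral_const_mul, integral_const_mul, E] at h3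
    have h4 : κ * ∫ u in Ioo v2 1, pc W t u * R u ≤ 0 := by linarith
    by_contra hcon
    push Not at hcon
    have := mul_pos hκ hcon
    linarith
  by_cases hA : ∃ u ∈ Ioo v2 p, R u < 0
  swap
  · push Not at hA
    refine key 1 1 one_pos fun u hu => ?_
    rcases lt_or_ge u p with h | h
    · refine mul_nonpos_of_nonpos_of_nonneg ?_ (hA u ⟨hu.1, h⟩)
      have : pc W t u ≤ pc W (qf W p) u := by
        unfold pc
        exact max_le_max_right 0 (by linarith)
      linarith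
    · rw [hpz t ht u hu h, hpz _ le_rfl u hu h]; simp
  obtain ⟨x0, hx0, hx0n⟩ := hA
  set A : Set ℝ := {u | u ∈ Ioo v2 p ∧ R u < 0} with hAdef
  have hx0A : x0 ∈ A := ⟨hx0, hx0n⟩
  have hAa : BddAbove A := ⟨p, fun u hu => hu.1.2.le⟩
  set i := sSup A with hi
  have hix : x0 ≤ i := le_csSup hAa hx0A
  have hip : i ≤ p := csSup_le ⟨x0, hx0A⟩ fun u hu => hu.1.2.le
  have hlow : ∀ u ∈ Ioo v2 p, u < i → R u ≤ 0 := by
    intro u hu hui
    by_contra hcon
    push Not at hcon
    obtain ⟨y, hy, huy⟩ := exists_lt_of_lt_csSup ⟨x0, hx0A⟩ hui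
    have := hno u hu y hy.1 huy hcon
    linarith [hy.2]
  have hhigh : ∀ u ∈ Ioo v2 p, i < u → 0 ≤ R u := by
    intro u hu hui
    by_contra hcon
    push Not at hcon
    linarith [le_csSup hAa (show u ∈ A from ⟨hu, hcon⟩)]
  rcases eq_or_lt_of_le hip with h5 | h5
  · refine key 1 0 one_pos fun u hu => ?_
    rw [zero_mul, sub_zero, one_mul]
    rcases lt_or_ge u p with h | h
    · exact mul_nonpos_of_nonneg_of_nonpos (pc_nonneg _ _) (hlow u ⟨hu.1, h⟩ (by rw [h5]; exact h))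
    · rw [hpz t ht u hu h]; simp
  · have him : i ∈ Ioo (0:ℝ) 1 := ⟨(hv2.1.trans hx0.1).trans_le hix, h5.trans P.hp1⟩
    have hyi : qf W i < qf W p := strictMonoOn_qf hW him hpm h5
    have htw : max (t - qf W p) 0 = 0 := max_eq_right (by linarith)
    refine key (qf W p - qf W i) (max (t - qf W i) 0) (by linarith) fun u hu => ?_
    rcases lt_or_ge u p with h | h
    · have hup : qf W u ≤ qf W p := monotoneOn_qf hW.isDF (h01 u hu) hpm h.le
      have e1 : pc W (qf W p) u = qf W p - qf W u := max_eq_left (by linarith)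
      have e2 : pc W t u = max (t - qf W u) 0 := rfl
      rw [e1, e2]
      rcases lt_trichotomy u i with h6 | h6 | h6
      · refine mul_nonpos_of_nonneg_of_nonpos ?_ (hlow u ⟨hu.1, h⟩ h6)
        have h3 := hinge3 t (monotoneOn_qf hW.isDF (h01 u hu) him h6.le) hyi.le
        rw [htw, mul_zero, add_zero] at h3
        linarith
      · rw [h6]
        have : (qf W p - qf W i) * max (t - qf W i) 0 - max (t - qf W i) 0 * (qf W p - qf W i) = 0 := by
          ring
        rw [this, zero_mul]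
      · refine mul_nonpos_of_nonpos_of_nonneg ?_ (hhigh u ⟨hu.1, h⟩ h6)
        have h3 := hinge3 t (monotoneOn_qf hW.isDF him (h01 u hu) h6.le) hup
        rw [htw, mul_zero, add_zero] at h3
        linarith
    · rw [hpz t ht u hu h, hpz _ le_rfl u hu h]; simp

end lem

end

end Pool.Agent.Lib.QBias
end

section

/-!
Every solution of the system gives the optimal transform; the final statement on the lower bound.
-/

set_option autoImplicit false

namespace Pool.Agent.Lib.QBias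

open MeasureTheory ProbabilityTheory Set Filter Topology

noncomputable section

variable {W : ℝ → ℝ}

section lem

variable {n j : ℕ} {p v1 v2 a1 b1 a2 b2 : ℝ}

lemma pieces_lt {u : ℝ} (h : u < v1) : pieces W n j p v1 v2 a1 b1 a2 b2 u = a1 + b1 * qf W u := by
  unfold pieces; rw [if_pos h]

lemma pieces_mid {u : ℝ} (h : v1 ≤ u) (h' : u < v2) :
    pieces W n j p v1 v2 a1 b1 a2 b2 u = -fos n j u := by
  unfold pieces; rw [if_neg (not_lt.2 h), if_pos h']

lemma pieces_top (h12 : v1 ≤ v2) {u : ℝ} (h : v2 ≤ u) :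
    pieces W n j p v1 v2 a1 b1 a2 b2 u = a2 + b2 * min (qf W u) (qf W p) := by
  unfold pieces; rw [if_neg (not_lt.2 (h12.trans h)), if_neg (not_lt.2 h)]

lemma slope_ge (hW : IsRef W) (P : Par n j p) (S : Sys W n j p v1 v2 a1 b1 a2 b2) {x y : ℝ}
    (hx : x ∈ SW W) (hxy : x < y) (hy : y < qf W p) :
    b2 * (y - x) ≤ pieces W n j p v1 v2 a1 b1 a2 b2 (W y) -
      pieces W n j p v1 v2 a1 b1 a2 b2 (W x) := by
  have hpm : p ∈ Ioo (0:ℝ) 1 := ⟨P.hp0, P.hp1⟩
  have hpS := qf_mem_SW hW hpm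
  have hyS : y ∈ SW W := (ordConnected_SW hW).out hx hpS ⟨hxy.le, hy.le⟩
  have hWy : W y < p := (lt_qf_iff hW hpm y).1 hy
  have hm : max (W y) v2 < p := max_lt hWy S.h2p
  set m := max (W y) v2 with hmdef
  have hmy : W y ≤ m := le_max_left _ _
  have hmv : v2 ≤ m := le_max_right _ _
  have hm0 : 0 < m := lt_of_lt_of_le (W_mem hyS).1 hmy
  have hu1 : (2 * m + p) / 3 ∈ Ioo (0:ℝ) 1 := ⟨by linarith, by linarith [P.hp1]⟩
  have hu2 : (m + 2 * p) / 3 ∈ Ioo (0:ℝ) 1 := ⟨by linarith, by linarith [P.hp1]⟩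
  have hz : qf W ((2 * m + p) / 3) < qf W ((m + 2 * p) / 3) :=
    strictMonoOn_qf hW hu1 hu2 (by linarith)
  have hyz : y ≤ qf W ((2 * m + p) / 3) := by
    rw [← qf_W hW hyS]
    exact monotoneOn_qf hW.isDF (W_mem hyS) hu1 (by linarith)
  have h3 := slope_four S.conc hx (qf_mem_SW hW hu2) hxy hyz hz
  rw [W_qf hW hu1, W_qf hW hu2, pieces_top S.h12 (show v2 ≤ (2 * m + p) / 3 by linarith),
    pieces_top S.h12 (show v2 ≤ (m + 2 * p) / 3 by linarith),
    min_eq_left (monotoneOn_qf hW.isDF hu1 hpm (by linarith)),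
    min_eq_left (monotoneOn_qf hW.isDF hu2 hpm (by linarith))] at h3
  have e : (a2 + b2 * qf W ((m + 2 * p) / 3) - (a2 + b2 * qf W ((2 * m + p) / 3))) /
      (qf W ((m + 2 * p) / 3) - qf W ((2 * m + p) / 3)) = b2 := by
    have : qf W ((m + 2 * p) / 3) - qf W ((2 * m + p) / 3) ≠ 0 := by linarith
    rw [div_eq_iff this]; ring
  rw [e, le_div_iff₀ (by linarith)] at h3
  exact h3

lemma slope_ge' (hW : IsRef W) (P : Par n j p) (S : Sys W n j p v1 v2 a1 b1 a2 b2) {x y : ℝ}
    (hx : 0 < x) (hxy : x < y) (hy : y < p) :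
    b2 * (qf W y - qf W x) ≤ pieces W n j p v1 v2 a1 b1 a2 b2 y -
      pieces W n j p v1 v2 a1 b1 a2 b2 x := by
  have hpm : p ∈ Ioo (0:ℝ) 1 := ⟨P.hp0, P.hp1⟩
  have hx01 : x ∈ Ioo (0:ℝ) 1 := ⟨hx, (hxy.trans hy).trans P.hp1⟩
  have hy01 : y ∈ Ioo (0:ℝ) 1 := ⟨hx.trans hxy, hy.trans P.hp1⟩
  have h := slope_ge hW P S (qf_mem_SW hW hx01) (strictMonoOn_qf hW hx01 hy01 hxy)
    (strictMonoOn_qf hW hy01 hpm hy)
  rwa [W_qf hW hx01, W_qf hW hy01] at h

lemma CTr_pieces (hW : IsRef W) (P : Par n j p) (S : Sys W n j p v1 v2 a1 b1 a2 b2) :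
    CTr W p (fun y => pieces W n j p v1 v2 a1 b1 a2 b2 (W y)) := by
  have hpm : p ∈ Ioo (0:ℝ) 1 := ⟨P.hp0, P.hp1⟩
  have hpS := qf_mem_SW hW hpm
  have htop : ∀ y ∈ SW W, v2 ≤ W y → pieces W n j p v1 v2 a1 b1 a2 b2 (W y) =
      a2 + b2 * min y (qf W p) := fun y hy h => by
    rw [pieces_top S.h12 h, qf_W hW hy]
  have hconst : ∀ y ∈ SW W, qf W p ≤ y → pieces W n j p v1 v2 a1 b1 a2 b2 (W y) =
      a2 + b2 * qf W p := by
    intro y hy h
    have h3 : p ≤ W y := by
      have := hW.mono h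
      rwa [W_qf hW hpm] at this
    rw [htop y hy (S.h2p.le.trans h3), min_eq_right h]
  refine ⟨S.conc, ?_, ?_⟩
  · intro x hx y hy hxy
    show pieces W n j p v1 v2 a1 b1 a2 b2 (W x) ≤ pieces W n j p v1 v2 a1 b1 a2 b2 (W y)
    rcases eq_or_lt_of_le hxy with h | h
    · rw [h]
    rcases lt_or_ge y (qf W p) with h3 | h3
    · have h4 := slope_ge hW P S hx h h3
      have h5 := mul_pos S.hb2 (sub_pos.2 h)
      linarith
    · rw [hconst y hy h3]
      rcases lt_or_ge x (qf W p) with h4 | h4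
      · have hWx : W x < p := (lt_qf_iff hW hpm x).1 h4
        have hm : max (W x) v2 < p := max_lt hWx S.h2p
        set u := (max (W x) v2 + p) / 2 with hu
        have hu1 : max (W x) v2 < u := by rw [hu]; linarith
        have hup : u < p := by rw [hu]; linarith
        have hxu : W x < u := lt_of_le_of_lt (le_max_left _ _) hu1
        have hvu : v2 < u := lt_of_le_of_lt (le_max_right _ _) hu1
        have hu01 : u ∈ Ioo (0:ℝ) 1 := ⟨(W_mem hx).1.trans hxu, hup.trans P.hp1⟩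
        have hxq : x < qf W u := (lt_qf_iff hW hu01 x).2 hxu
        have hqp : qf W u < qf W p := strictMonoOn_qf hW hu01 hpm hup
        have h5 := slope_ge hW P S hx hxq hqp
        rw [htop _ (qf_mem_SW hW hu01) (by rw [W_qf hW hu01]; exact hvu.le), min_eq_left hqp.le] at h5
        have h6 := mul_pos S.hb2 (sub_pos.2 hxq)
        have h7 := mul_pos S.hb2 (sub_pos.2 hqp)
        linarith
      · rw [hconst x hx h4]
  · intro y hy h
    show pieces W n j p v1 v2 a1 b1 a2 b2 (W y) = pieces W n j p v1 v2 a1 b1 a2 b2 (W (qf W p))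
    rw [hconst y hy h, hconst _ hpS le_rfl]

lemma contAt_pieces (hW : IsRef W) (S : Sys W n j p v1 v2 a1 b1 a2 b2) {u : ℝ}
    (hu : u ∈ Ioo (0:ℝ) 1) : ContinuousAt (pieces W n j p v1 v2 a1 b1 a2 b2) u := by
  have h1 : ContinuousOn (fun y => -pieces W n j p v1 v2 a1 b1 a2 b2 (W y)) (SW W) :=
    ConvexOn.continuousOn (isOpen_SW hW) S.conc.neg
  have h3 : ContinuousAt (fun y => -pieces W n j p v1 v2 a1 b1 a2 b2 (W y)) (qf W u) :=
    h1.continuousAt ((isOpen_SW hW).mem_nhds (qf_mem_SW hW hu))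
  have h4 := (h3.comp (contAt_qf hW hu)).neg
  refine h4.congr ?_
  filter_upwards [Ioo_mem_nhds hu.1 hu.2] with v hv
  show -(-pieces W n j p v1 v2 a1 b1 a2 b2 (W (qf W v))) = _
  rw [neg_neg, W_qf hW hv]

lemma mono_pieces (hW : IsRef W) (P : Par n j p) (S : Sys W n j p v1 v2 a1 b1 a2 b2) :
    MonotoneOn (pieces W n j p v1 v2 a1 b1 a2 b2) (Ioo 0 1) := by
  intro x hx y hy hxy
  have h := (CTr_pieces hW P S).mono (qf_mem_SW hW hx) (qf_mem_SW hW hy)
    (monotoneOn_qf hW.isDF hx hy hxy)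
  rwa [W_qf hW hx, W_qf hW hy] at h

lemma memLp_pieces (hW : IsRef W) (h2 : NegSq W) (P : Par n j p)
    (S : Sys W n j p v1 v2 a1 b1 a2 b2) :
    MemLp (pieces W n j p v1 v2 a1 b1 a2 b2) 2 uni := by
  have hpm : p ∈ Ioo (0:ℝ) 1 := ⟨P.hp0, P.hp1⟩
  have hz : MemLp (fun u => (|b1| + |b2|) * |zc W (qf W p) u|) 2 uni :=
    (memLp_zc hW h2 _).abs.const_mul _
  have hc : MemLp (fun _ : ℝ => |a1| + |a2|) 2 uni := memLp_const _
  have hf : MemLp (fun u => |fos n j u|) 2 uni := (memLp_fos n j).abs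
  refine ((hz.add hc).add hf).mono' (aemeasurable_of_monotoneOn (mono_pieces hW P S)).aestronglyMeasurable
    ((ae_restrict_iff' measurableSet_Ioo).2 (Eventually.of_forall fun u hu => ?_))
  rw [Real.norm_eq_abs]
  show |pieces W n j p v1 v2 a1 b1 a2 b2 u| ≤
    (|b1| + |b2|) * |zc W (qf W p) u| + (|a1| + |a2|) + |fos n j u|
  have k1 := abs_nonneg (fos n j u)
  have k2 := abs_nonneg (zc W (qf W p) u)
  have k3 := mul_nonneg (abs_nonneg b1) k2
  have k4 := mul_nonneg (abs_nonneg b2) k2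
  rcases lt_or_ge u v1 with h | h
  · rw [pieces_lt h]
    have e : qf W u = zc W (qf W p) u :=
      (min_eq_left (monotoneOn_qf hW.isDF hu hpm (h.le.trans (S.h12.trans S.h2p.le)))).symm
    rw [e]
    have h3 : |a1 + b1 * zc W (qf W p) u| ≤ |a1| + |b1| * |zc W (qf W p) u| := by
      rw [← abs_mul]; exact abs_add_le _ _
    linarith [abs_nonneg a2]
  · rcases lt_or_ge u v2 with h' | h'
    · rw [pieces_mid h h', abs_neg]
      linarith [abs_nonneg a1, abs_nonneg a2]
    · rw [pieces_top S.h12 h']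
      have h3 : |a2 + b2 * zc W (qf W p) u| ≤ |a2| + |b2| * |zc W (qf W p) u| := by
        rw [← abs_mul]; exact abs_add_le _ _
      have h4 : |a2 + b2 * min (qf W u) (qf W p)| ≤ |a2| + |b2| * |zc W (qf W p) u| := h3
      linarith [abs_nonneg a1]

lemma split3 {G : ℝ → ℝ} (hG : IntegrableOn G (Ioo (0:ℝ) 1)) (h0 : 0 ≤ v1) (h12 : v1 ≤ v2)
    (h21 : v2 < 1) (hz : ∀ u ∈ Ioo v1 v2, G u = 0) :
    ∫ u in Ioo (0:ℝ) 1, G u = (∫ u in Ioo 0 v1, G u) + ∫ u in Ioo v2 1, G u := by
  have hmid : ∫ u in Ioo v1 v2, G u = 0 := by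
    rw [int_Ioo_congr (h := fun _ => 0) hz]; simp
  rcases eq_or_lt_of_le (h0.trans h12) with h | h
  · have h3 : v1 = 0 := le_antisymm (by rw [h]; exact h12) h0
    rw [← h, h3]; simp
  · rw [split_uni h h21 hG]
    rcases eq_or_lt_of_le h0 with h3 | h3
    · rw [← h3] at hmid ⊢
      rw [hmid]; simp
    · rcases eq_or_lt_of_le h12 with h4 | h4
      · rw [h4]
      · rw [split_uni h3 h4 (hG.mono_set (Ioo_subset_Ioo_right h21.le)), hmid, add_zero]

/-- Every solution of the system gives the optimal transform. -/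
lemma optTr_of_sys (hW : IsRef W) (h2 : NegSq W) (P : Par n j p) (hU : CvxCnc W n j p)
    (S : Sys W n j p v1 v2 a1 b1 a2 b2) :
    OptTr W n j p (fun y => pieces W n j p v1 v2 a1 b1 a2 b2 (W y)) := by
  have hpm : p ∈ Ioo (0:ℝ) 1 := ⟨P.hp0, P.hp1⟩
  have hpS := qf_mem_SW hW hpm
  set N := pieces W n j p v1 v2 a1 b1 a2 b2 with hNdef
  have hN2 : MemLp N 2 uni := memLp_pieces hW h2 P S
  have hv21 : v2 < 1 := S.h2p.trans P.hp1
  have hv1p : v1 < p := lt_of_le_of_lt S.h12 S.h2p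
  set R : ℝ → ℝ := fun u => N u + h00 n j p u with hRdef
  have hR2 : MemLp R 2 uni := hN2.add (memLp_h00 n j p)
  have hRi : IntegrableOn R (Ioo (0:ℝ) 1) := hR2.integrable (by norm_num)
  have hNi : IntegrableOn N (Ioo (0:ℝ) 1) := hN2.integrable (by norm_num)
  have hhi : IntegrableOn (h00 n j p) (Ioo (0:ℝ) 1) := (memLp_h00 n j p).integrable (by norm_num)
  have hRf : ∀ u, u < p → R u = N u + fos n j u := fun u hu => by
    show N u + h00 n j p u = _
    unfold h00; rw [if_pos hu]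
  have hR0 : ∀ u ∈ Ioo v1 v2, R u = 0 := fun u hu => by
    rw [hRf u (hu.2.trans S.h2p), hNdef, pieces_mid hu.1.le hu.2]; ring
  have E1 : ∫ u in Ioo 0 v1, R u = 0 := by
    rw [int_Ioo_congr (h := fun u => N u + fos n j u) (fun u hu => hRf u (hu.2.trans hv1p))]
    exact S.e1
  have E2 : ∫ u in Ioo 0 v1, R u * qf W u = 0 := by
    rw [int_Ioo_congr (h := fun u => (N u + fos n j u) * qf W u) (fun u hu => by
      rw [hRf u (hu.2.trans hv1p)])]
    exact S.e2
  have E3 : ∫ u in Ioo v2 1, R u = 0 := S.e3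
  have E4 : ∫ u in Ioo v2 1, R u * min (qf W u) (qf W p) = 0 := S.e4
  have izR : IntegrableOn (fun u => R u * min (qf W u) (qf W p)) (Ioo (0:ℝ) 1) := by
    have h3 : IntegrableOn (fun u => R u * zc W (qf W p) u) (Ioo (0:ℝ) 1) :=
      hR2.integrable_mul (memLp_zc hW h2 (qf W p))
    exact h3
  have hIR : ∫ u in Ioo (0:ℝ) 1, R u = 0 := by
    rw [split3 hRi S.h0 S.h12 hv21 hR0, E1, E3, add_zero]
  have hzq : ∀ u ∈ Ioo 0 v1, min (qf W u) (qf W p) = qf W u := fun u hu =>
    min_eq_left (monotoneOn_qf hW.isDF ⟨hu.1, (hu.2.trans hv1p).trans P.hp1⟩ hpm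
      (hu.2.trans hv1p).le)
  have hv1int : ∀ c d : ℝ, ∫ u in Ioo 0 v1, (c * R u + d * (R u * min (qf W u) (qf W p))) = 0 := by
    intro c d
    have hsub : Ioo 0 v1 ⊆ Ioo (0:ℝ) 1 := Ioo_subset_Ioo_right (hv1p.trans P.hp1).le
    rw [integral_add ((hRi.mono_set hsub).const_mul _) ((izR.mono_set hsub).const_mul _),
      integral_const_mul, integral_const_mul, E1,
      int_Ioo_congr (h := fun u => R u * qf W u) (fun u hu => by rw [hzq u hu]), E2]
    ring
  have hv2int : ∀ c d : ℝ, ∫ u in Ioo v2 1, (c * R u + d * (R u * min (qf W u) (qf W p))) = 0 := by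
    intro c d
    have hsub : Ioo v2 1 ⊆ Ioo (0:ℝ) 1 := Ioo_subset_Ioo_left (S.h0.trans S.h12)
    rw [integral_add ((hRi.mono_set hsub).const_mul _) ((izR.mono_set hsub).const_mul _),
      integral_const_mul, integral_const_mul, E3, E4]
    ring
  have hφq : ∀ u ∈ Ioo (0:ℝ) 1, (fun y => N (W y)) (qf W u) = N u := fun u hu => by
    show N (W (qf W u)) = N u
    rw [W_qf hW hu]
  have hφN2 : MemLp (fun u => (fun y => N (W y)) (qf W u)) 2 uni := by
    refine (memLp_congr_ae ?_).1 hN2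
    exact (ae_restrict_iff' measurableSet_Ioo).2 (Eventually.of_forall fun u hu => (hφq u hu).symm)
  have hmean : ∫ u in Ioo (0:ℝ) 1, N u = 0 := by
    have h3 : ∫ u in Ioo (0:ℝ) 1, R u =
        (∫ u in Ioo (0:ℝ) 1, N u) + ∫ u in Ioo (0:ℝ) 1, h00 n j p u := integral_add hNi hhi
    rw [hIR, int_h00 P] at h3
    linarith
  have iNR : IntegrableOn (fun u => N u * R u) (Ioo (0:ℝ) 1) := hN2.integrable_mul hR2
  have iNh : IntegrableOn (fun u => N u * h00 n j p u) (Ioo (0:ℝ) 1) :=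
    hN2.integrable_mul (memLp_h00 n j p)
  have hNR : ∫ u in Ioo (0:ℝ) 1, N u * R u = 0 := by
    rw [split3 iNR S.h0 S.h12 hv21 (fun u hu => by rw [hR0 u hu, mul_zero])]
    rw [int_Ioo_congr (h := fun u => a1 * R u + b1 * (R u * min (qf W u) (qf W p)))
      (fun u hu => by rw [hzq u hu, hNdef, pieces_lt hu.2]; ring), hv1int,
      int_Ioo_congr (h := fun u => a2 * R u + b2 * (R u * min (qf W u) (qf W p)))
      (fun u hu => by rw [hNdef, pieces_top S.h12 hu.1.le]; ring), hv2int]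
    ring
  have hcont : ContinuousOn N (Ioo 0 1) := fun u hu =>
    (contAt_pieces hW S hu).continuousWithinAt
  -- the test functions
  have htest : ∀ t ∈ SW W, t ≤ qf W p → ∫ u in Ioo (0:ℝ) 1, pc W t u * R u ≤ 0 := by
    intro t ht htp
    have ip : IntegrableOn (fun u => pc W t u * R u) (Ioo (0:ℝ) 1) :=
      (memLp_pc hW h2 t).integrable_mul hR2
    rcases eq_or_lt_of_le (S.h0.trans S.h12) with hv20 | hv20
    · -- no break
      have hv10 : v1 = 0 := le_antisymm (by rw [hv20]; exact S.h12) S.h0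
      rcases eq_or_lt_of_le htp with h3 | h3
      · have : ∫ u in Ioo (0:ℝ) 1, pc W t u * R u =
            ∫ u in Ioo v2 1, (qf W p * R u + (-1) * (R u * min (qf W u) (qf W p))) := by
          rw [← hv20]
          refine int_Ioo_congr fun u hu => ?_
          rw [pc_eq, h3]
          unfold zc; ring
        rw [this, hv2int]
      · have hWt := W_mem ht
        have hWtp : W t < p := (lt_qf_iff hW hpm t).1 h3
        have hf := S.first hv20.symm (W t) ⟨hWt.1, hWtp⟩
        rw [split_uni hWt.1 hWt.2 ip]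
        have e1 : ∫ u in Ioo (W t) 1, pc W t u * R u = 0 := by
          rw [int_Ioo_congr (h := fun _ => 0)]; · simp
          intro u hu
          have hu01 : u ∈ Ioo (0:ℝ) 1 := ⟨hWt.1.trans hu.1, hu.2⟩
          have : t < qf W u := (lt_qf_iff hW hu01 t).2 hu.1
          unfold pc
          rw [max_eq_right (by linarith), zero_mul]
        have e2 : ∫ u in Ioo 0 (W t), pc W t u * R u =
            ∫ u in Ioo 0 (W t), (qf W (W t) - qf W u) * (N u + fos n j u) := by
          refine int_Ioo_congr fun u hu => ?_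
          have hu01 : u ∈ Ioo (0:ℝ) 1 := ⟨hu.1, hu.2.trans hWt.2⟩
          have h4 : qf W u < t := (qf_lt_iff hW hu01 ht).2 hu.2
          rw [hRf u (hu.2.trans hWtp), qf_W hW ht]
          unfold pc
          rw [max_eq_left (by linarith)]
        rw [e1, e2, add_zero]
        exact hf
    · rw [split3 ip S.h0 S.h12 hv21 (fun u hu => by rw [hR0 u hu, mul_zero])]
      have hv201 : v2 ∈ Ioo (0:ℝ) 1 := ⟨hv20, hv21⟩
      have hleft : ∫ u in Ioo 0 v1, pc W t u * R u ≤ 0 := by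
        rcases eq_or_lt_of_le S.h0 with h3 | h3
        · rw [← h3]; simp
        · have hv101 : v1 ∈ Ioo (0:ℝ) 1 := ⟨h3, hv1p.trans P.hp1⟩
          have hNv1 : N v1 = a1 + b1 * qf W v1 :=
            eq_right_end (G := fun u => a1 + b1 * qf W u) h3 (contAt_pieces hW S hv101)
              (continuousAt_const.add (continuousAt_const.mul (contAt_qf hW hv101)))
              (fun u hu => by rw [hNdef, pieces_lt hu.2])
          have hb1 : 0 < b1 := by
            have h4 := slope_ge' hW P S (x := v1 / 3) (y := v1 / 2) (by linarith) (by linarith)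
              (by linarith)
            rw [pieces_lt (show v1 / 3 < v1 by linarith), pieces_lt (show v1 / 2 < v1 by linarith)] at h4
            have h5 : qf W (v1 / 3) < qf W (v1 / 2) := strictMonoOn_qf hW
              ⟨by linarith, by linarith [hv101.2]⟩ ⟨by linarith, by linarith [hv101.2]⟩ (by linarith)
            have h6 := mul_pos S.hb2 (sub_pos.2 h5)
            have h7 : 0 < b1 * (qf W (v1 / 2) - qf W (v1 / 3)) := by linarith
            exact pos_of_mul_pos_left h7 (by linarith)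
          have hR1 : a1 + b1 * qf W v1 + fos n j v1 ≤ 0 := by
            rcases eq_or_lt_of_le S.h12 with h4 | h4
            · have := S.kink h4 h3
              rw [← hNdef, hNv1] at this
              linarith
            · have h5 : N v1 = -fos n j v1 := by rw [hNdef]; exact pieces_mid le_rfl h4
              rw [hNv1] at h5
              linarith
          have hRA : ∀ u ∈ Ioo 0 v1, R u = RA W n j p a1 b1 u := by
            intro u hu
            rw [hRf u (hu.2.trans hv1p), hNdef, pieces_lt hu.2]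
            unfold RA zc
            rw [hzq u hu]
          have F1 : ∫ u in Ioo 0 v1, RA W n j p a1 b1 u = 0 :=
            (int_Ioo_congr fun u hu => (hRA u hu).symm).trans E1
          have F2 : ∫ u in Ioo 0 v1, RA W n j p a1 b1 u * zc W (qf W p) u = 0 := by
            refine Eq.trans (int_Ioo_congr fun u hu => ?_) E2
            have h4 : zc W (qf W p) u = qf W u := hzq u hu
            rw [← hRA u hu, h4]
          have h6 := claimA hW h2 P hU ⟨h3, hv1p⟩ hb1 hR1 F1 F2 t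
          rw [int_Ioo_congr (h := fun u => pc W t u * RA W n j p a1 b1 u) (fun u hu => by
            rw [hRA u hu])]
          exact h6
      have hright : ∫ u in Ioo v2 1, pc W t u * R u ≤ 0 := by
        refine claimB hW h2 P ⟨hv20, S.h2p⟩ hR2 ?_ ?_ htp
        · intro x hx y hy hxy hRx
          by_contra hRy
          push Not at hRy
          have hx0 : 0 < x := hv20.trans hx.1
          have hx01 : x ∈ Ioo (0:ℝ) 1 := ⟨hx0, hx.2.trans P.hp1⟩
          have hy01 : y ∈ Ioo (0:ℝ) 1 := ⟨hx0.trans hxy, hy.2.trans P.hp1⟩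
          rw [hRf x hx.2] at hRx
          rw [hRf y hy.2] at hRy
          have hNx : N x = a2 + b2 * qf W x := by
            rw [hNdef, pieces_top S.h12 hx.1.le, min_eq_left (monotoneOn_qf hW.isDF hx01 hpm hx.2.le)]
          have hNy : N y = a2 + b2 * qf W y := by
            rw [hNdef, pieces_top S.h12 hy.1.le, min_eq_left (monotoneOn_qf hW.isDF hy01 hpm hy.2.le)]
          have hNv : N v2 = a2 + b2 * qf W v2 := by
            rw [hNdef, pieces_top S.h12 le_rfl, min_eq_left (monotoneOn_qf hW.isDF hv201 hpm S.h2p.le)]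
          have hRv : N v2 + fos n j v2 ≤ 0 := by
            rcases eq_or_lt_of_le S.h12 with h4 | h4
            · have := S.kink h4 (by rw [h4]; exact hv20)
              rw [← hNdef, h4] at this
              linarith
            · have h5 : N v2 = -fos n j v2 :=
                eq_right_end (G := fun u => -fos n j u) h4 (contAt_pieces hW S hv201)
                  (continuous_fos n j).neg.continuousAt (fun u hu => by
                    rw [hNdef]; exact pieces_mid hu.1.le hu.2)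
              linarith
          have gq : ∀ u ∈ Ioo (0:ℝ) 1, gW W n j (qf W u) = -fos n j u := fun u hu => by
            unfold gW; rw [W_qf hW hu]
          obtain ⟨x1, x2, hx1, hx12, hx2, hslope⟩ : ∃ x1 x2 : ℝ, 0 < x1 ∧ x1 < x2 ∧ x2 ≤ v2 ∧
              b2 * (qf W x2 - qf W x1) ≤ -fos n j x2 - -fos n j x1 := by
            rcases eq_or_lt_of_le S.h12 with h4 | h4
            · have h10 : 0 < v1 := by rw [h4]; exact hv20
              obtain ⟨x0, hx0m, hx0R⟩ : ∃ x0 ∈ Ioo 0 v1, 0 ≤ R x0 := by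
                by_contra hcon
                push Not at hcon
                have h5 : 0 < ∫ u in Ioo 0 v1, -R u := by
                  rw [ioo_eq_interval h10.le]
                  refine intervalIntegral.intervalIntegral_pos_of_pos_on ?_ (fun u hu => by
                    linarith [hcon u hu]) h10
                  rw [intervalIntegrable_iff_integrableOn_Ioo_of_le h10.le]
                  exact (hRi.mono_set (Ioo_subset_Ioo_right (hv1p.trans P.hp1).le)).neg
                rw [integral_neg, E1] at h5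
                simp at h5
              rw [hRf x0 (hx0m.2.trans hv1p)] at hx0R
              refine ⟨x0, v1, hx0m.1, hx0m.2, S.h12, ?_⟩
              have h6 := slope_ge' hW P S hx0m.1 hx0m.2 hv1p
              rw [← hNdef] at h6
              rw [← h4] at hRv
              linarith
            · refine ⟨(2 * v1 + v2) / 3, (v1 + 2 * v2) / 3, by linarith [S.h0], by linarith,
                by linarith, ?_⟩
              have h6 := slope_ge' hW P S (x := (2 * v1 + v2) / 3) (y := (v1 + 2 * v2) / 3)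
                (by linarith [S.h0]) (by linarith) (by linarith [S.h2p])
              rw [pieces_mid (by linarith) (by linarith), pieces_mid (by linarith) (by linarith)] at h6
              exact h6
          have hx201 : x2 ∈ Ioo (0:ℝ) 1 := ⟨hx1.trans hx12, lt_of_le_of_lt hx2 hv21⟩
          have hx101 : x1 ∈ Ioo (0:ℝ) 1 := ⟨hx1, hx12.trans hx201.2⟩
          exact no_dip hW P hU S.hb2 (qf_mem_SW hW hx101) (qf_mem_SW hW hy01)
            (monotoneOn_qf hW.isDF hy01 hpm hy.2.le) (strictMonoOn_qf hW hx101 hx201 hx12)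
            (monotoneOn_qf hW.isDF hx201 hv201 hx2) (strictMonoOn_qf hW hv201 hx01 hx.1)
            (strictMonoOn_qf hW hx01 hy01 hxy)
            (by rw [gq _ hx101, gq _ hx201]; exact hslope)
            (by rw [gq _ hx01, gq _ hv201]; linarith)
            (by rw [gq _ hx01, gq _ hy01]; linarith)
        · have : ∫ u in Ioo v2 1, pc W (qf W p) u * R u =
              ∫ u in Ioo v2 1, (qf W p * R u + (-1) * (R u * min (qf W u) (qf W p))) := by
            refine int_Ioo_congr fun u hu => ?_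
            rw [pc_eq]
            unfold zc; ring
          rw [this, hv2int]
      linarith
  have hWN : ∀ u ∈ Ioo (0:ℝ) 1, N (W (qf W u)) = N u := hφq
  refine ⟨CTr_pieces hW P S, hφN2, ?_, ?_, ?_, ?_⟩
  · show ∫ u in Ioo (0:ℝ) 1, N (W (qf W u)) = 0
    rw [int_congr_uni hWN]; exact hmean
  · show -(∫ u in Ioo (0:ℝ) 1, N (W (qf W u)) * h00 n j p u) =
      ∫ u in Ioo (0:ℝ) 1, N (W (qf W u)) ^ 2
    have k1 : ∫ u in Ioo (0:ℝ) 1, N (W (qf W u)) * h00 n j p u =
        ∫ u in Ioo (0:ℝ) 1, N u * h00 n j p u := int_congr_uni fun u hu => by rw [hWN u hu]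
    have k2 : ∫ u in Ioo (0:ℝ) 1, N (W (qf W u)) ^ 2 =
        ∫ u in Ioo (0:ℝ) 1, N u ^ 2 := int_congr_uni fun u hu => by rw [hWN u hu]
    rw [k1, k2]
    have h3 : ∫ u in Ioo (0:ℝ) 1, N u * R u =
        (∫ u in Ioo (0:ℝ) 1, N u ^ 2) + ∫ u in Ioo (0:ℝ) 1, N u * h00 n j p u := by
      rw [← integral_add hN2.integrable_sq iNh]
      congr 1; funext u
      show N u * (N u + h00 n j p u) = _
      ring
    rw [hNR] at h3
    linarith
  · intro ψ hψ hψ2
    have h3 := conc_test hW hpS hψ.conc hψ.mono hR2 hψ2 h2 htest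
    have iψR : IntegrableOn (fun u => ψ (qf W u) * R u) (Ioo (0:ℝ) 1) := hψ2.integrable_mul hR2
    have iψh : IntegrableOn (fun u => ψ (qf W u) * h00 n j p u) (Ioo (0:ℝ) 1) :=
      hψ2.integrable_mul (memLp_h00 n j p)
    have iψN : IntegrableOn (fun u => ψ (qf W u) * N u) (Ioo (0:ℝ) 1) := hψ2.integrable_mul hN2
    have e : ∫ u in Ioo (0:ℝ) 1, (ψ (qf W p) - min (ψ (qf W u)) (ψ (qf W p))) * R u =
        ∫ u in Ioo (0:ℝ) 1, (ψ (qf W p) * R u - ψ (qf W u) * R u) := by
      refine int_congr_uni fun u hu => ?_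
      have : min (ψ (qf W u)) (ψ (qf W p)) = ψ (qf W u) := by
        rcases le_total u p with h | h
        · exact min_eq_left (hψ.mono (qf_mem_SW hW hu) hpS (monotoneOn_qf hW.isDF hu hpm h))
        · rw [hψ.const _ (qf_mem_SW hW hu) (monotoneOn_qf hW.isDF hpm hu h), min_self]
      rw [this]; ring
    rw [e, integral_sub (hRi.const_mul _) iψR, integral_const_mul, hIR] at h3
    have h4 : ∫ u in Ioo (0:ℝ) 1, ψ (qf W u) * R u =
        (∫ u in Ioo (0:ℝ) 1, ψ (qf W u) * N u) + ∫ u in Ioo (0:ℝ) 1, ψ (qf W u) * h00 n j p u := by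
      rw [← integral_add iψN iψh]
      congr 1; funext u
      show ψ (qf W u) * (N u + h00 n j p u) = _
      ring
    show -(∫ u in Ioo (0:ℝ) 1, ψ (qf W u) * h00 n j p u) ≤
      ∫ u in Ioo (0:ℝ) 1, ψ (qf W u) * N (W (qf W u))
    have k1 : ∫ u in Ioo (0:ℝ) 1, ψ (qf W u) * N (W (qf W u)) =
        ∫ u in Ioo (0:ℝ) 1, ψ (qf W u) * N u := int_congr_uni fun u hu => by rw [hWN u hu]
    rw [k1]
    linarith
  · show 0 < ∫ u in Ioo (0:ℝ) 1, N (W (qf W u)) ^ 2
    rw [int_congr_uni (h := fun u => N u ^ 2) (fun u hu => by rw [hWN u hu])]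
    have hnn : 0 ≤ ∫ u in Ioo (0:ℝ) 1, N u ^ 2 := integral_nonneg fun u => sq_nonneg _
    refine lt_of_le_of_ne hnn fun h => ?_
    have h3 := (integral_eq_zero_iff_of_nonneg_ae (Eventually.of_forall fun u => sq_nonneg _)
      hN2.integrable_sq).1 h.symm
    have h4 : ∀ᵐ u ∂uni, N u = (fun _ => (0:ℝ)) u := by
      filter_upwards [h3] with u hu
      have h6 : N u ^ 2 = 0 := hu
      exact pow_eq_zero_iff (two_ne_zero) |>.1 h6
    have h5 := eq_of_ae_eq_cont hcont continuousOn_const h4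
    have h6 := slope_ge' hW P S (x := p / 3) (y := p / 2) (by linarith [P.hp0])
      (by linarith [P.hp0]) (by linarith [P.hp0])
    have hp3 : p / 3 ∈ Ioo (0:ℝ) 1 := ⟨by linarith [P.hp0], by linarith [P.hp1, P.hp0]⟩
    have hp2 : p / 2 ∈ Ioo (0:ℝ) 1 := ⟨by linarith [P.hp0], by linarith [P.hp1, P.hp0]⟩
    rw [← hNdef, h5 _ hp3, h5 _ hp2] at h6
    have h7 : qf W (p / 3) < qf W (p / 2) := strictMonoOn_qf hW hp3 hp2 (by linarith [P.hp0])
    have h8 := mul_pos S.hb2 (sub_pos.2 h7)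
    linarith

/-- The optimal transform is unique. -/
lemma opt_unique (hW : IsRef W) {φ ψ : ℝ → ℝ} (O : OptTr W n j p φ) (O' : OptTr W n j p ψ) :
    ∀ u ∈ Ioo (0:ℝ) 1, φ (qf W u) = ψ (qf W u) := by
  have h1 := O.ineq ψ O'.ctr O'.memLp
  have h3 := O'.ineq φ O.ctr O.memLp
  rw [O'.eq] at h1
  rw [O.eq] at h3
  have i1 : IntegrableOn (fun u => ψ (qf W u) * φ (qf W u)) (Ioo (0:ℝ) 1) :=
    O'.memLp.integrable_mul O.memLp
  have i2 : IntegrableOn (fun u => φ (qf W u) * ψ (qf W u)) (Ioo (0:ℝ) 1) :=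
    O.memLp.integrable_mul O'.memLp
  have h4 : ∫ u in Ioo (0:ℝ) 1, (φ (qf W u) - ψ (qf W u)) ^ 2 ≤ 0 := by
    have e : ∀ u, (φ (qf W u) - ψ (qf W u)) ^ 2 = (φ (qf W u) ^ 2 - φ (qf W u) * ψ (qf W u)) +
        (ψ (qf W u) ^ 2 - ψ (qf W u) * φ (qf W u)) := fun u => by ring
    simp only [e]
    have j1 : IntegrableOn (fun u => φ (qf W u) ^ 2 - φ (qf W u) * ψ (qf W u)) (Ioo (0:ℝ) 1) :=
      O.memLp.integrable_sq.sub i2
    have j2 : IntegrableOn (fun u => ψ (qf W u) ^ 2 - ψ (qf W u) * φ (qf W u)) (Ioo (0:ℝ) 1) :=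
      O'.memLp.integrable_sq.sub i1
    rw [integral_add j1 j2, integral_sub O.memLp.integrable_sq i2,
      integral_sub O'.memLp.integrable_sq i1]
    linarith
  have h5 : MemLp (fun u => φ (qf W u) - ψ (qf W u)) 2 uni := O.memLp.sub O'.memLp
  have h6 : ∫ u in Ioo (0:ℝ) 1, (φ (qf W u) - ψ (qf W u)) ^ 2 = 0 :=
    le_antisymm h4 (integral_nonneg fun u => sq_nonneg _)
  have h7 := (integral_eq_zero_iff_of_nonneg_ae (Eventually.of_forall fun u => sq_nonneg _)
    h5.integrable_sq).1 h6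
  refine eq_of_ae_eq_cont (cont_opt hW O) (cont_opt hW O') ?_
  filter_upwards [h7] with u hu
  have h8 : (φ (qf W u) - ψ (qf W u)) ^ 2 = 0 := hu
  have := pow_eq_zero_iff (two_ne_zero) |>.1 h8
  linarith

/-- The lower bound over the convex family from the explicit system. -/
theorem conv_inf_system (hW : IsRef W) (h2 : NegSq W) (P : Par n j p) (hU : CvxCnc W n j p) :
    (∃ v1 v2 a1 b1 a2 b2 : ℝ, Sys W n j p v1 v2 a1 b1 a2 b2) ∧
    ∀ v1 v2 a1 b1 a2 b2 : ℝ, Sys W n j p v1 v2 a1 b1 a2 b2 →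
      lawOf (pieces W n j p v1 v2 a1 b1 a2 b2) ∈ CFam W ∧
      IsLeast (bias n j p '' CFam W)
        (-Real.sqrt (∫ u in Ioo (0:ℝ) 1, pieces W n j p v1 v2 a1 b1 a2 b2 u ^ 2)) ∧
      ∀ μ ∈ CFam W, bias n j p μ =
          -Real.sqrt (∫ u in Ioo (0:ℝ) 1, pieces W n j p v1 v2 a1 b1 a2 b2 u ^ 2) ↔
        ∃ b c : ℝ, 0 < c ∧ μ = (lawOf (pieces W n j p v1 v2 a1 b1 a2 b2)).map (fun x => b + c * x) := by
  obtain ⟨φ, O, ν, hν, hq, hB, -, hmin, -, huniq, -⟩ := conv_lower_general' hW h2 P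
  refine ⟨?_, ?_⟩
  · obtain ⟨v1, v2, a1, b1, a2, b2, S, -⟩ := exists_pieces hW h2 P hU O
    exact ⟨v1, v2, a1, b1, a2, b2, S⟩
  · intro v1 v2 a1 b1 a2 b2 S
    have O' := optTr_of_sys hW h2 P hU S
    have he : ∀ u ∈ Ioo (0:ℝ) 1, pieces W n j p v1 v2 a1 b1 a2 b2 u = φ (qf W u) := by
      intro u hu
      have := opt_unique hW O' O u hu
      rwa [W_qf hW hu] at this
    have hqN : ∀ u ∈ Ioo (0:ℝ) 1, qf (cdf ν) u = pieces W n j p v1 v2 a1 b1 a2 b2 u := fun u hu => by
      rw [hq u hu, he u hu]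
    have hlaw : lawOf (pieces W n j p v1 v2 a1 b1 a2 b2) = ν := by
      have := hν.1.prob
      rw [← map_qf ν]
      unfold lawOf
      refine Measure.map_congr ?_
      exact (ae_restrict_iff' measurableSet_Ioo).2 (Eventually.of_forall fun u hu => (hqN u hu).symm)
    have hV : ∫ u in Ioo (0:ℝ) 1, pieces W n j p v1 v2 a1 b1 a2 b2 u ^ 2 =
        ∫ u in Ioo (0:ℝ) 1, φ (qf W u) ^ 2 := int_congr_uni fun u hu => by rw [he u hu]
    rw [hlaw, hV, ← hB]
    refine ⟨hν, ⟨⟨ν, hν, rfl⟩, ?_⟩, fun μ hμ => ⟨fun heq => ?_, ?_⟩⟩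
    · rintro _ ⟨μ, hμ, rfl⟩
      exact hmin μ hμ
    · obtain ⟨b, c, hc, hq'⟩ := huniq μ hμ heq
      have e := (eq_map_iff hμ.1.prob (adm_mono hν.1)
        (leftCont_qf (@isDF_cdf ν hν.1.prob)) hc (b := b)).2 hq'
      have e2 : lawOf (qf (cdf ν)) = ν := by
        have := hν.1.prob
        exact map_qf ν
      rw [e2] at e
      exact ⟨b, c, hc, e⟩
    · rintro ⟨b, c, hc, hq'⟩
      have e2 : lawOf (qf (cdf ν)) = ν := by
        have := hν.1.prob
        exact map_qf ν
      rw [← e2] at hq'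
      have e := (eq_map_iff hμ.1.prob (adm_mono hν.1)
        (leftCont_qf (@isDF_cdf ν hν.1.prob)) hc (b := b)).1 hq'
      exact bias_affine hμ.1 hν.1 P hc e

end lem

end

end Pool.Agent.Lib.QBias
end
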